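import Mathlib
import Pool.Graph.R_seed8.W719.AEC.Defs

/-!
# Statements for the project AE (a family of graph manifolds, quantum SU(2) invariants)
-/

set_option autoImplicit false

open Finset Polynomial

namespace H572AE

/-- The power sum of cosecants. -/
noncomputable def Cs (h r : ℕ) : ℝ := ∑ b ∈ Ico 1 r, 1 / Real.sin (Real.pi * b / r) ^ (2 * h)

/-- The sum over the labels of the second vertex. -/
noncomputable def Ps (h r a : ℕ) : ℝ :=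
  ∑ b ∈ Ico 1 r, Real.sin (Real.pi * a * b / r) ^ 2 / Real.sin (Real.pi * b / r) ^ (2 * h)

/-- The double sum. -/
noncomputable def Ts (g h r : ℕ) : ℝ :=
  ∑ a ∈ Ico 1 r, ∑ b ∈ Ico 1 r, Real.sin (Real.pi * a * b / r) ^ 2 /
    (Real.sin (Real.pi * a / r) ^ (2 * g) * Real.sin (Real.pi * b / r) ^ (2 * h))

/-- The plumbing graph with two vertices of genera g and h and Euler number 0 and two edges of opposite
signs joining them. Its closed oriented 3-manifold is the union of F × S^1 and F' × S^1, where F, F' are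
compact surfaces of genera g and h with two boundary circles each, glued along both boundary tori by
exchanging the fibre and the boundary of the base. -/
def pairGraph (g h : ℕ) : W719AEC.PlumbingGraph 2 2 where
  genus := ![g, h]
  euler := ![0, 0]
  src := ![0, 0]
  tgt := ![1, 1]
  positive := ![true, false]

/-- RED: the state sum. -/
def S_red : Prop := ∀ g h r : ℕ, 1 ≤ g → 1 ≤ h → 2 ≤ r →
  (pairGraph g h).Z 2 r = (((((r : ℝ) / 2) ^ (g + h - 1) * Ts g h r : ℝ)) : ℂ)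

/-- The odd central factorial polynomials X (X^2 - 1) ... (X^2 - n^2). -/
noncomputable def V : ℕ → ℝ[X]
  | 0 => X
  | n + 1 => V n * (X ^ 2 - C (((n : ℝ) + 1) ^ 2))

/-- Odd basis polynomials. -/
noncomputable def Od (n : ℕ) : ℝ[X] := C (1 / ((2 * n + 1).factorial : ℝ)) * V n

/-- Even basis polynomials. -/
noncomputable def Ev : ℕ → ℝ[X]
  | 0 => 1
  | n + 1 => C (1 / ((2 * n + 2).factorial : ℝ)) * (X * V n)

/-- PH: the polynomial formula for Ps. -/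
def S_ph : Prop := ∀ h r a : ℕ, 1 ≤ h → 1 ≤ r → a ≤ r →
  Ps h r a = (∑ j ∈ Ico 1 h, 2 * (-4) ^ (j - 1) * Cs (h - j) r * (Ev j).eval (a : ℝ)) -
    2 * (-4) ^ (h - 1) * (Ev h).eval (a : ℝ) + (-4) ^ (h - 1) * r * (Od (h - 1)).eval (a : ℝ)

/-- CP: the cosecant sums are polynomials. -/
def S_cp : Prop := ∀ h : ℕ, 1 ≤ h → ∃ p : ℝ[X], p.natDegree ≤ 2 * h ∧ ∀ r : ℕ, 1 ≤ r → Cs h r = p.eval (r : ℝ)

/-- EO: degrees and coefficients of the basis polynomials. -/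
def S_eo : Prop := (∀ j, (Ev j).natDegree ≤ 2 * j) ∧ (∀ j i, (Ev j).coeff (2 * i + 1) = 0) ∧
  (∀ n, (Od n).natDegree ≤ 2 * n + 1) ∧ (∀ n, (Od n).coeff (2 * n + 1) = 1 / ((2 * n + 1).factorial : ℝ))

/-- CSC: the principal part of the even powers of the cosecant. -/
def S_csc : Prop := ∀ g : ℕ, 1 ≤ g → ∃ c : ℕ → ℝ, (∀ s ∈ Icc 1 g, 0 < c s) ∧ ∃ B : ℝ, ∀ y : ℝ, 0 < y →
  y ≤ Real.pi / 2 → |1 / Real.sin y ^ (2 * g) - ∑ s ∈ Icc 1 g, c s / y ^ (2 * s)| ≤ B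

/-- PS: power sums. -/
def S_ps : Prop := ∀ (f : ℝ[X]) (d s : ℕ), 1 ≤ s → f.natDegree ≤ d → ∃ A B : ℝ, ∀ M : ℕ, 1 ≤ M →
  |(∑ a ∈ Icc 1 M, f.eval (a : ℝ) / (a : ℝ) ^ s) - A - f.coeff (s - 1) * Real.log M| ≤
    B * ((M : ℝ) ^ (d + 1) / (M : ℝ) ^ s)

/-- ASY: the asymptotic formula. -/
def S_asy : Prop := ∀ g h : ℕ, 1 ≤ h → h ≤ g → ∃ (P : ℝ[X]) (K B : ℝ), 0 < (-1) ^ (h - 1) * K ∧
  ∀ r : ℕ, 2 ≤ r → |Ts g h r - (P.eval (r : ℝ) + K * (r : ℝ) ^ (2 * h + 1) * Real.log r)| ≤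
    B * (r : ℝ) ^ (2 * h + 1)

/-- NE: a logarithm excludes an expansion. -/
def S_ne : Prop := ∀ (u : ℕ → ℝ) (P : ℝ[X]) (K B : ℝ) (q : ℕ), K ≠ 0 →
  (∀ n : ℕ, 2 ≤ n → |u n - (P.eval (n : ℝ) + K * (n : ℝ) ^ q * Real.log n)| ≤ B * (n : ℝ) ^ q) →
  ∀ ω : ℕ → ℂ, (∀ k, ‖ω k‖ = 1) → ¬ H524R3.HasExpansion 2 (fun k => ω k * ((u (k + 2) : ℝ) : ℂ))

/-- LB: a lower bound. -/
def S_lb : Prop := ∀ g h : ℕ, 1 ≤ h → 2 ≤ g → ∃ c : ℝ, 0 < c ∧
  ∀ r : ℕ, 2 ≤ r → c * (r : ℝ) ^ (2 * g + 2 * h - 2) ≤ Ts g h r ∧ c * (r : ℝ) ^ (2 * g + 1) ≤ Ts g h r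

end H572AE
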