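import Mathlib
import Pool.Agent.H572.AE.Stm

/-!
# Statements for the second part of the project AE: any number of edges
-/

set_option autoImplicit false

open Finset Polynomial

namespace H572AE

/-- The plumbing graph with two vertices of genera g and h and Euler number 0 and m edges joining them, with
arbitrary signs. -/
def twoGraph (g h : ℕ) {m : ℕ} (σ : Fin m → Bool) : W719AEC.PlumbingGraph 2 m where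
  genus := ![g, h]
  euler := ![0, 0]
  src := fun _ => 0
  tgt := fun _ => 1
  positive := σ

/-- The double sum. -/
noncomputable def TT (E A B r : ℕ) : ℝ :=
  ∑ a ∈ Ico 1 r, ∑ b ∈ Ico 1 r, Real.sin (Real.pi * a * b / r) ^ E /
    (Real.sin (Real.pi * a / r) ^ A * Real.sin (Real.pi * b / r) ^ B)

/-- RED2: the state sum. -/
def S_red2 : Prop := ∀ (g h m : ℕ) (σ : Fin m → Bool) (r : ℕ), 2 ≤ r → 2 ≤ 2 * g + m → 2 ≤ 2 * h + m →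
  (twoGraph g h σ).Z 2 r = (((Real.sqrt ((r : ℝ) / 2) ^ (2 * (g : ℤ) + 2 * (h : ℤ) + (m : ℤ) - 4) *
    TT m (2 * g + m - 2) (2 * h + m - 2) r : ℝ)) : ℂ)

/-- RED1: one edge, one vertex of genus 0. -/
def S_red1 : Prop := ∀ (g : ℕ) (σ : Fin 1 → Bool) (r : ℕ), 2 ≤ r →
  (twoGraph g 0 σ).Z 2 r = (((Real.sqrt (2 / (r : ℝ)) * Real.sin (Real.pi / r)) ^ (1 - 2 * (g : ℤ)) : ℝ) : ℂ) ∧
  (twoGraph 0 g σ).Z 2 r = (((Real.sqrt (2 / (r : ℝ)) * Real.sin (Real.pi / r)) ^ (1 - 2 * (g : ℤ)) : ℝ) : ℂ)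

/-- SINP: even powers of the sine. -/
def S_sinp : Prop := ∀ (k : ℕ) (u : ℝ), 1 ≤ k → Real.sin u ^ (2 * k) =
  ∑ j ∈ Icc 1 k, ((-1) ^ (j + 1) * ((2 * k).choose (k - j) : ℝ) * 4 / 4 ^ k) * Real.sin (j * u) ^ 2

/-- SINO: odd powers of the sine. -/
def S_sino : Prop := ∀ (k : ℕ) (u : ℝ), Real.sin u ^ (2 * k + 1) =
  ∑ i ∈ range (k + 1), ((-1) ^ i * ((2 * k + 1).choose (k - i) : ℝ) / 4 ^ k) * Real.sin ((2 * i + 1) * u)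

/-- The alternating binomial sums. -/
def MM (n p : ℕ) : ℤ := ∑ j ∈ range ((n + 1) / 2), (-1) ^ j * (n.choose j : ℤ) * ((n : ℤ) - 2 * j) ^ p

/-- NV: they do not vanish. -/
def S_nv : Prop := ∀ n p : ℕ, 1 ≤ n → (n + p) % 2 = 1 → n ≤ p + 3 → MM n p ≠ 0

/-- CSC2: the principal part of the powers of the cosecant. -/
def S_csc2 : Prop := ∀ A : ℕ, 1 ≤ A → ∃ c : ℕ → ℝ, 0 < c A ∧ (∀ s ∈ Icc 1 A, (s + A) % 2 = 0 → 0 < c s) ∧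
  (∀ s, (s + A) % 2 = 1 → c s = 0) ∧ ∃ B : ℝ, ∀ y : ℝ, 0 < y →
  y ≤ Real.pi / 2 → |1 / Real.sin y ^ A - ∑ s ∈ Icc 1 A, c s / y ^ s| ≤ B

/-- The odd sums. -/
noncomputable def RO (H r c : ℕ) : ℝ :=
  ∑ b ∈ Ico 1 r, Real.sin (Real.pi * c * b / r) / Real.sin (Real.pi * b / r) ^ (2 * H - 1)

/-- The polynomials (X^2 - 1) (X^2 - 9) ... (X^2 - (2n-1)^2). -/
noncomputable def VO : ℕ → ℝ[X]
  | 0 => 1
  | n + 1 => VO n * (X ^ 2 - C ((2 * (n : ℝ) + 1) ^ 2))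

/-- PHO: the polynomial formula for the odd sums. -/
def S_pho : Prop := ∀ H r c : ℕ, 1 ≤ H → 1 ≤ r → c % 2 = 1 → c < 2 * r →
  RO H r c = (∑ i ∈ range (H - 1), (-1) ^ i * Cs (H - 1 - i) r *
      ((X * VO i).eval (c : ℝ) / ((2 * i + 1).factorial : ℝ))) +
    (-1) ^ (H - 1) * (r * (VO (H - 1)).eval (c : ℝ) / ((2 * H - 2).factorial : ℝ) -
      (X * VO (H - 1)).eval (c : ℝ) / ((2 * H - 1).factorial : ℝ))

/-- PHE: the odd sums at the other end (follows from PHO and the polynomiality of Cs). -/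
def S_phe : Prop := ∀ H : ℕ, 1 ≤ H → ∃ ρ : ℕ → ℝ[X], (∀ i < H, (ρ i).natDegree ≤ 2 * (H - 1 - i)) ∧
  ∃ r₀ : ℕ, ∀ r a : ℕ, r₀ ≤ r → a < r → (a + r) % 2 = 1 →
    RO H r (r - a) = ∑ i ∈ range H, (ρ i).eval (r : ℝ) * (a : ℝ) ^ (2 * i + 1)

/-- EVO: degrees and coefficients of VO. -/
def S_evo : Prop := (∀ n, (VO n).natDegree ≤ 2 * n) ∧ (∀ n i, (VO n).coeff (2 * i + 1) = 0) ∧
  (∀ n, (VO n).coeff (2 * n) = 1)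

/-- PS2: power sums over a parity class. -/
def S_ps2 : Prop := ∀ (f : ℝ[X]) (d s ε : ℕ), 1 ≤ s → ε < 2 → f.natDegree ≤ d → ∃ A B : ℝ, ∀ M : ℕ, 1 ≤ M →
  |(∑ a ∈ (Icc 1 M).filter (fun a => a % 2 = ε), f.eval (a : ℝ) / (a : ℝ) ^ s) - A -
    f.coeff (s - 1) * (Real.log M / 2)| ≤ B * ((M : ℝ) ^ (d + 1) / (M : ℝ) ^ s)

/-- CP, corrected. -/
def S_cp1 : Prop := ∀ h : ℕ, 1 ≤ h → ∃ p : ℝ[X], p.natDegree ≤ 2 * h ∧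
  ∀ r : ℕ, 1 ≤ r → Cs h r = p.eval (r : ℝ)

/-- ASYE: an even number 2k of edges. -/
def S_asye : Prop := ∀ k G H : ℕ, 1 ≤ k → 1 ≤ H → k ≤ H + 1 → H ≤ G → ∃ (P : ℝ[X]) (K B : ℝ), K ≠ 0 ∧
  ∀ r : ℕ, 2 ≤ r → |TT (2 * k) (2 * G) (2 * H) r - (P.eval (r : ℝ) +
    K * (r : ℝ) ^ (2 * H + 1) * Real.log r)| ≤ B * (r : ℝ) ^ (2 * H + 1)

/-- ASYO: an odd number 2k+1 of edges. -/
def S_asyo : Prop := ∀ k G H : ℕ, 1 ≤ H → k ≤ H → H ≤ G → ∃ (P Q : ℝ[X]) (K B : ℝ), K ≠ 0 ∧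
  ∀ r : ℕ, 2 ≤ r → |TT (2 * k + 1) (2 * G - 1) (2 * H - 1) r - (P.eval (r : ℝ) +
    (-1) ^ r * Q.eval (r : ℝ) + K * (r : ℝ) ^ (2 * H) * Real.log r)| ≤ B * (r : ℝ) ^ (2 * H)

/-- NE2: a logarithm excludes an expansion. -/
def S_ne2 : Prop := ∀ (u : ℕ → ℝ) (P Q : ℝ[X]) (K B : ℝ) (q : ℕ), K ≠ 0 →
  (∀ n : ℕ, 2 ≤ n → |u n - (P.eval (n : ℝ) + (-1) ^ n * Q.eval (n : ℝ) +
    K * (n : ℝ) ^ q * Real.log n)| ≤ B * (n : ℝ) ^ q) →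
  ∀ ω : ℕ → ℂ, (∀ k, ‖ω k‖ = 1) → ¬ H524R3.HasExpansion 2 (fun k => ω k * ((u (k + 2) : ℝ) : ℂ))

/-- MULP: powers of r do not matter. -/
def S_mulp : Prop := ∀ (h : ℕ) (τ : ℝ) (Z : ℕ → ℂ), H524R3.HasExpansion h Z → 1 ≤ h →
  H524R3.HasExpansion h (fun k => (((((k + h : ℕ) : ℝ) ^ τ : ℝ)) : ℂ) * Z k)

/-- POS2: polynomials have expansions. -/
def S_pos2 : Prop := ∀ P : ℝ[X], H524R3.HasExpansion 2 (fun k => ((P.eval ((k + 2 : ℕ) : ℝ) : ℝ) : ℂ))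

/-- POS1: powers of the quantum dimension factor have expansions. -/
def S_pos1 : Prop := ∀ n : ℤ, H524R3.HasExpansion 2
  (fun k => (((Real.sqrt (2 / ((k + 2 : ℕ) : ℝ)) * Real.sin (Real.pi / ((k + 2 : ℕ) : ℝ))) ^ n : ℝ) : ℂ))

/-- LB2: lower bound for an even number of edges. -/
def S_lb2 : Prop := ∀ k G H : ℕ, 1 ≤ k → k ≤ G + 1 → k ≤ H + 1 → ∃ c : ℝ, 0 < c ∧ ∀ r : ℕ, 2 ≤ r →
  c * (r : ℝ) ^ (2 * G + 1) ≤ TT (2 * k) (2 * G) (2 * H) r ∧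
  c * (r : ℝ) ^ (2 * G + 2 * H - 2 * k) ≤ TT (2 * k) (2 * G) (2 * H) r

end H572AE
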