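import Mathlib
import Pool.Agent.H572.AE.Stm2

/-!
# Asymptotics with a logarithm: general blocks
-/

set_option autoImplicit false

open Finset Polynomial

namespace H572AE

theorem polyBound (p : ℝ[X]) (d : ℕ) (h : p.natDegree ≤ d) :
    ∃ c : ℝ, 0 ≤ c ∧ ∀ x : ℝ, 1 ≤ x → |p.eval x| ≤ c * x ^ d := by
  refine ⟨∑ i ∈ range (p.natDegree + 1), |p.coeff i|,
    Finset.sum_nonneg fun i _ => abs_nonneg _, fun x hx => ?_⟩
  rw [Polynomial.eval_eq_sum_range, Finset.sum_mul]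
  refine (Finset.abs_sum_le_sum_abs _ _).trans (Finset.sum_le_sum fun i hi => ?_)
  rw [abs_mul, abs_pow, abs_of_nonneg (by linarith : (0:ℝ) ≤ x)]
  exact mul_le_mul_of_nonneg_left
    (pow_le_pow_right₀ hx (by have := mem_range.mp hi; omega)) (abs_nonneg _)

/-- F r = polynomial + κ r^q log r + O(r^q) for r ≥ r₀. -/
def Asy (r₀ q : ℕ) (κ : ℝ) (F : ℕ → ℝ) : Prop :=
  ∃ (Q : ℝ[X]) (B : ℝ), ∀ r : ℕ, r₀ ≤ r →
    |F r - (Q.eval (r : ℝ) + κ * (r : ℝ) ^ q * Real.log r)| ≤ B * (r : ℝ) ^ q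

theorem Asy.add {r₀ q : ℕ} {κ κ' : ℝ} {F F' : ℕ → ℝ} (h : Asy r₀ q κ F) (h' : Asy r₀ q κ' F') :
    Asy r₀ q (κ + κ') (fun r => F r + F' r) := by
  obtain ⟨Q, B, hB⟩ := h
  obtain ⟨Q', B', hB'⟩ := h'
  refine ⟨Q + Q', B + B', fun r hr => ?_⟩
  have e : F r + F' r - ((Q + Q').eval (r : ℝ) + (κ + κ') * (r : ℝ) ^ q * Real.log r) =
      (F r - (Q.eval (r : ℝ) + κ * (r : ℝ) ^ q * Real.log r)) +
      (F' r - (Q'.eval (r : ℝ) + κ' * (r : ℝ) ^ q * Real.log r)) := by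
    rw [eval_add]; ring
  rw [e, add_mul]
  exact (abs_add_le _ _).trans (add_le_add (hB r hr) (hB' r hr))

theorem Asy.cmul {r₀ q : ℕ} {κ : ℝ} {F : ℕ → ℝ} (c : ℝ) (h : Asy r₀ q κ F) :
    Asy r₀ q (c * κ) (fun r => c * F r) := by
  obtain ⟨Q, B, hB⟩ := h
  refine ⟨C c * Q, |c| * B, fun r hr => ?_⟩
  have e : c * F r - ((C c * Q).eval (r : ℝ) + (c * κ) * (r : ℝ) ^ q * Real.log r) =
      c * (F r - (Q.eval (r : ℝ) + κ * (r : ℝ) ^ q * Real.log r)) := by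
    rw [eval_mul, eval_C]; ring
  rw [e, abs_mul, mul_assoc |c|]
  exact mul_le_mul_of_nonneg_left (hB r hr) (abs_nonneg _)

theorem Asy.zero (r₀ q : ℕ) : Asy r₀ q 0 (fun _ => 0) := ⟨0, 0, fun r _ => by simp⟩

theorem Asy.sum {ι : Type*} {r₀ q : ℕ} (S : Finset ι) {κ : ι → ℝ} {F : ι → ℕ → ℝ}
    (h : ∀ i ∈ S, Asy r₀ q (κ i) (F i)) : Asy r₀ q (∑ i ∈ S, κ i) (fun r => ∑ i ∈ S, F i r) := by
  classical
  induction S using Finset.induction_on with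
  | empty => simpa using Asy.zero r₀ q
  | insert a S ha ih =>
    have h1 := (h a (mem_insert_self a S)).add (ih fun i hi => h i (mem_insert_of_mem hi))
    simpa only [Finset.sum_insert ha] using h1

theorem Asy.close {r₀ q : ℕ} {κ : ℝ} {F F' : ℕ → ℝ} (h : Asy r₀ q κ F) (B' : ℝ)
    (h' : ∀ r : ℕ, r₀ ≤ r → |F' r - F r| ≤ B' * (r : ℝ) ^ q) : Asy r₀ q κ F' := by
  obtain ⟨Q, B, hB⟩ := h
  refine ⟨Q, B' + B, fun r hr => ?_⟩
  have e : F' r - (Q.eval (r : ℝ) + κ * (r : ℝ) ^ q * Real.log r) = (F' r - F r) +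
      (F r - (Q.eval (r : ℝ) + κ * (r : ℝ) ^ q * Real.log r)) := by ring
  rw [e, add_mul]
  exact (abs_add_le _ _).trans (add_le_add (h' r hr) (hB r hr))

theorem Asy.poly (r₀ q : ℕ) (Q : ℝ[X]) : Asy r₀ q 0 (fun r => Q.eval (r : ℝ)) :=
  ⟨Q, 0, fun r _ => by simp⟩

/-- The condition on the range of summation. -/
def Rng (M : ℕ → ℕ) (D r₀ : ℕ) : Prop := 3 ≤ r₀ ∧ 1 ≤ D ∧
  ∀ r, r₀ ≤ r → 1 ≤ M r ∧ M r ≤ r ∧ r ≤ D * M r

theorem block (h5 : S_ps) {M : ℕ → ℕ} {D r₀ : ℕ} (hM : Rng M D r₀) (s e d : ℕ) (hs : 1 ≤ s)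
    (α f : ℝ[X]) (hα : α.natDegree ≤ e)
    (hf : f.natDegree ≤ d) : ∃ A C : ℝ, ∀ r : ℕ, r₀ ≤ r →
    |(r : ℝ) ^ (2 * s) * α.eval (r : ℝ) * (∑ a ∈ Icc 1 (M r), f.eval (a : ℝ) / (a : ℝ) ^ (2 * s)) -
      (r : ℝ) ^ (2 * s) * α.eval (r : ℝ) *
        (A + f.coeff (2 * s - 1) * Real.log ((M r : ℕ) : ℝ))| ≤ C * (r : ℝ) ^ (e + d + 1) := by
  obtain ⟨A, B, hB⟩ := h5 f d (2 * s) (by omega) hf
  obtain ⟨c, hc0, hc⟩ := polyBound α e hα
  refine ⟨A, c * |B| * (D : ℝ) ^ (2 * s), fun r hr => ?_⟩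
  obtain ⟨hr3, hD, hM⟩ := hM
  obtain ⟨hM1, hMr, hrM⟩ := hM r hr
  set M := M r with hMdef
  have hr1 : (1 : ℝ) ≤ r := by exact_mod_cast (by omega : 1 ≤ r)
  have hr0 : (0 : ℝ) < r := by linarith
  have hM0 : (0 : ℝ) < M := by exact_mod_cast (by omega : 0 < M)
  have hD0 : (0 : ℝ) < D := by exact_mod_cast (by omega : 0 < D)
  have hMr' : (M : ℝ) ≤ r := by exact_mod_cast hMr
  have hrM' : (r : ℝ) ≤ D * M := by exact_mod_cast hrM
  have k1 := hB M hM1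
  have k2 : (M : ℝ) ^ (d + 1) / (M : ℝ) ^ (2 * s) ≤
      (D : ℝ) ^ (2 * s) * ((r : ℝ) ^ (d + 1) / (r : ℝ) ^ (2 * s)) := by
    rw [← mul_div_assoc, div_le_div_iff₀ (by positivity) (by positivity)]
    have a1 : (M : ℝ) ^ (d + 1) ≤ (r : ℝ) ^ (d + 1) := pow_le_pow_left₀ hM0.le hMr' _
    have a2 : (r : ℝ) ^ (2 * s) ≤ (D : ℝ) ^ (2 * s) * (M : ℝ) ^ (2 * s) := by
      rw [← mul_pow]; exact pow_le_pow_left₀ hr0.le hrM' _
    calc (M : ℝ) ^ (d + 1) * (r : ℝ) ^ (2 * s) ≤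
          (r : ℝ) ^ (d + 1) * ((D : ℝ) ^ (2 * s) * (M : ℝ) ^ (2 * s)) :=
          mul_le_mul a1 a2 (by positivity) (by positivity)
      _ = (D : ℝ) ^ (2 * s) * (r : ℝ) ^ (d + 1) * (M : ℝ) ^ (2 * s) := by ring
  have k3 : |(∑ a ∈ Icc 1 M, f.eval (a : ℝ) / (a : ℝ) ^ (2 * s)) - A - f.coeff (2 * s - 1) * Real.log M| ≤
      |B| * ((D : ℝ) ^ (2 * s) * ((r : ℝ) ^ (d + 1) / (r : ℝ) ^ (2 * s))) :=
    k1.trans ((mul_le_mul_of_nonneg_right (le_abs_self B) (by positivity)).trans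
      (mul_le_mul_of_nonneg_left k2 (abs_nonneg _)))
  have e1 : (r : ℝ) ^ (2 * s) * α.eval (r : ℝ) * (∑ a ∈ Icc 1 M, f.eval (a : ℝ) / (a : ℝ) ^ (2 * s)) -
      (r : ℝ) ^ (2 * s) * α.eval (r : ℝ) * (A + f.coeff (2 * s - 1) * Real.log (M : ℝ)) =
      (r : ℝ) ^ (2 * s) * (α.eval (r : ℝ) * ((∑ a ∈ Icc 1 M, f.eval (a : ℝ) / (a : ℝ) ^ (2 * s)) - A -
        f.coeff (2 * s - 1) * Real.log M)) := by ring
  rw [e1, abs_mul, abs_mul, abs_of_pos (by positivity : (0 : ℝ) < (r : ℝ) ^ (2 * s))]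
  calc (r : ℝ) ^ (2 * s) * (|α.eval (r : ℝ)| * |(∑ a ∈ Icc 1 M, f.eval (a : ℝ) / (a : ℝ) ^ (2 * s)) - A -
        f.coeff (2 * s - 1) * Real.log M|)
      ≤ (r : ℝ) ^ (2 * s) * ((c * (r : ℝ) ^ e) * (|B| * ((D : ℝ) ^ (2 * s) *
        ((r : ℝ) ^ (d + 1) / (r : ℝ) ^ (2 * s))))) := by
        refine mul_le_mul_of_nonneg_left ?_ (by positivity)
        exact mul_le_mul (hc r hr1) k3 (abs_nonneg _) (by positivity)
    _ = c * |B| * (D : ℝ) ^ (2 * s) * (r : ℝ) ^ (e + d + 1) := by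
        have hne : (r : ℝ) ^ (2 * s) ≠ 0 := by positivity
        field_simp
        ring

theorem logM {M : ℕ → ℕ} {D r₀ : ℕ} (hM : Rng M D r₀) (r : ℕ) (hr : r₀ ≤ r) :
    |Real.log ((M r : ℕ) : ℝ) - Real.log r| ≤ Real.log D ∧
    |Real.log ((M r : ℕ) : ℝ)| ≤ r := by
  obtain ⟨hr3, hD, hM⟩ := hM
  obtain ⟨hM1, hMr, hrM⟩ := hM r hr
  set M := M r with hMdef
  have hr0 : (0 : ℝ) < r := by exact_mod_cast (by omega : 0 < r)
  have hM0 : (0 : ℝ) < M := by exact_mod_cast (by omega : 0 < M)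
  have hM1' : (1 : ℝ) ≤ M := by exact_mod_cast hM1
  have hD0 : (0 : ℝ) < D := by exact_mod_cast (by omega : 0 < D)
  have hMr' : (M : ℝ) ≤ r := by exact_mod_cast hMr
  have hrM' : (r : ℝ) ≤ D * M := by exact_mod_cast hrM
  have l1 : Real.log M ≤ Real.log r := Real.log_le_log hM0 hMr'
  have l2 : Real.log r ≤ Real.log D + Real.log M := by
    rw [← Real.log_mul hD0.ne' hM0.ne']; exact Real.log_le_log hr0 hrM'
  have l3 : 0 ≤ Real.log M := Real.log_nonneg hM1'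
  have l5 : 0 ≤ Real.log D := Real.log_nonneg (by exact_mod_cast hD)
  have l4 : Real.log M ≤ M := (Real.log_le_sub_one_of_pos hM0).trans (by linarith)
  constructor
  · rw [abs_le]; constructor <;> linarith
  · rw [abs_of_nonneg l3]; linarith

/-- Blocks without logarithm. -/
theorem blockE (h5 : S_ps) {M : ℕ → ℕ} {D r₀ : ℕ} (hM : Rng M D r₀) (h s e d : ℕ) (hs : 1 ≤ s)
    (hed : e + d = 2 * h) (α f : ℝ[X])
    (hα : α.natDegree ≤ e) (hf : f.natDegree ≤ d) (hf0 : f.coeff (2 * s - 1) = 0) :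
    Asy r₀ (2 * h + 1) 0 (fun r => (r : ℝ) ^ (2 * s) * α.eval (r : ℝ) *
      (∑ a ∈ Icc 1 (M r), f.eval (a : ℝ) / (a : ℝ) ^ (2 * s))) := by
  obtain ⟨A, B, hB⟩ := block h5 hM s e d hs α f hα hf
  refine (Asy.poly r₀ (2 * h + 1) (X ^ (2 * s) * α * C A)).close B fun r hr => ?_
  have := hB r hr
  rw [hf0, zero_mul, add_zero, hed] at this
  simpa using this

/-- Blocks with logarithm. -/
theorem blockO (h5 : S_ps) {M : ℕ → ℕ} {D r₀ : ℕ} (hM : Rng M D r₀) (h s : ℕ) (hh : 1 ≤ h)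
    (hs : 1 ≤ s) (β : ℝ) (f : ℝ[X])
    (hf : f.natDegree ≤ 2 * h - 1) :
    Asy r₀ (2 * h + 1) (if s = h then β * f.coeff (2 * h - 1) else 0)
      (fun r => (r : ℝ) ^ (2 * s) * (C β * X : ℝ[X]).eval (r : ℝ) *
      (∑ a ∈ Icc 1 (M r), f.eval (a : ℝ) / (a : ℝ) ^ (2 * s))) := by
  have hα : (C β * X : ℝ[X]).natDegree ≤ 1 := (natDegree_C_mul_le β X).trans natDegree_X_le
  obtain ⟨A, B, hB⟩ := block h5 hM s 1 (2 * h - 1) hs (C β * X) f hα hf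
  have hed : 1 + (2 * h - 1) + 1 = 2 * h + 1 := by omega
  have hr3 := hM.1
  by_cases hsh : s = h
  · subst hsh
    rw [if_pos rfl]
    refine ⟨X ^ (2 * s) * (C β * X) * C A, B + |β * f.coeff (2 * s - 1)| * Real.log D, fun r hr => ?_⟩
    have h1 := hB r hr
    have h2 := (logM hM r hr).1
    have hr0 : (0 : ℝ) < r := by exact_mod_cast (by omega : 0 < r)
    rw [hed] at h1
    simp only [eval_mul, eval_pow, eval_X, eval_C] at h1 ⊢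
    set S := ∑ a ∈ Icc 1 (M r), f.eval (a : ℝ) / (a : ℝ) ^ (2 * s)
    set lM := Real.log ((M r : ℕ) : ℝ)
    have e1 : (r : ℝ) ^ (2 * s) * (β * r) * S - ((r : ℝ) ^ (2 * s) * (β * r) * A +
        β * f.coeff (2 * s - 1) * (r : ℝ) ^ (2 * s + 1) * Real.log r) =
        ((r : ℝ) ^ (2 * s) * (β * r) * S - (r : ℝ) ^ (2 * s) * (β * r) * (A + f.coeff (2 * s - 1) * lM)) +
        (β * f.coeff (2 * s - 1)) * (lM - Real.log r) * (r : ℝ) ^ (2 * s + 1) := by ring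
    rw [e1]
    refine (abs_add_le _ _).trans ?_
    rw [add_mul]
    refine add_le_add h1 ?_
    rw [abs_mul, abs_mul, abs_of_pos (by positivity : (0 : ℝ) < (r : ℝ) ^ (2 * s + 1))]
    exact mul_le_mul_of_nonneg_right (mul_le_mul_of_nonneg_left h2 (abs_nonneg _)) (by positivity)
  · rw [if_neg hsh]
    refine ⟨X ^ (2 * s) * (C β * X) * C A, B + |β * f.coeff (2 * s - 1)|, fun r hr => ?_⟩
    have h1 := hB r hr
    have h2 := (logM hM r hr).2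
    have hr0 : (0 : ℝ) < r := by exact_mod_cast (by omega : 0 < r)
    have hr1 : (1 : ℝ) ≤ r := by exact_mod_cast (by omega : 1 ≤ r)
    rw [hed] at h1
    simp only [eval_mul, eval_pow, eval_X, eval_C] at h1 ⊢
    set S := ∑ a ∈ Icc 1 (M r), f.eval (a : ℝ) / (a : ℝ) ^ (2 * s)
    set lM := Real.log ((M r : ℕ) : ℝ)
    have e1 : (r : ℝ) ^ (2 * s) * (β * r) * S - ((r : ℝ) ^ (2 * s) * (β * r) * A +
        0 * (r : ℝ) ^ (2 * h + 1) * Real.log r) =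
        ((r : ℝ) ^ (2 * s) * (β * r) * S - (r : ℝ) ^ (2 * s) * (β * r) * (A + f.coeff (2 * s - 1) * lM)) +
        (β * f.coeff (2 * s - 1)) * (lM * (r : ℝ) ^ (2 * s + 1)) := by ring
    rw [e1]
    refine (abs_add_le _ _).trans ?_
    rw [add_mul]
    refine add_le_add h1 ?_
    rcases Nat.lt_or_gt_of_ne hsh with hlt | hgt
    · rw [abs_mul, abs_mul lM]
      refine mul_le_mul_of_nonneg_left ?_ (abs_nonneg _)
      rw [abs_of_pos (by positivity : (0 : ℝ) < (r : ℝ) ^ (2 * s + 1))]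
      calc |lM| * (r : ℝ) ^ (2 * s + 1) ≤ r * (r : ℝ) ^ (2 * s + 1) :=
          mul_le_mul_of_nonneg_right h2 (by positivity)
        _ = (r : ℝ) ^ (2 * s + 2) := by ring
        _ ≤ (r : ℝ) ^ (2 * h + 1) := pow_le_pow_right₀ hr1 (by omega)
    · have h0 : f.coeff (2 * s - 1) = 0 := coeff_eq_zero_of_natDegree_lt (by omega)
      rw [h0]; simp

/-- From r ≥ r₀ to r ≥ 2. -/
theorem extend (F G : ℕ → ℝ) (q r₀ : ℕ) (B : ℝ)
    (h : ∀ r : ℕ, r₀ ≤ r → |F r - G r| ≤ B * (r : ℝ) ^ q) :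
    ∃ B' : ℝ, ∀ r : ℕ, 2 ≤ r → |F r - G r| ≤ B' * (r : ℝ) ^ q := by
  refine ⟨|B| + ∑ n ∈ range r₀, |F n - G n|, fun r hr => ?_⟩
  have hr1 : (1 : ℝ) ≤ (r : ℝ) ^ q := one_le_pow₀ (by exact_mod_cast (by omega : 1 ≤ r))
  have hS : 0 ≤ ∑ n ∈ range r₀, |F n - G n| := Finset.sum_nonneg fun _ _ => abs_nonneg _
  rw [add_mul]
  rcases Nat.lt_or_ge r r₀ with h3 | h3
  · have a1 : |F r - G r| ≤ ∑ n ∈ range r₀, |F n - G n| :=
      Finset.single_le_sum (f := fun n => |F n - G n|) (fun _ _ => abs_nonneg _) (mem_range.mpr h3)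
    have a2 := le_mul_of_one_le_right hS hr1
    have a3 : 0 ≤ |B| * (r : ℝ) ^ q := by positivity
    linarith
  · have a1 := h r h3
    have a2 : B * (r : ℝ) ^ q ≤ |B| * (r : ℝ) ^ q :=
      mul_le_mul_of_nonneg_right (le_abs_self _) (by linarith)
    have a3 := mul_nonneg hS (by linarith : (0 : ℝ) ≤ (r : ℝ) ^ q)
    linarith

theorem sin_pos {b r : ℕ} (h1 : 1 ≤ b) (h2 : b < r) : 0 < Real.sin (Real.pi * b / r) := by
  have hr : (0 : ℝ) < r := by exact_mod_cast (by omega : 0 < r)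
  have hb : (0 : ℝ) < b := by exact_mod_cast (by omega : 0 < b)
  have hbr : (b : ℝ) < r := by exact_mod_cast h2
  apply Real.sin_pos_of_pos_of_lt_pi
  · have := Real.pi_pos; positivity
  · rw [div_lt_iff₀ hr]; exact mul_lt_mul_of_pos_left hbr Real.pi_pos

theorem half (f : ℕ → ℝ) (B : ℝ) (r : ℕ) (hr : 3 ≤ r) (hf : ∀ a, 1 ≤ a → a < r → f (r - a) = f a)
    (hm : r = 2 * (r / 2) → |f (r / 2)| ≤ B) (hB : 0 ≤ B) :
    |∑ a ∈ Ico 1 r, f a - 2 * ∑ a ∈ Icc 1 ((r - 1) / 2), f a| ≤ B := by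
  set M := (r - 1) / 2 with hM
  have h1 : ∑ a ∈ Icc 1 M, f a = ∑ a ∈ Ico 1 (M + 1), f a := by
    refine Finset.sum_congr ?_ fun _ _ => rfl
    ext x; simp only [mem_Icc, mem_Ico]; omega
  have h2 : ∑ a ∈ Ico 1 (M + 1), f a = ∑ a ∈ Ico (r - M) r, f a := by
    have h3 := Finset.sum_Ico_reflect f 1 (m := M + 1) (n := r) (by omega)
    have e1 : r + 1 - (M + 1) = r - M := by omega
    have e2 : r + 1 - 1 = r := by omega
    rw [e1, e2] at h3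
    rw [← h3]
    refine Finset.sum_congr rfl fun a ha => ?_
    have := mem_Ico.mp ha
    exact (hf a this.1 (by omega)).symm
  by_cases hodd : r = 2 * M + 1
  · have h4 : ∑ a ∈ Ico 1 r, f a = ∑ a ∈ Ico 1 (M + 1), f a + ∑ a ∈ Ico (M + 1) r, f a :=
      (Finset.sum_Ico_consecutive f (by omega) (by omega)).symm
    have e3 : r - M = M + 1 := by omega
    rw [h1, h4]
    rw [e3] at h2
    rw [← h2]
    have : ∑ a ∈ Ico 1 (M + 1), f a + ∑ a ∈ Ico 1 (M + 1), f a - 2 * ∑ a ∈ Ico 1 (M + 1), f a = 0 := by ring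
    rw [this, abs_zero]; exact hB
  · have heven : r = 2 * M + 2 := by omega
    have h4 : ∑ a ∈ Ico 1 r, f a = ∑ a ∈ Ico 1 (M + 1), f a + ∑ a ∈ Ico (M + 1) r, f a :=
      (Finset.sum_Ico_consecutive f (by omega) (by omega)).symm
    have h5 : ∑ a ∈ Ico (M + 1) r, f a = f (M + 1) + ∑ a ∈ Ico (M + 2) r, f a :=
      Finset.sum_eq_sum_Ico_succ_bot (by omega) f
    have e3 : r - M = M + 2 := by omega
    rw [e3] at h2
    rw [h1, h4, h5, ← h2]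
    have e4 : r / 2 = M + 1 := by omega
    rw [e4] at hm
    have : ∑ a ∈ Ico 1 (M + 1), f a + (f (M + 1) + ∑ a ∈ Ico 1 (M + 1), f a) -
      2 * ∑ a ∈ Ico 1 (M + 1), f a = f (M + 1) := by ring
    rw [this]
    exact hm (by omega)

theorem cs_bound (h3 : S_cp1) (h : ℕ) (hh : 1 ≤ h) :
    ∃ c : ℝ, 0 ≤ c ∧ ∀ r : ℕ, 1 ≤ r → Cs h r ≤ c * (r : ℝ) ^ (2 * h) := by
  obtain ⟨p, hp, hp'⟩ := h3 h hh
  obtain ⟨c, hc0, hc⟩ := polyBound p _ hp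
  refine ⟨c, hc0, fun r hr => ?_⟩
  rw [hp' r hr]
  exact (le_abs_self _).trans (hc r (by exact_mod_cast hr))

theorem choose_cp (h3 : S_cp1) : ∃ p : ℕ → ℝ[X], ∀ h : ℕ, 1 ≤ h →
    ((p h).natDegree ≤ 2 * h ∧ ∀ r : ℕ, 1 ≤ r → Cs h r = (p h).eval (r : ℝ)) := by
  have h3' : ∀ h : ℕ, ∃ p : ℝ[X], 1 ≤ h →
      (p.natDegree ≤ 2 * h ∧ ∀ r : ℕ, 1 ≤ r → Cs h r = p.eval (r : ℝ)) := by
    intro h
    by_cases hh : 1 ≤ h
    · obtain ⟨p, hp⟩ := h3 h hh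
      exact ⟨p, fun _ => hp⟩
    · exact ⟨0, fun h1 => absurd h1 hh⟩
  choose p hp using h3'
  exact ⟨p, hp⟩

end H572AE
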