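import Mathlib
import Pool.Agent.H572.AE.Asym

/-!
# The asymptotic formula for an even number of edges
-/

set_option autoImplicit false

open Finset Polynomial

namespace H572AE.ASYE

/-- The inner sum. -/
noncomputable def FF (k H r a : ℕ) : ℝ :=
  ∑ b ∈ Ico 1 r, Real.sin (Real.pi * a * b / r) ^ (2 * k) / Real.sin (Real.pi * b / r) ^ (2 * H)

/-- The coefficients of even powers of the sine. -/
noncomputable def v (k j : ℕ) : ℝ := (-1) ^ (j + 1) * ((2 * k).choose (k - j) : ℝ) * 4 / 4 ^ k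

theorem FF_nonneg (k H r a : ℕ) : 0 ≤ FF k H r a :=
  Finset.sum_nonneg fun b _ => div_nonneg (by rw [pow_mul]; positivity) (by rw [pow_mul]; positivity)

theorem FF_le (k H r a : ℕ) : FF k H r a ≤ Cs H r := by
  refine Finset.sum_le_sum fun b _ => ?_
  refine div_le_div_of_nonneg_right ?_ (by rw [pow_mul]; positivity)
  rw [pow_mul]
  exact pow_le_one₀ (sq_nonneg _) (Real.sin_sq_le_one (Real.pi * a * b / r))

theorem FF_symm (k H r a : ℕ) (ha : a ≤ r) : FF k H r (r - a) = FF k H r a := by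
  refine Finset.sum_congr rfl fun b hb => ?_
  have hr : (r : ℝ) ≠ 0 := by
    have := mem_Ico.mp hb
    exact_mod_cast (by omega : r ≠ 0)
  have e1 : Real.pi * ((r - a : ℕ) : ℝ) * b / r = b * Real.pi - Real.pi * a * b / r := by
    rw [Nat.cast_sub ha]; field_simp
  have e2 : Real.sin (b * Real.pi - Real.pi * a * b / r) ^ 2 = Real.sin (Real.pi * a * b / r) ^ 2 := by
    rw [Real.sin_nat_mul_pi_sub, neg_sq, mul_pow, ← pow_mul, mul_comm b 2, pow_mul]
    simp
  rw [e1, pow_mul (Real.sin (b * Real.pi - Real.pi * a * b / r)) 2 k, e2, ← pow_mul]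

theorem TT_eq (k G H r : ℕ) : TT (2 * k) (2 * G) (2 * H) r =
    ∑ a ∈ Ico 1 r, FF k H r a / Real.sin (Real.pi * a / r) ^ (2 * G) := by
  refine Finset.sum_congr rfl fun a _ => ?_
  unfold FF
  rw [Finset.sum_div]
  refine Finset.sum_congr rfl fun b _ => ?_
  rw [div_div, mul_comm (Real.sin (Real.pi * a / r) ^ (2 * G))]

theorem FF_eq (hsin : S_sinp) (k H r a : ℕ) (hk : 1 ≤ k) :
    FF k H r a = ∑ j ∈ Icc 1 k, v k j * Ps H r (j * a) := by
  unfold FF Ps
  simp only [Finset.mul_sum]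
  rw [Finset.sum_comm]
  refine Finset.sum_congr rfl fun b _ => ?_
  rw [hsin k _ hk, Finset.sum_div]
  refine Finset.sum_congr rfl fun j _ => ?_
  have e1 : Real.pi * ((j * a : ℕ) : ℝ) * b / r = j * (Real.pi * a * b / r) := by
    push_cast; ring
  rw [e1]
  unfold v
  ring

theorem natDegree_comp_c (f : ℝ[X]) (d c : ℕ) (hf : f.natDegree ≤ d) :
    (f.comp (C (c : ℝ) * X)).natDegree ≤ d := by
  refine natDegree_comp_le.trans ?_
  have h1 : (C (c : ℝ) * X : ℝ[X]).natDegree ≤ 1 := (natDegree_C_mul_le _ X).trans natDegree_X_le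
  calc f.natDegree * (C (c : ℝ) * X : ℝ[X]).natDegree ≤ d * 1 := Nat.mul_le_mul hf h1
    _ = d := Nat.mul_one d

/-- The sums G_s. -/
theorem GsC (h1 : S_ph) (h2 : S_eo) (h3 : S_cp1) (h5 : S_ps) {M : ℕ → ℕ} {D r₀ : ℕ} (hM : Rng M D r₀)
    (c : ℕ) (hc : ∀ r, r₀ ≤ r → c * M r ≤ r) (h s : ℕ) (hh : 1 ≤ h) (hs : 1 ≤ s) :
    Asy r₀ (2 * h + 1) (if s = h then (-4) ^ (h - 1) / ((2 * h - 1).factorial : ℝ) * (c : ℝ) ^ (2 * h - 1) else 0)
      (fun r => (r : ℝ) ^ (2 * s) * ∑ a ∈ Icc 1 (M r), Ps h r (c * a) / (a : ℝ) ^ (2 * s)) := by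
  obtain ⟨e1, e2, e3, e4⟩ := h2
  obtain ⟨p, hp⟩ := choose_cp h3
  have hr3 := hM.1
  have hco : ∀ j, ((Ev j).comp (C (c : ℝ) * X)).coeff (2 * s - 1) = 0 := by
    intro j
    rw [comp_C_mul_X_coeff]
    have := e2 j (s - 1)
    rw [show 2 * (s - 1) + 1 = 2 * s - 1 by omega] at this
    rw [this, zero_mul]
  have A1 : ∀ j ∈ Ico 1 h, Asy r₀ (2 * h + 1) 0 (fun r => (r : ℝ) ^ (2 * s) *
      (C (2 * (-4) ^ (j - 1)) * p (h - j) : ℝ[X]).eval (r : ℝ) *
      (∑ a ∈ Icc 1 (M r), ((Ev j).comp (C (c : ℝ) * X)).eval (a : ℝ) / (a : ℝ) ^ (2 * s))) := by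
    intro j hj
    have hj' := mem_Ico.mp hj
    exact blockE h5 hM h s (2 * (h - j)) (2 * j) hs (by omega) _ _
      ((natDegree_C_mul_le _ _).trans (hp _ (by omega)).1) (natDegree_comp_c _ _ _ (e1 j)) (hco j)
  have A2 := blockE h5 hM h s 0 (2 * h) hs (by omega) (C (-(2 * (-4) ^ (h - 1))))
    ((Ev h).comp (C (c : ℝ) * X))
    (by rw [natDegree_C]) (natDegree_comp_c _ _ _ (e1 h)) (hco h)
  have e3' : ((Od (h - 1)).comp (C (c : ℝ) * X)).natDegree ≤ 2 * h - 1 :=
    natDegree_comp_c _ _ _ ((e3 (h - 1)).trans (by omega))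
  have A3 := blockO h5 hM h s hh hs ((-4) ^ (h - 1)) ((Od (h - 1)).comp (C (c : ℝ) * X)) e3'
  have A := ((Asy.sum (Ico 1 h) A1).add A2).add A3
  have hk : (∑ j ∈ Ico 1 h, (0 : ℝ)) + 0 + (if s = h then (-4) ^ (h - 1) *
      ((Od (h - 1)).comp (C (c : ℝ) * X)).coeff (2 * h - 1) else 0) =
      (if s = h then (-4) ^ (h - 1) / ((2 * h - 1).factorial : ℝ) * (c : ℝ) ^ (2 * h - 1) else 0) := by
    have := e4 (h - 1)
    rw [show 2 * (h - 1) + 1 = 2 * h - 1 by omega] at this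
    rw [comp_C_mul_X_coeff, this]
    simp only [Finset.sum_const_zero, zero_add]
    split_ifs
    · ring
    · rfl
  rw [hk] at A
  refine A.close 0 fun r hr => ?_
  rw [zero_mul]
  refine le_of_eq ?_
  rw [abs_eq_zero, sub_eq_zero]
  have hcM := hc r hr
  have hterm : ∀ a ∈ Icc 1 (M r), Ps h r (c * a) / (a : ℝ) ^ (2 * s) =
      (∑ j ∈ Ico 1 h, (C (2 * (-4) ^ (j - 1)) * p (h - j) : ℝ[X]).eval (r : ℝ) *
        (((Ev j).comp (C (c : ℝ) * X)).eval (a : ℝ) / (a : ℝ) ^ (2 * s))) +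
      (C (-(2 * (-4) ^ (h - 1))) : ℝ[X]).eval (r : ℝ) *
        (((Ev h).comp (C (c : ℝ) * X)).eval (a : ℝ) / (a : ℝ) ^ (2 * s)) +
      (C ((-4) ^ (h - 1)) * X : ℝ[X]).eval (r : ℝ) *
        (((Od (h - 1)).comp (C (c : ℝ) * X)).eval (a : ℝ) / (a : ℝ) ^ (2 * s)) := by
    intro a ha
    have ha' := mem_Icc.mp ha
    have hca : c * a ≤ r := (Nat.mul_le_mul_left c ha'.2).trans hcM
    rw [h1 h r (c * a) hh (by omega) hca]
    have : ∀ j ∈ Ico 1 h, (C (2 * (-4) ^ (j - 1)) * p (h - j) : ℝ[X]).eval (r : ℝ) *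
        (((Ev j).comp (C (c : ℝ) * X)).eval (a : ℝ) / (a : ℝ) ^ (2 * s)) =
        (2 * (-4) ^ (j - 1) * Cs (h - j) r * (Ev j).eval ((c * a : ℕ) : ℝ)) / (a : ℝ) ^ (2 * s) := by
      intro j hj
      have hj' := mem_Ico.mp hj
      rw [eval_mul, eval_C, ← (hp (h - j) (by omega)).2 r (by omega), eval_comp, eval_mul, eval_C,
        eval_X, Nat.cast_mul]
      ring
    rw [Finset.sum_congr rfl this, ← Finset.sum_div]
    simp only [eval_mul, eval_C, eval_X, eval_comp, Nat.cast_mul]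
    ring
  rw [Finset.sum_congr rfl hterm, Finset.sum_add_distrib, Finset.sum_add_distrib, Finset.sum_comm,
    mul_add, mul_add, Finset.mul_sum]
  congr 1
  · congr 1
    · refine Finset.sum_congr rfl fun j _ => ?_
      rw [← Finset.mul_sum]; ring
    · rw [← Finset.mul_sum]; ring
  · rw [← Finset.mul_sum]; ring

/-- The range of summation. -/
theorem rng (k : ℕ) (hk : 1 ≤ k) : Rng (fun r => (r - 1) / (2 * k)) (4 * k) (2 * k + 1) := by
  refine ⟨by omega, by omega, fun r hr => ?_⟩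
  have h1 : 1 ≤ (r - 1) / (2 * k) := (Nat.one_le_div_iff (by omega)).mpr (by omega)
  have h2 : (r - 1) / (2 * k) ≤ r := (Nat.div_le_self _ _).trans (by omega)
  have h3 : r - 1 < 2 * k * ((r - 1) / (2 * k) + 1) := by
    have := Nat.lt_mul_div_succ (r - 1) (show 0 < 2 * k by omega)
    exact this
  refine ⟨h1, h2, ?_⟩
  have h4 : r ≤ 2 * k * ((r - 1) / (2 * k) + 1) := by omega
  calc r ≤ 2 * k * ((r - 1) / (2 * k) + 1) := h4
    _ ≤ 2 * k * ((r - 1) / (2 * k) + (r - 1) / (2 * k)) := Nat.mul_le_mul_left _ (by omega)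
    _ = 4 * k * ((r - 1) / (2 * k)) := by ring

theorem v_sum (hnv : S_nv) (k H : ℕ) (hk : 1 ≤ k) (hH : 1 ≤ H) (hkH : k ≤ H + 1) :
    ∑ j ∈ Icc 1 k, v k j * (j : ℝ) ^ (2 * H - 1) ≠ 0 := by
  have h0 := hnv (2 * k) (2 * H - 1) (by omega) (by omega) (by omega)
  have h1 : ∑ j ∈ Icc 1 k, v k j * (j : ℝ) ^ (2 * H - 1) =
      (-1) ^ (k + 1) * 4 / 4 ^ k / 2 ^ (2 * H - 1) * ((MM (2 * k) (2 * H - 1) : ℤ) : ℝ) := by
    unfold MM
    push_cast
    rw [Finset.mul_sum, show (2 * k + 1) / 2 = k by omega, Finset.range_eq_Ico]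
    have h2 := Finset.sum_Ico_reflect (fun j => v k j * (j : ℝ) ^ (2 * H - 1)) 0 (m := k) (n := k) (by omega)
    rw [show k + 1 - k = 1 by omega, show k + 1 - 0 = k + 1 by omega] at h2
    have h3 : Ico 1 (k + 1) = Icc 1 k := by ext x; simp only [mem_Ico, mem_Icc]; omega
    rw [h3] at h2
    rw [← h2]
    refine Finset.sum_congr rfl fun j hj => ?_
    have hj' : j < k := (mem_Ico.mp hj).2
    unfold v
    rw [show k - (k - j) = j by omega, Nat.cast_sub hj'.le]
    have e1 : ((-1 : ℝ)) ^ (k - j + 1) = (-1) ^ (k + 1) * (-1) ^ j := by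
      rw [show k + 1 = (k - j + 1) + j by omega, pow_add _ (k - j + 1) j, mul_assoc, ← mul_pow]
      norm_num
    have e2 : (2 * (k : ℝ) - 2 * j) ^ (2 * H - 1) = 2 ^ (2 * H - 1) * ((k : ℝ) - j) ^ (2 * H - 1) := by
      rw [← mul_pow]; congr 1; ring
    rw [e1, e2]
    have : (2 : ℝ) ^ (2 * H - 1) ≠ 0 := by positivity
    field_simp
  rw [h1]
  have h2 : ((MM (2 * k) (2 * H - 1) : ℤ) : ℝ) ≠ 0 := by exact_mod_cast h0
  have h3 : ((-1 : ℝ)) ^ (k + 1) ≠ 0 := pow_ne_zero _ (by norm_num)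
  positivity

theorem main (h1 : S_ph) (h2 : S_eo) (h3 : S_cp1) (h4 : S_csc) (h5 : S_ps) (h6 : S_sinp) (h7 : S_nv) :
    S_asye := by
  intro k G H hk hH hkH hHG
  obtain ⟨c, hc, B, hB⟩ := h4 G (by omega)
  obtain ⟨cb, hcb0, hcb⟩ := cs_bound h3 H hH
  have hB0 : 0 ≤ B := (abs_nonneg _).trans (hB (Real.pi / 2) (by have := Real.pi_pos; positivity) le_rfl)
  set M : ℕ → ℕ := fun r => (r - 1) / (2 * k) with hMdef
  have hM : Rng M (4 * k) (2 * k + 1) := rng k hk
  have hkM : ∀ j ∈ Icc 1 k, ∀ r, 2 * k + 1 ≤ r → j * M r ≤ r := by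
    intro j hj r hr
    have hj' := (mem_Icc.mp hj).2
    have : 2 * k * ((r - 1) / (2 * k)) ≤ r - 1 := Nat.mul_div_le _ _
    calc j * M r ≤ 2 * k * ((r - 1) / (2 * k)) := Nat.mul_le_mul (by omega) le_rfl
      _ ≤ r := by omega
  have A := (Asy.sum (Icc 1 G) (fun s hs => (Asy.sum (Icc 1 k) (fun j hj =>
    (GsC h1 h2 h3 h5 hM j (hkM j hj) H s hH (mem_Icc.mp hs).1).cmul (v k j))).cmul
    (2 * (c s / Real.pi ^ (2 * s)))))
  set K : ℝ := ∑ s ∈ Icc 1 G, 2 * (c s / Real.pi ^ (2 * s)) * ∑ j ∈ Icc 1 k, v k j *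
    (if s = H then (-4) ^ (H - 1) / ((2 * H - 1).factorial : ℝ) * (j : ℝ) ^ (2 * H - 1) else 0) with hK
  have hKv : K = 2 * (c H / Real.pi ^ (2 * H)) * ((-4) ^ (H - 1) / ((2 * H - 1).factorial : ℝ) *
      ∑ j ∈ Icc 1 k, v k j * (j : ℝ) ^ (2 * H - 1)) := by
    rw [hK, Finset.sum_eq_single H]
    · congr 1
      rw [Finset.mul_sum]
      refine Finset.sum_congr rfl fun j _ => ?_
      rw [if_pos rfl]; ring
    · intro s _ hsh
      have : ∑ j ∈ Icc 1 k, v k j * (if s = H then (-4) ^ (H - 1) / ((2 * H - 1).factorial : ℝ) *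
        (j : ℝ) ^ (2 * H - 1) else 0) = 0 := Finset.sum_eq_zero fun j _ => by rw [if_neg hsh, mul_zero]
      rw [this, mul_zero]
    · intro hn; exact absurd (mem_Icc.mpr ⟨hH, hHG⟩) hn
  have hKne : K ≠ 0 := by
    have hch := hc H (mem_Icc.mpr ⟨hH, hHG⟩)
    have hv := v_sum h7 k H hk hH hkH
    have hpi := Real.pi_pos
    have h4' : ((-4 : ℝ)) ^ (H - 1) ≠ 0 := pow_ne_zero _ (by norm_num)
    rw [hKv]
    have hf : ((2 * H - 1).factorial : ℝ) ≠ 0 := by exact_mod_cast (Nat.factorial_pos _).ne'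
    have hp2 : Real.pi ^ (2 * H) ≠ 0 := by positivity
    exact mul_ne_zero (mul_ne_zero (by norm_num) (div_ne_zero hch.ne' hp2))
      (mul_ne_zero (div_ne_zero h4' hf) hv)
  have hfin : Asy (2 * k + 1) (2 * H + 1) K (fun r => TT (2 * k) (2 * G) (2 * H) r) := by
    refine A.close (cb + 2 * (B * cb) + 2 * (cb * (k : ℝ) ^ (2 * G))) fun r hr => ?_
    have hr0 : (0 : ℝ) < r := by exact_mod_cast (by omega : 0 < r)
    have hr1 : (1 : ℝ) ≤ r := by exact_mod_cast (by omega : 1 ≤ r)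
    obtain ⟨hM1, hMr, hrM⟩ := hM.2.2 r hr
    have hCs := hcb r (by omega)
    have hCs0 : 0 ≤ Cs H r := (FF_nonneg k H r 0).trans (FF_le k H r 0)
    have hM2 : M r ≤ (r - 1) / 2 := by
      show (r - 1) / (2 * k) ≤ (r - 1) / 2
      exact Nat.div_le_div_left (by omega) (by norm_num)
    have step1 := half (fun a => FF k H r a / Real.sin (Real.pi * a / r) ^ (2 * G)) (Cs H r) r (by omega)
      (by
        intro a ha1 ha2
        rw [FF_symm k H r a ha2.le]
        have e1 : Real.pi * ((r - a : ℕ) : ℝ) / r = Real.pi - Real.pi * a / r := by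
          rw [Nat.cast_sub ha2.le]; field_simp
        rw [e1, Real.sin_pi_sub])
      (by
        intro he
        have e1 : Real.pi * ((r / 2 : ℕ) : ℝ) / r = Real.pi / 2 := by
          have : (r : ℝ) = 2 * ((r / 2 : ℕ) : ℝ) := by exact_mod_cast he
          have h2 : ((r / 2 : ℕ) : ℝ) ≠ 0 := by
            intro h0; rw [h0] at this; linarith
          rw [this]
          have e3 : ((2 * (r / 2)) / 2 : ℕ) = r / 2 := by omega
          field_simp
        rw [e1, Real.sin_pi_div_two, one_pow, div_one, abs_of_nonneg (FF_nonneg _ _ _ _)]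
        exact FF_le _ _ _ _) hCs0
    -- split the range
    have hsplit : ∑ a ∈ Icc 1 ((r - 1) / 2), FF k H r a / Real.sin (Real.pi * a / r) ^ (2 * G) =
        ∑ a ∈ Icc 1 (M r), FF k H r a / Real.sin (Real.pi * a / r) ^ (2 * G) +
        ∑ a ∈ Ioc (M r) ((r - 1) / 2), FF k H r a / Real.sin (Real.pi * a / r) ^ (2 * G) := by
      rw [← Finset.sum_union]
      · refine Finset.sum_congr ?_ fun _ _ => rfl
        ext x; simp only [mem_Icc, mem_union, mem_Ioc]; omega
      · rw [Finset.disjoint_left]; intro x; simp only [mem_Icc, mem_Ioc]; omega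
    have step1b : |∑ a ∈ Ioc (M r) ((r - 1) / 2), FF k H r a / Real.sin (Real.pi * a / r) ^ (2 * G)| ≤
        cb * (k : ℝ) ^ (2 * G) * (r : ℝ) ^ (2 * H + 1) := by
      refine (Finset.abs_sum_le_sum_abs _ _).trans ?_
      calc ∑ a ∈ Ioc (M r) ((r - 1) / 2), |FF k H r a / Real.sin (Real.pi * a / r) ^ (2 * G)|
          ≤ ∑ a ∈ Ioc (M r) ((r - 1) / 2), Cs H r * (k : ℝ) ^ (2 * G) := by
            refine Finset.sum_le_sum fun a ha => ?_
            have ha' := mem_Ioc.mp ha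
            have hka : r ≤ 2 * k * a := by
              have h3 : r - 1 < 2 * k * ((r - 1) / (2 * k) + 1) :=
                Nat.lt_mul_div_succ (r - 1) (show 0 < 2 * k by omega)
              have h4 : 2 * k * ((r - 1) / (2 * k) + 1) ≤ 2 * k * a := Nat.mul_le_mul_left _ ha'.1
              omega
            have hka' : (r : ℝ) ≤ 2 * k * a := by exact_mod_cast hka
            have ha0 : (0 : ℝ) < a := by exact_mod_cast (by omega : 0 < a)
            have hk0 : (0 : ℝ) < k := by exact_mod_cast (by omega : 0 < k)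
            have hy : Real.pi * a / r ≤ Real.pi / 2 := by
              rw [div_le_div_iff₀ hr0 (by norm_num)]
              have : (a : ℝ) * 2 ≤ r := by exact_mod_cast (by omega : a * 2 ≤ r)
              calc Real.pi * a * 2 = Real.pi * (a * 2) := by ring
                _ ≤ Real.pi * r := mul_le_mul_of_nonneg_left this Real.pi_pos.le
            have hsin : 1 / (k : ℝ) ≤ Real.sin (Real.pi * a / r) := by
              have h5 := Real.mul_le_sin (by have := Real.pi_pos; positivity : 0 ≤ Real.pi * a / r) hy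
              refine le_trans ?_ h5
              have e5 : 2 / Real.pi * (Real.pi * a / r) = 2 * a / r := by
                have := Real.pi_pos
                field_simp
              rw [e5, div_le_div_iff₀ hk0 hr0]
              linarith
            have hspos : 0 < Real.sin (Real.pi * a / r) := lt_of_lt_of_le (by positivity) hsin
            rw [abs_of_nonneg (div_nonneg (FF_nonneg _ _ _ _) (by positivity)), div_eq_mul_inv]
            refine mul_le_mul (FF_le _ _ _ _) ?_ (by positivity) hCs0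
            rw [← inv_pow]
            refine pow_le_pow_left₀ (by positivity) ?_ _
            rw [inv_le_comm₀ hspos hk0, ← one_div]
            exact hsin
        _ ≤ r * ((cb * (r : ℝ) ^ (2 * H)) * (k : ℝ) ^ (2 * G)) := by
            rw [Finset.sum_const, nsmul_eq_mul, Nat.card_Ioc]
            refine mul_le_mul ?_ (mul_le_mul_of_nonneg_right hCs (by positivity)) (by positivity) hr0.le
            exact_mod_cast (by omega : (r - 1) / 2 - M r ≤ r)
        _ = cb * (k : ℝ) ^ (2 * G) * (r : ℝ) ^ (2 * H + 1) := by ring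
    have step2 : |(∑ a ∈ Icc 1 (M r), FF k H r a / Real.sin (Real.pi * a / r) ^ (2 * G)) -
        ∑ a ∈ Icc 1 (M r), FF k H r a * ∑ s ∈ Icc 1 G, c s / (Real.pi * a / r) ^ (2 * s)| ≤
        B * cb * (r : ℝ) ^ (2 * H + 1) := by
      rw [← Finset.sum_sub_distrib]
      refine (Finset.abs_sum_le_sum_abs _ _).trans ?_
      calc ∑ a ∈ Icc 1 (M r), |FF k H r a / Real.sin (Real.pi * a / r) ^ (2 * G) -
            FF k H r a * ∑ s ∈ Icc 1 G, c s / (Real.pi * a / r) ^ (2 * s)|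
          ≤ ∑ a ∈ Icc 1 (M r), Cs H r * B := by
            refine Finset.sum_le_sum fun a ha => ?_
            have ha' := mem_Icc.mp ha
            have ha0 : (0 : ℝ) < a := by exact_mod_cast (by omega : 0 < a)
            have e1 : FF k H r a / Real.sin (Real.pi * a / r) ^ (2 * G) -
                FF k H r a * ∑ s ∈ Icc 1 G, c s / (Real.pi * a / r) ^ (2 * s) =
                FF k H r a * (1 / Real.sin (Real.pi * a / r) ^ (2 * G) -
                  ∑ s ∈ Icc 1 G, c s / (Real.pi * a / r) ^ (2 * s)) := by ring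
            rw [e1, abs_mul, abs_of_nonneg (FF_nonneg _ _ _ _)]
            refine mul_le_mul (FF_le _ _ _ _) (hB _ ?_ ?_) (abs_nonneg _) hCs0
            · have := Real.pi_pos; positivity
            · rw [div_le_div_iff₀ hr0 (by norm_num)]
              have : (a : ℝ) * 2 ≤ r := by exact_mod_cast (by omega : a * 2 ≤ r)
              calc Real.pi * a * 2 = Real.pi * (a * 2) := by ring
                _ ≤ Real.pi * r := mul_le_mul_of_nonneg_left this Real.pi_pos.le
        _ = ((M r : ℕ) : ℝ) * (Cs H r * B) := by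
            rw [Finset.sum_const, Nat.card_Icc, nsmul_eq_mul]; simp
        _ ≤ r * ((cb * (r : ℝ) ^ (2 * H)) * B) := by
            refine mul_le_mul (by exact_mod_cast hMr) (mul_le_mul_of_nonneg_right hCs hB0)
              (mul_nonneg hCs0 hB0) hr0.le
        _ = B * cb * (r : ℝ) ^ (2 * H + 1) := by ring
    have step3 : ∑ a ∈ Icc 1 (M r), FF k H r a * ∑ s ∈ Icc 1 G, c s / (Real.pi * a / r) ^ (2 * s) =
        ∑ s ∈ Icc 1 G, (c s / Real.pi ^ (2 * s)) * ∑ j ∈ Icc 1 k, v k j * ((r : ℝ) ^ (2 * s) *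
          ∑ a ∈ Icc 1 (M r), Ps H r (j * a) / (a : ℝ) ^ (2 * s)) := by
      have e1 : ∀ s, ∑ j ∈ Icc 1 k, v k j * ((r : ℝ) ^ (2 * s) *
          ∑ a ∈ Icc 1 (M r), Ps H r (j * a) / (a : ℝ) ^ (2 * s)) =
          (r : ℝ) ^ (2 * s) * ∑ a ∈ Icc 1 (M r), FF k H r a / (a : ℝ) ^ (2 * s) := by
        intro s
        have : ∀ a ∈ Icc 1 (M r), FF k H r a / (a : ℝ) ^ (2 * s) =
            ∑ j ∈ Icc 1 k, v k j * (Ps H r (j * a) / (a : ℝ) ^ (2 * s)) := by
          intro a _
          rw [FF_eq h6 k H r a hk, Finset.sum_div]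
          refine Finset.sum_congr rfl fun j _ => ?_
          ring
        rw [Finset.sum_congr rfl this, Finset.sum_comm, Finset.mul_sum]
        refine Finset.sum_congr rfl fun j _ => ?_
        rw [← Finset.mul_sum]; ring
      simp only [e1]
      simp only [Finset.mul_sum]
      rw [Finset.sum_comm]
      refine Finset.sum_congr rfl fun s _ => Finset.sum_congr rfl fun a ha => ?_
      have ha' := mem_Icc.mp ha
      have ha0 : (0 : ℝ) < a := by exact_mod_cast (by omega : 0 < a)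
      have := Real.pi_pos
      rw [div_pow, mul_pow]
      field_simp
    have hpow : (r : ℝ) ^ (2 * H) ≤ (r : ℝ) ^ (2 * H + 1) := pow_le_pow_right₀ hr1 (by omega)
    have e2 : TT (2 * k) (2 * G) (2 * H) r - ∑ s ∈ Icc 1 G, 2 * (c s / Real.pi ^ (2 * s)) *
          ∑ j ∈ Icc 1 k, v k j * ((r : ℝ) ^ (2 * s) *
          ∑ a ∈ Icc 1 (M r), Ps H r (j * a) / (a : ℝ) ^ (2 * s)) =
        (∑ a ∈ Ico 1 r, FF k H r a / Real.sin (Real.pi * a / r) ^ (2 * G) -
          2 * ∑ a ∈ Icc 1 ((r - 1) / 2), FF k H r a / Real.sin (Real.pi * a / r) ^ (2 * G)) +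
        2 * ((∑ a ∈ Icc 1 (M r), FF k H r a / Real.sin (Real.pi * a / r) ^ (2 * G)) -
        ∑ a ∈ Icc 1 (M r), FF k H r a * ∑ s ∈ Icc 1 G, c s / (Real.pi * a / r) ^ (2 * s)) +
        2 * ∑ a ∈ Ioc (M r) ((r - 1) / 2), FF k H r a / Real.sin (Real.pi * a / r) ^ (2 * G) := by
      rw [step3, TT_eq, hsplit]
      simp only [mul_assoc (2 : ℝ)]
      rw [← Finset.mul_sum]
      ring
    rw [e2]
    refine (abs_add_three _ _ _).trans ?_
    rw [add_mul, add_mul, abs_mul, abs_mul, abs_of_pos (by norm_num : (0 : ℝ) < 2)]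
    refine add_le_add (add_le_add (step1.trans (hCs.trans (mul_le_mul_of_nonneg_left hpow hcb0))) ?_) ?_
    · calc 2 * _ ≤ 2 * (B * cb * (r : ℝ) ^ (2 * H + 1)) := mul_le_mul_of_nonneg_left step2 (by norm_num)
        _ = _ := by ring
    · calc 2 * _ ≤ 2 * (cb * (k : ℝ) ^ (2 * G) * (r : ℝ) ^ (2 * H + 1)) :=
            mul_le_mul_of_nonneg_left step1b (by norm_num)
        _ = _ := by ring
  obtain ⟨Q, B', hB'⟩ := hfin
  obtain ⟨B'', hB''⟩ := extend (fun r => TT (2 * k) (2 * G) (2 * H) r)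
    (fun r => Q.eval (r : ℝ) + K * (r : ℝ) ^ (2 * H + 1) * Real.log r) (2 * H + 1) (2 * k + 1) B' hB'
  exact ⟨Q, K, B'', hKne, hB''⟩

end H572AE.ASYE
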