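import Mathlib
import Pool.Agent.H572.AE.Stm2

/-!
# The asymptotic formula for the double sum, odd number of edges (ASYO, helper388)
-/

set_option autoImplicit false

open Finset Polynomial

namespace H572AE.ASYO

theorem polyBound (p : ℝ[X]) (d : ℕ) (h : p.natDegree ≤ d) :
    ∃ c : ℝ, 0 ≤ c ∧ ∀ x : ℝ, 1 ≤ x → |p.eval x| ≤ c * x ^ d := by
  refine ⟨∑ i ∈ range (p.natDegree + 1), |p.coeff i|,
    Finset.sum_nonneg fun i _ => abs_nonneg _, fun x hx => ?_⟩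
  rw [Polynomial.eval_eq_sum_range, Finset.sum_mul]
  refine (Finset.abs_sum_le_sum_abs _ _).trans (Finset.sum_le_sum fun i hi => ?_)
  rw [abs_mul, abs_pow, abs_of_nonneg (by linarith : (0:ℝ) ≤ x)]
  exact mul_le_mul_of_nonneg_left
    (pow_le_pow_right₀ hx (by have := mem_range.mp hi; omega)) (abs_nonneg _)

/-- F r = P + (-1)^r Q + κ r^q log r + O(r^q) for large r. -/
def Asy (q : ℕ) (κ : ℝ) (F : ℕ → ℝ) : Prop :=
  ∃ (P Q : ℝ[X]) (B : ℝ) (R : ℕ), ∀ r : ℕ, R ≤ r → 1 ≤ r →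
    |F r - (P.eval (r : ℝ) + (-1) ^ r * Q.eval (r : ℝ) + κ * (r : ℝ) ^ q * Real.log r)| ≤
      B * (r : ℝ) ^ q

theorem Asy.add {q : ℕ} {κ κ' : ℝ} {F F' : ℕ → ℝ} (h : Asy q κ F) (h' : Asy q κ' F') :
    Asy q (κ + κ') (fun r => F r + F' r) := by
  obtain ⟨P, Q, B, R, hB⟩ := h
  obtain ⟨P', Q', B', R', hB'⟩ := h'
  refine ⟨P + P', Q + Q', B + B', max R R', fun r hr h1 => ?_⟩
  have e : F r + F' r - ((P + P').eval (r : ℝ) + (-1) ^ r * (Q + Q').eval (r : ℝ) +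
      (κ + κ') * (r : ℝ) ^ q * Real.log r) =
      (F r - (P.eval (r : ℝ) + (-1) ^ r * Q.eval (r : ℝ) + κ * (r : ℝ) ^ q * Real.log r)) +
      (F' r - (P'.eval (r : ℝ) + (-1) ^ r * Q'.eval (r : ℝ) + κ' * (r : ℝ) ^ q * Real.log r)) := by
    rw [eval_add, eval_add]; ring
  rw [e, add_mul]
  exact (abs_add_le _ _).trans (add_le_add (hB r ((le_max_left _ _).trans hr) h1)
    (hB' r ((le_max_right _ _).trans hr) h1))

theorem Asy.cmul {q : ℕ} {κ : ℝ} {F : ℕ → ℝ} (c : ℝ) (h : Asy q κ F) :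
    Asy q (c * κ) (fun r => c * F r) := by
  obtain ⟨P, Q, B, R, hB⟩ := h
  refine ⟨C c * P, C c * Q, |c| * B, R, fun r hr h1 => ?_⟩
  have e : c * F r - ((C c * P).eval (r : ℝ) + (-1) ^ r * (C c * Q).eval (r : ℝ) +
      (c * κ) * (r : ℝ) ^ q * Real.log r) =
      c * (F r - (P.eval (r : ℝ) + (-1) ^ r * Q.eval (r : ℝ) + κ * (r : ℝ) ^ q * Real.log r)) := by
    rw [eval_mul, eval_mul, eval_C]; ring
  rw [e, abs_mul, mul_assoc |c|]
  exact mul_le_mul_of_nonneg_left (hB r hr h1) (abs_nonneg _)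

theorem Asy.poly (q : ℕ) (P Q : ℝ[X]) :
    Asy q 0 (fun r => P.eval (r : ℝ) + (-1) ^ r * Q.eval (r : ℝ)) :=
  ⟨P, Q, 0, 0, fun r _ _ => by simp⟩

theorem Asy.zero (q : ℕ) : Asy q 0 (fun _ => 0) := ⟨0, 0, 0, 0, fun r _ _ => by simp⟩

theorem Asy.sum {ι : Type*} {q : ℕ} (S : Finset ι) {κ : ι → ℝ} {F : ι → ℕ → ℝ}
    (h : ∀ i ∈ S, Asy q (κ i) (F i)) : Asy q (∑ i ∈ S, κ i) (fun r => ∑ i ∈ S, F i r) := by
  classical
  induction S using Finset.induction_on with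
  | empty => simpa using Asy.zero q
  | insert a S ha ih =>
    have h1 := (h a (mem_insert_self a S)).add (ih fun i hi => h i (mem_insert_of_mem hi))
    simpa only [Finset.sum_insert ha] using h1

theorem Asy.close {q : ℕ} {κ : ℝ} {F F' : ℕ → ℝ} (h : Asy q κ F) (B' : ℝ) (R' : ℕ)
    (h' : ∀ r : ℕ, R' ≤ r → 1 ≤ r → |F' r - F r| ≤ B' * (r : ℝ) ^ q) : Asy q κ F' := by
  obtain ⟨P, Q, B, R, hB⟩ := h
  refine ⟨P, Q, B' + B, max R R', fun r hr h1 => ?_⟩
  have e : F' r - (P.eval (r : ℝ) + (-1) ^ r * Q.eval (r : ℝ) + κ * (r : ℝ) ^ q * Real.log r) =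
      (F' r - F r) +
      (F r - (P.eval (r : ℝ) + (-1) ^ r * Q.eval (r : ℝ) + κ * (r : ℝ) ^ q * Real.log r)) := by ring
  rw [e, add_mul]
  exact (abs_add_le _ _).trans (add_le_add (h' r ((le_max_right _ _).trans hr) h1)
    (hB r ((le_max_left _ _).trans hr) h1))

theorem Asy.congr {q : ℕ} {κ : ℝ} {F F' : ℕ → ℝ} (h : Asy q κ F) (R' : ℕ)
    (h' : ∀ r : ℕ, R' ≤ r → 1 ≤ r → F' r = F r) : Asy q κ F' :=
  h.close 0 R' fun r hr h1 => by rw [h' r hr h1, sub_self, abs_zero, zero_mul]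

/-- From large r to all r at least 2. -/
theorem Asy.all {q : ℕ} {κ : ℝ} {F : ℕ → ℝ} (h : Asy q κ F) : ∃ (P Q : ℝ[X]) (B : ℝ),
    ∀ r : ℕ, 2 ≤ r → |F r - (P.eval (r : ℝ) + (-1) ^ r * Q.eval (r : ℝ) +
      κ * (r : ℝ) ^ q * Real.log r)| ≤ B * (r : ℝ) ^ q := by
  obtain ⟨P, Q, B, R, hB⟩ := h
  refine ⟨P, Q, |B| + ∑ n ∈ range R, |F n - (P.eval (n : ℝ) + (-1) ^ n * Q.eval (n : ℝ) +
      κ * (n : ℝ) ^ q * Real.log n)|, fun r hr => ?_⟩
  have h1 : (1 : ℝ) ≤ (r : ℝ) ^ q := one_le_pow₀ (by exact_mod_cast (by omega : 1 ≤ r))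
  have h0 : 0 ≤ ∑ n ∈ range R, |F n - (P.eval (n : ℝ) + (-1) ^ n * Q.eval (n : ℝ) +
      κ * (n : ℝ) ^ q * Real.log n)| := Finset.sum_nonneg fun n _ => abs_nonneg _
  rw [add_mul]
  rcases Nat.lt_or_ge r R with h2 | h2
  · have h3 := Finset.single_le_sum (f := fun n : ℕ => |F n - (P.eval (n : ℝ) +
      (-1) ^ n * Q.eval (n : ℝ) + κ * (n : ℝ) ^ q * Real.log n)|)
      (fun n _ => abs_nonneg _) (mem_range.mpr h2)
    have h4 := le_mul_of_one_le_right h0 h1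
    have h5 : 0 ≤ |B| * (r : ℝ) ^ q := by positivity
    refine (h3.trans h4).trans ?_
    linarith
  · have h3 := hB r h2 (by omega)
    have h4 : B * (r : ℝ) ^ q ≤ |B| * (r : ℝ) ^ q :=
      mul_le_mul_of_nonneg_right (le_abs_self _) (by linarith)
    have h5 : 0 ≤ (∑ n ∈ range R, |F n - (P.eval (n : ℝ) + (-1) ^ n * Q.eval (n : ℝ) +
      κ * (n : ℝ) ^ q * Real.log n)|) * (r : ℝ) ^ q := mul_nonneg h0 (by linarith)
    linarith

/-- The cut. -/
def Mr (m r : ℕ) : ℕ := (r - 1) / m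

theorem M_bounds {m r : ℕ} (hm : 2 ≤ m) (hr : m + 1 ≤ r) : 1 ≤ Mr m r ∧ Mr m r ≤ r ∧
    r ≤ 2 * m * Mr m r ∧ 2 * Mr m r < r ∧ m * Mr m r < r ∧ r ≤ m * (Mr m r + 1) := by
  unfold Mr
  have h1 := Nat.div_add_mod (r - 1) m
  have h2 := Nat.mod_lt (r - 1) (show 0 < m by omega)
  have h3 : 0 < (r - 1) / m := Nat.div_pos (by omega) (by omega)
  generalize (r - 1) / m = M at h1 h3 ⊢
  generalize (r - 1) % m = t at h1 h2
  have h4 : 2 * M ≤ m * M := Nat.mul_le_mul_right M hm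
  have h5 : m * (M + 1) = m * M + m := by ring
  have h6 : 2 * m * M = m * M + m * M := by ring
  have h7 : m ≤ m * M := Nat.le_mul_of_pos_right m h3
  refine ⟨h3, by omega, by omega, by omega, by omega, by omega⟩

/-- The power sums over a parity class. -/
noncomputable def SS (m : ℕ) (f : ℝ[X]) (s ε r : ℕ) : ℝ :=
  ∑ a ∈ (Icc 1 (Mr m r)).filter (fun a => a % 2 = ε), f.eval (a : ℝ) / (a : ℝ) ^ s

theorem block (h5 : S_ps2) {m : ℕ} (hm : 2 ≤ m) (s e d ε : ℕ) (hs : 1 ≤ s) (hε : ε < 2)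
    (α f : ℝ[X]) (hα : α.natDegree ≤ e) (hf : f.natDegree ≤ d) : ∃ A C : ℝ, ∀ r : ℕ, m + 1 ≤ r →
    |(r : ℝ) ^ s * α.eval (r : ℝ) * SS m f s ε r -
      (r : ℝ) ^ s * α.eval (r : ℝ) *
        (A + f.coeff (s - 1) * (Real.log (Mr m r : ℝ) / 2))| ≤ C * (r : ℝ) ^ (e + d + 1) := by
  obtain ⟨A, B, hB⟩ := h5 f d s ε hs hε hf
  obtain ⟨c, hc0, hc⟩ := polyBound α e hα
  refine ⟨A, c * |B| * (2 * m) ^ s, fun r hr => ?_⟩
  obtain ⟨hM1, hMr, hrM, -, -, -⟩ := M_bounds hm hr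
  unfold SS
  set M := Mr m r with hM
  have hr1 : (1 : ℝ) ≤ r := by exact_mod_cast (by omega : 1 ≤ r)
  have hr0 : (0 : ℝ) < r := by linarith
  have hM0 : (0 : ℝ) < M := by exact_mod_cast (by omega : 0 < M)
  have hMr' : (M : ℝ) ≤ r := by exact_mod_cast hMr
  have hrM' : (r : ℝ) ≤ 2 * m * M := by exact_mod_cast hrM
  have k1 := hB M hM1
  have k2 : (M : ℝ) ^ (d + 1) / (M : ℝ) ^ s ≤
      (2 * m) ^ s * ((r : ℝ) ^ (d + 1) / (r : ℝ) ^ s) := by
    rw [← mul_div_assoc, div_le_div_iff₀ (by positivity) (by positivity)]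
    have a1 : (M : ℝ) ^ (d + 1) ≤ (r : ℝ) ^ (d + 1) := pow_le_pow_left₀ hM0.le hMr' _
    have a2 : (r : ℝ) ^ s ≤ (2 * m) ^ s * (M : ℝ) ^ s := by
      rw [← mul_pow]; exact pow_le_pow_left₀ hr0.le hrM' _
    calc (M : ℝ) ^ (d + 1) * (r : ℝ) ^ s ≤ (r : ℝ) ^ (d + 1) * ((2 * m) ^ s * (M : ℝ) ^ s) :=
          mul_le_mul a1 a2 (by positivity) (by positivity)
      _ = (2 * m) ^ s * (r : ℝ) ^ (d + 1) * (M : ℝ) ^ s := by ring
  set SM := ∑ a ∈ (Icc 1 M).filter (fun a => a % 2 = ε), f.eval (a : ℝ) / (a : ℝ) ^ s with hSM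
  have k3 : |SM - A - f.coeff (s - 1) * (Real.log M / 2)| ≤
      |B| * ((2 * m) ^ s * ((r : ℝ) ^ (d + 1) / (r : ℝ) ^ s)) :=
    k1.trans ((mul_le_mul_of_nonneg_right (le_abs_self B) (by positivity)).trans
      (mul_le_mul_of_nonneg_left k2 (abs_nonneg _)))
  have e1 : (r : ℝ) ^ s * α.eval (r : ℝ) * SM -
      (r : ℝ) ^ s * α.eval (r : ℝ) * (A + f.coeff (s - 1) * (Real.log (M : ℝ) / 2)) =
      (r : ℝ) ^ s * (α.eval (r : ℝ) * (SM - A - f.coeff (s - 1) * (Real.log M / 2))) := by ring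
  rw [e1, abs_mul, abs_mul, abs_of_pos (by positivity : (0 : ℝ) < (r : ℝ) ^ s)]
  calc (r : ℝ) ^ s * (|α.eval (r : ℝ)| * |SM - A - f.coeff (s - 1) * (Real.log M / 2)|)
      ≤ (r : ℝ) ^ s * ((c * (r : ℝ) ^ e) * (|B| * ((2 * m) ^ s *
        ((r : ℝ) ^ (d + 1) / (r : ℝ) ^ s)))) := by
        refine mul_le_mul_of_nonneg_left ?_ (by positivity)
        exact mul_le_mul (hc r hr1) k3 (abs_nonneg _) (by positivity)
    _ = c * |B| * (2 * m) ^ s * (r : ℝ) ^ (e + d + 1) := by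
        have hne : (r : ℝ) ^ s ≠ 0 := by positivity
        field_simp
        ring

theorem logM {m r : ℕ} (hm : 2 ≤ m) (hr : m + 1 ≤ r) :
    |Real.log (Mr m r : ℝ) - Real.log r| ≤ Real.log (2 * m) ∧ |Real.log (Mr m r : ℝ)| ≤ r := by
  obtain ⟨hM1, hMr, hrM, -, -, -⟩ := M_bounds hm hr
  set M := Mr m r with hM
  have hr0 : (0 : ℝ) < r := by exact_mod_cast (by omega : 0 < r)
  have hM0 : (0 : ℝ) < M := by exact_mod_cast (by omega : 0 < M)
  have hM1' : (1 : ℝ) ≤ M := by exact_mod_cast hM1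
  have hMr' : (M : ℝ) ≤ r := by exact_mod_cast hMr
  have hrM' : (r : ℝ) ≤ 2 * m * M := by exact_mod_cast hrM
  have hm0 : (2 : ℝ) ≤ m := by exact_mod_cast hm
  have l1 : Real.log M ≤ Real.log r := Real.log_le_log hM0 hMr'
  have l2 : Real.log r ≤ Real.log (2 * m) + Real.log M := by
    rw [← Real.log_mul (by positivity) hM0.ne']; exact Real.log_le_log hr0 hrM'
  have l3 : 0 ≤ Real.log M := Real.log_nonneg hM1'
  have l4 : Real.log M ≤ M := (Real.log_le_sub_one_of_pos hM0).trans (by linarith)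
  have l5 : 0 ≤ Real.log (2 * m) := Real.log_nonneg (by linarith)
  constructor
  · rw [abs_le]; constructor <;> linarith
  · rw [abs_of_nonneg l3]; linarith

/-- Blocks without logarithm. -/
theorem blockN (h5 : S_ps2) {m : ℕ} (hm : 2 ≤ m) (q s e d : ℕ) (hs : 1 ≤ s) (hed : e + d + 1 = q)
    (α f : ℝ[X]) (hα : α.natDegree ≤ e) (hf : f.natDegree ≤ d) (hf0 : f.coeff (s - 1) = 0) :
    Asy q 0 (fun r => (r : ℝ) ^ s * α.eval (r : ℝ) * SS m f s 1 r) := by
  obtain ⟨A, B, hB⟩ := block h5 hm s e d 1 hs (by norm_num) α f hα hf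
  refine (Asy.poly q (X ^ s * α * C A) 0).close B (m + 1) fun r hr _ => ?_
  have := hB r hr
  rw [hf0, zero_mul, add_zero, hed] at this
  simpa using this

/-- Blocks depending on the parity of r, without logarithm. -/
theorem blockF (h5 : S_ps2) {m : ℕ} (hm : 2 ≤ m) (q s e d : ℕ) (hs : 1 ≤ s) (hed : e + d + 1 = q)
    (α f : ℝ[X]) (hα : α.natDegree ≤ e) (hf : f.natDegree ≤ d) (hf0 : f.coeff (s - 1) = 0) :
    Asy q 0 (fun r => (r : ℝ) ^ s * α.eval (r : ℝ) * SS m f s ((r + 1) % 2) r) := by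
  obtain ⟨A0, B0, hB0⟩ := block h5 hm s e d 0 hs (by norm_num) α f hα hf
  obtain ⟨A1, B1, hB1⟩ := block h5 hm s e d 1 hs (by norm_num) α f hα hf
  refine (Asy.poly q (X ^ s * α * C ((A0 + A1) / 2)) (X ^ s * α * C ((A1 - A0) / 2))).close
    (|B0| + |B1|) (m + 1) fun r hr _ => ?_
  have h0 := hB0 r hr
  have h1 := hB1 r hr
  rw [hf0, zero_mul, add_zero, hed] at h0 h1
  have hrq : (0 : ℝ) ≤ (r : ℝ) ^ q := by positivity
  have b0 : B0 * (r : ℝ) ^ q ≤ |B0| * (r : ℝ) ^ q :=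
    mul_le_mul_of_nonneg_right (le_abs_self _) hrq
  have b1 : B1 * (r : ℝ) ^ q ≤ |B1| * (r : ℝ) ^ q :=
    mul_le_mul_of_nonneg_right (le_abs_self _) hrq
  have b2 : 0 ≤ |B0| * (r : ℝ) ^ q := by positivity
  have b3 : 0 ≤ |B1| * (r : ℝ) ^ q := by positivity
  simp only [eval_mul, eval_pow, eval_X, eval_C]
  rcases Nat.even_or_odd r with he | ho
  · have e1 : (r + 1) % 2 = 1 := by
      obtain ⟨t, ht⟩ := he
      omega
    rw [e1, he.neg_one_pow]
    have e2 : (r : ℝ) ^ s * α.eval (r : ℝ) * SS m f s 1 r -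
        ((r : ℝ) ^ s * α.eval (r : ℝ) * ((A0 + A1) / 2) +
          1 * ((r : ℝ) ^ s * α.eval (r : ℝ) * ((A1 - A0) / 2))) =
        (r : ℝ) ^ s * α.eval (r : ℝ) * SS m f s 1 r - (r : ℝ) ^ s * α.eval (r : ℝ) * A1 := by ring
    rw [e2]
    linarith
  · have e1 : (r + 1) % 2 = 0 := by
      obtain ⟨t, ht⟩ := ho
      omega
    rw [e1, ho.neg_one_pow]
    have e2 : (r : ℝ) ^ s * α.eval (r : ℝ) * SS m f s 0 r -
        ((r : ℝ) ^ s * α.eval (r : ℝ) * ((A0 + A1) / 2) +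
          -1 * ((r : ℝ) ^ s * α.eval (r : ℝ) * ((A1 - A0) / 2))) =
        (r : ℝ) ^ s * α.eval (r : ℝ) * SS m f s 0 r - (r : ℝ) ^ s * α.eval (r : ℝ) * A0 := by ring
    rw [e2]
    linarith

/-- Blocks with logarithm. -/
theorem blockL (h5 : S_ps2) {m : ℕ} (hm : 2 ≤ m) (H s : ℕ) (hH : 1 ≤ H) (hs : 1 ≤ s) (β : ℝ)
    (f : ℝ[X]) (hf : f.natDegree ≤ 2 * H - 2) :
    Asy (2 * H) (if s = 2 * H - 1 then β * f.coeff (2 * H - 2) / 2 else 0)
      (fun r => (r : ℝ) ^ s * (C β * X : ℝ[X]).eval (r : ℝ) * SS m f s 1 r) := by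
  have hα : (C β * X : ℝ[X]).natDegree ≤ 1 := (natDegree_C_mul_le β X).trans natDegree_X_le
  obtain ⟨A, B, hB⟩ := block h5 hm s 1 (2 * H - 2) 1 hs (by norm_num) (C β * X) f hα hf
  have hed : 1 + (2 * H - 2) + 1 = 2 * H := by omega
  by_cases hsh : s = 2 * H - 1
  · rw [if_pos hsh]
    refine ⟨X ^ s * (C β * X) * C A, 0, B + |β * f.coeff (2 * H - 2) / 2| * Real.log (2 * m),
      m + 1, fun r hr _ => ?_⟩
    have h1 := hB r hr
    have h2 := (logM hm hr).1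
    have hr0 : (0 : ℝ) < r := by exact_mod_cast (by omega : 0 < r)
    rw [hed, show s - 1 = 2 * H - 2 by omega] at h1
    simp only [eval_mul, eval_pow, eval_X, eval_C, eval_zero] at h1 ⊢
    set S := SS m f s 1 r
    set lM := Real.log (Mr m r : ℝ)
    have hpow : (r : ℝ) ^ s * r = (r : ℝ) ^ (2 * H) := by
      rw [← pow_succ]
      congr 1
      omega
    have e1 : (r : ℝ) ^ s * (β * r) * S - ((r : ℝ) ^ s * (β * r) * A + (-1) ^ r * 0 +
        β * f.coeff (2 * H - 2) / 2 * (r : ℝ) ^ (2 * H) * Real.log r) =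
        ((r : ℝ) ^ s * (β * r) * S - (r : ℝ) ^ s * (β * r) * (A + f.coeff (2 * H - 2) * (lM / 2))) +
        (β * f.coeff (2 * H - 2) / 2) * (lM - Real.log r) * (r : ℝ) ^ (2 * H) := by
      rw [← hpow]
      ring
    rw [e1]
    refine (abs_add_le _ _).trans ?_
    rw [add_mul]
    refine add_le_add h1 ?_
    rw [abs_mul, abs_mul, abs_of_pos (by positivity : (0 : ℝ) < (r : ℝ) ^ (2 * H))]
    exact mul_le_mul_of_nonneg_right (mul_le_mul_of_nonneg_left h2 (abs_nonneg _)) (by positivity)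
  · rw [if_neg hsh]
    refine ⟨X ^ s * (C β * X) * C A, 0, B + |β * f.coeff (s - 1) / 2|, m + 1, fun r hr _ => ?_⟩
    have h1 := hB r hr
    have h2 := (logM hm hr).2
    have hr0 : (0 : ℝ) < r := by exact_mod_cast (by omega : 0 < r)
    have hr1 : (1 : ℝ) ≤ r := by exact_mod_cast (by omega : 1 ≤ r)
    rw [hed] at h1
    simp only [eval_mul, eval_pow, eval_X, eval_C, eval_zero] at h1 ⊢
    set S := SS m f s 1 r
    set lM := Real.log (Mr m r : ℝ)
    have e1 : (r : ℝ) ^ s * (β * r) * S - ((r : ℝ) ^ s * (β * r) * A + (-1) ^ r * 0 +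
        0 * (r : ℝ) ^ (2 * H) * Real.log r) =
        ((r : ℝ) ^ s * (β * r) * S - (r : ℝ) ^ s * (β * r) * (A + f.coeff (s - 1) * (lM / 2))) +
        (β * f.coeff (s - 1) / 2) * (lM * (r : ℝ) ^ (s + 1)) := by ring
    rw [e1]
    refine (abs_add_le _ _).trans ?_
    rw [add_mul]
    refine add_le_add h1 ?_
    rcases Nat.lt_or_gt_of_ne hsh with hlt | hgt
    · rw [abs_mul, abs_mul lM]
      refine mul_le_mul_of_nonneg_left ?_ (abs_nonneg _)
      rw [abs_of_pos (by positivity : (0 : ℝ) < (r : ℝ) ^ (s + 1))]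
      calc |lM| * (r : ℝ) ^ (s + 1) ≤ r * (r : ℝ) ^ (s + 1) :=
          mul_le_mul_of_nonneg_right h2 (by positivity)
        _ = (r : ℝ) ^ (s + 2) := by ring
        _ ≤ (r : ℝ) ^ (2 * H) := pow_le_pow_right₀ hr1 (by omega)
    · have h0 : f.coeff (s - 1) = 0 := coeff_eq_zero_of_natDegree_lt (by omega)
      rw [h0]; simp

theorem RO_period (H r c n : ℕ) : RO H r (c + 2 * r * n) = RO H r c := by
  unfold RO
  refine Finset.sum_congr rfl fun b hb => ?_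
  have hr : (r : ℝ) ≠ 0 := by
    have := mem_Ico.mp hb
    exact_mod_cast (by omega : r ≠ 0)
  have e1 : Real.pi * ((c + 2 * r * n : ℕ) : ℝ) * b / r =
      Real.pi * c * b / r + ((b * n : ℕ) : ℝ) * (2 * Real.pi) := by
    push_cast
    field_simp
  rw [e1, Real.sin_add_nat_mul_two_pi]

theorem RO_mod (H r c : ℕ) : RO H r c = RO H r (c % (2 * r)) := by
  have h := RO_period H r (c % (2 * r)) (c / (2 * r))
  rw [← h, Nat.mod_add_div]

theorem RO_even (H r c : ℕ) (hc : c % 2 = 0) : RO H r c = 0 := by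
  have h3 := Finset.sum_Ico_reflect (fun b : ℕ => Real.sin (Real.pi * c * b / r) /
    Real.sin (Real.pi * b / r) ^ (2 * H - 1)) 1 (m := r) (n := r) (by omega)
  rw [show r + 1 - r = 1 by omega, show r + 1 - 1 = r by omega] at h3
  have h4 : ∑ b ∈ Ico 1 r, Real.sin (Real.pi * c * ((r - b : ℕ) : ℝ) / r) /
      Real.sin (Real.pi * ((r - b : ℕ) : ℝ) / r) ^ (2 * H - 1) = - RO H r c := by
    unfold RO
    rw [← Finset.sum_neg_distrib]
    refine Finset.sum_congr rfl fun b hb => ?_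
    have hb' := mem_Ico.mp hb
    have hr : (r : ℝ) ≠ 0 := by exact_mod_cast (by omega : r ≠ 0)
    have e1 : Real.pi * c * ((r - b : ℕ) : ℝ) / r = c * Real.pi - Real.pi * c * b / r := by
      rw [Nat.cast_sub hb'.2.le]
      field_simp
    have e2 : Real.pi * ((r - b : ℕ) : ℝ) / r = Real.pi - Real.pi * b / r := by
      rw [Nat.cast_sub hb'.2.le]
      field_simp
    rw [e1, e2, Real.sin_pi_sub, Real.sin_nat_mul_pi_sub, Even.neg_one_pow (Nat.even_iff.2 hc),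
      one_mul, neg_div]
  have h5 : RO H r c = - RO H r c := by
    rw [← h4]
    exact h3.symm
  linarith

/-- uniform bound for the odd sums -/
theorem RO_bound (h1 : S_pho) (h3 : S_evo) (h2 : S_cp1) (H : ℕ) (hH : 1 ≤ H) : ∃ C : ℝ, 0 ≤ C ∧
    ∀ r c : ℕ, 1 ≤ r → |RO H r c| ≤ C * (r : ℝ) ^ (2 * H - 1) := by
  obtain ⟨v1, v2, v3⟩ := h3
  -- bound for the single terms
  have hX : ∀ i, (X * VO i : ℝ[X]).natDegree ≤ 2 * i + 1 := fun i =>
    (natDegree_mul_le).trans (by rw [natDegree_X]; have := v1 i; omega)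
  have hterm : ∀ i : ℕ, ∃ C : ℝ, 0 ≤ C ∧ (i < H - 1 → ∀ r c : ℕ, 1 ≤ r → 1 ≤ c → c < 2 * r →
      |(-1) ^ i * Cs (H - 1 - i) r * ((X * VO i).eval (c : ℝ) / ((2 * i + 1).factorial : ℝ))| ≤
        C * (r : ℝ) ^ (2 * H - 1)) := by
    intro i
    by_cases hi : i < H - 1
    · obtain ⟨p, hp, hp'⟩ := h2 (H - 1 - i) (by omega)
      obtain ⟨c1, hc1, hc1'⟩ := polyBound p _ hp
      obtain ⟨c2, hc2, hc2'⟩ := polyBound (X * VO i) _ (hX i)
      refine ⟨c1 * c2 * 2 ^ (2 * i + 1), by positivity, fun _ r c hr hc hcr => ?_⟩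
      have hr1 : (1 : ℝ) ≤ r := by exact_mod_cast hr
      have hcc1 : (1 : ℝ) ≤ c := by exact_mod_cast hc
      have hcr' : (c : ℝ) ≤ 2 * r := by exact_mod_cast hcr.le
      rw [hp' r hr, abs_mul, abs_mul, abs_pow, abs_neg, abs_one, one_pow, one_mul]
      have a1 := hc1' r hr1
      have a2 : |(X * VO i).eval (c : ℝ) / ((2 * i + 1).factorial : ℝ)| ≤
          c2 * (2 * r) ^ (2 * i + 1) := by
        have hf : (1 : ℝ) ≤ ((2 * i + 1).factorial : ℝ) := by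
          exact_mod_cast Nat.one_le_iff_ne_zero.2 (Nat.factorial_ne_zero _)
        rw [abs_div, abs_of_pos (by linarith : (0 : ℝ) < ((2 * i + 1).factorial : ℝ))]
        refine (div_le_self (abs_nonneg _) hf).trans ((hc2' c hcc1).trans ?_)
        exact mul_le_mul_of_nonneg_left (pow_le_pow_left₀ (by linarith) hcr' _) hc2
      calc |p.eval (r : ℝ)| * |(X * VO i).eval (c : ℝ) / ((2 * i + 1).factorial : ℝ)|
          ≤ (c1 * (r : ℝ) ^ (2 * (H - 1 - i))) * (c2 * (2 * r) ^ (2 * i + 1)) :=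
            mul_le_mul a1 a2 (abs_nonneg _) (by positivity)
        _ = c1 * c2 * 2 ^ (2 * i + 1) * ((r : ℝ) ^ (2 * (H - 1 - i)) * (r : ℝ) ^ (2 * i + 1)) := by
            rw [mul_pow]; ring
        _ = c1 * c2 * 2 ^ (2 * i + 1) * (r : ℝ) ^ (2 * H - 1) := by
            rw [← pow_add]
            congr 2
            omega
    · exact ⟨0, le_rfl, fun h => absurd h hi⟩
  choose Cf hCf0 hCf using hterm
  obtain ⟨d1, hd1, hd1'⟩ := polyBound (VO (H - 1)) _ (v1 (H - 1))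
  obtain ⟨d2, hd2, hd2'⟩ := polyBound (X * VO (H - 1)) _ (hX (H - 1))
  set D : ℝ := d1 * 2 ^ (2 * (H - 1)) + d2 * 2 ^ (2 * (H - 1) + 1) with hD
  have hsum0 : 0 ≤ ∑ i ∈ range (H - 1), Cf i := Finset.sum_nonneg fun i _ => hCf0 i
  refine ⟨(∑ i ∈ range (H - 1), Cf i) + D, by positivity, fun r c hr => ?_⟩
  have hr1 : (1 : ℝ) ≤ r := by exact_mod_cast hr
  rw [RO_mod H r c]
  have hc'r : c % (2 * r) < 2 * r := Nat.mod_lt _ (by omega)
  generalize c % (2 * r) = c' at hc'r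
  by_cases hpar : c' % 2 = 0
  · rw [RO_even H r c' hpar, abs_zero]
    positivity
  · have hodd : c' % 2 = 1 := by omega
    have hc1 : 1 ≤ c' := by omega
    have hcc1 : (1 : ℝ) ≤ c' := by exact_mod_cast hc1
    have hcr' : (c' : ℝ) ≤ 2 * r := by exact_mod_cast hc'r.le
    rw [h1 H r c' hH hr hodd hc'r, add_mul]
    refine (abs_add_le _ _).trans (add_le_add ?_ ?_)
    · rw [Finset.sum_mul]
      refine (Finset.abs_sum_le_sum_abs _ _).trans (Finset.sum_le_sum fun i hi => ?_)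
      exact hCf i (mem_range.mp hi) r c' hr hc1 hc'r
    · rw [abs_mul, abs_pow, abs_neg, abs_one, one_pow, one_mul]
      refine (abs_sub _ _).trans ?_
      rw [hD, add_mul]
      have hf1 : (1 : ℝ) ≤ ((2 * H - 2).factorial : ℝ) := by
        exact_mod_cast Nat.one_le_iff_ne_zero.2 (Nat.factorial_ne_zero _)
      have hf2 : (1 : ℝ) ≤ ((2 * H - 1).factorial : ℝ) := by
        exact_mod_cast Nat.one_le_iff_ne_zero.2 (Nat.factorial_ne_zero _)
      refine add_le_add ?_ ?_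
      · rw [abs_div, abs_of_pos (by linarith : (0 : ℝ) < ((2 * H - 2).factorial : ℝ)), abs_mul,
          abs_of_pos (by linarith : (0 : ℝ) < r)]
        refine (div_le_self (by positivity) hf1).trans ?_
        have b1 : |(VO (H - 1)).eval (c' : ℝ)| ≤ d1 * (2 * r) ^ (2 * (H - 1)) :=
          (hd1' c' hcc1).trans (mul_le_mul_of_nonneg_left
            (pow_le_pow_left₀ (by linarith) hcr' _) hd1)
        calc (r : ℝ) * |(VO (H - 1)).eval (c' : ℝ)| ≤ r * (d1 * (2 * r) ^ (2 * (H - 1))) :=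
              mul_le_mul_of_nonneg_left b1 (by linarith)
          _ = d1 * 2 ^ (2 * (H - 1)) * ((r : ℝ) ^ (2 * (H - 1)) * r) := by rw [mul_pow]; ring
          _ = d1 * 2 ^ (2 * (H - 1)) * (r : ℝ) ^ (2 * H - 1) := by
              rw [← pow_succ]
              congr 2
              omega
      · rw [abs_div, abs_of_pos (by linarith : (0 : ℝ) < ((2 * H - 1).factorial : ℝ))]
        refine (div_le_self (abs_nonneg _) hf2).trans ?_
        refine (hd2' c' hcc1).trans ?_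
        calc d2 * (c' : ℝ) ^ (2 * (H - 1) + 1) ≤ d2 * (2 * r) ^ (2 * (H - 1) + 1) :=
              mul_le_mul_of_nonneg_left (pow_le_pow_left₀ (by linarith) hcr' _) hd2
          _ = d2 * 2 ^ (2 * (H - 1) + 1) * (r : ℝ) ^ (2 * (H - 1) + 1) := by rw [mul_pow]; ring
          _ = d2 * 2 ^ (2 * (H - 1) + 1) * (r : ℝ) ^ (2 * H - 1) := by
              congr 2
              omega

/-- the coefficients of the odd powers of the sine -/
noncomputable def wt (k i : ℕ) : ℝ := (-1) ^ i * ((2 * k + 1).choose (k - i) : ℝ) / 4 ^ k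

/-- the sum over the labels of the second vertex -/
noncomputable def FF (k H r a : ℕ) : ℝ := ∑ i ∈ range (k + 1), wt k i * RO H r ((2 * i + 1) * a)

theorem TT_eq (h7 : S_sino) (k G H r : ℕ) : TT (2 * k + 1) (2 * G - 1) (2 * H - 1) r =
    ∑ a ∈ Ico 1 r, FF k H r a / Real.sin (Real.pi * a / r) ^ (2 * G - 1) := by
  unfold TT FF RO
  refine Finset.sum_congr rfl fun a _ => ?_
  have e1 : ∀ b ∈ Ico 1 r, Real.sin (Real.pi * a * b / r) ^ (2 * k + 1) /
      (Real.sin (Real.pi * a / r) ^ (2 * G - 1) * Real.sin (Real.pi * b / r) ^ (2 * H - 1)) =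
      ∑ i ∈ range (k + 1), wt k i * (Real.sin (Real.pi * (((2 * i + 1) * a : ℕ) : ℝ) * b / r) /
        Real.sin (Real.pi * b / r) ^ (2 * H - 1)) / Real.sin (Real.pi * a / r) ^ (2 * G - 1) := by
    intro b _
    rw [h7 k (Real.pi * a * b / r), Finset.sum_div]
    refine Finset.sum_congr rfl fun i _ => ?_
    have e2 : (2 * (i : ℝ) + 1) * (Real.pi * a * b / r) =
        Real.pi * (((2 * i + 1) * a : ℕ) : ℝ) * b / r := by
      push_cast
      ring
    rw [e2]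
    unfold wt
    rw [mul_div_assoc ((-1) ^ i * ((2 * k + 1).choose (k - i) : ℝ) / 4 ^ k),
      mul_div_assoc ((-1) ^ i * ((2 * k + 1).choose (k - i) : ℝ) / 4 ^ k), div_div,
      mul_comm (Real.sin (Real.pi * b / r) ^ (2 * H - 1))]
  rw [Finset.sum_congr rfl e1, Finset.sum_comm, Finset.sum_div]
  refine Finset.sum_congr rfl fun i _ => ?_
  rw [← Finset.sum_div, ← Finset.mul_sum]

theorem FF_bound (h1 : S_pho) (h3 : S_evo) (h2 : S_cp1) (k H : ℕ) (hH : 1 ≤ H) : ∃ C : ℝ, 0 ≤ C ∧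
    ∀ r a : ℕ, 1 ≤ r → |FF k H r a| ≤ C * (r : ℝ) ^ (2 * H - 1) := by
  obtain ⟨C, hC, hC'⟩ := RO_bound h1 h3 h2 H hH
  refine ⟨∑ i ∈ range (k + 1), |wt k i| * C, Finset.sum_nonneg fun i _ => by positivity,
    fun r a hr => ?_⟩
  unfold FF
  rw [Finset.sum_mul]
  refine (Finset.abs_sum_le_sum_abs _ _).trans (Finset.sum_le_sum fun i _ => ?_)
  rw [abs_mul, mul_assoc]
  exact mul_le_mul_of_nonneg_left (hC' r _ hr) (abs_nonneg _)

theorem FF_even (k H r a : ℕ) (ha : a % 2 = 0) : FF k H r a = 0 := by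
  unfold FF
  refine Finset.sum_eq_zero fun i _ => ?_
  rw [RO_even H r _ (by rw [Nat.mul_mod, ha, mul_zero, Nat.zero_mod]), mul_zero]

/-- the operator on polynomials -/
noncomputable def Tp (k : ℕ) (p : ℝ[X]) : ℝ[X] :=
  ∑ i ∈ range (k + 1), C (wt k i) * p.comp (C (2 * (i : ℝ) + 1) * X)

theorem Tp_eval (k : ℕ) (p : ℝ[X]) (a : ℕ) : (Tp k p).eval (a : ℝ) =
    ∑ i ∈ range (k + 1), wt k i * p.eval (((2 * i + 1) * a : ℕ) : ℝ) := by
  unfold Tp
  rw [Polynomial.eval_finsetSum]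
  refine Finset.sum_congr rfl fun i _ => ?_
  rw [eval_mul, eval_C, eval_comp, eval_mul, eval_C, eval_X]
  push_cast
  rfl

theorem Tp_natDegree (k : ℕ) (p : ℝ[X]) (d : ℕ) (h : p.natDegree ≤ d) :
    (Tp k p).natDegree ≤ d := by
  unfold Tp
  refine Polynomial.natDegree_sum_le_of_forall_le _ _ fun i _ => ?_
  refine (natDegree_C_mul_le _ _).trans (natDegree_comp_le.trans ?_)
  have h1 : (C (2 * (i : ℝ) + 1) * X : ℝ[X]).natDegree ≤ 1 :=
    (natDegree_C_mul_le _ X).trans natDegree_X_le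
  calc p.natDegree * (C (2 * (i : ℝ) + 1) * X : ℝ[X]).natDegree ≤ p.natDegree * 1 :=
        Nat.mul_le_mul_left _ h1
    _ ≤ d := by rw [mul_one]; exact h

theorem Tp_coeff (k : ℕ) (p : ℝ[X]) (n : ℕ) : (Tp k p).coeff n =
    (∑ i ∈ range (k + 1), wt k i * (2 * (i : ℝ) + 1) ^ n) * p.coeff n := by
  unfold Tp
  rw [Polynomial.finsetSum_coeff, Finset.sum_mul]
  refine Finset.sum_congr rfl fun i _ => ?_
  rw [coeff_C_mul, Polynomial.comp_C_mul_X_coeff]
  ring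

theorem XVO_coeff (h3 : S_evo) (j s : ℕ) (hs : s % 2 = 1) : (X * VO j : ℝ[X]).coeff (s - 1) = 0 := by
  obtain ⟨v1, v2, v3⟩ := h3
  rcases Nat.eq_zero_or_pos (s - 1) with h0 | h0
  · rw [h0, coeff_X_mul_zero]
  · obtain ⟨t, ht⟩ : ∃ t, s - 1 = (2 * t + 1) + 1 := ⟨(s - 3) / 2, by omega⟩
    rw [ht, coeff_X_mul]
    exact v2 j t

theorem FF_near (h1 : S_pho) (k H r a : ℕ) (hH : 1 ≤ H) (hr : 1 ≤ r) (ha : a % 2 = 1)
    (har : (2 * k + 1) * a < 2 * r) : FF k H r a =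
    (∑ j ∈ range (H - 1), ((-1) ^ j / ((2 * j + 1).factorial : ℝ) * Cs (H - 1 - j) r) *
      (Tp k (X * VO j)).eval (a : ℝ)) +
    ((-1) ^ (H - 1) / ((2 * H - 2).factorial : ℝ) * r) * (Tp k (VO (H - 1))).eval (a : ℝ) +
    (-((-1) ^ (H - 1) / ((2 * H - 1).factorial : ℝ))) * (Tp k (X * VO (H - 1))).eval (a : ℝ) := by
  have hi : ∀ i ∈ range (k + 1), wt k i * RO H r ((2 * i + 1) * a) =
      (∑ j ∈ range (H - 1), ((-1) ^ j / ((2 * j + 1).factorial : ℝ) * Cs (H - 1 - j) r) *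
        (wt k i * (X * VO j).eval (((2 * i + 1) * a : ℕ) : ℝ))) +
      ((-1) ^ (H - 1) / ((2 * H - 2).factorial : ℝ) * r) *
        (wt k i * (VO (H - 1)).eval (((2 * i + 1) * a : ℕ) : ℝ)) +
      (-((-1) ^ (H - 1) / ((2 * H - 1).factorial : ℝ))) *
        (wt k i * (X * VO (H - 1)).eval (((2 * i + 1) * a : ℕ) : ℝ)) := by
    intro i hi
    have hi' := mem_range.mp hi
    have hodd : ((2 * i + 1) * a) % 2 = 1 := by
      rw [Nat.mul_mod, ha, show (2 * i + 1) % 2 = 1 by omega]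
    have hlt : (2 * i + 1) * a < 2 * r :=
      lt_of_le_of_lt (Nat.mul_le_mul_right a (by omega)) har
    rw [h1 H r ((2 * i + 1) * a) hH hr hodd hlt, mul_add, Finset.mul_sum]
    have e1 : ∀ j ∈ range (H - 1), wt k i * ((-1) ^ j * Cs (H - 1 - j) r *
        ((X * VO j).eval (((2 * i + 1) * a : ℕ) : ℝ) / ((2 * j + 1).factorial : ℝ))) =
        ((-1) ^ j / ((2 * j + 1).factorial : ℝ) * Cs (H - 1 - j) r) *
        (wt k i * (X * VO j).eval (((2 * i + 1) * a : ℕ) : ℝ)) := by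
      intro j _
      ring
    rw [Finset.sum_congr rfl e1]
    ring
  unfold FF
  rw [Finset.sum_congr rfl hi, Finset.sum_add_distrib, Finset.sum_add_distrib, Finset.sum_comm,
    Tp_eval, Tp_eval, Finset.mul_sum, Finset.mul_sum]
  congr 2
  refine Finset.sum_congr rfl fun j _ => ?_
  rw [Tp_eval, Finset.mul_sum]

/-- The sums near 0. -/
theorem near (h1 : S_pho) (h3 : S_evo) (h2 : S_cp1) (h5 : S_ps2) (k H s : ℕ) (hH : 1 ≤ H)
    (hs : s % 2 = 1) : Asy (2 * H) (if s = 2 * H - 1 then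
      ((-1) ^ (H - 1) / ((2 * H - 2).factorial : ℝ)) * (Tp k (VO (H - 1))).coeff (2 * H - 2) / 2
        else 0)
      (fun r => (r : ℝ) ^ s * ∑ a ∈ Icc 1 (Mr (4 * k + 2) r), FF k H r a / (a : ℝ) ^ s) := by
  have hm : 2 ≤ 4 * k + 2 := by omega
  have hs1 : 1 ≤ s := by omega
  have h2' : ∀ h, ∃ p : ℝ[X], p.natDegree ≤ 2 * h ∧ (1 ≤ h → ∀ r : ℕ, 1 ≤ r →
      Cs h r = p.eval (r : ℝ)) := by
    intro h
    by_cases hh : 1 ≤ h
    · obtain ⟨p, hp, hp'⟩ := h2 h hh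
      exact ⟨p, hp, fun _ => hp'⟩
    · exact ⟨0, by simp, fun h' => absurd h' hh⟩
  choose p hp hp' using h2'
  have v1 := h3.1
  have hX : ∀ i, (X * VO i : ℝ[X]).natDegree ≤ 2 * i + 1 := fun i =>
    (natDegree_mul_le).trans (by rw [natDegree_X]; have := v1 i; omega)
  have hco : ∀ j, (Tp k (X * VO j)).coeff (s - 1) = 0 := by
    intro j
    rw [Tp_coeff, XVO_coeff h3 j s hs, mul_zero]
  have A1 : ∀ j ∈ range (H - 1), Asy (2 * H) 0 (fun r => (r : ℝ) ^ s *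
      (C ((-1) ^ j / ((2 * j + 1).factorial : ℝ)) * p (H - 1 - j) : ℝ[X]).eval (r : ℝ) *
      SS (4 * k + 2) (Tp k (X * VO j)) s 1 r) := by
    intro j hj
    have hj' := mem_range.mp hj
    exact blockN h5 hm (2 * H) s (2 * (H - 1 - j)) (2 * j + 1) hs1 (by omega) _ _
      ((natDegree_C_mul_le _ _).trans (hp _)) (Tp_natDegree k _ _ (hX j)) (hco j)
  have A2 := blockL h5 hm H s hH hs1 ((-1) ^ (H - 1) / ((2 * H - 2).factorial : ℝ))
    (Tp k (VO (H - 1))) (Tp_natDegree k _ _ ((v1 (H - 1)).trans (by omega)))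
  have A3 := blockN h5 hm (2 * H) s 0 (2 * (H - 1) + 1) hs1 (by omega)
    (C (-((-1) ^ (H - 1) / ((2 * H - 1).factorial : ℝ)))) (Tp k (X * VO (H - 1)))
    (by rw [natDegree_C]) (Tp_natDegree k _ _ (hX (H - 1))) (hco (H - 1))
  have A := ((Asy.sum (range (H - 1)) A1).add A2).add A3
  rw [Finset.sum_const_zero, zero_add, add_zero] at A
  refine A.congr (4 * k + 3) fun r hr hr1 => ?_
  obtain ⟨hM1, hMr, hrM, hM2, hM3, -⟩ := M_bounds hm hr
  have hfil : ∑ a ∈ Icc 1 (Mr (4 * k + 2) r), FF k H r a / (a : ℝ) ^ s =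
      ∑ a ∈ (Icc 1 (Mr (4 * k + 2) r)).filter (fun a => a % 2 = 1), FF k H r a / (a : ℝ) ^ s := by
    symm
    refine Finset.sum_filter_of_ne fun a _ hne => ?_
    by_contra hpar
    exact hne (by rw [FF_even k H r a (by omega), zero_div])
  rw [hfil]
  have hterm : ∀ a ∈ (Icc 1 (Mr (4 * k + 2) r)).filter (fun a => a % 2 = 1),
      FF k H r a / (a : ℝ) ^ s =
      (∑ j ∈ range (H - 1), (C ((-1) ^ j / ((2 * j + 1).factorial : ℝ)) *
        p (H - 1 - j) : ℝ[X]).eval (r : ℝ) * ((Tp k (X * VO j)).eval (a : ℝ) / (a : ℝ) ^ s)) +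
      (C ((-1) ^ (H - 1) / ((2 * H - 2).factorial : ℝ)) * X : ℝ[X]).eval (r : ℝ) *
        ((Tp k (VO (H - 1))).eval (a : ℝ) / (a : ℝ) ^ s) +
      (C (-((-1) ^ (H - 1) / ((2 * H - 1).factorial : ℝ))) : ℝ[X]).eval (r : ℝ) *
        ((Tp k (X * VO (H - 1))).eval (a : ℝ) / (a : ℝ) ^ s) := by
    intro a ha
    rw [mem_filter, mem_Icc] at ha
    obtain ⟨⟨ha1, haM⟩, hodd⟩ := ha
    have hlt : (2 * k + 1) * a < 2 * r := by
      have h6 : (2 * k + 1) * a ≤ (2 * k + 1) * Mr (4 * k + 2) r := Nat.mul_le_mul_left _ haM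
      have h7 : (4 * k + 2) * Mr (4 * k + 2) r = 2 * ((2 * k + 1) * Mr (4 * k + 2) r) := by ring
      omega
    rw [FF_near h1 k H r a hH hr1 hodd hlt]
    have : ∀ j ∈ range (H - 1), (C ((-1) ^ j / ((2 * j + 1).factorial : ℝ)) *
        p (H - 1 - j) : ℝ[X]).eval (r : ℝ) * ((Tp k (X * VO j)).eval (a : ℝ) / (a : ℝ) ^ s) =
        (((-1) ^ j / ((2 * j + 1).factorial : ℝ) * Cs (H - 1 - j) r) *
          (Tp k (X * VO j)).eval (a : ℝ)) / (a : ℝ) ^ s := by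
      intro j hj
      have hj' := mem_range.mp hj
      rw [eval_mul, eval_C, ← hp' (H - 1 - j) (by omega) r hr1]
      ring
    rw [Finset.sum_congr rfl this, ← Finset.sum_div]
    simp only [eval_mul, eval_C, eval_X]
    ring
  rw [Finset.sum_congr rfl hterm, Finset.sum_add_distrib, Finset.sum_add_distrib, Finset.sum_comm,
    mul_add, mul_add, Finset.mul_sum]
  unfold SS
  congr 1
  · congr 1
    · refine Finset.sum_congr rfl fun j _ => ?_
      rw [← Finset.mul_sum]; ring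
    · rw [← Finset.mul_sum]; ring
  · rw [← Finset.mul_sum]; ring

theorem FF_far {H : ℕ} {ρ : ℕ → ℝ[X]} {r₀ : ℕ} (hρ : ∀ r a : ℕ, r₀ ≤ r → a < r →
    (a + r) % 2 = 1 → RO H r (r - a) = ∑ i ∈ range H, (ρ i).eval (r : ℝ) * (a : ℝ) ^ (2 * i + 1))
    (k r a : ℕ) (hr : r₀ ≤ r) (har : (2 * k + 1) * a < r) (hpar : (a + r) % 2 = 1) :
    FF k H r (r - a) = ∑ l ∈ range H, (∑ i ∈ range (k + 1), wt k i * (2 * (i : ℝ) + 1) ^ (2 * l + 1)) *
      (ρ l).eval (r : ℝ) * (a : ℝ) ^ (2 * l + 1) := by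
  have hi : ∀ i ∈ range (k + 1), wt k i * RO H r ((2 * i + 1) * (r - a)) =
      ∑ l ∈ range H, wt k i * (2 * (i : ℝ) + 1) ^ (2 * l + 1) *
        ((ρ l).eval (r : ℝ) * (a : ℝ) ^ (2 * l + 1)) := by
    intro i hi
    have hi' := mem_range.mp hi
    have hlt : (2 * i + 1) * a < r := lt_of_le_of_lt (Nat.mul_le_mul_right a (by omega)) har
    have hale : a ≤ (2 * i + 1) * a := Nat.le_mul_of_pos_left a (by omega)
    have e1 : (2 * i + 1) * (r - a) = (r - (2 * i + 1) * a) + 2 * r * i := by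
      have e2 : (2 * i + 1) * (r - a) + (2 * i + 1) * a = (2 * i + 1) * r := by
        rw [← Nat.mul_add]
        congr 1
        omega
      have e3 : (2 * i + 1) * r = r + 2 * r * i := by ring
      omega
    have hp2 : ((2 * i + 1) * a + r) % 2 = 1 := by
      have e4 : (2 * i + 1) * a = a + 2 * (i * a) := by ring
      omega
    rw [e1, RO_period, hρ r ((2 * i + 1) * a) hr hlt hp2, Finset.mul_sum]
    refine Finset.sum_congr rfl fun l _ => ?_
    push_cast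
    rw [mul_pow]
    ring
  unfold FF
  rw [Finset.sum_congr rfl hi, Finset.sum_comm]
  refine Finset.sum_congr rfl fun l _ => ?_
  rw [← Finset.sum_mul, mul_assoc]

theorem FF_far0 (k H r a : ℕ) (har : a ≤ r) (hpar : (a + r) % 2 = 0) : FF k H r (r - a) = 0 :=
  FF_even k H r (r - a) (by omega)

/-- The sums near r. -/
theorem far (h4 : S_phe) (h5 : S_ps2) (k H s : ℕ) (hH : 1 ≤ H) (hs : s % 2 = 1) :
    Asy (2 * H) 0
      (fun r => (r : ℝ) ^ s * ∑ a ∈ Icc 1 (Mr (4 * k + 2) r), FF k H r (r - a) / (a : ℝ) ^ s) := by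
  have hm : 2 ≤ 4 * k + 2 := by omega
  have hs1 : 1 ≤ s := by omega
  obtain ⟨ρ, hρd, r₀, hρ⟩ := h4 H hH
  have A1 : ∀ l ∈ range H, Asy (2 * H) 0 (fun r => (r : ℝ) ^ s *
      (C (∑ i ∈ range (k + 1), wt k i * (2 * (i : ℝ) + 1) ^ (2 * l + 1)) *
        ρ l : ℝ[X]).eval (r : ℝ) *
      SS (4 * k + 2) (X ^ (2 * l + 1)) s ((r + 1) % 2) r) := by
    intro l hl
    have hl' := mem_range.mp hl
    refine blockF h5 hm (2 * H) s (2 * (H - 1 - l)) (2 * l + 1) hs1 (by omega) _ _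
      ((natDegree_C_mul_le _ _).trans (hρd l hl')) (natDegree_X_pow_le _) ?_
    rw [coeff_X_pow, if_neg (by omega)]
  have A := Asy.sum (range H) A1
  rw [Finset.sum_const_zero] at A
  refine A.congr (max r₀ (4 * k + 3)) fun r hr hr1 => ?_
  have hrr : r₀ ≤ r := (le_max_left _ _).trans hr
  obtain ⟨hM1, hMr, hrM, hM2, hM3, -⟩ := M_bounds hm ((le_max_right _ _).trans hr)
  have hfil : ∑ a ∈ Icc 1 (Mr (4 * k + 2) r), FF k H r (r - a) / (a : ℝ) ^ s =
      ∑ a ∈ (Icc 1 (Mr (4 * k + 2) r)).filter (fun a => a % 2 = (r + 1) % 2),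
        FF k H r (r - a) / (a : ℝ) ^ s := by
    symm
    refine Finset.sum_filter_of_ne fun a ha hne => ?_
    have ha' := mem_Icc.mp ha
    by_contra hpar
    exact hne (by rw [FF_far0 k H r a (by omega) (by omega), zero_div])
  rw [hfil]
  have hterm : ∀ a ∈ (Icc 1 (Mr (4 * k + 2) r)).filter (fun a => a % 2 = (r + 1) % 2),
      FF k H r (r - a) / (a : ℝ) ^ s = ∑ l ∈ range H,
      (C (∑ i ∈ range (k + 1), wt k i * (2 * (i : ℝ) + 1) ^ (2 * l + 1)) *
        ρ l : ℝ[X]).eval (r : ℝ) * ((X ^ (2 * l + 1) : ℝ[X]).eval (a : ℝ) / (a : ℝ) ^ s) := by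
    intro a ha
    rw [mem_filter, mem_Icc] at ha
    obtain ⟨⟨ha1, haM⟩, hpar⟩ := ha
    have hlt : (2 * k + 1) * a < r := by
      have h6 : (2 * k + 1) * a ≤ (2 * k + 1) * Mr (4 * k + 2) r := Nat.mul_le_mul_left _ haM
      have h7 : (4 * k + 2) * Mr (4 * k + 2) r = 2 * ((2 * k + 1) * Mr (4 * k + 2) r) := by ring
      omega
    rw [FF_far hρ k r a hrr hlt (by omega), Finset.sum_div]
    refine Finset.sum_congr rfl fun l _ => ?_
    rw [eval_mul, eval_C, eval_pow, eval_X]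
    ring
  rw [Finset.sum_congr rfl hterm, Finset.sum_comm, Finset.mul_sum]
  unfold SS
  refine Finset.sum_congr rfl fun l _ => ?_
  rw [← Finset.mul_sum]
  ring

theorem sin_ge {m r a : ℕ} (hm : 2 ≤ m) (hr : m + 1 ≤ r) (h1 : Mr m r < a) (h2 : a + Mr m r < r) :
    2 / (m : ℝ) ≤ Real.sin (Real.pi * a / r) := by
  obtain ⟨hM1, hMr, hrM, hM2, hM3, hM4⟩ := M_bounds hm hr
  have hr0 : (0 : ℝ) < r := by exact_mod_cast (by omega : 0 < r)
  have hm0 : (0 : ℝ) < m := by exact_mod_cast (by omega : 0 < m)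
  have key : ∀ b : ℕ, Mr m r < b → 2 * b ≤ r → 2 / (m : ℝ) ≤ Real.sin (Real.pi * b / r) := by
    intro b hb hbr
    have hb0 : (0 : ℝ) ≤ b := Nat.cast_nonneg _
    have h3 : (r : ℝ) ≤ m * b := by
      have : r ≤ m * b := hM4.trans (Nat.mul_le_mul_left m hb)
      exact_mod_cast this
    have h4 : 2 * (b : ℝ) ≤ r := by exact_mod_cast hbr
    have hpi := Real.pi_pos
    have h5 : Real.pi * b / r ≤ Real.pi / 2 := by
      rw [div_le_div_iff₀ hr0 (by norm_num)]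
      nlinarith
    have h6 := Real.mul_le_sin (x := Real.pi * b / r) (by positivity) h5
    refine le_trans ?_ h6
    have h7 : 2 / Real.pi * (Real.pi * b / r) = 2 * b / r := by
      field_simp
    rw [h7, div_le_div_iff₀ hm0 hr0]
    nlinarith
  rcases Nat.lt_or_ge r (2 * a) with h | h
  · have e1 : Real.sin (Real.pi * a / r) = Real.sin (Real.pi * ((r - a : ℕ) : ℝ) / r) := by
      have e2 : Real.pi * ((r - a : ℕ) : ℝ) / r = Real.pi - Real.pi * a / r := by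
        rw [Nat.cast_sub (by omega)]
        field_simp
      rw [e2, Real.sin_pi_sub]
    rw [e1]
    exact key (r - a) (by omega) (by omega)
  · exact key a h1 h

theorem split3 (f : ℕ → ℝ) {r M : ℕ} (h : 2 * M < r) : ∑ a ∈ Ico 1 r, f a =
    ∑ a ∈ Icc 1 M, f a + ∑ a ∈ Ico (M + 1) (r - M), f a + ∑ a ∈ Icc 1 M, f (r - a) := by
  have h1 : ∀ g : ℕ → ℝ, ∑ a ∈ Icc 1 M, g a = ∑ a ∈ Ico 1 (M + 1), g a := by
    intro g
    refine Finset.sum_congr ?_ fun _ _ => rfl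
    ext x; simp only [mem_Icc, mem_Ico]; omega
  have h2 : ∑ a ∈ Ico 1 (M + 1), f (r - a) = ∑ a ∈ Ico (r - M) r, f a := by
    have h3 := Finset.sum_Ico_reflect f 1 (m := M + 1) (n := r) (by omega)
    rwa [show r + 1 - (M + 1) = r - M by omega, show r + 1 - 1 = r by omega] at h3
  rw [h1, h1, h2, Finset.sum_Ico_consecutive f (by omega) (by omega),
    Finset.sum_Ico_consecutive f (by omega) (by omega)]

/-- replacement of the cosecant by its principal part -/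
theorem princ {A : ℕ} {c : ℕ → ℝ} {B : ℝ} (hB : ∀ y : ℝ, 0 < y → y ≤ Real.pi / 2 →
    |1 / Real.sin y ^ A - ∑ s ∈ Icc 1 A, c s / y ^ s| ≤ B) (hB0 : 0 ≤ B) (φ : ℕ → ℝ) {D : ℝ}
    (hD0 : 0 ≤ D) (hD : ∀ a, |φ a| ≤ D) {r M : ℕ} (h : 2 * M < r) :
    |∑ a ∈ Icc 1 M, φ a / Real.sin (Real.pi * a / r) ^ A -
      ∑ s ∈ Icc 1 A, (c s / Real.pi ^ s) * ((r : ℝ) ^ s * ∑ a ∈ Icc 1 M, φ a / (a : ℝ) ^ s)| ≤
      r * (D * B) := by
  have hr0 : (0 : ℝ) < r := by exact_mod_cast (by omega : 0 < r)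
  have step3 : ∑ s ∈ Icc 1 A, (c s / Real.pi ^ s) * ((r : ℝ) ^ s *
      ∑ a ∈ Icc 1 M, φ a / (a : ℝ) ^ s) =
      ∑ a ∈ Icc 1 M, φ a * ∑ s ∈ Icc 1 A, c s / (Real.pi * a / r) ^ s := by
    simp only [Finset.mul_sum]
    rw [Finset.sum_comm]
    refine Finset.sum_congr rfl fun a ha => Finset.sum_congr rfl fun s _ => ?_
    have ha' := mem_Icc.mp ha
    have ha0 : (0 : ℝ) < a := by exact_mod_cast (by omega : 0 < a)
    have := Real.pi_pos
    rw [div_pow, mul_pow]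
    field_simp
  rw [step3, ← Finset.sum_sub_distrib]
  refine (Finset.abs_sum_le_sum_abs _ _).trans ?_
  calc ∑ a ∈ Icc 1 M, |φ a / Real.sin (Real.pi * a / r) ^ A -
        φ a * ∑ s ∈ Icc 1 A, c s / (Real.pi * a / r) ^ s|
      ≤ ∑ a ∈ Icc 1 M, D * B := by
        refine Finset.sum_le_sum fun a ha => ?_
        have ha' := mem_Icc.mp ha
        have ha0 : (0 : ℝ) < a := by exact_mod_cast (by omega : 0 < a)
        have e1 : φ a / Real.sin (Real.pi * a / r) ^ A -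
            φ a * ∑ s ∈ Icc 1 A, c s / (Real.pi * a / r) ^ s =
            φ a * (1 / Real.sin (Real.pi * a / r) ^ A -
              ∑ s ∈ Icc 1 A, c s / (Real.pi * a / r) ^ s) := by ring
        rw [e1, abs_mul]
        refine mul_le_mul (hD a) (hB _ ?_ ?_) (abs_nonneg _) hD0
        · have := Real.pi_pos; positivity
        · rw [div_le_div_iff₀ hr0 (by norm_num)]
          have : (a : ℝ) * 2 ≤ r := by exact_mod_cast (by omega : a * 2 ≤ r)
          calc Real.pi * a * 2 = Real.pi * (a * 2) := by ring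
            _ ≤ Real.pi * r := mul_le_mul_of_nonneg_left this Real.pi_pos.le
    _ = (M : ℝ) * (D * B) := by
        rw [Finset.sum_const, Nat.card_Icc, nsmul_eq_mul]; simp
    _ ≤ r * (D * B) := by
        refine mul_le_mul_of_nonneg_right ?_ (mul_nonneg hD0 hB0)
        exact_mod_cast (by omega : M ≤ r)

theorem wt_sum (k p : ℕ) : ∑ i ∈ range (k + 1), wt k i * (2 * (i : ℝ) + 1) ^ p =
    (-1) ^ k / 4 ^ k * (MM (2 * k + 1) p : ℝ) := by
  unfold MM wt
  rw [show (2 * k + 1 + 1) / 2 = k + 1 by omega]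
  rw [← Finset.sum_range_reflect (fun j => (-1 : ℤ) ^ j * ((2 * k + 1).choose j : ℤ) *
    (((2 * k + 1 : ℕ) : ℤ) - 2 * j) ^ p) (k + 1)]
  push_cast
  rw [Finset.mul_sum]
  refine Finset.sum_congr rfl fun i hi => ?_
  have hi' := mem_range.mp hi
  have e2 : ((k - i : ℕ) : ℝ) = (k : ℝ) - i := Nat.cast_sub (by omega)
  rw [e2]
  have e3 : 2 * (k : ℝ) + 1 - 2 * ((k : ℝ) - i) = 2 * (i : ℝ) + 1 := by ring
  rw [e3]
  have e4 : (-1 : ℝ) ^ k * (-1) ^ (k - i) = (-1) ^ i := by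
    rw [← pow_add]
    have e5 : k + (k - i) = 2 * (k - i) + i := by omega
    rw [e5, pow_add, pow_mul]
    norm_num
  rw [← e4]
  ring

theorem main (h1 : S_pho) (h4 : S_phe) (h3 : S_evo) (h2 : S_cp1) (h6 : S_csc2) (h5 : S_ps2)
    (h7 : S_sino) (h8 : S_nv) : S_asyo := by
  intro k G H hH hkH hHG
  obtain ⟨c, -, hc1, hc2, B, hB⟩ := h6 (2 * G - 1) (by omega)
  obtain ⟨D, hD0, hD⟩ := FF_bound h1 h3 h2 k H hH
  have hB0 : 0 ≤ B := (abs_nonneg _).trans
    (hB (Real.pi / 2) (by have := Real.pi_pos; positivity) le_rfl)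
  set κ₀ : ℝ := ((-1) ^ (H - 1) / ((2 * H - 2).factorial : ℝ)) *
    (Tp k (VO (H - 1))).coeff (2 * H - 2) / 2 with hκ₀
  set m := 4 * k + 2 with hm
  have hm2 : 2 ≤ m := by omega
  let Nr : ℕ → ℕ → ℝ := fun s r => (r : ℝ) ^ s * ∑ a ∈ Icc 1 (Mr m r), FF k H r a / (a : ℝ) ^ s
  let Fr : ℕ → ℕ → ℝ := fun s r =>
    (r : ℝ) ^ s * ∑ a ∈ Icc 1 (Mr m r), FF k H r (r - a) / (a : ℝ) ^ s
  have A1 : ∀ s ∈ Icc 1 (2 * G - 1), Asy (2 * H)
      (c s / Real.pi ^ s * (if s = 2 * H - 1 then κ₀ else 0))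
      (fun r => c s / Real.pi ^ s * (Nr s r + Fr s r)) := by
    intro s hs
    have hs' := mem_Icc.mp hs
    rcases Nat.mod_two_eq_zero_or_one s with hpar | hpar
    · have hcs : c s = 0 := hc2 s (by omega)
      rw [hcs, zero_div, zero_mul]
      refine (Asy.zero (2 * H)).congr 0 fun r _ _ => ?_
      rw [zero_mul]
    · have := ((near h1 h3 h2 h5 k H s hH hpar).add (far h4 h5 k H s hH hpar)).cmul
        (c s / Real.pi ^ s)
      rw [add_zero] at this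
      exact this
  have A := Asy.sum (Icc 1 (2 * G - 1)) A1
  set K : ℝ := ∑ s ∈ Icc 1 (2 * G - 1), c s / Real.pi ^ s * (if s = 2 * H - 1 then κ₀ else 0)
    with hK
  have hKv : K = c (2 * H - 1) / Real.pi ^ (2 * H - 1) * κ₀ := by
    rw [hK, Finset.sum_eq_single (2 * H - 1)]
    · rw [if_pos rfl]
    · intro s _ hsh; rw [if_neg hsh, mul_zero]
    · intro hn; exact absurd (mem_Icc.mpr ⟨by omega, by omega⟩) hn
  have hK0 : K ≠ 0 := by
    rw [hKv]
    have hch : 0 < c (2 * H - 1) := hc1 (2 * H - 1) (mem_Icc.mpr ⟨by omega, by omega⟩) (by omega)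
    have hpi := Real.pi_pos
    have hMM : (MM (2 * k + 1) (2 * H - 2) : ℝ) ≠ 0 := by
      exact_mod_cast h8 (2 * k + 1) (2 * H - 2) (by omega) (by omega) (by omega)
    have hco : (Tp k (VO (H - 1))).coeff (2 * H - 2) ≠ 0 := by
      rw [Tp_coeff, wt_sum]
      have h9 := h3.2.2 (H - 1)
      rw [show 2 * (H - 1) = 2 * H - 2 by omega] at h9
      rw [h9, mul_one]
      exact mul_ne_zero (div_ne_zero (pow_ne_zero _ (by norm_num)) (by positivity)) hMM
    rw [hκ₀]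
    refine mul_ne_zero (by positivity) (div_ne_zero (mul_ne_zero (div_ne_zero
      (pow_ne_zero _ (by norm_num)) (by positivity)) hco) (by norm_num))
  have hfin : Asy (2 * H) K (fun r => TT (2 * k + 1) (2 * G - 1) (2 * H - 1) r) := by
    refine A.close (D * B + D * ((m : ℝ) / 2) ^ (2 * G - 1) + D * B) (m + 1) fun r hr hr1 => ?_
    obtain ⟨hM1, hMr, hrM, hM2, hM3, hM4⟩ := M_bounds hm2 hr
    have hr0 : (0 : ℝ) < r := by exact_mod_cast (by omega : 0 < r)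
    have hpow : (r : ℝ) ^ (2 * H - 1) * r = (r : ℝ) ^ (2 * H) := by
      rw [← pow_succ]
      congr 1
      omega
    have hDr0 : 0 ≤ D * (r : ℝ) ^ (2 * H - 1) := by positivity
    have p1 := princ hB hB0 (fun a => FF k H r a) hDr0 (fun a => hD r a hr1) hM2
    have p2 := princ hB hB0 (fun a => FF k H r (r - a)) hDr0 (fun a => hD r (r - a) hr1) hM2
    have p3 : |∑ a ∈ Ico (Mr m r + 1) (r - Mr m r),
        FF k H r a / Real.sin (Real.pi * a / r) ^ (2 * G - 1)| ≤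
        D * ((m : ℝ) / 2) ^ (2 * G - 1) * (r : ℝ) ^ (2 * H) := by
      refine (Finset.abs_sum_le_sum_abs _ _).trans ?_
      have hm0 : (0 : ℝ) < m := by exact_mod_cast (by omega : 0 < m)
      calc ∑ a ∈ Ico (Mr m r + 1) (r - Mr m r),
            |FF k H r a / Real.sin (Real.pi * a / r) ^ (2 * G - 1)|
          ≤ ∑ _a ∈ Ico (Mr m r + 1) (r - Mr m r),
            D * (r : ℝ) ^ (2 * H - 1) * ((m : ℝ) / 2) ^ (2 * G - 1) := by
            refine Finset.sum_le_sum fun a ha => ?_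
            have ha' := mem_Ico.mp ha
            have hs := sin_ge hm2 hr (show Mr m r < a by omega) (by omega)
            have hs0 : 0 < Real.sin (Real.pi * a / r) := lt_of_lt_of_le (by positivity) hs
            rw [abs_div, abs_of_pos (by positivity :
              0 < Real.sin (Real.pi * a / r) ^ (2 * G - 1)), div_eq_mul_inv]
            refine mul_le_mul (hD r a hr1) ?_ (by positivity) hDr0
            rw [← inv_pow]
            refine pow_le_pow_left₀ (by positivity) ?_ _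
            rw [inv_le_comm₀ hs0 (by positivity), inv_div]
            exact hs
        _ = ((r - Mr m r - (Mr m r + 1) : ℕ) : ℝ) *
            (D * (r : ℝ) ^ (2 * H - 1) * ((m : ℝ) / 2) ^ (2 * G - 1)) := by
            rw [Finset.sum_const, Nat.card_Ico, nsmul_eq_mul]
        _ ≤ r * (D * (r : ℝ) ^ (2 * H - 1) * ((m : ℝ) / 2) ^ (2 * G - 1)) := by
            refine mul_le_mul_of_nonneg_right ?_ (by positivity)
            exact_mod_cast (by omega : r - Mr m r - (Mr m r + 1) ≤ r)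
        _ = D * ((m : ℝ) / 2) ^ (2 * G - 1) * (r : ℝ) ^ (2 * H) := by
            rw [← hpow]; ring
    have e3 : ∀ a ∈ Icc 1 (Mr m r), FF k H r (r - a) /
        Real.sin (Real.pi * ((r - a : ℕ) : ℝ) / r) ^ (2 * G - 1) =
        FF k H r (r - a) / Real.sin (Real.pi * a / r) ^ (2 * G - 1) := by
      intro a ha
      have ha' := mem_Icc.mp ha
      have e2 : Real.pi * ((r - a : ℕ) : ℝ) / r = Real.pi - Real.pi * a / r := by
        rw [Nat.cast_sub (by omega)]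
        field_simp
      rw [e2, Real.sin_pi_sub]
    have e4 : TT (2 * k + 1) (2 * G - 1) (2 * H - 1) r -
        ∑ s ∈ Icc 1 (2 * G - 1), c s / Real.pi ^ s * (Nr s r + Fr s r) =
        (∑ a ∈ Icc 1 (Mr m r), FF k H r a / Real.sin (Real.pi * a / r) ^ (2 * G - 1) -
          ∑ s ∈ Icc 1 (2 * G - 1), c s / Real.pi ^ s * Nr s r) +
        ∑ a ∈ Ico (Mr m r + 1) (r - Mr m r),
          FF k H r a / Real.sin (Real.pi * a / r) ^ (2 * G - 1) +
        (∑ a ∈ Icc 1 (Mr m r), FF k H r (r - a) / Real.sin (Real.pi * a / r) ^ (2 * G - 1) -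
          ∑ s ∈ Icc 1 (2 * G - 1), c s / Real.pi ^ s * Fr s r) := by
      rw [TT_eq h7, split3 (fun a => FF k H r a / Real.sin (Real.pi * a / r) ^ (2 * G - 1)) hM2,
        Finset.sum_congr rfl e3]
      simp only [mul_add]
      rw [Finset.sum_add_distrib]
      ring
    rw [e4]
    refine (abs_add_le _ _).trans ?_
    rw [add_mul]
    refine add_le_add ?_ ?_
    · refine (abs_add_le _ _).trans ?_
      rw [add_mul]
      refine add_le_add (p1.trans (le_of_eq ?_)) p3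
      rw [← hpow]
      ring
    · refine p2.trans (le_of_eq ?_)
      rw [← hpow]
      ring
  obtain ⟨P, Q, B', hB'⟩ := hfin.all
  exact ⟨P, Q, K, B', hK0, hB'⟩

end H572AE.ASYO
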