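import Mathlib
import Pool.Agent.H572.AE.Stm

set_option autoImplicit false

open Finset Polynomial

namespace H572AE.CP

theorem faul_pow (m : ℕ) : ∃ g : ℝ[X], g.natDegree ≤ m ∧
    ∀ r : ℕ, ∑ a ∈ range r, (a : ℝ) ^ m = r * g.eval (r : ℝ) := by
  refine ⟨∑ i ∈ range (m + 1), C (((_root_.bernoulli i : ℚ) : ℝ) * ((m + 1).choose i : ℝ) / (m + 1)) *
    X ^ (m - i), ?_, ?_⟩
  · refine natDegree_sum_le_of_forall_le _ _ fun i _ => ?_
    refine (natDegree_C_mul_le _ _).trans ?_
    rw [natDegree_X_pow]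
    omega
  · intro r
    have h := congrArg (fun x : ℚ => (x : ℝ)) (sum_range_pow r m)
    push_cast at h
    rw [h, eval_finsetSum, mul_sum]
    refine sum_congr rfl fun i hi => ?_
    rw [mem_range] at hi
    simp only [eval_mul, eval_C, eval_pow, eval_X]
    have e : m + 1 - i = (m - i) + 1 := by omega
    rw [e, pow_succ]
    ring

theorem faul (f : ℝ[X]) (d : ℕ) (hf : f.natDegree ≤ d) : ∃ g : ℝ[X], g.natDegree ≤ d ∧
    ∀ r : ℕ, ∑ a ∈ range r, f.eval (a : ℝ) = r * g.eval (r : ℝ) := by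
  choose G hG1 hG2 using faul_pow
  refine ⟨∑ i ∈ range (f.natDegree + 1), C (f.coeff i) * G i, ?_, ?_⟩
  · refine natDegree_sum_le_of_forall_le _ _ fun i hi => ?_
    rw [mem_range] at hi
    refine (natDegree_C_mul_le _ _).trans ((hG1 i).trans ?_)
    omega
  · intro r
    simp only [eval_eq_sum_range (p := f), eval_finsetSum, eval_mul, eval_C]
    rw [sum_comm, mul_sum]
    refine sum_congr rfl fun i _ => ?_
    rw [← mul_sum, hG2]
    ring

theorem sum_sin_sq {r b : ℕ} (hb : 1 ≤ b) (hbr : b < r) :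
    ∑ a ∈ range r, Real.sin (Real.pi * a * b / r) ^ 2 = (r : ℝ) / 2 := by
  have hr : (r : ℝ) ≠ 0 := by
    have : 0 < r := by omega
    exact_mod_cast this.ne'
  have hrC : (r : ℂ) ≠ 0 := by exact_mod_cast hr
  have hcos : ∑ a ∈ range r, Real.cos (2 * (Real.pi * a * b / r)) = 0 := by
    have hz1 : Complex.exp (2 * Real.pi * Complex.I * (b / r)) ≠ 1 := by
      rw [Ne, Complex.exp_eq_one_iff]
      rintro ⟨n, hn⟩
      have h2 : (2 * Real.pi * Complex.I : ℂ) ≠ 0 := Complex.two_pi_I_ne_zero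
      have h3 : (b : ℂ) / r = n := by
        have : (2 * Real.pi * Complex.I : ℂ) * (b / r) = (2 * Real.pi * Complex.I) * n := by
          rw [hn]; ring
        exact mul_left_cancel₀ h2 this
      have h4 : (b : ℂ) = n * r := by
        rw [← h3]
        field_simp
      have h5 : (b : ℤ) = n * r := by exact_mod_cast h4
      have h6 : 0 < n := by
        by_contra hn0
        push Not at hn0
        have : n * (r : ℤ) ≤ 0 := mul_nonpos_of_nonpos_of_nonneg hn0 (by positivity)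
        omega
      have h7 : (r : ℤ) ≤ n * r := by nlinarith
      omega
    have hz2 : Complex.exp (2 * Real.pi * Complex.I * (b / r)) ^ r = 1 := by
      rw [← Complex.exp_nat_mul]
      rw [Complex.exp_eq_one_iff]
      refine ⟨b, ?_⟩
      push_cast
      field_simp
    have hg := geom_sum_eq hz1 r
    rw [hz2, sub_self, zero_div] at hg
    have h8 : (∑ a ∈ range r, Complex.exp (2 * Real.pi * Complex.I * (b / r)) ^ a).re = 0 := by
      rw [hg]; simp
    rw [Complex.re_sum] at h8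
    rw [← h8]
    refine sum_congr rfl fun a _ => ?_
    rw [← Complex.exp_nat_mul]
    have e : (a : ℂ) * (2 * Real.pi * Complex.I * (b / r)) =
        ((2 * (Real.pi * a * b / r) : ℝ) : ℂ) * Complex.I := by
      push_cast
      ring
    rw [e, Complex.exp_ofReal_mul_I_re]
  have h9 : ∀ a ∈ range r, Real.sin (Real.pi * a * b / r) ^ 2 =
      1 / 2 - Real.cos (2 * (Real.pi * a * b / r)) / 2 := fun a _ => Real.sin_sq_eq_half_sub _
  have h10 : ∑ a ∈ range r, Real.cos (2 * (Real.pi * a * b / r)) / 2 = 0 := by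
    rw [← sum_div, hcos, zero_div]
  rw [sum_congr rfl h9, sum_sub_distrib, h10, sum_const, card_range, nsmul_eq_mul]
  ring

theorem sum_Ps (h r : ℕ) : ∑ a ∈ range r, Ps h r a = (r : ℝ) / 2 * Cs h r := by
  unfold Ps Cs
  rw [sum_comm, mul_sum]
  refine sum_congr rfl fun b hb => ?_
  rw [mem_Ico] at hb
  rw [← sum_div, sum_sin_sq hb.1 hb.2]
  ring

theorem main (h1 : S_ph) (h2 : S_eo) : ∀ h : ℕ, 1 ≤ h →
    ∃ p : ℝ[X], p.natDegree ≤ 2 * h ∧ ∀ r : ℕ, 1 ≤ r → Cs h r = p.eval (r : ℝ) := by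
  intro h
  induction h using Nat.strong_induction_on with
  | _ h ih =>
    intro hh
    have hp : ∀ m : ℕ, ∃ p : ℝ[X], 1 ≤ m → m < h → p.natDegree ≤ 2 * m ∧
        ∀ r : ℕ, 1 ≤ r → Cs m r = p.eval (r : ℝ) := by
      intro m
      by_cases hm : 1 ≤ m ∧ m < h
      · obtain ⟨p, hp⟩ := ih m hm.2 hm.1
        exact ⟨p, fun _ _ => hp⟩
      · exact ⟨0, fun a b => absurd ⟨a, b⟩ hm⟩
    choose p hp using hp
    have hG : ∀ j : ℕ, ∃ g : ℝ[X], g.natDegree ≤ 2 * j ∧
        ∀ r : ℕ, ∑ a ∈ range r, (Ev j).eval (a : ℝ) = r * g.eval (r : ℝ) := fun j =>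
      faul (Ev j) (2 * j) (h2.1 j)
    choose G hG1 hG2 using hG
    obtain ⟨O, hO1, hO2⟩ := faul (Od (h - 1)) (2 * (h - 1) + 1) (h2.2.2.1 (h - 1))
    refine ⟨C 2 * ((∑ j ∈ Ico 1 h, C (2 * (-4) ^ (j - 1)) * (p (h - j) * G j)) -
      C (2 * (-4) ^ (h - 1)) * G h + C ((-4) ^ (h - 1)) * (X * O)), ?_, ?_⟩
    · refine (natDegree_C_mul_le _ _).trans ?_
      refine natDegree_add_le_of_degree_le
        ((natDegree_sub_le _ _).trans (max_le ?_ ?_)) ?_
      · refine natDegree_sum_le_of_forall_le _ _ fun j hj => ?_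
        rw [mem_Ico] at hj
        refine (natDegree_C_mul_le _ _).trans (natDegree_mul_le.trans ?_)
        have h3 := (hp (h - j) (by omega) (by omega)).1
        have h4 := hG1 j
        omega
      · exact (natDegree_C_mul_le _ _).trans (hG1 h)
      · refine (natDegree_C_mul_le _ _).trans (natDegree_mul_le.trans ?_)
        rw [natDegree_X]
        omega
    · intro r hr
      have hr0 : (r : ℝ) ≠ 0 := by
        have : r ≠ 0 := by omega
        exact_mod_cast this
      have hS := sum_Ps h r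
      have hS2 : ∑ a ∈ range r, Ps h r a = ∑ a ∈ range r,
          ((∑ j ∈ Ico 1 h, 2 * (-4) ^ (j - 1) * Cs (h - j) r * (Ev j).eval (a : ℝ)) -
          2 * (-4) ^ (h - 1) * (Ev h).eval (a : ℝ) +
          (-4) ^ (h - 1) * r * (Od (h - 1)).eval (a : ℝ)) :=
        sum_congr rfl fun a ha => h1 h r a hh hr (mem_range.1 ha).le
      rw [hS2, sum_add_distrib, sum_sub_distrib, sum_comm, ← mul_sum, ← mul_sum, hG2, hO2] at hS
      have hS3 : ∑ j ∈ Ico 1 h, ∑ a ∈ range r, 2 * (-4) ^ (j - 1) * Cs (h - j) r *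
          (Ev j).eval (a : ℝ) = (r : ℝ) * ∑ j ∈ Ico 1 h, 2 * (-4) ^ (j - 1) *
            ((p (h - j)).eval (r : ℝ) * (G j).eval (r : ℝ)) := by
        rw [mul_sum]
        refine sum_congr rfl fun j hj => ?_
        rw [mem_Ico] at hj
        rw [← mul_sum, hG2, (hp (h - j) (by omega) (by omega)).2 r hr]
        ring
      rw [hS3] at hS
      simp only [eval_mul, eval_add, eval_sub, eval_C, eval_X, eval_finsetSum]
      have hS4 : (r : ℝ) * ((∑ j ∈ Ico 1 h, 2 * (-4) ^ (j - 1) *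
            ((p (h - j)).eval (r : ℝ) * (G j).eval (r : ℝ))) -
          2 * (-4) ^ (h - 1) * (G h).eval (r : ℝ) +
          (-4) ^ (h - 1) * (r * O.eval (r : ℝ))) = r * (1 / 2 * Cs h r) := by
        have e : (r : ℝ) * (1 / 2 * Cs h r) = r / 2 * Cs h r := by ring
        rw [e, ← hS]
        ring
      have hS5 := mul_left_cancel₀ hr0 hS4
      rw [hS5]
      ring

end H572AE.CP
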