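import Mathlib
import Pool.Agent.H572.AE.Stm

/-!
CSC (project AE of helper572): the principal part of the even powers of the cosecant.
-/

set_option autoImplicit false

open Finset

namespace H572AE.CSC

/-- the difference quotient of an analytic function is analytic -/
theorem an_dslope {f : ℝ → ℝ} {U : Set ℝ} (hU : (0:ℝ) ∈ U) (hf : AnalyticOnNhd ℝ f U) :
    AnalyticOnNhd ℝ (dslope f 0) U := by
  intro z hz
  by_cases h : z = 0
  · subst h
    obtain ⟨p, hp⟩ := hf 0 hU
    exact ⟨_, hp.has_fpower_series_dslope_fslope⟩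
  · have h1 : AnalyticAt ℝ (fun x : ℝ => (x - 0)⁻¹ * (f x - f 0)) z := by
      apply AnalyticAt.mul
      · apply AnalyticAt.inv
        · exact analyticAt_id.sub analyticAt_const
        · simpa using h
      · exact (hf z hz).sub analyticAt_const
    apply h1.congr
    filter_upwards [isOpen_ne.mem_nhds h] with x hx
    rw [dslope_of_ne _ hx]
    rfl

theorem dslope_ne {f : ℝ → ℝ} {y : ℝ} (hy : y ≠ 0) : dslope f 0 y = (f y - f 0) / y := by
  rw [dslope_of_ne _ hy, slope_def_field, sub_zero]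

theorem hd {f : ℝ → ℝ} {f' y : ℝ} (hf : HasDerivAt f f' y) (h0 : f y ≠ 0) (c : ℝ) (n : ℕ) :
    HasDerivAt (fun x => c / f x ^ n) (-(c * n * f') / f y ^ (n + 1)) y := by
  have h1 := (hasDerivAt_const y c).div (hf.pow n) (pow_ne_zero n h0)
  refine h1.congr_deriv ?_
  rcases n with _ | m
  · simp
  · have h2 : f y ^ (m + 1) ≠ 0 := pow_ne_zero _ h0
    have h3 : f y ^ (m + 1 + 1) ≠ 0 := pow_ne_zero _ h0
    rw [Nat.add_sub_cancel, Pi.pow_apply, div_eq_div_iff (pow_ne_zero 2 h2) h3]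
    ring

theorem base : ∃ rho : ℝ → ℝ, AnalyticOnNhd ℝ rho (Set.Ioo (-Real.pi) Real.pi) ∧
    ∀ y ∈ Set.Ioo 0 Real.pi, 1 / Real.sin y ^ 2 = 1 / y ^ 2 + rho y := by
  have hpi := Real.pi_pos
  have h0U : (0:ℝ) ∈ Set.Ioo (-Real.pi) Real.pi := ⟨by linarith, hpi⟩
  set σ : ℝ → ℝ := dslope Real.sin 0 with hσ
  have hσa : AnalyticOnNhd ℝ σ (Set.Ioo (-Real.pi) Real.pi) := an_dslope h0U Real.analyticOnNhd_sin
  have hσ0 : σ 0 = 1 := by rw [hσ, dslope_same, Real.deriv_sin, Real.cos_zero]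
  have hσn : ∀ y : ℝ, y ≠ 0 → σ y = Real.sin y / y := by
    intro y hy
    rw [hσ, dslope_ne hy, Real.sin_zero, sub_zero]
  have hσne : ∀ y ∈ Set.Ioo (-Real.pi) Real.pi, σ y ≠ 0 := by
    intro y hy
    by_cases h : y = 0
    · rw [h, hσ0]; norm_num
    · rw [hσn y h]
      apply div_ne_zero _ h
      rcases lt_or_gt_of_ne h with h1 | h1
      · have := Real.sin_pos_of_pos_of_lt_pi (x := -y) (by linarith) (by linarith [hy.1])
        rw [Real.sin_neg] at this
        linarith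
      · exact (Real.sin_pos_of_pos_of_lt_pi h1 hy.2).ne'
  set W : ℝ → ℝ := fun y => (σ y ^ 2)⁻¹ with hW
  have hWa : AnalyticOnNhd ℝ W (Set.Ioo (-Real.pi) Real.pi) := by
    intro y hy
    exact ((hσa y hy).pow 2).inv (pow_ne_zero 2 (hσne y hy))
  have hW0 : W 0 = 1 := by simp only [hW]; rw [hσ0]; norm_num
  have hWe : ∀ y, W (-y) = W y := by
    intro y
    simp only [hW]
    by_cases h : y = 0
    · rw [h, neg_zero]
    · rw [hσn y h, hσn (-y) (neg_ne_zero.2 h), Real.sin_neg, neg_div_neg_eq]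
  have hWd : deriv W 0 = 0 := by
    have h1 : deriv (fun x => W (-x)) 0 = -deriv W (-0) := deriv_comp_neg W 0
    have h2 : (fun x => W (-x)) = W := funext hWe
    rw [h2, neg_zero] at h1
    linarith
  refine ⟨dslope (dslope W 0) 0, an_dslope h0U (an_dslope h0U hWa), fun y hy => ?_⟩
  have hy0 : y ≠ 0 := hy.1.ne'
  rw [dslope_ne hy0, dslope_ne hy0, dslope_same, hWd, hW0, sub_zero]
  have hs : Real.sin y ≠ 0 := (Real.sin_pos_of_pos_of_lt_pi hy.1 hy.2).ne'
  have hWy : W y = y ^ 2 / Real.sin y ^ 2 := by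
    simp only [hW]
    rw [hσn y hy0, div_pow, inv_div]
  rw [hWy]
  field_simp
  ring

/-- the inductive step -/
theorem step {g : ℕ} (hg : 1 ≤ g) {d : ℕ → ℝ} (hd0 : ∀ k < g, 0 < d k) {rho : ℝ → ℝ}
    (hr : AnalyticOnNhd ℝ rho (Set.Ioo (-Real.pi) Real.pi))
    (h : ∀ y ∈ Set.Ioo 0 Real.pi, 1 / Real.sin y ^ (2 * g) = ∑ k ∈ range g, d k / y ^ (2 * (k + 1)) + rho y) :
    ∃ d' : ℕ → ℝ, (∀ k < g + 1, 0 < d' k) ∧ ∃ rho' : ℝ → ℝ,
      AnalyticOnNhd ℝ rho' (Set.Ioo (-Real.pi) Real.pi) ∧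
      ∀ y ∈ Set.Ioo 0 Real.pi, 1 / Real.sin y ^ (2 * (g + 1)) =
        ∑ k ∈ range (g + 1), d' k / y ^ (2 * (k + 1)) + rho' y := by
  have hgr : (1:ℝ) ≤ g := by exact_mod_cast hg
  set L : ℝ := 2 * g * (2 * g + 1) with hL
  have hL0 : 0 < L := by positivity
  have hr1 := hr.deriv
  have hr2 := hr1.deriv
  have hsub : Set.Ioo 0 Real.pi ⊆ Set.Ioo (-Real.pi) Real.pi := fun y hy => ⟨by linarith [hy.1, Real.pi_pos], hy.2⟩
  have hopen : IsOpen (Set.Ioo 0 Real.pi) := isOpen_Ioo
  -- derivatives of the left side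
  have hF : ∀ y ∈ Set.Ioo 0 Real.pi, HasDerivAt (fun x => 1 / Real.sin x ^ (2 * g))
      (-(2 * g) * Real.cos y / Real.sin y ^ (2 * g + 1)) y := by
    intro y hy
    have hs : Real.sin y ≠ 0 := (Real.sin_pos_of_pos_of_lt_pi hy.1 hy.2).ne'
    refine (hd (Real.hasDerivAt_sin y) hs 1 (2 * g)).congr_deriv ?_
    push_cast
    ring
  have hF1 : ∀ y ∈ Set.Ioo 0 Real.pi, HasDerivAt (fun x => -(2 * g) * Real.cos x / Real.sin x ^ (2 * g + 1))
      (L / Real.sin y ^ (2 * (g + 1)) - 4 * g ^ 2 / Real.sin y ^ (2 * g)) y := by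
    intro y hy
    have hs : Real.sin y ≠ 0 := (Real.sin_pos_of_pos_of_lt_pi hy.1 hy.2).ne'
    have h1 := ((Real.hasDerivAt_cos y).const_mul (-(2 * g) : ℝ)).mul (hd (Real.hasDerivAt_sin y) hs 1 (2 * g + 1))
    have h2 : (fun x => -(2 * g) * Real.cos x / Real.sin x ^ (2 * g + 1)) =
        (fun x => (-(2 * g) * Real.cos x) * (1 / Real.sin x ^ (2 * g + 1))) := by
      funext x
      rw [mul_one_div]
    rw [h2]
    refine h1.congr_deriv ?_
    have h3 : Real.cos y ^ 2 = 1 - Real.sin y ^ 2 := by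
      have := Real.sin_sq_add_cos_sq y
      linarith
    have e1 : Real.sin y ^ (2 * g + 1) = Real.sin y ^ (2 * g) * Real.sin y := pow_succ _ _
    have e2 : Real.sin y ^ (2 * g + 1 + 1) = Real.sin y ^ (2 * g) * Real.sin y * Real.sin y := by
      rw [pow_succ, pow_succ]
    have e3 : Real.sin y ^ (2 * (g + 1)) = Real.sin y ^ (2 * g) * Real.sin y * Real.sin y := by
      rw [show 2 * (g + 1) = 2 * g + 1 + 1 by ring, pow_succ, pow_succ]
    rw [e1, e2, e3]
    have hs2 : Real.sin y ^ (2 * g) ≠ 0 := pow_ne_zero _ hs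
    push_cast
    field_simp
    rw [hL]
    have h4 : Real.cos y * Real.cos y = 1 - Real.sin y ^ 2 := by rw [← sq]; exact h3
    linear_combination (2 * g * (2 * g + 1) : ℝ) * h3
  -- derivatives of the right side
  have hE : ∀ y ∈ Set.Ioo 0 Real.pi, HasDerivAt (fun x => ∑ k ∈ range g, d k / x ^ (2 * (k + 1)) + rho x)
      (∑ k ∈ range g, (-(d k * (2 * (k + 1)))) / y ^ (2 * (k + 1) + 1) + deriv rho y) y := by
    intro y hy
    apply HasDerivAt.add
    · apply HasDerivAt.fun_sum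
      intro k _
      refine (hd (hasDerivAt_id y) hy.1.ne' (d k) (2 * (k + 1))).congr_deriv ?_
      push_cast
      simp
    · exact (hr y (hsub hy)).differentiableAt.hasDerivAt
  have hE1 : ∀ y ∈ Set.Ioo 0 Real.pi, HasDerivAt
      (fun x => ∑ k ∈ range g, (-(d k * (2 * (k + 1)))) / x ^ (2 * (k + 1) + 1) + deriv rho x)
      (∑ k ∈ range g, (d k * (2 * (k + 1)) * (2 * (k + 1) + 1)) / y ^ (2 * (k + 1 + 1)) + deriv (deriv rho) y) y := by
    intro y hy
    apply HasDerivAt.add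
    · apply HasDerivAt.fun_sum
      intro k _
      refine (hd (hasDerivAt_id y) hy.1.ne' (-(d k * (2 * (k + 1)))) (2 * (k + 1) + 1)).congr_deriv ?_
      have : 2 * (k + 1) + 1 + 1 = 2 * (k + 1 + 1) := by ring
      rw [this]
      push_cast
      simp only [id]
      ring
    · exact (hr1 y (hsub hy)).differentiableAt.hasDerivAt
  -- comparison
  have c1 : ∀ y ∈ Set.Ioo 0 Real.pi, -(2 * g) * Real.cos y / Real.sin y ^ (2 * g + 1) =
      ∑ k ∈ range g, (-(d k * (2 * (k + 1)))) / y ^ (2 * (k + 1) + 1) + deriv rho y := by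
    intro y hy
    have he : (fun x => 1 / Real.sin x ^ (2 * g)) =ᶠ[nhds y] (fun x => ∑ k ∈ range g, d k / x ^ (2 * (k + 1)) + rho x) := by
      filter_upwards [hopen.mem_nhds hy] with x hx
      exact h x hx
    exact (hF y hy).unique ((hE y hy).congr_of_eventuallyEq he)
  have c2 : ∀ y ∈ Set.Ioo 0 Real.pi, L / Real.sin y ^ (2 * (g + 1)) - 4 * g ^ 2 / Real.sin y ^ (2 * g) =
      ∑ k ∈ range g, (d k * (2 * (k + 1)) * (2 * (k + 1) + 1)) / y ^ (2 * (k + 1 + 1)) + deriv (deriv rho) y := by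
    intro y hy
    have he : (fun x => -(2 * g) * Real.cos x / Real.sin x ^ (2 * g + 1)) =ᶠ[nhds y]
        (fun x => ∑ k ∈ range g, (-(d k * (2 * (k + 1)))) / x ^ (2 * (k + 1) + 1) + deriv rho x) := by
      filter_upwards [hopen.mem_nhds hy] with x hx
      exact c1 x hx
    exact (hF1 y hy).unique ((hE1 y hy).congr_of_eventuallyEq he)
  refine ⟨fun k => ((if k = 0 then 0 else d (k - 1) * (2 * k) * (2 * k + 1)) +
    (if k < g then 4 * g ^ 2 * d k else 0)) / L, ?_, fun y => (deriv (deriv rho) y + 4 * g ^ 2 * rho y) / L, ?_, ?_⟩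
  · intro k hk
    apply div_pos _ hL0
    rcases Nat.eq_zero_or_pos k with h0 | h0
    · subst h0
      rw [if_pos rfl, if_pos (by omega), zero_add]
      have := hd0 0 (by omega)
      positivity
    · rw [if_neg (by omega)]
      have h1 := hd0 (k - 1) (by omega)
      have h2 : (0:ℝ) < k := by exact_mod_cast h0
      have h3 : 0 < d (k - 1) * (2 * k) * (2 * k + 1) := by positivity
      split_ifs with h4
      · have := hd0 k h4
        positivity
      · linarith
  · intro y hy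
    exact ((hr2 y hy).add (analyticAt_const.mul (hr y hy))).div_const
  · intro y hy
    have hs : Real.sin y ≠ 0 := (Real.sin_pos_of_pos_of_lt_pi hy.1 hy.2).ne'
    have h2 := c2 y hy
    have h3 := h y hy
    have h4 : ∑ k ∈ range (g + 1), ((if k = 0 then 0 else d (k - 1) * (2 * k) * (2 * k + 1)) +
        (if k < g then 4 * g ^ 2 * d k else 0)) / L / y ^ (2 * (k + 1)) =
        (∑ k ∈ range g, (d k * (2 * (k + 1)) * (2 * (k + 1) + 1)) / y ^ (2 * (k + 1 + 1)) +
          4 * g ^ 2 * ∑ k ∈ range g, d k / y ^ (2 * (k + 1))) / L := by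
      have e1 : ∀ k, ((if k = 0 then 0 else d (k - 1) * (2 * k) * (2 * k + 1)) +
        (if k < g then 4 * g ^ 2 * d k else 0)) / L / y ^ (2 * (k + 1)) =
          (if k = 0 then 0 else d (k - 1) * (2 * k) * (2 * k + 1)) / y ^ (2 * (k + 1)) / L +
          (if k < g then 4 * g ^ 2 * d k else 0) / y ^ (2 * (k + 1)) / L := by
        intro k
        ring
      rw [Finset.sum_congr rfl (fun k _ => e1 k), Finset.sum_add_distrib, Finset.sum_range_succ',
        Finset.sum_range_succ (fun k => (if k < g then 4 * g ^ 2 * d k else 0) / y ^ (2 * (k + 1)) / L) g]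
      rw [if_pos rfl, if_neg (lt_irrefl g), zero_div, zero_div, zero_div, zero_div, add_zero, add_zero, add_div,
        Finset.mul_sum, Finset.sum_div, Finset.sum_div]
      apply congrArg₂
      · apply Finset.sum_congr rfl
        intro k _
        rw [if_neg (Nat.succ_ne_zero k), Nat.add_sub_cancel]
        push_cast
        rfl
      · apply Finset.sum_congr rfl
        intro k hk
        rw [if_pos (Finset.mem_range.1 hk)]
        ring
    show 1 / Real.sin y ^ (2 * (g + 1)) = ∑ k ∈ range (g + 1), ((if k = 0 then 0 else d (k - 1) * (2 * k) * (2 * k + 1)) +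
        (if k < g then 4 * g ^ 2 * d k else 0)) / L / y ^ (2 * (k + 1)) + (deriv (deriv rho) y + 4 * g ^ 2 * rho y) / L
    rw [h4, ← add_div, eq_div_iff hL0.ne']
    have h5 : 1 / Real.sin y ^ (2 * (g + 1)) * L = L / Real.sin y ^ (2 * (g + 1)) := by ring
    have h6 : 4 * (g:ℝ) ^ 2 / Real.sin y ^ (2 * g) = 4 * g ^ 2 * (1 / Real.sin y ^ (2 * g)) := by ring
    rw [h5]
    rw [h6, h3] at h2
    linarith

theorem all (g : ℕ) (hg : 1 ≤ g) : ∃ d : ℕ → ℝ, (∀ k < g, 0 < d k) ∧ ∃ rho : ℝ → ℝ,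
      AnalyticOnNhd ℝ rho (Set.Ioo (-Real.pi) Real.pi) ∧
      ∀ y ∈ Set.Ioo 0 Real.pi, 1 / Real.sin y ^ (2 * g) = ∑ k ∈ range g, d k / y ^ (2 * (k + 1)) + rho y := by
  induction g, hg using Nat.le_induction with
  | base =>
    obtain ⟨rho, h1, h2⟩ := base
    refine ⟨fun _ => 1, fun _ _ => one_pos, rho, h1, fun y hy => ?_⟩
    have := h2 y hy
    simpa using this
  | succ g hg ih =>
    obtain ⟨d, hd, rho, h1, h2⟩ := ih
    exact step hg hd h1 h2

theorem main : H572AE.S_csc := by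
  intro g hg
  obtain ⟨d, hd, rho, h1, h2⟩ := all g hg
  have hpi := Real.pi_pos
  have hcont : ContinuousOn rho (Set.Icc 0 (Real.pi / 2)) := by
    intro y hy
    exact (h1 y ⟨by linarith [hy.1], by linarith [hy.2]⟩).continuousAt.continuousWithinAt
  obtain ⟨B, hB⟩ := (isCompact_Icc.image_of_continuousOn hcont).isBounded.exists_norm_le
  refine ⟨fun s => d (s - 1), ?_, B, fun y hy hy2 => ?_⟩
  · intro s hs
    rw [Finset.mem_Icc] at hs
    exact hd (s - 1) (by omega)
  · have h3 := h2 y ⟨hy, by linarith⟩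
    have h4 : ∑ s ∈ Icc 1 g, d (s - 1) / y ^ (2 * s) = ∑ k ∈ range g, d k / y ^ (2 * (k + 1)) := by
      symm
      apply Finset.sum_nbij (fun k => k + 1)
      · intro k hk
        rw [Finset.mem_range] at hk
        rw [Finset.mem_Icc]
        omega
      · intro a _ b _ hab
        simpa using hab
      · intro s hs
        rw [Finset.mem_coe, Finset.mem_Icc] at hs
        exact ⟨s - 1, by rw [Finset.mem_coe, Finset.mem_range]; omega, by simp only; omega⟩
      · intro k _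
        rw [Nat.add_sub_cancel]
    rw [h4, h3, add_sub_cancel_left]
    have h5 := hB (rho y) ⟨y, ⟨hy.le, hy2⟩, rfl⟩
    rwa [Real.norm_eq_abs] at h5

end H572AE.CSC
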