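import Mathlib
import Pool.Agent.H572.AE.Stm2

/-!
CSC2 (project AE of helper572): the principal part of all powers of the cosecant (after CSC).
-/

set_option autoImplicit false

open Finset

namespace H572AE.CSC2

/-- the difference quotient of an analytic function is analytic -/
theorem an_dslope {f : ℝ → ℝ} {U : Set ℝ} (hU : (0:ℝ) ∈ U) (hf : AnalyticOnNhd ℝ f U) :
    AnalyticOnNhd ℝ (dslope f 0) U := by
  intro z hz
  by_cases h : z = 0
  · subst h
    obtain ⟨p, hp⟩ := hf 0 hU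
    exact ⟨_, hp.has_fpower_series_dslope_fslope⟩
  · have h1 : AnalyticAt ℝ (fun x : ℝ => (x - 0)⁻¹ * (f x - f 0)) z := by
      apply AnalyticAt.mul
      · apply AnalyticAt.inv
        · exact analyticAt_id.sub analyticAt_const
        · simpa using h
      · exact (hf z hz).sub analyticAt_const
    apply h1.congr
    filter_upwards [isOpen_ne.mem_nhds h] with x hx
    rw [dslope_of_ne _ hx]
    rfl

theorem dslope_ne {f : ℝ → ℝ} {y : ℝ} (hy : y ≠ 0) : dslope f 0 y = (f y - f 0) / y := by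
  rw [dslope_of_ne _ hy, slope_def_field, sub_zero]

theorem hd {f : ℝ → ℝ} {f' y : ℝ} (hf : HasDerivAt f f' y) (h0 : f y ≠ 0) (c : ℝ) (n : ℕ) :
    HasDerivAt (fun x => c / f x ^ n) (-(c * n * f') / f y ^ (n + 1)) y := by
  have h1 := (hasDerivAt_const y c).div (hf.pow n) (pow_ne_zero n h0)
  refine h1.congr_deriv ?_
  rcases n with _ | m
  · simp
  · have h2 : f y ^ (m + 1) ≠ 0 := pow_ne_zero _ h0
    have h3 : f y ^ (m + 1 + 1) ≠ 0 := pow_ne_zero _ h0
    rw [Nat.add_sub_cancel, Pi.pow_apply, div_eq_div_iff (pow_ne_zero 2 h2) h3]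
    ring

theorem base : ∃ rho : ℝ → ℝ, AnalyticOnNhd ℝ rho (Set.Ioo (-Real.pi) Real.pi) ∧
    ∀ y ∈ Set.Ioo 0 Real.pi, 1 / Real.sin y ^ 2 = 1 / y ^ 2 + rho y := by
  have hpi := Real.pi_pos
  have h0U : (0:ℝ) ∈ Set.Ioo (-Real.pi) Real.pi := ⟨by linarith, hpi⟩
  set σ : ℝ → ℝ := dslope Real.sin 0 with hσ
  have hσa : AnalyticOnNhd ℝ σ (Set.Ioo (-Real.pi) Real.pi) := an_dslope h0U Real.analyticOnNhd_sin
  have hσ0 : σ 0 = 1 := by rw [hσ, dslope_same, Real.deriv_sin, Real.cos_zero]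
  have hσn : ∀ y : ℝ, y ≠ 0 → σ y = Real.sin y / y := by
    intro y hy
    rw [hσ, dslope_ne hy, Real.sin_zero, sub_zero]
  have hσne : ∀ y ∈ Set.Ioo (-Real.pi) Real.pi, σ y ≠ 0 := by
    intro y hy
    by_cases h : y = 0
    · rw [h, hσ0]; norm_num
    · rw [hσn y h]
      apply div_ne_zero _ h
      rcases lt_or_gt_of_ne h with h1 | h1
      · have := Real.sin_pos_of_pos_of_lt_pi (x := -y) (by linarith) (by linarith [hy.1])
        rw [Real.sin_neg] at this
        linarith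
      · exact (Real.sin_pos_of_pos_of_lt_pi h1 hy.2).ne'
  set W : ℝ → ℝ := fun y => (σ y ^ 2)⁻¹ with hW
  have hWa : AnalyticOnNhd ℝ W (Set.Ioo (-Real.pi) Real.pi) := by
    intro y hy
    exact ((hσa y hy).pow 2).inv (pow_ne_zero 2 (hσne y hy))
  have hW0 : W 0 = 1 := by simp only [hW]; rw [hσ0]; norm_num
  have hWe : ∀ y, W (-y) = W y := by
    intro y
    simp only [hW]
    by_cases h : y = 0
    · rw [h, neg_zero]
    · rw [hσn y h, hσn (-y) (neg_ne_zero.2 h), Real.sin_neg, neg_div_neg_eq]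
  have hWd : deriv W 0 = 0 := by
    have h1 : deriv (fun x => W (-x)) 0 = -deriv W (-0) := deriv_comp_neg W 0
    have h2 : (fun x => W (-x)) = W := funext hWe
    rw [h2, neg_zero] at h1
    linarith
  refine ⟨dslope (dslope W 0) 0, an_dslope h0U (an_dslope h0U hWa), fun y hy => ?_⟩
  have hy0 : y ≠ 0 := hy.1.ne'
  rw [dslope_ne hy0, dslope_ne hy0, dslope_same, hWd, hW0, sub_zero]
  have hs : Real.sin y ≠ 0 := (Real.sin_pos_of_pos_of_lt_pi hy.1 hy.2).ne'
  have hWy : W y = y ^ 2 / Real.sin y ^ 2 := by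
    simp only [hW]
    rw [hσn y hy0, div_pow, inv_div]
  rw [hWy]
  field_simp
  ring

theorem base1 : ∃ rho : ℝ → ℝ, AnalyticOnNhd ℝ rho (Set.Ioo (-Real.pi) Real.pi) ∧
    ∀ y ∈ Set.Ioo 0 Real.pi, 1 / Real.sin y = 1 / y + rho y := by
  have hpi := Real.pi_pos
  have h0U : (0:ℝ) ∈ Set.Ioo (-Real.pi) Real.pi := ⟨by linarith, hpi⟩
  set σ : ℝ → ℝ := dslope Real.sin 0 with hσ
  have hσa : AnalyticOnNhd ℝ σ (Set.Ioo (-Real.pi) Real.pi) := an_dslope h0U Real.analyticOnNhd_sin
  have hσ0 : σ 0 = 1 := by rw [hσ, dslope_same, Real.deriv_sin, Real.cos_zero]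
  have hσn : ∀ y : ℝ, y ≠ 0 → σ y = Real.sin y / y := by
    intro y hy
    rw [hσ, dslope_ne hy, Real.sin_zero, sub_zero]
  have hσne : ∀ y ∈ Set.Ioo (-Real.pi) Real.pi, σ y ≠ 0 := by
    intro y hy
    by_cases h : y = 0
    · rw [h, hσ0]; norm_num
    · rw [hσn y h]
      apply div_ne_zero _ h
      rcases lt_or_gt_of_ne h with h1 | h1
      · have := Real.sin_pos_of_pos_of_lt_pi (x := -y) (by linarith) (by linarith [hy.1])
        rw [Real.sin_neg] at this
        linarith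
      · exact (Real.sin_pos_of_pos_of_lt_pi h1 hy.2).ne'
  set W : ℝ → ℝ := fun y => (σ y)⁻¹ with hW
  have hWa : AnalyticOnNhd ℝ W (Set.Ioo (-Real.pi) Real.pi) := by
    intro y hy
    exact (hσa y hy).inv (hσne y hy)
  have hW0 : W 0 = 1 := by simp only [hW]; rw [hσ0]; norm_num
  refine ⟨dslope W 0, an_dslope h0U hWa, fun y hy => ?_⟩
  have hy0 : y ≠ 0 := hy.1.ne'
  rw [dslope_ne hy0, hW0]
  have hs : Real.sin y ≠ 0 := (Real.sin_pos_of_pos_of_lt_pi hy.1 hy.2).ne'
  have hWy : W y = y / Real.sin y := by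
    simp only [hW]
    rw [hσn y hy0, inv_div]
  rw [hWy]
  field_simp
  ring

/-- The invariant. -/
def Inv (A : ℕ) : Prop := ∃ c : ℕ → ℝ, c 0 = 0 ∧ (∀ s, A < s → c s = 0) ∧ (∀ s, 0 ≤ c s) ∧
  (∀ s, 1 ≤ s → s ≤ A → (s + A) % 2 = 0 → 0 < c s) ∧ (∀ s, (s + A) % 2 = 1 → c s = 0) ∧
  ∃ rho : ℝ → ℝ, AnalyticOnNhd ℝ rho (Set.Ioo (-Real.pi) Real.pi) ∧
    ∀ y ∈ Set.Ioo 0 Real.pi, 1 / Real.sin y ^ A = ∑ s ∈ range (A + 1), c s / y ^ s + rho y

theorem inv1 : Inv 1 := by
  obtain ⟨rho, h1, h2⟩ := base1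
  refine ⟨fun s => if s = 1 then 1 else 0, by simp, ?_, ?_, ?_, ?_, rho, h1, ?_⟩
  · intro s hs
    dsimp only
    rw [if_neg (by omega)]
  · intro s
    dsimp only
    split_ifs <;> norm_num
  · intro s h1 h2 h3
    dsimp only
    rw [if_pos (by omega)]
    norm_num
  · intro s hs
    dsimp only
    rw [if_neg (by omega)]
  · intro y hy
    have := h2 y hy
    simp only [Finset.sum_range_succ, Finset.sum_range_zero]
    simpa using this

theorem inv2 : Inv 2 := by
  obtain ⟨rho, h1, h2⟩ := base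
  refine ⟨fun s => if s = 2 then 1 else 0, by simp, ?_, ?_, ?_, ?_, rho, h1, ?_⟩
  · intro s hs
    dsimp only
    rw [if_neg (by omega)]
  · intro s
    dsimp only
    split_ifs <;> norm_num
  · intro s h1 h2 h3
    dsimp only
    rw [if_pos (by omega)]
    norm_num
  · intro s hs
    dsimp only
    rw [if_neg (by omega)]
  · intro y hy
    have := h2 y hy
    simp only [Finset.sum_range_succ, Finset.sum_range_zero]
    simpa using this

/-- the inductive step -/
theorem step {A : ℕ} (hA : 1 ≤ A) (h : Inv A) : Inv (A + 2) := by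
  obtain ⟨c, c0, cbig, cnn, cpos, cpar, rho, hr, h⟩ := h
  have hAr : (1:ℝ) ≤ A := by exact_mod_cast hA
  set L : ℝ := A * (A + 1) with hL
  have hL0 : 0 < L := by positivity
  have hr1 := hr.deriv
  have hr2 := hr1.deriv
  have hsub : Set.Ioo 0 Real.pi ⊆ Set.Ioo (-Real.pi) Real.pi := fun y hy => ⟨by linarith [hy.1, Real.pi_pos], hy.2⟩
  have hopen : IsOpen (Set.Ioo 0 Real.pi) := isOpen_Ioo
  -- derivatives of the left side
  have hF : ∀ y ∈ Set.Ioo 0 Real.pi, HasDerivAt (fun x => 1 / Real.sin x ^ A)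
      (-A * Real.cos y / Real.sin y ^ (A + 1)) y := by
    intro y hy
    have hs : Real.sin y ≠ 0 := (Real.sin_pos_of_pos_of_lt_pi hy.1 hy.2).ne'
    refine (hd (Real.hasDerivAt_sin y) hs 1 A).congr_deriv ?_
    ring
  have hF1 : ∀ y ∈ Set.Ioo 0 Real.pi, HasDerivAt (fun x => -A * Real.cos x / Real.sin x ^ (A + 1))
      (L / Real.sin y ^ (A + 2) - A ^ 2 / Real.sin y ^ A) y := by
    intro y hy
    have hs : Real.sin y ≠ 0 := (Real.sin_pos_of_pos_of_lt_pi hy.1 hy.2).ne'
    have h1 := ((Real.hasDerivAt_cos y).const_mul (-A : ℝ)).mul (hd (Real.hasDerivAt_sin y) hs 1 (A + 1))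
    have h2 : (fun x => -A * Real.cos x / Real.sin x ^ (A + 1)) =
        (fun x => (-A * Real.cos x) * (1 / Real.sin x ^ (A + 1))) := by
      funext x
      rw [mul_one_div]
    rw [h2]
    refine h1.congr_deriv ?_
    have h3 : Real.cos y ^ 2 = 1 - Real.sin y ^ 2 := by
      have := Real.sin_sq_add_cos_sq y
      linarith
    have e1 : Real.sin y ^ (A + 1) = Real.sin y ^ A * Real.sin y := pow_succ _ _
    have e2 : Real.sin y ^ (A + 1 + 1) = Real.sin y ^ A * Real.sin y * Real.sin y := by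
      rw [pow_succ, pow_succ]
    have e3 : Real.sin y ^ (A + 2) = Real.sin y ^ A * Real.sin y * Real.sin y := by
      rw [show A + 2 = A + 1 + 1 by ring, pow_succ, pow_succ]
    rw [e1, e2]
    have hs2 : Real.sin y ^ A ≠ 0 := pow_ne_zero _ hs
    push_cast
    field_simp
    rw [hL]
    linear_combination (A * (A + 1) : ℝ) * h3
  -- derivatives of the right side
  have hE : ∀ y ∈ Set.Ioo 0 Real.pi, HasDerivAt (fun x => ∑ s ∈ range (A + 1), c s / x ^ s + rho x)
      (∑ s ∈ range (A + 1), (-(c s * s)) / y ^ (s + 1) + deriv rho y) y := by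
    intro y hy
    apply HasDerivAt.add
    · apply HasDerivAt.fun_sum
      intro k _
      refine (hd (hasDerivAt_id y) hy.1.ne' (c k) k).congr_deriv ?_
      simp
    · exact (hr y (hsub hy)).differentiableAt.hasDerivAt
  have hE1 : ∀ y ∈ Set.Ioo 0 Real.pi, HasDerivAt
      (fun x => ∑ s ∈ range (A + 1), (-(c s * s)) / x ^ (s + 1) + deriv rho x)
      (∑ s ∈ range (A + 1), (c s * s * (s + 1)) / y ^ (s + 2) + deriv (deriv rho) y) y := by
    intro y hy
    apply HasDerivAt.add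
    · apply HasDerivAt.fun_sum
      intro k _
      refine (hd (hasDerivAt_id y) hy.1.ne' (-(c k * k)) (k + 1)).congr_deriv ?_
      have : k + 1 + 1 = k + 2 := by ring
      rw [this]
      push_cast
      simp only [id]
      ring
    · exact (hr1 y (hsub hy)).differentiableAt.hasDerivAt
  -- comparison
  have c1 : ∀ y ∈ Set.Ioo 0 Real.pi, -A * Real.cos y / Real.sin y ^ (A + 1) =
      ∑ s ∈ range (A + 1), (-(c s * s)) / y ^ (s + 1) + deriv rho y := by
    intro y hy
    have he : (fun x => 1 / Real.sin x ^ A) =ᶠ[nhds y] (fun x => ∑ s ∈ range (A + 1), c s / x ^ s + rho x) := by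
      filter_upwards [hopen.mem_nhds hy] with x hx
      exact h x hx
    exact (hF y hy).unique ((hE y hy).congr_of_eventuallyEq he)
  have c2 : ∀ y ∈ Set.Ioo 0 Real.pi, L / Real.sin y ^ (A + 2) - A ^ 2 / Real.sin y ^ A =
      ∑ s ∈ range (A + 1), (c s * s * (s + 1)) / y ^ (s + 2) + deriv (deriv rho) y := by
    intro y hy
    have he : (fun x => -A * Real.cos x / Real.sin x ^ (A + 1)) =ᶠ[nhds y]
        (fun x => ∑ s ∈ range (A + 1), (-(c s * s)) / x ^ (s + 1) + deriv rho x) := by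
      filter_upwards [hopen.mem_nhds hy] with x hx
      exact c1 x hx
    exact (hF1 y hy).unique ((hE1 y hy).congr_of_eventuallyEq he)
  have cs0 : ∀ s, 0 ≤ (if s < 2 then 0 else c (s - 2) * ((s - 2 : ℕ) : ℝ) * (((s - 2 : ℕ) : ℝ) + 1)) := by
    intro s
    split_ifs
    · exact le_rfl
    · have := cnn (s - 2)
      positivity
  refine ⟨fun s => ((if s < 2 then 0 else c (s - 2) * ((s - 2 : ℕ) : ℝ) * (((s - 2 : ℕ) : ℝ) + 1)) +
    A ^ 2 * c s) / L, ?_, ?_, ?_, ?_, ?_, fun y => (deriv (deriv rho) y + A ^ 2 * rho y) / L, ?_, ?_⟩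
  · simp [c0]
  · intro s hs
    dsimp only
    rw [cbig s (by omega), cbig (s - 2) (by omega)]
    simp
  · intro s
    dsimp only
    apply div_nonneg _ hL0.le
    have := cs0 s
    have := cnn s
    positivity
  · intro s h1 h2 h3
    dsimp only
    apply div_pos _ hL0
    by_cases hsA : s ≤ A
    · have h4 := cpos s h1 hsA (by omega)
      have h5 := cs0 s
      have h6 : 0 < (A : ℝ) ^ 2 * c s := by positivity
      linarith
    · have hs2 : s = A + 2 := by omega
      subst hs2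
      have h4 := cpos A hA le_rfl (by omega)
      have h5 := cnn (A + 2)
      rw [if_neg (by omega), Nat.add_sub_cancel]
      have h6 : 0 < c A * (A : ℝ) * ((A : ℝ) + 1) := by positivity
      have h7 : 0 ≤ (A : ℝ) ^ 2 * c (A + 2) := by positivity
      linarith
  · intro s hs
    have h4 : c s = 0 := cpar s (by omega)
    dsimp only
    rw [h4]
    by_cases hs2 : s < 2
    · rw [if_pos hs2]; simp
    · rw [if_neg hs2, cpar (s - 2) (by omega)]; simp
  · intro y hy
    exact ((hr2 y hy).add (analyticAt_const.mul (hr y hy))).div_const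
  · intro y hy
    have hs : Real.sin y ≠ 0 := (Real.sin_pos_of_pos_of_lt_pi hy.1 hy.2).ne'
    have h2 := c2 y hy
    have h3 := h y hy
    have h4 : ∑ s ∈ range (A + 2 + 1), ((if s < 2 then 0 else
        c (s - 2) * ((s - 2 : ℕ) : ℝ) * (((s - 2 : ℕ) : ℝ) + 1)) + A ^ 2 * c s) / L / y ^ s =
        (∑ s ∈ range (A + 1), (c s * s * (s + 1)) / y ^ (s + 2) +
          A ^ 2 * ∑ s ∈ range (A + 1), c s / y ^ s) / L := by
      have e1 : ∀ s, ((if s < 2 then 0 else
        c (s - 2) * ((s - 2 : ℕ) : ℝ) * (((s - 2 : ℕ) : ℝ) + 1)) + A ^ 2 * c s) / L / y ^ s =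
          (if s < 2 then 0 else
            c (s - 2) * ((s - 2 : ℕ) : ℝ) * (((s - 2 : ℕ) : ℝ) + 1)) / y ^ s / L +
          A ^ 2 * (c s / y ^ s) / L := by
        intro s
        ring
      have e2 : ∑ s ∈ range (A + 2 + 1), (if s < 2 then 0 else
            c (s - 2) * ((s - 2 : ℕ) : ℝ) * (((s - 2 : ℕ) : ℝ) + 1)) / y ^ s / L =
          (∑ s ∈ range (A + 1), (c s * s * (s + 1)) / y ^ (s + 2)) / L := by
        rw [show A + 2 + 1 = (A + 1) + 1 + 1 by ring, Finset.sum_range_succ', Finset.sum_range_succ']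
        rw [if_pos (by norm_num), if_pos (by norm_num)]
        simp only [zero_div, add_zero]
        rw [Finset.sum_div]
        refine Finset.sum_congr rfl fun s _ => ?_
        rw [if_neg (by omega)]
        rfl
      have e3 : ∑ s ∈ range (A + 2 + 1), A ^ 2 * (c s / y ^ s) / L =
          (A ^ 2 * ∑ s ∈ range (A + 1), c s / y ^ s) / L := by
        rw [show A + 2 + 1 = (A + 1) + 1 + 1 by ring, Finset.sum_range_succ, Finset.sum_range_succ,
          cbig (A + 1) (by omega), cbig (A + 1 + 1) (by omega)]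
        simp only [zero_div, mul_zero, add_zero]
        rw [Finset.mul_sum, Finset.sum_div]
      rw [Finset.sum_congr rfl (fun s _ => e1 s), Finset.sum_add_distrib, e2, e3, add_div]
    show 1 / Real.sin y ^ (A + 2) = ∑ s ∈ range (A + 2 + 1), ((if s < 2 then 0 else
        c (s - 2) * ((s - 2 : ℕ) : ℝ) * (((s - 2 : ℕ) : ℝ) + 1)) + A ^ 2 * c s) / L / y ^ s +
        (deriv (deriv rho) y + A ^ 2 * rho y) / L
    rw [h4, ← add_div, eq_div_iff hL0.ne']
    have h5 : 1 / Real.sin y ^ (A + 2) * L = L / Real.sin y ^ (A + 2) := by ring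
    have h6 : (A:ℝ) ^ 2 / Real.sin y ^ A = A ^ 2 * (1 / Real.sin y ^ A) := by ring
    rw [h5]
    rw [h6, h3] at h2
    linarith

theorem all (A : ℕ) : Inv (A + 1) ∧ Inv (A + 2) := by
  induction A with
  | zero => exact ⟨inv1, inv2⟩
  | succ A ih =>
    refine ⟨ih.2, ?_⟩
    have := step (A := A + 1) (by omega) ih.1
    exact this

theorem main : H572AE.S_csc2 := by
  intro A hA
  have hall : Inv A := by
    obtain ⟨B, rfl⟩ : ∃ B, A = B + 1 := ⟨A - 1, by omega⟩
    exact (all B).1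
  obtain ⟨c, c0, cbig, cnn, cpos, cpar, rho, h1, h2⟩ := hall
  have hpi := Real.pi_pos
  have hcont : ContinuousOn rho (Set.Icc 0 (Real.pi / 2)) := by
    intro y hy
    exact (h1 y ⟨by linarith [hy.1], by linarith [hy.2]⟩).continuousAt.continuousWithinAt
  obtain ⟨B, hB⟩ := (isCompact_Icc.image_of_continuousOn hcont).isBounded.exists_norm_le
  refine ⟨c, cpos A hA le_rfl (by omega), ?_, cpar, B, fun y hy hy2 => ?_⟩
  · intro s hs hp
    rw [Finset.mem_Icc] at hs
    exact cpos s hs.1 hs.2 hp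
  · have h3 := h2 y ⟨hy, by linarith⟩
    have h4 : ∑ s ∈ Icc 1 A, c s / y ^ s = ∑ s ∈ range (A + 1), c s / y ^ s := by
      have h6 : range (A + 1) = insert 0 (Icc 1 A) := by
        ext s
        simp only [Finset.mem_range, Finset.mem_insert, Finset.mem_Icc]
        omega
      rw [h6, Finset.sum_insert (by simp), c0, zero_div, zero_add]
    rw [h4, h3, add_sub_cancel_left]
    have h5 := hB (rho y) ⟨y, ⟨hy.le, hy2⟩, rfl⟩
    rwa [Real.norm_eq_abs] at h5

end H572AE.CSC2
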