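import Mathlib
import Pool.Agent.H572.AE.Stm

set_option autoImplicit false

open Finset Polynomial

namespace H572AE.EO

theorem V_deg (n : ℕ) : (V n).natDegree ≤ 2 * n + 1 := by
  induction n with
  | zero => rw [V]; exact natDegree_X_le
  | succ n ih =>
    rw [V]
    refine le_trans natDegree_mul_le ?_
    have h : (X ^ 2 - C (((n : ℝ) + 1) ^ 2) : ℝ[X]).natDegree ≤ 2 :=
      (natDegree_X_pow_sub_C (n := 2) (r := ((n : ℝ) + 1) ^ 2)).le
    omega

theorem V_even (n i : ℕ) : (V n).coeff (2 * i) = 0 := by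
  induction n generalizing i with
  | zero => rw [V, coeff_X_of_ne_one (by omega)]
  | succ n ih =>
    rw [V, mul_sub, coeff_sub, coeff_mul_C, ih, zero_mul, sub_zero, coeff_mul_X_pow']
    split_ifs with h
    · have h2 : 2 * i - 2 = 2 * (i - 1) := by omega
      rw [h2, ih]
    · rfl

theorem V_lead (n : ℕ) : (V n).coeff (2 * n + 1) = 1 := by
  induction n with
  | zero => rw [V]; exact coeff_X_one
  | succ n ih =>
    have h0 : (V n).coeff (2 * n + 1 + 2) = 0 :=
      coeff_eq_zero_of_natDegree_lt (by have := V_deg n; omega)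
    rw [V, mul_sub, coeff_sub, coeff_mul_C, show 2 * (n + 1) + 1 = (2 * n + 1) + 2 by ring,
      coeff_mul_X_pow, ih, h0, zero_mul, sub_zero]

theorem Ev_deg (j : ℕ) : (Ev j).natDegree ≤ 2 * j := by
  cases j with
  | zero => rw [Ev]; exact natDegree_one.le
  | succ n =>
    rw [Ev]
    refine le_trans (natDegree_C_mul_le _ _) (le_trans natDegree_mul_le ?_)
    have h1 := V_deg n
    have h2 : (X : ℝ[X]).natDegree ≤ 1 := natDegree_X_le
    omega

theorem Ev_odd (j i : ℕ) : (Ev j).coeff (2 * i + 1) = 0 := by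
  cases j with
  | zero =>
    rw [Ev, coeff_one, if_neg (by omega)]
  | succ n =>
    rw [Ev, coeff_C_mul, coeff_X_mul, V_even, mul_zero]

theorem Od_deg (n : ℕ) : (Od n).natDegree ≤ 2 * n + 1 :=
  le_trans (natDegree_C_mul_le _ _) (V_deg n)

theorem Od_lead (n : ℕ) : (Od n).coeff (2 * n + 1) = 1 / ((2 * n + 1).factorial : ℝ) := by
  rw [Od, coeff_C_mul, V_lead, mul_one]

/-- EO: degrees and coefficients of the basis polynomials. -/
theorem main : H572AE.S_eo := ⟨Ev_deg, Ev_odd, Od_deg, Od_lead⟩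

end H572AE.EO
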