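import Mathlib
import Pool.Agent.H572.AE.Stm2

set_option autoImplicit false

open Finset Polynomial

namespace H572AE.EVO

theorem VO_deg (n : ℕ) : (VO n).natDegree ≤ 2 * n := by
  induction n with
  | zero => rw [VO]; exact natDegree_one.le
  | succ n ih =>
    rw [VO]
    refine le_trans natDegree_mul_le ?_
    have h : (X ^ 2 - C ((2 * (n : ℝ) + 1) ^ 2) : ℝ[X]).natDegree ≤ 2 :=
      (natDegree_X_pow_sub_C (n := 2) (r := (2 * (n : ℝ) + 1) ^ 2)).le
    omega

theorem VO_odd (n i : ℕ) : (VO n).coeff (2 * i + 1) = 0 := by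
  induction n generalizing i with
  | zero => rw [VO, coeff_one, if_neg (by omega)]
  | succ n ih =>
    rw [VO, mul_sub, coeff_sub, coeff_mul_C, ih, zero_mul, sub_zero, coeff_mul_X_pow']
    split_ifs with h
    · have h2 : 2 * i + 1 - 2 = 2 * (i - 1) + 1 := by omega
      rw [h2, ih]
    · rfl

theorem VO_lead (n : ℕ) : (VO n).coeff (2 * n) = 1 := by
  induction n with
  | zero => rw [VO, mul_zero]; exact coeff_one_zero
  | succ n ih =>
    have h0 : (VO n).coeff (2 * n + 2) = 0 :=
      coeff_eq_zero_of_natDegree_lt (by have := VO_deg n; omega)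
    rw [VO, mul_sub, coeff_sub, coeff_mul_C, show 2 * (n + 1) = 2 * n + 2 by ring,
      coeff_mul_X_pow, ih, h0, zero_mul, sub_zero]

/-- EVO: degrees and coefficients of VO. -/
theorem main : H572AE.S_evo := ⟨VO_deg, VO_odd, VO_lead⟩

end H572AE.EVO
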