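import Mathlib
import Pool.Agent.H572.AE.Stm2

/-!
# Statements for the fourth part of the project AE: full expansions with a logarithm
-/

set_option autoImplicit false

open Finset Polynomial
open scoped ContDiff

namespace H572AE

/-- F r has a full asymptotic expansion in the powers r^d, r^(d-1), r^(d-2), ... -/
def FE (d : ℕ) (F : ℕ → ℝ) : Prop :=
  ∃ c : ℕ → ℝ, ∀ L : ℕ, ∃ B : ℝ, ∀ r : ℕ, 1 ≤ r →
    |F r - ∑ l ∈ range L, c l * (r : ℝ) ^ ((d : ℤ) - (l : ℤ))| ≤ B * (r : ℝ) ^ ((d : ℤ) - (L : ℤ))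

/-- FE2: partial zeta values and harmonic numbers. -/
def S_fe2 : Prop := (∀ n : ℕ, 2 ≤ n → FE 0 (fun r => ∑ a ∈ Ico 1 r, 1 / (a : ℝ) ^ n)) ∧
  FE 0 (fun r => (∑ a ∈ Ico 1 r, 1 / (a : ℝ)) - Real.log r)

/-- FE3: the Euler-Maclaurin expansion of a Riemann sum of a smooth function. -/
def S_fe3 : Prop := ∀ f : ℝ → ℝ, ContDiffOn ℝ ∞ f (Set.Ioo (-1) 2) →
  FE 1 (fun r => ∑ a ∈ range r, f ((a : ℝ) / r))

/-- FE4: even powers of the cosecant minus the principal parts at both ends are smooth. -/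
def S_fe4 : Prop := ∀ g : ℕ, 1 ≤ g → ∃ c : ℕ → ℝ, (∀ s ∈ Icc 1 g, 0 < c s) ∧ ∃ R : ℝ → ℝ,
  ContDiffOn ℝ ∞ R (Set.Ioo (-1) 2) ∧ ∀ x : ℝ, 0 < x → x < 1 →
    1 / Real.sin (Real.pi * x) ^ (2 * g) =
      (∑ s ∈ Icc 1 g, c s * (1 / (Real.pi * x) ^ (2 * s) + 1 / (Real.pi * (1 - x)) ^ (2 * s))) + R x

/-- FE5: the full expansion of the double sum with exponent 2. -/
def S_fe5 : Prop := ∀ g h : ℕ, 1 ≤ g → 1 ≤ h → ∃ Λ : ℝ[X], Λ.natDegree = 2 * min g h + 1 ∧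
  FE (2 * g + 2 * h + 1) (fun r => TT 2 (2 * g) (2 * h) r - Λ.eval (r : ℝ) * Real.log r)

end H572AE
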