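import Mathlib
import Pool.Agent.H572.AE.Stm4

/-!
# Closure properties of full expansions
-/

set_option autoImplicit false

open Finset Polynomial

namespace H572AE

theorem FE.const (a : ℝ) : FE 0 (fun _ => a) := by
  refine ⟨fun l => if l = 0 then a else 0, fun L => ⟨if L = 0 then |a| else 0, fun r hr => ?_⟩⟩
  rcases Nat.eq_zero_or_pos L with h0 | hpos
  · subst h0; simp
  · have h1 : ∑ l ∈ range L, (fun l : ℕ => if l = 0 then a else 0) l *
        (r : ℝ) ^ (((0 : ℕ) : ℤ) - (l : ℤ)) = a := by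
      rw [Finset.sum_eq_single 0]
      · simp
      · intro l _ hl
        simp only [if_neg hl, zero_mul]
      · intro h; exact absurd (mem_range.mpr hpos) h
    rw [h1, sub_self, abs_zero, if_neg (by omega), zero_mul]

theorem FE.add {d : ℕ} {F G : ℕ → ℝ} (h : FE d F) (h' : FE d G) : FE d (fun r => F r + G r) := by
  obtain ⟨c, hc⟩ := h
  obtain ⟨c', hc'⟩ := h'
  refine ⟨fun l => c l + c' l, fun L => ?_⟩
  obtain ⟨B, hB⟩ := hc L
  obtain ⟨B', hB'⟩ := hc' L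
  refine ⟨B + B', fun r hr => ?_⟩
  have e : F r + G r - ∑ l ∈ range L, (c l + c' l) * (r : ℝ) ^ ((d : ℤ) - (l : ℤ)) =
      (F r - ∑ l ∈ range L, c l * (r : ℝ) ^ ((d : ℤ) - (l : ℤ))) +
      (G r - ∑ l ∈ range L, c' l * (r : ℝ) ^ ((d : ℤ) - (l : ℤ))) := by
    simp only [add_mul, Finset.sum_add_distrib]; ring
  rw [e, add_mul]
  exact (abs_add_le _ _).trans (add_le_add (hB r hr) (hB' r hr))

theorem FE.cmul {d : ℕ} {F : ℕ → ℝ} (a : ℝ) (h : FE d F) : FE d (fun r => a * F r) := by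
  obtain ⟨c, hc⟩ := h
  refine ⟨fun l => a * c l, fun L => ?_⟩
  obtain ⟨B, hB⟩ := hc L
  refine ⟨|a| * B, fun r hr => ?_⟩
  have e : a * F r - ∑ l ∈ range L, (a * c l) * (r : ℝ) ^ ((d : ℤ) - (l : ℤ)) =
      a * (F r - ∑ l ∈ range L, c l * (r : ℝ) ^ ((d : ℤ) - (l : ℤ))) := by
    rw [mul_sub, Finset.mul_sum]
    simp only [mul_assoc]
  rw [e, abs_mul, mul_assoc]
  exact mul_le_mul_of_nonneg_left (hB r hr) (abs_nonneg _)

theorem FE.congr {d : ℕ} {F G : ℕ → ℝ} (h : FE d F) (hFG : ∀ r : ℕ, 1 ≤ r → F r = G r) : FE d G := by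
  obtain ⟨c, hc⟩ := h
  refine ⟨c, fun L => ?_⟩
  obtain ⟨B, hB⟩ := hc L
  exact ⟨B, fun r hr => by rw [← hFG r hr]; exact hB r hr⟩

theorem FE.zero (d : ℕ) : FE d (fun _ => 0) :=
  ⟨fun _ => 0, fun L => ⟨0, fun r _ => by simp⟩⟩

theorem FE.sum {ι : Type*} {d : ℕ} (S : Finset ι) {F : ι → ℕ → ℝ} (h : ∀ i ∈ S, FE d (F i)) :
    FE d (fun r => ∑ i ∈ S, F i r) := by
  classical
  induction S using Finset.induction_on with
  | empty => simpa using FE.zero d
  | insert a S ha ih =>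
    have h1 := (h a (mem_insert_self a S)).add (ih fun i hi => h i (mem_insert_of_mem hi))
    simpa only [Finset.sum_insert ha] using h1

theorem FE.succ {d : ℕ} {F : ℕ → ℝ} (h : FE d F) : FE (d + 1) F := by
  obtain ⟨c, hc⟩ := h
  refine ⟨fun l => match l with | 0 => 0 | l + 1 => c l, fun L => ?_⟩
  rcases L with _ | L
  · obtain ⟨B, hB⟩ := hc 0
    refine ⟨B, fun r hr => ?_⟩
    have h1 := hB r hr
    simp only [range_zero, sum_empty, sub_zero, Nat.cast_zero, zpow_natCast] at h1 ⊢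
    have hr1 : (1 : ℝ) ≤ r := by exact_mod_cast hr
    have hB0 : 0 ≤ B := by
      have h2 : 0 ≤ B * (r : ℝ) ^ d := (abs_nonneg _).trans h1
      have h3 : (0 : ℝ) < (r : ℝ) ^ d := by positivity
      exact nonneg_of_mul_nonneg_left h2 h3
    refine h1.trans (mul_le_mul_of_nonneg_left ?_ hB0)
    exact pow_le_pow_right₀ hr1 (by omega)
  · obtain ⟨B, hB⟩ := hc L
    refine ⟨B, fun r hr => ?_⟩
    have h1 := hB r hr
    rw [Finset.sum_range_succ']
    have e1 : ∀ l : ℕ, (((d + 1 : ℕ) : ℤ) - ((l + 1 : ℕ) : ℤ)) = (d : ℤ) - (l : ℤ) := by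
      intro l; push_cast; ring
    simp only [e1, zero_mul, add_zero]
    exact h1

theorem FE.mono {d d' : ℕ} {F : ℕ → ℝ} (h : FE d F) (hd : d ≤ d') : FE d' F := by
  obtain ⟨k, rfl⟩ := Nat.exists_eq_add_of_le hd
  clear hd
  induction k with
  | zero => exact h
  | succ k ih => exact ih.succ

theorem FE.mulr {d : ℕ} {F : ℕ → ℝ} (h : FE d F) : FE (d + 1) (fun r => (r : ℝ) * F r) := by
  obtain ⟨c, hc⟩ := h
  refine ⟨c, fun L => ?_⟩
  obtain ⟨B, hB⟩ := hc L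
  refine ⟨B, fun r hr => ?_⟩
  have h1 := hB r hr
  have hr0 : (0 : ℝ) < r := by exact_mod_cast (by omega : 0 < r)
  have e1 : ∀ l : ℕ, (r : ℝ) ^ (((d + 1 : ℕ) : ℤ) - (l : ℤ)) = r * (r : ℝ) ^ ((d : ℤ) - (l : ℤ)) := by
    intro l
    rw [show (((d + 1 : ℕ) : ℤ) - (l : ℤ)) = 1 + ((d : ℤ) - (l : ℤ)) by push_cast; ring,
      zpow_add₀ hr0.ne', zpow_one]
  have e2 : (r : ℝ) * F r - ∑ l ∈ range L, c l * (r : ℝ) ^ (((d + 1 : ℕ) : ℤ) - (l : ℤ)) =
      r * (F r - ∑ l ∈ range L, c l * (r : ℝ) ^ ((d : ℤ) - (l : ℤ))) := by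
    simp only [e1]
    rw [mul_sub, Finset.mul_sum]
    congr 1
    refine Finset.sum_congr rfl fun l _ => ?_
    ring
  rw [e2, abs_mul, abs_of_pos hr0, e1]
  calc (r : ℝ) * |F r - ∑ l ∈ range L, c l * (r : ℝ) ^ ((d : ℤ) - (l : ℤ))| ≤
      r * (B * (r : ℝ) ^ ((d : ℤ) - (L : ℤ))) := mul_le_mul_of_nonneg_left h1 hr0.le
    _ = _ := by ring

theorem FE.mulpow {d : ℕ} {F : ℕ → ℝ} (n : ℕ) (h : FE d F) :
    FE (d + n) (fun r => (r : ℝ) ^ n * F r) := by
  induction n with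
  | zero => simpa using h
  | succ n ih =>
    have := ih.mulr
    refine this.congr fun r _ => ?_
    rw [pow_succ]; ring

theorem FE.mulpoly {d e : ℕ} {F : ℕ → ℝ} (p : ℝ[X]) (hp : p.natDegree ≤ e) (h : FE d F) :
    FE (d + e) (fun r => p.eval (r : ℝ) * F r) := by
  have h1 : FE (d + e) (fun r => ∑ i ∈ range (p.natDegree + 1), p.coeff i * ((r : ℝ) ^ i * F r)) := by
    refine FE.sum _ fun i hi => ?_
    exact ((h.mulpow i).cmul (p.coeff i)).mono (by have := mem_range.mp hi; omega)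
  refine h1.congr fun r _ => ?_
  rw [Polynomial.eval_eq_sum_range, Finset.sum_mul]
  refine Finset.sum_congr rfl fun i _ => ?_
  ring

theorem FE.poly {e : ℕ} (p : ℝ[X]) (hp : p.natDegree ≤ e) : FE e (fun r => p.eval (r : ℝ)) := by
  have := (FE.const 1).mulpoly p hp
  rw [zero_add] at this
  exact this.congr fun r _ => by rw [mul_one]

theorem FE.neg {d : ℕ} {F : ℕ → ℝ} (h : FE d F) : FE d (fun r => - F r) := by
  have := h.cmul (-1)
  exact this.congr fun r _ => by ring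

theorem FE.sub {d : ℕ} {F G : ℕ → ℝ} (h : FE d F) (h' : FE d G) : FE d (fun r => F r - G r) := by
  have := h.add h'.neg
  exact this.congr fun r _ => by ring

end H572AE
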