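import Mathlib
import Pool.Agent.H572.AE.Stm4

/-!
Project AE, piece FE2: full asymptotic expansions of finite zeta sums and harmonic numbers.
-/

set_option autoImplicit false

open Finset Filter Topology

namespace H572AE.FE2

/-- `g` has the full expansion with the coefficients `a` in the powers of `1 / r`. -/
def Ex (g : ℕ → ℝ) (a : ℕ → ℝ) : Prop :=
  ∀ L : ℕ, ∃ B : ℝ, ∀ r : ℕ, 1 ≤ r →
    |g r - ∑ l ∈ range L, a l * ((r : ℝ)⁻¹) ^ l| ≤ B * ((r : ℝ)⁻¹) ^ L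

theorem tpos {r : ℕ} (hr : 1 ≤ r) : 0 < ((r : ℝ)⁻¹) := by
  have : (0 : ℝ) < r := by exact_mod_cast hr
  positivity

theorem tle {r : ℕ} (hr : 1 ≤ r) : ((r : ℝ)⁻¹) ≤ 1 := by
  have : (1 : ℝ) ≤ r := by exact_mod_cast hr
  exact inv_le_one_of_one_le₀ this

theorem Ex.of_large {g a : ℕ → ℝ} (h : ∀ L : ℕ, ∃ L' : ℕ, L ≤ L' ∧ ∃ B : ℝ, ∀ r : ℕ, 1 ≤ r →
    |g r - ∑ l ∈ range L', a l * ((r : ℝ)⁻¹) ^ l| ≤ B * ((r : ℝ)⁻¹) ^ L') : Ex g a := by
  intro L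
  obtain ⟨L', hL, B, hB⟩ := h L
  refine ⟨|B| + ∑ l ∈ Ico L L', |a l|, ?_⟩
  intro r hr
  have t0 := tpos hr
  have t1 := tle hr
  have e1 : ∑ l ∈ range L', a l * ((r : ℝ)⁻¹) ^ l =
      ∑ l ∈ range L, a l * ((r : ℝ)⁻¹) ^ l + ∑ l ∈ Ico L L', a l * ((r : ℝ)⁻¹) ^ l :=
    (Finset.sum_range_add_sum_Ico _ hL).symm
  have e2 : |∑ l ∈ Ico L L', a l * ((r : ℝ)⁻¹) ^ l| ≤ (∑ l ∈ Ico L L', |a l|) * ((r : ℝ)⁻¹) ^ L := by
    rw [Finset.sum_mul]
    refine (Finset.abs_sum_le_sum_abs _ _).trans (Finset.sum_le_sum fun l hl => ?_)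
    rw [mem_Ico] at hl
    rw [abs_mul, abs_of_pos (pow_pos t0 l)]
    exact mul_le_mul_of_nonneg_left (pow_le_pow_of_le_one t0.le t1 hl.1) (abs_nonneg _)
  have e3 : B * ((r : ℝ)⁻¹) ^ L' ≤ |B| * ((r : ℝ)⁻¹) ^ L := by
    have h1 : B * ((r : ℝ)⁻¹) ^ L' ≤ |B| * ((r : ℝ)⁻¹) ^ L' :=
      mul_le_mul_of_nonneg_right (le_abs_self B) (by positivity)
    have h2 : |B| * ((r : ℝ)⁻¹) ^ L' ≤ |B| * ((r : ℝ)⁻¹) ^ L :=
      mul_le_mul_of_nonneg_left (pow_le_pow_of_le_one t0.le t1 hL) (abs_nonneg _)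
    exact h1.trans h2
  have e4 := hB r hr
  rw [e1] at e4
  have e5 : g r - ∑ l ∈ range L, a l * ((r : ℝ)⁻¹) ^ l =
      (g r - (∑ l ∈ range L, a l * ((r : ℝ)⁻¹) ^ l + ∑ l ∈ Ico L L', a l * ((r : ℝ)⁻¹) ^ l)) +
        ∑ l ∈ Ico L L', a l * ((r : ℝ)⁻¹) ^ l := by ring
  rw [e5, add_mul]
  exact (abs_add_le _ _).trans (add_le_add (e4.trans e3) e2)

theorem Ex.congr {g g' a : ℕ → ℝ} (h : Ex g a) (hg : ∀ r : ℕ, 1 ≤ r → g' r = g r) : Ex g' a := by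
  intro L
  obtain ⟨B, hB⟩ := h L
  refine ⟨B, fun r hr => ?_⟩
  rw [hg r hr]
  exact hB r hr

theorem Ex.lin {g h a b : ℕ → ℝ} (c : ℝ) (hg : Ex g a) (hh : Ex h b) :
    Ex (fun r => g r + c * h r) (fun l => a l + c * b l) := by
  intro L
  obtain ⟨B1, hB1⟩ := hg L
  obtain ⟨B2, hB2⟩ := hh L
  refine ⟨B1 + |c| * B2, fun r hr => ?_⟩
  have e1 : g r + c * h r - ∑ l ∈ range L, (a l + c * b l) * ((r : ℝ)⁻¹) ^ l =
      (g r - ∑ l ∈ range L, a l * ((r : ℝ)⁻¹) ^ l) +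
        c * (h r - ∑ l ∈ range L, b l * ((r : ℝ)⁻¹) ^ l) := by
    rw [mul_sub, Finset.mul_sum]
    have : ∑ l ∈ range L, (a l + c * b l) * ((r : ℝ)⁻¹) ^ l =
        ∑ l ∈ range L, a l * ((r : ℝ)⁻¹) ^ l + ∑ l ∈ range L, c * (b l * ((r : ℝ)⁻¹) ^ l) := by
      rw [← Finset.sum_add_distrib]
      exact Finset.sum_congr rfl fun l _ => by ring
    rw [this]
    ring
  show |g r + c * h r - ∑ l ∈ range L, (a l + c * b l) * ((r : ℝ)⁻¹) ^ l| ≤ _
  rw [e1]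
  refine (abs_add_le _ _).trans ?_
  rw [abs_mul]
  have h1 := hB1 r hr
  have h2 := mul_le_mul_of_nonneg_left (hB2 r hr) (abs_nonneg c)
  linarith

/-- the coefficients of the constant `1` -/
def one (l : ℕ) : ℝ := if l = 0 then 1 else 0

theorem ex_one : Ex (fun _ => 1) one := by
  refine Ex.of_large fun L => ⟨L + 1, Nat.le_succ L, 0, fun r hr => ?_⟩
  rw [Finset.sum_range_succ']
  have : ∑ l ∈ range L, one (l + 1) * ((r : ℝ)⁻¹) ^ (l + 1) = 0 :=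
    Finset.sum_eq_zero fun l _ => by simp [one]
  rw [this]
  simp [one]

/-- multiplication by a power of `1 / r` -/
def sh (k : ℕ) (e : ℕ → ℝ) (l : ℕ) : ℝ := if l < k then 0 else e (l - k)

theorem Ex.shift {g e : ℕ → ℝ} (k : ℕ) (h : Ex g e) :
    Ex (fun r => ((r : ℝ)⁻¹) ^ k * g r) (sh k e) := by
  refine Ex.of_large fun L => ⟨k + L, Nat.le_add_left L k, ?_⟩
  obtain ⟨B, hB⟩ := h L
  refine ⟨B, fun r hr => ?_⟩
  have t0 := tpos hr
  have e1 : ∑ l ∈ range (k + L), sh k e l * ((r : ℝ)⁻¹) ^ l =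
      ((r : ℝ)⁻¹) ^ k * ∑ l ∈ range L, e l * ((r : ℝ)⁻¹) ^ l := by
    rw [Finset.sum_range_add, Finset.mul_sum]
    have h1 : ∑ x ∈ range k, sh k e x * ((r : ℝ)⁻¹) ^ x = 0 := by
      refine Finset.sum_eq_zero fun l hl => ?_
      rw [mem_range] at hl
      simp [sh, hl]
    rw [h1, zero_add]
    refine Finset.sum_congr rfl fun l _ => ?_
    have h2 : sh k e (k + l) = e l := by simp [sh]
    rw [h2, pow_add]
    ring
  show |((r : ℝ)⁻¹) ^ k * g r - _| ≤ _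
  rw [e1, ← mul_sub, abs_mul, abs_of_pos (pow_pos t0 k), pow_add]
  have h3 := mul_le_mul_of_nonneg_left (hB r hr) (pow_pos t0 k).le
  linarith

/-- division by `1 + 1 / r` -/
def qt (e : ℕ → ℝ) : ℕ → ℝ
  | 0 => e 0
  | l + 1 => e (l + 1) - qt e l

theorem Ex.quot {g e : ℕ → ℝ} (h : Ex g e) :
    Ex (fun r => g r * (1 + (r : ℝ)⁻¹)⁻¹) (qt e) := by
  refine Ex.of_large fun L => ⟨L + 1, Nat.le_succ L, ?_⟩
  obtain ⟨B, hB⟩ := h (L + 1)
  refine ⟨B + |qt e L|, fun r hr => ?_⟩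
  obtain ⟨t, ht⟩ : ∃ t : ℝ, t = (r : ℝ)⁻¹ := ⟨_, rfl⟩
  have t0 : 0 < t := ht ▸ tpos hr
  have h0 := hB r hr
  rw [← ht] at h0
  show |g r * (1 + (r : ℝ)⁻¹)⁻¹ - ∑ l ∈ range (L + 1), qt e l * ((r : ℝ)⁻¹) ^ l| ≤ _
  rw [← ht]
  have key : ∀ n : ℕ, (1 + t) * ∑ l ∈ range (n + 1), qt e l * t ^ l =
      ∑ l ∈ range (n + 1), e l * t ^ l + qt e n * t ^ (n + 1) := by
    intro n
    induction n with
    | zero => simp [qt]; ring
    | succ n ih =>
      rw [Finset.sum_range_succ, mul_add, ih, Finset.sum_range_succ _ (n + 1)]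
      simp only [qt]
      ring
  have h1 := key L
  have hp : (0 : ℝ) < 1 + t := by linarith
  have e1 : g r * (1 + t)⁻¹ - ∑ l ∈ range (L + 1), qt e l * t ^ l =
      ((g r - ∑ l ∈ range (L + 1), e l * t ^ l) - qt e L * t ^ (L + 1)) * (1 + t)⁻¹ := by
    have : ∑ l ∈ range (L + 1), qt e l * t ^ l =
        (∑ l ∈ range (L + 1), e l * t ^ l + qt e L * t ^ (L + 1)) * (1 + t)⁻¹ := by
      rw [← h1]
      field_simp
    rw [this]
    ring
  rw [e1, abs_mul, abs_of_pos (inv_pos.2 hp)]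
  have h2 : (1 + t)⁻¹ ≤ 1 := inv_le_one_of_one_le₀ (by linarith)
  have h3 : |(g r - ∑ l ∈ range (L + 1), e l * t ^ l) - qt e L * t ^ (L + 1)| ≤
      (B + |qt e L|) * t ^ (L + 1) := by
    refine (abs_sub _ _).trans ?_
    rw [abs_mul, abs_of_pos (pow_pos t0 _)]
    linarith
  exact (mul_le_of_le_one_right (abs_nonneg _) h2).trans h3

/-- the coefficients of `(1 + 1 / r) ^ (-k)` -/
def ee : ℕ → ℕ → ℝ
  | 0 => one
  | k + 1 => qt (ee k)

theorem ex_ee (k : ℕ) : Ex (fun r => ((1 + (r : ℝ)⁻¹)⁻¹) ^ k) (ee k) := by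
  induction k with
  | zero => exact ex_one.congr fun r _ => by simp
  | succ k ih => exact ih.quot.congr fun r _ => by rw [pow_succ]

theorem ee_zero (k : ℕ) : ee k 0 = 1 := by
  induction k with
  | zero => simp [ee, one]
  | succ k ih => simp [ee, qt, ih]

theorem ee_one (k : ℕ) : ee k 1 = -(k : ℝ) := by
  induction k with
  | zero => simp [ee, one]
  | succ k ih =>
    show ee k (0 + 1) - qt (ee k) 0 = _
    have : qt (ee k) 0 = ee k 0 := rfl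
    rw [this, zero_add, ih, ee_zero]
    push_cast
    ring

/-- `(r + 1) ^ (-k) - r ^ (-k)` -/
noncomputable def D (k r : ℕ) : ℝ := (((r + 1 : ℕ) : ℝ)⁻¹) ^ k - ((r : ℝ)⁻¹) ^ k

/-- its coefficients -/
def dd (k l : ℕ) : ℝ := sh k (ee k) l + (-1) * sh k one l

theorem ex_D (k : ℕ) : Ex (D k) (dd k) := by
  have h := (Ex.shift k (ex_ee k)).lin (-1) (Ex.shift k ex_one)
  refine h.congr fun r hr => ?_
  have hr0 : (0 : ℝ) < r := by exact_mod_cast hr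
  unfold D
  rw [← mul_pow]
  have : (((r + 1 : ℕ) : ℝ)⁻¹) = (r : ℝ)⁻¹ * (1 + (r : ℝ)⁻¹)⁻¹ := by
    push_cast
    rw [← mul_inv]
    congr 1
    field_simp
  rw [this]
  ring

theorem dd_le {k l : ℕ} (h : l ≤ k) : dd k l = 0 := by
  rcases h.lt_or_eq with h1 | h1
  · simp [dd, sh, h1]
  · subst h1
    simp [dd, sh, ee_zero, one]

theorem dd_succ (k : ℕ) : dd k (k + 1) = -(k : ℝ) := by
  have h1 : ¬ (k + 1 < k) := by omega
  have h2 : k + 1 - k = 1 := by omega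
  simp [dd, sh, h1, h2, ee_one, one]

/-- the coefficients after `k` steps -/
noncomputable def A (a : ℕ → ℝ) : ℕ → ℕ → ℝ
  | 0 => a
  | k + 1 => fun l => A a k l + (A a k (k + 2) / (k + 1)) * dd (k + 1) l

/-- the coefficient of `r ^ (-(k + 1))` -/
noncomputable def cc (a : ℕ → ℝ) (k : ℕ) : ℝ := -(A a k (k + 2) / (k + 1))

theorem A_zero {a : ℕ → ℝ} (ha0 : a 0 = 0) (ha1 : a 1 = 0) (k : ℕ) : ∀ l ≤ k + 1, A a k l = 0 := by
  induction k with
  | zero =>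
    intro l hl
    show a l = 0
    interval_cases l
    · exact ha0
    · exact ha1
  | succ k ih =>
    intro l hl
    show A a k l + (A a k (k + 2) / (k + 1)) * dd (k + 1) l = 0
    rcases Nat.lt_or_ge (k + 1) l with h1 | h1
    · have h2 : l = k + 1 + 1 := by omega
      subst h2
      rw [dd_succ]
      have : ((k : ℝ) + 1) ≠ 0 := by positivity
      push_cast
      field_simp
      ring
    · rw [ih l h1, dd_le h1]
      ring

theorem ex_A {f a : ℕ → ℝ} (hf : Ex f a) (k : ℕ) :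
    Ex (fun r => f r - ∑ i ∈ range k, cc a i * D (i + 1) r) (A a k) := by
  induction k with
  | zero => exact hf.congr fun r _ => by simp
  | succ k ih =>
    have h := ih.lin (A a k (k + 2) / (k + 1)) (ex_D (k + 1))
    refine h.congr fun r _ => ?_
    rw [Finset.sum_range_succ]
    simp only [cc]
    ring

/-- telescoping bound -/
theorem tel (n a : ℕ) (ha : 1 ≤ a) :
    ((a : ℝ)⁻¹) ^ (n + 2) ≤ 2 ^ (n + 1) * (((a : ℝ)⁻¹) ^ (n + 1) - (((a + 1 : ℕ) : ℝ)⁻¹) ^ (n + 1)) := by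
  have ha0 : (0 : ℝ) < a := by exact_mod_cast ha
  have ha1 : (1 : ℝ) ≤ a := by exact_mod_cast ha
  obtain ⟨t, ht⟩ : ∃ t : ℝ, t = (a : ℝ)⁻¹ := ⟨_, rfl⟩
  obtain ⟨s, hs⟩ : ∃ s : ℝ, s = (((a + 1 : ℕ) : ℝ)⁻¹) := ⟨_, rfl⟩
  have t0 : 0 < t := ht ▸ tpos ha
  have s0 : 0 < s := by rw [hs]; positivity
  rw [← ht, ← hs]
  have h1 : t - s = t * s := by
    rw [ht, hs]
    push_cast
    field_simp
    ring
  have h2 : t ≤ 2 * s := by
    rw [ht, hs, inv_eq_one_div, inv_eq_one_div, mul_one_div, div_le_div_iff₀ ha0 (by positivity)]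
    push_cast
    linarith
  have hst : s ≤ t := by nlinarith [mul_pos t0 s0]
  have h3 : (t - s) * s ^ n ≤ t ^ (n + 1) - s ^ (n + 1) := by
    have : s ^ n ≤ t ^ n := pow_le_pow_left₀ s0.le hst n
    have h4 : 0 ≤ t * (t ^ n - s ^ n) := mul_nonneg t0.le (by linarith)
    rw [pow_succ, pow_succ]
    nlinarith
  have h5 : t ^ (n + 1) ≤ (2 * s) ^ (n + 1) := pow_le_pow_left₀ t0.le h2 _
  calc t ^ (n + 2) = t * t ^ (n + 1) := by ring
    _ ≤ t * (2 * s) ^ (n + 1) := mul_le_mul_of_nonneg_left h5 t0.le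
    _ = 2 ^ (n + 1) * ((t * s) * s ^ n) := by rw [mul_pow]; ring
    _ = 2 ^ (n + 1) * ((t - s) * s ^ n) := by rw [h1]
    _ ≤ 2 ^ (n + 1) * (t ^ (n + 1) - s ^ (n + 1)) := by gcongr

/-- the tail of a sequence with small increments -/
theorem tail {G : ℕ → ℝ} {B c : ℝ} {n : ℕ}
    (h : ∀ r : ℕ, 1 ≤ r → |G (r + 1) - G r| ≤ B * ((r : ℝ)⁻¹) ^ (n + 2))
    (hG : Tendsto G atTop (𝓝 c)) (r : ℕ) (hr : 1 ≤ r) :
    |G r - c| ≤ (B * 2 ^ (n + 1)) * ((r : ℝ)⁻¹) ^ (n + 1) := by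
  have hB : 0 ≤ B := by
    have h1 := h 1 le_rfl
    have h2 : (((1 : ℕ) : ℝ)⁻¹) ^ (n + 2) = 1 := by simp
    rw [h2, mul_one] at h1
    exact (abs_nonneg _).trans h1
  have key : ∀ s : ℕ, |G (r + s) - G r| ≤
      (B * 2 ^ (n + 1)) * (((r : ℝ)⁻¹) ^ (n + 1) - (((r + s : ℕ) : ℝ)⁻¹) ^ (n + 1)) := by
    intro s
    induction s with
    | zero => simp
    | succ s ih =>
      have h1 := h (r + s) (by omega)
      have h2 := mul_le_mul_of_nonneg_left (tel n (r + s) (by omega)) hB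
      have h3 : G (r + (s + 1)) - G r = (G (r + s + 1) - G (r + s)) + (G (r + s) - G r) := by
        rw [← add_assoc]
        ring
      rw [h3]
      refine (abs_add_le _ _).trans ?_
      have h4 : r + (s + 1) = r + s + 1 := by ring
      rw [h4]
      have h5 := (h1.trans h2)
      have h6 : B * (2 ^ (n + 1) * ((((r + s : ℕ) : ℝ)⁻¹) ^ (n + 1) -
          (((r + s + 1 : ℕ) : ℝ)⁻¹) ^ (n + 1))) + (B * 2 ^ (n + 1)) *
          (((r : ℝ)⁻¹) ^ (n + 1) - (((r + s : ℕ) : ℝ)⁻¹) ^ (n + 1)) =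
          (B * 2 ^ (n + 1)) * (((r : ℝ)⁻¹) ^ (n + 1) - (((r + s + 1 : ℕ) : ℝ)⁻¹) ^ (n + 1)) := by
        ring
      rw [← h6]
      exact add_le_add h5 ih
  have hlim : Tendsto (fun s => |G (r + s) - G r|) atTop (𝓝 |c - G r|) := by
    have h1 : Tendsto (fun s => G (r + s)) atTop (𝓝 c) := by
      have h2 : Tendsto (fun s : ℕ => r + s) atTop atTop :=
        tendsto_atTop_mono (fun s => Nat.le_add_left s r) tendsto_id
      exact hG.comp h2
    exact (h1.sub_const _).abs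
  rw [abs_sub_comm]
  refine le_of_tendsto' hlim fun s => (key s).trans ?_
  refine mul_le_mul_of_nonneg_left ?_ (by positivity)
  have : 0 ≤ (((r + s : ℕ) : ℝ)⁻¹) ^ (n + 1) := by positivity
  linarith

theorem main_sum {F f a : ℕ → ℝ} (hf : Ex f a) (ha0 : a 0 = 0) (ha1 : a 1 = 0)
    (hF : ∀ r : ℕ, 1 ≤ r → F (r + 1) - F r = f r) : ∃ c : ℕ → ℝ, Ex F c := by
  have hk : ∀ k : ℕ, ∃ B : ℝ, ∀ r : ℕ, 1 ≤ r →
      |f r - ∑ i ∈ range k, cc a i * D (i + 1) r| ≤ B * ((r : ℝ)⁻¹) ^ (k + 2) := by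
    intro k
    obtain ⟨B, hB⟩ := ex_A hf k (k + 2)
    refine ⟨B, fun r hr => ?_⟩
    have h1 := hB r hr
    have h2 : ∑ l ∈ range (k + 2), A a k l * ((r : ℝ)⁻¹) ^ l = 0 := by
      refine Finset.sum_eq_zero fun l hl => ?_
      rw [mem_range] at hl
      rw [A_zero ha0 ha1 k l (by omega), zero_mul]
    rw [h2, sub_zero] at h1
    exact h1
  -- the limit
  obtain ⟨c0, hc0⟩ : ∃ c0 : ℝ, Tendsto F atTop (𝓝 c0) := by
    obtain ⟨B, hB⟩ := hk 0
    have h1 : ∀ n : ℕ, dist (F (n + 1)) (F (n.succ + 1)) ≤ B * (((n + 1 : ℕ) : ℝ)⁻¹) ^ 2 := by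
      intro n
      have h2 := hB (n + 1) (by omega)
      rw [Finset.range_zero, Finset.sum_empty, sub_zero, ← hF (n + 1) (by omega)] at h2
      rw [dist_comm, Real.dist_eq]
      exact h2
    have h3 : Summable (fun n : ℕ => B * (((n + 1 : ℕ) : ℝ)⁻¹) ^ 2) := by
      refine Summable.mul_left B ?_
      have h4 : Summable (fun n : ℕ => ((n : ℝ) ^ 2)⁻¹) := Real.summable_nat_pow_inv.2 (by norm_num)
      have h5 := (summable_nat_add_iff 1).2 h4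
      refine h5.congr fun n => ?_
      rw [inv_pow]
    obtain ⟨c0, hc0⟩ := cauchySeq_tendsto_of_complete
      (cauchySeq_of_dist_le_of_summable _ h1 h3)
    exact ⟨c0, (tendsto_add_atTop_iff_nat 1).1 hc0⟩
  refine ⟨fun l => if l = 0 then c0 else cc a (l - 1), ?_⟩
  refine Ex.of_large fun k => ⟨k + 1, Nat.le_succ k, ?_⟩
  obtain ⟨B, hB⟩ := hk k
  refine ⟨B * 2 ^ (k + 1), fun r hr => ?_⟩
  obtain ⟨G, hGd⟩ : ∃ G : ℕ → ℝ, G = fun r => F r - ∑ i ∈ range k, cc a i * ((r : ℝ)⁻¹) ^ (i + 1) :=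
    ⟨_, rfl⟩
  have hG1 : ∀ r : ℕ, 1 ≤ r → |G (r + 1) - G r| ≤ B * ((r : ℝ)⁻¹) ^ (k + 2) := by
    intro r hr
    have h1 : G (r + 1) - G r = f r - ∑ i ∈ range k, cc a i * D (i + 1) r := by
      rw [hGd, ← hF r hr]
      unfold D
      simp only [mul_sub, Finset.sum_sub_distrib]
      ring
    rw [h1]
    exact hB r hr
  have hG2 : Tendsto G atTop (𝓝 c0) := by
    have h1 : Tendsto (fun r : ℕ => ∑ i ∈ range k, cc a i * ((r : ℝ)⁻¹) ^ (i + 1)) atTop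
        (𝓝 (∑ i ∈ range k, cc a i * (0 : ℝ) ^ (i + 1))) := by
      refine tendsto_finsetSum _ fun i _ => ?_
      exact (tendsto_inv_atTop_nhds_zero_nat.pow (i + 1)).const_mul _
    have h2 : ∑ i ∈ range k, cc a i * (0 : ℝ) ^ (i + 1) = 0 :=
      Finset.sum_eq_zero fun i _ => by simp
    rw [h2] at h1
    have h3 := hc0.sub h1
    rw [sub_zero] at h3
    rw [hGd]
    exact h3
  have h4 := tail hG1 hG2 r hr
  have h5 : F r - ∑ l ∈ range (k + 1), (if l = 0 then c0 else cc a (l - 1)) * ((r : ℝ)⁻¹) ^ l =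
      G r - c0 := by
    rw [hGd, Finset.sum_range_succ']
    simp
    ring
  show |F r - ∑ l ∈ range (k + 1), (if l = 0 then c0 else cc a (l - 1)) * ((r : ℝ)⁻¹) ^ l| ≤ _
  rw [h5]
  exact h4

/-- the coefficients of `-log (1 + 1 / r)` -/
noncomputable def lg (l : ℕ) : ℝ := if l = 0 then 0 else (-1) ^ l / l

theorem ex_log : Ex (fun r => -Real.log (1 + (r : ℝ)⁻¹)) lg := by
  refine Ex.of_large fun n => ⟨n + 1, Nat.le_succ n, ?_⟩
  refine ⟨2 + |-Real.log (1 + (((1 : ℕ) : ℝ)⁻¹)) -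
    ∑ l ∈ range (n + 1), lg l * ((((1 : ℕ) : ℝ)⁻¹)) ^ l|, fun r hr => ?_⟩
  rcases Nat.lt_or_ge 1 r with h1 | h1
  · obtain ⟨t, ht⟩ : ∃ t : ℝ, t = (r : ℝ)⁻¹ := ⟨_, rfl⟩
    have t0 : 0 < t := ht ▸ tpos hr
    have hr2 : (2 : ℝ) ≤ r := by exact_mod_cast h1
    have t2 : t ≤ 1 / 2 := by
      rw [ht, inv_eq_one_div]
      exact one_div_le_one_div_of_le (by norm_num) hr2
    have h2 : |-t| < 1 := by rw [abs_neg, abs_of_pos t0]; linarith
    have h3 := Real.abs_log_sub_add_sum_range_le h2 n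
    rw [abs_neg, abs_of_pos t0] at h3
    show |-Real.log (1 + (r : ℝ)⁻¹) - ∑ l ∈ range (n + 1), lg l * ((r : ℝ)⁻¹) ^ l| ≤ _
    rw [← ht]
    have h4 : -Real.log (1 + t) - ∑ l ∈ range (n + 1), lg l * t ^ l =
        -((∑ i ∈ range n, (-t) ^ (i + 1) / (i + 1)) + Real.log (1 - -t)) := by
      rw [Finset.sum_range_succ']
      have h5 : ∑ i ∈ range n, lg (i + 1) * t ^ (i + 1) = ∑ i ∈ range n, (-t) ^ (i + 1) / (i + 1) := by
        refine Finset.sum_congr rfl fun i _ => ?_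
        have h6 : lg (i + 1) = (-1) ^ (i + 1) / ((i : ℝ) + 1) := by
          simp [lg]
        rw [h6, neg_pow t]
        ring
      have h7 : lg 0 = 0 := by simp [lg]
      rw [h5, h7, sub_neg_eq_add]
      ring
    rw [h4, abs_neg]
    refine h3.trans ?_
    have h8 : t ^ (n + 1) / (1 - t) ≤ 2 * t ^ (n + 1) := by
      rw [div_le_iff₀ (by linarith)]
      have : 0 < t ^ (n + 1) := pow_pos t0 _
      nlinarith
    refine h8.trans ?_
    refine mul_le_mul_of_nonneg_right ?_ (pow_pos t0 _).le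
    linarith [abs_nonneg (-Real.log (1 + (((1 : ℕ) : ℝ)⁻¹)) -
      ∑ l ∈ range (n + 1), lg l * ((((1 : ℕ) : ℝ)⁻¹)) ^ l)]
  · have h2 : r = 1 := by omega
    subst h2
    have h3 : ((((1 : ℕ) : ℝ)⁻¹)) ^ (n + 1) = 1 := by simp
    rw [h3, mul_one]
    linarith

theorem fe_of_ex {F c : ℕ → ℝ} (h : Ex F c) : FE 0 F := by
  refine ⟨c, fun L => ?_⟩
  obtain ⟨B, hB⟩ := h L
  refine ⟨B, fun r hr => ?_⟩
  have e1 : ∀ l : ℕ, (r : ℝ) ^ (((0 : ℕ) : ℤ) - (l : ℤ)) = ((r : ℝ)⁻¹) ^ l := by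
    intro l
    simp
  simp only [e1]
  exact hB r hr

theorem main : S_fe2 := by
  constructor
  · intro n hn
    have h := Ex.shift n ex_one
    obtain ⟨c, hc⟩ := main_sum (F := fun r => ∑ a ∈ Ico 1 r, 1 / (a : ℝ) ^ n) h
      (by simp [sh]; omega) (by simp [sh]; omega) (by
        intro r hr
        rw [Finset.sum_Ico_succ_top hr]
        simp)
    exact fe_of_ex hc
  · have h1 : Ex (fun r => ((r : ℝ)⁻¹) ^ 1 * 1) (sh 1 one) := Ex.shift 1 ex_one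
    have h := h1.lin 1 ex_log
    obtain ⟨c, hc⟩ := main_sum (F := fun r => (∑ a ∈ Ico 1 r, 1 / (a : ℝ)) - Real.log r) h
      (by simp [sh, lg]) (by simp [sh, lg, one]) (by
        intro r hr
        have hr0 : (0 : ℝ) < r := by exact_mod_cast hr
        have e1 : Real.log ((r + 1 : ℕ) : ℝ) = Real.log r + Real.log (1 + (r : ℝ)⁻¹) := by
          rw [← Real.log_mul hr0.ne' (by positivity)]
          congr 1
          push_cast
          field_simp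
        rw [Finset.sum_Ico_succ_top hr, e1]
        simp only [pow_one, mul_one, one_mul, one_div]
        ring)
    exact fe_of_ex hc

end H572AE.FE2
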