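import Mathlib
import Pool.Agent.H572.AE.Stm4

/-!
# Statements for the fifth part of the project AE: full expansions with periodic coefficients
-/

set_option autoImplicit false

open Finset Polynomial
open scoped ContDiff

namespace H572AE

/-- F r has a full asymptotic expansion in the powers r^d, r^(d-1), r^(d-2), ... with coefficients that
depend only on r modulo N. -/
def FEN (N d : ℕ) (F : ℕ → ℝ) : Prop :=
  ∃ c : ℕ → ℕ → ℝ, ∀ L : ℕ, ∃ B : ℝ, ∀ r : ℕ, 1 ≤ r →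
    |F r - ∑ l ∈ range L, c (r % N) l * (r : ℝ) ^ ((d : ℤ) - (l : ℤ))| ≤ B * (r : ℝ) ^ ((d : ℤ) - (L : ℤ))

/-- GE: the Euler-Maclaurin expansion of the Riemann sum of a smooth function over an interval with rational
end points. -/
def S_ge : Prop := ∀ (N b : ℕ) (δ : ℝ) (f : ℝ → ℝ), 1 ≤ N → b < N → 0 < δ →
  ContDiffOn ℝ ∞ f (Set.Ioo ((b : ℝ) / N - δ) (((b : ℝ) + 1) / N + δ)) →
  FEN N 1 (fun r => ∑ a ∈ (range r).filter (fun a => b * r ≤ N * a ∧ N * a < (b + 1) * r), f ((a : ℝ) / r))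

/-- FEE: the full expansion for an even number of edges. -/
def S_fee : Prop := ∀ k G H : ℕ, 1 ≤ k → 1 ≤ G → 1 ≤ H → k ≤ G + 1 → k ≤ H + 1 →
  ∃ Λ : ℝ[X], Λ.natDegree = 2 * min G H + 1 ∧
    FEN k.factorial (2 * G + 2 * H + 1) (fun r => TT (2 * k) (2 * G) (2 * H) r - Λ.eval (r : ℝ) * Real.log r)

/-- GEO: the same over the odd numbers. -/
def S_geo : Prop := ∀ (N b : ℕ) (δ : ℝ) (f : ℝ → ℝ), 1 ≤ N → b < N → 0 < δ →
  ContDiffOn ℝ ∞ f (Set.Ioo ((b : ℝ) / N - δ) (((b : ℝ) + 1) / N + δ)) →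
  FEN (2 * N) 1 (fun r => ∑ a ∈ (range r).filter (fun a => a % 2 = 1 ∧ b * r ≤ N * a ∧ N * a < (b + 1) * r),
    f ((a : ℝ) / r))

/-- FE2O: partial sums over a parity class (below r). -/
def S_fe2o : Prop := ∀ ε : ℕ, ε < 2 →
  (∀ n : ℕ, 2 ≤ n → FEN 2 0 (fun r => ∑ a ∈ (Ico 1 r).filter (fun a => a % 2 = ε), 1 / (a : ℝ) ^ n)) ∧
  FEN 2 0 (fun r => (∑ a ∈ (Ico 1 r).filter (fun a => a % 2 = ε), 1 / (a : ℝ)) - Real.log r / 2) ∧
  (∀ n : ℕ, FEN 2 (n + 1) (fun r => ∑ a ∈ (Ico 1 r).filter (fun a => a % 2 = ε), (a : ℝ) ^ n))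

/-- FE4O: odd powers of the cosecant minus the principal parts at both ends are smooth. -/
def S_fe4o : Prop := ∀ g : ℕ, 1 ≤ g → ∃ c : ℕ → ℝ, (∀ s ∈ Icc 1 g, 0 < c s) ∧ ∃ R : ℝ → ℝ,
  ContDiffOn ℝ ∞ R (Set.Ioo (-1) 2) ∧ ∀ x : ℝ, 0 < x → x < 1 →
    1 / Real.sin (Real.pi * x) ^ (2 * g - 1) =
      (∑ s ∈ Icc 1 g, c s * (1 / (Real.pi * x) ^ (2 * s - 1) + 1 / (Real.pi * (1 - x)) ^ (2 * s - 1))) + R x

end H572AE
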