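import Mathlib
import Pool.Agent.H572.AE.Stm5
import Pool.Agent.H572.AE.FE1
import Pool.Agent.H572.AE.FE2

/-!
Project AE, part 5, piece FE2O: partial zeta values over a parity class (helper628).
-/

set_option autoImplicit false

open Finset Filter Topology Polynomial

namespace H572AE.FE2O

open H572AE.FE2

/-- full expansion along the `r` with the property `p` -/
def FQ (p : ℕ → Prop) (d : ℕ) (F : ℕ → ℝ) : Prop :=
  ∃ c : ℕ → ℝ, ∀ L : ℕ, ∃ B : ℝ, ∀ r : ℕ, 1 ≤ r → p r →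
    |F r - ∑ l ∈ range L, c l * (r : ℝ) ^ ((d : ℤ) - (l : ℤ))| ≤ B * (r : ℝ) ^ ((d : ℤ) - (L : ℤ))

theorem FQ.of_FE {p : ℕ → Prop} {d : ℕ} {F : ℕ → ℝ} (h : FE d F) : FQ p d F := by
  obtain ⟨c, hc⟩ := h
  refine ⟨c, fun L => ?_⟩
  obtain ⟨B, hB⟩ := hc L
  exact ⟨B, fun r hr _ => hB r hr⟩

theorem FQ.congr {p : ℕ → Prop} {d : ℕ} {F G : ℕ → ℝ} (h : FQ p d F)
    (hFG : ∀ r : ℕ, 1 ≤ r → p r → F r = G r) : FQ p d G := by
  obtain ⟨c, hc⟩ := h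
  refine ⟨c, fun L => ?_⟩
  obtain ⟨B, hB⟩ := hc L
  refine ⟨B, fun r hr hp => ?_⟩
  rw [← hFG r hr hp]
  exact hB r hr hp

theorem FQ.lin {p : ℕ → Prop} {d : ℕ} {F G : ℕ → ℝ} (a b : ℝ) (h : FQ p d F) (h' : FQ p d G) :
    FQ p d (fun r => a * F r + b * G r) := by
  obtain ⟨c, hc⟩ := h
  obtain ⟨c', hc'⟩ := h'
  refine ⟨fun l => a * c l + b * c' l, fun L => ?_⟩
  obtain ⟨B, hB⟩ := hc L
  obtain ⟨B', hB'⟩ := hc' L
  refine ⟨|a| * B + |b| * B', fun r hr hp => ?_⟩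
  have h1 := mul_le_mul_of_nonneg_left (hB r hr hp) (abs_nonneg a)
  have h2 := mul_le_mul_of_nonneg_left (hB' r hr hp) (abs_nonneg b)
  rw [← abs_mul] at h1 h2
  have e : a * F r + b * G r - ∑ l ∈ range L, (a * c l + b * c' l) * (r : ℝ) ^ ((d : ℤ) - (l : ℤ)) =
      a * (F r - ∑ l ∈ range L, c l * (r : ℝ) ^ ((d : ℤ) - (l : ℤ))) +
        b * (G r - ∑ l ∈ range L, c' l * (r : ℝ) ^ ((d : ℤ) - (l : ℤ))) := by
    rw [mul_sub, mul_sub, Finset.mul_sum, Finset.mul_sum]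
    have : ∑ l ∈ range L, (a * c l + b * c' l) * (r : ℝ) ^ ((d : ℤ) - (l : ℤ)) =
        ∑ l ∈ range L, a * (c l * (r : ℝ) ^ ((d : ℤ) - (l : ℤ))) +
        ∑ l ∈ range L, b * (c' l * (r : ℝ) ^ ((d : ℤ) - (l : ℤ))) := by
      rw [← Finset.sum_add_distrib]
      apply Finset.sum_congr rfl
      intro l _
      ring
    rw [this]
    ring
  rw [e]
  refine (abs_add_le _ _).trans ?_
  rw [add_mul, mul_assoc, mul_assoc]
  exact add_le_add h1 h2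

theorem FEN_of {d : ℕ} {F : ℕ → ℝ} (h0 : FQ (fun r => r % 2 = 0) d F)
    (h1 : FQ (fun r => r % 2 = 1) d F) : FEN 2 d F := by
  obtain ⟨c0, hc0⟩ := h0
  obtain ⟨c1, hc1⟩ := h1
  refine ⟨fun ρ l => if ρ = 0 then c0 l else c1 l, fun L => ?_⟩
  obtain ⟨B0, hB0⟩ := hc0 L
  obtain ⟨B1, hB1⟩ := hc1 L
  refine ⟨max B0 B1, fun r hr => ?_⟩
  have hr0 : (0 : ℝ) < r := by exact_mod_cast hr
  have hpos : 0 ≤ (r : ℝ) ^ ((d : ℤ) - (L : ℤ)) := by positivity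
  rcases Nat.mod_two_eq_zero_or_one r with hp | hp
  · rw [hp]
    simp only [if_true]
    exact (hB0 r hr hp).trans (mul_le_mul_of_nonneg_right (le_max_left _ _) hpos)
  · rw [hp]
    simp only [one_ne_zero, if_false]
    exact (hB1 r hr hp).trans (mul_le_mul_of_nonneg_right (le_max_right _ _) hpos)

theorem zp {r : ℕ} (l : ℕ) : (r : ℝ) ^ (((0 : ℕ) : ℤ) - (l : ℤ)) = ((r : ℝ)⁻¹) ^ l := by
  simp

theorem core_even {E : ℕ → ℝ} (h : FE 0 E) :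
    FQ (fun r => r % 2 = 0) 0 (fun r => E ((r + 1) / 2)) := by
  obtain ⟨c, hc⟩ := h
  refine ⟨fun l => c l * 2 ^ l, fun L => ?_⟩
  obtain ⟨B, hB⟩ := hc L
  refine ⟨B * 2 ^ L, fun r hr hp => ?_⟩
  simp only [zp] at hB ⊢
  have hM : 1 ≤ (r + 1) / 2 := by omega
  have h2 := hB ((r + 1) / 2) hM
  have e : (((r + 1) / 2 : ℕ) : ℝ)⁻¹ = 2 * (r : ℝ)⁻¹ := by
    have h3 : 2 * ((r + 1) / 2) = r := by omega
    have h4 : (2 : ℝ) * (((r + 1) / 2 : ℕ) : ℝ) = r := by exact_mod_cast h3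
    rw [← h4, mul_inv]
    ring
  rw [e] at h2
  simp only [mul_pow] at h2
  have e2 : ∑ l ∈ range L, c l * 2 ^ l * ((r : ℝ)⁻¹) ^ l =
      ∑ l ∈ range L, c l * (2 ^ l * ((r : ℝ)⁻¹) ^ l) := by
    apply Finset.sum_congr rfl
    intro l _
    ring
  rw [e2, mul_assoc]
  exact h2

theorem core_odd {E : ℕ → ℝ} (h : FE 0 E) :
    FQ (fun r => r % 2 = 1) 0 (fun r => E ((r + 1) / 2)) := by
  obtain ⟨c, hc⟩ := h
  refine ⟨fun j => ∑ l ∈ range (j + 1), c l * 2 ^ l * sh l (ee l) j, fun L => ?_⟩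
  obtain ⟨B, hB⟩ := hc L
  have hY : ∀ l : ℕ, ∃ B : ℝ, ∀ r : ℕ, 1 ≤ r →
      |((r : ℝ)⁻¹) ^ l * ((1 + (r : ℝ)⁻¹)⁻¹) ^ l -
        ∑ j ∈ range L, sh l (ee l) j * ((r : ℝ)⁻¹) ^ j| ≤ B * ((r : ℝ)⁻¹) ^ L :=
    fun l => Ex.shift l (ex_ee l) L
  choose Bl hBl using hY
  refine ⟨|B| * 2 ^ L + ∑ l ∈ range L, |c l * 2 ^ l| * Bl l, fun r hr hp => ?_⟩
  simp only [zp] at hB ⊢
  have hr0 : (0 : ℝ) < r := by exact_mod_cast hr
  have hri : (0 : ℝ) < (r : ℝ)⁻¹ := by positivity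
  have hM : 1 ≤ (r + 1) / 2 := by omega
  have h2 := hB ((r + 1) / 2) hM
  have e : (((r + 1) / 2 : ℕ) : ℝ)⁻¹ = 2 * ((r : ℝ)⁻¹ * (1 + (r : ℝ)⁻¹)⁻¹) := by
    have h3 : 2 * ((r + 1) / 2) = r + 1 := by omega
    have h4 : (2 : ℝ) * (((r + 1) / 2 : ℕ) : ℝ) = r + 1 := by exact_mod_cast h3
    have h5 : (((r + 1) / 2 : ℕ) : ℝ) = (r + 1) / 2 := by linarith
    rw [h5]
    field_simp
  have hle : (((r + 1) / 2 : ℕ) : ℝ)⁻¹ ≤ 2 * (r : ℝ)⁻¹ := by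
    rw [e]
    have h6 : (1 + (r : ℝ)⁻¹)⁻¹ ≤ 1 := inv_le_one_of_one_le₀ (by linarith)
    nlinarith
  have hpos : (0 : ℝ) ≤ (((r + 1) / 2 : ℕ) : ℝ)⁻¹ := by positivity
  have h3 : |E ((r + 1) / 2) - ∑ l ∈ range L, c l * ((((r + 1) / 2 : ℕ) : ℝ)⁻¹) ^ l| ≤
      |B| * 2 ^ L * ((r : ℝ)⁻¹) ^ L := by
    refine h2.trans ?_
    calc B * ((((r + 1) / 2 : ℕ) : ℝ)⁻¹) ^ L ≤ |B| * ((((r + 1) / 2 : ℕ) : ℝ)⁻¹) ^ L :=
          mul_le_mul_of_nonneg_right (le_abs_self B) (by positivity)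
      _ ≤ |B| * (2 * (r : ℝ)⁻¹) ^ L := by gcongr
      _ = |B| * 2 ^ L * ((r : ℝ)⁻¹) ^ L := by rw [mul_pow]; ring
  have e3 : ∑ l ∈ range L, c l * ((((r + 1) / 2 : ℕ) : ℝ)⁻¹) ^ l =
      ∑ l ∈ range L, (c l * 2 ^ l) * (((r : ℝ)⁻¹) ^ l * ((1 + (r : ℝ)⁻¹)⁻¹) ^ l) := by
    apply Finset.sum_congr rfl
    intro l _
    rw [e, mul_pow, mul_pow]
    ring
  rw [e3] at h3
  have e4 : ∑ j ∈ range L, (∑ l ∈ range (j + 1), c l * 2 ^ l * sh l (ee l) j) * ((r : ℝ)⁻¹) ^ j =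
      ∑ l ∈ range L, (c l * 2 ^ l) * ∑ j ∈ range L, sh l (ee l) j * ((r : ℝ)⁻¹) ^ j := by
    have e5 : ∀ j ∈ range L, (∑ l ∈ range (j + 1), c l * 2 ^ l * sh l (ee l) j) * ((r : ℝ)⁻¹) ^ j =
        ∑ l ∈ range L, c l * 2 ^ l * sh l (ee l) j * ((r : ℝ)⁻¹) ^ j := by
      intro j hj
      rw [Finset.mem_range] at hj
      rw [Finset.sum_mul]
      apply Finset.sum_subset
      · intro l hl
        rw [Finset.mem_range] at hl ⊢
        omega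
      · intro l _ hl
        rw [Finset.mem_range] at hl
        have : sh l (ee l) j = 0 := by
          unfold sh
          rw [if_pos (by omega)]
        rw [this]
        ring
    rw [Finset.sum_congr rfl e5, Finset.sum_comm]
    apply Finset.sum_congr rfl
    intro l _
    rw [Finset.mul_sum]
    apply Finset.sum_congr rfl
    intro j _
    ring
  have h4 : |∑ l ∈ range L, (c l * 2 ^ l) * (((r : ℝ)⁻¹) ^ l * ((1 + (r : ℝ)⁻¹)⁻¹) ^ l) -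
      ∑ l ∈ range L, (c l * 2 ^ l) * ∑ j ∈ range L, sh l (ee l) j * ((r : ℝ)⁻¹) ^ j| ≤
      (∑ l ∈ range L, |c l * 2 ^ l| * Bl l) * ((r : ℝ)⁻¹) ^ L := by
    rw [← Finset.sum_sub_distrib, Finset.sum_mul]
    refine (Finset.abs_sum_le_sum_abs _ _).trans (Finset.sum_le_sum ?_)
    intro l _
    rw [← mul_sub, abs_mul, mul_assoc]
    exact mul_le_mul_of_nonneg_left (hBl l r hr) (abs_nonneg _)
  rw [e4, add_mul]
  have e6 : E ((r + 1) / 2) - ∑ l ∈ range L, (c l * 2 ^ l) *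
      ∑ j ∈ range L, sh l (ee l) j * ((r : ℝ)⁻¹) ^ j =
      (E ((r + 1) / 2) - ∑ l ∈ range L, (c l * 2 ^ l) *
        (((r : ℝ)⁻¹) ^ l * ((1 + (r : ℝ)⁻¹)⁻¹) ^ l)) +
      (∑ l ∈ range L, (c l * 2 ^ l) * (((r : ℝ)⁻¹) ^ l * ((1 + (r : ℝ)⁻¹)⁻¹) ^ l) -
      ∑ l ∈ range L, (c l * 2 ^ l) * ∑ j ∈ range L, sh l (ee l) j * ((r : ℝ)⁻¹) ^ j) := by ring
  rw [e6]
  exact (abs_add_le _ _).trans (add_le_add h3 h4)

/-- the sum over the even numbers -/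
theorem sum_even (f : ℕ → ℝ) (r : ℕ) : ∑ a ∈ (Ico 1 r).filter (fun a => a % 2 = 0), f a =
    ∑ a ∈ Ico 1 ((r + 1) / 2), f (2 * a) := by
  have e : (Ico 1 r).filter (fun a => a % 2 = 0) = (Ico 1 ((r + 1) / 2)).image (fun a => 2 * a) := by
    ext a
    simp only [Finset.mem_filter, Finset.mem_Ico, Finset.mem_image]
    constructor
    · rintro ⟨⟨h1, h2⟩, h3⟩
      exact ⟨a / 2, by omega, by omega⟩
    · rintro ⟨b, hb, rfl⟩
      omega
  rw [e, Finset.sum_image]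
  intro a _ b _ hab
  simp only at hab
  omega

theorem sum_odd (f : ℕ → ℝ) (r : ℕ) : ∑ a ∈ (Ico 1 r).filter (fun a => a % 2 = 1), f a =
    ∑ a ∈ Ico 1 r, f a - ∑ a ∈ (Ico 1 r).filter (fun a => a % 2 = 0), f a := by
  have h := Finset.sum_filter_add_sum_filter_not (Ico 1 r) (fun a => a % 2 = 0) f
  have e : (Ico 1 r).filter (fun a => ¬ a % 2 = 0) = (Ico 1 r).filter (fun a => a % 2 = 1) := by
    apply Finset.filter_congr
    intro a _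
    omega
  rw [e] at h
  linarith

theorem zeta_even (n : ℕ) (hn : 2 ≤ n) (p : ℕ → Prop)
    (hp : ∀ E : ℕ → ℝ, FE 0 E → FQ p 0 (fun r => E ((r + 1) / 2))) :
    FQ p 0 (fun r => ∑ a ∈ (Ico 1 r).filter (fun a => a % 2 = 0), 1 / (a : ℝ) ^ n) := by
  have h := hp _ (FE2.main.1 n hn)
  refine (h.lin (1 / 2 ^ n) 0 h).congr fun r _ _ => ?_
  rw [sum_even (fun a => 1 / (a : ℝ) ^ n), zero_mul, add_zero, Finset.mul_sum]
  apply Finset.sum_congr rfl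
  intro a _
  push_cast
  rw [mul_pow]
  ring

theorem part1 (ε : ℕ) (hε : ε < 2) (n : ℕ) (hn : 2 ≤ n) :
    FEN 2 0 (fun r => ∑ a ∈ (Ico 1 r).filter (fun a => a % 2 = ε), 1 / (a : ℝ) ^ n) := by
  have key : ∀ p : ℕ → Prop, (∀ E : ℕ → ℝ, FE 0 E → FQ p 0 (fun r => E ((r + 1) / 2))) →
      FQ p 0 (fun r => ∑ a ∈ (Ico 1 r).filter (fun a => a % 2 = ε), 1 / (a : ℝ) ^ n) := by
    intro p hp
    have h := zeta_even n hn p hp
    interval_cases ε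
    · exact h
    · refine ((FQ.of_FE (p := p) (FE2.main.1 n hn)).lin 1 (-1) h).congr fun r _ _ => ?_
      rw [sum_odd]
      ring
  exact FEN_of (key _ fun E hE => core_even hE) (key _ fun E hE => core_odd hE)

theorem log_even : FQ (fun r => r % 2 = 0) 0
    (fun r => (∑ a ∈ (Ico 1 r).filter (fun a => a % 2 = 0), 1 / (a : ℝ)) - Real.log r / 2) := by
  have h := core_even FE2.main.2
  refine (h.lin (1 / 2) (-(Real.log 2) / 2) (FQ.of_FE (FE.const 1))).congr fun r hr hp => ?_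
  have hr0 : (0 : ℝ) < r := by exact_mod_cast hr
  have hM : (((r + 1) / 2 : ℕ) : ℝ) = r / 2 := by
    have h3 : 2 * ((r + 1) / 2) = r := by omega
    have h4 : (2 : ℝ) * (((r + 1) / 2 : ℕ) : ℝ) = r := by exact_mod_cast h3
    linarith
  have e1 : ∑ a ∈ (Ico 1 r).filter (fun a => a % 2 = 0), 1 / (a : ℝ) =
      (1 / 2) * ∑ a ∈ Ico 1 ((r + 1) / 2), 1 / (a : ℝ) := by
    rw [sum_even (fun a => 1 / (a : ℝ)), Finset.mul_sum]
    apply Finset.sum_congr rfl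
    intro a _
    push_cast
    ring
  rw [e1, hM, Real.log_div hr0.ne' (by norm_num)]
  ring

theorem log_odd : FQ (fun r => r % 2 = 1) 0
    (fun r => (∑ a ∈ (Ico 1 r).filter (fun a => a % 2 = 0), 1 / (a : ℝ)) - Real.log r / 2) := by
  have h := core_odd FE2.main.2
  have h1 := h.lin (1 / 2) (-(Real.log 2) / 2) (FQ.of_FE (FE.const 1))
  have h2 := h1.lin 1 (-(1 / 2)) (FQ.of_FE (p := fun r => r % 2 = 1) (fe_of_ex ex_log))
  refine h2.congr fun r hr hp => ?_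
  have hr0 : (0 : ℝ) < r := by exact_mod_cast hr
  have hM : (((r + 1) / 2 : ℕ) : ℝ) = (r * (1 + (r : ℝ)⁻¹)) / 2 := by
    have h3 : 2 * ((r + 1) / 2) = r + 1 := by omega
    have h4 : (2 : ℝ) * (((r + 1) / 2 : ℕ) : ℝ) = r + 1 := by exact_mod_cast h3
    have h5 : (r : ℝ) * (1 + (r : ℝ)⁻¹) = r + 1 := by field_simp
    rw [h5]
    linarith
  have e1 : ∑ a ∈ (Ico 1 r).filter (fun a => a % 2 = 0), 1 / (a : ℝ) =
      (1 / 2) * ∑ a ∈ Ico 1 ((r + 1) / 2), 1 / (a : ℝ) := by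
    rw [sum_even (fun a => 1 / (a : ℝ)), Finset.mul_sum]
    apply Finset.sum_congr rfl
    intro a _
    push_cast
    ring
  rw [e1, hM, Real.log_div (by positivity) (by norm_num), Real.log_mul hr0.ne' (by positivity)]
  ring

theorem part2 (ε : ℕ) (hε : ε < 2) :
    FEN 2 0 (fun r => (∑ a ∈ (Ico 1 r).filter (fun a => a % 2 = ε), 1 / (a : ℝ)) -
      Real.log r / 2) := by
  have key : ∀ p : ℕ → Prop, FQ p 0 (fun r =>
      (∑ a ∈ (Ico 1 r).filter (fun a => a % 2 = 0), 1 / (a : ℝ)) - Real.log r / 2) →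
      FQ p 0 (fun r => (∑ a ∈ (Ico 1 r).filter (fun a => a % 2 = ε), 1 / (a : ℝ)) -
        Real.log r / 2) := by
    intro p h
    interval_cases ε
    · exact h
    · refine ((FQ.of_FE (p := p) FE2.main.2).lin 1 (-1) h).congr fun r _ _ => ?_
      rw [sum_odd]
      ring
  exact FEN_of (key _ log_even) (key _ log_odd)

/-- sums of powers are polynomials -/
theorem ex_poly (n : ℕ) : ∃ S : ℝ[X], S.natDegree ≤ n + 1 ∧
    ∀ M : ℕ, 1 ≤ M → ∑ a ∈ Ico 1 M, (a : ℝ) ^ n = S.eval (M : ℝ) := by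
  refine ⟨(∑ i ∈ range (n + 1), C (((_root_.bernoulli i * ((n + 1).choose i) / (n + 1) : ℚ)) : ℝ) *
    X ^ (n + 1 - i)) - C ((0 : ℝ) ^ n), ?_, ?_⟩
  · refine (natDegree_sub_le _ _).trans (max_le ?_ (by rw [natDegree_C]; omega))
    apply natDegree_sum_le_of_forall_le
    intro i _
    exact (natDegree_C_mul_X_pow_le _ _).trans (by omega)
  · intro M hM
    have h1 : ∑ k ∈ range M, (k : ℝ) ^ n = ∑ i ∈ range (n + 1),
        (((_root_.bernoulli i * ((n + 1).choose i) / (n + 1) : ℚ)) : ℝ) * (M : ℝ) ^ (n + 1 - i) := by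
      have h2 := _root_.sum_range_pow M n
      have h3 : ((∑ k ∈ range M, (k : ℚ) ^ n : ℚ) : ℝ) = ∑ k ∈ range M, (k : ℝ) ^ n := by
        push_cast
        rfl
      rw [← h3, h2]
      push_cast
      apply Finset.sum_congr rfl
      intro i _
      ring
    have h4 : ∑ k ∈ range M, (k : ℝ) ^ n = (0 : ℝ) ^ n + ∑ a ∈ Ico 1 M, (a : ℝ) ^ n := by
      rw [Finset.range_eq_Ico, Finset.sum_eq_sum_Ico_succ_bot (by omega : 0 < M)]
      simp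
    rw [eval_sub, eval_finsetSum, eval_C]
    have h5 : ∀ i ∈ range (n + 1), eval (M : ℝ)
        (C (((_root_.bernoulli i * ((n + 1).choose i) / (n + 1) : ℚ)) : ℝ) * X ^ (n + 1 - i)) =
        (((_root_.bernoulli i * ((n + 1).choose i) / (n + 1) : ℚ)) : ℝ) * (M : ℝ) ^ (n + 1 - i) := by
      intro i _
      simp only [eval_mul, eval_C, eval_pow, eval_X]
    rw [Finset.sum_congr rfl h5, ← h1, h4]
    ring

theorem natDegree_comp_aux {S : ℝ[X]} {n : ℕ} (hS : S.natDegree ≤ n + 1) (b : ℝ) :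
    (C ((2 : ℝ) ^ n) * S.comp (C (1 / 2 : ℝ) * (X + C b))).natDegree ≤ n + 1 := by
  refine (natDegree_C_mul_le _ _).trans ?_
  rw [natDegree_comp]
  have h1 : (C (1 / 2 : ℝ) * (X + C b)).natDegree ≤ 1 := by
    refine (natDegree_C_mul_le _ _).trans ?_
    rw [natDegree_X_add_C]
  nlinarith

theorem part3 (ε : ℕ) (hε : ε < 2) (n : ℕ) :
    FEN 2 (n + 1) (fun r => ∑ a ∈ (Ico 1 r).filter (fun a => a % 2 = ε), (a : ℝ) ^ n) := by
  obtain ⟨S, hS, hSe⟩ := ex_poly n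
  have ev : ∀ r : ℕ, 1 ≤ r → ∑ a ∈ (Ico 1 r).filter (fun a => a % 2 = 0), (a : ℝ) ^ n =
      2 ^ n * S.eval (((r + 1) / 2 : ℕ) : ℝ) := by
    intro r hr
    rw [sum_even (fun a => (a : ℝ) ^ n), ← hSe _ (by omega), Finset.mul_sum]
    apply Finset.sum_congr rfl
    intro a _
    push_cast
    rw [mul_pow]
  have k0 : FQ (fun r => r % 2 = 0) (n + 1)
      (fun r => ∑ a ∈ (Ico 1 r).filter (fun a => a % 2 = 0), (a : ℝ) ^ n) := by
    refine (FQ.of_FE (FE.poly _ (natDegree_comp_aux hS 0))).congr fun r hr hp => ?_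
    rw [ev r hr]
    have hM : (((r + 1) / 2 : ℕ) : ℝ) = 1 / 2 * (r + 0) := by
      have h3 : 2 * ((r + 1) / 2) = r := by omega
      have h4 : (2 : ℝ) * (((r + 1) / 2 : ℕ) : ℝ) = r := by exact_mod_cast h3
      linarith
    rw [hM]
    simp only [eval_mul, eval_C, eval_comp, eval_add, eval_X]
  have k1 : FQ (fun r => r % 2 = 1) (n + 1)
      (fun r => ∑ a ∈ (Ico 1 r).filter (fun a => a % 2 = 0), (a : ℝ) ^ n) := by
    refine (FQ.of_FE (FE.poly _ (natDegree_comp_aux hS 1))).congr fun r hr hp => ?_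
    rw [ev r hr]
    have hM : (((r + 1) / 2 : ℕ) : ℝ) = 1 / 2 * (r + 1) := by
      have h3 : 2 * ((r + 1) / 2) = r + 1 := by omega
      have h4 : (2 : ℝ) * (((r + 1) / 2 : ℕ) : ℝ) = r + 1 := by exact_mod_cast h3
      linarith
    rw [hM]
    simp only [eval_mul, eval_C, eval_comp, eval_add, eval_X]
  have key : ∀ p : ℕ → Prop, FQ p (n + 1) (fun r =>
      ∑ a ∈ (Ico 1 r).filter (fun a => a % 2 = 0), (a : ℝ) ^ n) →
      FQ p (n + 1) (fun r => ∑ a ∈ (Ico 1 r).filter (fun a => a % 2 = ε), (a : ℝ) ^ n) := by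
    intro p h
    interval_cases ε
    · exact h
    · refine ((FQ.of_FE (p := p) (FE.poly S hS)).lin 1 (-1) h).congr fun r hr _ => ?_
      rw [sum_odd, hSe r hr]
      ring
  exact FEN_of (key _ k0) (key _ k1)

theorem main : S_fe2o := by
  intro ε hε
  exact ⟨fun n hn => part1 ε hε n hn, part2 ε hε, fun n => part3 ε hε n⟩

end H572AE.FE2O
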