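import Mathlib
import Pool.Agent.H572.AE.Stm4

/-!
# AE4 FE3: the Euler-Maclaurin expansion of a Riemann sum of a smooth function (helper383)
-/

set_option autoImplicit false

open Finset
open scoped ContDiff Nat

namespace H572AE.FE3

/-- the coefficients of the expansion -/
noncomputable def cc : ℕ → (ℝ → ℝ) → ℝ
  | 0, f => ∫ x in (0 : ℝ)..1, f x
  | l + 1, f => -∑ i ∈ range (l + 1), ((i + 2)! : ℝ)⁻¹ * cc (l - i) (iteratedDeriv (i + 1) f)
termination_by l _ => l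
decreasing_by omega

/-- the Riemann sum without the factor `1 / r` -/
noncomputable def E (f : ℝ → ℝ) (r : ℕ) : ℝ := ∑ a ∈ range r, f ((a : ℝ) / r)

/-- smooth functions near the unit interval -/
def Sm (f : ℝ → ℝ) : Prop := ContDiffOn ℝ ∞ f (Set.Ioo (-1) 2)

lemma Sm.deriv {f : ℝ → ℝ} (hf : Sm f) : Sm (deriv f) :=
  ((contDiffOn_infty_iff_deriv_of_isOpen isOpen_Ioo).1 hf).2

lemma Sm.iter {f : ℝ → ℝ} (hf : Sm f) (k : ℕ) : Sm (iteratedDeriv k f) := by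
  induction k with
  | zero => rw [iteratedDeriv_zero]; exact hf
  | succ k ih => rw [iteratedDeriv_succ]; exact ih.deriv

lemma Icc_sub : Set.Icc (0 : ℝ) 1 ⊆ Set.Ioo (-1) 2 := fun x hx =>
  ⟨by linarith [hx.1], by linarith [hx.2]⟩

lemma Sm.bound {f : ℝ → ℝ} (hf : Sm f) : ∃ C : ℝ, 0 ≤ C ∧ ∀ x ∈ Set.Icc (0 : ℝ) 1, |f x| ≤ C := by
  obtain ⟨C, hC⟩ := isCompact_Icc.exists_bound_of_continuousOn (hf.continuousOn.mono Icc_sub)
  refine ⟨C, ?_, fun x hx => by simpa using hC x hx⟩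
  have h0 := hC 0 (Set.left_mem_Icc.2 zero_le_one)
  exact (norm_nonneg _).trans h0

/-- Taylor's formula -/
lemma taylor {F : ℝ → ℝ} (hF : Sm F) (n : ℕ) : ∃ C : ℝ, 0 ≤ C ∧ ∀ x h : ℝ, 0 ≤ x → 0 < h →
    x + h ≤ 1 → |F (x + h) - ∑ k ∈ range (n + 1), (k ! : ℝ)⁻¹ * h ^ k * iteratedDeriv k F x| ≤
      C * h ^ (n + 1) := by
  obtain ⟨C, hC0, hC⟩ := (hF.iter (n + 1)).bound
  refine ⟨C / n !, by positivity, fun x h hx hh hxh => ?_⟩
  have hle : x ≤ x + h := by linarith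
  have hlt : x < x + h := by linarith
  have hsub : Set.Icc x (x + h) ⊆ Set.Icc (0 : ℝ) 1 := Set.Icc_subset_Icc hx hxh
  have hu : UniqueDiffOn ℝ (Set.Icc x (x + h)) := uniqueDiffOn_Icc hlt
  have hd : ∀ (k : ℕ), ∀ y ∈ Set.Icc x (x + h),
      iteratedDerivWithin k F (Set.Icc x (x + h)) y = iteratedDeriv k F y := by
    intro k y hy
    refine iteratedDerivWithin_eq_iteratedDeriv hu ?_ hy
    have h1 : ContDiffAt ℝ ∞ F y := hF.contDiffAt (isOpen_Ioo.mem_nhds (Icc_sub (hsub hy)))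
    exact h1.of_le (by exact_mod_cast le_top)
  have hcd : ContDiffOn ℝ (n + 1) F (Set.Icc x (x + h)) :=
    (hF.mono (hsub.trans Icc_sub)).of_le (by exact_mod_cast le_top)
  have h1 := taylor_mean_remainder_bound (f := F) (a := x) (b := x + h) (C := C) (x := x + h)
    (n := n) hle hcd ⟨hle, le_rfl⟩ (fun y hy => by
      rw [hd (n + 1) y hy, Real.norm_eq_abs]
      exact hC y (hsub hy))
  rw [taylor_within_apply, Real.norm_eq_abs] at h1
  have h2 : ∑ k ∈ range (n + 1), ((k ! : ℝ)⁻¹ * (x + h - x) ^ k) •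
      iteratedDerivWithin k F (Set.Icc x (x + h)) x =
      ∑ k ∈ range (n + 1), (k ! : ℝ)⁻¹ * h ^ k * iteratedDeriv k F x := by
    apply Finset.sum_congr rfl
    intro k _
    rw [hd k x ⟨le_rfl, hle⟩, smul_eq_mul, add_sub_cancel_left]
  rw [h2, add_sub_cancel_left] at h1
  refine h1.trans (le_of_eq ?_)
  ring

/-- the primitive -/
lemma primitive {f : ℝ → ℝ} (hf : Sm f) : ∃ F : ℝ → ℝ, Sm F ∧ F 1 - F 0 = ∫ x in (0 : ℝ)..1, f x ∧
    ∀ k, ∀ x ∈ Set.Icc (0 : ℝ) 1, iteratedDeriv (k + 1) F x = iteratedDeriv k f x := by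
  have h0 : (0 : ℝ) ∈ Set.Ioo (-1 : ℝ) 2 := ⟨by norm_num, by norm_num⟩
  have hder : ∀ x ∈ Set.Ioo (-1 : ℝ) 2,
      HasDerivAt (fun u => ∫ t in (0 : ℝ)..u, f t) (f x) x := by
    intro x hx
    have hsub : Set.uIcc 0 x ⊆ Set.Ioo (-1 : ℝ) 2 := Set.ordConnected_Ioo.uIcc_subset h0 hx
    refine intervalIntegral.integral_hasDerivAt_right
      (hf.continuousOn.mono hsub).intervalIntegrable ?_ ?_
    · exact hf.continuousOn.stronglyMeasurableAtFilter isOpen_Ioo x hx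
    · exact hf.continuousOn.continuousAt (isOpen_Ioo.mem_nhds hx)
  have heq : Set.EqOn (deriv fun u => ∫ t in (0 : ℝ)..u, f t) f (Set.Ioo (-1 : ℝ) 2) :=
    fun x hx => (hder x hx).deriv
  refine ⟨fun u => ∫ t in (0 : ℝ)..u, f t, ?_, ?_, ?_⟩
  · refine (contDiffOn_infty_iff_deriv_of_isOpen isOpen_Ioo).2 ⟨fun x hx =>
      (hder x hx).differentiableAt.differentiableWithinAt, hf.congr heq⟩
  · change (∫ t in (0 : ℝ)..1, f t) - (∫ t in (0 : ℝ)..0, f t) = _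
    rw [intervalIntegral.integral_same, sub_zero]
  · intro k x hx
    rw [iteratedDeriv_succ']
    exact heq.iteratedDeriv_of_isOpen isOpen_Ioo k (Icc_sub hx)

/-- the summed Taylor formula -/
lemma summed {f : ℝ → ℝ} (hf : Sm f) (L : ℕ) : ∃ C : ℝ, ∀ r : ℕ, 1 ≤ r →
    |r * (∫ x in (0 : ℝ)..1, f x) - ∑ i ∈ range (L + 1), ((i + 1)! : ℝ)⁻¹ * ((r : ℝ)⁻¹) ^ i *
      E (iteratedDeriv i f) r| ≤ C * ((r : ℝ)⁻¹) ^ L := by
  obtain ⟨F, hF, hF01, hFd⟩ := primitive hf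
  obtain ⟨C, hC0, hC⟩ := taylor hF (L + 1)
  refine ⟨C, fun r hr => ?_⟩
  have hr0 : (0 : ℝ) < r := by exact_mod_cast hr
  have hh : (0 : ℝ) < (r : ℝ)⁻¹ := by positivity
  have hrh : (r : ℝ) * (r : ℝ)⁻¹ = 1 := mul_inv_cancel₀ hr0.ne'
  have hterm : ∀ a ∈ range r, |(F (((a + 1 : ℕ) : ℝ) / r) - F ((a : ℝ) / r)) -
      ∑ i ∈ range (L + 1), ((i + 1)! : ℝ)⁻¹ * ((r : ℝ)⁻¹) ^ (i + 1) *
        iteratedDeriv i f ((a : ℝ) / r)| ≤ C * ((r : ℝ)⁻¹) ^ (L + 2) := by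
    intro a ha
    rw [Finset.mem_range] at ha
    have ha' : ((a : ℝ) + 1) ≤ r := by exact_mod_cast ha
    have hx0 : (0 : ℝ) ≤ (a : ℝ) / r := by positivity
    have e1 : (a : ℝ) / r + (r : ℝ)⁻¹ = ((a + 1 : ℕ) : ℝ) / r := by
      push_cast
      rw [add_div, one_div]
    have hx1 : (a : ℝ) / r + (r : ℝ)⁻¹ ≤ 1 := by
      rw [e1, div_le_one hr0]
      push_cast
      exact ha'
    have hxI : (a : ℝ) / r ∈ Set.Icc (0 : ℝ) 1 := ⟨hx0, by linarith⟩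
    have h1 := hC ((a : ℝ) / r) (r : ℝ)⁻¹ hx0 hh hx1
    rw [e1, Finset.sum_range_succ'] at h1
    rw [Nat.factorial_zero, pow_zero, iteratedDeriv_zero] at h1
    have h2 : ∑ k ∈ range (L + 1), ((k + 1)! : ℝ)⁻¹ * ((r : ℝ)⁻¹) ^ (k + 1) *
        iteratedDeriv (k + 1) F ((a : ℝ) / r) =
        ∑ i ∈ range (L + 1), ((i + 1)! : ℝ)⁻¹ * ((r : ℝ)⁻¹) ^ (i + 1) *
          iteratedDeriv i f ((a : ℝ) / r) := by
      apply Finset.sum_congr rfl
      intro k _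
      rw [hFd k _ hxI]
    rw [h2] at h1
    refine le_of_eq_of_le ?_ h1
    congr 1
    push_cast
    ring
  have hsum : |(F 1 - F 0) - ∑ i ∈ range (L + 1), ((i + 1)! : ℝ)⁻¹ * ((r : ℝ)⁻¹) ^ (i + 1) *
      E (iteratedDeriv i f) r| ≤ r * (C * ((r : ℝ)⁻¹) ^ (L + 2)) := by
    have e1 : (F 1 - F 0) - ∑ i ∈ range (L + 1), ((i + 1)! : ℝ)⁻¹ * ((r : ℝ)⁻¹) ^ (i + 1) *
        E (iteratedDeriv i f) r =
        ∑ a ∈ range r, ((F (((a + 1 : ℕ) : ℝ) / r) - F ((a : ℝ) / r)) -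
          ∑ i ∈ range (L + 1), ((i + 1)! : ℝ)⁻¹ * ((r : ℝ)⁻¹) ^ (i + 1) *
            iteratedDeriv i f ((a : ℝ) / r)) := by
      rw [Finset.sum_sub_distrib, Finset.sum_range_sub (fun a : ℕ => F ((a : ℝ) / r)) r,
        div_self hr0.ne', Nat.cast_zero, zero_div]
      congr 1
      rw [Finset.sum_comm]
      apply Finset.sum_congr rfl
      intro i _
      unfold E
      rw [Finset.mul_sum]
    rw [e1]
    refine (Finset.abs_sum_le_sum_abs _ _).trans ?_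
    refine (Finset.sum_le_sum hterm).trans ?_
    rw [Finset.sum_const, Finset.card_range, nsmul_eq_mul]
  rw [← hF01]
  have e2 : (r : ℝ) * (F 1 - F 0) - ∑ i ∈ range (L + 1), ((i + 1)! : ℝ)⁻¹ * ((r : ℝ)⁻¹) ^ i *
      E (iteratedDeriv i f) r = r * ((F 1 - F 0) -
      ∑ i ∈ range (L + 1), ((i + 1)! : ℝ)⁻¹ * ((r : ℝ)⁻¹) ^ (i + 1) *
      E (iteratedDeriv i f) r) := by
    rw [mul_sub (r : ℝ) (F 1 - F 0), Finset.mul_sum]
    congr 1
    apply Finset.sum_congr rfl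
    intro i _
    rw [pow_succ]
    linear_combination (-((i + 1)! : ℝ)⁻¹ * ((r : ℝ)⁻¹) ^ i * E (iteratedDeriv i f) r) * hrh
  rw [e2, abs_mul, abs_of_pos hr0]
  refine (mul_le_mul_of_nonneg_left hsum hr0.le).trans (le_of_eq ?_)
  rw [pow_succ, pow_succ]
  linear_combination (C * ((r : ℝ)⁻¹) ^ L * ((r : ℝ) * (r : ℝ)⁻¹ + 1)) * hrh

/-- the expansion to all orders -/
lemma main' (L : ℕ) : ∀ f : ℝ → ℝ, Sm f → ∃ B : ℝ, ∀ r : ℕ, 1 ≤ r →
    |E f r - ∑ l ∈ range L, cc l f * (r * ((r : ℝ)⁻¹) ^ l)| ≤ B * (r * ((r : ℝ)⁻¹) ^ L) := by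
  induction L using Nat.strong_induction_on with
  | _ L ih =>
    intro f hf
    cases L with
    | zero =>
      obtain ⟨C, hC0, hC⟩ := hf.bound
      refine ⟨C, fun r hr => ?_⟩
      have hr0 : (0 : ℝ) < r := by exact_mod_cast hr
      rw [Finset.sum_range_zero, sub_zero, pow_zero, mul_one]
      unfold E
      refine (Finset.abs_sum_le_sum_abs _ _).trans ?_
      refine (Finset.sum_le_sum (g := fun _ => C) fun a ha => hC _ ⟨by positivity, ?_⟩).trans ?_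
      · rw [div_le_one hr0]
        exact_mod_cast (Finset.mem_range.1 ha).le
      · rw [Finset.sum_const, Finset.card_range, nsmul_eq_mul, mul_comm]
    | succ L =>
      obtain ⟨C, hC⟩ := summed hf L
      have hB : ∀ k, ∃ B : ℝ, k < L → ∀ r : ℕ, 1 ≤ r →
          |E (iteratedDeriv (k + 1) f) r - ∑ m ∈ range (L - k),
            cc m (iteratedDeriv (k + 1) f) * (r * ((r : ℝ)⁻¹) ^ m)| ≤
              B * (r * ((r : ℝ)⁻¹) ^ (L - k)) := by
        intro k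
        obtain ⟨B, hB⟩ := ih (L - k) (by omega) _ (hf.iter (k + 1))
        exact ⟨B, fun _ => hB⟩
      choose B hB using hB
      refine ⟨C + ∑ k ∈ range L, ((k + 2)! : ℝ)⁻¹ * B k, fun r hr => ?_⟩
      have hr0 : (0 : ℝ) < r := by exact_mod_cast hr
      have hh : (0 : ℝ) < (r : ℝ)⁻¹ := by positivity
      have hrh : (r : ℝ) * (r : ℝ)⁻¹ = 1 := mul_inv_cancel₀ hr0.ne'
      have h1 := hC r hr
      rw [Finset.sum_range_succ'] at h1
      rw [pow_zero, iteratedDeriv_zero, zero_add, Nat.factorial_one, Nat.cast_one, inv_one,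
        one_mul, one_mul] at h1
      -- the terms with `k`
      have h2 : ∀ k ∈ range L, |((k + 2)! : ℝ)⁻¹ * ((r : ℝ)⁻¹) ^ (k + 1) *
          E (iteratedDeriv (k + 1) f) r - ∑ m ∈ range (L - k),
            ((k + 2)! : ℝ)⁻¹ * cc m (iteratedDeriv (k + 1) f) * ((r : ℝ)⁻¹) ^ (k + m)| ≤
          ((k + 2)! : ℝ)⁻¹ * B k * ((r : ℝ)⁻¹) ^ L := by
        intro k hk
        have hkL := Finset.mem_range.1 hk
        have h3 := hB k hkL r hr
        have hf0 : (0 : ℝ) < ((k + 2)! : ℝ)⁻¹ := by positivity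
        have h4 : (0 : ℝ) < ((k + 2)! : ℝ)⁻¹ * ((r : ℝ)⁻¹) ^ (k + 1) := by positivity
        have h5 := mul_le_mul_of_nonneg_left h3 h4.le
        rw [← abs_of_pos h4, ← abs_mul, abs_of_pos h4] at h5
        have e1 : ((k + 2)! : ℝ)⁻¹ * ((r : ℝ)⁻¹) ^ (k + 1) * (E (iteratedDeriv (k + 1) f) r -
            ∑ m ∈ range (L - k), cc m (iteratedDeriv (k + 1) f) * (r * ((r : ℝ)⁻¹) ^ m)) =
            ((k + 2)! : ℝ)⁻¹ * ((r : ℝ)⁻¹) ^ (k + 1) *
          E (iteratedDeriv (k + 1) f) r - ∑ m ∈ range (L - k),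
            ((k + 2)! : ℝ)⁻¹ * cc m (iteratedDeriv (k + 1) f) * ((r : ℝ)⁻¹) ^ (k + m) := by
          rw [mul_sub, Finset.mul_sum]
          congr 1
          apply Finset.sum_congr rfl
          intro m _
          rw [pow_succ, pow_add]
          linear_combination (((k + 2)! : ℝ)⁻¹ * ((r : ℝ)⁻¹) ^ k * ((r : ℝ)⁻¹) ^ m *
            cc m (iteratedDeriv (k + 1) f)) * hrh
        have e2 : ((k + 2)! : ℝ)⁻¹ * ((r : ℝ)⁻¹) ^ (k + 1) *
            (B k * (r * ((r : ℝ)⁻¹) ^ (L - k))) = ((k + 2)! : ℝ)⁻¹ * B k * ((r : ℝ)⁻¹) ^ L := by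
          have e3 : ((r : ℝ)⁻¹) ^ L = ((r : ℝ)⁻¹) ^ k * ((r : ℝ)⁻¹) ^ (L - k) := by
            rw [← pow_add]
            congr 1
            omega
          rw [e3, pow_succ]
          linear_combination (((k + 2)! : ℝ)⁻¹ * ((r : ℝ)⁻¹) ^ k * ((r : ℝ)⁻¹) ^ (L - k) *
            B k) * hrh
        rw [e1, e2] at h5
        exact h5
      have h3 : |∑ k ∈ range L, ((k + 2)! : ℝ)⁻¹ * ((r : ℝ)⁻¹) ^ (k + 1) *
          E (iteratedDeriv (k + 1) f) r - ∑ k ∈ range L, ∑ m ∈ range (L - k),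
            ((k + 2)! : ℝ)⁻¹ * cc m (iteratedDeriv (k + 1) f) * ((r : ℝ)⁻¹) ^ (k + m)| ≤
          (∑ k ∈ range L, ((k + 2)! : ℝ)⁻¹ * B k) * ((r : ℝ)⁻¹) ^ L := by
        rw [← Finset.sum_sub_distrib, Finset.sum_mul]
        exact (Finset.abs_sum_le_sum_abs _ _).trans (Finset.sum_le_sum h2)
      have h4 : ∑ k ∈ range L, ∑ m ∈ range (L - k),
            ((k + 2)! : ℝ)⁻¹ * cc m (iteratedDeriv (k + 1) f) * ((r : ℝ)⁻¹) ^ (k + m) =
          -∑ l ∈ range L, cc (l + 1) f * ((r : ℝ)⁻¹) ^ l := by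
        rw [← Finset.sum_range_diag_flip L (fun k m =>
          ((k + 2)! : ℝ)⁻¹ * cc m (iteratedDeriv (k + 1) f) * ((r : ℝ)⁻¹) ^ (k + m)),
          ← Finset.sum_neg_distrib]
        apply Finset.sum_congr rfl
        intro l _
        rw [cc, neg_mul, neg_neg, Finset.sum_mul]
        apply Finset.sum_congr rfl
        intro k hk
        have hkl := Finset.mem_range.1 hk
        have e1 : k + (l - k) = l := by omega
        rw [e1]
      rw [h4] at h3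
      have h5 : ∑ l ∈ range (L + 1), cc l f * (r * ((r : ℝ)⁻¹) ^ l) =
          ∑ l ∈ range L, cc (l + 1) f * ((r : ℝ)⁻¹) ^ l + r * ∫ x in (0 : ℝ)..1, f x := by
        rw [Finset.sum_range_succ']
        have e0 : cc 0 f = ∫ x in (0 : ℝ)..1, f x := by rw [cc]
        rw [e0, pow_zero, mul_one, mul_comm (∫ x in (0 : ℝ)..1, f x)]
        congr 1
        apply Finset.sum_congr rfl
        intro l _
        rw [pow_succ]
        linear_combination (cc (l + 1) f * ((r : ℝ)⁻¹) ^ l) * hrh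
      have h6 : (r : ℝ) * ((r : ℝ)⁻¹) ^ (L + 1) = ((r : ℝ)⁻¹) ^ L := by
        rw [pow_succ]
        linear_combination (((r : ℝ)⁻¹) ^ L) * hrh
      rw [h5, h6]
      rw [abs_le] at h1 h3 ⊢
      constructor
      · linarith [h1.1, h1.2, h3.1, h3.2]
      · linarith [h1.1, h1.2, h3.1, h3.2]

/-- **FE3.** -/
theorem main : H572AE.S_fe3 := by
  intro f hf
  refine ⟨fun l => cc l f, fun L => ?_⟩
  obtain ⟨B, hB⟩ := main' L f hf
  refine ⟨B, fun r hr => ?_⟩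
  have hr0 : (r : ℝ) ≠ 0 := by
    have : (0 : ℝ) < r := by exact_mod_cast hr
    exact this.ne'
  have hz : ∀ l : ℕ, (r : ℝ) ^ (((1 : ℕ) : ℤ) - (l : ℤ)) = r * ((r : ℝ)⁻¹) ^ l := by
    intro l
    rw [zpow_sub₀ hr0, zpow_natCast, zpow_natCast, pow_one, inv_pow, div_eq_mul_inv]
  have h1 := hB r hr
  rw [← hz L] at h1
  have h2 : ∑ l ∈ range L, cc l f * (r * ((r : ℝ)⁻¹) ^ l) =
      ∑ l ∈ range L, cc l f * (r : ℝ) ^ (((1 : ℕ) : ℤ) - (l : ℤ)) := by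
    apply Finset.sum_congr rfl
    intro l _
    rw [hz l]
  rw [h2] at h1
  exact h1

end H572AE.FE3
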