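import Mathlib
import Pool.Agent.H572.AE.Stm4
import Pool.Agent.H572.AE.CSC

/-!
FE4 (project AE of helper572): even powers of the cosecant minus the principal parts at both ends are smooth.
-/

set_option autoImplicit false

open Finset
open scoped ContDiff

namespace H572AE.FE4

theorem reindex (g : ℕ) (d : ℕ → ℝ) (y : ℝ) :
    ∑ s ∈ Icc 1 g, d (s - 1) / y ^ (2 * s) = ∑ k ∈ range g, d k / y ^ (2 * (k + 1)) := by
  symm
  apply Finset.sum_nbij (fun k => k + 1)
  · intro k hk
    rw [Finset.mem_range] at hk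
    rw [Finset.mem_Icc]
    omega
  · intro a _ b _ hab
    simpa using hab
  · intro s hs
    rw [Finset.mem_coe, Finset.mem_Icc] at hs
    exact ⟨s - 1, by rw [Finset.mem_coe, Finset.mem_range]; omega, by simp only; omega⟩
  · intro k _
    rw [Nat.add_sub_cancel]

theorem main : H572AE.S_fe4 := by
  intro g hg
  obtain ⟨d, hd, rho, h1, h2⟩ := H572AE.CSC.all g hg
  have hpi := Real.pi_pos
  refine ⟨fun s => d (s - 1), ?_, ?_⟩
  · intro s hs
    rw [Finset.mem_Icc] at hs
    exact hd (s - 1) (by omega)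
  obtain ⟨P, hP⟩ : ∃ P : ℝ → ℝ, P = fun t => ∑ s ∈ Icc 1 g, d (s - 1) / (Real.pi * t) ^ (2 * s) :=
    ⟨_, rfl⟩
  obtain ⟨R1, hR1⟩ : ∃ R1 : ℝ → ℝ, R1 = fun x => rho (Real.pi * x) - P (1 - x) := ⟨_, rfl⟩
  -- the value on (0,1)
  have hval : ∀ x : ℝ, 0 < x → x < 1 →
      1 / Real.sin (Real.pi * x) ^ (2 * g) = P x + P (1 - x) + R1 x := by
    intro x hx0 hx1
    have h3 : Real.pi * x ∈ Set.Ioo 0 Real.pi := ⟨by positivity, by nlinarith⟩
    rw [h2 _ h3, ← reindex, hR1, hP]
    simp only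
    ring
  have hsym : ∀ x : ℝ, 0 < x → x < 1 → R1 (1 - x) = R1 x := by
    intro x hx0 hx1
    have h3 := hval x hx0 hx1
    have h4 := hval (1 - x) (by linarith) (by linarith)
    have h5 : Real.sin (Real.pi * (1 - x)) = Real.sin (Real.pi * x) := by
      rw [show Real.pi * (1 - x) = Real.pi - Real.pi * x by ring, Real.sin_pi_sub]
    rw [h5, h3, sub_sub_cancel] at h4
    linarith
  -- smoothness of R1 on (-1,1)
  have hR1s : ContDiffOn ℝ ∞ R1 (Set.Ioo (-1) 1) := by
    rw [hR1]
    apply ContDiffOn.sub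
    · have h3 : ContDiffOn ℝ ∞ rho (Set.Ioo (-Real.pi) Real.pi) := h1.contDiffOn isOpen_Ioo.uniqueDiffOn
      refine h3.comp (contDiff_const.mul contDiff_id).contDiffOn ?_
      intro x hx
      exact ⟨by nlinarith [hx.1], by nlinarith [hx.2]⟩
    · rw [hP]
      apply ContDiffOn.sum
      intro s _
      apply ContDiffOn.div contDiffOn_const
      · exact ((contDiff_const.mul (contDiff_const.sub contDiff_id)).pow _).contDiffOn
      · intro x hx
        apply pow_ne_zero
        apply mul_ne_zero hpi.ne'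
        have h4 := hx.2
        exact sub_ne_zero.2 (ne_of_gt h4)
  have hR2s : ContDiffOn ℝ ∞ (fun x => R1 (1 - x)) (Set.Ioo 0 2) := by
    refine hR1s.comp (contDiff_const.sub contDiff_id).contDiffOn ?_
    intro x hx
    exact ⟨by linarith [hx.2], by linarith [hx.1]⟩
  refine ⟨fun x => if x < 1 / 2 then R1 x else R1 (1 - x), ?_, ?_⟩
  · intro x hx
    rcases lt_or_ge x 1 with h | h
    · have h3 : ContDiffAt ℝ ∞ R1 x := hR1s.contDiffAt (isOpen_Ioo.mem_nhds ⟨hx.1, h⟩)
      refine (h3.congr_of_eventuallyEq ?_).contDiffWithinAt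
      filter_upwards [isOpen_Ioo.mem_nhds (⟨hx.1, h⟩ : x ∈ Set.Ioo (-1 : ℝ) 1)] with y hy
      split_ifs with hy2
      · rfl
      · exact hsym y (by linarith [not_lt.1 hy2]) hy.2
    · have h3 : ContDiffAt ℝ ∞ (fun x => R1 (1 - x)) x :=
        hR2s.contDiffAt (isOpen_Ioo.mem_nhds ⟨by linarith, hx.2⟩)
      refine (h3.congr_of_eventuallyEq ?_).contDiffWithinAt
      filter_upwards [isOpen_Ioo.mem_nhds (⟨by linarith, hx.2⟩ : x ∈ Set.Ioo (0 : ℝ) 2)] with y hy
      split_ifs with hy2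
      · exact (hsym y hy.1 (by linarith)).symm
      · rfl
  · intro x hx0 hx1
    have h3 : (if x < 1 / 2 then R1 x else R1 (1 - x)) = R1 x := by
      split_ifs with hy2
      · rfl
      · exact hsym x hx0 hx1
    simp only
    rw [h3, hval x hx0 hx1, hP]
    simp only
    rw [← Finset.sum_add_distrib]
    congr 1
    apply Finset.sum_congr rfl
    intro s _
    ring

end H572AE.FE4
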