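import Mathlib
import Pool.Agent.H572.AE.Stm5
import Pool.Agent.H572.AE.CSC2

/-!
FE4O (project AE of helper572): odd powers of the cosecant minus the principal parts at both ends are
smooth (helper628, adapted from FE4).
-/

set_option autoImplicit false

open Finset
open scoped ContDiff

namespace H572AE.FE4O

theorem reindex {g : ℕ} (hg : 1 ≤ g) {c : ℕ → ℝ} (hc : ∀ s, (s + (2 * g - 1)) % 2 = 1 → c s = 0)
    (y : ℝ) :
    ∑ s ∈ range (2 * g - 1 + 1), c s / y ^ s = ∑ s ∈ Icc 1 g, c (2 * s - 1) / y ^ (2 * s - 1) := by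
  have h1 : ∑ s ∈ Icc 1 g, c (2 * s - 1) / y ^ (2 * s - 1) =
      ∑ t ∈ (Icc 1 g).image (fun s => 2 * s - 1), c t / y ^ t := by
    rw [Finset.sum_image]
    intro a ha b hb hab
    rw [Finset.mem_coe, Finset.mem_Icc] at ha hb
    simp only at hab
    omega
  rw [h1]
  symm
  apply Finset.sum_subset
  · intro t ht
    rw [Finset.mem_image] at ht
    obtain ⟨s, hs, rfl⟩ := ht
    rw [Finset.mem_Icc] at hs
    rw [Finset.mem_range]
    omega
  · intro t ht ht2
    rw [Finset.mem_range] at ht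
    rcases Nat.mod_two_eq_zero_or_one t with h | h
    · rw [hc t (by omega), zero_div]
    · exfalso
      apply ht2
      rw [Finset.mem_image]
      exact ⟨(t + 1) / 2, by rw [Finset.mem_Icc]; omega, by omega⟩

theorem main : H572AE.S_fe4o := by
  intro g hg
  obtain ⟨c, -, -, -, cpos, cpar, rho, h1, h2⟩ := (H572AE.CSC2.all (2 * g - 2)).1
  have hA : 2 * g - 2 + 1 = 2 * g - 1 := by omega
  rw [hA] at cpos cpar h2
  have hpi := Real.pi_pos
  refine ⟨fun s => c (2 * s - 1), ?_, ?_⟩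
  · intro s hs
    rw [Finset.mem_Icc] at hs
    exact cpos (2 * s - 1) (by omega) (by omega) (by omega)
  obtain ⟨P, hP⟩ : ∃ P : ℝ → ℝ, P = fun t => ∑ s ∈ Icc 1 g, c (2 * s - 1) / (Real.pi * t) ^ (2 * s - 1) :=
    ⟨_, rfl⟩
  obtain ⟨R1, hR1⟩ : ∃ R1 : ℝ → ℝ, R1 = fun x => rho (Real.pi * x) - P (1 - x) := ⟨_, rfl⟩
  -- the value on (0,1)
  have hval : ∀ x : ℝ, 0 < x → x < 1 →
      1 / Real.sin (Real.pi * x) ^ (2 * g - 1) = P x + P (1 - x) + R1 x := by
    intro x hx0 hx1
    have h3 : Real.pi * x ∈ Set.Ioo 0 Real.pi := ⟨by positivity, by nlinarith⟩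
    rw [h2 _ h3, reindex hg cpar, hR1, hP]
    simp only
    ring
  have hsym : ∀ x : ℝ, 0 < x → x < 1 → R1 (1 - x) = R1 x := by
    intro x hx0 hx1
    have h3 := hval x hx0 hx1
    have h4 := hval (1 - x) (by linarith) (by linarith)
    have h5 : Real.sin (Real.pi * (1 - x)) = Real.sin (Real.pi * x) := by
      rw [show Real.pi * (1 - x) = Real.pi - Real.pi * x by ring, Real.sin_pi_sub]
    rw [h5, h3, sub_sub_cancel] at h4
    linarith
  -- smoothness of R1 on (-1,1)
  have hR1s : ContDiffOn ℝ ∞ R1 (Set.Ioo (-1) 1) := by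
    rw [hR1]
    apply ContDiffOn.sub
    · have h3 : ContDiffOn ℝ ∞ rho (Set.Ioo (-Real.pi) Real.pi) := h1.contDiffOn isOpen_Ioo.uniqueDiffOn
      refine h3.comp (contDiff_const.mul contDiff_id).contDiffOn ?_
      intro x hx
      exact ⟨by nlinarith [hx.1], by nlinarith [hx.2]⟩
    · rw [hP]
      apply ContDiffOn.sum
      intro s _
      apply ContDiffOn.div contDiffOn_const
      · exact ((contDiff_const.mul (contDiff_const.sub contDiff_id)).pow _).contDiffOn
      · intro x hx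
        apply pow_ne_zero
        apply mul_ne_zero hpi.ne'
        have h4 := hx.2
        exact sub_ne_zero.2 (ne_of_gt h4)
  have hR2s : ContDiffOn ℝ ∞ (fun x => R1 (1 - x)) (Set.Ioo 0 2) := by
    refine hR1s.comp (contDiff_const.sub contDiff_id).contDiffOn ?_
    intro x hx
    exact ⟨by linarith [hx.2], by linarith [hx.1]⟩
  refine ⟨fun x => if x < 1 / 2 then R1 x else R1 (1 - x), ?_, ?_⟩
  · intro x hx
    rcases lt_or_ge x 1 with h | h
    · have h3 : ContDiffAt ℝ ∞ R1 x := hR1s.contDiffAt (isOpen_Ioo.mem_nhds ⟨hx.1, h⟩)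
      refine (h3.congr_of_eventuallyEq ?_).contDiffWithinAt
      filter_upwards [isOpen_Ioo.mem_nhds (⟨hx.1, h⟩ : x ∈ Set.Ioo (-1 : ℝ) 1)] with y hy
      split_ifs with hy2
      · rfl
      · exact hsym y (by linarith [not_lt.1 hy2]) hy.2
    · have h3 : ContDiffAt ℝ ∞ (fun x => R1 (1 - x)) x :=
        hR2s.contDiffAt (isOpen_Ioo.mem_nhds ⟨by linarith, hx.2⟩)
      refine (h3.congr_of_eventuallyEq ?_).contDiffWithinAt
      filter_upwards [isOpen_Ioo.mem_nhds (⟨by linarith, hx.2⟩ : x ∈ Set.Ioo (0 : ℝ) 2)] with y hy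
      split_ifs with hy2
      · exact (hsym y hy.1 (by linarith)).symm
      · rfl
  · intro x hx0 hx1
    have h3 : (if x < 1 / 2 then R1 x else R1 (1 - x)) = R1 x := by
      split_ifs with hy2
      · rfl
      · exact hsym x hx0 hx1
    simp only
    rw [h3, hval x hx0 hx1, hP]
    simp only
    rw [← Finset.sum_add_distrib]
    congr 1
    apply Finset.sum_congr rfl
    intro s _
    ring

end H572AE.FE4O
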