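import Mathlib
import Pool.Agent.H572.AE.Stm

set_option autoImplicit false

open Finset Polynomial

namespace H572AE.PH

/-! ### Trigonometric sums -/

theorem sd (u x : ℝ) : Real.sin (u + x) ^ 2 - 2 * Real.sin u ^ 2 + Real.sin (u - x) ^ 2 =
    2 * Real.sin x ^ 2 * (1 - 2 * Real.sin u ^ 2) := by
  rw [Real.sin_add, Real.sin_sub]
  have h1 := Real.sin_sq_add_cos_sq u
  have h2 := Real.sin_sq_add_cos_sq x
  have h3 : Real.cos u ^ 2 = 1 - Real.sin u ^ 2 := by linarith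
  have h4 : Real.cos x ^ 2 = 1 - Real.sin x ^ 2 := by linarith
  have : (Real.sin u * Real.cos x + Real.cos u * Real.sin x) ^ 2 - 2 * Real.sin u ^ 2 +
      (Real.sin u * Real.cos x - Real.cos u * Real.sin x) ^ 2 =
      2 * Real.sin u ^ 2 * Real.cos x ^ 2 + 2 * Real.cos u ^ 2 * Real.sin x ^ 2 -
        2 * Real.sin u ^ 2 := by ring
  rw [this, h3, h4]
  ring

theorem sin_ne {r b : ℕ} (hb : b ∈ Ico 1 r) : Real.sin (Real.pi * b / r) ≠ 0 := by
  rw [mem_Ico] at hb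
  have hr : (0 : ℝ) < r := by exact_mod_cast (by omega : 0 < r)
  have hb1 : (1 : ℝ) ≤ b := by exact_mod_cast hb.1
  have hb2 : (b : ℝ) < r := by exact_mod_cast hb.2
  apply ne_of_gt
  apply Real.sin_pos_of_pos_of_lt_pi
  · positivity
  · rw [div_lt_iff₀ hr]
    exact mul_lt_mul_of_pos_left hb2 Real.pi_pos

theorem tele (θ : ℝ) (n : ℕ) : ∑ b ∈ range n, 2 * Real.sin θ * Real.cos (2 * b * θ) =
    Real.sin ((2 * n - 1) * θ) + Real.sin θ := by
  induction n with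
  | zero => simp
  | succ n ih =>
    rw [sum_range_succ, ih]
    have e1 : (2 * ((n + 1 : ℕ) : ℝ) - 1) * θ = 2 * n * θ + θ := by push_cast; ring
    have e2 : (2 * (n : ℝ) - 1) * θ = 2 * n * θ - θ := by ring
    rw [e1, e2, Real.sin_add, Real.sin_sub]
    ring

theorem sum_sin_sq {r a : ℕ} (ha : 1 ≤ a) (har : a < r) :
    ∑ b ∈ Ico 1 r, Real.sin (Real.pi * a * b / r) ^ 2 = r / 2 := by
  have hr : (0 : ℝ) < r := by exact_mod_cast (by omega : 0 < r)
  have hs : Real.sin (Real.pi * a / r) ≠ 0 := sin_ne (mem_Ico.2 ⟨ha, har⟩)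
  have h1 := tele (Real.pi * a / r) r
  have h2 : Real.sin ((2 * r - 1) * (Real.pi * a / r)) = - Real.sin (Real.pi * a / r) := by
    have e : (2 * (r : ℝ) - 1) * (Real.pi * a / r) = (a : ℕ) * (2 * Real.pi) - Real.pi * a / r := by
      field_simp
    rw [e, Real.sin_nat_mul_two_pi_sub]
  rw [h2, neg_add_cancel, ← mul_sum] at h1
  have h3 : ∑ b ∈ range r, Real.cos (2 * b * (Real.pi * a / r)) = 0 := by
    rcases mul_eq_zero.1 h1 with h | h
    · exact absurd (by linarith) hs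
    · exact h
  have h4 : ∑ b ∈ range r, Real.sin (Real.pi * a * b / r) ^ 2 = r / 2 := by
    have h5 : ∀ b ∈ range r, Real.sin (Real.pi * a * b / r) ^ 2 =
        1 / 2 - Real.cos (2 * b * (Real.pi * a / r)) / 2 := by
      intro b _
      have e : 2 * (b : ℝ) * (Real.pi * a / r) = 2 * (Real.pi * a * b / r) := by ring
      rw [e, Real.cos_two_mul]
      have := Real.sin_sq_add_cos_sq (Real.pi * a * b / r)
      linarith
    rw [sum_congr rfl h5, sum_sub_distrib, sum_const, card_range, nsmul_eq_mul,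
      ← sum_div (range r) (fun b : ℕ => Real.cos (2 * (b : ℝ) * (Real.pi * a / r))) 2, h3]
    ring
  have h6 : ∑ b ∈ range r, Real.sin (Real.pi * a * b / r) ^ 2 =
      ∑ b ∈ Ico 1 r, Real.sin (Real.pi * a * b / r) ^ 2 := by
    rw [range_eq_Ico, sum_eq_sum_Ico_succ_bot (by omega)]
    simp
  rw [← h6, h4]

theorem Ps_rec (h r a : ℕ) : Ps (h + 1) r (a + 2) - 2 * Ps (h + 1) r (a + 1) + Ps (h + 1) r a =
    2 * Cs h r - 4 * Ps h r (a + 1) := by
  unfold Ps Cs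
  rw [mul_sum, mul_sum, mul_sum, ← sum_sub_distrib, ← sum_add_distrib, ← sum_sub_distrib]
  refine sum_congr rfl fun b hb => ?_
  have hs := sin_ne hb
  have e1 : Real.pi * ((a + 2 : ℕ) : ℝ) * b / r =
      Real.pi * ((a + 1 : ℕ) : ℝ) * b / r + Real.pi * b / r := by
    push_cast; ring
  have e2 : Real.pi * (a : ℝ) * b / r =
      Real.pi * ((a + 1 : ℕ) : ℝ) * b / r - Real.pi * b / r := by
    push_cast; ring
  rw [e1, e2]
  have h1 := sd (Real.pi * ((a + 1 : ℕ) : ℝ) * b / r) (Real.pi * b / r)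
  generalize Real.sin (Real.pi * ((a + 1 : ℕ) : ℝ) * b / r + Real.pi * b / r) = A at *
  generalize Real.sin (Real.pi * ((a + 1 : ℕ) : ℝ) * b / r - Real.pi * b / r) = B at *
  generalize Real.sin (Real.pi * ((a + 1 : ℕ) : ℝ) * b / r) = D at *
  generalize Real.sin (Real.pi * b / r) = s at *
  have h2 : s ^ (2 * (h + 1)) = s ^ (2 * h) * s ^ 2 := by ring
  have hsp : s ^ (2 * h) ≠ 0 := pow_ne_zero _ hs
  have hs2 : s ^ 2 ≠ 0 := pow_ne_zero _ hs
  rw [h2]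
  have h3 : A ^ 2 / (s ^ (2 * h) * s ^ 2) - 2 * (D ^ 2 / (s ^ (2 * h) * s ^ 2)) +
      B ^ 2 / (s ^ (2 * h) * s ^ 2) = (A ^ 2 - 2 * D ^ 2 + B ^ 2) / (s ^ (2 * h) * s ^ 2) := by
    ring
  rw [h3, h1]
  field_simp
  ring

theorem Ps_zero (h r : ℕ) : Ps h r 0 = 0 := by
  unfold Ps
  refine sum_eq_zero fun b _ => ?_
  simp

theorem Ps_one (h r : ℕ) : Ps (h + 1) r 1 = Cs h r := by
  unfold Ps Cs
  refine sum_congr rfl fun b hb => ?_
  have hs := sin_ne hb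
  have e : Real.pi * ((1 : ℕ) : ℝ) * b / r = Real.pi * b / r := by push_cast; ring
  rw [e]
  have h2 : Real.sin (Real.pi * b / r) ^ (2 * (h + 1)) =
      Real.sin (Real.pi * b / r) ^ (2 * h) * Real.sin (Real.pi * b / r) ^ 2 := by ring
  rw [h2]
  field_simp

theorem Cs_zero {r : ℕ} (hr : 1 ≤ r) : Cs 0 r = r - 1 := by
  unfold Cs
  simp [Nat.cast_sub hr]

theorem Ps_h0 {r a : ℕ} (ha : 1 ≤ a) (har : a < r) : Ps 0 r a = r / 2 := by
  unfold Ps
  rw [← sum_sin_sq ha har]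
  refine sum_congr rfl fun b _ => ?_
  simp

/-! ### Central factorial polynomials -/

theorem V_zero (x : ℝ) : (V 0).eval x = x := by simp [V]

theorem V_succ (n : ℕ) (x : ℝ) : (V (n + 1)).eval x = (V n).eval x * (x ^ 2 - ((n : ℝ) + 1) ^ 2) := by
  show (V n * (X ^ 2 - C (((n : ℝ) + 1) ^ 2))).eval x = _
  rw [eval_mul, eval_sub, eval_pow, eval_X, eval_C]

theorem V_up (n : ℕ) (x : ℝ) : (V (n + 1)).eval (x + 1) = (V n).eval x * ((x + n + 1) * (x + n + 2)) := by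
  induction n with
  | zero => rw [V_succ, V_zero, V_zero]; push_cast; ring
  | succ n ih =>
    rw [V_succ (n + 1), ih, V_succ n]
    push_cast
    ring

theorem V_down (n : ℕ) (x : ℝ) : (V (n + 1)).eval (x - 1) = (V n).eval x * ((x - n - 1) * (x - n - 2)) := by
  induction n with
  | zero => rw [V_succ, V_zero, V_zero]; push_cast; ring
  | succ n ih =>
    rw [V_succ (n + 1), ih, V_succ n]
    push_cast
    ring

theorem V_at_zero (n : ℕ) : (V n).eval 0 = 0 := by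
  induction n with
  | zero => rw [V_zero]
  | succ n ih => rw [V_succ, ih, zero_mul]

theorem V_at_one (n : ℕ) : (V (n + 1)).eval 1 = 0 := by
  induction n with
  | zero => rw [V_succ, V_zero]; norm_num
  | succ n ih => rw [V_succ, ih, zero_mul]

theorem Od_eval (n : ℕ) (x : ℝ) : (Od n).eval x = 1 / ((2 * n + 1).factorial : ℝ) * (V n).eval x := by
  unfold Od
  rw [eval_mul, eval_C]

theorem Ev_eval (n : ℕ) (x : ℝ) :
    (Ev (n + 1)).eval x = 1 / ((2 * n + 2).factorial : ℝ) * (x * (V n).eval x) := by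
  show (C (1 / ((2 * n + 2).factorial : ℝ)) * (X * V n)).eval x = _
  rw [eval_mul, eval_C, eval_mul, eval_X]

theorem Od_rec (n : ℕ) (x : ℝ) :
    (Od (n + 1)).eval (x + 1) - 2 * (Od (n + 1)).eval x + (Od (n + 1)).eval (x - 1) = (Od n).eval x := by
  rw [Od_eval, Od_eval, Od_eval, Od_eval, V_up, V_down, V_succ]
  have h1 : (((2 * (n + 1) + 1).factorial : ℕ) : ℝ) =
      ((2 * n + 1).factorial : ℝ) * ((2 * n + 2) * (2 * n + 3)) := by
    have : 2 * (n + 1) + 1 = (2 * n + 1) + 1 + 1 := by ring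
    rw [this, Nat.factorial_succ, Nat.factorial_succ]
    push_cast
    ring
  have h2 : ((2 * n + 1).factorial : ℝ) ≠ 0 := by exact_mod_cast (Nat.factorial_pos _).ne'
  have h3 : (2 * (n : ℝ) + 2) ≠ 0 := by positivity
  have h4 : (2 * (n : ℝ) + 3) ≠ 0 := by positivity
  rw [h1]
  field_simp
  ring

theorem Ev_rec (n : ℕ) (x : ℝ) :
    (Ev (n + 2)).eval (x + 1) - 2 * (Ev (n + 2)).eval x + (Ev (n + 2)).eval (x - 1) =
      (Ev (n + 1)).eval x := by
  rw [Ev_eval (n + 1), Ev_eval (n + 1), Ev_eval (n + 1), Ev_eval n, V_up, V_down, V_succ]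
  have h1 : (((2 * (n + 1) + 2).factorial : ℕ) : ℝ) =
      ((2 * n + 2).factorial : ℝ) * ((2 * n + 3) * (2 * n + 4)) := by
    have : 2 * (n + 1) + 2 = (2 * n + 2) + 1 + 1 := by ring
    rw [this, Nat.factorial_succ, Nat.factorial_succ]
    push_cast
    ring
  have h2 : ((2 * n + 2).factorial : ℝ) ≠ 0 := by exact_mod_cast (Nat.factorial_pos _).ne'
  have h3 : (2 * (n : ℝ) + 3) ≠ 0 := by positivity
  have h4 : (2 * (n : ℝ) + 4) ≠ 0 := by positivity
  rw [h1]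
  field_simp
  ring

theorem Ev_one (x : ℝ) : (Ev 1).eval x = x ^ 2 / 2 := by
  rw [Ev_eval 0, V_zero]
  norm_num [Nat.factorial]
  ring

theorem Od_zero (x : ℝ) : (Od 0).eval x = x := by
  rw [Od_eval, V_zero]
  norm_num [Nat.factorial]

/-- the right side -/
noncomputable def R (h r : ℕ) (x : ℝ) : ℝ :=
  (∑ j ∈ Ico 1 h, 2 * (-4) ^ (j - 1) * Cs (h - j) r * (Ev j).eval x) -
    2 * (-4) ^ (h - 1) * (Ev h).eval x + (-4) ^ (h - 1) * r * (Od (h - 1)).eval x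

theorem R_one (r : ℕ) (x : ℝ) : R 1 r x = x * (r - x) := by
  unfold R
  rw [Ico_self, sum_empty, Ev_one, Nat.sub_self, Od_zero]
  ring

theorem R_zero (h r : ℕ) : R (h + 1) r 0 = 0 := by
  unfold R
  rw [Nat.add_sub_cancel, Od_eval, V_at_zero, Ev_eval]
  rw [sum_eq_zero]
  · ring
  · intro j hj
    rw [mem_Ico] at hj
    obtain ⟨i, rfl⟩ : ∃ i, j = i + 1 := ⟨j - 1, by omega⟩
    rw [Ev_eval]
    ring

theorem R_at_one (h r : ℕ) : R (h + 2) r 1 = Cs (h + 1) r := by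
  unfold R
  have e1 : h + 2 - 1 = h + 1 := by omega
  rw [e1, Od_eval, V_at_one, Ev_eval (h + 1), V_at_one, sum_eq_sum_Ico_succ_bot (by omega), Ev_one, e1]
  rw [sum_eq_zero]
  · ring
  · intro j hj
    rw [mem_Ico] at hj
    obtain ⟨i, rfl⟩ : ∃ i, j = i + 2 := ⟨j - 2, by omega⟩
    rw [Ev_eval (i + 1), V_at_one]
    ring

theorem R_rec (h r : ℕ) (x : ℝ) : R (h + 2) r (x + 1) - 2 * R (h + 2) r x + R (h + 2) r (x - 1) =
    2 * Cs (h + 1) r - 4 * R (h + 1) r x := by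
  unfold R
  have e1 : h + 2 - 1 = h + 1 := by omega
  have e2 : h + 1 - 1 = h := by omega
  rw [e1, e2]
  have h1 : (∑ j ∈ Ico 1 (h + 2), 2 * (-4 : ℝ) ^ (j - 1) * Cs (h + 2 - j) r * (Ev j).eval (x + 1)) -
      2 * (∑ j ∈ Ico 1 (h + 2), 2 * (-4 : ℝ) ^ (j - 1) * Cs (h + 2 - j) r * (Ev j).eval x) +
      (∑ j ∈ Ico 1 (h + 2), 2 * (-4 : ℝ) ^ (j - 1) * Cs (h + 2 - j) r * (Ev j).eval (x - 1)) =
      2 * Cs (h + 1) r - 4 * ∑ j ∈ Ico 1 (h + 1), 2 * (-4 : ℝ) ^ (j - 1) * Cs (h + 1 - j) r *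
        (Ev j).eval x := by
    rw [mul_sum, ← sum_sub_distrib, ← sum_add_distrib, sum_eq_sum_Ico_succ_bot (by omega), Ev_one,
      Ev_one, Ev_one, e1]
    have h2 : ∑ j ∈ Ico (1 + 1) (h + 2), (2 * (-4 : ℝ) ^ (j - 1) * Cs (h + 2 - j) r *
        (Ev j).eval (x + 1) - 2 * (2 * (-4 : ℝ) ^ (j - 1) * Cs (h + 2 - j) r * (Ev j).eval x) +
        2 * (-4 : ℝ) ^ (j - 1) * Cs (h + 2 - j) r * (Ev j).eval (x - 1)) =
        ∑ j ∈ Ico 1 (h + 1), (-4) * (2 * (-4 : ℝ) ^ (j - 1) * Cs (h + 1 - j) r * (Ev j).eval x) := by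
      rw [← sum_Ico_add' (fun j => 2 * (-4 : ℝ) ^ (j - 1) * Cs (h + 2 - j) r *
        (Ev j).eval (x + 1) - 2 * (2 * (-4 : ℝ) ^ (j - 1) * Cs (h + 2 - j) r * (Ev j).eval x) +
        2 * (-4 : ℝ) ^ (j - 1) * Cs (h + 2 - j) r * (Ev j).eval (x - 1)) 1 (h + 1) 1]
      refine sum_congr rfl fun j hj => ?_
      rw [mem_Ico] at hj
      obtain ⟨i, rfl⟩ : ∃ i, j = i + 1 := ⟨j - 1, by omega⟩
      have e3 : i + 1 + 1 - 1 = i + 1 := by omega
      have e4 : h + 2 - (i + 1 + 1) = h - i := by omega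
      have e5 : h + 1 - (i + 1) = h - i := by omega
      have e6 : i + 1 - 1 = i := by omega
      rw [e3, e4, e5, e6, ← Ev_rec i x]
      ring
    rw [h2, ← mul_sum]
    ring
  have h3 := Ev_rec h x
  have h4 := Od_rec h x
  have h5 : (-4 : ℝ) ^ (h + 1) = (-4) * (-4) ^ h := by ring
  rw [h5]
  linear_combination h1 - 2 * (-4) * (-4) ^ h * h3 + (-4) * (-4) ^ h * r * h4

theorem two_step (F : ℕ → ℝ) (r : ℕ) (h0 : F 0 = 0) (h1 : 1 ≤ r → F 1 = 0)
    (h2 : ∀ a, a + 2 ≤ r → F (a + 2) - 2 * F (a + 1) + F a = 0) : ∀ a ≤ r, F a = 0 := by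
  intro a
  induction a using Nat.strong_induction_on with
  | _ a ih =>
    intro ha
    match a, ih, ha with
    | 0, _, _ => exact h0
    | 1, _, ha => exact h1 ha
    | a + 2, ih, ha =>
      have e1 := ih a (by omega) (by omega)
      have e2 := ih (a + 1) (by omega) (by omega)
      have e3 := h2 a ha
      rw [e1, e2] at e3
      linarith

theorem key (r : ℕ) (hr : 1 ≤ r) (h : ℕ) : ∀ a ≤ r, Ps (h + 1) r a - R (h + 1) r a = 0 := by
  induction h with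
  | zero =>
    refine two_step (fun a => Ps (0 + 1) r a - R (0 + 1) r a) r ?_ ?_ ?_
    · show Ps (0 + 1) r 0 - R (0 + 1) r ((0 : ℕ) : ℝ) = 0
      rw [Ps_zero, Nat.cast_zero, R_zero]
      ring
    · intro _
      show Ps (0 + 1) r 1 - R (0 + 1) r ((1 : ℕ) : ℝ) = 0
      rw [Ps_one, Cs_zero hr, Nat.cast_one, Nat.zero_add, R_one]
      ring
    · intro a ha
      show (Ps (0 + 1) r (a + 2) - R (0 + 1) r ((a + 2 : ℕ) : ℝ)) -
        2 * (Ps (0 + 1) r (a + 1) - R (0 + 1) r ((a + 1 : ℕ) : ℝ)) +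
        (Ps (0 + 1) r a - R (0 + 1) r (a : ℝ)) = 0
      have h1 := Ps_rec 0 r a
      rw [Cs_zero hr, Ps_h0 (by omega : 1 ≤ a + 1) (by omega)] at h1
      rw [Nat.zero_add, R_one, R_one, R_one]
      rw [Nat.zero_add] at h1
      push_cast
      linear_combination h1
  | succ h ih =>
    refine two_step (fun a => Ps (h + 1 + 1) r a - R (h + 1 + 1) r a) r ?_ ?_ ?_
    · show Ps (h + 1 + 1) r 0 - R (h + 1 + 1) r ((0 : ℕ) : ℝ) = 0
      rw [Ps_zero, Nat.cast_zero, R_zero]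
      ring
    · intro _
      show Ps (h + 1 + 1) r 1 - R (h + 1 + 1) r ((1 : ℕ) : ℝ) = 0
      rw [Ps_one, Nat.cast_one, R_at_one]
      ring
    · intro a ha
      show (Ps (h + 1 + 1) r (a + 2) - R (h + 1 + 1) r ((a + 2 : ℕ) : ℝ)) -
        2 * (Ps (h + 1 + 1) r (a + 1) - R (h + 1 + 1) r ((a + 1 : ℕ) : ℝ)) +
        (Ps (h + 1 + 1) r a - R (h + 1 + 1) r (a : ℝ)) = 0
      have h1 := Ps_rec (h + 1) r a
      have h2 := R_rec h r ((a + 1 : ℕ) : ℝ)
      have h3 := ih (a + 1) (by omega)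
      have e1 : (((a + 1 : ℕ) : ℝ)) + 1 = ((a + 2 : ℕ) : ℝ) := by push_cast; ring
      have e2 : (((a + 1 : ℕ) : ℝ)) - 1 = (a : ℝ) := by push_cast; ring
      rw [e1, e2] at h2
      linear_combination h1 - h2 - 4 * h3

theorem main : H572AE.S_ph := by
  intro h r a hh hr ha
  obtain ⟨k, rfl⟩ : ∃ k, h = k + 1 := ⟨h - 1, by omega⟩
  have h1 := key r hr k a ha
  unfold R at h1
  linarith

end H572AE.PH
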