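import Mathlib
import Pool.Agent.H572.AE.FE1
import Pool.Agent.H572.AE.Asym
import Pool.Agent.H572.AE.PH
import Pool.Agent.H572.AE.EO
import Pool.Agent.H572.AE.CP

/-!
# The full expansion of the double sum with two edges
-/

set_option autoImplicit false

open Finset Polynomial
open scoped ContDiff

namespace H572AE.FE5

theorem TT_two (g h r : ℕ) : TT 2 (2 * g) (2 * h) r =
    ∑ a ∈ Ico 1 r, Ps h r a * (1 / Real.sin (Real.pi * a / r) ^ (2 * g)) := by
  refine Finset.sum_congr rfl fun a _ => ?_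
  unfold Ps
  rw [Finset.sum_mul]
  refine Finset.sum_congr rfl fun b _ => ?_
  rw [div_mul_div_comm, mul_one, mul_comm (Real.sin (Real.pi * a / r) ^ (2 * g))]

theorem TT_swap (E A B r : ℕ) : TT E A B r = TT E B A r := by
  unfold TT
  rw [Finset.sum_comm]
  refine Finset.sum_congr rfl fun a _ => Finset.sum_congr rfl fun b _ => ?_
  have e1 : Real.pi * b * a / r = Real.pi * a * b / r := by ring
  rw [e1, mul_comm (Real.sin (Real.pi * b / r) ^ A)]

theorem Ps_symm (h r a : ℕ) (ha : a ≤ r) : Ps h r (r - a) = Ps h r a := by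
  refine Finset.sum_congr rfl fun b hb => ?_
  have hr : (r : ℝ) ≠ 0 := by
    have := mem_Ico.mp hb
    exact_mod_cast (by omega : r ≠ 0)
  have e1 : Real.pi * ((r - a : ℕ) : ℝ) * b / r = b * Real.pi - Real.pi * a * b / r := by
    rw [Nat.cast_sub ha]; field_simp
  rw [e1, Real.sin_nat_mul_pi_sub]
  congr 1
  rw [neg_sq, mul_pow, ← pow_mul, mul_comm b 2, pow_mul]
  simp

/-- The coefficients of Ps as a polynomial in a. -/
theorem coeffs (h : ℕ) (hh : 1 ≤ h) : ∃ p : ℕ → ℝ[X], (∀ i ≤ 2 * h, (p i).natDegree ≤ 2 * h - i) ∧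
    (∀ i, p (2 * i + 1) = C ((-4) ^ (h - 1) * (Od (h - 1)).coeff (2 * i + 1)) * X) ∧
    ∀ r a : ℕ, 1 ≤ r → a ≤ r → Ps h r a = ∑ i ∈ range (2 * h + 1), (p i).eval (r : ℝ) * (a : ℝ) ^ i := by
  obtain ⟨e1, e2, e3, e4⟩ := EO.main
  obtain ⟨q, hq⟩ := choose_cp (CP.main PH.main EO.main)
  refine ⟨fun i => (∑ j ∈ Ico 1 h, C (2 * (-4) ^ (j - 1) * (Ev j).coeff i) * q (h - j)) -
    C (2 * (-4) ^ (h - 1) * (Ev h).coeff i) + C ((-4) ^ (h - 1) * (Od (h - 1)).coeff i) * X, ?_, ?_, ?_⟩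
  · intro i hi
    refine (natDegree_add_le _ _).trans (max_le ((natDegree_sub_le _ _).trans (max_le ?_ ?_)) ?_)
    · refine natDegree_sum_le_of_forall_le _ _ fun j hj => ?_
      have hj' := mem_Ico.mp hj
      by_cases hij : i ≤ 2 * j
      · exact (natDegree_C_mul_le _ _).trans ((hq _ (by omega)).1.trans (by omega))
      · have h0 : (Ev j).coeff i = 0 := coeff_eq_zero_of_natDegree_lt (lt_of_le_of_lt (e1 j) (by omega))
        rw [h0]; simp
    · rw [natDegree_C]; omega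
    · by_cases hij : i ≤ 2 * h - 1
      · exact (natDegree_C_mul_le _ _).trans (natDegree_X_le.trans (by omega))
      · have h0 : (Od (h - 1)).coeff i = 0 :=
          coeff_eq_zero_of_natDegree_lt (lt_of_le_of_lt (e3 (h - 1)) (by omega))
        rw [h0]; simp
  · intro i
    simp only [e2, mul_zero, map_zero, zero_mul, Finset.sum_const_zero, sub_zero, zero_add]
  · intro r a hr ha
    rw [PH.main h r a hh hr ha]
    have hE : ∀ j ≤ h, (Ev j).eval (a : ℝ) = ∑ i ∈ range (2 * h + 1), (Ev j).coeff i * (a : ℝ) ^ i :=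
      fun j hj => Polynomial.eval_eq_sum_range' (lt_of_le_of_lt (e1 j) (by omega)) _
    have hO : (Od (h - 1)).eval (a : ℝ) = ∑ i ∈ range (2 * h + 1), (Od (h - 1)).coeff i * (a : ℝ) ^ i :=
      Polynomial.eval_eq_sum_range' (lt_of_le_of_lt (e3 (h - 1)) (by omega)) _
    have h1 : ∑ j ∈ Ico 1 h, 2 * (-4) ^ (j - 1) * Cs (h - j) r * (Ev j).eval (a : ℝ) =
        ∑ j ∈ Ico 1 h, ∑ i ∈ range (2 * h + 1),
          2 * (-4) ^ (j - 1) * (q (h - j)).eval (r : ℝ) * ((Ev j).coeff i * (a : ℝ) ^ i) := by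
      refine Finset.sum_congr rfl fun j hj => ?_
      have hj' := mem_Ico.mp hj
      rw [hE j (by omega), (hq _ (by omega)).2 r hr, Finset.mul_sum]
    rw [h1, Finset.sum_comm, hE h le_rfl, hO, Finset.mul_sum, Finset.mul_sum, ← Finset.sum_sub_distrib,
      ← Finset.sum_add_distrib]
    refine Finset.sum_congr rfl fun i _ => ?_
    simp only [eval_add, eval_sub, eval_mul, eval_C, eval_X, eval_finsetSum]
    rw [add_mul, sub_mul, Finset.sum_mul]
    congr 1
    · congr 1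
      · refine Finset.sum_congr rfl fun j _ => ?_
        ring
      · ring
    · ring

/-- The power sums. -/
theorem W (h2 : S_fe2) (i n : ℕ) (hn : 1 ≤ n) :
    FE (if n ≤ i then i - n + 1 else 0) (fun r => (∑ a ∈ Ico 1 r, (a : ℝ) ^ i / (a : ℝ) ^ n) -
      (if i + 1 = n then Real.log r else 0)) := by
  rcases Nat.lt_or_ge i n with hlt | hge
  · rw [if_neg (by omega)]
    rcases Nat.lt_or_ge (i + 1) n with h3 | h3
    · have h4 := h2.1 (n - i) (by omega)
      refine h4.congr fun r _ => ?_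
      rw [if_neg (by omega), sub_zero]
      refine Finset.sum_congr rfl fun a ha => ?_
      have ha0 : (0 : ℝ) < a := by have := mem_Ico.mp ha; exact_mod_cast (by omega : 0 < a)
      rw [div_eq_div_iff (by positivity) (by positivity), one_mul, ← pow_add]
      congr 1; omega
    · have h5 : n = i + 1 := by omega
      refine h2.2.congr fun r _ => ?_
      rw [if_pos (by omega)]
      congr 1
      refine Finset.sum_congr rfl fun a ha => ?_
      have ha0 : (0 : ℝ) < a := by have := mem_Ico.mp ha; exact_mod_cast (by omega : 0 < a)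
      rw [h5, pow_succ]
      field_simp
  · rw [if_pos hge]
    obtain ⟨p, hp, hp'⟩ := CP.faul_pow (i - n)
    have h6 : FE (i - n + 1) (fun r => (X * p - C (0 ^ (i - n)) : ℝ[X]).eval (r : ℝ)) := by
      refine FE.poly _ ((natDegree_sub_le _ _).trans (max_le ?_ ?_))
      · refine natDegree_mul_le.trans ?_
        have := natDegree_X_le (R := ℝ)
        omega
      · rw [natDegree_C]; omega
    refine h6.congr fun r hr => ?_
    rw [if_neg (by omega), sub_zero]
    have h7 : ∑ a ∈ Ico 1 r, (a : ℝ) ^ i / (a : ℝ) ^ n = ∑ a ∈ Ico 1 r, (a : ℝ) ^ (i - n) := by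
      refine Finset.sum_congr rfl fun a ha => ?_
      have ha0 : (0 : ℝ) < a := by have := mem_Ico.mp ha; exact_mod_cast (by omega : 0 < a)
      rw [div_eq_iff (by positivity), ← pow_add]
      congr 1; omega
    have h8 := hp' r
    rw [Finset.range_eq_Ico, Finset.sum_eq_sum_Ico_succ_bot (by omega)] at h8
    rw [h7]
    simp only [eval_sub, eval_mul, eval_X, eval_C]
    simp only [Nat.cast_zero, zero_add] at h8
    linarith

theorem le_case (h2 : S_fe2) (h3 : S_fe3) (h4 : S_fe4) (g h : ℕ) (hh : 1 ≤ h) (hgh : h ≤ g) :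
    ∃ Λ : ℝ[X], Λ.natDegree = 2 * h + 1 ∧
      FE (2 * g + 2 * h + 1) (fun r => TT 2 (2 * g) (2 * h) r - Λ.eval (r : ℝ) * Real.log r) := by
  obtain ⟨e1, e2, e3, e4⟩ := EO.main
  obtain ⟨p, hp1, hp2, hp3⟩ := coeffs h hh
  obtain ⟨c, hc, R, hR, hcR⟩ := h4 g (by omega)
  set β : ℝ := (-4) ^ (h - 1) with hβ
  set w : ℕ → ℝ := fun s => 2 * (c s / Real.pi ^ (2 * s)) with hw
  set Λ : ℝ[X] := ∑ s ∈ Icc 1 g, C (w s * (β * (Od (h - 1)).coeff (2 * (s - 1) + 1))) * X ^ (2 * s + 1) with hΛ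
  have hco : ∀ s, h < s → (Od (h - 1)).coeff (2 * (s - 1) + 1) = 0 := fun s hs =>
    coeff_eq_zero_of_natDegree_lt (lt_of_le_of_lt (e3 (h - 1)) (by omega))
  refine ⟨Λ, ?_, ?_⟩
  · apply natDegree_eq_of_le_of_coeff_ne_zero
    · rw [hΛ]
      refine natDegree_sum_le_of_forall_le _ _ fun s hs => ?_
      by_cases hsh : s ≤ h
      · exact (natDegree_C_mul_X_pow_le _ _).trans (by omega)
      · rw [hco s (by omega)]; simp
    · rw [hΛ, finsetSum_coeff, Finset.sum_eq_single h]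
      · rw [coeff_C_mul, coeff_X_pow, if_pos rfl, mul_one]
        have h5 := e4 (h - 1)
        have h6 := hc h (mem_Icc.mpr ⟨hh, hgh⟩)
        have hpi := Real.pi_pos
        rw [h5]
        have h7 : β ≠ 0 := pow_ne_zero _ (by norm_num)
        have h8 : w h ≠ 0 := by rw [hw]; positivity
        positivity
      · intro s _ hs
        rw [coeff_C_mul, coeff_X_pow, if_neg (by omega), mul_zero]
      · intro hn; exact absurd (mem_Icc.mpr ⟨hh, hgh⟩) hn
  · -- the expansion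
    have A1 : FE (2 * g + 2 * h + 1) (fun r => ∑ s ∈ Icc 1 g, ∑ i ∈ range (2 * h + 1),
        (C (w s) * X ^ (2 * s) * p i : ℝ[X]).eval (r : ℝ) *
          ((∑ a ∈ Ico 1 r, (a : ℝ) ^ i / (a : ℝ) ^ (2 * s)) - (if i + 1 = 2 * s then Real.log r else 0))) := by
      refine FE.sum _ fun s hs => FE.sum _ fun i hi => ?_
      have hs' := mem_Icc.mp hs
      have hi' := mem_range.mp hi
      have hdeg : (C (w s) * X ^ (2 * s) * p i : ℝ[X]).natDegree ≤ 2 * s + (2 * h - i) :=
        natDegree_mul_le.trans (add_le_add (natDegree_C_mul_X_pow_le _ _) (hp1 i (by omega)))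
      refine ((W h2 i (2 * s) (by omega)).mulpoly _ hdeg).mono ?_
      split_ifs <;> omega
    have A2 : FE (2 * g + 2 * h + 1) (fun r => ∑ i ∈ range (2 * h + 1), (p i * X ^ i : ℝ[X]).eval (r : ℝ) *
        ((∑ a ∈ range r, (fun x : ℝ => x ^ i * R x) ((a : ℝ) / r)) - (0 : ℝ) ^ i * R 0)) := by
      refine FE.sum _ fun i hi => ?_
      have hi' := mem_range.mp hi
      have hdeg : (p i * X ^ i : ℝ[X]).natDegree ≤ (2 * h - i) + i :=
        natDegree_mul_le.trans (add_le_add (hp1 i (by omega)) (natDegree_X_pow_le _))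
      have hsm : ContDiffOn ℝ ∞ (fun x : ℝ => x ^ i * R x) (Set.Ioo (-1) 2) :=
        (contDiff_id.pow i).contDiffOn.mul hR
      have h9 := (h3 _ hsm).sub ((FE.const ((0 : ℝ) ^ i * R 0)).succ)
      exact (h9.mulpoly _ hdeg).mono (by omega)
    refine (A1.add A2).congr fun r hr => ?_
    have hr0 : (0 : ℝ) < r := by exact_mod_cast (by omega : 0 < r)
    have hpi := Real.pi_pos
    -- the logarithms
    have hlog : ∑ s ∈ Icc 1 g, ∑ i ∈ range (2 * h + 1), (C (w s) * X ^ (2 * s) * p i : ℝ[X]).eval (r : ℝ) *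
        (if i + 1 = 2 * s then Real.log r else 0) = Λ.eval (r : ℝ) * Real.log r := by
      rw [hΛ, eval_finsetSum, Finset.sum_mul]
      refine Finset.sum_congr rfl fun s hs => ?_
      have hs' := mem_Icc.mp hs
      by_cases hsh : s ≤ h
      · rw [Finset.sum_eq_single (2 * (s - 1) + 1)]
        · rw [if_pos (by omega), hp2 (s - 1)]
          simp only [eval_mul, eval_C, eval_pow, eval_X]
          ring
        · intro i _ hi
          rw [if_neg (by omega), mul_zero]
        · intro hn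
          exact absurd (mem_range.mpr (by omega)) hn
      · rw [hco s (by omega)]
        simp only [mul_zero, map_zero, zero_mul, eval_zero]
        refine Finset.sum_eq_zero fun i hi => ?_
        have hi' := mem_range.mp hi
        rw [if_neg (by omega), mul_zero]
    -- the main sum
    have hP : ∀ a ∈ Ico 1 r, Ps h r a * (1 / Real.sin (Real.pi * a / r) ^ (2 * g)) =
        (∑ s ∈ Icc 1 g, (c s / Real.pi ^ (2 * s)) * (r : ℝ) ^ (2 * s) * (Ps h r a / (a : ℝ) ^ (2 * s))) +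
        (∑ s ∈ Icc 1 g, (c s / Real.pi ^ (2 * s)) * (r : ℝ) ^ (2 * s) *
          (Ps h r (r - a) / ((r - a : ℕ) : ℝ) ^ (2 * s))) + Ps h r a * R ((a : ℝ) / r) := by
      intro a ha
      have ha' := mem_Ico.mp ha
      have ha0 : (0 : ℝ) < a := by exact_mod_cast (by omega : 0 < a)
      have har : (a : ℝ) < r := by exact_mod_cast ha'.2
      have hra : (0 : ℝ) < (r : ℝ) - a := by linarith
      have h10 := hcR ((a : ℝ) / r) (by positivity) (by rw [div_lt_one hr0]; exact har)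
      have h11 : Real.pi * ((a : ℝ) / r) = Real.pi * a / r := by ring
      rw [h11] at h10
      rw [h10, Ps_symm h r a ha'.2.le, mul_add, Finset.mul_sum, ← Finset.sum_add_distrib]
      congr 1
      refine Finset.sum_congr rfl fun s _ => ?_
      rw [Nat.cast_sub ha'.2.le]
      have h12 : Real.pi * (1 - (a : ℝ) / r) = Real.pi * ((r : ℝ) - a) / r := by field_simp
      rw [h12, div_pow, div_pow, mul_pow, mul_pow]
      field_simp
    have hrefl : ∀ s, ∑ a ∈ Ico 1 r, Ps h r (r - a) / ((r - a : ℕ) : ℝ) ^ (2 * s) =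
        ∑ a ∈ Ico 1 r, Ps h r a / (a : ℝ) ^ (2 * s) := by
      intro s
      have h13 := Finset.sum_Ico_reflect (fun a : ℕ => Ps h r a / (a : ℝ) ^ (2 * s)) 1 (m := r) (n := r)
        (by omega)
      rw [show r + 1 - r = 1 by omega, show r + 1 - 1 = r by omega] at h13
      exact h13
    have hsum1 : ∀ s, ∑ a ∈ Ico 1 r, Ps h r a / (a : ℝ) ^ (2 * s) = ∑ i ∈ range (2 * h + 1),
        (p i).eval (r : ℝ) * ∑ a ∈ Ico 1 r, (a : ℝ) ^ i / (a : ℝ) ^ (2 * s) := by
      intro s
      have h14 : ∀ a ∈ Ico 1 r, Ps h r a / (a : ℝ) ^ (2 * s) = ∑ i ∈ range (2 * h + 1),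
          (p i).eval (r : ℝ) * ((a : ℝ) ^ i / (a : ℝ) ^ (2 * s)) := by
        intro a ha
        have ha' := mem_Ico.mp ha
        rw [hp3 r a hr ha'.2.le, Finset.sum_div]
        refine Finset.sum_congr rfl fun i _ => ?_
        ring
      rw [Finset.sum_congr rfl h14, Finset.sum_comm]
      refine Finset.sum_congr rfl fun i _ => ?_
      rw [Finset.mul_sum]
    have hsum2 : ∑ a ∈ Ico 1 r, Ps h r a * R ((a : ℝ) / r) = ∑ i ∈ range (2 * h + 1),
        (p i * X ^ i : ℝ[X]).eval (r : ℝ) *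
        ((∑ a ∈ range r, (fun x : ℝ => x ^ i * R x) ((a : ℝ) / r)) - (0 : ℝ) ^ i * R 0) := by
      have h15 : ∀ a ∈ Ico 1 r, Ps h r a * R ((a : ℝ) / r) = ∑ i ∈ range (2 * h + 1),
          (p i * X ^ i : ℝ[X]).eval (r : ℝ) * (((a : ℝ) / r) ^ i * R ((a : ℝ) / r)) := by
        intro a ha
        have ha' := mem_Ico.mp ha
        rw [hp3 r a hr ha'.2.le, Finset.sum_mul]
        refine Finset.sum_congr rfl fun i _ => ?_
        simp only [eval_mul, eval_pow, eval_X]
        rw [div_pow]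
        field_simp
      rw [Finset.sum_congr rfl h15, Finset.sum_comm]
      refine Finset.sum_congr rfl fun i _ => ?_
      rw [← Finset.mul_sum]
      congr 1
      have h19 := Finset.sum_eq_sum_Ico_succ_bot (show 0 < r by omega)
        (fun a : ℕ => (fun x : ℝ => x ^ i * R x) ((a : ℝ) / r))
      rw [Finset.range_eq_Ico, h19]
      simp
    have hA1 : ∑ s ∈ Icc 1 g, ∑ i ∈ range (2 * h + 1), (C (w s) * X ^ (2 * s) * p i : ℝ[X]).eval (r : ℝ) *
          ((∑ a ∈ Ico 1 r, (a : ℝ) ^ i / (a : ℝ) ^ (2 * s)) - (if i + 1 = 2 * s then Real.log r else 0)) =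
        (∑ s ∈ Icc 1 g, w s * (r : ℝ) ^ (2 * s) * ∑ a ∈ Ico 1 r, Ps h r a / (a : ℝ) ^ (2 * s)) -
          Λ.eval (r : ℝ) * Real.log r := by
      rw [← hlog, ← Finset.sum_sub_distrib]
      refine Finset.sum_congr rfl fun s _ => ?_
      rw [hsum1 s, Finset.mul_sum, ← Finset.sum_sub_distrib]
      refine Finset.sum_congr rfl fun i _ => ?_
      simp only [eval_mul, eval_C, eval_pow, eval_X]
      ring
    rw [hA1, TT_two, Finset.sum_congr rfl hP, Finset.sum_add_distrib, Finset.sum_add_distrib, hsum2,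
      Finset.sum_comm, Finset.sum_comm (s := Ico 1 r) (t := Icc 1 g)]
    have h16 : ∀ s ∈ Icc 1 g, ∑ a ∈ Ico 1 r, (c s / Real.pi ^ (2 * s)) * (r : ℝ) ^ (2 * s) *
        (Ps h r (r - a) / ((r - a : ℕ) : ℝ) ^ (2 * s)) =
        (c s / Real.pi ^ (2 * s)) * (r : ℝ) ^ (2 * s) * ∑ a ∈ Ico 1 r, Ps h r a / (a : ℝ) ^ (2 * s) := by
      intro s _
      rw [← Finset.mul_sum, hrefl s]
    have h17 : ∀ s ∈ Icc 1 g, ∑ a ∈ Ico 1 r, (c s / Real.pi ^ (2 * s)) * (r : ℝ) ^ (2 * s) *
        (Ps h r a / (a : ℝ) ^ (2 * s)) =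
        (c s / Real.pi ^ (2 * s)) * (r : ℝ) ^ (2 * s) * ∑ a ∈ Ico 1 r, Ps h r a / (a : ℝ) ^ (2 * s) := by
      intro s _
      rw [← Finset.mul_sum]
    rw [Finset.sum_congr rfl h16, Finset.sum_congr rfl h17, ← Finset.sum_add_distrib]
    have h18 : ∀ s ∈ Icc 1 g, (c s / Real.pi ^ (2 * s)) * (r : ℝ) ^ (2 * s) *
          ∑ a ∈ Ico 1 r, Ps h r a / (a : ℝ) ^ (2 * s) + (c s / Real.pi ^ (2 * s)) * (r : ℝ) ^ (2 * s) *
          ∑ a ∈ Ico 1 r, Ps h r a / (a : ℝ) ^ (2 * s) =
        w s * (r : ℝ) ^ (2 * s) * ∑ a ∈ Ico 1 r, Ps h r a / (a : ℝ) ^ (2 * s) := by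
      intro s _
      rw [hw]; ring
    rw [Finset.sum_congr rfl h18]
    ring

theorem main (h2 : S_fe2) (h3 : S_fe3) (h4 : S_fe4) : S_fe5 := by
  intro g h hg hh
  rcases le_total h g with hle | hle
  · rw [min_eq_right hle]
    exact le_case h2 h3 h4 g h hh hle
  · rw [min_eq_left hle]
    obtain ⟨Λ, hΛ, hF⟩ := le_case h2 h3 h4 h g hg hle
    refine ⟨Λ, hΛ, ?_⟩
    rw [show 2 * g + 2 * h + 1 = 2 * h + 2 * g + 1 by ring]
    exact hF.congr fun r _ => by rw [TT_swap]

end H572AE.FE5
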