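import Mathlib
import Pool.Agent.H572.AE.Stm5
import Pool.Agent.H572.AE.FE1

/-!
# Closure properties of full expansions with periodic coefficients
-/

set_option autoImplicit false

open Finset Polynomial

namespace H572AE

theorem FE.toN {d : ℕ} {F : ℕ → ℝ} (N : ℕ) (h : FE d F) : FEN N d F := by
  obtain ⟨c, hc⟩ := h
  exact ⟨fun _ => c, hc⟩

theorem FEN.lift {N N' d : ℕ} {F : ℕ → ℝ} (h : FEN N d F) (hN : N ∣ N') : FEN N' d F := by
  obtain ⟨c, hc⟩ := h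
  refine ⟨fun ρ => c (ρ % N), fun L => ?_⟩
  obtain ⟨B, hB⟩ := hc L
  refine ⟨B, fun r hr => ?_⟩
  have h1 : r % N' % N = r % N := Nat.mod_mod_of_dvd r hN
  simp only [h1]
  exact hB r hr

theorem FEN.add {N d : ℕ} {F G : ℕ → ℝ} (h : FEN N d F) (h' : FEN N d G) : FEN N d (fun r => F r + G r) := by
  obtain ⟨c, hc⟩ := h
  obtain ⟨c', hc'⟩ := h'
  refine ⟨fun ρ l => c ρ l + c' ρ l, fun L => ?_⟩
  obtain ⟨B, hB⟩ := hc L
  obtain ⟨B', hB'⟩ := hc' L
  refine ⟨B + B', fun r hr => ?_⟩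
  have e : F r + G r - ∑ l ∈ range L, (c (r % N) l + c' (r % N) l) * (r : ℝ) ^ ((d : ℤ) - (l : ℤ)) =
      (F r - ∑ l ∈ range L, c (r % N) l * (r : ℝ) ^ ((d : ℤ) - (l : ℤ))) +
      (G r - ∑ l ∈ range L, c' (r % N) l * (r : ℝ) ^ ((d : ℤ) - (l : ℤ))) := by
    simp only [add_mul, Finset.sum_add_distrib]; ring
  rw [e, add_mul]
  exact (abs_add_le _ _).trans (add_le_add (hB r hr) (hB' r hr))

theorem FEN.cmul {N d : ℕ} {F : ℕ → ℝ} (a : ℝ) (h : FEN N d F) : FEN N d (fun r => a * F r) := by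
  obtain ⟨c, hc⟩ := h
  refine ⟨fun ρ l => a * c ρ l, fun L => ?_⟩
  obtain ⟨B, hB⟩ := hc L
  refine ⟨|a| * B, fun r hr => ?_⟩
  have e : a * F r - ∑ l ∈ range L, (a * c (r % N) l) * (r : ℝ) ^ ((d : ℤ) - (l : ℤ)) =
      a * (F r - ∑ l ∈ range L, c (r % N) l * (r : ℝ) ^ ((d : ℤ) - (l : ℤ))) := by
    rw [mul_sub, Finset.mul_sum]
    simp only [mul_assoc]
  rw [e, abs_mul, mul_assoc]
  exact mul_le_mul_of_nonneg_left (hB r hr) (abs_nonneg _)

theorem FEN.congr {N d : ℕ} {F G : ℕ → ℝ} (h : FEN N d F) (hFG : ∀ r : ℕ, 1 ≤ r → F r = G r) :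
    FEN N d G := by
  obtain ⟨c, hc⟩ := h
  refine ⟨c, fun L => ?_⟩
  obtain ⟨B, hB⟩ := hc L
  exact ⟨B, fun r hr => by rw [← hFG r hr]; exact hB r hr⟩

theorem FEN.zero (N d : ℕ) : FEN N d (fun _ => 0) :=
  ⟨fun _ _ => 0, fun L => ⟨0, fun r _ => by simp⟩⟩

theorem FEN.sum {ι : Type*} {N d : ℕ} (S : Finset ι) {F : ι → ℕ → ℝ} (h : ∀ i ∈ S, FEN N d (F i)) :
    FEN N d (fun r => ∑ i ∈ S, F i r) := by
  classical
  induction S using Finset.induction_on with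
  | empty => simpa using FEN.zero N d
  | insert a S ha ih =>
    have h1 := (h a (mem_insert_self a S)).add (ih fun i hi => h i (mem_insert_of_mem hi))
    simpa only [Finset.sum_insert ha] using h1

theorem FEN.succ {N d : ℕ} {F : ℕ → ℝ} (h : FEN N d F) : FEN N (d + 1) F := by
  obtain ⟨c, hc⟩ := h
  refine ⟨fun ρ l => match l with | 0 => 0 | l + 1 => c ρ l, fun L => ?_⟩
  rcases L with _ | L
  · obtain ⟨B, hB⟩ := hc 0
    refine ⟨B, fun r hr => ?_⟩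
    have h1 := hB r hr
    simp only [range_zero, sum_empty, sub_zero, Nat.cast_zero, zpow_natCast] at h1 ⊢
    have hr1 : (1 : ℝ) ≤ r := by exact_mod_cast hr
    have hB0 : 0 ≤ B := by
      have h2 : 0 ≤ B * (r : ℝ) ^ d := (abs_nonneg _).trans h1
      have h3 : (0 : ℝ) < (r : ℝ) ^ d := by positivity
      exact nonneg_of_mul_nonneg_left h2 h3
    refine h1.trans (mul_le_mul_of_nonneg_left ?_ hB0)
    exact pow_le_pow_right₀ hr1 (by omega)
  · obtain ⟨B, hB⟩ := hc L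
    refine ⟨B, fun r hr => ?_⟩
    have h1 := hB r hr
    rw [Finset.sum_range_succ']
    have e1 : ∀ l : ℕ, (((d + 1 : ℕ) : ℤ) - ((l + 1 : ℕ) : ℤ)) = (d : ℤ) - (l : ℤ) := by
      intro l; push_cast; ring
    simp only [e1, zero_mul, add_zero]
    exact h1

theorem FEN.mono {N d d' : ℕ} {F : ℕ → ℝ} (h : FEN N d F) (hd : d ≤ d') : FEN N d' F := by
  obtain ⟨k, rfl⟩ := Nat.exists_eq_add_of_le hd
  clear hd
  induction k with
  | zero => exact h
  | succ k ih => exact ih.succ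

theorem FEN.mulr {N d : ℕ} {F : ℕ → ℝ} (h : FEN N d F) : FEN N (d + 1) (fun r => (r : ℝ) * F r) := by
  obtain ⟨c, hc⟩ := h
  refine ⟨c, fun L => ?_⟩
  obtain ⟨B, hB⟩ := hc L
  refine ⟨B, fun r hr => ?_⟩
  have h1 := hB r hr
  have hr0 : (0 : ℝ) < r := by exact_mod_cast (by omega : 0 < r)
  have e1 : ∀ l : ℕ, (r : ℝ) ^ (((d + 1 : ℕ) : ℤ) - (l : ℤ)) = r * (r : ℝ) ^ ((d : ℤ) - (l : ℤ)) := by
    intro l
    rw [show (((d + 1 : ℕ) : ℤ) - (l : ℤ)) = 1 + ((d : ℤ) - (l : ℤ)) by push_cast; ring,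
      zpow_add₀ hr0.ne', zpow_one]
  have e2 : (r : ℝ) * F r - ∑ l ∈ range L, c (r % N) l * (r : ℝ) ^ (((d + 1 : ℕ) : ℤ) - (l : ℤ)) =
      r * (F r - ∑ l ∈ range L, c (r % N) l * (r : ℝ) ^ ((d : ℤ) - (l : ℤ))) := by
    simp only [e1]
    rw [mul_sub, Finset.mul_sum]
    congr 1
    refine Finset.sum_congr rfl fun l _ => ?_
    ring
  rw [e2, abs_mul, abs_of_pos hr0, e1]
  calc (r : ℝ) * |F r - ∑ l ∈ range L, c (r % N) l * (r : ℝ) ^ ((d : ℤ) - (l : ℤ))| ≤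
      r * (B * (r : ℝ) ^ ((d : ℤ) - (L : ℤ))) := mul_le_mul_of_nonneg_left h1 hr0.le
    _ = _ := by ring

theorem FEN.mulpow {N d : ℕ} {F : ℕ → ℝ} (n : ℕ) (h : FEN N d F) :
    FEN N (d + n) (fun r => (r : ℝ) ^ n * F r) := by
  induction n with
  | zero => simpa using h
  | succ n ih =>
    have := ih.mulr
    refine this.congr fun r _ => ?_
    rw [pow_succ]; ring

theorem FEN.mulpoly {N d e : ℕ} {F : ℕ → ℝ} (p : ℝ[X]) (hp : p.natDegree ≤ e) (h : FEN N d F) :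
    FEN N (d + e) (fun r => p.eval (r : ℝ) * F r) := by
  have h1 : FEN N (d + e) (fun r => ∑ i ∈ range (p.natDegree + 1), p.coeff i * ((r : ℝ) ^ i * F r)) := by
    refine FEN.sum _ fun i hi => ?_
    exact ((h.mulpow i).cmul (p.coeff i)).mono (by have := mem_range.mp hi; omega)
  refine h1.congr fun r _ => ?_
  rw [Polynomial.eval_eq_sum_range, Finset.sum_mul]
  refine Finset.sum_congr rfl fun i _ => ?_
  ring

theorem FEN.neg {N d : ℕ} {F : ℕ → ℝ} (h : FEN N d F) : FEN N d (fun r => - F r) := by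
  have := h.cmul (-1)
  exact this.congr fun r _ => by ring

theorem FEN.sub {N d : ℕ} {F G : ℕ → ℝ} (h : FEN N d F) (h' : FEN N d G) :
    FEN N d (fun r => F r - G r) := by
  have := h.add h'.neg
  exact this.congr fun r _ => by ring

end H572AE
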