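import Mathlib
import Pool.Agent.H572.AE.Stm2

/-!
# NV: the alternating binomial sums do not vanish
-/

set_option autoImplicit false

open Finset

namespace H572AE.NV

/-- truncated powers -/
def pp (p : ℕ) (y : ℤ) : ℤ := if 0 < y then y ^ p else 0

theorem pp_succ (p : ℕ) (y : ℤ) : pp (p + 1) y = y * pp p y := by
  unfold pp
  split_ifs
  · rw [pow_succ, mul_comm]
  · rw [mul_zero]

/-- iterated differences of the truncated powers -/
def N : ℕ → ℕ → ℤ → ℤ
  | 0, p, x => pp p x
  | n + 1, p, x => N n p x - N n p (x - 2)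

theorem N_zero (p : ℕ) (x : ℤ) : N 0 p x = pp p x := rfl

theorem N_succ (n p : ℕ) (x : ℤ) : N (n + 1) p x = N n p x - N n p (x - 2) := rfl

theorem cdb (n p : ℕ) (x : ℤ) :
    N (n + 1) (p + 1) x = x * N n p x + (2 * n + 2 - x) * N n p (x - 2) := by
  induction n generalizing x with
  | zero =>
    rw [N_succ, N_zero, N_zero, N_zero, N_zero, pp_succ, pp_succ]
    push_cast
    ring
  | succ n ih =>
    rw [N_succ, ih, ih, N_succ n p x, N_succ n p (x - 2)]
    push_cast
    ring

theorem N_eq (n p : ℕ) (x : ℤ) :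
    N n p x = ∑ j ∈ range (n + 1), (-1) ^ j * (n.choose j : ℤ) * pp p (x - 2 * j) := by
  induction n generalizing x with
  | zero =>
    rw [N_zero, zero_add, sum_range_one]
    simp
  | succ n ih =>
    rw [N_succ, ih, ih, sum_range_succ' _ (n + 1)]
    have e1 : ∀ j ∈ range (n + 1), (-1 : ℤ) ^ (j + 1) * ((n + 1).choose (j + 1) : ℤ) *
        pp p (x - 2 * ((j + 1 : ℕ) : ℤ)) =
        -((-1) ^ j * (n.choose j : ℤ) * pp p (x - 2 - 2 * j)) +
        (-1) ^ (j + 1) * (n.choose (j + 1) : ℤ) * pp p (x - 2 * ((j + 1 : ℕ) : ℤ)) := by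
      intro j _
      rw [Nat.choose_succ_succ]
      have : x - 2 * ((j + 1 : ℕ) : ℤ) = x - 2 - 2 * j := by push_cast; ring
      rw [this]
      push_cast
      ring
    rw [sum_congr rfl e1, sum_add_distrib, sum_neg_distrib]
    have e2 : ∑ j ∈ range (n + 1), (-1 : ℤ) ^ j * (n.choose j : ℤ) * pp p (x - 2 * j) =
        (∑ j ∈ range (n + 1), (-1 : ℤ) ^ (j + 1) * (n.choose (j + 1) : ℤ) *
          pp p (x - 2 * ((j + 1 : ℕ) : ℤ))) + (-1) ^ 0 * (n.choose 0 : ℤ) *
          pp p (x - 2 * ((0 : ℕ) : ℤ)) := by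
      rw [← sum_range_succ' (fun j : ℕ => (-1 : ℤ) ^ j * (n.choose j : ℤ) *
        pp p (x - 2 * (j : ℤ))) (n + 1), sum_range_succ _ (n + 1), Nat.choose_succ_self]
      simp
    rw [e2, Nat.choose_zero_right, Nat.choose_zero_right]
    ring

theorem MM_eq (n p : ℕ) : MM n p = N n p n := by
  rw [N_eq, MM]
  have h1 : (n + 1) / 2 ≤ n + 1 := Nat.div_le_self _ _
  rw [← sum_range_add_sum_Ico _ h1]
  rw [sum_eq_zero (s := Ico ((n + 1) / 2) (n + 1)), add_zero]
  · refine sum_congr rfl fun j hj => ?_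
    rw [mem_range] at hj
    rw [pp, if_pos (by omega)]
  · intro j hj
    rw [mem_Ico] at hj
    rw [pp, if_neg (by omega), mul_zero]

theorem st1 (n p : ℕ) (x : ℤ) :
    N (n + 1) (p + 1) x = (x - 2 * n - 2) * N (n + 1) p x + (2 * n + 2) * N n p x := by
  rw [cdb, N_succ]
  ring

theorem st2 (n p : ℕ) (x : ℤ) :
    N (n + 1) (p + 1) x = x * N (n + 1) p x + (2 * n + 2) * N n p (x - 2) := by
  rw [cdb, N_succ]
  ring

/-- the recursion at the centre -/
theorem rec2 (k p : ℕ) : N (k + 2) (p + 2) (k + 2) = (k + 2) ^ 2 * N (k + 2) p (k + 2) +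
    4 * (k + 2) * (k + 1) * N k p k := by
  rw [st1 (k + 1) (p + 1), st2 (k + 1) p, st2 k p, N_succ (k + 1) p]
  have e : ((k : ℤ) + 2 - 2) = k := by ring
  rw [e]
  push_cast
  ring

theorem rec1 (p : ℕ) : N 1 p 1 = 1 := by
  rw [N_succ, N_zero, N_zero, pp, pp]
  norm_num

/-- the B-splines -/
theorem U_step (n : ℕ) (x : ℤ) : N (n + 3) (n + 2) x =
    x * N (n + 2) (n + 1) x + (2 * n + 6 - x) * N (n + 2) (n + 1) (x - 2) := by
  rw [cdb]
  push_cast
  ring

theorem U_zero (x : ℤ) : N 2 1 x = pp 1 x - 2 * pp 1 (x - 2) + pp 1 (x - 4) := by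
  rw [N_succ, N_succ, N_succ, N_zero, N_zero, N_zero]
  have : x - 2 - 2 = x - 4 := by ring
  rw [this]
  ring

theorem U_out (n : ℕ) : ∀ x : ℤ, (x ≤ 0 ∨ 2 * (n : ℤ) + 4 ≤ x) → N (n + 2) (n + 1) x = 0 := by
  induction n with
  | zero =>
    intro x hx
    rw [U_zero]
    unfold pp
    simp only [pow_one]
    push_cast at hx
    split_ifs <;> omega
  | succ n ih =>
    intro x hx
    push_cast at hx
    rw [U_step]
    rcases hx with hx | hx
    · rw [ih x (Or.inl hx), ih (x - 2) (Or.inl (by omega))]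
      ring
    · rw [ih x (Or.inr (by omega)), ih (x - 2) (Or.inr (by omega))]
      ring

theorem U_pos (n : ℕ) : ∀ x : ℤ, 0 < x → x < 2 * (n : ℤ) + 4 → 0 < N (n + 2) (n + 1) x := by
  induction n with
  | zero =>
    intro x h1 h2
    rw [U_zero]
    unfold pp
    simp only [pow_one]
    push_cast at h2
    split_ifs <;> omega
  | succ n ih =>
    intro x h1 h2
    push_cast at h2
    rw [U_step]
    have hnn : ∀ y : ℤ, 0 ≤ N (n + 2) (n + 1) y := by
      intro y
      by_cases hy : 0 < y ∧ y < 2 * (n : ℤ) + 4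
      · exact (ih y hy.1 hy.2).le
      · rw [U_out n y (by omega)]
    by_cases hx : x < 2 * (n : ℤ) + 4
    · have := mul_pos h1 (ih x h1 hx)
      have h4 := mul_nonneg (show (0 : ℤ) ≤ 2 * n + 6 - x by omega) (hnn (x - 2))
      linarith
    · have := mul_pos (show (0 : ℤ) < 2 * n + 6 - x by omega) (ih (x - 2) (by omega) (by omega))
      have h4 := mul_nonneg h1.le (hnn x)
      linarith

theorem U_symm (n : ℕ) : ∀ x : ℤ, N (n + 2) (n + 1) (2 * n + 4 - x) = N (n + 2) (n + 1) x := by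
  induction n with
  | zero =>
    intro x
    rw [U_zero, U_zero]
    unfold pp
    push_cast
    simp only [pow_one]
    split_ifs <;> omega
  | succ n ih =>
    intro x
    rw [U_step, U_step]
    push_cast
    have e1 : 2 * ((n : ℤ) + 1) + 4 - x = 2 * n + 4 - (x - 2) := by ring
    have e2 : 2 * (n : ℤ) + 4 - (x - 2) - 2 = 2 * n + 4 - x := by ring
    rw [e1, ih, e2, ih]
    ring

theorem U_mono (n : ℕ) : ∀ x : ℤ, 0 < x → x ≤ (n : ℤ) + 2 →
    N (n + 2) (n + 1) (x - 2) < N (n + 2) (n + 1) x := by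
  induction n with
  | zero =>
    intro x h1 h2
    rw [U_zero, U_zero]
    unfold pp
    simp only [pow_one]
    push_cast at h2
    split_ifs <;> omega
  | succ n ih =>
    intro x h1 h2
    push_cast at h2
    rw [U_step, U_step]
    have hD2 : N (n + 2) (n + 1) (x - 2 - 2) ≤ N (n + 2) (n + 1) (x - 2) := by
      by_cases hx : 0 < x - 2
      · exact (ih (x - 2) hx (by omega)).le
      · rw [U_out n (x - 2) (Or.inl (by omega)), U_out n (x - 2 - 2) (Or.inl (by omega))]
    by_cases hx : x ≤ (n : ℤ) + 2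
    · have h3 := mul_pos h1 (sub_pos.2 (ih x h1 hx))
      have h4 := mul_nonneg (show (0 : ℤ) ≤ 2 * n + 8 - x by omega) (sub_nonneg.2 hD2)
      linarith
    · have hx3 : x = n + 3 := by omega
      subst hx3
      have e1 := U_symm n ((n : ℤ) + 3)
      have e2 : 2 * (n : ℤ) + 4 - (n + 3) = n + 3 - 2 := by ring
      rw [e2] at e1
      have h5 := ih ((n : ℤ) + 3 - 2) (by omega) (by omega)
      have h6 := mul_pos (show (0 : ℤ) < n + 5 by omega) (sub_pos.2 h5)
      rw [e1] at h6 ⊢
      nlinarith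

theorem pos_base (n : ℕ) (hn : 1 ≤ n) : 0 < N n (n - 1) n := by
  rcases Nat.lt_or_ge n 2 with h | h
  · have : n = 1 := by omega
    subst this
    rw [show ((1 : ℕ) : ℤ) = 1 from rfl, rec1]
    norm_num
  · obtain ⟨k, rfl⟩ := Nat.exists_eq_add_of_le' h
    have := U_pos k ((k + 2 : ℕ) : ℤ) (by positivity) (by push_cast; omega)
    exact this

theorem pos_all (p : ℕ) : ∀ n : ℕ, 1 ≤ n → n ≤ p + 1 → (n + p) % 2 = 1 → 0 < N n p n := by
  induction p using Nat.strong_induction_on with
  | _ p ih =>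
    intro n h1 h2 h3
    rcases Nat.lt_or_ge p n with h | h
    · have : p = n - 1 := by omega
      rw [this]
      exact pos_base n h1
    · rcases Nat.lt_or_ge n 2 with h4 | h4
      · have : n = 1 := by omega
        subst this
        rw [show ((1 : ℕ) : ℤ) = 1 from rfl, rec1]
        norm_num
      · obtain ⟨k, rfl⟩ := Nat.exists_eq_add_of_le' h4
        obtain ⟨q, rfl⟩ : ∃ q, p = q + 2 := ⟨p - 2, by omega⟩
        have e := rec2 k q
        have h5 := ih q (by omega) (k + 2) (by omega) (by omega) (by omega)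
        push_cast at h5 ⊢
        rw [e]
        have h6 : 0 ≤ N k q k := by
          rcases Nat.eq_zero_or_pos k with rfl | hk
          · rw [N_zero, pp]
            simp
          · exact (ih q (by omega) k hk (by omega) (by omega)).le
        have h7 : (0 : ℤ) < (k + 2) ^ 2 * N (k + 2) q (k + 2) := by positivity
        have h8 : (0 : ℤ) ≤ 4 * (k + 2) * (k + 1) * N k q k := by positivity
        linarith

theorem neg_base (n : ℕ) (hn : 3 ≤ n) : N n (n - 3) n < 0 := by
  rcases Nat.lt_or_ge n 4 with h | h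
  · have : n = 3 := by omega
    subst this
    decide
  · obtain ⟨k, rfl⟩ := Nat.exists_eq_add_of_le' h
    have e1 : k + 4 - 3 = k + 1 := by omega
    rw [e1, N_succ (k + 3), N_succ (k + 2), N_succ (k + 2)]
    push_cast
    have e2 : (k : ℤ) + 4 - 2 = k + 2 := by ring
    have e3 : (k : ℤ) + 2 - 2 = k := by ring
    rw [e2, e3]
    have h1 := U_mono k ((k : ℤ) + 2) (by omega) le_rfl
    rw [e3] at h1
    have h2 := U_symm k (k : ℤ)
    have e4 : 2 * (k : ℤ) + 4 - k = k + 4 := by ring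
    rw [e4] at h2
    rw [h2]
    linarith

theorem main : S_nv := by
  intro n p h1 h2 h3
  rw [MM_eq]
  rcases Nat.lt_or_ge (p + 1) n with h | h
  · have e : p = n - 3 := by omega
    rw [e]
    exact (neg_base n (by omega)).ne
  · exact (pos_all p n h1 h h2).ne'

end H572AE.NV
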