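import Mathlib
import Pool.Agent.H572.AE.Stm2

/-!
# Project AE, piece SINP: even powers of the sine
-/

set_option autoImplicit false

open Finset Polynomial

namespace H572AE.SINP

theorem key (k : ℕ) (u : ℝ) : (-4 : ℝ) ^ k * Real.sin u ^ (2 * k) =
    ∑ m ∈ range (2 * k + 1), ((-1 : ℝ) ^ m * ((2 * k).choose m : ℝ)) *
      Real.cos (2 * ((k : ℝ) - m) * u) := by
  have hc : (((-4 : ℝ) ^ k * Real.sin u ^ (2 * k) : ℝ) : ℂ) =
      ∑ m ∈ range (2 * k + 1), (((-1 : ℝ) ^ m * ((2 * k).choose m : ℝ) : ℝ) : ℂ) *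
        Complex.exp (((2 * ((k : ℝ) - m) * u : ℝ) : ℂ) * Complex.I) := by
    have h1 : (-Complex.exp (-((u : ℂ) * Complex.I)) + Complex.exp ((u : ℂ) * Complex.I)) ^ (2 * k)
        = (((-4 : ℝ) ^ k * Real.sin u ^ (2 * k) : ℝ) : ℂ) := by
      have h2 : -Complex.exp (-((u : ℂ) * Complex.I)) + Complex.exp ((u : ℂ) * Complex.I) =
          2 * Complex.I * Complex.sin u := by
        have h3 : -((u : ℂ) * Complex.I) = (-(u : ℂ)) * Complex.I := by ring
        rw [h3, Complex.exp_mul_I, Complex.exp_mul_I, Complex.cos_neg, Complex.sin_neg]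
        ring
      have h5 : (2 * Complex.I * Complex.sin u) ^ 2 = -4 * Complex.sin u ^ 2 := by
        rw [mul_pow, mul_pow, Complex.I_sq]
        ring
      rw [h2, pow_mul, h5, mul_pow]
      push_cast
      rw [pow_mul]
    rw [← h1, add_pow]
    refine Finset.sum_congr rfl fun m hm => ?_
    have hm' : m ≤ 2 * k := by
      have := Finset.mem_range.1 hm
      omega
    rw [neg_pow, ← Complex.exp_nat_mul, ← Complex.exp_nat_mul, Nat.cast_sub hm']
    have h4 : ((-1 : ℂ) ^ m * Complex.exp ((m : ℂ) * -((u : ℂ) * Complex.I))) *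
        Complex.exp ((((2 * k : ℕ) : ℂ) - (m : ℂ)) * ((u : ℂ) * Complex.I)) =
        (-1 : ℂ) ^ m * Complex.exp (((2 * ((k : ℝ) - m) * u : ℝ) : ℂ) * Complex.I) := by
      rw [mul_assoc, ← Complex.exp_add]
      congr 2
      push_cast
      ring
    rw [h4]
    push_cast
    ring
  have hr := congrArg Complex.re hc
  rw [Complex.ofReal_re, Complex.re_sum] at hr
  rw [hr]
  refine Finset.sum_congr rfl fun m _ => ?_
  rw [Complex.re_ofReal_mul, Complex.exp_ofReal_mul_I_re]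

theorem main : H572AE.S_sinp := by
  intro k u hk
  have h1 := key k u
  have h0 := key k 0
  have hk0 : 2 * k ≠ 0 := by omega
  rw [Real.sin_zero, zero_pow hk0, mul_zero] at h0
  have h2 : (-4 : ℝ) ^ k * Real.sin u ^ (2 * k) =
      ∑ m ∈ range (2 * k + 1), ((-1 : ℝ) ^ m * ((2 * k).choose m : ℝ)) *
        (-2 * Real.sin (((k : ℝ) - m) * u) ^ 2) := by
    have h3 : (-4 : ℝ) ^ k * Real.sin u ^ (2 * k) = (-4 : ℝ) ^ k * Real.sin u ^ (2 * k) - 0 := by
      ring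
    rw [h3, h1, h0, ← Finset.sum_sub_distrib]
    refine Finset.sum_congr rfl fun m _ => ?_
    rw [mul_zero, Real.cos_zero]
    have h5 : 2 * ((k : ℝ) - m) * u = 2 * (((k : ℝ) - m) * u) := by ring
    rw [h5, Real.cos_two_mul', Real.cos_sq']
    ring
  -- splitting
  have h6 : ∑ m ∈ range (2 * k + 1), ((-1 : ℝ) ^ m * ((2 * k).choose m : ℝ)) *
        (-2 * Real.sin (((k : ℝ) - m) * u) ^ 2) =
      ∑ j ∈ range k, (-4 : ℝ) * ((-1 : ℝ) ^ (k + (j + 1)) * ((2 * k).choose (k - (j + 1)) : ℝ)) *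
        Real.sin (((j + 1 : ℕ) : ℝ) * u) ^ 2 := by
    have h7 : 2 * k + 1 = k + 1 + k := by ring
    rw [h7, Finset.sum_range_add, Finset.sum_range_succ, sub_self, zero_mul, Real.sin_zero]
    rw [← Finset.sum_range_reflect (fun m => ((-1 : ℝ) ^ m * ((2 * k).choose m : ℝ)) *
        (-2 * Real.sin (((k : ℝ) - m) * u) ^ 2)) k]
    have h8 : ((-1 : ℝ) ^ k * ((2 * k).choose k : ℝ)) * (-2 * (0 : ℝ) ^ 2) = 0 := by ring
    rw [h8, add_zero, ← Finset.sum_add_distrib]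
    refine Finset.sum_congr rfl fun j hj => ?_
    have hj' : j < k := Finset.mem_range.1 hj
    have e1 : k - 1 - j = k - (j + 1) := by omega
    have e2 : (2 * k).choose (k + 1 + j) = (2 * k).choose (k - (j + 1)) := by
      rw [← Nat.choose_symm (show k - (j + 1) ≤ 2 * k by omega)]
      congr 1
      omega
    have e3 : ((-1 : ℝ)) ^ (k - (j + 1)) = (-1) ^ (k + (j + 1)) := by
      have : k + (j + 1) = (k - (j + 1)) + 2 * (j + 1) := by omega
      rw [this, pow_add, pow_mul]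
      norm_num
    have e4 : ((k - (j + 1) : ℕ) : ℝ) = (k : ℝ) - ((j + 1 : ℕ) : ℝ) := Nat.cast_sub hj'
    have e5 : ((k : ℝ) - ((k : ℝ) - ((j + 1 : ℕ) : ℝ))) * u = ((j + 1 : ℕ) : ℝ) * u := by ring
    have e6 : ((k : ℝ) - ((k + 1 + j : ℕ) : ℝ)) * u = -(((j + 1 : ℕ) : ℝ) * u) := by
      push_cast
      ring
    have e7 : k + 1 + j = k + (j + 1) := by ring
    rw [e1, e2, e3, e4, e5, e6, Real.sin_neg, e7]
    ring
  have h9 : ∑ j ∈ Icc 1 k, ((-1 : ℝ) ^ (j + 1) * ((2 * k).choose (k - j) : ℝ) * 4 / 4 ^ k) *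
      Real.sin (j * u) ^ 2 = ∑ j ∈ range k, ((-1 : ℝ) ^ (j + 1 + 1) *
        ((2 * k).choose (k - (j + 1)) : ℝ) * 4 / 4 ^ k) * Real.sin (((j + 1 : ℕ) : ℝ) * u) ^ 2 := by
    rw [Finset.range_eq_Ico, Finset.sum_Ico_add' (fun j : ℕ => ((-1 : ℝ) ^ (j + 1) *
        ((2 * k).choose (k - j) : ℝ) * 4 / 4 ^ k) * Real.sin ((j : ℝ) * u) ^ 2) 0 k 1]
    rfl
  rw [h9]
  have h10 : (-4 : ℝ) ^ k ≠ 0 := pow_ne_zero _ (by norm_num)
  apply mul_left_cancel₀ h10
  rw [h2, h6, Finset.mul_sum]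
  refine Finset.sum_congr rfl fun j _ => ?_
  have h11 : (-4 : ℝ) ^ k = (-1) ^ k * 4 ^ k := by
    rw [← mul_pow]
    norm_num
  have h12 : (4 : ℝ) ^ k ≠ 0 := pow_ne_zero _ (by norm_num)
  rw [h11]
  field_simp
  ring

end H572AE.SINP
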