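import Mathlib
import Pool.Agent.H572.AE.FEN1
import Pool.Agent.H572.AE.FE5
import Pool.Agent.H572.AE.ASYE
import Pool.Agent.H572.AE.SINP
import Pool.Agent.H572.AE.NV

/-!
# The full expansion of the double sum for an even number of edges
-/

set_option autoImplicit false

open Finset Polynomial
open scoped ContDiff

namespace H572AE.FEE

open ASYE (FF v)

/-- The a < r with b r ≤ N a < (b+1) r. -/
def Sb (N b r : ℕ) : Finset ℕ := (range r).filter (fun a => b * r ≤ N * a ∧ N * a < (b + 1) * r)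

theorem sum_Sb (N r : ℕ) (hN : 1 ≤ N) (hr : 1 ≤ r) (φ : ℕ → ℝ) :
    ∑ a ∈ range r, φ a = ∑ b ∈ range N, ∑ a ∈ Sb N b r, φ a := by
  have h1 : ∀ a ∈ range r, N * a / r ∈ range N := by
    intro a ha
    have ha' := mem_range.mp ha
    rw [mem_range, Nat.div_lt_iff_lt_mul (by omega)]
    exact Nat.mul_lt_mul_of_pos_left ha' (by omega)
  rw [← Finset.sum_fiberwise_of_maps_to h1]
  refine Finset.sum_congr rfl fun b _ => Finset.sum_congr ?_ fun _ _ => rfl
  ext a
  simp only [Sb, mem_filter, mem_range]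
  constructor
  · rintro ⟨h2, h3⟩
    refine ⟨h2, ?_, ?_⟩
    · exact (Nat.le_div_iff_mul_le (by omega)).mp h3.ge
    · exact (Nat.div_lt_iff_lt_mul (by omega)).mp (by omega)
  · rintro ⟨h2, h3, h4⟩
    refine ⟨h2, ?_⟩
    have h5 := (Nat.le_div_iff_mul_le (show 0 < r by omega)).mpr h3
    have h6 := (Nat.div_lt_iff_lt_mul (show 0 < r by omega)).mpr h4
    omega

theorem Ps_add (H r c t : ℕ) (hr : 1 ≤ r) : Ps H r (c + t * r) = Ps H r c := by
  refine Finset.sum_congr rfl fun b _ => ?_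
  have hr' : (r : ℝ) ≠ 0 := by exact_mod_cast (by omega : r ≠ 0)
  have e1 : Real.pi * ((c + t * r : ℕ) : ℝ) * b / r = Real.pi * c * b / r + (t * b : ℕ) * Real.pi := by
    push_cast
    field_simp
  rw [e1, Real.sin_add_nat_mul_pi]
  congr 1
  rw [mul_pow, ← pow_mul, mul_comm (t * b) 2, pow_mul]
  simp

/-- The value of the inner sum as a function of x = a/r on an interval; t j is the integer part of j x. -/
noncomputable def Fb (k H : ℕ) (p : ℕ → ℝ[X]) (t : ℕ → ℕ) (r : ℕ) (x : ℝ) : ℝ :=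
  ∑ j ∈ Icc 1 k, ∑ i ∈ range (2 * H + 1), (v k j) * ((p i * X ^ i : ℝ[X]).eval (r : ℝ)) * (j * x - t j) ^ i

theorem FF_piece (k H : ℕ) (hk : 1 ≤ k) (p : ℕ → ℝ[X])
    (hp : ∀ r a : ℕ, 1 ≤ r → a ≤ r → Ps H r a = ∑ i ∈ range (2 * H + 1), (p i).eval (r : ℝ) * (a : ℝ) ^ i)
    (r b a : ℕ) (hr : 1 ≤ r) (ha : a ∈ Sb k.factorial b r) :
    FF k H r a = Fb k H p (fun j => b / (k.factorial / j)) r ((a : ℝ) / r) := by
  rw [ASYE.FF_eq SINP.main k H r a hk]
  unfold Fb
  refine Finset.sum_congr rfl fun j hj => ?_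
  have hj' := mem_Icc.mp hj
  have hr0 : (r : ℝ) ≠ 0 := by exact_mod_cast (by omega : r ≠ 0)
  obtain ⟨M, hM⟩ : j ∣ k.factorial := Nat.dvd_factorial (by omega) hj'.2
  have hMpos : 0 < M := by
    rcases Nat.eq_zero_or_pos M with h0 | h0
    · rw [h0, mul_zero] at hM; exact absurd hM (Nat.factorial_pos k).ne'
    · exact h0
  have hMj : k.factorial / j = M := by rw [hM]; exact Nat.mul_div_cancel_left M (by omega)
  simp only [Sb, mem_filter, mem_range] at ha
  obtain ⟨ha1, ha2, ha3⟩ := ha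
  rw [hM] at ha2 ha3
  have hMj' : b / (k.factorial / j) = b / M := by rw [hMj]
  simp only [hMj']
  set t := b / M with ht
  have ht1 : t * M ≤ b := Nat.div_mul_le_self b M
  have ht2 : b + 1 ≤ (t + 1) * M := by
    have := Nat.lt_div_mul_add hMpos (a := b)
    rw [← ht] at this
    have e : (t + 1) * M = t * M + M := by ring
    omega
  have h1 : t * r ≤ j * a := by
    have h2 : (t * r) * M ≤ (j * a) * M := by
      calc (t * r) * M = (t * M) * r := by ring
        _ ≤ b * r := Nat.mul_le_mul_right r ht1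
        _ ≤ j * M * a := ha2
        _ = (j * a) * M := by ring
    exact Nat.le_of_mul_le_mul_right h2 hMpos
  have h3 : j * a < (t + 1) * r := by
    have h2 : (j * a) * M < ((t + 1) * r) * M := by
      calc (j * a) * M = j * M * a := by ring
        _ < (b + 1) * r := ha3
        _ ≤ ((t + 1) * M) * r := Nat.mul_le_mul_right r ht2
        _ = ((t + 1) * r) * M := by ring
    exact Nat.lt_of_mul_lt_mul_right h2
  have h4 : j * a = (j * a - t * r) + t * r := by omega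
  have h5 : j * a - t * r ≤ r := by
    have e : (t + 1) * r = t * r + r := by ring
    omega
  have h6 : Ps H r (j * a) = ∑ i ∈ range (2 * H + 1), (p i).eval (r : ℝ) * ((j * a - t * r : ℕ) : ℝ) ^ i := by
    rw [← hp r (j * a - t * r) hr h5]
    conv_lhs => rw [h4]
    exact Ps_add H r _ t hr
  rw [h6, Finset.mul_sum]
  refine Finset.sum_congr rfl fun i _ => ?_
  have h7 : ((j * a - t * r : ℕ) : ℝ) = r * (j * ((a : ℝ) / r) - t) := by
    rw [Nat.cast_sub h1]
    push_cast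
    field_simp
  rw [h7, mul_pow]
  simp only [eval_mul, eval_pow, eval_X]
  ring

theorem fen_piece (hge : S_ge) (k H N b : ℕ) (hN : 1 ≤ N) (hb : b < N) (p : ℕ → ℝ[X])
    (hp1 : ∀ i ≤ 2 * H, (p i).natDegree ≤ 2 * H - i) (t : ℕ → ℕ) (δ : ℝ) (hδ : 0 < δ) (g : ℝ → ℝ)
    (hg : ContDiffOn ℝ ∞ g (Set.Ioo ((b : ℝ) / N - δ) (((b : ℝ) + 1) / N + δ))) :
    FEN N (2 * H + 1) (fun r => ∑ a ∈ Sb N b r, Fb k H p t r ((a : ℝ) / r) * g ((a : ℝ) / r)) := by
  have h1 : FEN N (2 * H + 1) (fun r => ∑ j ∈ Icc 1 k, ∑ i ∈ range (2 * H + 1),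
      (C (v k j) * (p i * X ^ i) : ℝ[X]).eval (r : ℝ) * ∑ a ∈ Sb N b r,
        (fun x : ℝ => (j * x - t j) ^ i * g x) ((a : ℝ) / r)) := by
    refine FEN.sum _ fun j _ => FEN.sum _ fun i hi => ?_
    have hi' := mem_range.mp hi
    have hdeg : (C (v k j) * (p i * X ^ i) : ℝ[X]).natDegree ≤ 2 * H := by
      refine (natDegree_C_mul_le _ _).trans (natDegree_mul_le.trans ?_)
      have h2 := hp1 i (by omega)
      have h3 := natDegree_X_pow_le (R := ℝ) i
      omega
    have hsm : ContDiffOn ℝ ∞ (fun x : ℝ => ((j : ℝ) * x - t j) ^ i * g x)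
        (Set.Ioo ((b : ℝ) / N - δ) (((b : ℝ) + 1) / N + δ)) := by
      refine ContDiffOn.mul ?_ hg
      exact (((contDiff_const.mul contDiff_id).sub contDiff_const).pow i).contDiffOn
    exact ((hge N b δ _ hN hb hδ hsm).mulpoly _ hdeg).mono (by omega)
  refine h1.congr fun r _ => ?_
  have h4 : ∀ a ∈ Sb N b r, Fb k H p t r ((a : ℝ) / r) * g ((a : ℝ) / r) = ∑ j ∈ Icc 1 k,
      ∑ i ∈ range (2 * H + 1), (C (v k j) * (p i * X ^ i) : ℝ[X]).eval (r : ℝ) *
        (fun x : ℝ => (j * x - t j) ^ i * g x) ((a : ℝ) / r) := by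
    intro a _
    unfold Fb
    rw [Finset.sum_mul]
    refine Finset.sum_congr rfl fun j _ => ?_
    rw [Finset.sum_mul]
    refine Finset.sum_congr rfl fun i _ => ?_
    simp only [eval_mul, eval_C]
    ring
  symm
  rw [Finset.sum_congr rfl h4, Finset.sum_comm]
  refine Finset.sum_congr rfl fun j _ => ?_
  rw [Finset.sum_comm]
  refine Finset.sum_congr rfl fun i _ => ?_
  rw [Finset.mul_sum]

theorem le_case (h2 : S_fe2) (h4 : S_fe4) (hge : S_ge) (k G H : ℕ) (hk : 1 ≤ k) (hH : 1 ≤ H)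
    (hkH : k ≤ H + 1) (hHG : H ≤ G) :
    ∃ Λ : ℝ[X], Λ.natDegree = 2 * H + 1 ∧
      FEN k.factorial (2 * G + 2 * H)
        (fun r => TT (2 * k) (2 * G) (2 * H) r - Λ.eval (r : ℝ) * Real.log r) := by
  obtain ⟨e1, e2, e3, e4⟩ := EO.main
  obtain ⟨p, hp1, hp2, hp3⟩ := FE5.coeffs H hH
  obtain ⟨c, hc, R, hR, hcR⟩ := h4 G (by omega)
  set N := k.factorial with hNdef
  have hN : 1 ≤ N := Nat.factorial_pos k
  have hNR : (0 : ℝ) < N := by exact_mod_cast (by omega : 0 < N)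
  set β : ℝ := (-4) ^ (H - 1) with hβ
  set w : ℕ → ℝ := fun s => 2 * (c s / Real.pi ^ (2 * s)) with hw
  set V : ℕ → ℝ := fun i => ∑ j ∈ Icc 1 k, v k j * (j : ℝ) ^ i with hV
  set Λ : ℝ[X] := ∑ s ∈ Icc 1 G, C (w s * (V (2 * (s - 1) + 1) *
    (β * (Od (H - 1)).coeff (2 * (s - 1) + 1)))) * X ^ (2 * s + 1) with hΛ
  have hco : ∀ s, H < s → (Od (H - 1)).coeff (2 * (s - 1) + 1) = 0 := fun s hs =>
    coeff_eq_zero_of_natDegree_lt (lt_of_le_of_lt (e3 (H - 1)) (by omega))
  refine ⟨Λ, ?_, ?_⟩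
  · apply natDegree_eq_of_le_of_coeff_ne_zero
    · rw [hΛ]
      refine natDegree_sum_le_of_forall_le _ _ fun s hs => ?_
      by_cases hsh : s ≤ H
      · exact (natDegree_C_mul_X_pow_le _ _).trans (by omega)
      · rw [hco s (by omega)]; simp
    · rw [hΛ, finsetSum_coeff, Finset.sum_eq_single H]
      · rw [coeff_C_mul, coeff_X_pow, if_pos rfl, mul_one]
        have h5 := e4 (H - 1)
        have h6 := hc H (mem_Icc.mpr ⟨hH, hHG⟩)
        have hpi := Real.pi_pos
        have hVne : V (2 * (H - 1) + 1) ≠ 0 := by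
          have := ASYE.v_sum NV.main k H hk hH hkH
          rw [show 2 * H - 1 = 2 * (H - 1) + 1 by omega] at this
          exact this
        rw [h5]
        have h7 : β ≠ 0 := pow_ne_zero _ (by norm_num)
        have h8 : w H ≠ 0 := by rw [hw]; positivity
        positivity
      · intro s _ hs
        rw [coeff_C_mul, coeff_X_pow, if_neg (by omega), mul_zero]
      · intro hn; exact absurd (mem_Icc.mpr ⟨hH, hHG⟩) hn
  · -- the first part: the polynomial near 0, summed over the whole range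
    have A1 : FE (2 * G + 2 * H) (fun r => ∑ s ∈ Icc 1 G, ∑ i ∈ range (2 * H + 1),
        (C (w s * V i) * X ^ (2 * s) * p i : ℝ[X]).eval (r : ℝ) *
          ((∑ a ∈ Ico 1 r, (a : ℝ) ^ i / (a : ℝ) ^ (2 * s)) - (if i + 1 = 2 * s then Real.log r else 0))) := by
      refine FE.sum _ fun s hs => FE.sum _ fun i hi => ?_
      have hs' := mem_Icc.mp hs
      have hi' := mem_range.mp hi
      have hdeg : (C (w s * V i) * X ^ (2 * s) * p i : ℝ[X]).natDegree ≤ 2 * s + (2 * H - i) :=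
        natDegree_mul_le.trans (add_le_add (natDegree_C_mul_X_pow_le _ _) (hp1 i (by omega)))
      refine ((FE5.W h2 i (2 * s) (by omega)).mulpoly _ hdeg).mono ?_
      split_ifs <;> omega
    -- the smooth part
    have A2 : FEN N (2 * G + 2 * H) (fun r => ∑ b ∈ range N, ∑ a ∈ Sb N b r,
        Fb k H p (fun j => b / (N / j)) r ((a : ℝ) / r) * R ((a : ℝ) / r)) := by
      refine FEN.sum _ fun b hb => ?_
      have hb' := mem_range.mp hb
      refine (fen_piece hge k H N b hN hb' p hp1 _ (1 / 2) (by norm_num) R ?_).mono (by omega)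
      refine hR.mono fun x hx => ?_
      have h5 : (0 : ℝ) ≤ (b : ℝ) / N := by positivity
      have h6 : ((b : ℝ) + 1) / N ≤ 1 := by
        rw [div_le_one hNR]; exact_mod_cast hb'
      have hx' := Set.mem_Ioo.mp hx
      exact Set.mem_Ioo.mpr ⟨by linarith [hx'.1], by linarith [hx'.2]⟩
    -- the singular part away from 0
    have A3 : FEN N (2 * G + 2 * H) (fun r => ∑ s ∈ Icc 1 G, (C (w s) : ℝ[X]).eval (r : ℝ) *
        ∑ b ∈ Ico 1 N, ((∑ a ∈ Sb N b r,
        Fb k H p (fun j => b / (N / j)) r ((a : ℝ) / r) * (fun x : ℝ => (x ^ (2 * s))⁻¹) ((a : ℝ) / r)) -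
          ∑ a ∈ Sb N b r, Fb k H p (fun _ => 0) r ((a : ℝ) / r) *
            (fun x : ℝ => (x ^ (2 * s))⁻¹) ((a : ℝ) / r))) := by
      refine FEN.sum _ fun s hs => ?_
      have h7 : FEN N (2 * H + 1) (fun r => ∑ b ∈ Ico 1 N, ((∑ a ∈ Sb N b r,
        Fb k H p (fun j => b / (N / j)) r ((a : ℝ) / r) * (fun x : ℝ => (x ^ (2 * s))⁻¹) ((a : ℝ) / r)) -
          ∑ a ∈ Sb N b r, Fb k H p (fun _ => 0) r ((a : ℝ) / r) *
            (fun x : ℝ => (x ^ (2 * s))⁻¹) ((a : ℝ) / r))) := by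
        refine FEN.sum _ fun b hb => ?_
        have hb' := mem_Ico.mp hb
        have hsm : ContDiffOn ℝ ∞ (fun x : ℝ => (x ^ (2 * s))⁻¹)
            (Set.Ioo ((b : ℝ) / N - 1 / (2 * N)) (((b : ℝ) + 1) / N + 1 / (2 * N))) := by
          refine ContDiffOn.inv (contDiff_id.pow _).contDiffOn fun x hx => ?_
          have hx' := (Set.mem_Ioo.mp hx).1
          have h8 : (1 : ℝ) ≤ b := by exact_mod_cast hb'.1
          have h9 : (1 : ℝ) / N ≤ (b : ℝ) / N := by gcongr
          have h10 : (1 : ℝ) / (2 * N) < 1 / N := by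
            rw [div_lt_div_iff₀ (by positivity) hNR]; linarith
          have hx0 : (0 : ℝ) < x := by linarith
          exact pow_ne_zero _ hx0.ne'
        have hδ : (0 : ℝ) < 1 / (2 * N) := by positivity
        exact (fen_piece hge k H N b hN hb'.2 p hp1 _ _ hδ _ hsm).sub
          (fen_piece hge k H N b hN hb'.2 p hp1 _ _ hδ _ hsm)
      exact (h7.mulpoly (e := 0) _ (by rw [natDegree_C])).mono (by omega)
    refine (((A1.toN N).add A2).add A3).congr fun r hr => ?_
    have hr0 : (0 : ℝ) < r := by exact_mod_cast (by omega : 0 < r)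
    have hpi := Real.pi_pos
    -- the logarithms
    have hlog : ∑ s ∈ Icc 1 G, ∑ i ∈ range (2 * H + 1),
        (C (w s * V i) * X ^ (2 * s) * p i : ℝ[X]).eval (r : ℝ) *
        (if i + 1 = 2 * s then Real.log r else 0) = Λ.eval (r : ℝ) * Real.log r := by
      rw [hΛ, eval_finsetSum, Finset.sum_mul]
      refine Finset.sum_congr rfl fun s hs => ?_
      have hs' := mem_Icc.mp hs
      by_cases hsh : s ≤ H
      · rw [Finset.sum_eq_single (2 * (s - 1) + 1)]
        · rw [if_pos (by omega), hp2 (s - 1)]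
          simp only [eval_mul, eval_C, eval_pow, eval_X]
          ring
        · intro i _ hi
          rw [if_neg (by omega), mul_zero]
        · intro hn
          exact absurd (mem_range.mpr (by omega)) hn
      · rw [hco s (by omega)]
        simp only [mul_zero, map_zero, zero_mul, eval_zero]
        refine Finset.sum_eq_zero fun i hi => ?_
        have hi' := mem_range.mp hi
        rw [if_neg (by omega), mul_zero]
    -- the expansion of the cosecant
    have hP : ∀ a ∈ Ico 1 r, FF k H r a / Real.sin (Real.pi * a / r) ^ (2 * G) =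
        (∑ s ∈ Icc 1 G, (c s / Real.pi ^ (2 * s)) * (r : ℝ) ^ (2 * s) * (FF k H r a / (a : ℝ) ^ (2 * s))) +
        (∑ s ∈ Icc 1 G, (c s / Real.pi ^ (2 * s)) * (r : ℝ) ^ (2 * s) *
          (FF k H r (r - a) / ((r - a : ℕ) : ℝ) ^ (2 * s))) + FF k H r a * R ((a : ℝ) / r) := by
      intro a ha
      have ha' := mem_Ico.mp ha
      have ha0 : (0 : ℝ) < a := by exact_mod_cast (by omega : 0 < a)
      have har : (a : ℝ) < r := by exact_mod_cast ha'.2
      have hra : (0 : ℝ) < (r : ℝ) - a := by linarith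
      have h10 := hcR ((a : ℝ) / r) (by positivity) (by rw [div_lt_one hr0]; exact har)
      have h11 : Real.pi * ((a : ℝ) / r) = Real.pi * a / r := by ring
      rw [h11] at h10
      rw [div_eq_mul_one_div, h10, ASYE.FF_symm k H r a ha'.2.le, mul_add, Finset.mul_sum,
        ← Finset.sum_add_distrib]
      congr 1
      refine Finset.sum_congr rfl fun s _ => ?_
      rw [Nat.cast_sub ha'.2.le]
      have h12 : Real.pi * (1 - (a : ℝ) / r) = Real.pi * ((r : ℝ) - a) / r := by field_simp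
      rw [h12, div_pow, div_pow, mul_pow, mul_pow]
      field_simp
    have hrefl : ∀ s, ∑ a ∈ Ico 1 r, FF k H r (r - a) / ((r - a : ℕ) : ℝ) ^ (2 * s) =
        ∑ a ∈ Ico 1 r, FF k H r a / (a : ℝ) ^ (2 * s) := by
      intro s
      have h13 := Finset.sum_Ico_reflect (fun a : ℕ => FF k H r a / (a : ℝ) ^ (2 * s)) 1 (m := r) (n := r)
        (by omega)
      rw [show r + 1 - r = 1 by omega, show r + 1 - 1 = r by omega] at h13
      exact h13
    -- values at a = 0
    have hF0 : FF k H r 0 = 0 := by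
      unfold ASYE.FF
      refine Finset.sum_eq_zero fun b _ => ?_
      simp only [Nat.cast_zero, mul_zero, zero_mul, zero_div, Real.sin_zero]
      rw [zero_pow (by omega), zero_div]
    have hrange : ∀ φ : ℕ → ℝ, φ 0 = 0 → ∑ a ∈ Ico 1 r, φ a = ∑ a ∈ range r, φ a := by
      intro φ hφ
      rw [Finset.range_eq_Ico, Finset.sum_eq_sum_Ico_succ_bot (show 0 < r by omega) φ, hφ, zero_add]
    -- the smooth part
    have hsmooth : ∑ a ∈ Ico 1 r, FF k H r a * R ((a : ℝ) / r) = ∑ b ∈ range N, ∑ a ∈ Sb N b r,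
        Fb k H p (fun j => b / (N / j)) r ((a : ℝ) / r) * R ((a : ℝ) / r) := by
      rw [hrange (fun a => FF k H r a * R ((a : ℝ) / r)) (by simp only [hF0, zero_mul]),
        sum_Sb N r hN hr]
      refine Finset.sum_congr rfl fun b _ => Finset.sum_congr rfl fun a ha => ?_
      rw [FF_piece k H hk p hp3 r b a hr ha]
    -- the polynomial near 0
    have hFz : ∀ a : ℕ, Fb k H p (fun _ => 0) r ((a : ℝ) / r) =
        ∑ i ∈ range (2 * H + 1), V i * (p i).eval (r : ℝ) * (a : ℝ) ^ i := by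
      intro a
      unfold Fb
      rw [Finset.sum_comm]
      refine Finset.sum_congr rfl fun i _ => ?_
      rw [hV]
      simp only
      rw [Finset.sum_mul, Finset.sum_mul]
      refine Finset.sum_congr rfl fun j _ => ?_
      simp only [eval_mul, eval_pow, eval_X, Nat.cast_zero, sub_zero]
      rw [mul_pow, div_pow]
      field_simp
    have hFz0 : Fb k H p (fun _ => 0) r (((0 : ℕ) : ℝ) / r) = 0 := by
      have h14 : (0 : ℕ) ∈ Sb N 0 r := by
        simp only [Sb, mem_filter, mem_range]; omega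
      have h15 := FF_piece k H hk p hp3 r 0 0 hr h14
      simp only [Nat.zero_div] at h15
      rw [← h15, hF0]
    have hsing : ∀ s, 1 ≤ s → ∑ a ∈ Ico 1 r, FF k H r a / (a : ℝ) ^ (2 * s) * (r : ℝ) ^ (2 * s) =
        (∑ a ∈ Ico 1 r, Fb k H p (fun _ => 0) r ((a : ℝ) / r) / (a : ℝ) ^ (2 * s) * (r : ℝ) ^ (2 * s)) +
        ∑ b ∈ Ico 1 N, ((∑ a ∈ Sb N b r,
        Fb k H p (fun j => b / (N / j)) r ((a : ℝ) / r) * (fun x : ℝ => (x ^ (2 * s))⁻¹) ((a : ℝ) / r)) -
          ∑ a ∈ Sb N b r, Fb k H p (fun _ => 0) r ((a : ℝ) / r) *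
            (fun x : ℝ => (x ^ (2 * s))⁻¹) ((a : ℝ) / r)) := by
      intro s hs
      have h16 : ∀ a ∈ Ico 1 r, FF k H r a / (a : ℝ) ^ (2 * s) * (r : ℝ) ^ (2 * s) =
          (Fb k H p (fun _ => 0) r ((a : ℝ) / r) / (a : ℝ) ^ (2 * s) * (r : ℝ) ^ (2 * s)) +
          (FF k H r a - Fb k H p (fun _ => 0) r ((a : ℝ) / r)) * (((a : ℝ) / r) ^ (2 * s))⁻¹ := by
        intro a ha
        have ha' := mem_Ico.mp ha
        have ha0 : (0 : ℝ) < a := by exact_mod_cast (by omega : 0 < a)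
        rw [div_pow]
        field_simp
        ring
      rw [Finset.sum_congr rfl h16, Finset.sum_add_distrib]
      congr 1
      rw [hrange (fun a => (FF k H r a - Fb k H p (fun _ => 0) r ((a : ℝ) / r)) *
        (((a : ℝ) / r) ^ (2 * s))⁻¹) (by simp only [hF0, hFz0, sub_zero, zero_mul]), sum_Sb N r hN hr,
        Finset.range_eq_Ico, Finset.sum_eq_sum_Ico_succ_bot (by omega)]
      have h17 : ∑ a ∈ Sb N 0 r, (FF k H r a - Fb k H p (fun _ => 0) r ((a : ℝ) / r)) *
        (((a : ℝ) / r) ^ (2 * s))⁻¹ = 0 := by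
        refine Finset.sum_eq_zero fun a ha => ?_
        have h15 := FF_piece k H hk p hp3 r 0 a hr ha
        simp only [Nat.zero_div] at h15
        rw [h15, sub_self, zero_mul]
      rw [h17, zero_add]
      refine Finset.sum_congr rfl fun b _ => ?_
      rw [← Finset.sum_sub_distrib]
      refine Finset.sum_congr rfl fun a ha => ?_
      rw [FF_piece k H hk p hp3 r b a hr ha]
      ring
    have hsum1 : ∀ s, ∑ a ∈ Ico 1 r, Fb k H p (fun _ => 0) r ((a : ℝ) / r) / (a : ℝ) ^ (2 * s) *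
        (r : ℝ) ^ (2 * s) = ∑ i ∈ range (2 * H + 1),
        V i * (p i).eval (r : ℝ) * (r : ℝ) ^ (2 * s) * ∑ a ∈ Ico 1 r, (a : ℝ) ^ i / (a : ℝ) ^ (2 * s) := by
      intro s
      have h18 : ∀ a ∈ Ico 1 r, Fb k H p (fun _ => 0) r ((a : ℝ) / r) / (a : ℝ) ^ (2 * s) *
          (r : ℝ) ^ (2 * s) = ∑ i ∈ range (2 * H + 1),
          V i * (p i).eval (r : ℝ) * (r : ℝ) ^ (2 * s) * ((a : ℝ) ^ i / (a : ℝ) ^ (2 * s)) := by
        intro a _
        rw [hFz a, Finset.sum_div, Finset.sum_mul]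
        refine Finset.sum_congr rfl fun i _ => ?_
        ring
      rw [Finset.sum_congr rfl h18, Finset.sum_comm]
      refine Finset.sum_congr rfl fun i _ => ?_
      rw [Finset.mul_sum]
    have hA1 : ∑ s ∈ Icc 1 G, ∑ i ∈ range (2 * H + 1),
        (C (w s * V i) * X ^ (2 * s) * p i : ℝ[X]).eval (r : ℝ) *
          ((∑ a ∈ Ico 1 r, (a : ℝ) ^ i / (a : ℝ) ^ (2 * s)) - (if i + 1 = 2 * s then Real.log r else 0)) =
        (∑ s ∈ Icc 1 G, w s * ∑ a ∈ Ico 1 r, Fb k H p (fun _ => 0) r ((a : ℝ) / r) / (a : ℝ) ^ (2 * s) *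
        (r : ℝ) ^ (2 * s)) - Λ.eval (r : ℝ) * Real.log r := by
      rw [← hlog, ← Finset.sum_sub_distrib]
      refine Finset.sum_congr rfl fun s _ => ?_
      rw [hsum1 s, Finset.mul_sum, ← Finset.sum_sub_distrib]
      refine Finset.sum_congr rfl fun i _ => ?_
      simp only [eval_mul, eval_C, eval_pow, eval_X]
      ring
    rw [hA1, ASYE.TT_eq, Finset.sum_congr rfl hP, Finset.sum_add_distrib, Finset.sum_add_distrib, hsmooth,
      Finset.sum_comm, Finset.sum_comm (s := Ico 1 r) (t := Icc 1 G)]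
    have h20 : ∀ s ∈ Icc 1 G, (∑ a ∈ Ico 1 r, (c s / Real.pi ^ (2 * s)) * (r : ℝ) ^ (2 * s) *
        (FF k H r a / (a : ℝ) ^ (2 * s))) + (∑ a ∈ Ico 1 r, (c s / Real.pi ^ (2 * s)) * (r : ℝ) ^ (2 * s) *
        (FF k H r (r - a) / ((r - a : ℕ) : ℝ) ^ (2 * s))) =
        w s * ∑ a ∈ Ico 1 r, FF k H r a / (a : ℝ) ^ (2 * s) * (r : ℝ) ^ (2 * s) := by
      intro s _
      rw [← Finset.mul_sum, ← Finset.mul_sum, hrefl s, hw]
      simp only
      rw [← Finset.sum_mul]
      ring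
    rw [← Finset.sum_add_distrib, Finset.sum_congr rfl h20]
    have h21 : ∀ s ∈ Icc 1 G, w s * ∑ a ∈ Ico 1 r, FF k H r a / (a : ℝ) ^ (2 * s) * (r : ℝ) ^ (2 * s) =
        w s * (∑ a ∈ Ico 1 r, Fb k H p (fun _ => 0) r ((a : ℝ) / r) / (a : ℝ) ^ (2 * s) *
        (r : ℝ) ^ (2 * s)) + (C (w s) : ℝ[X]).eval (r : ℝ) *
        ∑ b ∈ Ico 1 N, ((∑ a ∈ Sb N b r,
        Fb k H p (fun j => b / (N / j)) r ((a : ℝ) / r) * (fun x : ℝ => (x ^ (2 * s))⁻¹) ((a : ℝ) / r)) -
          ∑ a ∈ Sb N b r, Fb k H p (fun _ => 0) r ((a : ℝ) / r) *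
            (fun x : ℝ => (x ^ (2 * s))⁻¹) ((a : ℝ) / r)) := by
      intro s hs
      rw [hsing s (mem_Icc.mp hs).1, eval_C]
      ring
    rw [Finset.sum_congr rfl h21, Finset.sum_add_distrib]
    ring

theorem main (h2 : S_fe2) (h4 : S_fe4) (hge : S_ge) (k G H : ℕ) (hk : 1 ≤ k) (hG : 1 ≤ G) (hH : 1 ≤ H)
    (hkG : k ≤ G + 1) (hkH : k ≤ H + 1) :
    ∃ Λ : ℝ[X], Λ.natDegree = 2 * min G H + 1 ∧
      FEN k.factorial (2 * G + 2 * H)
        (fun r => TT (2 * k) (2 * G) (2 * H) r - Λ.eval (r : ℝ) * Real.log r) := by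
  rcases le_total H G with hle | hle
  · rw [min_eq_right hle]
    exact le_case h2 h4 hge k G H hk hH hkH hle
  · rw [min_eq_left hle]
    obtain ⟨Λ, hΛ, hF⟩ := le_case h2 h4 hge k H G hk hG hkG hle
    refine ⟨Λ, hΛ, ?_⟩
    rw [show 2 * G + 2 * H = 2 * H + 2 * G by ring]
    exact hF.congr fun r _ => by rw [FE5.TT_swap]

end H572AE.FEE
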