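import Mathlib
import Pool.Agent.H572.AE.Stm2

/-!
# Project AE, part 2, piece PHE: the odd sums at the other end (helper719)
-/

set_option autoImplicit false

open Finset Polynomial

namespace H572AE.PHE

/-- `F r (r - a)` is a polynomial in `a` whose coefficients are polynomials in `r` of small degree. -/
def Good (D : ℕ) (F : ℝ → ℝ → ℝ) : Prop :=
  ∃ g : ℕ → ℝ[X], (∀ j ≤ D, (g j).natDegree ≤ D - j) ∧
    ∀ r a : ℝ, F r (r - a) = ∑ j ∈ range (D + 1), (g j).eval r * a ^ j

theorem Good.add {D : ℕ} {F G : ℝ → ℝ → ℝ} (hF : Good D F) (hG : Good D G) :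
    Good D (fun r c => F r c + G r c) := by
  obtain ⟨f, hf, hf'⟩ := hF
  obtain ⟨g, hg, hg'⟩ := hG
  refine ⟨fun j => f j + g j, fun j hj => (natDegree_add_le _ _).trans
    (max_le (hf j hj) (hg j hj)), fun r a => ?_⟩
  simp only [hf', hg', eval_add, add_mul, sum_add_distrib]

theorem Good.smul {D : ℕ} {F : ℝ → ℝ → ℝ} (k : ℝ) (hF : Good D F) :
    Good D (fun r c => k * F r c) := by
  obtain ⟨f, hf, hf'⟩ := hF
  refine ⟨fun j => C k * f j, fun j hj => (natDegree_C_mul_le _ _).trans (hf j hj),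
    fun r a => ?_⟩
  simp only [hf', eval_mul, eval_C, mul_sum, mul_assoc]

theorem good_zero (D : ℕ) : Good D (fun _ _ => 0) := ⟨fun _ => 0, by simp, by simp⟩

theorem good_sum {D n : ℕ} {F : ℕ → ℝ → ℝ → ℝ} (h : ∀ i < n, Good D (F i)) :
    Good D (fun r c => ∑ i ∈ range n, F i r c) := by
  induction n with
  | zero =>
    simp only [range_zero, sum_empty]
    exact good_zero D
  | succ n ih =>
    simp only [sum_range_succ]
    exact (ih fun i hi => h i (by omega)).add (h n (by omega))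

theorem good_mul {D : ℕ} {w q : ℝ[X]} (h : w.natDegree + q.natDegree ≤ D) :
    Good D (fun r c => w.eval r * q.eval c) := by
  refine ⟨fun j => C ((-1) ^ j) * (w * hasseDeriv j q), fun j hj => ?_, fun r a => ?_⟩
  · refine (natDegree_C_mul_le _ _).trans ?_
    by_cases hq : q.natDegree < j
    · rw [hasseDeriv_eq_zero_of_lt_natDegree _ _ hq, mul_zero, natDegree_zero]
      exact Nat.zero_le _
    · refine natDegree_mul_le.trans ?_
      have := natDegree_hasseDeriv_le q j
      omega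
  · have h1 : q.eval (r - a) = (taylor r q).eval (-a) := by
      rw [taylor_eval]
      congr 1
      ring
    show w.eval r * q.eval (r - a) =
      ∑ j ∈ range (D + 1), (C ((-1) ^ j) * (w * hasseDeriv j q)).eval r * a ^ j
    rw [h1, eval_eq_sum_range' (p := taylor r q) (n := D + 1)
      (by rw [natDegree_taylor]; omega), mul_sum]
    refine sum_congr rfl fun j _ => ?_
    rw [taylor_coeff, neg_pow, eval_mul, eval_C, eval_mul]
    ring

theorem sum_two (f : ℕ → ℝ) (H : ℕ) : ∑ j ∈ range (2 * H), f j =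
    ∑ i ∈ range H, f (2 * i) + ∑ i ∈ range H, f (2 * i + 1) := by
  induction H with
  | zero => simp
  | succ n ih =>
    rw [show 2 * (n + 1) = 2 * n + 1 + 1 by ring, sum_range_succ, sum_range_succ, ih,
      sum_range_succ, sum_range_succ]
    ring

theorem ro_symm (H r a : ℕ) (hr : 1 ≤ r) (ha : a ≤ r) : RO H r (r + a) = - RO H r (r - a) := by
  unfold RO
  rw [← sum_neg_distrib]
  refine sum_congr rfl fun b _ => ?_
  have hr' : (r : ℝ) ≠ 0 := by positivity
  have e : Real.pi * ((r + a : ℕ) : ℝ) * b / r =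
      (b : ℝ) * (2 * Real.pi) - Real.pi * ((r - a : ℕ) : ℝ) * b / r := by
    rw [Nat.cast_sub ha]
    push_cast
    field_simp
    ring
  rw [e, Real.sin_nat_mul_two_pi_sub, neg_div]

theorem main (h1 : S_pho) (h2 : S_cp1) (h3 : S_evo) : S_phe := by
  intro H hH
  choose p hp hp' using h2
  -- the polynomial formula
  let P : ℕ → ℝ[X] := fun h => if hh : 1 ≤ h then p h hh else 0
  have hP : ∀ h, 1 ≤ h → (P h).natDegree ≤ 2 * h := by
    intro h hh
    simp only [P, dif_pos hh]
    exact hp h hh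
  have hP' : ∀ h, 1 ≤ h → ∀ r : ℕ, 1 ≤ r → Cs h r = (P h).eval (r : ℝ) := by
    intro h hh r hr
    simp only [P, dif_pos hh]
    exact hp' h hh r hr
  let F : ℝ → ℝ → ℝ := fun r c =>
    (∑ i ∈ range (H - 1), ((-1) ^ i / ((2 * i + 1).factorial : ℝ)) *
      ((P (H - 1 - i)).eval r * (X * VO i).eval c)) +
    (((-1) ^ (H - 1) / ((2 * H - 2).factorial : ℝ)) * ((X : ℝ[X]).eval r * (VO (H - 1)).eval c) +
      (-(-1) ^ (H - 1) / ((2 * H - 1).factorial : ℝ)) *
        ((1 : ℝ[X]).eval r * (X * VO (H - 1)).eval c))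
  have hXV : ∀ i, (X * VO i).natDegree ≤ 2 * i + 1 := by
    intro i
    refine natDegree_mul_le.trans ?_
    have := h3.1 i
    rw [natDegree_X]
    omega
  have hF : Good (2 * H - 1) F := by
    refine (good_sum fun i hi => (good_mul ?_).smul _).add
      (((good_mul ?_).smul _).add ((good_mul ?_).smul _))
    · have := hP (H - 1 - i) (by omega)
      have := hXV i
      omega
    · have := h3.1 (H - 1)
      rw [natDegree_X]
      omega
    · have := hXV (H - 1)
      rw [natDegree_one]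
      omega
  have hRO : ∀ r c : ℕ, 1 ≤ r → c % 2 = 1 → c < 2 * r → RO H r c = F r c := by
    intro r c hr hc hcr
    rw [h1 H r c hH hr hc hcr]
    have e : ∑ i ∈ range (H - 1), (-1) ^ i * Cs (H - 1 - i) r *
        ((X * VO i).eval (c : ℝ) / ((2 * i + 1).factorial : ℝ)) =
        ∑ i ∈ range (H - 1), ((-1) ^ i / ((2 * i + 1).factorial : ℝ)) *
          ((P (H - 1 - i)).eval (r : ℝ) * (X * VO i).eval (c : ℝ)) := by
      refine sum_congr rfl fun i hi => ?_
      rw [mem_range] at hi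
      rw [hP' (H - 1 - i) (by omega) r hr]
      ring
    rw [e]
    simp only [F, eval_X, eval_one]
    ring
  obtain ⟨g, hg, hg'⟩ := hF
  refine ⟨fun i => g (2 * i + 1), fun i hi => ?_, 4 * H, fun r a hr har hpar => ?_⟩
  · have := hg (2 * i + 1) (by omega)
    show (g (2 * i + 1)).natDegree ≤ _
    omega
  have hr1 : 1 ≤ r := by omega
  have hD : 2 * H - 1 + 1 = 2 * H := by omega
  have hminus : ∀ a : ℕ, a < r → (a + r) % 2 = 1 → RO H r (r - a) =
      ∑ i ∈ range H, (g (2 * i)).eval (r : ℝ) * (a : ℝ) ^ (2 * i) +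
        ∑ i ∈ range H, (g (2 * i + 1)).eval (r : ℝ) * (a : ℝ) ^ (2 * i + 1) := by
    intro a ha hpa
    rw [hRO r (r - a) hr1 (by omega) (by omega), Nat.cast_sub ha.le, hg', hD,
      sum_two (fun j => (g j).eval (r : ℝ) * (a : ℝ) ^ j)]
  have hplus : ∀ a : ℕ, a < r → (a + r) % 2 = 1 → RO H r (r + a) =
      ∑ i ∈ range H, (g (2 * i)).eval (r : ℝ) * (a : ℝ) ^ (2 * i) -
        ∑ i ∈ range H, (g (2 * i + 1)).eval (r : ℝ) * (a : ℝ) ^ (2 * i + 1) := by
    intro a ha hpa
    have e : ((r + a : ℕ) : ℝ) = (r : ℝ) - (-(a : ℝ)) := by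
      push_cast
      ring
    rw [hRO r (r + a) hr1 (by omega) (by omega), e, hg', hD,
      sum_two (fun j => (g j).eval (r : ℝ) * (-(a : ℝ)) ^ j), sub_eq_add_neg,
      ← sum_neg_distrib]
    congr 1
    · refine sum_congr rfl fun i _ => ?_
      rw [Even.neg_pow ⟨i, by ring⟩]
    · refine sum_congr rfl fun i _ => ?_
      rw [Odd.neg_pow ⟨i, by ring⟩]
      ring
  have hzero : ∀ a : ℕ, a < r → (a + r) % 2 = 1 →
      ∑ i ∈ range H, (g (2 * i)).eval (r : ℝ) * (a : ℝ) ^ (2 * i) = 0 := by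
    intro a ha hpa
    have e1 := hminus a ha hpa
    have e2 := hplus a ha hpa
    have e3 := ro_symm H r a hr1 ha.le
    linarith
  -- the even part vanishes
  set E : ℝ[X] := ∑ i ∈ range H, C ((g (2 * i)).eval (r : ℝ)) * X ^ (2 * i) with hE
  have hEe : ∀ x : ℝ, E.eval x = ∑ i ∈ range H, (g (2 * i)).eval (r : ℝ) * x ^ (2 * i) := by
    intro x
    rw [hE, eval_finsetSum]
    exact sum_congr rfl fun i _ => by simp
  have hEd : E.natDegree < Fintype.card (Fin (2 * H)) := by
    rw [Fintype.card_fin]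
    refine lt_of_le_of_lt (natDegree_sum_le_of_forall_le (n := 2 * H - 1) _ _ fun i hi => ?_)
      (by omega)
    rw [mem_range] at hi
    refine (natDegree_C_mul_X_pow_le _ _).trans ?_
    omega
  have hE0 : E = 0 := by
    refine eq_zero_of_natDegree_lt_card_of_eval_eq_zero E
      (f := fun k : Fin (2 * H) => ((2 * (k : ℕ) + (r + 1) % 2 : ℕ) : ℝ)) ?_ ?_ hEd
    · intro k l hkl
      have h : 2 * (k : ℕ) + (r + 1) % 2 = 2 * (l : ℕ) + (r + 1) % 2 := Nat.cast_injective hkl
      exact Fin.ext (by omega)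
    · intro k
      rw [hEe]
      exact hzero _ (by have := k.2; omega) (by omega)
  have hfin : ∑ i ∈ range H, (g (2 * i)).eval (r : ℝ) * (a : ℝ) ^ (2 * i) = 0 := by
    rw [← hEe, hE0, eval_zero]
  rw [hminus a har hpar, hfin, zero_add]

end H572AE.PHE
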