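import Mathlib
import Pool.Agent.H572.AE.Stm2

set_option autoImplicit false

open Finset Polynomial

namespace H572AE.PHO

/-! ### Trigonometric sums -/

theorem sin_ne {r b : ℕ} (hb : b ∈ Ico 1 r) : Real.sin (Real.pi * b / r) ≠ 0 := by
  rw [mem_Ico] at hb
  have hr : (0 : ℝ) < r := by exact_mod_cast (by omega : 0 < r)
  have hb1 : (1 : ℝ) ≤ b := by exact_mod_cast hb.1
  have hb2 : (b : ℝ) < r := by exact_mod_cast hb.2
  apply ne_of_gt
  apply Real.sin_pos_of_pos_of_lt_pi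
  · positivity
  · rw [div_lt_iff₀ hr]
    exact mul_lt_mul_of_pos_left hb2 Real.pi_pos

theorem tele (θ : ℝ) (n : ℕ) : ∑ b ∈ range n, 2 * Real.sin θ * Real.cos (2 * b * θ) =
    Real.sin ((2 * n - 1) * θ) + Real.sin θ := by
  induction n with
  | zero => simp
  | succ n ih =>
    rw [sum_range_succ, ih]
    have e1 : (2 * ((n + 1 : ℕ) : ℝ) - 1) * θ = 2 * n * θ + θ := by push_cast; ring
    have e2 : (2 * (n : ℝ) - 1) * θ = 2 * n * θ - θ := by ring
    rw [e1, e2, Real.sin_add, Real.sin_sub]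
    ring

theorem sum_cos {r a : ℕ} (ha : 1 ≤ a) (har : a < r) :
    ∑ b ∈ Ico 1 r, Real.cos (2 * b * (Real.pi * a / r)) = -1 := by
  have hr : (0 : ℝ) < r := by exact_mod_cast (by omega : 0 < r)
  have hs : Real.sin (Real.pi * a / r) ≠ 0 := sin_ne (mem_Ico.2 ⟨ha, har⟩)
  have h1 := tele (Real.pi * a / r) r
  have h2 : Real.sin ((2 * r - 1) * (Real.pi * a / r)) = - Real.sin (Real.pi * a / r) := by
    have e : (2 * (r : ℝ) - 1) * (Real.pi * a / r) = (a : ℕ) * (2 * Real.pi) - Real.pi * a / r := by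
      field_simp
    rw [e, Real.sin_nat_mul_two_pi_sub]
  rw [h2, neg_add_cancel, ← mul_sum] at h1
  have h3 : ∑ b ∈ range r, Real.cos (2 * b * (Real.pi * a / r)) = 0 := by
    rcases mul_eq_zero.1 h1 with h | h
    · exact absurd (by linarith) hs
    · exact h
  rw [range_eq_Ico, sum_eq_sum_Ico_succ_bot (by omega)] at h3
  simp only [Nat.cast_zero, mul_zero, zero_mul, Real.cos_zero, zero_add] at h3
  linarith

/-- the sums with a real parameter -/
noncomputable def G (h r : ℕ) (x : ℝ) : ℝ :=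
  ∑ b ∈ Ico 1 r, Real.sin (Real.pi * x * b / r) / Real.sin (Real.pi * b / r) ^ (2 * h + 1)

theorem RO_eq (h r c : ℕ) : RO (h + 1) r c = G h r (c : ℝ) := by
  unfold RO G
  have e : 2 * (h + 1) - 1 = 2 * h + 1 := by omega
  rw [e]

theorem G_rec (h r : ℕ) (x : ℝ) : G (h + 1) r (x + 2) - 2 * G (h + 1) r x + G (h + 1) r (x - 2) =
    -4 * G h r x := by
  unfold G
  rw [mul_sum, mul_sum, ← sum_sub_distrib, ← sum_add_distrib]
  refine sum_congr rfl fun b hb => ?_
  have hs := sin_ne hb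
  have e1 : Real.pi * (x + 2) * b / r = Real.pi * x * b / r + 2 * (Real.pi * b / r) := by ring
  have e2 : Real.pi * (x - 2) * b / r = Real.pi * x * b / r - 2 * (Real.pi * b / r) := by ring
  rw [e1, e2, Real.sin_add, Real.sin_sub, Real.cos_two_mul, Real.sin_two_mul]
  have hc : Real.cos (Real.pi * b / r) ^ 2 = 1 - Real.sin (Real.pi * b / r) ^ 2 := by
    have := Real.sin_sq_add_cos_sq (Real.pi * b / r)
    linarith
  rw [hc]
  generalize Real.sin (Real.pi * x * b / r) = A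
  generalize Real.cos (Real.pi * x * b / r) = B
  generalize Real.cos (Real.pi * b / r) = D
  generalize Real.sin (Real.pi * b / r) = s at *
  have h2 : s ^ (2 * (h + 1) + 1) = s ^ (2 * h + 1) * s ^ 2 := by ring
  have hsp : s ^ (2 * h + 1) ≠ 0 := pow_ne_zero _ hs
  rw [h2]
  field_simp
  ring

theorem G_neg (h r : ℕ) (x : ℝ) : G h r (-x) = - G h r x := by
  unfold G
  rw [← sum_neg_distrib]
  refine sum_congr rfl fun b _ => ?_
  have e1 : Real.pi * (-x) * b / r = -(Real.pi * x * b / r) := by ring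
  rw [e1, Real.sin_neg, neg_div]

theorem G_one (h r : ℕ) : G h r 1 = Cs h r := by
  unfold G Cs
  refine sum_congr rfl fun b hb => ?_
  have hs := sin_ne hb
  rw [mul_one, pow_succ]
  field_simp

theorem Cs_zero {r : ℕ} (hr : 1 ≤ r) : Cs 0 r = r - 1 := by
  unfold Cs
  simp [Nat.cast_sub hr]

theorem G_base {r : ℕ} (hr : 1 ≤ r) : ∀ n : ℕ, n < r → G 0 r (2 * n + 1) = r - (2 * n + 1) := by
  intro n
  induction n with
  | zero =>
    intro _
    simp only [Nat.cast_zero, mul_zero, zero_add]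
    rw [G_one, Cs_zero hr]
  | succ n ih =>
    intro hn
    have h1 := ih (by omega)
    have h2 := sum_cos (r := r) (a := n + 1) (by omega) hn
    have h3 : G 0 r (2 * ((n + 1 : ℕ) : ℝ) + 1) - G 0 r (2 * n + 1) =
        ∑ b ∈ Ico 1 r, 2 * Real.cos (2 * b * (Real.pi * ((n + 1 : ℕ) : ℝ) / r)) := by
      unfold G
      rw [← sum_sub_distrib]
      refine sum_congr rfl fun b hb => ?_
      have hs := sin_ne hb
      have e1 : Real.pi * (2 * ((n + 1 : ℕ) : ℝ) + 1) * b / r =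
          2 * b * (Real.pi * ((n + 1 : ℕ) : ℝ) / r) + Real.pi * b / r := by ring
      have e2 : Real.pi * (2 * (n : ℝ) + 1) * b / r =
          2 * b * (Real.pi * ((n + 1 : ℕ) : ℝ) / r) - Real.pi * b / r := by push_cast; ring
      rw [e1, e2, Real.sin_add, Real.sin_sub]
      rw [mul_zero, zero_add, pow_one]
      generalize Real.sin (2 * b * (Real.pi * ((n + 1 : ℕ) : ℝ) / r)) = A
      generalize Real.cos (2 * b * (Real.pi * ((n + 1 : ℕ) : ℝ) / r)) = B
      generalize Real.cos (Real.pi * b / r) = D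
      generalize Real.sin (Real.pi * b / r) = s at *
      field_simp
      ring
    rw [← mul_sum, h2] at h3
    push_cast at h3 ⊢
    linarith

/-! ### the polynomials -/

/-- the values -/
noncomputable def v (n : ℕ) (x : ℝ) : ℝ := (VO n).eval x

theorem v_zero (x : ℝ) : v 0 x = 1 := by simp [v, VO]

theorem v_succ (n : ℕ) (x : ℝ) : v (n + 1) x = v n x * (x ^ 2 - (2 * (n : ℝ) + 1) ^ 2) := by
  show (VO n * (X ^ 2 - C ((2 * (n : ℝ) + 1) ^ 2))).eval x = _
  rw [eval_mul, eval_sub, eval_pow, eval_X, eval_C]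
  rfl

theorem v_up (n : ℕ) (x : ℝ) :
    v (n + 1) (x + 2) = v n x * ((x + 2 * n + 1) * (x + 2 * n + 3)) := by
  induction n with
  | zero => rw [v_succ, v_zero, v_zero]; push_cast; ring
  | succ n ih =>
    rw [v_succ (n + 1), ih, v_succ n]
    push_cast
    ring

theorem v_down (n : ℕ) (x : ℝ) :
    v (n + 1) (x - 2) = v n x * ((x - 2 * n - 1) * (x - 2 * n - 3)) := by
  induction n with
  | zero => rw [v_succ, v_zero, v_zero]; push_cast; ring
  | succ n ih =>
    rw [v_succ (n + 1), ih, v_succ n]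
    push_cast
    ring

theorem v_one (n : ℕ) : v (n + 1) 1 = 0 := by
  induction n with
  | zero => rw [v_succ, v_zero]; norm_num
  | succ n ih => rw [v_succ, ih, zero_mul]

theorem v_neg_one (n : ℕ) : v (n + 1) (-1) = 0 := by
  induction n with
  | zero => rw [v_succ, v_zero]; norm_num
  | succ n ih => rw [v_succ, ih, zero_mul]

/-- odd basis functions -/
noncomputable def A (n : ℕ) (x : ℝ) : ℝ := x * v n x / ((2 * n + 1).factorial : ℝ)

/-- even basis functions -/
noncomputable def E (n : ℕ) (x : ℝ) : ℝ := v n x / ((2 * n).factorial : ℝ)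

theorem A_rec (n : ℕ) (x : ℝ) :
    A (n + 1) (x + 2) - 2 * A (n + 1) x + A (n + 1) (x - 2) = 4 * A n x := by
  unfold A
  rw [v_up, v_down, v_succ]
  have h1 : (((2 * (n + 1) + 1).factorial : ℕ) : ℝ) =
      ((2 * n + 1).factorial : ℝ) * ((2 * n + 2) * (2 * n + 3)) := by
    have : 2 * (n + 1) + 1 = (2 * n + 1) + 1 + 1 := by ring
    rw [this, Nat.factorial_succ, Nat.factorial_succ]
    push_cast
    ring
  have h2 : ((2 * n + 1).factorial : ℝ) ≠ 0 := by exact_mod_cast (Nat.factorial_pos _).ne'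
  have h3 : (2 * (n : ℝ) + 2) ≠ 0 := by positivity
  have h4 : (2 * (n : ℝ) + 3) ≠ 0 := by positivity
  rw [h1]
  field_simp
  ring

theorem E_rec (n : ℕ) (x : ℝ) :
    E (n + 1) (x + 2) - 2 * E (n + 1) x + E (n + 1) (x - 2) = 4 * E n x := by
  unfold E
  rw [v_up, v_down, v_succ]
  have h1 : (((2 * (n + 1)).factorial : ℕ) : ℝ) =
      ((2 * n).factorial : ℝ) * ((2 * n + 1) * (2 * n + 2)) := by
    have : 2 * (n + 1) = (2 * n) + 1 + 1 := by ring
    rw [this, Nat.factorial_succ, Nat.factorial_succ]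
    push_cast
    ring
  have h2 : ((2 * n).factorial : ℝ) ≠ 0 := by exact_mod_cast (Nat.factorial_pos _).ne'
  have h3 : (2 * (n : ℝ) + 1) ≠ 0 := by positivity
  have h4 : (2 * (n : ℝ) + 2) ≠ 0 := by positivity
  rw [h1]
  field_simp
  ring

theorem A_zero (x : ℝ) : A 0 x = x := by
  unfold A
  rw [v_zero]
  norm_num [Nat.factorial]

theorem E_zero (x : ℝ) : E 0 x = 1 := by
  unfold E
  rw [v_zero]
  norm_num [Nat.factorial]

theorem A_one (n : ℕ) : A (n + 1) 1 = 0 := by unfold A; rw [v_one]; simp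
theorem A_neg_one (n : ℕ) : A (n + 1) (-1) = 0 := by unfold A; rw [v_neg_one]; simp
theorem E_one (n : ℕ) : E (n + 1) 1 = 0 := by unfold E; rw [v_one]; simp
theorem E_neg_one (n : ℕ) : E (n + 1) (-1) = 0 := by unfold E; rw [v_neg_one]; simp

/-- the right side -/
noncomputable def W (h r : ℕ) (x : ℝ) : ℝ :=
  (∑ i ∈ range h, (-1) ^ i * Cs (h - i) r * A i x) + (-1) ^ h * (r * E h x - A h x)

theorem W_zero (r : ℕ) (x : ℝ) : W 0 r x = r - x := by
  unfold W
  rw [range_zero, sum_empty, E_zero, A_zero]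
  ring

theorem W_one (h r : ℕ) : W (h + 1) r 1 = Cs (h + 1) r := by
  unfold W
  rw [sum_range_succ', E_one, A_one, A_zero, Nat.sub_zero]
  have : ∑ i ∈ range h, (-1 : ℝ) ^ (i + 1) * Cs (h + 1 - (i + 1)) r * A (i + 1) 1 = 0 :=
    sum_eq_zero fun i _ => by rw [A_one, mul_zero]
  rw [this]
  ring

theorem W_neg_one (h r : ℕ) : W (h + 1) r (-1) = - Cs (h + 1) r := by
  unfold W
  rw [sum_range_succ', E_neg_one, A_neg_one, A_zero, Nat.sub_zero]
  have : ∑ i ∈ range h, (-1 : ℝ) ^ (i + 1) * Cs (h + 1 - (i + 1)) r * A (i + 1) (-1) = 0 :=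
    sum_eq_zero fun i _ => by rw [A_neg_one, mul_zero]
  rw [this]
  ring

theorem W_rec (h r : ℕ) (x : ℝ) : W (h + 1) r (x + 2) - 2 * W (h + 1) r x + W (h + 1) r (x - 2) =
    -4 * W h r x := by
  unfold W
  have h1 : (∑ i ∈ range (h + 1), (-1 : ℝ) ^ i * Cs (h + 1 - i) r * A i (x + 2)) -
      2 * (∑ i ∈ range (h + 1), (-1 : ℝ) ^ i * Cs (h + 1 - i) r * A i x) +
      (∑ i ∈ range (h + 1), (-1 : ℝ) ^ i * Cs (h + 1 - i) r * A i (x - 2)) =
      -4 * ∑ i ∈ range h, (-1 : ℝ) ^ i * Cs (h - i) r * A i x := by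
    rw [mul_sum, ← sum_sub_distrib, ← sum_add_distrib, sum_range_succ', A_zero, A_zero, A_zero,
      mul_sum]
    have h2 : ∀ i ∈ range h, (-1 : ℝ) ^ (i + 1) * Cs (h + 1 - (i + 1)) r * A (i + 1) (x + 2) -
        2 * ((-1 : ℝ) ^ (i + 1) * Cs (h + 1 - (i + 1)) r * A (i + 1) x) +
        (-1 : ℝ) ^ (i + 1) * Cs (h + 1 - (i + 1)) r * A (i + 1) (x - 2) =
        -4 * ((-1 : ℝ) ^ i * Cs (h - i) r * A i x) := by
      intro i _
      have e : h + 1 - (i + 1) = h - i := by omega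
      rw [e]
      have h3 := A_rec i x
      rw [pow_succ]
      linear_combination (-(-1 : ℝ) ^ i * Cs (h - i) r) * h3
    rw [sum_congr rfl h2]
    ring
  have h3 := A_rec h x
  have h4 := E_rec h x
  rw [pow_succ]
  linear_combination h1 + (-(-1 : ℝ) ^ h) * r * h4 + (-1 : ℝ) ^ h * h3

theorem two_step (F : ℕ → ℝ) (r : ℕ) (h0 : F 0 = 0) (h1 : 1 ≤ r → F 1 = 0)
    (h2 : ∀ a, a + 2 ≤ r → F (a + 2) - 2 * F (a + 1) + F a = 0) : ∀ a ≤ r, F a = 0 := by
  intro a
  induction a using Nat.strong_induction_on with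
  | _ a ih =>
    intro ha
    match a, ih, ha with
    | 0, _, _ => exact h0
    | 1, _, ha => exact h1 ha
    | a + 2, ih, ha =>
      have e1 := ih a (by omega) (by omega)
      have e2 := ih (a + 1) (by omega) (by omega)
      have e3 := h2 a ha
      rw [e1, e2] at e3
      linarith

theorem key (r : ℕ) (hr : 1 ≤ r) (h : ℕ) : ∀ n < r, G h r (2 * n + 1) = W h r (2 * n + 1) := by
  induction h with
  | zero =>
    intro n hn
    rw [G_base hr n hn, W_zero]
  | succ h ih =>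
    intro n hn
    have h1 := two_step (fun a : ℕ => G (h + 1) r (2 * (a : ℝ) - 1) - W (h + 1) r (2 * (a : ℝ) - 1))
      r ?_ ?_ ?_ (n + 1) (by omega)
    · have e : 2 * ((n + 1 : ℕ) : ℝ) - 1 = 2 * n + 1 := by push_cast; ring
      simp only [e] at h1
      linarith
    · simp only [Nat.cast_zero, mul_zero, zero_sub]
      rw [G_neg, G_one, W_neg_one]
      ring
    · intro _
      have e : 2 * ((1 : ℕ) : ℝ) - 1 = 1 := by push_cast; ring
      simp only [e]
      rw [G_one, W_one]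
      ring
    · intro a ha
      have e1 : 2 * ((a + 2 : ℕ) : ℝ) - 1 = (2 * a + 1) + 2 := by push_cast; ring
      have e2 : 2 * ((a + 1 : ℕ) : ℝ) - 1 = 2 * a + 1 := by push_cast; ring
      have e3 : 2 * (a : ℝ) - 1 = (2 * a + 1) - 2 := by ring
      simp only [e1, e2, e3]
      have h3 := G_rec h r (2 * (a : ℝ) + 1)
      have h4 := W_rec h r (2 * (a : ℝ) + 1)
      have h5 := ih a (by omega)
      linear_combination h3 - h4 - 4 * h5

theorem main : H572AE.S_pho := by
  intro H r c hH hr hc hcr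
  obtain ⟨h, rfl⟩ : ∃ h, H = h + 1 := ⟨H - 1, by omega⟩
  obtain ⟨n, rfl⟩ : ∃ n, c = 2 * n + 1 := ⟨c / 2, by omega⟩
  have h1 := key r hr h n (by omega)
  have e1 : h + 1 - 1 = h := by omega
  have e2 : 2 * (h + 1) - 2 = 2 * h := by omega
  have e3 : 2 * (h + 1) - 1 = 2 * h + 1 := by omega
  have e4 : (((2 * n + 1 : ℕ)) : ℝ) = 2 * n + 1 := by push_cast; ring
  rw [RO_eq, e4, h1, e1, e2, e3]
  unfold W A E v
  simp only [eval_mul, eval_X]
  ring

end H572AE.PHO
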