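import Mathlib
import Pool.Agent.H572.AE.Stm2

set_option autoImplicit false

open Finset

namespace H572AE.SINO

theorem full (n : ℕ) (u : ℝ) : (2 * Complex.I * (Real.sin u : ℂ)) ^ n =
    ∑ m ∈ range (n + 1), (-1 : ℂ) ^ m * (n.choose m : ℂ) *
      Complex.exp ((((n : ℝ) - 2 * m) * u : ℝ) * Complex.I) := by
  have h1 : 2 * Complex.I * (Real.sin u : ℂ) =
      (-Complex.exp (-(u : ℂ) * Complex.I)) + Complex.exp ((u : ℂ) * Complex.I) := by
    rw [Complex.ofReal_sin, Complex.sin]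
    have := Complex.I_mul_I
    linear_combination (Complex.exp (-(u : ℂ) * Complex.I) - Complex.exp ((u : ℂ) * Complex.I)) * this
  rw [h1, add_pow]
  refine Finset.sum_congr rfl fun m hm => ?_
  have hm' : m ≤ n := Nat.lt_succ_iff.1 (Finset.mem_range.1 hm)
  rw [neg_pow, ← Complex.exp_nat_mul, ← Complex.exp_nat_mul]
  have h2 : Complex.exp ((((n : ℝ) - 2 * m) * u : ℝ) * Complex.I) =
      Complex.exp ((m : ℂ) * (-(u : ℂ) * Complex.I)) *
        Complex.exp (((n - m : ℕ) : ℂ) * ((u : ℂ) * Complex.I)) := by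
    rw [← Complex.exp_add]
    congr 1
    push_cast [Nat.cast_sub hm']
    ring
  rw [h2]
  ring

theorem full_im (k : ℕ) (u : ℝ) : (-1) ^ k * 2 ^ (2 * k + 1) * Real.sin u ^ (2 * k + 1) =
    ∑ m ∈ range (2 * k + 2), (-1 : ℝ) ^ m * ((2 * k + 1).choose m : ℝ) *
      Real.sin ((((2 * k + 1 : ℕ) : ℝ) - 2 * m) * u) := by
  have h := congrArg Complex.im (full (2 * k + 1) u)
  rw [Complex.im_sum] at h
  have h1 : ((2 * Complex.I * (Real.sin u : ℂ)) ^ (2 * k + 1)).im =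
      (-1) ^ k * 2 ^ (2 * k + 1) * Real.sin u ^ (2 * k + 1) := by
    have : (2 * Complex.I * (Real.sin u : ℂ)) ^ (2 * k + 1) =
        (((-1) ^ k * 2 ^ (2 * k + 1) * Real.sin u ^ (2 * k + 1) : ℝ) : ℂ) * Complex.I := by
      rw [mul_pow, mul_pow, pow_succ Complex.I, pow_mul Complex.I, Complex.I_sq]
      push_cast
      ring
    rw [this, Complex.mul_I_im, Complex.ofReal_re]
  rw [h1] at h
  rw [h]
  refine Finset.sum_congr rfl fun m _ => ?_
  have h2 : (-1 : ℂ) ^ m * (((2 * k + 1).choose m : ℕ) : ℂ) *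
      Complex.exp (((((2 * k + 1 : ℕ) : ℝ) - 2 * m) * u : ℝ) * Complex.I) =
      (((-1 : ℝ) ^ m * ((2 * k + 1).choose m : ℝ) : ℝ) : ℂ) *
      Complex.exp (((((2 * k + 1 : ℕ) : ℝ) - 2 * m) * u : ℝ) * Complex.I) := by
    push_cast
    ring
  rw [h2, Complex.im_ofReal_mul, Complex.exp_ofReal_mul_I_im]

theorem half (k : ℕ) (u : ℝ) : (-1) ^ k * 4 ^ k * Real.sin u ^ (2 * k + 1) =
    ∑ j ∈ range (k + 1), (-1 : ℝ) ^ j * ((2 * k + 1).choose j : ℝ) *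
      Real.sin ((((2 * k + 1 : ℕ) : ℝ) - 2 * j) * u) := by
  have h := full_im k u
  have h3 : 2 * k + 2 = (k + 1) + (k + 1) := by ring
  rw [h3, Finset.sum_range_add] at h
  have h4 : ∑ x ∈ range (k + 1), (-1 : ℝ) ^ (k + 1 + x) * ((2 * k + 1).choose (k + 1 + x) : ℝ) *
      Real.sin ((((2 * k + 1 : ℕ) : ℝ) - 2 * ((k + 1 + x : ℕ) : ℝ)) * u) =
      ∑ j ∈ range (k + 1), (-1 : ℝ) ^ j * ((2 * k + 1).choose j : ℝ) *
      Real.sin ((((2 * k + 1 : ℕ) : ℝ) - 2 * j) * u) := by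
    rw [← Finset.sum_range_reflect]
    refine Finset.sum_congr rfl fun j hj => ?_
    have hj' : j ≤ k := Nat.lt_succ_iff.1 (Finset.mem_range.1 hj)
    have h5 : k + 1 + (k + 1 - 1 - j) = 2 * k + 1 - j := by omega
    have h6 : j ≤ 2 * k + 1 := by omega
    rw [h5, Nat.choose_symm h6, Nat.cast_sub h6]
    have h7 : (-1 : ℝ) ^ (2 * k + 1 - j) = -(-1 : ℝ) ^ j := by
      have h8 : (-1 : ℝ) ^ (2 * k + 1 - j) * (-1 : ℝ) ^ j = -1 := by
        rw [← pow_add, Nat.sub_add_cancel h6, pow_succ, pow_mul]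
        norm_num
      have h9 : (-1 : ℝ) ^ j * (-1 : ℝ) ^ j = 1 := by
        rw [← mul_pow]
        norm_num
      calc (-1 : ℝ) ^ (2 * k + 1 - j) = (-1 : ℝ) ^ (2 * k + 1 - j) * ((-1 : ℝ) ^ j * (-1 : ℝ) ^ j) := by
            rw [h9, mul_one]
        _ = ((-1 : ℝ) ^ (2 * k + 1 - j) * (-1 : ℝ) ^ j) * (-1 : ℝ) ^ j := by ring
        _ = -(-1 : ℝ) ^ j := by rw [h8]; ring
    have h10 : Real.sin ((((2 * k + 1 : ℕ) : ℝ) - 2 * (((2 * k + 1 : ℕ) : ℝ) - (j : ℝ))) * u) =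
        -Real.sin ((((2 * k + 1 : ℕ) : ℝ) - 2 * j) * u) := by
      rw [← Real.sin_neg]
      congr 1
      ring
    rw [h7, h10]
    ring
  rw [h4] at h
  have h11 : (2 : ℝ) ^ (2 * k + 1) = 2 * 4 ^ k := by
    rw [pow_succ, pow_mul]
    norm_num
    ring
  rw [h11] at h
  linarith

theorem main : H572AE.S_sino := by
  intro k u
  have h := half k u
  have h4 : (4 : ℝ) ^ k ≠ 0 := by positivity
  have h9 : (-1 : ℝ) ^ k * (-1 : ℝ) ^ k = 1 := by
    rw [← mul_pow]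
    norm_num
  have h12 : Real.sin u ^ (2 * k + 1) = (-1) ^ k / 4 ^ k *
      ((-1) ^ k * 4 ^ k * Real.sin u ^ (2 * k + 1)) := by
    field_simp
    linear_combination (-(Real.sin u ^ (2 * k + 1))) * h9
  rw [h12, h, Finset.mul_sum, ← Finset.sum_range_reflect]
  refine Finset.sum_congr rfl fun i hi => ?_
  have hi' : i ≤ k := Nat.lt_succ_iff.1 (Finset.mem_range.1 hi)
  have h5 : k + 1 - 1 - i = k - i := by omega
  rw [h5, Nat.cast_sub hi']
  have h13 : (((2 * k + 1 : ℕ) : ℝ) - 2 * ((k : ℝ) - (i : ℝ))) * u = (2 * (i : ℝ) + 1) * u := by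
    push_cast
    ring
  rw [h13]
  have h14 : (-1 : ℝ) ^ k * (-1 : ℝ) ^ (k - i) = (-1 : ℝ) ^ i := by
    have h15 : k = i + (k - i) := by omega
    have h16 : (-1 : ℝ) ^ (k - i) * (-1 : ℝ) ^ (k - i) = 1 := by
      rw [← mul_pow]
      norm_num
    calc (-1 : ℝ) ^ k * (-1 : ℝ) ^ (k - i) = (-1 : ℝ) ^ (i + (k - i)) * (-1 : ℝ) ^ (k - i) := by
          rw [← h15]
      _ = (-1 : ℝ) ^ i * ((-1 : ℝ) ^ (k - i) * (-1 : ℝ) ^ (k - i)) := by rw [pow_add]; ring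
      _ = (-1 : ℝ) ^ i := by rw [h16, mul_one]
  rw [← h14]
  ring

end H572AE.SINO
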