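import Mathlib
import Pool.Agent.H572.AE.FEN1
import Pool.Agent.H572.AE.FE5
import Pool.Agent.H572.AE.ASYO
import Pool.Agent.H572.AE.PHO
import Pool.Agent.H572.AE.PHE
import Pool.Agent.H572.AE.EVO
import Pool.Agent.H572.AE.SINO
import Pool.Agent.H572.AE.NV

/-!
# The full expansion of the double sum for an odd number of edges: pieces
-/

set_option autoImplicit false

open Finset Polynomial
open scoped ContDiff

namespace H572AE

theorem FEN.eventually {N d : ℕ} {F G : ℕ → ℝ} (h : FEN N d F) (r₀ : ℕ)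
    (hFG : ∀ r : ℕ, r₀ ≤ r → 1 ≤ r → F r = G r) : FEN N d G := by
  obtain ⟨c, hc⟩ := h
  refine ⟨c, fun L => ?_⟩
  obtain ⟨B, hB⟩ := hc L
  set S : ℕ → ℝ := fun n => ∑ l ∈ range L, c (n % N) l * (n : ℝ) ^ ((d : ℤ) - (l : ℤ)) with hS
  refine ⟨|B| + ∑ n ∈ range r₀, |G n - S n| / (n : ℝ) ^ ((d : ℤ) - (L : ℤ)), fun r hr => ?_⟩
  have hr0 : (0 : ℝ) < r := by exact_mod_cast (by omega : 0 < r)
  have hp : (0 : ℝ) < (r : ℝ) ^ ((d : ℤ) - (L : ℤ)) := zpow_pos hr0 _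
  have hnn : ∀ n : ℕ, 0 ≤ |G n - S n| / (n : ℝ) ^ ((d : ℤ) - (L : ℤ)) := fun n =>
    div_nonneg (abs_nonneg _) (zpow_nonneg (Nat.cast_nonneg n) _)
  rcases Nat.lt_or_ge r r₀ with h3 | h3
  · have a1 : |G r - S r| / (r : ℝ) ^ ((d : ℤ) - (L : ℤ)) ≤
        ∑ n ∈ range r₀, |G n - S n| / (n : ℝ) ^ ((d : ℤ) - (L : ℤ)) :=
      Finset.single_le_sum (f := fun n : ℕ => |G n - S n| / (n : ℝ) ^ ((d : ℤ) - (L : ℤ)))
        (fun n _ => hnn n) (mem_range.mpr h3)
    rw [div_le_iff₀ hp] at a1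
    have a2 : 0 ≤ |B| * (r : ℝ) ^ ((d : ℤ) - (L : ℤ)) := by positivity
    rw [add_mul]
    show |G r - S r| ≤ _
    linarith
  · have a1 := hB r hr
    rw [hFG r h3 hr] at a1
    have a2 : B * (r : ℝ) ^ ((d : ℤ) - (L : ℤ)) ≤ |B| * (r : ℝ) ^ ((d : ℤ) - (L : ℤ)) :=
      mul_le_mul_of_nonneg_right (le_abs_self _) hp.le
    have a3 := mul_nonneg (Finset.sum_nonneg (s := range r₀) fun n _ => hnn n) hp.le
    rw [add_mul]
    linarith

theorem FEN.ite2 {N d : ℕ} {F G : ℕ → ℝ} (h : FEN N d F) (h' : FEN N d G) (h2 : 2 ∣ N) :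
    FEN N d (fun r => if r % 2 = 0 then F r else G r) := by
  obtain ⟨c, hc⟩ := h
  obtain ⟨c', hc'⟩ := h'
  refine ⟨fun ρ l => if ρ % 2 = 0 then c ρ l else c' ρ l, fun L => ?_⟩
  obtain ⟨B, hB⟩ := hc L
  obtain ⟨B', hB'⟩ := hc' L
  refine ⟨|B| + |B'|, fun r hr => ?_⟩
  have hr0 : (0 : ℝ) < r := by exact_mod_cast (by omega : 0 < r)
  have hp : (0 : ℝ) < (r : ℝ) ^ ((d : ℤ) - (L : ℤ)) := zpow_pos hr0 _
  have h3 : r % N % 2 = r % 2 := Nat.mod_mod_of_dvd r h2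
  simp only [h3]
  have a0 : B * (r : ℝ) ^ ((d : ℤ) - (L : ℤ)) ≤ |B| * (r : ℝ) ^ ((d : ℤ) - (L : ℤ)) :=
      mul_le_mul_of_nonneg_right (le_abs_self _) hp.le
  have a1 : B' * (r : ℝ) ^ ((d : ℤ) - (L : ℤ)) ≤ |B'| * (r : ℝ) ^ ((d : ℤ) - (L : ℤ)) :=
      mul_le_mul_of_nonneg_right (le_abs_self _) hp.le
  have a2 : 0 ≤ |B| * (r : ℝ) ^ ((d : ℤ) - (L : ℤ)) := by positivity
  have a3 : 0 ≤ |B'| * (r : ℝ) ^ ((d : ℤ) - (L : ℤ)) := by positivity
  rw [add_mul]
  split_ifs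
  · linarith [hB r hr]
  · linarith [hB' r hr]

end H572AE

namespace H572AE.FEO

open ASYO (FF wt)

/-- The odd a < r with b r ≤ N a < (b+1) r. -/
def So (N b r : ℕ) : Finset ℕ := (range r).filter (fun a => a % 2 = 1 ∧ b * r ≤ N * a ∧ N * a < (b + 1) * r)

theorem sum_So (N r : ℕ) (hN : 1 ≤ N) (hr : 1 ≤ r) (φ : ℕ → ℝ) :
    ∑ a ∈ (Ico 1 r).filter (fun a => a % 2 = 1), φ a = ∑ b ∈ range N, ∑ a ∈ So N b r, φ a := by
  have h1 : ∀ a ∈ (Ico 1 r).filter (fun a => a % 2 = 1), N * a / r ∈ range N := by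
    intro a ha
    have ha' := mem_Ico.mp (mem_filter.mp ha).1
    rw [mem_range, Nat.div_lt_iff_lt_mul (by omega)]
    exact Nat.mul_lt_mul_of_pos_left ha'.2 (by omega)
  rw [← Finset.sum_fiberwise_of_maps_to h1]
  refine Finset.sum_congr rfl fun b _ => Finset.sum_congr ?_ fun _ _ => rfl
  ext a
  simp only [So, mem_filter, mem_range, mem_Ico]
  constructor
  · rintro ⟨⟨h2, h4⟩, h3⟩
    refine ⟨h2.2, h4, ?_, ?_⟩
    · exact (Nat.le_div_iff_mul_le (by omega)).mp h3.ge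
    · exact (Nat.div_lt_iff_lt_mul (by omega)).mp (by omega)
  · rintro ⟨h2, h4, h3, h5⟩
    refine ⟨⟨⟨by omega, h2⟩, h4⟩, ?_⟩
    have h6 := (Nat.le_div_iff_mul_le (show 0 < r by omega)).mpr h3
    have h7 := (Nat.div_lt_iff_lt_mul (show 0 < r by omega)).mpr h5
    omega

/-- The coefficients of RO as a polynomial in c. -/
theorem coeffsO (H : ℕ) (hH : 1 ≤ H) : ∃ q : ℕ → ℝ[X], (∀ i ≤ 2 * H - 1, (q i).natDegree ≤ 2 * H - 1 - i) ∧
    (∀ i, q (2 * i) = C ((-1) ^ (H - 1) / ((2 * H - 2).factorial : ℝ) * (VO (H - 1)).coeff (2 * i)) * X) ∧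
    ∀ r c : ℕ, 1 ≤ r → c % 2 = 1 → c < 2 * r →
      RO H r c = ∑ i ∈ range (2 * H), (q i).eval (r : ℝ) * (c : ℝ) ^ i := by
  obtain ⟨v1, v2, v3⟩ := EVO.main
  obtain ⟨p, hp⟩ := choose_cp (CP.main PH.main EO.main)
  have hX : ∀ i, (X * VO i : ℝ[X]).natDegree ≤ 2 * i + 1 := fun i =>
    (natDegree_mul_le).trans (by rw [natDegree_X]; have := v1 i; omega)
  have hXe : ∀ i n, (X * VO i : ℝ[X]).coeff (2 * n) = 0 := by
    intro i n
    rcases Nat.eq_zero_or_pos n with h0 | h0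
    · subst h0; rw [mul_zero, coeff_X_mul_zero]
    · obtain ⟨t, rfl⟩ : ∃ t, n = t + 1 := ⟨n - 1, by omega⟩
      rw [show 2 * (t + 1) = (2 * t + 1) + 1 by ring, coeff_X_mul]
      exact v2 i t
  refine ⟨fun i => (∑ j ∈ range (H - 1), C ((-1) ^ j * ((X * VO j : ℝ[X]).coeff i /
      ((2 * j + 1).factorial : ℝ))) * p (H - 1 - j)) +
    C ((-1) ^ (H - 1) / ((2 * H - 2).factorial : ℝ) * (VO (H - 1)).coeff i) * X -
    C ((-1) ^ (H - 1) / ((2 * H - 1).factorial : ℝ) * (X * VO (H - 1) : ℝ[X]).coeff i), ?_, ?_, ?_⟩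
  · intro i hi
    refine (natDegree_sub_le _ _).trans (max_le ((natDegree_add_le _ _).trans (max_le ?_ ?_)) ?_)
    · refine natDegree_sum_le_of_forall_le _ _ fun j hj => ?_
      have hj' := mem_range.mp hj
      by_cases hij : i ≤ 2 * j + 1
      · exact (natDegree_C_mul_le _ _).trans ((hp _ (by omega)).1.trans (by omega))
      · have h0 : (X * VO j : ℝ[X]).coeff i = 0 :=
          coeff_eq_zero_of_natDegree_lt (lt_of_le_of_lt (hX j) (by omega))
        rw [h0]; simp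
    · by_cases hij : i ≤ 2 * H - 2
      · exact (natDegree_C_mul_le _ _).trans (natDegree_X_le.trans (by omega))
      · have h0 : (VO (H - 1)).coeff i = 0 :=
          coeff_eq_zero_of_natDegree_lt (lt_of_le_of_lt (v1 (H - 1)) (by omega))
        rw [h0]; simp
    · rw [natDegree_C]; omega
  · intro i
    simp only [hXe, mul_zero, map_zero, zero_mul, Finset.sum_const_zero, sub_zero, zero_add, zero_div]
  · intro r c hr hc hcr
    rw [PHO.main H r c hH hr hc hcr]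
    have hE : ∀ j < H, (X * VO j : ℝ[X]).eval (c : ℝ) =
        ∑ i ∈ range (2 * H), (X * VO j : ℝ[X]).coeff i * (c : ℝ) ^ i :=
      fun j hj => Polynomial.eval_eq_sum_range' (lt_of_le_of_lt (hX j) (by omega)) _
    have hV : (VO (H - 1)).eval (c : ℝ) = ∑ i ∈ range (2 * H), (VO (H - 1)).coeff i * (c : ℝ) ^ i :=
      Polynomial.eval_eq_sum_range' (lt_of_le_of_lt (v1 (H - 1)) (by omega)) _
    have h1 : ∑ j ∈ range (H - 1), (-1) ^ j * Cs (H - 1 - j) r * ((X * VO j).eval (c : ℝ) /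
          ((2 * j + 1).factorial : ℝ)) =
        ∑ j ∈ range (H - 1), ∑ i ∈ range (2 * H),
          (-1) ^ j * (p (H - 1 - j)).eval (r : ℝ) * (((X * VO j : ℝ[X]).coeff i * (c : ℝ) ^ i) /
          ((2 * j + 1).factorial : ℝ)) := by
      refine Finset.sum_congr rfl fun j hj => ?_
      have hj' := mem_range.mp hj
      rw [hE j (by omega), (hp _ (by omega)).2 r hr, Finset.sum_div, Finset.mul_sum]
    rw [h1, Finset.sum_comm, hE (H - 1) (by omega), hV]
    have h2 : (-1 : ℝ) ^ (H - 1) * (r * (∑ i ∈ range (2 * H), (VO (H - 1)).coeff i * (c : ℝ) ^ i) /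
          ((2 * H - 2).factorial : ℝ) - (∑ i ∈ range (2 * H), (X * VO (H - 1) : ℝ[X]).coeff i * (c : ℝ) ^ i) /
          ((2 * H - 1).factorial : ℝ)) = ∑ i ∈ range (2 * H), ((-1 : ℝ) ^ (H - 1) *
          (r * ((VO (H - 1)).coeff i * (c : ℝ) ^ i) / ((2 * H - 2).factorial : ℝ) -
          ((X * VO (H - 1) : ℝ[X]).coeff i * (c : ℝ) ^ i) / ((2 * H - 1).factorial : ℝ))) := by
      rw [← Finset.mul_sum, Finset.sum_sub_distrib, Finset.mul_sum, Finset.sum_div, Finset.sum_div]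
    rw [h2, ← Finset.sum_add_distrib]
    refine Finset.sum_congr rfl fun i _ => ?_
    simp only [eval_add, eval_sub, eval_mul, eval_C, eval_X, eval_finsetSum]
    rw [sub_mul, add_mul, Finset.sum_mul]
    have h3 : ∀ A B C D : ℝ, A = C → B = D → A + B = C + D := by
      intro A B C D h h'; rw [h, h']
    rw [add_sub_assoc]
    refine h3 _ _ _ _ ?_ ?_
    · refine Finset.sum_congr rfl fun j _ => ?_
      ring
    · ring

/-- The value of the inner sum as a function of x = a/r on an interval. -/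
noncomputable def Fo (k H : ℕ) (q : ℕ → ℝ[X]) (t : ℕ → ℕ) (r : ℕ) (x : ℝ) : ℝ :=
  ∑ j ∈ range (k + 1), ∑ i ∈ range (2 * H), (wt k j) * ((q i * X ^ i : ℝ[X]).eval (r : ℝ)) *
    ((2 * j + 1) * x - 2 * t j) ^ i

theorem FF_piece (k H : ℕ) (q : ℕ → ℝ[X])
    (hq : ∀ r c : ℕ, 1 ≤ r → c % 2 = 1 → c < 2 * r →
      RO H r c = ∑ i ∈ range (2 * H), (q i).eval (r : ℝ) * (c : ℝ) ^ i)
    (r b a : ℕ) (hr : 1 ≤ r) (ha : a ∈ So (2 * k + 1).factorial b r) :
    FF k H r a = Fo k H q (fun j => b / (2 * ((2 * k + 1).factorial / (2 * j + 1)))) r ((a : ℝ) / r) := by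
  unfold ASYO.FF Fo
  refine Finset.sum_congr rfl fun j hj => ?_
  have hj' := mem_range.mp hj
  have hr0 : (r : ℝ) ≠ 0 := by exact_mod_cast (by omega : r ≠ 0)
  obtain ⟨M, hM⟩ : (2 * j + 1) ∣ (2 * k + 1).factorial := Nat.dvd_factorial (by omega) (by omega)
  have hMpos : 0 < M := by
    rcases Nat.eq_zero_or_pos M with h0 | h0
    · rw [h0, mul_zero] at hM; exact absurd hM (Nat.factorial_pos _).ne'
    · exact h0
  have hMj : (2 * k + 1).factorial / (2 * j + 1) = M := by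
    rw [hM]; exact Nat.mul_div_cancel_left M (by omega)
  simp only [So, mem_filter, mem_range] at ha
  obtain ⟨ha1, hpar, ha2, ha3⟩ := ha
  rw [hM] at ha2 ha3
  have hMj' : b / (2 * ((2 * k + 1).factorial / (2 * j + 1))) = b / (2 * M) := by rw [hMj]
  simp only [hMj']
  set t := b / (2 * M) with ht
  set l := 2 * j + 1 with hl
  have ht1 : t * (2 * M) ≤ b := Nat.div_mul_le_self b (2 * M)
  have ht2 : b + 1 ≤ (t + 1) * (2 * M) := by
    have := Nat.lt_div_mul_add (show 0 < 2 * M by omega) (a := b)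
    rw [← ht] at this
    have e : (t + 1) * (2 * M) = t * (2 * M) + 2 * M := by ring
    omega
  have h1 : 2 * r * t ≤ l * a := by
    have h2 : (2 * r * t) * M ≤ (l * a) * M := by
      calc (2 * r * t) * M = (t * (2 * M)) * r := by ring
        _ ≤ b * r := Nat.mul_le_mul_right r ht1
        _ ≤ l * M * a := ha2
        _ = (l * a) * M := by ring
    exact Nat.le_of_mul_le_mul_right h2 hMpos
  have h3 : l * a < 2 * r * (t + 1) := by
    have h2 : (l * a) * M < (2 * r * (t + 1)) * M := by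
      calc (l * a) * M = l * M * a := by ring
        _ < (b + 1) * r := ha3
        _ ≤ ((t + 1) * (2 * M)) * r := Nat.mul_le_mul_right r ht2
        _ = (2 * r * (t + 1)) * M := by ring
    exact Nat.lt_of_mul_lt_mul_right h2
  have h4 : l * a = (l * a - 2 * r * t) + 2 * r * t := by omega
  have h5 : l * a - 2 * r * t < 2 * r := by
    have e : 2 * r * (t + 1) = 2 * r * t + 2 * r := by ring
    omega
  have hodd : (l * a - 2 * r * t) % 2 = 1 := by
    have e1 : (l * a) % 2 = 1 := by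
      rw [Nat.mul_mod, hpar, mul_one, Nat.mod_mod, hl]; omega
    have e2 : (2 * r * t) % 2 = 0 := by
      rw [mul_assoc]; exact Nat.mul_mod_right 2 _
    omega
  have h6 : RO H r (l * a) = ∑ i ∈ range (2 * H), (q i).eval (r : ℝ) * ((l * a - 2 * r * t : ℕ) : ℝ) ^ i := by
    rw [← hq r (l * a - 2 * r * t) hr hodd h5]
    conv_lhs => rw [h4]
    exact ASYO.RO_period H r _ t
  rw [h6, Finset.mul_sum]
  refine Finset.sum_congr rfl fun i _ => ?_
  have h7 : ((l * a - 2 * r * t : ℕ) : ℝ) = r * ((2 * j + 1) * ((a : ℝ) / r) - 2 * t) := by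
    rw [Nat.cast_sub h1, hl]
    push_cast
    field_simp
  rw [h7, mul_pow]
  simp only [eval_mul, eval_pow, eval_X]
  ring

theorem fen_piece (hge : S_geo) (k H N b : ℕ) (hH : 1 ≤ H) (hN : 1 ≤ N) (hb : b < N) (q : ℕ → ℝ[X])
    (hq1 : ∀ i ≤ 2 * H - 1, (q i).natDegree ≤ 2 * H - 1 - i) (t : ℕ → ℕ) (δ : ℝ) (hδ : 0 < δ) (g : ℝ → ℝ)
    (hg : ContDiffOn ℝ ∞ g (Set.Ioo ((b : ℝ) / N - δ) (((b : ℝ) + 1) / N + δ))) :
    FEN (2 * N) (2 * H) (fun r => ∑ a ∈ So N b r, Fo k H q t r ((a : ℝ) / r) * g ((a : ℝ) / r)) := by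
  have h1 : FEN (2 * N) (2 * H) (fun r => ∑ j ∈ range (k + 1), ∑ i ∈ range (2 * H),
      (C (wt k j) * (q i * X ^ i) : ℝ[X]).eval (r : ℝ) * ∑ a ∈ So N b r,
        (fun x : ℝ => ((2 * j + 1) * x - 2 * t j) ^ i * g x) ((a : ℝ) / r)) := by
    refine FEN.sum _ fun j _ => FEN.sum _ fun i hi => ?_
    have hi' := mem_range.mp hi
    have hdeg : (C (wt k j) * (q i * X ^ i) : ℝ[X]).natDegree ≤ 2 * H - 1 := by
      refine (natDegree_C_mul_le _ _).trans (natDegree_mul_le.trans ?_)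
      have h2 := hq1 i (by omega)
      have h3 := natDegree_X_pow_le (R := ℝ) i
      omega
    have hsm : ContDiffOn ℝ ∞ (fun x : ℝ => ((2 * (j : ℝ) + 1) * x - 2 * t j) ^ i * g x)
        (Set.Ioo ((b : ℝ) / N - δ) (((b : ℝ) + 1) / N + δ)) := by
      refine ContDiffOn.mul ?_ hg
      exact (((contDiff_const.mul contDiff_id).sub contDiff_const).pow i).contDiffOn
    exact ((hge N b δ _ hN hb hδ hsm).mulpoly _ hdeg).mono (by omega)
  refine h1.congr fun r _ => ?_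
  have h4 : ∀ a ∈ So N b r, Fo k H q t r ((a : ℝ) / r) * g ((a : ℝ) / r) = ∑ j ∈ range (k + 1),
      ∑ i ∈ range (2 * H), (C (wt k j) * (q i * X ^ i) : ℝ[X]).eval (r : ℝ) *
        (fun x : ℝ => ((2 * j + 1) * x - 2 * t j) ^ i * g x) ((a : ℝ) / r) := by
    intro a _
    unfold Fo
    rw [Finset.sum_mul]
    refine Finset.sum_congr rfl fun j _ => ?_
    rw [Finset.sum_mul]
    refine Finset.sum_congr rfl fun i _ => ?_
    simp only [eval_mul, eval_C]
    ring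
  symm
  rw [Finset.sum_congr rfl h4, Finset.sum_comm]
  refine Finset.sum_congr rfl fun j _ => ?_
  rw [Finset.sum_comm]
  refine Finset.sum_congr rfl fun i _ => ?_
  rw [Finset.mul_sum]

end H572AE.FEO
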