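import Mathlib
import Pool.Agent.H572.AE.FEO1

/-!
# The full expansion of the double sum for an odd number of edges
-/

set_option autoImplicit false

open Finset Polynomial
open scoped ContDiff

namespace H572AE.FEO

open ASYO (FF wt)

/-- The power sums over a parity class. -/
theorem Wo (h2 : S_fe2o) (ε : ℕ) (hε : ε < 2) (i n : ℕ) (hn : 1 ≤ n) :
    FEN 2 (if n ≤ i then i - n + 1 else 0) (fun r =>
      (∑ a ∈ (Ico 1 r).filter (fun a => a % 2 = ε), (a : ℝ) ^ i / (a : ℝ) ^ n) -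
      (if i + 1 = n then Real.log r / 2 else 0)) := by
  obtain ⟨k1, k2, k3⟩ := h2 ε hε
  rcases Nat.lt_or_ge i n with hlt | hge
  · rw [if_neg (by omega)]
    rcases Nat.lt_or_ge (i + 1) n with h3 | h3
    · refine (k1 (n - i) (by omega)).congr fun r _ => ?_
      rw [if_neg (by omega), sub_zero]
      refine Finset.sum_congr rfl fun a ha => ?_
      have ha0 : (0 : ℝ) < a := by
        have := mem_Ico.mp (mem_filter.mp ha).1; exact_mod_cast (by omega : 0 < a)
      rw [div_eq_div_iff (by positivity) (by positivity), one_mul, ← pow_add]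
      congr 1; omega
    · have h5 : n = i + 1 := by omega
      refine k2.congr fun r _ => ?_
      rw [if_pos (by omega)]
      congr 1
      refine Finset.sum_congr rfl fun a ha => ?_
      have ha0 : (0 : ℝ) < a := by
        have := mem_Ico.mp (mem_filter.mp ha).1; exact_mod_cast (by omega : 0 < a)
      rw [h5, pow_succ]
      field_simp
  · rw [if_pos hge]
    refine (k3 (i - n)).congr fun r hr => ?_
    rw [if_neg (by omega), sub_zero]
    refine Finset.sum_congr rfl fun a ha => ?_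
    have ha0 : (0 : ℝ) < a := by
      have := mem_Ico.mp (mem_filter.mp ha).1; exact_mod_cast (by omega : 0 < a)
    rw [eq_div_iff (by positivity), ← pow_add]
    congr 1; omega

theorem odd_only (k H r : ℕ) (φ : ℕ → ℝ) : ∑ a ∈ Ico 1 r, FF k H r a * φ a =
    ∑ a ∈ (Ico 1 r).filter (fun a => a % 2 = 1), FF k H r a * φ a := by
  symm
  refine Finset.sum_filter_of_ne fun a _ hne => ?_
  by_contra hpar
  exact hne (by rw [ASYO.FF_even k H r a (by omega), zero_mul])

theorem reflect_odd (r : ℕ) (φ : ℕ → ℝ) :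
    ∑ a ∈ (Ico 1 r).filter (fun a => a % 2 = 1), φ (r - a) =
    ∑ a ∈ (Ico 1 r).filter (fun a => a % 2 = (if r % 2 = 0 then 1 else 0)), φ a := by
  refine Finset.sum_nbij' (fun a => r - a) (fun a => r - a) ?_ ?_ ?_ ?_ ?_
  · intro a ha
    simp only [mem_filter, mem_Ico] at ha ⊢
    split_ifs <;> omega
  · intro a ha
    simp only [mem_filter, mem_Ico] at ha ⊢
    split_ifs at ha <;> omega
  · intro a ha
    simp only [mem_filter, mem_Ico] at ha
    show r - (r - a) = a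
    omega
  · intro a ha
    simp only [mem_filter, mem_Ico] at ha
    show r - (r - a) = a
    omega
  · intro a _; rfl

theorem smooth (hgeo : S_geo) (k H : ℕ) (hH : 1 ≤ H) (R : ℝ → ℝ)
    (hR : ContDiffOn ℝ ∞ R (Set.Ioo (-1) 2)) :
    FEN (2 * (2 * k + 1).factorial) (2 * H)
      (fun r => ∑ a ∈ Ico 1 r, FF k H r a * R ((a : ℝ) / r)) := by
  obtain ⟨q, hq1, hq2, hq3⟩ := coeffsO H hH
  set N := (2 * k + 1).factorial with hN'
  have hN : 1 ≤ N := Nat.factorial_pos _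
  have hNR : (0 : ℝ) < N := by exact_mod_cast (by omega : 0 < N)
  have h1 : FEN (2 * N) (2 * H) (fun r => ∑ b ∈ range N, ∑ a ∈ So N b r,
      Fo k H q (fun j => b / (2 * ((2 * k + 1).factorial / (2 * j + 1)))) r ((a : ℝ) / r) *
        R ((a : ℝ) / r)) := by
    refine FEN.sum _ fun b hb => ?_
    have hb' := mem_range.mp hb
    refine fen_piece hgeo k H N b hH hN hb' q hq1 _ (1 / 2) (by norm_num) R ?_
    refine hR.mono fun x hx => ?_
    have h5 : (0 : ℝ) ≤ (b : ℝ) / N := by positivity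
    have h6 : ((b : ℝ) + 1) / N ≤ 1 := by
      rw [div_le_one hNR]; exact_mod_cast hb'
    have hx' := Set.mem_Ioo.mp hx
    exact Set.mem_Ioo.mpr ⟨by linarith [hx'.1], by linarith [hx'.2]⟩
  refine h1.congr fun r hr => ?_
  rw [odd_only k H r (fun a => R ((a : ℝ) / r)), sum_So N r hN hr]
  refine Finset.sum_congr rfl fun b _ => Finset.sum_congr rfl fun a ha => ?_
  rw [FF_piece k H q hq3 r b a hr ha]

theorem near (h2 : S_fe2o) (hgeo : S_geo) (k H s : ℕ) (hH : 1 ≤ H) (hs : 1 ≤ s) :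
    FEN (2 * (2 * k + 1).factorial) (2 * H + 2 * s - 2) (fun r =>
      (r : ℝ) ^ (2 * s - 1) * (∑ a ∈ Ico 1 r, FF k H r a / (a : ℝ) ^ (2 * s - 1)) -
      (C ((∑ i ∈ range (k + 1), wt k i * (2 * (i : ℝ) + 1) ^ (2 * (s - 1))) *
        ((-1) ^ (H - 1) / ((2 * H - 2).factorial : ℝ) * (VO (H - 1)).coeff (2 * (s - 1))) / 2) *
        X ^ (2 * s) : ℝ[X]).eval (r : ℝ) * Real.log r) := by
  obtain ⟨q, hq1, hq2, hq3⟩ := coeffsO H hH
  set N := (2 * k + 1).factorial with hN'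
  have hN : 1 ≤ N := Nat.factorial_pos _
  have hNR : (0 : ℝ) < N := by exact_mod_cast (by omega : 0 < N)
  set V : ℕ → ℝ := fun i => ∑ j ∈ range (k + 1), wt k j * (2 * (j : ℝ) + 1) ^ i with hV
  set n := 2 * s - 1 with hn
  have hn1 : 1 ≤ n := by omega
  have A1 : FEN (2 * N) (2 * H + 2 * s - 2) (fun r => ∑ i ∈ range (2 * H),
      (C (V i) * X ^ n * q i : ℝ[X]).eval (r : ℝ) *
        ((∑ a ∈ (Ico 1 r).filter (fun a => a % 2 = 1), (a : ℝ) ^ i / (a : ℝ) ^ n) -
          (if i + 1 = n then Real.log r / 2 else 0))) := by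
    refine FEN.sum _ fun i hi => ?_
    have hi' := mem_range.mp hi
    have hdeg : (C (V i) * X ^ n * q i : ℝ[X]).natDegree ≤ n + (2 * H - 1 - i) :=
      natDegree_mul_le.trans (add_le_add (natDegree_C_mul_X_pow_le _ _) (hq1 i (by omega)))
    refine (((Wo h2 1 (by norm_num) i n hn1).lift (dvd_mul_right 2 N)).mulpoly _ hdeg).mono ?_
    split_ifs <;> omega
  have A3 : FEN (2 * N) (2 * H) (fun r => ∑ b ∈ Ico 1 N, ((∑ a ∈ So N b r,
      Fo k H q (fun j => b / (2 * ((2 * k + 1).factorial / (2 * j + 1)))) r ((a : ℝ) / r) *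
        (fun x : ℝ => (x ^ n)⁻¹) ((a : ℝ) / r)) -
      ∑ a ∈ So N b r, Fo k H q (fun _ => 0) r ((a : ℝ) / r) *
        (fun x : ℝ => (x ^ n)⁻¹) ((a : ℝ) / r))) := by
    refine FEN.sum _ fun b hb => ?_
    have hb' := mem_Ico.mp hb
    have hsm : ContDiffOn ℝ ∞ (fun x : ℝ => (x ^ n)⁻¹)
        (Set.Ioo ((b : ℝ) / N - 1 / (2 * N)) (((b : ℝ) + 1) / N + 1 / (2 * N))) := by
      refine ContDiffOn.inv (contDiff_id.pow _).contDiffOn fun x hx => ?_
      have hx' := (Set.mem_Ioo.mp hx).1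
      have h8 : (1 : ℝ) ≤ b := by exact_mod_cast hb'.1
      have h9 : (1 : ℝ) / N ≤ (b : ℝ) / N := by gcongr
      have h10 : (1 : ℝ) / (2 * N) < 1 / N := by
        rw [div_lt_div_iff₀ (by positivity) hNR]; linarith
      have hx0 : (0 : ℝ) < x := by linarith
      exact pow_ne_zero _ hx0.ne'
    have hδ : (0 : ℝ) < 1 / (2 * N) := by positivity
    exact (fen_piece hgeo k H N b hH hN hb'.2 q hq1 _ _ hδ _ hsm).sub
      (fen_piece hgeo k H N b hH hN hb'.2 q hq1 _ _ hδ _ hsm)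
  refine (A1.add (A3.mono (by omega))).congr fun r hr => ?_
  have hr0 : (0 : ℝ) < r := by exact_mod_cast (by omega : 0 < r)
  have hlog : ∑ i ∈ range (2 * H), (C (V i) * X ^ n * q i : ℝ[X]).eval (r : ℝ) *
      (if i + 1 = n then Real.log r / 2 else 0) =
      (C (V (2 * (s - 1)) * ((-1) ^ (H - 1) / ((2 * H - 2).factorial : ℝ) *
        (VO (H - 1)).coeff (2 * (s - 1))) / 2) * X ^ (2 * s) : ℝ[X]).eval (r : ℝ) * Real.log r := by
    by_cases hsh : s ≤ H
    · rw [Finset.sum_eq_single (2 * (s - 1))]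
      · rw [if_pos (by omega), hq2 (s - 1)]
        simp only [eval_mul, eval_C, eval_pow, eval_X]
        have h11 : (r : ℝ) ^ (2 * s) = r ^ n * r := by
          rw [← pow_succ]; congr 1; omega
        rw [h11]; ring
      · intro i _ hi
        rw [if_neg (by omega), mul_zero]
      · intro hn'
        exact absurd (mem_range.mpr (by omega)) hn'
    · have h0 : (VO (H - 1)).coeff (2 * (s - 1)) = 0 :=
        coeff_eq_zero_of_natDegree_lt (lt_of_le_of_lt (EVO.main.1 (H - 1)) (by omega))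
      rw [h0]
      simp only [mul_zero, zero_div, map_zero, zero_mul, eval_zero]
      refine Finset.sum_eq_zero fun i hi => ?_
      have hi' := mem_range.mp hi
      rw [if_neg (by omega), mul_zero]
  have hFz : ∀ a : ℕ, Fo k H q (fun _ => 0) r ((a : ℝ) / r) =
      ∑ i ∈ range (2 * H), V i * (q i).eval (r : ℝ) * (a : ℝ) ^ i := by
    intro a
    unfold Fo
    rw [Finset.sum_comm]
    refine Finset.sum_congr rfl fun i _ => ?_
    rw [hV]
    simp only
    rw [Finset.sum_mul, Finset.sum_mul]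
    refine Finset.sum_congr rfl fun j _ => ?_
    simp only [eval_mul, eval_pow, eval_X, Nat.cast_zero, mul_zero, sub_zero]
    rw [mul_pow, div_pow]
    field_simp
  have hmain : (r : ℝ) ^ n * (∑ a ∈ Ico 1 r, FF k H r a / (a : ℝ) ^ n) =
      (∑ i ∈ range (2 * H), (C (V i) * X ^ n * q i : ℝ[X]).eval (r : ℝ) *
        (∑ a ∈ (Ico 1 r).filter (fun a => a % 2 = 1), (a : ℝ) ^ i / (a : ℝ) ^ n)) +
      ∑ b ∈ Ico 1 N, ((∑ a ∈ So N b r,
      Fo k H q (fun j => b / (2 * ((2 * k + 1).factorial / (2 * j + 1)))) r ((a : ℝ) / r) *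
        (fun x : ℝ => (x ^ n)⁻¹) ((a : ℝ) / r)) -
      ∑ a ∈ So N b r, Fo k H q (fun _ => 0) r ((a : ℝ) / r) *
        (fun x : ℝ => (x ^ n)⁻¹) ((a : ℝ) / r)) := by
    have e1 : (r : ℝ) ^ n * (∑ a ∈ Ico 1 r, FF k H r a / (a : ℝ) ^ n) =
        ∑ a ∈ Ico 1 r, FF k H r a * (((a : ℝ) / r) ^ n)⁻¹ := by
      rw [Finset.mul_sum]
      refine Finset.sum_congr rfl fun a ha => ?_
      have ha' := mem_Ico.mp ha
      have ha0 : (0 : ℝ) < a := by exact_mod_cast (by omega : 0 < a)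
      rw [div_pow]
      field_simp
    rw [e1, odd_only k H r (fun a => (((a : ℝ) / r) ^ n)⁻¹)]
    have e2 : ∀ a ∈ (Ico 1 r).filter (fun a => a % 2 = 1), FF k H r a * (((a : ℝ) / r) ^ n)⁻¹ =
        Fo k H q (fun _ => 0) r ((a : ℝ) / r) * (((a : ℝ) / r) ^ n)⁻¹ +
        (FF k H r a - Fo k H q (fun _ => 0) r ((a : ℝ) / r)) * (((a : ℝ) / r) ^ n)⁻¹ := by
      intro a _
      ring
    rw [Finset.sum_congr rfl e2, Finset.sum_add_distrib]
    congr 1
    · have e3 : ∀ a ∈ (Ico 1 r).filter (fun a => a % 2 = 1),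
          Fo k H q (fun _ => 0) r ((a : ℝ) / r) * (((a : ℝ) / r) ^ n)⁻¹ =
          ∑ i ∈ range (2 * H), (C (V i) * X ^ n * q i : ℝ[X]).eval (r : ℝ) *
            ((a : ℝ) ^ i / (a : ℝ) ^ n) := by
        intro a ha
        have ha' := mem_Ico.mp (mem_filter.mp ha).1
        have ha0 : (0 : ℝ) < a := by exact_mod_cast (by omega : 0 < a)
        rw [hFz a, Finset.sum_mul]
        refine Finset.sum_congr rfl fun i _ => ?_
        simp only [eval_mul, eval_C, eval_pow, eval_X]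
        rw [div_pow]
        field_simp
      rw [Finset.sum_congr rfl e3, Finset.sum_comm]
      refine Finset.sum_congr rfl fun i _ => ?_
      rw [Finset.mul_sum]
    · rw [sum_So N r hN hr, Finset.range_eq_Ico, Finset.sum_eq_sum_Ico_succ_bot (by omega)]
      have h17 : ∑ a ∈ So N 0 r, (FF k H r a - Fo k H q (fun _ => 0) r ((a : ℝ) / r)) *
          (((a : ℝ) / r) ^ n)⁻¹ = 0 := by
        refine Finset.sum_eq_zero fun a ha => ?_
        have h15 := FF_piece k H q hq3 r 0 a hr ha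
        simp only [Nat.zero_div] at h15
        rw [h15, sub_self, zero_mul]
      rw [h17, zero_add]
      refine Finset.sum_congr rfl fun b _ => ?_
      rw [← Finset.sum_sub_distrib]
      refine Finset.sum_congr rfl fun a ha => ?_
      rw [FF_piece k H q hq3 r b a hr ha]
      ring
  show _ = (r : ℝ) ^ n * (∑ a ∈ Ico 1 r, FF k H r a / (a : ℝ) ^ n) - _
  rw [hmain, ← hlog]
  simp only [mul_sub, Finset.sum_sub_distrib]
  ring

theorem far (h2 : S_fe2o) (hgeo : S_geo) (k H s : ℕ) (hH : 1 ≤ H) (hs : 1 ≤ s) :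
    FEN (2 * (2 * k + 1).factorial) (2 * H + 2 * s - 2) (fun r =>
      (r : ℝ) ^ (2 * s - 1) * (∑ a ∈ Ico 1 r, FF k H r (r - a) / (a : ℝ) ^ (2 * s - 1))) := by
  obtain ⟨q, hq1, hq2, hq3⟩ := coeffsO H hH
  obtain ⟨ρ, hρd, r₀, hρ⟩ := PHE.main PHO.main (CP.main PH.main EO.main) EVO.main H hH
  set N := (2 * k + 1).factorial with hN'
  have hN : 1 ≤ N := Nat.factorial_pos _
  have hNR : (0 : ℝ) < N := by exact_mod_cast (by omega : 0 < N)
  set V : ℕ → ℝ := fun i => ∑ j ∈ range (k + 1), wt k j * (2 * (j : ℝ) + 1) ^ i with hV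
  set n := 2 * s - 1 with hn
  have hn1 : 1 ≤ n := by omega
  have A0 : ∀ ε : ℕ, ε < 2 → FEN (2 * N) (2 * H + 2 * s - 2) (fun r => ∑ l ∈ range H,
      (C (V (2 * l + 1)) * X ^ n * ρ l : ℝ[X]).eval (r : ℝ) *
        (∑ a ∈ (Ico 1 r).filter (fun a => a % 2 = ε), (a : ℝ) ^ (2 * l + 1) / (a : ℝ) ^ n)) := by
    intro ε hε
    refine FEN.sum _ fun l hl => ?_
    have hl' := mem_range.mp hl
    have hdeg : (C (V (2 * l + 1)) * X ^ n * ρ l : ℝ[X]).natDegree ≤ n + (2 * (H - 1 - l)) :=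
      natDegree_mul_le.trans (add_le_add (natDegree_C_mul_X_pow_le _ _) (hρd l hl'))
    have h3 := (((Wo h2 ε hε (2 * l + 1) n hn1).lift (dvd_mul_right 2 N)).mulpoly _ hdeg).mono
      (d' := 2 * H + 2 * s - 2) (by split_ifs <;> omega)
    refine h3.congr fun r _ => ?_
    rw [if_neg (by omega), sub_zero]
  have A1 := (A0 1 (by norm_num)).ite2 (A0 0 (by norm_num)) (dvd_mul_right 2 N)
  have A3 : FEN (2 * N) (2 * H) (fun r => ∑ b ∈ range (N - 1), ((∑ a ∈ So N b r,
      Fo k H q (fun j => b / (2 * ((2 * k + 1).factorial / (2 * j + 1)))) r ((a : ℝ) / r) *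
        (fun x : ℝ => ((1 - x) ^ n)⁻¹) ((a : ℝ) / r)) -
      ∑ l ∈ range H, (C (V (2 * l + 1)) * X ^ (2 * l + 1) * ρ l : ℝ[X]).eval (r : ℝ) *
        ∑ a ∈ So N b r, (fun x : ℝ => (1 - x) ^ (2 * l + 1) * ((1 - x) ^ n)⁻¹) ((a : ℝ) / r))) := by
    refine FEN.sum _ fun b hb => ?_
    have hb' := mem_range.mp hb
    have hδ : (0 : ℝ) < 1 / (2 * N) := by positivity
    have hsm : ContDiffOn ℝ ∞ (fun x : ℝ => ((1 - x) ^ n)⁻¹)
        (Set.Ioo ((b : ℝ) / N - 1 / (2 * N)) (((b : ℝ) + 1) / N + 1 / (2 * N))) := by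
      refine ContDiffOn.inv ((contDiff_const.sub contDiff_id).pow _).contDiffOn fun x hx => ?_
      have hx' := (Set.mem_Ioo.mp hx).2
      have h8 : (b : ℝ) + 2 ≤ N := by exact_mod_cast (by omega : b + 2 ≤ N)
      have h9 : ((b : ℝ) + 1) / N + 1 / N ≤ 1 := by
        rw [← add_div, div_le_one hNR]; linarith
      have h10 : (1 : ℝ) / (2 * N) < 1 / N := by
        rw [div_lt_div_iff₀ (by positivity) hNR]; linarith
      have hx0 : (0 : ℝ) < 1 - x := by linarith
      exact pow_ne_zero _ hx0.ne'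
    refine (fen_piece hgeo k H N b hH hN (by omega) q hq1 _ _ hδ _ hsm).sub ?_
    refine FEN.sum _ fun l hl => ?_
    have hl' := mem_range.mp hl
    have hdeg : (C (V (2 * l + 1)) * X ^ (2 * l + 1) * ρ l : ℝ[X]).natDegree ≤
        (2 * l + 1) + (2 * (H - 1 - l)) :=
      natDegree_mul_le.trans (add_le_add (natDegree_C_mul_X_pow_le _ _) (hρd l hl'))
    have hsm2 : ContDiffOn ℝ ∞ (fun x : ℝ => (1 - x) ^ (2 * l + 1) * ((1 - x) ^ n)⁻¹)
        (Set.Ioo ((b : ℝ) / N - 1 / (2 * N)) (((b : ℝ) + 1) / N + 1 / (2 * N))) :=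
      ((contDiff_const.sub contDiff_id).pow _).contDiffOn.mul hsm
    exact ((hgeo N b _ _ hN (by omega) hδ hsm2).mulpoly _ hdeg).mono (by omega)
  refine (A1.add (A3.mono (by omega))).eventually r₀ fun r hr₀ hr => ?_
  have hr0 : (0 : ℝ) < r := by exact_mod_cast (by omega : 0 < r)
  -- the polynomial near r
  set U : ℕ → ℝ := fun a => ∑ l ∈ range H, V (2 * l + 1) * (ρ l).eval (r : ℝ) * (a : ℝ) ^ (2 * l + 1)
    with hU
  have e1 : (r : ℝ) ^ n * (∑ a ∈ Ico 1 r, FF k H r (r - a) / (a : ℝ) ^ n) =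
      ∑ a ∈ Ico 1 r, FF k H r a * (((r : ℝ) / ((r - a : ℕ) : ℝ)) ^ n) := by
    have h13 := Finset.sum_Ico_reflect (fun a : ℕ => FF k H r a * (((r : ℝ) / ((r - a : ℕ) : ℝ)) ^ n))
      1 (m := r) (n := r) (by omega)
    rw [show r + 1 - r = 1 by omega, show r + 1 - 1 = r by omega] at h13
    rw [← h13, Finset.mul_sum]
    refine Finset.sum_congr rfl fun a ha => ?_
    have ha' := mem_Ico.mp ha
    have ha0 : (0 : ℝ) < a := by exact_mod_cast (by omega : 0 < a)
    rw [show r - (r - a) = a by omega, div_pow]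
    field_simp
  have e2 : ∀ a ∈ (Ico 1 r).filter (fun a => a % 2 = 1),
      FF k H r a * (((r : ℝ) / ((r - a : ℕ) : ℝ)) ^ n) =
      U (r - a) * (((r : ℝ) / ((r - a : ℕ) : ℝ)) ^ n) +
      (FF k H r a - U (r - a)) * (((r : ℝ) / ((r - a : ℕ) : ℝ)) ^ n) := by
    intro a _
    ring
  have e3 : ∑ a ∈ (Ico 1 r).filter (fun a => a % 2 = 1), U (r - a) * (((r : ℝ) / ((r - a : ℕ) : ℝ)) ^ n) =
      (if r % 2 = 0 then ∑ l ∈ range H,
      (C (V (2 * l + 1)) * X ^ n * ρ l : ℝ[X]).eval (r : ℝ) *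
        (∑ a ∈ (Ico 1 r).filter (fun a => a % 2 = 1), (a : ℝ) ^ (2 * l + 1) / (a : ℝ) ^ n) else
      ∑ l ∈ range H, (C (V (2 * l + 1)) * X ^ n * ρ l : ℝ[X]).eval (r : ℝ) *
        (∑ a ∈ (Ico 1 r).filter (fun a => a % 2 = 0), (a : ℝ) ^ (2 * l + 1) / (a : ℝ) ^ n)) := by
    rw [reflect_odd r (fun a => U a * (((r : ℝ) / (a : ℝ)) ^ n))]
    have e4 : ∀ ε : ℕ, ∑ a ∈ (Ico 1 r).filter (fun a => a % 2 = ε), U a * (((r : ℝ) / (a : ℝ)) ^ n) =
        ∑ l ∈ range H, (C (V (2 * l + 1)) * X ^ n * ρ l : ℝ[X]).eval (r : ℝ) *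
        (∑ a ∈ (Ico 1 r).filter (fun a => a % 2 = ε), (a : ℝ) ^ (2 * l + 1) / (a : ℝ) ^ n) := by
      intro ε
      have e5 : ∀ a ∈ (Ico 1 r).filter (fun a => a % 2 = ε), U a * (((r : ℝ) / (a : ℝ)) ^ n) =
          ∑ l ∈ range H, (C (V (2 * l + 1)) * X ^ n * ρ l : ℝ[X]).eval (r : ℝ) *
            ((a : ℝ) ^ (2 * l + 1) / (a : ℝ) ^ n) := by
        intro a ha
        have ha' := mem_Ico.mp (mem_filter.mp ha).1
        have ha0 : (0 : ℝ) < a := by exact_mod_cast (by omega : 0 < a)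
        rw [hU]
        simp only
        rw [Finset.sum_mul]
        refine Finset.sum_congr rfl fun l _ => ?_
        simp only [eval_mul, eval_C, eval_pow, eval_X]
        rw [div_pow]
        field_simp
      rw [Finset.sum_congr rfl e5, Finset.sum_comm]
      refine Finset.sum_congr rfl fun l _ => ?_
      rw [Finset.mul_sum]
    rw [e4]
    split_ifs <;> rfl
  have e6 : ∑ a ∈ (Ico 1 r).filter (fun a => a % 2 = 1),
      (FF k H r a - U (r - a)) * (((r : ℝ) / ((r - a : ℕ) : ℝ)) ^ n) =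
      ∑ b ∈ range (N - 1), ((∑ a ∈ So N b r,
      Fo k H q (fun j => b / (2 * ((2 * k + 1).factorial / (2 * j + 1)))) r ((a : ℝ) / r) *
        (fun x : ℝ => ((1 - x) ^ n)⁻¹) ((a : ℝ) / r)) -
      ∑ l ∈ range H, (C (V (2 * l + 1)) * X ^ (2 * l + 1) * ρ l : ℝ[X]).eval (r : ℝ) *
        ∑ a ∈ So N b r, (fun x : ℝ => (1 - x) ^ (2 * l + 1) * ((1 - x) ^ n)⁻¹) ((a : ℝ) / r)) := by
    rw [sum_So N r hN hr]
    have hNs : N = (N - 1) + 1 := by omega
    have h17 : ∑ a ∈ So N (N - 1) r, (FF k H r a - U (r - a)) *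
        (((r : ℝ) / ((r - a : ℕ) : ℝ)) ^ n) = 0 := by
      refine Finset.sum_eq_zero fun a ha => ?_
      simp only [So, mem_filter, mem_range] at ha
      obtain ⟨ha1, hpar, ha2, ha3⟩ := ha
      have h18 : FF k H r (r - (r - a)) = U (r - a) := by
        rw [ASYO.FF_far hρ k r (r - a) hr₀ ?_ (by omega)]
        have h19 : N * (r - a) ≤ r := by
          have h20 : N * (r - a) + N * a = N * r := by
            rw [← Nat.mul_add]; congr 1; omega
          have h21 : (N - 1) * r + r = N * r := by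
            conv_rhs => rw [hNs]
            ring
          omega
        rcases Nat.eq_zero_or_pos k with hk0 | hk0
        · rw [hk0]; omega
        · have h30 : 2 * k + 1 + 1 ≤ N := by
            have h31 : (2 * k + 1).factorial = (2 * k + 1) * (2 * k).factorial := Nat.factorial_succ _
            have h32 : 2 * k ≤ (2 * k).factorial := Nat.self_le_factorial _
            have h33 : (2 * k + 1) * 2 ≤ (2 * k + 1) * (2 * k).factorial :=
              Nat.mul_le_mul_left _ (by omega)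
            omega
          have h22 : (2 * k + 1 + 1) * (r - a) ≤ N * (r - a) := Nat.mul_le_mul_right _ h30
          have h23 : (2 * k + 1 + 1) * (r - a) = (2 * k + 1) * (r - a) + (r - a) := by ring
          omega
      rw [show r - (r - a) = a by omega] at h18
      rw [h18, sub_self, zero_mul]
    have h24 : ∑ b ∈ range N, ∑ a ∈ So N b r, (FF k H r a - U (r - a)) *
        (((r : ℝ) / ((r - a : ℕ) : ℝ)) ^ n) = ∑ b ∈ range (N - 1), ∑ a ∈ So N b r,
        (FF k H r a - U (r - a)) * (((r : ℝ) / ((r - a : ℕ) : ℝ)) ^ n) := by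
      have h25 := Finset.sum_range_succ (fun b => ∑ a ∈ So N b r, (FF k H r a - U (r - a)) *
        (((r : ℝ) / ((r - a : ℕ) : ℝ)) ^ n)) (N - 1)
      rw [← hNs] at h25
      rw [h25, h17, add_zero]
    rw [h24]
    refine Finset.sum_congr rfl fun b _ => ?_
    have h26 : ∀ l ∈ range H, (C (V (2 * l + 1)) * X ^ (2 * l + 1) * ρ l : ℝ[X]).eval (r : ℝ) *
        ∑ a ∈ So N b r, (fun x : ℝ => (1 - x) ^ (2 * l + 1) * ((1 - x) ^ n)⁻¹) ((a : ℝ) / r) =
        ∑ a ∈ So N b r, (C (V (2 * l + 1)) * X ^ (2 * l + 1) * ρ l : ℝ[X]).eval (r : ℝ) *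
          ((1 - (a : ℝ) / r) ^ (2 * l + 1) * ((1 - (a : ℝ) / r) ^ n)⁻¹) := by
      intro l _
      rw [Finset.mul_sum]
    rw [Finset.sum_congr rfl h26, Finset.sum_comm, ← Finset.sum_sub_distrib]
    refine Finset.sum_congr rfl fun a ha => ?_
    rw [← FF_piece k H q hq3 r b a hr ha, sub_mul]
    simp only [So, mem_filter, mem_range] at ha
    have hra : (0 : ℝ) < (r : ℝ) - a := by
      have : (a : ℝ) < r := by exact_mod_cast ha.1
      linarith
    have h27 : 1 - (a : ℝ) / r = ((r : ℝ) - a) / r := by field_simp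
    have h28 : ((r - a : ℕ) : ℝ) = (r : ℝ) - a := Nat.cast_sub ha.1.le
    have h29 : ((r : ℝ) / ((r : ℝ) - a)) ^ n = ((1 - (a : ℝ) / r) ^ n)⁻¹ := by
      rw [h27, div_pow, div_pow, inv_div]
    rw [h28, h29]
    congr 1
    rw [hU]
    simp only
    rw [Finset.sum_mul]
    refine Finset.sum_congr rfl fun l _ => ?_
    simp only [eval_mul, eval_C, eval_pow, eval_X]
    rw [h28, ← mul_assoc, h27, div_pow ((r : ℝ) - a) r (2 * l + 1)]
    field_simp
  show _ = (r : ℝ) ^ n * (∑ a ∈ Ico 1 r, FF k H r (r - a) / (a : ℝ) ^ n)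
  rw [e1, odd_only k H r (fun a => (((r : ℝ) / ((r - a : ℕ) : ℝ)) ^ n)), Finset.sum_congr rfl e2,
    Finset.sum_add_distrib, e3, e6]

theorem TT_swap (E A B r : ℕ) : TT E A B r = TT E B A r := FE5.TT_swap E A B r

theorem le_case (h2 : S_fe2o) (h4 : S_fe4o) (hgeo : S_geo) (k G H : ℕ) (hH : 1 ≤ H) (hkH : k ≤ H)
    (hHG : H ≤ G) :
    ∃ Λ : ℝ[X], Λ.natDegree = 2 * H ∧
      FEN (2 * (2 * k + 1).factorial) (2 * G + 2 * H - 2)
        (fun r => TT (2 * k + 1) (2 * G - 1) (2 * H - 1) r - Λ.eval (r : ℝ) * Real.log r) := by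
  obtain ⟨c, hc, R, hR, hcR⟩ := h4 G (by omega)
  set u : ℕ → ℝ := fun s => c s / Real.pi ^ (2 * s - 1) with hu
  set W : ℕ → ℝ := fun s => (∑ i ∈ range (k + 1), wt k i * (2 * (i : ℝ) + 1) ^ (2 * (s - 1))) *
        ((-1) ^ (H - 1) / ((2 * H - 2).factorial : ℝ) * (VO (H - 1)).coeff (2 * (s - 1))) / 2 with hW
  set Λ : ℝ[X] := ∑ s ∈ Icc 1 G, C (u s) * (C (W s) * X ^ (2 * s)) with hΛ
  have hW0 : ∀ s, H < s → W s = 0 := by
    intro s hs
    have h0 : (VO (H - 1)).coeff (2 * (s - 1)) = 0 :=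
      coeff_eq_zero_of_natDegree_lt (lt_of_le_of_lt (EVO.main.1 (H - 1)) (by omega))
    rw [hW]; simp only
    rw [h0]; ring
  refine ⟨Λ, ?_, ?_⟩
  · apply natDegree_eq_of_le_of_coeff_ne_zero
    · rw [hΛ]
      refine natDegree_sum_le_of_forall_le _ _ fun s hs => ?_
      by_cases hsh : s ≤ H
      · exact (natDegree_C_mul_le _ _).trans ((natDegree_C_mul_X_pow_le _ _).trans (by omega))
      · rw [hW0 s (by omega)]; simp
    · rw [hΛ, finsetSum_coeff, Finset.sum_eq_single H]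
      · rw [coeff_C_mul, coeff_C_mul, coeff_X_pow, if_pos rfl, mul_one]
        have h6 := hc H (mem_Icc.mpr ⟨hH, hHG⟩)
        have hpi := Real.pi_pos
        have h5 := EVO.main.2.2 (H - 1)
        have h7 : (MM (2 * k + 1) (2 * (H - 1)) : ℝ) ≠ 0 := by
          exact_mod_cast NV.main (2 * k + 1) (2 * (H - 1)) (by omega) (by omega) (by omega)
        have h8 : u H ≠ 0 := by rw [hu]; positivity
        refine mul_ne_zero h8 ?_
        rw [hW]; simp only
        rw [h5, ASYO.wt_sum, mul_one]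
        refine div_ne_zero (mul_ne_zero (mul_ne_zero (div_ne_zero (pow_ne_zero _ (by norm_num))
          (by positivity)) h7) (div_ne_zero (pow_ne_zero _ (by norm_num)) (by positivity))) (by norm_num)
      · intro s _ hs
        rw [coeff_C_mul, coeff_C_mul, coeff_X_pow, if_neg (by omega), mul_zero, mul_zero]
      · intro hn; exact absurd (mem_Icc.mpr ⟨hH, hHG⟩) hn
  · have A1 := FEN.sum (N := 2 * (2 * k + 1).factorial) (d := 2 * G + 2 * H - 2) (Icc 1 G)
      (F := fun s r => u s * ((r : ℝ) ^ (2 * s - 1) * (∑ a ∈ Ico 1 r, FF k H r a / (a : ℝ) ^ (2 * s - 1)) -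
        (C (W s) * X ^ (2 * s) : ℝ[X]).eval (r : ℝ) * Real.log r))
      (fun s hs => ((near h2 hgeo k H s hH (mem_Icc.mp hs).1).cmul (u s)).mono
        (by have := mem_Icc.mp hs; omega))
    have A2 := FEN.sum (N := 2 * (2 * k + 1).factorial) (d := 2 * G + 2 * H - 2) (Icc 1 G)
      (F := fun s r => u s * ((r : ℝ) ^ (2 * s - 1) *
        (∑ a ∈ Ico 1 r, FF k H r (r - a) / (a : ℝ) ^ (2 * s - 1))))
      (fun s hs => ((far h2 hgeo k H s hH (mem_Icc.mp hs).1).cmul (u s)).mono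
        (by have := mem_Icc.mp hs; omega))
    have A3 := (smooth hgeo k H hH R hR).mono (d' := 2 * G + 2 * H - 2) (by omega)
    refine ((A1.add A2).add A3).congr fun r hr => ?_
    have hr0 : (0 : ℝ) < r := by exact_mod_cast (by omega : 0 < r)
    have hpi := Real.pi_pos
    have hP : ∀ a ∈ Ico 1 r, FF k H r a / Real.sin (Real.pi * a / r) ^ (2 * G - 1) =
        (∑ s ∈ Icc 1 G, u s * ((r : ℝ) ^ (2 * s - 1) * (FF k H r a / (a : ℝ) ^ (2 * s - 1)))) +
        (∑ s ∈ Icc 1 G, u s * ((r : ℝ) ^ (2 * s - 1) *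
          (FF k H r a / ((r - a : ℕ) : ℝ) ^ (2 * s - 1)))) + FF k H r a * R ((a : ℝ) / r) := by
      intro a ha
      have ha' := mem_Ico.mp ha
      have ha0 : (0 : ℝ) < a := by exact_mod_cast (by omega : 0 < a)
      have har : (a : ℝ) < r := by exact_mod_cast ha'.2
      have hra : (0 : ℝ) < (r : ℝ) - a := by linarith
      have h10 := hcR ((a : ℝ) / r) (by positivity) (by rw [div_lt_one hr0]; exact har)
      have h11 : Real.pi * ((a : ℝ) / r) = Real.pi * a / r := by ring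
      rw [h11] at h10
      rw [div_eq_mul_one_div, h10, mul_add, Finset.mul_sum, ← Finset.sum_add_distrib]
      congr 1
      refine Finset.sum_congr rfl fun s _ => ?_
      rw [Nat.cast_sub ha'.2.le, hu]
      simp only
      have h12 : Real.pi * (1 - (a : ℝ) / r) = Real.pi * ((r : ℝ) - a) / r := by field_simp
      rw [h12, div_pow, div_pow, mul_pow, mul_pow]
      field_simp
    have hrefl : ∀ n : ℕ, ∑ a ∈ Ico 1 r, FF k H r a / ((r - a : ℕ) : ℝ) ^ n =
        ∑ a ∈ Ico 1 r, FF k H r (r - a) / (a : ℝ) ^ n := by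
      intro n
      have h13 := Finset.sum_Ico_reflect (fun a : ℕ => FF k H r a / ((r - a : ℕ) : ℝ) ^ n) 1
        (m := r) (n := r) (by omega)
      rw [show r + 1 - r = 1 by omega, show r + 1 - 1 = r by omega] at h13
      rw [← h13]
      refine Finset.sum_congr rfl fun a ha => ?_
      have ha' := mem_Ico.mp ha
      rw [show r - (r - a) = a by omega]
    rw [ASYO.TT_eq SINO.main, Finset.sum_congr rfl hP, Finset.sum_add_distrib, Finset.sum_add_distrib,
      Finset.sum_comm, Finset.sum_comm (s := Ico 1 r) (t := Icc 1 G)]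
    have h20 : ∑ s ∈ Icc 1 G, ∑ a ∈ Ico 1 r, u s * ((r : ℝ) ^ (2 * s - 1) *
        (FF k H r a / (a : ℝ) ^ (2 * s - 1))) = ∑ s ∈ Icc 1 G, u s * ((r : ℝ) ^ (2 * s - 1) *
        (∑ a ∈ Ico 1 r, FF k H r a / (a : ℝ) ^ (2 * s - 1))) := by
      refine Finset.sum_congr rfl fun s _ => ?_
      rw [← Finset.mul_sum, ← Finset.mul_sum]
    have h21 : ∑ s ∈ Icc 1 G, ∑ a ∈ Ico 1 r, u s * ((r : ℝ) ^ (2 * s - 1) *
        (FF k H r a / ((r - a : ℕ) : ℝ) ^ (2 * s - 1))) = ∑ s ∈ Icc 1 G, u s * ((r : ℝ) ^ (2 * s - 1) *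
        (∑ a ∈ Ico 1 r, FF k H r (r - a) / (a : ℝ) ^ (2 * s - 1))) := by
      refine Finset.sum_congr rfl fun s _ => ?_
      rw [← Finset.mul_sum, ← Finset.mul_sum, hrefl]
    have h22 : Λ.eval (r : ℝ) * Real.log r = ∑ s ∈ Icc 1 G, u s *
        ((C (W s) * X ^ (2 * s) : ℝ[X]).eval (r : ℝ) * Real.log r) := by
      rw [hΛ, eval_finsetSum, Finset.sum_mul]
      refine Finset.sum_congr rfl fun s _ => ?_
      rw [eval_mul, eval_C, mul_assoc]
    rw [h20, h21, h22]
    simp only [mul_sub, Finset.sum_sub_distrib]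
    ring

theorem main (h2 : S_fe2o) (h4 : S_fe4o) (hgeo : S_geo) (k G H : ℕ) (hG : 1 ≤ G) (hH : 1 ≤ H)
    (hkG : k ≤ G) (hkH : k ≤ H) :
    ∃ Λ : ℝ[X], Λ.natDegree = 2 * min G H ∧
      FEN (2 * (2 * k + 1).factorial) (2 * G + 2 * H - 2)
        (fun r => TT (2 * k + 1) (2 * G - 1) (2 * H - 1) r - Λ.eval (r : ℝ) * Real.log r) := by
  rcases le_total H G with hle | hle
  · rw [min_eq_right hle]
    exact le_case h2 h4 hgeo k G H hH hkH hle
  · rw [min_eq_left hle]
    obtain ⟨Λ, hΛ, hF⟩ := le_case h2 h4 hgeo k H G hG hkG hle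
    refine ⟨Λ, hΛ, ?_⟩
    rw [show 2 * G + 2 * H - 2 = 2 * H + 2 * G - 2 by omega]
    exact hF.congr fun r _ => by rw [FE5.TT_swap]

end H572AE.FEO
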