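import Mathlib
import Pool.Agent.H572.AE.Stm5

/-!
# AE5 GE: the Euler-Maclaurin expansion with rational end points (helper100), after FE3 (helper383)
-/

set_option autoImplicit false

open Finset
open scoped ContDiff Nat

namespace H572AE.GE

/-- the coefficients of the expansion of `r (F (A1 / r) - F (A0 / r))` -/
noncomputable def Tc (u0 u1 e0 e1 : ℝ) (f : ℝ → ℝ) : ℕ → ℝ
  | 0 => ∫ x in u0..u1, f x
  | l + 1 => ((l + 1)! : ℝ)⁻¹ *
      (e1 ^ (l + 1) * iteratedDeriv l f u1 - e0 ^ (l + 1) * iteratedDeriv l f u0)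

/-- the coefficients of the expansion -/
noncomputable def cc (u0 u1 e0 e1 : ℝ) : ℕ → (ℝ → ℝ) → ℝ
  | 0, f => Tc u0 u1 e0 e1 f 0
  | l + 1, f => Tc u0 u1 e0 e1 f (l + 1) -
      ∑ i ∈ range (l + 1), ((i + 2)! : ℝ)⁻¹ * cc u0 u1 e0 e1 (l - i) (iteratedDeriv (i + 1) f)
termination_by l _ => l
decreasing_by omega

/-- the Riemann sum without the factor `1 / r` -/
noncomputable def E (A0 A1 : ℕ → ℕ) (f : ℝ → ℝ) (r : ℕ) : ℝ :=
  ∑ a ∈ Ico (A0 r) (A1 r), f ((a : ℝ) / r)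

/-- the data of a residue class -/
structure Cls (S : ℕ → Prop) (A0 A1 : ℕ → ℕ) (u0 u1 e0 e1 : ℝ) : Prop where
  hu0 : 0 ≤ u0
  hu1 : 0 ≤ u1
  he0 : 0 ≤ e0
  he1 : 0 ≤ e1
  pos : ∀ r, S r → 1 ≤ r
  le : ∀ r, S r → A0 r ≤ A1 r
  le1 : ∀ r, S r → A1 r ≤ r
  eq0 : ∀ r, S r → (A0 r : ℝ) / r = u0 + e0 * (r : ℝ)⁻¹
  eq1 : ∀ r, S r → (A1 r : ℝ) / r = u1 + e1 * (r : ℝ)⁻¹

lemma sm_iter {f : ℝ → ℝ} (hf : ContDiff ℝ ∞ f) (k : ℕ) : ContDiff ℝ ∞ (iteratedDeriv k f) := by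
  induction k with
  | zero => rw [iteratedDeriv_zero]; exact hf
  | succ k ih => rw [iteratedDeriv_succ]; exact (contDiff_infty_iff_deriv.1 ih).2

lemma sm_bound {f : ℝ → ℝ} (hf : ContDiff ℝ ∞ f) :
    ∃ C : ℝ, 0 ≤ C ∧ ∀ x ∈ Set.Icc (0 : ℝ) 1, |f x| ≤ C := by
  obtain ⟨C, hC⟩ := (isCompact_Icc (a := (0 : ℝ)) (b := 1)).exists_bound_of_continuousOn
    hf.continuous.continuousOn
  refine ⟨C, ?_, fun x hx => by simpa using hC x hx⟩
  have h0 := hC 0 (Set.left_mem_Icc.2 zero_le_one)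
  exact (norm_nonneg _).trans h0

/-- Taylor's formula -/
lemma taylor {F : ℝ → ℝ} (hF : ContDiff ℝ ∞ F) (n : ℕ) : ∃ C : ℝ, 0 ≤ C ∧ ∀ x h : ℝ, 0 ≤ x →
    0 ≤ h → x + h ≤ 1 →
    |F (x + h) - ∑ k ∈ range (n + 1), (k ! : ℝ)⁻¹ * h ^ k * iteratedDeriv k F x| ≤
      C * h ^ (n + 1) := by
  obtain ⟨C, hC0, hC⟩ := sm_bound (sm_iter hF (n + 1))
  refine ⟨C / n !, by positivity, fun x h hx hh0 hxh => ?_⟩
  rcases hh0.eq_or_lt with h0 | hh
  · subst h0
    have hs : ∑ k ∈ range (n + 1), (k ! : ℝ)⁻¹ * (0 : ℝ) ^ k * iteratedDeriv k F x = F x := by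
      rw [Finset.sum_range_succ', Finset.sum_eq_zero]
      · rw [Nat.factorial_zero, pow_zero, iteratedDeriv_zero]
        simp
      · intro i _
        rw [zero_pow (Nat.succ_ne_zero i)]
        ring
    rw [hs, add_zero, sub_self, abs_zero, zero_pow (Nat.succ_ne_zero n), mul_zero]
  have hle : x ≤ x + h := by linarith
  have hlt : x < x + h := by linarith
  have hsub : Set.Icc x (x + h) ⊆ Set.Icc (0 : ℝ) 1 := Set.Icc_subset_Icc hx hxh
  have hu : UniqueDiffOn ℝ (Set.Icc x (x + h)) := uniqueDiffOn_Icc hlt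
  have hd : ∀ (k : ℕ), ∀ y ∈ Set.Icc x (x + h),
      iteratedDerivWithin k F (Set.Icc x (x + h)) y = iteratedDeriv k F y := by
    intro k y hy
    refine iteratedDerivWithin_eq_iteratedDeriv hu ?_ hy
    exact hF.contDiffAt.of_le (by exact_mod_cast le_top)
  have hcd : ContDiffOn ℝ (n + 1) F (Set.Icc x (x + h)) :=
    hF.contDiffOn.of_le (by exact_mod_cast le_top)
  have h1 := taylor_mean_remainder_bound (f := F) (a := x) (b := x + h) (C := C) (x := x + h)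
    (n := n) hle hcd ⟨hle, le_rfl⟩ (fun y hy => by
      rw [hd (n + 1) y hy, Real.norm_eq_abs]
      exact hC y (hsub hy))
  rw [taylor_within_apply, Real.norm_eq_abs] at h1
  have h2 : ∑ k ∈ range (n + 1), ((k ! : ℝ)⁻¹ * (x + h - x) ^ k) •
      iteratedDerivWithin k F (Set.Icc x (x + h)) x =
      ∑ k ∈ range (n + 1), (k ! : ℝ)⁻¹ * h ^ k * iteratedDeriv k F x := by
    apply Finset.sum_congr rfl
    intro k _
    rw [hd k x ⟨le_rfl, hle⟩, smul_eq_mul, add_sub_cancel_left]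
  rw [h2, add_sub_cancel_left] at h1
  refine h1.trans (le_of_eq ?_)
  ring

/-- the primitive -/
lemma primitive {f : ℝ → ℝ} (hf : ContDiff ℝ ∞ f) (u0 u1 : ℝ) : ∃ F : ℝ → ℝ, ContDiff ℝ ∞ F ∧
    F u1 - F u0 = ∫ x in u0..u1, f x ∧
    ∀ k, iteratedDeriv (k + 1) F = iteratedDeriv k f := by
  have hc : Continuous f := hf.continuous
  have hder : ∀ x, HasDerivAt (fun u => ∫ t in (0 : ℝ)..u, f t) (f x) x := by
    intro x
    exact intervalIntegral.integral_hasDerivAt_right (hc.intervalIntegrable _ _)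
      (hc.stronglyMeasurableAtFilter _ _) hc.continuousAt
  have heq : (deriv fun u => ∫ t in (0 : ℝ)..u, f t) = f := funext fun x => (hder x).deriv
  refine ⟨fun u => ∫ t in (0 : ℝ)..u, f t, ?_, ?_, ?_⟩
  · refine contDiff_infty_iff_deriv.2 ⟨fun x => (hder x).differentiableAt, ?_⟩
    rw [heq]
    exact hf
  · exact intervalIntegral.integral_interval_sub_left (hc.intervalIntegrable _ _)
      (hc.intervalIntegrable _ _)
  · intro k
    rw [iteratedDeriv_succ', heq]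

/-- telescoping -/
lemma tele (G : ℕ → ℝ) {m n : ℕ} (h : m ≤ n) : ∑ a ∈ Ico m n, (G (a + 1) - G a) = G n - G m := by
  have h1 := Finset.sum_range_sub (fun i => G (m + i)) (n - m)
  have h2 : m + (n - m) = n := by omega
  simp only [h2, add_zero] at h1
  rw [Finset.sum_Ico_eq_sum_range]
  exact h1

section
variable {S : ℕ → Prop} {A0 A1 : ℕ → ℕ} {u0 u1 e0 e1 : ℝ}

/-- the summed Taylor formula -/
lemma summed (hS : Cls S A0 A1 u0 u1 e0 e1) {f : ℝ → ℝ} (hf : ContDiff ℝ ∞ f) (L : ℕ) :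
    ∃ C : ℝ, ∀ r : ℕ, S r →
    |∑ j ∈ range (L + 1), Tc u0 u1 e0 e1 f j * (r * ((r : ℝ)⁻¹) ^ j) -
      ∑ i ∈ range (L + 1), ((i + 1)! : ℝ)⁻¹ * ((r : ℝ)⁻¹) ^ i *
      E A0 A1 (iteratedDeriv i f) r| ≤ C * ((r : ℝ)⁻¹) ^ L := by
  obtain ⟨F, hF, hF01, hFd⟩ := primitive hf u0 u1
  obtain ⟨C, hC0, hC⟩ := taylor hF (L + 1)
  obtain ⟨C', hC0', hC'⟩ := taylor hF L
  refine ⟨C + C' * e1 ^ (L + 1) + C' * e0 ^ (L + 1), fun r hr => ?_⟩
  have hr1 := hS.pos r hr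
  have hr0 : (0 : ℝ) < r := by exact_mod_cast hr1
  have hh : (0 : ℝ) < (r : ℝ)⁻¹ := by positivity
  have hrh : (r : ℝ) * (r : ℝ)⁻¹ = 1 := mul_inv_cancel₀ hr0.ne'
  have hA1 : ((A1 r : ℕ) : ℝ) ≤ r := by exact_mod_cast hS.le1 r hr
  have hA0 : ((A0 r : ℕ) : ℝ) ≤ r := by exact_mod_cast (hS.le r hr).trans (hS.le1 r hr)
  have hx1 : u1 + e1 * (r : ℝ)⁻¹ ≤ 1 := by
    rw [← hS.eq1 r hr, div_le_one hr0]
    exact hA1
  have hx0 : u0 + e0 * (r : ℝ)⁻¹ ≤ 1 := by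
    rw [← hS.eq0 r hr, div_le_one hr0]
    exact hA0
  have hend1 := hC' u1 (e1 * (r : ℝ)⁻¹) hS.hu1 (mul_nonneg hS.he1 hh.le) hx1
  have hend0 := hC' u0 (e0 * (r : ℝ)⁻¹) hS.hu0 (mul_nonneg hS.he0 hh.le) hx0
  rw [← hS.eq1 r hr, mul_pow e1] at hend1
  rw [← hS.eq0 r hr, mul_pow e0] at hend0
  have hterm : ∀ a ∈ Ico (A0 r) (A1 r), |(F (((a + 1 : ℕ) : ℝ) / r) - F ((a : ℝ) / r)) -
      ∑ i ∈ range (L + 1), ((i + 1)! : ℝ)⁻¹ * ((r : ℝ)⁻¹) ^ (i + 1) *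
        iteratedDeriv i f ((a : ℝ) / r)| ≤ C * ((r : ℝ)⁻¹) ^ (L + 2) := by
    intro a ha
    rw [Finset.mem_Ico] at ha
    have ha' : ((a : ℝ) + 1) ≤ r := by exact_mod_cast (Nat.succ_le_of_lt ha.2).trans (hS.le1 r hr)
    have hx0 : (0 : ℝ) ≤ (a : ℝ) / r := by positivity
    have e1 : (a : ℝ) / r + (r : ℝ)⁻¹ = ((a + 1 : ℕ) : ℝ) / r := by
      push_cast
      rw [add_div, one_div]
    have hx1 : (a : ℝ) / r + (r : ℝ)⁻¹ ≤ 1 := by
      rw [e1, div_le_one hr0]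
      push_cast
      exact ha'
    have h1 := hC ((a : ℝ) / r) (r : ℝ)⁻¹ hx0 hh.le hx1
    rw [e1, Finset.sum_range_succ'] at h1
    rw [Nat.factorial_zero, pow_zero, iteratedDeriv_zero] at h1
    have h2 : ∑ k ∈ range (L + 1), ((k + 1)! : ℝ)⁻¹ * ((r : ℝ)⁻¹) ^ (k + 1) *
        iteratedDeriv (k + 1) F ((a : ℝ) / r) =
        ∑ i ∈ range (L + 1), ((i + 1)! : ℝ)⁻¹ * ((r : ℝ)⁻¹) ^ (i + 1) *
          iteratedDeriv i f ((a : ℝ) / r) := by
      apply Finset.sum_congr rfl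
      intro k _
      rw [hFd k]
    rw [h2] at h1
    refine le_of_eq_of_le ?_ h1
    congr 1
    push_cast
    ring
  have hsum : |(F ((A1 r : ℝ) / r) - F ((A0 r : ℝ) / r)) -
      ∑ i ∈ range (L + 1), ((i + 1)! : ℝ)⁻¹ * ((r : ℝ)⁻¹) ^ (i + 1) *
      E A0 A1 (iteratedDeriv i f) r| ≤ r * (C * ((r : ℝ)⁻¹) ^ (L + 2)) := by
    have e1 : (F ((A1 r : ℝ) / r) - F ((A0 r : ℝ) / r)) -
        ∑ i ∈ range (L + 1), ((i + 1)! : ℝ)⁻¹ * ((r : ℝ)⁻¹) ^ (i + 1) *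
        E A0 A1 (iteratedDeriv i f) r =
        ∑ a ∈ Ico (A0 r) (A1 r), ((F (((a + 1 : ℕ) : ℝ) / r) - F ((a : ℝ) / r)) -
          ∑ i ∈ range (L + 1), ((i + 1)! : ℝ)⁻¹ * ((r : ℝ)⁻¹) ^ (i + 1) *
            iteratedDeriv i f ((a : ℝ) / r)) := by
      rw [Finset.sum_sub_distrib, tele (fun a : ℕ => F ((a : ℝ) / r)) (hS.le r hr)]
      congr 1
      rw [Finset.sum_comm]
      apply Finset.sum_congr rfl
      intro i _
      unfold E
      rw [Finset.mul_sum]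
    rw [e1]
    refine (Finset.abs_sum_le_sum_abs _ _).trans ?_
    refine (Finset.sum_le_sum hterm).trans ?_
    rw [Finset.sum_const, Nat.card_Ico, nsmul_eq_mul]
    refine mul_le_mul_of_nonneg_right ?_ (by positivity)
    have : A1 r - A0 r ≤ r := (Nat.sub_le _ _).trans (hS.le1 r hr)
    exact_mod_cast this
  -- the end points
  have hT : ∑ j ∈ range (L + 1), Tc u0 u1 e0 e1 f j * (r * ((r : ℝ)⁻¹) ^ j) =
      r * ((∑ k ∈ range (L + 1), (k ! : ℝ)⁻¹ * (e1 * (r : ℝ)⁻¹) ^ k * iteratedDeriv k F u1) -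
        ∑ k ∈ range (L + 1), (k ! : ℝ)⁻¹ * (e0 * (r : ℝ)⁻¹) ^ k * iteratedDeriv k F u0) := by
    rw [← Finset.sum_sub_distrib, Finset.mul_sum]
    apply Finset.sum_congr rfl
    intro k _
    cases k with
    | zero =>
      rw [Nat.factorial_zero, pow_zero, pow_zero, pow_zero, iteratedDeriv_zero]
      have e : Tc u0 u1 e0 e1 f 0 = F u1 - F u0 := by
        rw [hF01]
        rfl
      rw [e]
      push_cast
      ring
    | succ k =>
      rw [hFd k, mul_pow, mul_pow]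
      have e : Tc u0 u1 e0 e1 f (k + 1) = ((k + 1)! : ℝ)⁻¹ *
        (e1 ^ (k + 1) * iteratedDeriv k f u1 - e0 ^ (k + 1) * iteratedDeriv k f u0) := rfl
      rw [e]
      ring
  have e2 : ∑ j ∈ range (L + 1), Tc u0 u1 e0 e1 f j * (r * ((r : ℝ)⁻¹) ^ j) -
      ∑ i ∈ range (L + 1), ((i + 1)! : ℝ)⁻¹ * ((r : ℝ)⁻¹) ^ i *
      E A0 A1 (iteratedDeriv i f) r =
      r * (((F ((A1 r : ℝ) / r) - F ((A0 r : ℝ) / r)) -
      ∑ i ∈ range (L + 1), ((i + 1)! : ℝ)⁻¹ * ((r : ℝ)⁻¹) ^ (i + 1) *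
      E A0 A1 (iteratedDeriv i f) r) -
      (F ((A1 r : ℝ) / r) -
        ∑ k ∈ range (L + 1), (k ! : ℝ)⁻¹ * (e1 * (r : ℝ)⁻¹) ^ k * iteratedDeriv k F u1) +
      (F ((A0 r : ℝ) / r) -
        ∑ k ∈ range (L + 1), (k ! : ℝ)⁻¹ * (e0 * (r : ℝ)⁻¹) ^ k * iteratedDeriv k F u0)) := by
    have e3 : ∑ i ∈ range (L + 1), ((i + 1)! : ℝ)⁻¹ * ((r : ℝ)⁻¹) ^ i *
        E A0 A1 (iteratedDeriv i f) r = r * ∑ i ∈ range (L + 1), ((i + 1)! : ℝ)⁻¹ *
        ((r : ℝ)⁻¹) ^ (i + 1) * E A0 A1 (iteratedDeriv i f) r := by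
      rw [Finset.mul_sum]
      apply Finset.sum_congr rfl
      intro i _
      rw [pow_succ]
      linear_combination (-((i + 1)! : ℝ)⁻¹ * ((r : ℝ)⁻¹) ^ i *
        E A0 A1 (iteratedDeriv i f) r) * hrh
    rw [hT, e3]
    ring
  rw [e2, abs_mul, abs_of_pos hr0]
  have h5 := (abs_add_le (((F ((A1 r : ℝ) / r) - F ((A0 r : ℝ) / r)) -
      ∑ i ∈ range (L + 1), ((i + 1)! : ℝ)⁻¹ * ((r : ℝ)⁻¹) ^ (i + 1) *
      E A0 A1 (iteratedDeriv i f) r) -
      (F ((A1 r : ℝ) / r) -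
        ∑ k ∈ range (L + 1), (k ! : ℝ)⁻¹ * (e1 * (r : ℝ)⁻¹) ^ k * iteratedDeriv k F u1))
      (F ((A0 r : ℝ) / r) -
        ∑ k ∈ range (L + 1), (k ! : ℝ)⁻¹ * (e0 * (r : ℝ)⁻¹) ^ k * iteratedDeriv k F u0)).trans
      (add_le_add ((abs_sub _ _).trans (add_le_add hsum hend1)) hend0)
  refine (mul_le_mul_of_nonneg_left h5 hr0.le).trans (le_of_eq ?_)
  rw [pow_succ ((r : ℝ)⁻¹) (L + 1), pow_succ ((r : ℝ)⁻¹) L]
  linear_combination (C * ((r : ℝ)⁻¹) ^ L * ((r : ℝ) * (r : ℝ)⁻¹ + 1) +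
    C' * e1 ^ (L + 1) * ((r : ℝ)⁻¹) ^ L + C' * e0 ^ (L + 1) * ((r : ℝ)⁻¹) ^ L) * hrh

/-- the expansion to all orders -/
lemma main' (hS : Cls S A0 A1 u0 u1 e0 e1) (L : ℕ) : ∀ f : ℝ → ℝ, ContDiff ℝ ∞ f → ∃ B : ℝ,
    ∀ r : ℕ, S r →
    |E A0 A1 f r - ∑ l ∈ range L, cc u0 u1 e0 e1 l f * (r * ((r : ℝ)⁻¹) ^ l)| ≤
      B * (r * ((r : ℝ)⁻¹) ^ L) := by
  induction L using Nat.strong_induction_on with
  | _ L ih =>
    intro f hf
    cases L with
    | zero =>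
      obtain ⟨C, hC0, hC⟩ := sm_bound hf
      refine ⟨C, fun r hr => ?_⟩
      have hr1 := hS.pos r hr
      have hr0 : (0 : ℝ) < r := by exact_mod_cast hr1
      rw [Finset.sum_range_zero, sub_zero, pow_zero, mul_one]
      unfold E
      refine (Finset.abs_sum_le_sum_abs _ _).trans ?_
      refine (Finset.sum_le_sum (g := fun _ => C) fun a ha => hC _ ⟨by positivity, ?_⟩).trans ?_
      · rw [div_le_one hr0]
        exact_mod_cast ((Finset.mem_Ico.1 ha).2.le).trans (hS.le1 r hr)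
      · rw [Finset.sum_const, Nat.card_Ico, nsmul_eq_mul, mul_comm]
        refine mul_le_mul_of_nonneg_left ?_ hC0
        have : A1 r - A0 r ≤ r := (Nat.sub_le _ _).trans (hS.le1 r hr)
        exact_mod_cast this
    | succ L =>
      obtain ⟨C, hC⟩ := summed hS hf L
      have hB : ∀ k, ∃ B : ℝ, k < L → ∀ r : ℕ, S r →
          |E A0 A1 (iteratedDeriv (k + 1) f) r - ∑ m ∈ range (L - k),
            cc u0 u1 e0 e1 m (iteratedDeriv (k + 1) f) * (r * ((r : ℝ)⁻¹) ^ m)| ≤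
              B * (r * ((r : ℝ)⁻¹) ^ (L - k)) := by
        intro k
        obtain ⟨B, hB⟩ := ih (L - k) (by omega) _ (sm_iter hf (k + 1))
        exact ⟨B, fun _ => hB⟩
      choose B hB using hB
      refine ⟨C + ∑ k ∈ range L, ((k + 2)! : ℝ)⁻¹ * B k, fun r hr => ?_⟩
      have hr1 := hS.pos r hr
      have hr0 : (0 : ℝ) < r := by exact_mod_cast hr1
      have hh : (0 : ℝ) < (r : ℝ)⁻¹ := by positivity
      have hrh : (r : ℝ) * (r : ℝ)⁻¹ = 1 := mul_inv_cancel₀ hr0.ne'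
      have h1 := hC r hr
      rw [Finset.sum_range_succ' (fun i => ((i + 1)! : ℝ)⁻¹ * ((r : ℝ)⁻¹) ^ i *
        E A0 A1 (iteratedDeriv i f) r)] at h1
      rw [pow_zero, iteratedDeriv_zero, zero_add, Nat.factorial_one, Nat.cast_one, inv_one,
        one_mul, one_mul] at h1
      -- the terms with `k`
      have h2 : ∀ k ∈ range L, |((k + 2)! : ℝ)⁻¹ * ((r : ℝ)⁻¹) ^ (k + 1) *
          E A0 A1 (iteratedDeriv (k + 1) f) r - ∑ m ∈ range (L - k),
            ((k + 2)! : ℝ)⁻¹ * cc u0 u1 e0 e1 m (iteratedDeriv (k + 1) f) *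
              ((r : ℝ)⁻¹) ^ (k + m)| ≤
          ((k + 2)! : ℝ)⁻¹ * B k * ((r : ℝ)⁻¹) ^ L := by
        intro k hk
        have hkL := Finset.mem_range.1 hk
        have h3 := hB k hkL r hr
        have hf0 : (0 : ℝ) < ((k + 2)! : ℝ)⁻¹ := by positivity
        have h4 : (0 : ℝ) < ((k + 2)! : ℝ)⁻¹ * ((r : ℝ)⁻¹) ^ (k + 1) := by positivity
        have h5 := mul_le_mul_of_nonneg_left h3 h4.le
        rw [← abs_of_pos h4, ← abs_mul, abs_of_pos h4] at h5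
        have e1' : ((k + 2)! : ℝ)⁻¹ * ((r : ℝ)⁻¹) ^ (k + 1) *
            (E A0 A1 (iteratedDeriv (k + 1) f) r -
            ∑ m ∈ range (L - k), cc u0 u1 e0 e1 m (iteratedDeriv (k + 1) f) *
              (r * ((r : ℝ)⁻¹) ^ m)) =
            ((k + 2)! : ℝ)⁻¹ * ((r : ℝ)⁻¹) ^ (k + 1) *
          E A0 A1 (iteratedDeriv (k + 1) f) r - ∑ m ∈ range (L - k),
            ((k + 2)! : ℝ)⁻¹ * cc u0 u1 e0 e1 m (iteratedDeriv (k + 1) f) *
              ((r : ℝ)⁻¹) ^ (k + m) := by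
          rw [mul_sub, Finset.mul_sum]
          congr 1
          apply Finset.sum_congr rfl
          intro m _
          rw [pow_succ, pow_add]
          linear_combination (((k + 2)! : ℝ)⁻¹ * ((r : ℝ)⁻¹) ^ k * ((r : ℝ)⁻¹) ^ m *
            cc u0 u1 e0 e1 m (iteratedDeriv (k + 1) f)) * hrh
        have e2 : ((k + 2)! : ℝ)⁻¹ * ((r : ℝ)⁻¹) ^ (k + 1) *
            (B k * (r * ((r : ℝ)⁻¹) ^ (L - k))) = ((k + 2)! : ℝ)⁻¹ * B k * ((r : ℝ)⁻¹) ^ L := by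
          have e3 : ((r : ℝ)⁻¹) ^ L = ((r : ℝ)⁻¹) ^ k * ((r : ℝ)⁻¹) ^ (L - k) := by
            rw [← pow_add]
            congr 1
            omega
          rw [e3, pow_succ]
          linear_combination (((k + 2)! : ℝ)⁻¹ * ((r : ℝ)⁻¹) ^ k * ((r : ℝ)⁻¹) ^ (L - k) *
            B k) * hrh
        rw [e1', e2] at h5
        exact h5
      have h3 : |∑ k ∈ range L, ((k + 2)! : ℝ)⁻¹ * ((r : ℝ)⁻¹) ^ (k + 1) *
          E A0 A1 (iteratedDeriv (k + 1) f) r - ∑ k ∈ range L, ∑ m ∈ range (L - k),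
            ((k + 2)! : ℝ)⁻¹ * cc u0 u1 e0 e1 m (iteratedDeriv (k + 1) f) *
              ((r : ℝ)⁻¹) ^ (k + m)| ≤
          (∑ k ∈ range L, ((k + 2)! : ℝ)⁻¹ * B k) * ((r : ℝ)⁻¹) ^ L := by
        rw [← Finset.sum_sub_distrib, Finset.sum_mul]
        exact (Finset.abs_sum_le_sum_abs _ _).trans (Finset.sum_le_sum h2)
      have h4 : ∑ k ∈ range L, ∑ m ∈ range (L - k),
            ((k + 2)! : ℝ)⁻¹ * cc u0 u1 e0 e1 m (iteratedDeriv (k + 1) f) *
              ((r : ℝ)⁻¹) ^ (k + m) =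
          ∑ l ∈ range L, (Tc u0 u1 e0 e1 f (l + 1) - cc u0 u1 e0 e1 (l + 1) f) *
            ((r : ℝ)⁻¹) ^ l := by
        rw [← Finset.sum_range_diag_flip L (fun k m =>
          ((k + 2)! : ℝ)⁻¹ * cc u0 u1 e0 e1 m (iteratedDeriv (k + 1) f) *
            ((r : ℝ)⁻¹) ^ (k + m))]
        apply Finset.sum_congr rfl
        intro l _
        rw [cc, sub_sub_cancel, Finset.sum_mul]
        apply Finset.sum_congr rfl
        intro k hk
        have hkl := Finset.mem_range.1 hk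
        have e1 : k + (l - k) = l := by omega
        rw [e1]
      rw [h4] at h3
      have h5 : ∑ l ∈ range (L + 1), cc u0 u1 e0 e1 l f * (r * ((r : ℝ)⁻¹) ^ l) =
          ∑ j ∈ range (L + 1), Tc u0 u1 e0 e1 f j * (r * ((r : ℝ)⁻¹) ^ j) -
          ∑ l ∈ range L, (Tc u0 u1 e0 e1 f (l + 1) - cc u0 u1 e0 e1 (l + 1) f) *
            ((r : ℝ)⁻¹) ^ l := by
        rw [Finset.sum_range_succ', Finset.sum_range_succ' (fun j =>
          Tc u0 u1 e0 e1 f j * (r * ((r : ℝ)⁻¹) ^ j))]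
        have e0' : cc u0 u1 e0 e1 0 f = Tc u0 u1 e0 e1 f 0 := by rw [cc]
        rw [e0']
        have e4 : ∑ l ∈ range L, (Tc u0 u1 e0 e1 f (l + 1) - cc u0 u1 e0 e1 (l + 1) f) *
            ((r : ℝ)⁻¹) ^ l =
            ∑ l ∈ range L, Tc u0 u1 e0 e1 f (l + 1) * (r * ((r : ℝ)⁻¹) ^ (l + 1)) -
            ∑ l ∈ range L, cc u0 u1 e0 e1 (l + 1) f * (r * ((r : ℝ)⁻¹) ^ (l + 1)) := by
          rw [← Finset.sum_sub_distrib]
          apply Finset.sum_congr rfl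
          intro l _
          rw [pow_succ]
          linear_combination (-(Tc u0 u1 e0 e1 f (l + 1) - cc u0 u1 e0 e1 (l + 1) f) *
            ((r : ℝ)⁻¹) ^ l) * hrh
        rw [e4]
        ring
      have h6 : (r : ℝ) * ((r : ℝ)⁻¹) ^ (L + 1) = ((r : ℝ)⁻¹) ^ L := by
        rw [pow_succ]
        linear_combination (((r : ℝ)⁻¹) ^ L) * hrh
      rw [h5, h6]
      rw [abs_le] at h1 h3 ⊢
      constructor
      · linarith [h1.1, h1.2, h3.1, h3.2]
      · linarith [h1.1, h1.2, h3.1, h3.2]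

end

/-! ### the end points -/

/-- `⌈b r / N⌉` -/
def Ac (N b r : ℕ) : ℕ := (b * r + (N - 1)) / N

/-- the defect of the end point -/
def dc (N b s : ℕ) : ℕ := N * Ac N b s - b * s

lemma Ac_lo (N b r : ℕ) (hN : 1 ≤ N) : b * r ≤ N * Ac N b r := by
  unfold Ac
  have h1 := Nat.div_add_mod (b * r + (N - 1)) N
  have h2 := Nat.mod_lt (b * r + (N - 1)) hN
  omega

lemma Ac_hi (N b r : ℕ) (hN : 1 ≤ N) : N * Ac N b r < b * r + N := by
  unfold Ac
  have h1 := Nat.div_add_mod (b * r + (N - 1)) N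
  omega

lemma Ac_mod (N b r : ℕ) (hN : 1 ≤ N) : N * Ac N b r = b * r + dc N b (r % N) := by
  have h1 : Ac N b r = Ac N b (r % N) + b * (r / N) := by
    unfold Ac
    have h2 : b * r + (N - 1) = (b * (r % N) + (N - 1)) + N * (b * (r / N)) := by
      conv_lhs => rw [← Nat.div_add_mod r N]
      ring
    rw [h2, Nat.add_mul_div_left _ _ hN]
  have h3 := Ac_lo N b (r % N) hN
  have h4 : b * r = b * (r % N) + N * (b * (r / N)) := by
    conv_lhs => rw [← Nat.div_add_mod r N]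
    ring
  unfold dc
  rw [h1, h4, mul_add]
  omega

lemma Ac_real (N b r : ℕ) (hN : 1 ≤ N) (hr : 1 ≤ r) :
    (Ac N b r : ℝ) / r = (b : ℝ) / N + (dc N b (r % N) : ℝ) / N * (r : ℝ)⁻¹ := by
  have h1 : (N : ℝ) * (Ac N b r : ℝ) = b * r + (dc N b (r % N) : ℝ) := by
    exact_mod_cast Ac_mod N b r hN
  have hN0 : (N : ℝ) ≠ 0 := by
    have : (0 : ℝ) < N := by exact_mod_cast hN
    exact this.ne'
  have hr0 : (r : ℝ) ≠ 0 := by
    have : (0 : ℝ) < r := by exact_mod_cast hr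
    exact this.ne'
  field_simp
  linarith

lemma cls (N b s : ℕ) (hN : 1 ≤ N) (hb : b < N) :
    Cls (fun r => 1 ≤ r ∧ r % N = s) (Ac N b) (Ac N (b + 1)) ((b : ℝ) / N) (((b : ℝ) + 1) / N)
      ((dc N b s : ℝ) / N) ((dc N (b + 1) s : ℝ) / N) where
  hu0 := by positivity
  hu1 := by positivity
  he0 := by positivity
  he1 := by positivity
  pos r hr := hr.1
  le r hr := by
    have h1 := Ac_hi N b r hN
    have h2 := Ac_lo N (b + 1) r hN
    have h3 : (b + 1) * r = b * r + r := by ring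
    by_contra h
    push Not at h
    have h4 : N * (Ac N (b + 1) r + 1) ≤ N * Ac N b r := Nat.mul_le_mul_left N h
    rw [mul_add] at h4
    omega
  le1 r hr := by
    have h1 := Ac_hi N (b + 1) r hN
    have h2 : (b + 1) * r ≤ N * r := Nat.mul_le_mul_right r hb
    by_contra h
    push Not at h
    have h4 : N * (r + 1) ≤ N * Ac N (b + 1) r := Nat.mul_le_mul_left N h
    rw [mul_add] at h4
    omega
  eq0 r hr := by
    rw [Ac_real N b r hN hr.1, hr.2]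
  eq1 r hr := by
    rw [Ac_real N (b + 1) r hN hr.1, hr.2]
    push_cast
    ring

/-- the set of summation -/
lemma range_eq (N b r : ℕ) (hN : 1 ≤ N) (hb : b < N) :
    (range r).filter (fun a => b * r ≤ N * a ∧ N * a < (b + 1) * r) =
      Ico (Ac N b r) (Ac N (b + 1) r) := by
  ext a
  rw [Finset.mem_filter, Finset.mem_range, Finset.mem_Ico]
  have l0 := Ac_lo N b r hN
  have g0 := Ac_hi N b r hN
  have l1 := Ac_lo N (b + 1) r hN
  have g1 := Ac_hi N (b + 1) r hN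
  have h2 : (b + 1) * r ≤ N * r := Nat.mul_le_mul_right r hb
  constructor
  · rintro ⟨_, h3, h4⟩
    constructor
    · by_contra h
      push Not at h
      have h5 : N * (a + 1) ≤ N * Ac N b r := Nat.mul_le_mul_left N h
      rw [mul_add] at h5
      omega
    · by_contra h
      push Not at h
      have h5 : N * Ac N (b + 1) r ≤ N * a := Nat.mul_le_mul_left N h
      omega
  · rintro ⟨h3, h4⟩
    have h5 : N * Ac N b r ≤ N * a := Nat.mul_le_mul_left N h3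
    have h6 : N * (a + 1) ≤ N * Ac N (b + 1) r := Nat.mul_le_mul_left N h4
    rw [mul_add] at h6
    refine ⟨?_, by omega, by omega⟩
    by_contra h
    push Not at h
    have h7 : N * r ≤ N * a := Nat.mul_le_mul_left N h
    omega

/-- smooth cut off -/
lemma cutoff (u v δ : ℝ) (huv : u < v) (hδ : 0 < δ) (f : ℝ → ℝ)
    (hf : ContDiffOn ℝ ∞ f (Set.Ioo (u - δ) (v + δ))) :
    ∃ g : ℝ → ℝ, ContDiff ℝ ∞ g ∧ ∀ x ∈ Set.Icc u v, g x = f x := by
  let χ : ContDiffBump ((u + v) / 2) :=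
    { rIn := (v - u) / 2
      rOut := (v - u) / 2 + δ / 2
      rIn_pos := by linarith
      rIn_lt_rOut := by linarith }
  refine ⟨fun x => χ x * f x, ?_, ?_⟩
  · rw [contDiff_iff_contDiffAt]
    intro x
    by_cases hx : x ∈ Set.Ioo (u - δ) (v + δ)
    · exact χ.contDiff.contDiffAt.mul (hf.contDiffAt (isOpen_Ioo.mem_nhds hx))
    · have h0 : (fun y => χ y * f y) =ᶠ[nhds x] fun _ => (0 : ℝ) := by
        have hx' : x ∈ (Metric.closedBall ((u + v) / 2) ((v - u) / 2 + δ / 2))ᶜ := by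
          rw [Set.mem_compl_iff, Real.closedBall_eq_Icc, Set.mem_Icc]
          rintro ⟨h1, h2⟩
          exact hx ⟨by linarith, by linarith⟩
        have ho : IsOpen (Metric.closedBall ((u + v) / 2) ((v - u) / 2 + δ / 2))ᶜ :=
          Metric.isClosed_closedBall.isOpen_compl
        filter_upwards [ho.mem_nhds hx'] with y hy
        have hy0 : χ y = 0 := by
          apply χ.zero_of_le_dist
          have : ¬ dist y ((u + v) / 2) ≤ (v - u) / 2 + δ / 2 := fun h => hy h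
          exact (not_le.1 this).le
        rw [hy0, zero_mul]
      exact contDiffAt_const.congr_of_eventuallyEq h0
  · intro x hx
    have h1 : χ x = 1 := by
      apply χ.one_of_mem_closedBall
      change x ∈ Metric.closedBall ((u + v) / 2) ((v - u) / 2)
      rw [Real.closedBall_eq_Icc, Set.mem_Icc]
      exact ⟨by linarith [hx.1], by linarith [hx.2]⟩
    change χ x * f x = f x
    rw [h1, one_mul]

/-- **GE.** -/
theorem main : H572AE.S_ge := by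
  intro N b δ f hN hb hδ hf
  have hN0 : (0 : ℝ) < N := by exact_mod_cast hN
  have huv : (b : ℝ) / N < ((b : ℝ) + 1) / N := by
    rw [div_lt_div_iff_of_pos_right hN0]
    linarith
  obtain ⟨g, hg, hgf⟩ := cutoff ((b : ℝ) / N) (((b : ℝ) + 1) / N) δ huv hδ f hf
  refine ⟨fun s l => cc ((b : ℝ) / N) (((b : ℝ) + 1) / N) ((dc N b s : ℝ) / N)
    ((dc N (b + 1) s : ℝ) / N) l g, fun L => ?_⟩
  have hB : ∀ s, ∃ B : ℝ, ∀ r : ℕ, (1 ≤ r ∧ r % N = s) →
      |E (Ac N b) (Ac N (b + 1)) g r - ∑ l ∈ range L, cc ((b : ℝ) / N) (((b : ℝ) + 1) / N)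
        ((dc N b s : ℝ) / N) ((dc N (b + 1) s : ℝ) / N) l g * (r * ((r : ℝ)⁻¹) ^ l)| ≤
      B * (r * ((r : ℝ)⁻¹) ^ L) := fun s => main' (cls N b s hN hb) L g hg
  choose B hB using hB
  refine ⟨∑ s ∈ range N, |B s|, fun r hr => ?_⟩
  have hr1 : (0 : ℝ) < r := by exact_mod_cast hr
  have hr0 : (r : ℝ) ≠ 0 := hr1.ne'
  have hz : ∀ l : ℕ, (r : ℝ) ^ (((1 : ℕ) : ℤ) - (l : ℤ)) = r * ((r : ℝ)⁻¹) ^ l := by
    intro l
    rw [zpow_sub₀ hr0, zpow_natCast, zpow_natCast, pow_one, inv_pow, div_eq_mul_inv]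
  have h1 := hB (r % N) r ⟨hr, rfl⟩
  have hE : E (Ac N b) (Ac N (b + 1)) g r =
      ∑ a ∈ (range r).filter (fun a => b * r ≤ N * a ∧ N * a < (b + 1) * r),
        f ((a : ℝ) / r) := by
    unfold E
    rw [range_eq N b r hN hb]
    apply Finset.sum_congr rfl
    intro a ha
    rw [← range_eq N b r hN hb, Finset.mem_filter] at ha
    apply hgf
    have h3 : (b : ℝ) * r ≤ N * a := by exact_mod_cast ha.2.1
    have h4 : (N : ℝ) * a < (b + 1) * r := by exact_mod_cast ha.2.2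
    constructor
    · rw [div_le_div_iff₀ hN0 hr1]
      linarith
    · rw [div_le_div_iff₀ hr1 hN0]
      linarith
  have h2 : ∑ l ∈ range L, cc ((b : ℝ) / N) (((b : ℝ) + 1) / N) ((dc N b (r % N) : ℝ) / N)
      ((dc N (b + 1) (r % N) : ℝ) / N) l g * (r * ((r : ℝ)⁻¹) ^ l) =
      ∑ l ∈ range L, cc ((b : ℝ) / N) (((b : ℝ) + 1) / N) ((dc N b (r % N) : ℝ) / N)
      ((dc N (b + 1) (r % N) : ℝ) / N) l g * (r : ℝ) ^ (((1 : ℕ) : ℤ) - (l : ℤ)) := by
    apply Finset.sum_congr rfl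
    intro l _
    rw [hz l]
  rw [hE, h2, ← hz L] at h1
  refine h1.trans (mul_le_mul_of_nonneg_right ?_ (zpow_pos hr1 _).le)
  have h3 : |B (r % N)| ≤ ∑ s ∈ range N, |B s| :=
    Finset.single_le_sum (f := fun s => |B s|) (fun s _ => abs_nonneg _)
      (Finset.mem_range.2 (Nat.mod_lt r hN))
  exact (le_abs_self _).trans h3

end H572AE.GE
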