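import Mathlib
import Pool.Agent.H572.AE.Stm5

/-!
# AE5 GEO: the Euler-Maclaurin expansion over the odd numbers in an interval with rational end points (helper924)

General lemma for a step `s` (`expand`), adapted from FE3 (helper383).
-/

set_option autoImplicit false

open Finset
open scoped ContDiff Nat

namespace H572AE.GEO

/-- the leading terms -/
noncomputable def lead (s α β e0 e1 : ℝ) : ℕ → (ℝ → ℝ) → ℝ
  | 0, f => s⁻¹ * ∫ x in α..β, f x
  | l + 1, f => s⁻¹ * (((l + 1)! : ℝ)⁻¹ *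
      (e1 ^ (l + 1) * iteratedDeriv l f β - e0 ^ (l + 1) * iteratedDeriv l f α))

/-- the coefficients of the expansion -/
noncomputable def cc (s α β e0 e1 : ℝ) : ℕ → (ℝ → ℝ) → ℝ
  | 0, f => lead s α β e0 e1 0 f
  | l + 1, f => lead s α β e0 e1 (l + 1) f - ∑ i ∈ range (l + 1),
      s ^ (i + 1) * ((i + 2)! : ℝ)⁻¹ * cc s α β e0 e1 (l - i) (iteratedDeriv (i + 1) f)
termination_by l _ => l
decreasing_by omega

/-- the Riemann sum without the factor `1 / r` -/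
noncomputable def E (s : ℝ) (a0 : ℕ → ℝ) (n : ℕ → ℕ) (f : ℝ → ℝ) (r : ℕ) : ℝ :=
  ∑ j ∈ range (n r), f ((a0 r + s * j) / r)

/-- smooth functions near the interval -/
def Sm (p q : ℝ) (f : ℝ → ℝ) : Prop := ContDiffOn ℝ ∞ f (Set.Ioo p q)

lemma Sm.deriv {p q : ℝ} {f : ℝ → ℝ} (hf : Sm p q f) : Sm p q (deriv f) :=
  ((contDiffOn_infty_iff_deriv_of_isOpen isOpen_Ioo).1 hf).2

lemma Sm.iter {p q : ℝ} {f : ℝ → ℝ} (hf : Sm p q f) (k : ℕ) : Sm p q (iteratedDeriv k f) := by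
  induction k with
  | zero => rw [iteratedDeriv_zero]; exact hf
  | succ k ih => rw [iteratedDeriv_succ]; exact ih.deriv

lemma Icc_sub {p q u v : ℝ} (hu : p < u) (hv : v < q) : Set.Icc u v ⊆ Set.Ioo p q := fun _ hx =>
  ⟨by linarith [hx.1], by linarith [hx.2]⟩

lemma Sm.bound {p q u v : ℝ} {f : ℝ → ℝ} (hf : Sm p q f) (hu : p < u) (hv : v < q) :
    ∃ C : ℝ, 0 ≤ C ∧ ∀ x ∈ Set.Icc u v, |f x| ≤ C := by
  obtain ⟨C, hC⟩ := isCompact_Icc.exists_bound_of_continuousOn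
    (hf.continuousOn.mono (Icc_sub hu hv))
  exact ⟨max C 0, le_max_right _ _, fun x hx => (hC x hx).trans (le_max_left _ _)⟩

/-- Taylor's formula -/
lemma taylor {p q u v : ℝ} {F : ℝ → ℝ} (hF : Sm p q F) (hu : p < u) (hv : v < q) (n : ℕ) :
    ∃ C : ℝ, 0 ≤ C ∧ ∀ x h : ℝ, u ≤ x → 0 ≤ h →
    x + h ≤ v → |F (x + h) - ∑ k ∈ range (n + 1), (k ! : ℝ)⁻¹ * h ^ k * iteratedDeriv k F x| ≤
      C * h ^ (n + 1) := by
  obtain ⟨C, hC0, hC⟩ := (hF.iter (n + 1)).bound hu hv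
  refine ⟨C / n !, by positivity, fun x h hx hh0 hxh => ?_⟩
  rcases hh0.eq_or_lt with hh | hh
  · rw [← hh, Finset.sum_range_succ']
    simp
  have hle : x ≤ x + h := by linarith
  have hlt : x < x + h := by linarith
  have hsub : Set.Icc x (x + h) ⊆ Set.Icc u v := Set.Icc_subset_Icc hx hxh
  have hud : UniqueDiffOn ℝ (Set.Icc x (x + h)) := uniqueDiffOn_Icc hlt
  have hd : ∀ (k : ℕ), ∀ y ∈ Set.Icc x (x + h),
      iteratedDerivWithin k F (Set.Icc x (x + h)) y = iteratedDeriv k F y := by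
    intro k y hy
    refine iteratedDerivWithin_eq_iteratedDeriv hud ?_ hy
    have h1 : ContDiffAt ℝ ∞ F y :=
      hF.contDiffAt (isOpen_Ioo.mem_nhds (Icc_sub hu hv (hsub hy)))
    exact h1.of_le (by exact_mod_cast le_top)
  have hcd : ContDiffOn ℝ (n + 1) F (Set.Icc x (x + h)) :=
    (hF.mono (hsub.trans (Icc_sub hu hv))).of_le (by exact_mod_cast le_top)
  have h1 := taylor_mean_remainder_bound (f := F) (a := x) (b := x + h) (C := C) (x := x + h)
    (n := n) hle hcd ⟨hle, le_rfl⟩ (fun y hy => by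
      rw [hd (n + 1) y hy, Real.norm_eq_abs]
      exact hC y (hsub hy))
  rw [taylor_within_apply, Real.norm_eq_abs] at h1
  have h2 : ∑ k ∈ range (n + 1), ((k ! : ℝ)⁻¹ * (x + h - x) ^ k) •
      iteratedDerivWithin k F (Set.Icc x (x + h)) x =
      ∑ k ∈ range (n + 1), (k ! : ℝ)⁻¹ * h ^ k * iteratedDeriv k F x := by
    apply Finset.sum_congr rfl
    intro k _
    rw [hd k x ⟨le_rfl, hle⟩, smul_eq_mul, add_sub_cancel_left]
  rw [h2, add_sub_cancel_left] at h1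
  refine h1.trans (le_of_eq ?_)
  ring

/-- the primitive -/
lemma primitive {p q α : ℝ} {f : ℝ → ℝ} (hf : Sm p q f) (h0 : α ∈ Set.Ioo p q) :
    ∃ F : ℝ → ℝ, Sm p q F ∧ (∀ x, F x = ∫ t in α..x, f t) ∧
    ∀ k, ∀ x ∈ Set.Ioo p q, iteratedDeriv (k + 1) F x = iteratedDeriv k f x := by
  have hder : ∀ x ∈ Set.Ioo p q,
      HasDerivAt (fun u => ∫ t in α..u, f t) (f x) x := by
    intro x hx
    have hsub : Set.uIcc α x ⊆ Set.Ioo p q := Set.ordConnected_Ioo.uIcc_subset h0 hx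
    refine intervalIntegral.integral_hasDerivAt_right
      (hf.continuousOn.mono hsub).intervalIntegrable ?_ ?_
    · exact hf.continuousOn.stronglyMeasurableAtFilter isOpen_Ioo x hx
    · exact hf.continuousOn.continuousAt (isOpen_Ioo.mem_nhds hx)
  have heq : Set.EqOn (_root_.deriv fun u => ∫ t in α..u, f t) f (Set.Ioo p q) :=
    fun x hx => (hder x hx).deriv
  refine ⟨fun u => ∫ t in α..u, f t, ?_, fun _ => rfl, ?_⟩
  · refine (contDiffOn_infty_iff_deriv_of_isOpen isOpen_Ioo).2 ⟨fun x hx =>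
      (hder x hx).differentiableAt.differentiableWithinAt, hf.congr heq⟩
  · intro k x hx
    rw [iteratedDeriv_succ']
    exact heq.iteratedDeriv_of_isOpen isOpen_Ioo k hx

/-- the data of the sum -/
structure Dat (p q s α β e0 e1 : ℝ) (S : Set ℕ) (a0 : ℕ → ℝ) (n : ℕ → ℕ) : Prop where
  s0 : 0 < s
  pα : p < α
  αβ : α ≤ β
  βq : β < q
  e00 : 0 ≤ e0
  e10 : 0 ≤ e1
  ha0 : ∀ r ∈ S, 1 ≤ r → a0 r / r = α + e0 * (r : ℝ)⁻¹
  ha1 : ∀ r ∈ S, 1 ≤ r → (a0 r + s * n r) / r = β + e1 * (r : ℝ)⁻¹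

section

variable {p q s α β e0 e1 : ℝ} {S : Set ℕ} {a0 : ℕ → ℝ} {n : ℕ → ℕ}

lemma Dat.big (H : Dat p q s α β e0 e1 S a0 n) :
    ∃ r0 : ℕ, ∀ r : ℕ, r0 ≤ r → 1 ≤ r →
      β + e1 * (r : ℝ)⁻¹ ≤ (β + q) / 2 ∧ α + e0 * (r : ℝ)⁻¹ ≤ (β + q) / 2 := by
  have hq := H.βq
  have hd : 0 < q - β := by linarith
  refine ⟨⌈2 * (e0 + e1) / (q - β)⌉₊, fun r hr hr1 => ?_⟩
  have hr0 : (0 : ℝ) < r := by exact_mod_cast hr1
  have h1 : 2 * (e0 + e1) / (q - β) ≤ r := (Nat.le_ceil _).trans (by exact_mod_cast hr)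
  rw [div_le_iff₀ hd] at h1
  have h2 : (e0 + e1) * (r : ℝ)⁻¹ ≤ (q - β) / 2 := by
    rw [← div_eq_mul_inv, div_le_iff₀ hr0]
    linarith
  have h3 : 0 ≤ e0 * (r : ℝ)⁻¹ := mul_nonneg H.e00 (by positivity)
  have h4 : 0 ≤ e1 * (r : ℝ)⁻¹ := mul_nonneg H.e10 (by positivity)
  have h5 := H.αβ
  constructor
  · linarith
  · linarith

lemma Dat.nb (H : Dat p q s α β e0 e1 S a0 n) :
    ∃ K : ℝ, 0 ≤ K ∧ ∀ r ∈ S, 1 ≤ r → (n r : ℝ) ≤ K * r := by
  have hs := H.s0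
  have h5 := H.αβ
  have h10 := H.e10
  refine ⟨((β - α) + e1) / s, div_nonneg (by linarith) hs.le, fun r hr hr1 => ?_⟩
  have hr0 : (0 : ℝ) < r := by exact_mod_cast hr1
  have hr1' : (1 : ℝ) ≤ r := by exact_mod_cast hr1
  have hrh : (r : ℝ) * (r : ℝ)⁻¹ = 1 := mul_inv_cancel₀ hr0.ne'
  have h1 := H.ha0 r hr hr1
  have h2 := H.ha1 r hr hr1
  rw [div_eq_iff hr0.ne'] at h1 h2
  have h3 : s * n r = (β - α) * r + (e1 - e0) := by
    linear_combination h2 - h1 + (e1 - e0) * hrh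
  have h4 : s * n r ≤ ((β - α) + e1) * r := by
    have h6 : e1 * 1 ≤ e1 * r := mul_le_mul_of_nonneg_left hr1' h10
    have h7 := H.e00
    rw [h3]
    linarith
  rw [div_mul_eq_mul_div, le_div_iff₀ hs]
  linarith

lemma Dat.pt (H : Dat p q s α β e0 e1 S a0 n) {r : ℕ} (hr : r ∈ S) (hr1 : 1 ≤ r)
    (hb : β + e1 * (r : ℝ)⁻¹ ≤ (β + q) / 2) {j : ℕ} (hj : j ≤ n r) :
    α ≤ (a0 r + s * j) / r ∧ (a0 r + s * j) / r ≤ (β + q) / 2 := by
  have hs := H.s0
  have hr0 : (0 : ℝ) < r := by exact_mod_cast hr1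
  have hj' : (j : ℝ) ≤ n r := by exact_mod_cast hj
  constructor
  · have h1 := H.ha0 r hr hr1
    have h2 : a0 r / r ≤ (a0 r + s * j) / r := by
      apply div_le_div_of_nonneg_right _ hr0.le
      have : 0 ≤ s * j := by positivity
      linarith
    have h3 : 0 ≤ e0 * (r : ℝ)⁻¹ := mul_nonneg H.e00 (by positivity)
    linarith
  · have h1 := H.ha1 r hr hr1
    have h2 : (a0 r + s * j) / r ≤ (a0 r + s * n r) / r := by
      apply div_le_div_of_nonneg_right _ hr0.le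
      have : s * j ≤ s * n r := mul_le_mul_of_nonneg_left hj' hs.le
      linarith
    linarith

/-- the summed Taylor formula -/
lemma summed (H : Dat p q s α β e0 e1 S a0 n) {f : ℝ → ℝ} (hf : Sm p q f) (L : ℕ) :
    ∃ (C : ℝ) (r0 : ℕ), ∀ r ∈ S, r0 ≤ r → 1 ≤ r →
    |∑ l ∈ range (L + 1), lead s α β e0 e1 l f * (r * ((r : ℝ)⁻¹) ^ l) -
      ∑ i ∈ range (L + 1), s ^ i * ((i + 1)! : ℝ)⁻¹ * ((r : ℝ)⁻¹) ^ i *
      E s a0 n (iteratedDeriv i f) r| ≤ C * ((r : ℝ)⁻¹) ^ L := by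
  have hpα := H.pα
  have hαβ := H.αβ
  have hβq := H.βq
  have hs := H.s0
  have hv : (β + q) / 2 < q := by linarith
  have hβv : β ≤ (β + q) / 2 := by linarith
  have hαI : α ∈ Set.Ioo p q := ⟨hpα, by linarith⟩
  have hβI : β ∈ Set.Ioo p q := ⟨by linarith, hβq⟩
  obtain ⟨F, hF, hFi, hFd⟩ := primitive hf hαI
  obtain ⟨C1, hC10, hC1⟩ := taylor hF hpα hv (L + 1)
  obtain ⟨C2, hC20, hC2⟩ := taylor hF hpα hv L
  obtain ⟨r0, hr0⟩ := H.big
  obtain ⟨K, hK0, hK⟩ := H.nb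
  refine ⟨s⁻¹ * (K * C1 * s ^ (L + 2)) + s⁻¹ * (C2 * e1 ^ (L + 1) + C2 * e0 ^ (L + 1)), r0,
    fun r hrS hrr hr1 => ?_⟩
  have hrp : (0 : ℝ) < r := by exact_mod_cast hr1
  have hrh0 : (r : ℝ) * (r : ℝ)⁻¹ = 1 := mul_inv_cancel₀ hrp.ne'
  obtain ⟨y, hy⟩ : ∃ y : ℝ, y = (r : ℝ)⁻¹ := ⟨_, rfl⟩
  have hy0 : 0 < y := by rw [hy]; positivity
  have hA0 := H.ha0 r hrS hr1
  have hA1 := H.ha1 r hrS hr1
  obtain ⟨hb1, hb0⟩ := hr0 r hrr hr1
  have hpt := fun j (hj : j ≤ n r) => H.pt hrS hr1 hb1 hj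
  rw [← hy] at hrh0 hA0 hA1 hb1 hb0 ⊢
  have hrh : (r : ℝ) * y = 1 := hrh0
  have hterm : ∀ j ∈ range (n r), |(F ((a0 r + s * ((j + 1 : ℕ) : ℝ)) / r) -
      F ((a0 r + s * j) / r)) - ∑ i ∈ range (L + 1), ((i + 1)! : ℝ)⁻¹ * (s * y) ^ (i + 1) *
        iteratedDeriv i f ((a0 r + s * j) / r)| ≤ C1 * (s * y) ^ (L + 2) := by
    intro j hj
    rw [Finset.mem_range] at hj
    have e1' : (a0 r + s * j) / r + s * y = (a0 r + s * ((j + 1 : ℕ) : ℝ)) / r := by
      rw [hy]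
      push_cast
      field_simp
      ring
    obtain ⟨hx0, hx1⟩ := hpt j (by omega)
    have hx2 := (hpt (j + 1) hj).2
    have hxI : (a0 r + s * j) / r ∈ Set.Ioo p q := ⟨by linarith, by linarith⟩
    have h1 := hC1 ((a0 r + s * j) / r) (s * y) hx0 (by positivity) (by rw [e1']; exact hx2)
    rw [e1', Finset.sum_range_succ'] at h1
    rw [Nat.factorial_zero, pow_zero, iteratedDeriv_zero] at h1
    have h2 : ∑ k ∈ range (L + 1), ((k + 1)! : ℝ)⁻¹ * (s * y) ^ (k + 1) *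
        iteratedDeriv (k + 1) F ((a0 r + s * j) / r) =
        ∑ i ∈ range (L + 1), ((i + 1)! : ℝ)⁻¹ * (s * y) ^ (i + 1) *
          iteratedDeriv i f ((a0 r + s * j) / r) := by
      apply Finset.sum_congr rfl
      intro k _
      rw [hFd k _ hxI]
    rw [h2] at h1
    refine le_of_eq_of_le ?_ h1
    congr 1
    rw [Nat.cast_one, inv_one]
    ring
  have hsum : |(F (β + e1 * y) - F (α + e0 * y)) - ∑ i ∈ range (L + 1),
      ((i + 1)! : ℝ)⁻¹ * (s * y) ^ (i + 1) * E s a0 n (iteratedDeriv i f) r| ≤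
      K * r * (C1 * (s * y) ^ (L + 2)) := by
    have e1' : (F (β + e1 * y) - F (α + e0 * y)) - ∑ i ∈ range (L + 1),
        ((i + 1)! : ℝ)⁻¹ * (s * y) ^ (i + 1) * E s a0 n (iteratedDeriv i f) r =
        ∑ j ∈ range (n r), ((F ((a0 r + s * ((j + 1 : ℕ) : ℝ)) / r) -
          F ((a0 r + s * j) / r)) - ∑ i ∈ range (L + 1), ((i + 1)! : ℝ)⁻¹ * (s * y) ^ (i + 1) *
            iteratedDeriv i f ((a0 r + s * j) / r)) := by
      rw [Finset.sum_sub_distrib, Finset.sum_range_sub (fun j : ℕ => F ((a0 r + s * j) / r)) (n r),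
        hA1, Nat.cast_zero, mul_zero, add_zero, hA0]
      congr 1
      rw [Finset.sum_comm]
      apply Finset.sum_congr rfl
      intro i _
      unfold E
      rw [Finset.mul_sum]
    rw [e1']
    refine (Finset.abs_sum_le_sum_abs _ _).trans ?_
    refine (Finset.sum_le_sum hterm).trans ?_
    rw [Finset.sum_const, Finset.card_range, nsmul_eq_mul]
    exact mul_le_mul_of_nonneg_right (hK r hrS hr1) (by positivity)
  have hB1 := hC2 β (e1 * y) hαβ (mul_nonneg H.e10 hy0.le) hb1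
  have hB0 := hC2 α (e0 * y) le_rfl (mul_nonneg H.e00 hy0.le) hb0
  have hlead : ∑ l ∈ range (L + 1), lead s α β e0 e1 l f * (r * y ^ l) = r * s⁻¹ *
      (∑ k ∈ range (L + 1), (k ! : ℝ)⁻¹ * (e1 * y) ^ k * iteratedDeriv k F β -
        ∑ k ∈ range (L + 1), (k ! : ℝ)⁻¹ * (e0 * y) ^ k * iteratedDeriv k F α) := by
    rw [← Finset.sum_sub_distrib, Finset.mul_sum]
    apply Finset.sum_congr rfl
    intro l _
    rcases l with _ | l
    · rw [lead, iteratedDeriv_zero, hFi β, hFi α, intervalIntegral.integral_same]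
      simp
      ring
    · rw [lead, hFd l β hβI, hFd l α hαI, mul_pow, mul_pow]
      ring
  have hE : ∑ i ∈ range (L + 1), s ^ i * ((i + 1)! : ℝ)⁻¹ * y ^ i *
      E s a0 n (iteratedDeriv i f) r = r * s⁻¹ * ∑ i ∈ range (L + 1),
      ((i + 1)! : ℝ)⁻¹ * (s * y) ^ (i + 1) * E s a0 n (iteratedDeriv i f) r := by
    rw [Finset.mul_sum]
    apply Finset.sum_congr rfl
    intro i _
    have hss : s⁻¹ * s = 1 := inv_mul_cancel₀ hs.ne'
    rw [mul_pow, pow_succ, pow_succ]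
    linear_combination (-(s ^ i * ((i + 1)! : ℝ)⁻¹ * y ^ i * E s a0 n (iteratedDeriv i f) r)) *
      (hrh * s⁻¹ * s + hss)
  rw [hlead, hE, ← mul_sub, abs_mul, abs_of_pos (show 0 < (r : ℝ) * s⁻¹ by positivity)]
  have hfin : |(∑ k ∈ range (L + 1), (k ! : ℝ)⁻¹ * (e1 * y) ^ k * iteratedDeriv k F β -
        ∑ k ∈ range (L + 1), (k ! : ℝ)⁻¹ * (e0 * y) ^ k * iteratedDeriv k F α) -
      ∑ i ∈ range (L + 1), ((i + 1)! : ℝ)⁻¹ * (s * y) ^ (i + 1) *
        E s a0 n (iteratedDeriv i f) r| ≤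
      K * r * (C1 * (s * y) ^ (L + 2)) + C2 * (e1 * y) ^ (L + 1) + C2 * (e0 * y) ^ (L + 1) := by
    rw [abs_le] at hsum hB1 hB0 ⊢
    constructor
    · linarith [hsum.1, hsum.2, hB1.1, hB1.2, hB0.1, hB0.2]
    · linarith [hsum.1, hsum.2, hB1.1, hB1.2, hB0.1, hB0.2]
  refine (mul_le_mul_of_nonneg_left hfin (by positivity)).trans (le_of_eq ?_)
  rw [mul_pow, mul_pow, mul_pow, pow_succ y (L + 1), pow_succ y L]
  linear_combination (s⁻¹ * (K * C1 * s ^ (L + 2)) * y ^ L * ((r : ℝ) * y + 1) +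
    s⁻¹ * (C2 * e1 ^ (L + 1) + C2 * e0 ^ (L + 1)) * y ^ L) * hrh

/-- the expansion to all orders -/
lemma expand (H : Dat p q s α β e0 e1 S a0 n) (L : ℕ) : ∀ f : ℝ → ℝ, Sm p q f →
    ∃ (B : ℝ) (r0 : ℕ), ∀ r ∈ S, r0 ≤ r → 1 ≤ r →
    |E s a0 n f r - ∑ l ∈ range L, cc s α β e0 e1 l f * (r * ((r : ℝ)⁻¹) ^ l)| ≤
      B * (r * ((r : ℝ)⁻¹) ^ L) := by
  induction L using Nat.strong_induction_on with
  | _ L ih =>
    intro f hf
    cases L with
    | zero =>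
      have hβq := H.βq
      obtain ⟨C, hC0, hC⟩ := hf.bound H.pα (show (β + q) / 2 < q by linarith)
      obtain ⟨r0, hr0⟩ := H.big
      obtain ⟨K, hK0, hK⟩ := H.nb
      refine ⟨K * C, r0, fun r hrS hrr hr => ?_⟩
      have hrp : (0 : ℝ) < r := by exact_mod_cast hr
      obtain ⟨hb1, hb0⟩ := hr0 r hrr hr
      rw [Finset.sum_range_zero, sub_zero, pow_zero, mul_one]
      unfold E
      refine (Finset.abs_sum_le_sum_abs _ _).trans ?_
      refine (Finset.sum_le_sum (g := fun _ => C) fun j hj => hC _ ?_).trans ?_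
      · exact H.pt hrS hr hb1 (Finset.mem_range.1 hj).le
      · rw [Finset.sum_const, Finset.card_range, nsmul_eq_mul]
        calc (n r : ℝ) * C ≤ K * r * C := mul_le_mul_of_nonneg_right (hK r hrS hr) hC0
          _ = K * C * r := by ring
    | succ L =>
      obtain ⟨C, r1, hC⟩ := summed H hf L
      have hB : ∀ k, ∃ (B : ℝ) (r0 : ℕ), k < L → ∀ r ∈ S, r0 ≤ r → 1 ≤ r →
          |E s a0 n (iteratedDeriv (k + 1) f) r - ∑ m ∈ range (L - k),
            cc s α β e0 e1 m (iteratedDeriv (k + 1) f) * (r * ((r : ℝ)⁻¹) ^ m)| ≤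
              B * (r * ((r : ℝ)⁻¹) ^ (L - k)) := by
        intro k
        obtain ⟨B, r0, hB⟩ := ih (L - k) (by omega) _ (hf.iter (k + 1))
        exact ⟨B, r0, fun _ => hB⟩
      choose B r0 hB using hB
      have hs := H.s0
      refine ⟨C + ∑ k ∈ range L, s ^ (k + 1) * ((k + 2)! : ℝ)⁻¹ * B k,
        r1 + ∑ k ∈ range L, r0 k, fun r hrS hrr hr => ?_⟩
      have hrp : (0 : ℝ) < r := by exact_mod_cast hr
      have hr0k : ∀ k ∈ range L, r0 k ≤ r := fun k hk =>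
        (Finset.single_le_sum (fun _ _ => Nat.zero_le _) hk).trans (by omega)
      obtain ⟨y, hy⟩ : ∃ y : ℝ, y = (r : ℝ)⁻¹ := ⟨_, rfl⟩
      have hy0 : 0 < y := by rw [hy]; positivity
      have h1 := hC r hrS (by omega) hr
      have hBr : ∀ k ∈ range L, |E s a0 n (iteratedDeriv (k + 1) f) r - ∑ m ∈ range (L - k),
            cc s α β e0 e1 m (iteratedDeriv (k + 1) f) * (r * y ^ m)| ≤
              B k * (r * y ^ (L - k)) := by
        intro k hk
        have h3 := hB k (Finset.mem_range.1 hk) r hrS (hr0k k hk) hr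
        rw [← hy] at h3
        exact h3
      have hrh : (r : ℝ) * y = 1 := by rw [hy]; exact mul_inv_cancel₀ hrp.ne'
      rw [← hy] at h1 ⊢
      rw [Finset.sum_range_succ', Finset.sum_range_succ' (fun i => s ^ i * ((i + 1)! : ℝ)⁻¹ *
        y ^ i * E s a0 n (iteratedDeriv i f) r)] at h1
      rw [pow_zero, pow_zero, iteratedDeriv_zero, zero_add, Nat.factorial_one, Nat.cast_one,
        inv_one, one_mul, one_mul, one_mul, mul_one] at h1
      -- the terms with `k`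
      have h2 : ∀ k ∈ range L, |s ^ (k + 1) * ((k + 2)! : ℝ)⁻¹ * y ^ (k + 1) *
          E s a0 n (iteratedDeriv (k + 1) f) r - ∑ m ∈ range (L - k),
            s ^ (k + 1) * ((k + 2)! : ℝ)⁻¹ * cc s α β e0 e1 m (iteratedDeriv (k + 1) f) *
              y ^ (k + m)| ≤
          s ^ (k + 1) * ((k + 2)! : ℝ)⁻¹ * B k * y ^ L := by
        intro k hk
        have hkL := Finset.mem_range.1 hk
        have h3 := hBr k hk
        have h4 : (0 : ℝ) < s ^ (k + 1) * ((k + 2)! : ℝ)⁻¹ * y ^ (k + 1) := by positivity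
        have h5 := mul_le_mul_of_nonneg_left h3 h4.le
        rw [← abs_of_pos h4, ← abs_mul, abs_of_pos h4] at h5
        have e1' : s ^ (k + 1) * ((k + 2)! : ℝ)⁻¹ * y ^ (k + 1) *
            (E s a0 n (iteratedDeriv (k + 1) f) r -
            ∑ m ∈ range (L - k), cc s α β e0 e1 m (iteratedDeriv (k + 1) f) * (r * y ^ m)) =
            s ^ (k + 1) * ((k + 2)! : ℝ)⁻¹ * y ^ (k + 1) *
          E s a0 n (iteratedDeriv (k + 1) f) r - ∑ m ∈ range (L - k),
            s ^ (k + 1) * ((k + 2)! : ℝ)⁻¹ * cc s α β e0 e1 m (iteratedDeriv (k + 1) f) *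
              y ^ (k + m) := by
          rw [mul_sub, Finset.mul_sum]
          congr 1
          apply Finset.sum_congr rfl
          intro m _
          rw [pow_succ y k, pow_add]
          linear_combination (s ^ (k + 1) * ((k + 2)! : ℝ)⁻¹ * y ^ k * y ^ m *
            cc s α β e0 e1 m (iteratedDeriv (k + 1) f)) * hrh
        have e2 : s ^ (k + 1) * ((k + 2)! : ℝ)⁻¹ * y ^ (k + 1) *
            (B k * (r * y ^ (L - k))) = s ^ (k + 1) * ((k + 2)! : ℝ)⁻¹ * B k * y ^ L := by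
          have e3 : y ^ L = y ^ k * y ^ (L - k) := by
            rw [← pow_add]
            congr 1
            omega
          rw [e3, pow_succ y k]
          linear_combination (s ^ (k + 1) * ((k + 2)! : ℝ)⁻¹ * y ^ k * y ^ (L - k) *
            B k) * hrh
        rw [e1', e2] at h5
        exact h5
      have h3 : |∑ k ∈ range L, s ^ (k + 1) * ((k + 2)! : ℝ)⁻¹ * y ^ (k + 1) *
          E s a0 n (iteratedDeriv (k + 1) f) r - ∑ k ∈ range L, ∑ m ∈ range (L - k),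
            s ^ (k + 1) * ((k + 2)! : ℝ)⁻¹ * cc s α β e0 e1 m (iteratedDeriv (k + 1) f) *
              y ^ (k + m)| ≤
          (∑ k ∈ range L, s ^ (k + 1) * ((k + 2)! : ℝ)⁻¹ * B k) * y ^ L := by
        rw [← Finset.sum_sub_distrib, Finset.sum_mul]
        exact (Finset.abs_sum_le_sum_abs _ _).trans (Finset.sum_le_sum h2)
      have h4 : ∑ k ∈ range L, ∑ m ∈ range (L - k),
            s ^ (k + 1) * ((k + 2)! : ℝ)⁻¹ * cc s α β e0 e1 m (iteratedDeriv (k + 1) f) *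
              y ^ (k + m) =
          ∑ l ∈ range L, lead s α β e0 e1 (l + 1) f * y ^ l -
            ∑ l ∈ range L, cc s α β e0 e1 (l + 1) f * y ^ l := by
        rw [← Finset.sum_range_diag_flip L (fun k m =>
          s ^ (k + 1) * ((k + 2)! : ℝ)⁻¹ * cc s α β e0 e1 m (iteratedDeriv (k + 1) f) *
            y ^ (k + m)), ← Finset.sum_sub_distrib]
        apply Finset.sum_congr rfl
        intro l _
        rw [← sub_mul, cc, sub_sub_cancel, Finset.sum_mul]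
        apply Finset.sum_congr rfl
        intro k hk
        have hkl := Finset.mem_range.1 hk
        have e1' : k + (l - k) = l := by omega
        rw [e1']
      rw [h4] at h3
      have hsh : ∀ g : ℕ → ℝ, ∑ l ∈ range L, g (l + 1) * (r * y ^ (l + 1)) =
          ∑ l ∈ range L, g (l + 1) * y ^ l := by
        intro g
        apply Finset.sum_congr rfl
        intro l _
        rw [pow_succ]
        linear_combination (g (l + 1) * y ^ l) * hrh
      have h5 : ∑ l ∈ range (L + 1), cc s α β e0 e1 l f * (r * y ^ l) =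
          ∑ l ∈ range L, cc s α β e0 e1 (l + 1) f * y ^ l + lead s α β e0 e1 0 f * r := by
        rw [Finset.sum_range_succ', hsh (fun l => cc s α β e0 e1 l f)]
        have e0' : cc s α β e0 e1 0 f = lead s α β e0 e1 0 f := by rw [cc]
        rw [e0', pow_zero, mul_one]
      rw [hsh (fun l => lead s α β e0 e1 l f)] at h1
      have h6 : (r : ℝ) * y ^ (L + 1) = y ^ L := by
        rw [pow_succ]
        linear_combination (y ^ L) * hrh
      rw [h5, h6]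
      rw [abs_le] at h1 h3 ⊢
      constructor
      · linarith [h1.1, h1.2, h3.1, h3.2]
      · linarith [h1.1, h1.2, h3.1, h3.2]

end

/-- from the residue classes to the full expansion -/
theorem fen_of (M d : ℕ) (G : ℕ → ℝ) (c : ℕ → ℕ → ℝ) (hM : 1 ≤ M)
    (h : ∀ ρ < M, ∀ L : ℕ, ∃ (B : ℝ) (r0 : ℕ), ∀ r : ℕ, r % M = ρ → r0 ≤ r → 1 ≤ r →
      |G r - ∑ l ∈ range L, c ρ l * (r : ℝ) ^ ((d : ℤ) - (l : ℤ))| ≤
        B * (r : ℝ) ^ ((d : ℤ) - (L : ℤ))) : FEN M d G := by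
  refine ⟨c, fun L => ?_⟩
  have h' : ∀ ρ, ∃ (B : ℝ) (r0 : ℕ), ρ < M → ∀ r : ℕ, r % M = ρ → r0 ≤ r → 1 ≤ r →
      |G r - ∑ l ∈ range L, c ρ l * (r : ℝ) ^ ((d : ℤ) - (l : ℤ))| ≤
        B * (r : ℝ) ^ ((d : ℤ) - (L : ℤ)) := by
    intro ρ
    by_cases hρ : ρ < M
    · obtain ⟨B, r0, hB⟩ := h ρ hρ L
      exact ⟨B, r0, fun _ => hB⟩
    · exact ⟨0, 0, fun h => absurd h hρ⟩
  choose B r0 hB using h'
  obtain ⟨T, hT⟩ : ∃ T : ℕ → ℝ, T = fun r : ℕ =>
    |G r - ∑ l ∈ range L, c (r % M) l * (r : ℝ) ^ ((d : ℤ) - (l : ℤ))| := ⟨_, rfl⟩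
  have hT0 : ∀ r, 0 ≤ T r := fun r => by rw [hT]; exact abs_nonneg _
  refine ⟨∑ ρ ∈ range M, |B ρ| + ∑ r ∈ range (∑ ρ ∈ range M, r0 ρ),
    T r / (r : ℝ) ^ ((d : ℤ) - (L : ℤ)), fun r hr => ?_⟩
  have hrp : (0 : ℝ) < r := by exact_mod_cast hr
  have hz : 0 < (r : ℝ) ^ ((d : ℤ) - (L : ℤ)) := zpow_pos hrp _
  have hρ : r % M < M := Nat.mod_lt _ hM
  have hn1 : 0 ≤ ∑ ρ ∈ range M, |B ρ| := Finset.sum_nonneg fun _ _ => abs_nonneg _
  have hn2 : 0 ≤ ∑ r ∈ range (∑ ρ ∈ range M, r0 ρ), T r / (r : ℝ) ^ ((d : ℤ) - (L : ℤ)) :=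
    Finset.sum_nonneg fun r _ => div_nonneg (hT0 r) (zpow_nonneg (Nat.cast_nonneg r) _)
  have hTr : |G r - ∑ l ∈ range L, c (r % M) l * (r : ℝ) ^ ((d : ℤ) - (l : ℤ))| = T r := by
    rw [hT]
  by_cases hb : r < ∑ ρ ∈ range M, r0 ρ
  · have h1 : T r / (r : ℝ) ^ ((d : ℤ) - (L : ℤ)) ≤
        ∑ r ∈ range (∑ ρ ∈ range M, r0 ρ), T r / (r : ℝ) ^ ((d : ℤ) - (L : ℤ)) :=
      Finset.single_le_sum (f := fun r : ℕ => T r / (r : ℝ) ^ ((d : ℤ) - (L : ℤ)))
        (fun r _ => div_nonneg (hT0 r) (zpow_nonneg (Nat.cast_nonneg r) _))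
        (Finset.mem_range.2 hb)
    rw [hTr, ← div_le_iff₀ hz]
    linarith
  · have h1 : r0 (r % M) ≤ r :=
      (Finset.single_le_sum (f := r0) (fun _ _ => Nat.zero_le _)
        (Finset.mem_range.2 hρ)).trans (by omega)
    have h2 := hB (r % M) hρ r rfl h1 hr
    refine h2.trans (mul_le_mul_of_nonneg_right ?_ hz.le)
    have h3 : |B (r % M)| ≤ ∑ ρ ∈ range M, |B ρ| :=
      Finset.single_le_sum (f := fun ρ => |B ρ|) (fun _ _ => abs_nonneg _)
        (Finset.mem_range.2 hρ)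
    linarith [le_abs_self (B (r % M))]

/-- the smallest odd number `t` with `X ≤ N t` -/
theorem exists_t (N X : ℕ) (hN : 1 ≤ N) : ∃ t : ℕ, t % 2 = 1 ∧ X ≤ N * t ∧
    ∀ u : ℕ, u % 2 = 1 → X ≤ N * u → t ≤ u := by
  classical
  have hex : ∃ t : ℕ, t % 2 = 1 ∧ X ≤ N * t := by
    refine ⟨2 * X + 1, by omega, ?_⟩
    calc X ≤ 1 * (2 * X + 1) := by omega
      _ ≤ N * (2 * X + 1) := Nat.mul_le_mul_right _ hN
  exact ⟨Nat.find hex, (Nat.find_spec hex).1, (Nat.find_spec hex).2,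
    fun u h1 h2 => Nat.find_min' hex ⟨h1, h2⟩⟩

theorem t_iff {N X t : ℕ} (hN : 1 ≤ N) (h1 : t % 2 = 1) (h2 : X ≤ N * t)
    (h3 : ∀ u : ℕ, u % 2 = 1 → X ≤ N * u → t ≤ u) (c a : ℕ) (ha : a % 2 = 1) :
    N * (2 * c) + X ≤ N * a ↔ 2 * c + t ≤ a := by
  constructor
  · intro h
    have h4 : 2 * c ≤ a := by
      have h5 : N * (2 * c) ≤ N * a := by omega
      exact Nat.le_of_mul_le_mul_left h5 hN
    obtain ⟨u, rfl⟩ := Nat.exists_eq_add_of_le h4
    have h5 := h3 u (by omega) (by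
      rw [Nat.mul_add] at h
      omega)
    omega
  · intro h
    calc N * (2 * c) + X ≤ N * (2 * c) + N * t := by omega
      _ = N * (2 * c + t) := by ring
      _ ≤ N * a := Nat.mul_le_mul_left _ h

/-- **GEO.** -/
theorem main : H572AE.S_geo := by
  intro N b δ f hN hb hδ hf
  have hNp : (0 : ℝ) < N := by exact_mod_cast hN
  choose t ht1 ht2 ht3 using fun X => exists_t N X hN
  obtain ⟨e0, he0⟩ : ∃ e0 : ℕ → ℝ, e0 = fun ρ : ℕ => ((N : ℝ) * t (b * ρ) - b * ρ) / N := ⟨_, rfl⟩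
  obtain ⟨e1, he1⟩ : ∃ e1 : ℕ → ℝ, e1 = fun ρ : ℕ =>
    ((N : ℝ) * t ((b + 1) * ρ) - (b + 1) * ρ) / N := ⟨_, rfl⟩
  refine fen_of (2 * N) 1 _ (fun ρ l => cc 2 ((b : ℝ) / N) (((b : ℝ) + 1) / N) (e0 ρ) (e1 ρ) l f)
    (by omega) ?_
  intro ρ hρ L
  have htt : t (b * ρ) ≤ t ((b + 1) * ρ) := ht3 _ _ (ht1 _)
    ((Nat.mul_le_mul_right ρ (Nat.le_succ b)).trans (ht2 _))
  have hpar : 2 * ((t ((b + 1) * ρ) - t (b * ρ)) / 2) = t ((b + 1) * ρ) - t (b * ρ) := by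
    have h1 := ht1 (b * ρ)
    have h2 := ht1 ((b + 1) * ρ)
    omega
  obtain ⟨a0, ha0⟩ : ∃ a0 : ℕ → ℕ, a0 = fun r => 2 * (b * (r / (2 * N))) + t (b * ρ) := ⟨_, rfl⟩
  obtain ⟨n, hn⟩ : ∃ n : ℕ → ℕ, n = fun r => r / (2 * N) +
    (t ((b + 1) * ρ) - t (b * ρ)) / 2 := ⟨_, rfl⟩
  have ha1 : ∀ r, a0 r + 2 * n r = 2 * ((b + 1) * (r / (2 * N))) + t ((b + 1) * ρ) := by
    intro r
    rw [ha0, hn]
    have e : 2 * ((b + 1) * (r / (2 * N))) = 2 * (b * (r / (2 * N))) + 2 * (r / (2 * N)) := by ring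
    simp only
    omega
  have hr : ∀ r, r % (2 * N) = ρ → r = N * (2 * (r / (2 * N))) + ρ := by
    intro r h
    have h1 := Nat.div_add_mod r (2 * N)
    rw [h] at h1
    have e : 2 * N * (r / (2 * N)) = N * (2 * (r / (2 * N))) := by ring
    omega
  have hbr : ∀ r, r % (2 * N) = ρ → b * r = N * (2 * (b * (r / (2 * N)))) + b * ρ := by
    intro r h
    have h1 := hr r h
    calc b * r = b * (N * (2 * (r / (2 * N))) + ρ) := congrArg (b * ·) h1
      _ = _ := by ring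
  have hbr1 : ∀ r, r % (2 * N) = ρ →
      (b + 1) * r = N * (2 * ((b + 1) * (r / (2 * N)))) + (b + 1) * ρ := by
    intro r h
    have h1 := hr r h
    calc (b + 1) * r = (b + 1) * (N * (2 * (r / (2 * N))) + ρ) := congrArg ((b + 1) * ·) h1
      _ = _ := by ring
  have H : Dat ((b : ℝ) / N - δ) (((b : ℝ) + 1) / N + δ) 2 ((b : ℝ) / N) (((b : ℝ) + 1) / N)
      (e0 ρ) (e1 ρ) {r | r % (2 * N) = ρ} (fun r => (a0 r : ℝ)) n := by
    refine ⟨by norm_num, by linarith, ?_, by linarith, ?_, ?_, ?_, ?_⟩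
    · exact div_le_div_of_nonneg_right (by linarith) hNp.le
    · rw [he0]
      apply div_nonneg _ hNp.le
      have h1 : ((b * ρ : ℕ) : ℝ) ≤ ((N * t (b * ρ) : ℕ) : ℝ) := by exact_mod_cast ht2 (b * ρ)
      push_cast at h1
      linarith
    · rw [he1]
      apply div_nonneg _ hNp.le
      have h1 : (((b + 1) * ρ : ℕ) : ℝ) ≤ ((N * t ((b + 1) * ρ) : ℕ) : ℝ) := by
        exact_mod_cast ht2 ((b + 1) * ρ)
      push_cast at h1
      linarith
    · intro r hrS hr1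
      have hrp : (0 : ℝ) < r := by exact_mod_cast hr1
      have h1 : (b : ℝ) * r = N * (2 * (b * ((r / (2 * N) : ℕ) : ℝ))) + b * ρ := by
        exact_mod_cast hbr r hrS
      have h2 : (a0 r : ℝ) = 2 * (b * ((r / (2 * N) : ℕ) : ℝ)) + t (b * ρ) := by
        rw [ha0]; push_cast; ring
      rw [h2, he0]
      field_simp
      linear_combination -h1
    · intro r hrS hr1
      have hrp : (0 : ℝ) < r := by exact_mod_cast hr1
      have h1 : ((b : ℝ) + 1) * r = N * (2 * ((b + 1) * ((r / (2 * N) : ℕ) : ℝ))) +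
          (b + 1) * ρ := by
        exact_mod_cast hbr1 r hrS
      have h2 : (a0 r : ℝ) + 2 * n r = 2 * ((b + 1) * ((r / (2 * N) : ℕ) : ℝ)) +
          t ((b + 1) * ρ) := by
        exact_mod_cast ha1 r
      rw [h2, he1]
      field_simp
      linear_combination -h1
  obtain ⟨B, r0, hB⟩ := expand H L f hf
  refine ⟨B, r0, fun r hrS hrr hr1 => ?_⟩
  have hrp : (0 : ℝ) < r := by exact_mod_cast hr1
  have h1 := hB r hrS hrr hr1
  have hz : ∀ l : ℕ, (r : ℝ) ^ (((1 : ℕ) : ℤ) - (l : ℤ)) = r * ((r : ℝ)⁻¹) ^ l := by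
    intro l
    rw [zpow_sub₀ hrp.ne', zpow_natCast, zpow_natCast, pow_one, inv_pow, div_eq_mul_inv]
  simp only [hz]
  have hsum : ∑ a ∈ (range r).filter (fun a => a % 2 = 1 ∧ b * r ≤ N * a ∧ N * a < (b + 1) * r),
      f ((a : ℝ) / r) = E 2 (fun r => (a0 r : ℝ)) n f r := by
    unfold E
    refine Finset.sum_nbij' (fun a => (a - a0 r) / 2) (fun j => a0 r + 2 * j) ?_ ?_ ?_ ?_ ?_
    · intro a ha
      rw [Finset.mem_filter] at ha
      obtain ⟨-, h2, h3, h4⟩ := ha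
      rw [hbr r hrS, t_iff hN (ht1 _) (ht2 _) (ht3 _) _ _ h2] at h3
      rw [hbr1 r hrS] at h4
      have h5 : ¬ (2 * ((b + 1) * (r / (2 * N))) + t ((b + 1) * ρ) ≤ a) := by
        rw [← t_iff hN (ht1 _) (ht2 _) (ht3 _) _ _ h2]
        omega
      have h6 := ha1 r
      have h7 : a0 r = 2 * (b * (r / (2 * N))) + t (b * ρ) := by rw [ha0]
      have h8 := ht1 (b * ρ)
      rw [Finset.mem_range]
      omega
    · intro j hj
      rw [Finset.mem_range] at hj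
      have h7 : a0 r = 2 * (b * (r / (2 * N))) + t (b * ρ) := by rw [ha0]
      have h8 := ht1 (b * ρ)
      have h6 := ha1 r
      have h2 : (a0 r + 2 * j) % 2 = 1 := by omega
      have h3 : b * r ≤ N * (a0 r + 2 * j) := by
        rw [hbr r hrS, t_iff hN (ht1 _) (ht2 _) (ht3 _) _ _ h2]
        omega
      have h4 : N * (a0 r + 2 * j) < (b + 1) * r := by
        rw [hbr1 r hrS]
        by_contra h5
        rw [not_lt, t_iff hN (ht1 _) (ht2 _) (ht3 _) _ _ h2] at h5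
        omega
      rw [Finset.mem_filter, Finset.mem_range]
      refine ⟨?_, h2, h3, h4⟩
      have h9 : N * (a0 r + 2 * j) < N * r := h4.trans_le (Nat.mul_le_mul_right r hb)
      exact Nat.lt_of_mul_lt_mul_left h9
    · intro a ha
      rw [Finset.mem_filter] at ha
      obtain ⟨-, h2, h3, h4⟩ := ha
      rw [hbr r hrS, t_iff hN (ht1 _) (ht2 _) (ht3 _) _ _ h2] at h3
      have h7 : a0 r = 2 * (b * (r / (2 * N))) + t (b * ρ) := by rw [ha0]
      have h8 := ht1 (b * ρ)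
      omega
    · intro j _
      omega
    · intro a ha
      rw [Finset.mem_filter] at ha
      obtain ⟨-, h2, h3, h4⟩ := ha
      rw [hbr r hrS, t_iff hN (ht1 _) (ht2 _) (ht3 _) _ _ h2] at h3
      have h7 : a0 r = 2 * (b * (r / (2 * N))) + t (b * ρ) := by rw [ha0]
      have h8 := ht1 (b * ρ)
      have h9 : a = a0 r + 2 * ((a - a0 r) / 2) := by omega
      have h10 : (a : ℝ) = (a0 r : ℝ) + 2 * (((a - a0 r) / 2 : ℕ) : ℝ) := by exact_mod_cast h9
      rw [← h10]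
  rw [hsum]
  exact h1

end H572AE.GEO
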