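import Mathlib
import Pool.Agent.H572.AE.Stm2

set_option autoImplicit false

open Finset Polynomial

namespace H572AE.LB2

theorem sin_pos' (b r : ℕ) (hb : 1 ≤ b) (hbr : b < r) : 0 < Real.sin (Real.pi * b / r) := by
  have hr : (0 : ℝ) < r := by exact_mod_cast (by omega : 0 < r)
  have hb0 : (0 : ℝ) < b := by exact_mod_cast hb
  have hbr' : (b : ℝ) < r := by exact_mod_cast hbr
  have hpi := Real.pi_pos
  apply Real.sin_pos_of_pos_of_lt_pi
  · positivity
  · rw [div_lt_iff₀ hr]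
    exact mul_lt_mul_of_pos_left hbr' hpi

theorem term_ge_sq (s : ℝ) (hs : 0 < s) (hs1 : s ≤ 1) (k H : ℕ) (hk : k ≤ H + 1) :
    s ^ 2 ≤ s ^ (2 * k) / s ^ (2 * H) := by
  rw [le_div_iff₀ (by positivity), ← pow_add]
  exact pow_le_pow_of_le_one hs.le hs1 (by omega)

theorem term_ge_pow (s x : ℝ) (hs : 0 < s) (hx : 0 < x) (hsx : s ≤ 1 / x) (k H : ℕ) (hk : k ≤ H) :
    x ^ (2 * H - 2 * k) ≤ s ^ (2 * k) / s ^ (2 * H) := by
  have h1 : s ^ (2 * H) = s ^ (2 * k) * s ^ (2 * H - 2 * k) := by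
    rw [← pow_add]
    congr 1
    omega
  rw [h1, div_mul_eq_div_div, div_self (by positivity), le_div_iff₀ (by positivity), ← mul_pow]
  refine pow_le_one₀ (by positivity) ?_
  rw [le_div_iff₀ hx] at hsx
  linarith

theorem sum_cos (r : ℕ) (hr : 2 ≤ r) :
    ∑ b ∈ range r, Real.cos (2 * (Real.pi * b / r)) = 0 := by
  have hr0 : (r : ℂ) ≠ 0 := by exact_mod_cast (by omega : r ≠ 0)
  have h1 := (Complex.isPrimitiveRoot_exp r (by omega)).geom_sum_eq_zero (by omega)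
  have h2 := congrArg Complex.re h1
  rw [Complex.re_sum, Complex.zero_re] at h2
  rw [← h2]
  refine Finset.sum_congr rfl (fun b _ => ?_)
  rw [← Complex.exp_nat_mul]
  have h3 : (b : ℂ) * (2 * (Real.pi : ℂ) * Complex.I / (r : ℂ)) =
      ((2 * (Real.pi * b / r) : ℝ) : ℂ) * Complex.I := by
    push_cast
    ring
  rw [h3, Complex.exp_ofReal_mul_I_re]

theorem sum_sq (r : ℕ) (hr : 2 ≤ r) :
    ∑ b ∈ Ico 1 r, Real.sin (Real.pi * b / r) ^ 2 = (r : ℝ) / 2 := by
  have h1 : ∑ b ∈ range r, Real.sin (Real.pi * b / r) ^ 2 =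
      ∑ b ∈ Ico 1 r, Real.sin (Real.pi * b / r) ^ 2 := by
    rw [Finset.range_eq_Ico, Finset.sum_eq_sum_Ico_succ_bot (by omega)]
    simp
  rw [← h1]
  have h2 : ∀ b ∈ range r, Real.sin (Real.pi * b / r) ^ 2 =
      1 / 2 - 1 / 2 * Real.cos (2 * (Real.pi * b / r)) := by
    intro b _
    rw [Real.cos_two_mul, Real.cos_sq']
    ring
  rw [Finset.sum_congr rfl h2, Finset.sum_sub_distrib, ← Finset.mul_sum, sum_cos r hr]
  simp
  ring

theorem main : H572AE.S_lb2 := by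
  intro k G H hk1 hkG hkH
  have hpi := Real.pi_pos
  refine ⟨min ((1 / Real.pi) ^ (2 * G + 2 * H - 2 * k)) ((1 / Real.pi) ^ (2 * G) * (1 / 2)),
    lt_min (by positivity) (by positivity), fun r hr => ?_⟩
  have hr2 : (2 : ℝ) ≤ r := by exact_mod_cast hr
  have hr0 : (0 : ℝ) < r := by linarith
  set x : ℝ := r / Real.pi with hx
  have hx0 : 0 < x := by positivity
  have hs1 : 0 < Real.sin (Real.pi * (1 : ℕ) / r) := sin_pos' 1 r le_rfl (by omega)
  have hsx : Real.sin (Real.pi * (1 : ℕ) / r) ≤ 1 / x := by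
    have h1 : Real.pi * (1 : ℕ) / r = 1 / x := by
      rw [hx, Nat.cast_one, mul_one, one_div_div]
    rw [h1]
    exact Real.sin_le (by positivity)
  -- the inner sum
  have hin : ∀ b ∈ Ico 1 r,
      0 ≤ Real.sin (Real.pi * b / r) ^ (2 * k) / Real.sin (Real.pi * b / r) ^ (2 * H) := by
    intro b _
    exact div_nonneg ((even_two_mul k).pow_nonneg _) ((even_two_mul H).pow_nonneg _)
  have hS1 : k ≤ H → x ^ (2 * H - 2 * k) ≤ ∑ b ∈ Ico 1 r,
      Real.sin (Real.pi * b / r) ^ (2 * k) / Real.sin (Real.pi * b / r) ^ (2 * H) := by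
    intro hkH'
    refine le_trans ?_ (Finset.single_le_sum hin (Finset.mem_Ico.2 ⟨le_rfl, by omega⟩ : 1 ∈ Ico 1 r))
    exact term_ge_pow _ x hs1 hx0 hsx k H hkH'
  have hS2 : (r : ℝ) / 2 ≤ ∑ b ∈ Ico 1 r,
      Real.sin (Real.pi * b / r) ^ (2 * k) / Real.sin (Real.pi * b / r) ^ (2 * H) := by
    rw [← sum_sq r hr]
    refine Finset.sum_le_sum (fun b hb => ?_)
    rw [Finset.mem_Ico] at hb
    exact term_ge_sq _ (sin_pos' b r hb.1 hb.2) (Real.sin_le_one _) k H hkH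
  -- the double sum
  have hT : x ^ (2 * G) * ∑ b ∈ Ico 1 r,
      Real.sin (Real.pi * b / r) ^ (2 * k) / Real.sin (Real.pi * b / r) ^ (2 * H) ≤
        TT (2 * k) (2 * G) (2 * H) r := by
    unfold TT
    have hnn : ∀ a ∈ Ico 1 r, 0 ≤ ∑ b ∈ Ico 1 r, Real.sin (Real.pi * a * b / r) ^ (2 * k) /
        (Real.sin (Real.pi * a / r) ^ (2 * G) * Real.sin (Real.pi * b / r) ^ (2 * H)) := by
      intro a _
      refine Finset.sum_nonneg (fun b _ => ?_)
      exact div_nonneg ((even_two_mul k).pow_nonneg _)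
        (mul_nonneg ((even_two_mul G).pow_nonneg _) ((even_two_mul H).pow_nonneg _))
    refine le_trans ?_ (Finset.single_le_sum hnn
      (Finset.mem_Ico.2 ⟨le_rfl, by omega⟩ : 1 ∈ Ico 1 r))
    rw [Finset.mul_sum]
    refine Finset.sum_le_sum (fun b hb => ?_)
    have h3 : Real.pi * ((1 : ℕ) : ℝ) * b / r = Real.pi * b / r := by
      rw [Nat.cast_one, mul_one]
    rw [h3, mul_comm (Real.sin (Real.pi * ((1 : ℕ) : ℝ) / r) ^ (2 * G)), ← div_div,
      mul_comm (x ^ (2 * G)), div_eq_mul_one_div (Real.sin (Real.pi * b / r) ^ (2 * k) /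
        Real.sin (Real.pi * b / r) ^ (2 * H)) (Real.sin (Real.pi * ((1 : ℕ) : ℝ) / r) ^ (2 * G))]
    refine mul_le_mul_of_nonneg_left ?_ (hin b hb)
    rw [le_div_iff₀ (by positivity), ← mul_pow]
    refine pow_le_one₀ (by positivity) ?_
    rw [le_div_iff₀ hx0] at hsx
    linarith
  have hxg : 0 ≤ x ^ (2 * G) := by positivity
  have hA : min ((1 / Real.pi) ^ (2 * G + 2 * H - 2 * k)) ((1 / Real.pi) ^ (2 * G) * (1 / 2)) *
      (r : ℝ) ^ (2 * G + 1) ≤ TT (2 * k) (2 * G) (2 * H) r := by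
    calc min ((1 / Real.pi) ^ (2 * G + 2 * H - 2 * k)) ((1 / Real.pi) ^ (2 * G) * (1 / 2)) *
          (r : ℝ) ^ (2 * G + 1)
        ≤ ((1 / Real.pi) ^ (2 * G) * (1 / 2)) * (r : ℝ) ^ (2 * G + 1) :=
          mul_le_mul_of_nonneg_right (min_le_right _ _) (by positivity)
      _ = x ^ (2 * G) * (r / 2) := by
          have h4 : x ^ (2 * G) = (1 / Real.pi) ^ (2 * G) * (r : ℝ) ^ (2 * G) := by
            rw [← mul_pow, hx]
            congr 1
            ring
          rw [h4, pow_succ]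
          ring
      _ ≤ _ := (mul_le_mul_of_nonneg_left hS2 hxg).trans hT
  refine ⟨hA, ?_⟩
  by_cases hkH' : k ≤ H
  · calc min ((1 / Real.pi) ^ (2 * G + 2 * H - 2 * k)) ((1 / Real.pi) ^ (2 * G) * (1 / 2)) *
          (r : ℝ) ^ (2 * G + 2 * H - 2 * k)
        ≤ (1 / Real.pi) ^ (2 * G + 2 * H - 2 * k) * (r : ℝ) ^ (2 * G + 2 * H - 2 * k) :=
          mul_le_mul_of_nonneg_right (min_le_left _ _) (by positivity)
      _ = x ^ (2 * G) * x ^ (2 * H - 2 * k) := by
          rw [← mul_pow, ← pow_add, hx]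
          congr 1
          · ring
          · omega
      _ ≤ _ := (mul_le_mul_of_nonneg_left (hS1 hkH') hxg).trans hT
  · refine le_trans ?_ hA
    refine mul_le_mul_of_nonneg_left ?_ (le_min (by positivity) (by positivity))
    exact pow_le_pow_right₀ (by linarith) (by omega)

end H572AE.LB2
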