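import Mathlib
import Pool.Agent.H572.AE.Stm2

/-!
# AE MULP (helper336, for helper572): expansions, powers of `r` and polynomials
-/

set_option autoImplicit false

open Finset Polynomial

namespace H572AE.MULP

theorem main : S_mulp := by
  intro h τ Z hZ hh
  obtain ⟨m, c, d, b, a, hE⟩ := hZ
  refine ⟨m, c, fun j => d j + τ, b, a, ?_⟩
  intro L
  obtain ⟨C, k₀, hk⟩ := hE L
  refine ⟨C, k₀, ?_⟩
  intro k hkk
  beta_reduce
  have h1 := hk k hkk
  have hr : (0 : ℝ) < ((k + h : ℕ) : ℝ) := by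
    have : 0 < k + h := by omega
    exact_mod_cast this
  have hsup : univ.sup' univ_nonempty (fun j => d j + τ) = univ.sup' univ_nonempty d + τ := by
    have h2 := Finset.apply_sup'_eq_sup'_comp (s := (univ : Finset (Fin (m + 1)))) univ_nonempty
      (f := d) (fun x : ℝ => x + τ) (fun x y => (max_add_add_right x y τ).symm)
    exact h2.symm
  obtain ⟨r, hrdef⟩ : ∃ r : ℝ, r = ((k + h : ℕ) : ℝ) := ⟨_, rfl⟩
  rw [← hrdef] at h1 hr ⊢
  rw [hsup]
  have e1 : ((r ^ τ : ℝ) : ℂ) * Z k - ∑ j, Complex.exp (2 * Real.pi * Complex.I *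
      ((k + h : ℕ) * (c j : ℂ))) * ((r ^ (d j + τ) : ℝ) : ℂ) * b j *
        (1 + ∑ l ∈ Icc 1 L, a j l * ((r ^ (-(l : ℝ) / 2) : ℝ) : ℂ)) =
      ((r ^ τ : ℝ) : ℂ) * (Z k - ∑ j, Complex.exp (2 * Real.pi * Complex.I *
      ((k + h : ℕ) * (c j : ℂ))) * ((r ^ (d j) : ℝ) : ℂ) * b j *
        (1 + ∑ l ∈ Icc 1 L, a j l * ((r ^ (-(l : ℝ) / 2) : ℝ) : ℂ))) := by
    rw [mul_sub, Finset.mul_sum]
    refine congrArg _ (Finset.sum_congr rfl fun j _ => ?_)
    rw [Real.rpow_add hr]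
    push_cast
    ring
  rw [e1, norm_mul, Complex.norm_real, Real.norm_of_nonneg (Real.rpow_nonneg hr.le _)]
  have e2 : r ^ (univ.sup' univ_nonempty d + τ - ((L : ℝ) + 1) / 2) =
      r ^ τ * r ^ (univ.sup' univ_nonempty d - ((L : ℝ) + 1) / 2) := by
    rw [← Real.rpow_add hr]
    congr 1
    ring
  rw [e2]
  calc r ^ τ * _ ≤ r ^ τ * (C * r ^ (univ.sup' univ_nonempty d - ((L : ℝ) + 1) / 2)) :=
        mul_le_mul_of_nonneg_left h1 (Real.rpow_nonneg hr.le _)
    _ = _ := by ring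

/-- the coefficients -/
noncomputable def A (P : ℝ[X]) (l : ℕ) : ℝ :=
  if l % 2 = 0 ∧ l ≤ 2 * P.natDegree then P.coeff (P.natDegree - l / 2) else 0

theorem eval_eq (P : ℝ[X]) (r : ℝ) (hr : 0 < r) (L : ℕ) :
    P.eval r = ∑ l ∈ range (2 * P.natDegree + 1 + L),
      A P l * (r ^ (P.natDegree : ℝ) * r ^ (-(l : ℝ) / 2)) := by
  rw [Polynomial.eval_eq_sum_range, ← Finset.sum_range_reflect]
  refine Finset.sum_of_injOn (fun i => 2 * i) ?_ ?_ ?_ ?_
  · intro i _ j _ hij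
    simp only at hij
    omega
  · intro i hi
    rw [Finset.mem_coe, Finset.mem_range] at hi ⊢
    simp only
    omega
  · intro l _ hl
    have : A P l = 0 := by
      unfold A
      rw [if_neg]
      rintro ⟨h1, h2⟩
      apply hl
      refine ⟨l / 2, ?_, ?_⟩
      · rw [Finset.mem_coe, Finset.mem_range]
        omega
      · simp only
        omega
    rw [this, zero_mul]
  · intro i hi
    rw [Finset.mem_range] at hi
    have h1 : A P (2 * i) = P.coeff (P.natDegree + 1 - 1 - i) := by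
      unfold A
      rw [if_pos ⟨by omega, by omega⟩]
      congr 1
      omega
    rw [h1]
    congr 1
    rw [← Real.rpow_natCast, ← Real.rpow_add hr]
    congr 1
    have h2 : P.natDegree + 1 - 1 - i = P.natDegree - i := by omega
    rw [h2, Nat.cast_sub (by omega)]
    push_cast
    ring

theorem main2 : S_pos2 := by
  intro P
  by_cases hP : P = 0
  · refine ⟨0, fun _ => 0, fun _ => 0, fun _ => 0, fun _ _ => 0, fun L => ⟨0, 0, ?_⟩⟩
    intro k _
    rw [hP]
    simp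
  have hlc : P.leadingCoeff ≠ 0 := leadingCoeff_ne_zero.2 hP
  refine ⟨0, fun _ => 0, fun _ => (P.natDegree : ℝ), fun _ => ((P.leadingCoeff : ℝ) : ℂ),
    fun _ l => ((A P l / P.leadingCoeff : ℝ) : ℂ), fun L => ?_⟩
  refine ⟨∑ l ∈ Ico (L + 1) (2 * P.natDegree + 1 + L), |A P l|, 0, ?_⟩
  intro k _
  beta_reduce
  obtain ⟨r, hrdef⟩ : ∃ r : ℝ, r = ((k + 2 : ℕ) : ℝ) := ⟨_, rfl⟩
  have hr1 : (1 : ℝ) ≤ r := by
    rw [hrdef]
    have : 1 ≤ k + 2 := by omega
    exact_mod_cast this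
  have hr : 0 < r := by linarith
  rw [← hrdef]
  have hsup : univ.sup' univ_nonempty (fun _ : Fin (0 + 1) => (P.natDegree : ℝ)) =
      (P.natDegree : ℝ) := Finset.sup'_const _ _
  rw [hsup]
  have hA0 : A P 0 = P.leadingCoeff := by
    unfold A
    rw [if_pos ⟨rfl, Nat.zero_le _⟩]
    rfl
  have e1 : ((P.eval r : ℝ) : ℂ) - ∑ _j : Fin (0 + 1), Complex.exp (2 * Real.pi * Complex.I *
      ((k + 2 : ℕ) * ((0 : ℝ) : ℂ))) * ((r ^ (P.natDegree : ℝ) : ℝ) : ℂ) *
        ((P.leadingCoeff : ℝ) : ℂ) *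
        (1 + ∑ l ∈ Icc 1 L, ((A P l / P.leadingCoeff : ℝ) : ℂ) *
          ((r ^ (-(l : ℝ) / 2) : ℝ) : ℂ)) =
      ((∑ l ∈ Ico (L + 1) (2 * P.natDegree + 1 + L),
        A P l * (r ^ (P.natDegree : ℝ) * r ^ (-(l : ℝ) / 2)) : ℝ) : ℂ) := by
    have e2 : P.eval r - r ^ (P.natDegree : ℝ) * P.leadingCoeff *
        (1 + ∑ l ∈ Icc 1 L, (A P l / P.leadingCoeff) * r ^ (-(l : ℝ) / 2)) =
        ∑ l ∈ Ico (L + 1) (2 * P.natDegree + 1 + L),
          A P l * (r ^ (P.natDegree : ℝ) * r ^ (-(l : ℝ) / 2)) := by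
      have e3 : r ^ (P.natDegree : ℝ) * P.leadingCoeff *
          (1 + ∑ l ∈ Icc 1 L, (A P l / P.leadingCoeff) * r ^ (-(l : ℝ) / 2)) =
          ∑ l ∈ range (L + 1), A P l * (r ^ (P.natDegree : ℝ) * r ^ (-(l : ℝ) / 2)) := by
        rw [Finset.range_eq_Ico, Finset.sum_eq_sum_Ico_succ_bot (Nat.succ_pos L), hA0,
          mul_add, mul_one, Finset.mul_sum]
        have e4 : Ico (0 + 1) (L + 1) = Icc 1 L := by
          ext l
          simp only [Finset.mem_Ico, Finset.mem_Icc]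
          omega
        rw [e4]
        congr 1
        · simp
          ring
        · refine Finset.sum_congr rfl fun l _ => ?_
          field_simp
      rw [e3, eval_eq P r hr L, Finset.range_eq_Ico, Finset.range_eq_Ico,
        ← Finset.sum_Ico_consecutive _ (Nat.zero_le (L + 1))
          (by omega : L + 1 ≤ 2 * P.natDegree + 1 + L), add_sub_cancel_left]
    rw [← e2]
    simp only [Nat.reduceAdd, Finset.univ_unique, Finset.sum_singleton, Complex.ofReal_zero,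
      mul_zero, Complex.exp_zero, one_mul]
    push_cast
    ring
  rw [e1, Complex.norm_real, Real.norm_eq_abs, Finset.sum_mul]
  refine (Finset.abs_sum_le_sum_abs _ _).trans (Finset.sum_le_sum fun l hl => ?_)
  rw [abs_mul]
  refine mul_le_mul_of_nonneg_left ?_ (abs_nonneg _)
  rw [← Real.rpow_add hr, abs_of_nonneg (Real.rpow_nonneg hr.le _)]
  refine Real.rpow_le_rpow_of_exponent_le hr1 ?_
  have h5 : ((L : ℝ) + 1) ≤ l := by
    have := (Finset.mem_Ico.1 hl).1
    exact_mod_cast this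
  linarith

end H572AE.MULP
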