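import Mathlib
import Pool.Agent.H572.AE.Stm2
import Pool.Graph.R_seed8.W719.AEC.NoExp

/-!
# NE2: a logarithm excludes an expansion, with a sign term
-/

set_option autoImplicit false

open Finset Polynomial Filter Topology

namespace H572AE.NE2

/-- upper bound for a polynomial -/
theorem poly_le (P : ℝ[X]) : ∃ C : ℝ, 0 ≤ C ∧ ∀ n : ℕ, 1 ≤ n →
    |P.eval (n : ℝ)| ≤ C * (n : ℝ) ^ P.natDegree := by
  refine ⟨∑ k ∈ range (P.natDegree + 1), |P.coeff k|, Finset.sum_nonneg fun _ _ => abs_nonneg _,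
    fun n hn => ?_⟩
  have hn' : (1 : ℝ) ≤ n := by exact_mod_cast hn
  rw [Polynomial.eval_eq_sum_range, Finset.sum_mul]
  refine (Finset.abs_sum_le_sum_abs _ _).trans (Finset.sum_le_sum fun k hk => ?_)
  rw [abs_mul, abs_pow, abs_of_nonneg (by linarith : (0 : ℝ) ≤ n)]
  refine mul_le_mul_of_nonneg_left ?_ (abs_nonneg _)
  exact pow_le_pow_right₀ hn' (by have := Finset.mem_range.1 hk; omega)

/-- lower bound for a polynomial of positive degree -/
theorem poly_ge (P : ℝ[X]) (hP : 1 ≤ P.natDegree) : ∃ c : ℝ, 0 < c ∧ ∀ᶠ n : ℕ in atTop,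
    c * (n : ℝ) ^ P.natDegree ≤ |P.eval (n : ℝ)| := by
  have hP0 : P ≠ 0 := by
    rintro rfl
    simp at hP
  have hl : 0 < |P.leadingCoeff| := abs_pos.2 (leadingCoeff_ne_zero.2 hP0)
  obtain ⟨C, hC, hQ⟩ := poly_le P.eraseLead
  refine ⟨|P.leadingCoeff| / 2, by positivity, ?_⟩
  obtain ⟨N, hN⟩ := exists_nat_ge (2 * C / |P.leadingCoeff|)
  filter_upwards [eventually_ge_atTop (N + 1)] with n hn
  have hn1 : (1 : ℝ) ≤ n := by
    have : 1 ≤ n := by omega
    exact_mod_cast this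
  have hnN : (N : ℝ) ≤ n := by
    have : N ≤ n := by omega
    exact_mod_cast this
  have h1 : P.eval (n : ℝ) = P.eraseLead.eval (n : ℝ) + P.leadingCoeff * (n : ℝ) ^ P.natDegree := by
    have h2 := congrArg (fun p : ℝ[X] => p.eval (n : ℝ)) (eraseLead_add_C_mul_X_pow P)
    simp only [eval_add, eval_mul, eval_C, eval_pow, eval_X] at h2
    exact h2.symm
  have h2 : |P.eraseLead.eval (n : ℝ)| ≤ |P.leadingCoeff| / 2 * (n : ℝ) ^ P.natDegree := by
    have h3 := hQ n (by omega)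
    have h4 : (n : ℝ) ^ P.eraseLead.natDegree ≤ (n : ℝ) ^ (P.natDegree - 1) :=
      pow_le_pow_right₀ hn1 (eraseLead_natDegree_le P)
    have h5 : (n : ℝ) ^ P.natDegree = (n : ℝ) ^ (P.natDegree - 1) * n := by
      rw [← pow_succ]
      congr 1
      omega
    have h6 : C ≤ |P.leadingCoeff| / 2 * n := by
      have h7 : 2 * C ≤ (n : ℝ) * |P.leadingCoeff| := by
        have := hN.trans hnN
        rwa [div_le_iff₀ hl] at this
      linarith
    calc |P.eraseLead.eval (n : ℝ)| ≤ C * (n : ℝ) ^ (P.natDegree - 1) :=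
          h3.trans (mul_le_mul_of_nonneg_left h4 hC)
      _ ≤ (|P.leadingCoeff| / 2 * n) * (n : ℝ) ^ (P.natDegree - 1) :=
          mul_le_mul_of_nonneg_right h6 (by positivity)
      _ = _ := by rw [h5]; ring
  have h3 : |P.leadingCoeff * (n : ℝ) ^ P.natDegree| = |P.leadingCoeff| * (n : ℝ) ^ P.natDegree := by
    rw [abs_mul, abs_of_nonneg (by positivity : (0 : ℝ) ≤ (n : ℝ) ^ P.natDegree)]
  have h4 : |P.leadingCoeff * (n : ℝ) ^ P.natDegree| - |P.eraseLead.eval (n : ℝ)| ≤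
      |P.eval (n : ℝ)| := by
    rw [h1]
    have := abs_sub_abs_le_abs_sub (P.leadingCoeff * (n : ℝ) ^ P.natDegree)
      (-(P.eraseLead.eval (n : ℝ)))
    rw [abs_neg, sub_neg_eq_add, add_comm (P.leadingCoeff * _)] at this
    exact this
  rw [h3] at h4
  linarith

theorem log_small (A δ : ℝ) (hδ : 0 < δ) : ∀ᶠ n : ℕ in atTop, A * (1 + Real.log n) ≤ δ * n := by
  have h1 := (H524R3.log_bound_little_o 0 1 one_pos).const_mul |A|
  rw [mul_zero] at h1
  filter_upwards [h1.eventually (gt_mem_nhds hδ), eventually_ge_atTop 1] with n hn hn1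
  have hn' : (0 : ℝ) < n := by exact_mod_cast hn1
  rw [Real.rpow_zero, Real.rpow_one, one_mul, ← mul_div_assoc, div_lt_iff₀ hn'] at hn
  have hl : 0 ≤ 1 + Real.log n := by
    have := Real.log_nonneg (show (1 : ℝ) ≤ n by exact_mod_cast hn1)
    linarith
  exact (mul_le_mul_of_nonneg_right (le_abs_self A) hl).trans hn.le

theorem log_large (A c : ℝ) (hc : 0 < c) : ∀ᶠ n : ℕ in atTop, A < c * Real.log n := by
  have h1 : Tendsto (fun n : ℕ => Real.log (n : ℝ)) atTop atTop :=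
    Real.tendsto_log_atTop.comp tendsto_natCast_atTop_atTop
  filter_upwards [h1.eventually (eventually_gt_atTop (A / c))] with n hn
  rw [div_lt_iff₀ hc] at hn
  linarith

theorem real_part (u R : ℕ → ℝ) (K B : ℝ) (q : ℕ) (hK : K ≠ 0)
    (hu : ∀ n : ℕ, 2 ≤ n → |u n - (R n + K * (n : ℝ) ^ q * Real.log n)| ≤
      B * (n : ℝ) ^ q) (CP : ℝ) (hCP : 0 ≤ CP) (p : ℕ) (hP : ∀ n : ℕ, 1 ≤ n → |R n| ≤ CP * (n : ℝ) ^ p)
    (hlo : q < p → ∃ c : ℝ, 0 < c ∧ ∃ᶠ n : ℕ in atTop, c * (n : ℝ) ^ p ≤ |R n|) :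
    ∃ (s : ℕ) (C : ℝ), 0 ≤ C ∧
      (∀ᶠ n : ℕ in atTop, |u n ^ 2 - R n ^ 2| ≤ C * ((n : ℝ) ^ s * (1 + Real.log n) ^ 2)) ∧
      (∀ A : ℝ, ∃ᶠ n : ℕ in atTop, A * (n : ℝ) ^ s < |u n ^ 2 - R n ^ 2|) ∧
      ∀ᶠ n : ℕ in atTop, |u n| ≤ C * ((n : ℝ) ^ s * (1 + Real.log n)) := by
  have hKp : 0 < |K| := abs_pos.2 hK
  have hB : 0 ≤ B := by
    have h := (abs_nonneg _).trans (hu 2 le_rfl)
    have h2 : (0 : ℝ) < ((2 : ℕ) : ℝ) ^ q := by positivity
    exact nonneg_of_mul_nonneg_left h h2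
  obtain ⟨M, hM⟩ : ∃ M, M = max p q := ⟨_, rfl⟩
  have hpM : p ≤ M := by rw [hM]; exact le_max_left _ _
  have hqM : q ≤ M := by rw [hM]; exact le_max_right _ _
  -- bounds for the difference
  have ha : ∀ n : ℕ, 2 ≤ n → |u n - R n| ≤ (|K| + B) * ((n : ℝ) ^ q * (1 + Real.log n)) ∧
      (|K| * Real.log n - B) * (n : ℝ) ^ q ≤ |u n - R n| := by
    intro n hn
    have hn1 : (1 : ℝ) ≤ n := by
      have : 1 ≤ n := by omega
      exact_mod_cast this
    have hl := Real.log_nonneg hn1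
    have h1 := hu n hn
    have h2 : |K * (n : ℝ) ^ q * Real.log n| = |K| * (n : ℝ) ^ q * Real.log n := by
      rw [abs_mul, abs_mul, abs_of_nonneg hl, abs_of_nonneg (by positivity : (0 : ℝ) ≤ (n : ℝ) ^ q)]
    have hq0 : 0 ≤ (n : ℝ) ^ q := by positivity
    obtain ⟨x, hx⟩ : ∃ x, x = u n - R n := ⟨_, rfl⟩
    have h3 : u n - (R n + K * (n : ℝ) ^ q * Real.log n) =
      x - K * (n : ℝ) ^ q * Real.log n := by rw [hx]; ring
    rw [h3] at h1
    rw [← hx]
    constructor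
    · have h4 : |x| ≤ |x - K * (n : ℝ) ^ q * Real.log n| + |K * (n : ℝ) ^ q * Real.log n| := by
        have := abs_add_le (x - K * (n : ℝ) ^ q * Real.log n) (K * (n : ℝ) ^ q * Real.log n)
        rwa [sub_add_cancel] at this
      rw [h2] at h4
      nlinarith [mul_nonneg hB hq0, mul_nonneg (mul_nonneg hB hq0) hl, mul_nonneg hKp.le hq0]
    · have h4 := abs_sub_abs_le_abs_sub (K * (n : ℝ) ^ q * Real.log n) x
      rw [h2, abs_sub_comm] at h4
      nlinarith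
  -- lower bound for the sum
  have hlow : ∃ c0 : ℝ, 0 < c0 ∧ ∃ᶠ n : ℕ in atTop, c0 * (n : ℝ) ^ M ≤ |u n + R n| := by
    rcases le_or_gt p q with hpq | hpq
    · have hMq : M = q := by rw [hM]; exact max_eq_right hpq
      refine ⟨1, one_pos, Filter.Eventually.frequently ?_⟩
      filter_upwards [log_large (B + 2 * CP + 1) |K| hKp, eventually_ge_atTop 2] with n h1 hn
      have hn1 : (1 : ℝ) ≤ n := by
        have : 1 ≤ n := by omega
        exact_mod_cast this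
      have h2 := (ha n hn).2
      have h3 := hP n (by omega)
      have h4 : (n : ℝ) ^ p ≤ (n : ℝ) ^ q := pow_le_pow_right₀ hn1 hpq
      have h5 : |u n - R n| ≤ |u n + R n| + 2 * |R n| := by
        have h6 := abs_sub (u n + R n) (2 * R n)
        have h7 : u n + R n - 2 * R n = u n - R n := by ring
        rw [h7, abs_mul, abs_of_pos (by norm_num : (0 : ℝ) < 2)] at h6
        exact h6
      have h8 : CP * (n : ℝ) ^ p ≤ CP * (n : ℝ) ^ q := mul_le_mul_of_nonneg_left h4 hCP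
      have hq0 : 0 < (n : ℝ) ^ q := by positivity
      rw [hMq]
      nlinarith
    · have hMp : M = p := by rw [hM]; exact max_eq_left hpq.le
      obtain ⟨c, hc, hge⟩ := hlo hpq
      refine ⟨c, hc, (hge.and_eventually ((log_small (|K| + B) c hc).and (eventually_ge_atTop 2))).mono ?_⟩
      rintro n ⟨h1, h2, hn⟩
      have hn1 : (1 : ℝ) ≤ n := by
        have : 1 ≤ n := by omega
        exact_mod_cast this
      have h3 := (ha n hn).1
      have h5 : 2 * |R n| ≤ |u n + R n| + |u n - R n| := by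
        have h6 := abs_sub (u n + R n) (u n - R n)
        have h7 : u n + R n - (u n - R n) = 2 * R n := by ring
        rw [h7, abs_mul, abs_of_pos (by norm_num : (0 : ℝ) < 2)] at h6
        exact h6
      have h4 : (n : ℝ) ^ p = (n : ℝ) ^ (p - 1) * n := by
        rw [← pow_succ]
        congr 1
        omega
      have h6 : (n : ℝ) ^ q ≤ (n : ℝ) ^ (p - 1) := pow_le_pow_right₀ hn1 (by omega)
      have hl : 0 ≤ 1 + Real.log n := by
        have := Real.log_nonneg hn1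
        linarith
      have h7 : (|K| + B) * ((n : ℝ) ^ q * (1 + Real.log n)) ≤ c * (n : ℝ) ^ p := by
        calc (|K| + B) * ((n : ℝ) ^ q * (1 + Real.log n)) =
              (n : ℝ) ^ q * ((|K| + B) * (1 + Real.log n)) := by ring
          _ ≤ (n : ℝ) ^ (p - 1) * ((|K| + B) * (1 + Real.log n)) :=
              mul_le_mul_of_nonneg_right h6 (by positivity)
          _ ≤ (n : ℝ) ^ (p - 1) * (c * n) := mul_le_mul_of_nonneg_left h2 (by positivity)
          _ = c * (n : ℝ) ^ p := by rw [h4]; ring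
      rw [hMp]
      linarith
  obtain ⟨c0, hc0, hlow⟩ := hlow
  -- upper bounds
  have hup : ∀ n : ℕ, 2 ≤ n → |u n + R n| ≤
      (|K| + B + 2 * CP) * ((n : ℝ) ^ M * (1 + Real.log n)) ∧
      |u n| ≤ (|K| + B + 2 * CP) * ((n : ℝ) ^ M * (1 + Real.log n)) := by
    intro n hn
    have hn1 : (1 : ℝ) ≤ n := by
      have : 1 ≤ n := by omega
      exact_mod_cast this
    have hl := Real.log_nonneg hn1
    have h1 := (ha n hn).1
    have h2 := hP n (by omega)
    have h3 : (n : ℝ) ^ p ≤ (n : ℝ) ^ M := pow_le_pow_right₀ hn1 hpM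
    have h4 : (n : ℝ) ^ q ≤ (n : ℝ) ^ M := pow_le_pow_right₀ hn1 hqM
    have h5 : (|K| + B) * ((n : ℝ) ^ q * (1 + Real.log n)) ≤
        (|K| + B) * ((n : ℝ) ^ M * (1 + Real.log n)) := by
      apply mul_le_mul_of_nonneg_left _ (by positivity)
      exact mul_le_mul_of_nonneg_right h4 (by linarith)
    have h6 : CP * (n : ℝ) ^ p ≤ CP * ((n : ℝ) ^ M * (1 + Real.log n)) := by
      apply mul_le_mul_of_nonneg_left _ hCP
      have : 0 ≤ (n : ℝ) ^ M := by positivity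
      nlinarith
    have h7 : 0 ≤ CP * ((n : ℝ) ^ M * (1 + Real.log n)) := by
      have : 0 ≤ 1 + Real.log n := by linarith
      positivity
    constructor
    · have h8 := abs_add_le (u n - R n) (2 * R n)
      have h9 : u n - R n + 2 * R n = u n + R n := by ring
      rw [h9, abs_mul, abs_of_pos (by norm_num : (0 : ℝ) < 2)] at h8
      linarith
    · have h8 := abs_add_le (u n - R n) (R n)
      rw [sub_add_cancel] at h8
      linarith
  have hfac : ∀ n : ℕ, |u n ^ 2 - R n ^ 2| =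
      |u n - R n| * |u n + R n| := by
    intro n
    rw [← abs_mul]
    congr 1
    ring
  refine ⟨q + M, (|K| + B) * (|K| + B + 2 * CP) + (|K| + B + 2 * CP), by positivity, ?_, ?_, ?_⟩
  · filter_upwards [eventually_ge_atTop 2] with n hn
    have hn1 : (1 : ℝ) ≤ n := by
      have : 1 ≤ n := by omega
      exact_mod_cast this
    have hl := Real.log_nonneg hn1
    have hl' : 0 ≤ 1 + Real.log n := by linarith
    rw [hfac]
    calc |u n - R n| * |u n + R n| ≤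
          ((|K| + B) * ((n : ℝ) ^ q * (1 + Real.log n))) *
            ((|K| + B + 2 * CP) * ((n : ℝ) ^ M * (1 + Real.log n))) :=
          mul_le_mul (ha n hn).1 (hup n hn).1 (abs_nonneg _) (by positivity)
      _ = ((|K| + B) * (|K| + B + 2 * CP)) * ((n : ℝ) ^ (q + M) * (1 + Real.log n) ^ 2) := by
          rw [pow_add]; ring
      _ ≤ _ := by
          apply mul_le_mul_of_nonneg_right _ (by positivity)
          linarith [(by positivity : 0 ≤ |K| + B + 2 * CP)]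
  · intro A
    refine (hlow.and_eventually ((log_large (B + |A| / c0) |K| hKp).and (eventually_ge_atTop 2))).mono ?_
    rintro n ⟨h1, h2, hn⟩
    have hn1 : (1 : ℝ) ≤ n := by
      have : 1 ≤ n := by omega
      exact_mod_cast this
    rw [hfac]
    have hq0 : 0 < (n : ℝ) ^ q := by positivity
    have hM0 : 0 < (n : ℝ) ^ M := by positivity
    have h3 : |A| / c0 * (n : ℝ) ^ q < |u n - R n| := by
      refine lt_of_lt_of_le ?_ (ha n hn).2
      apply mul_lt_mul_of_pos_right _ hq0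
      linarith
    calc A * (n : ℝ) ^ (q + M) ≤ |A| * (n : ℝ) ^ (q + M) :=
          mul_le_mul_of_nonneg_right (le_abs_self A) (by positivity)
      _ = (|A| / c0 * (n : ℝ) ^ q) * (c0 * (n : ℝ) ^ M) := by
          rw [pow_add]; field_simp
      _ < |u n - R n| * (c0 * (n : ℝ) ^ M) := mul_lt_mul_of_pos_right h3 (by positivity)
      _ ≤ _ := mul_le_mul_of_nonneg_left h1 (abs_nonneg _)
  · filter_upwards [eventually_ge_atTop 2] with n hn
    have hn1 : (1 : ℝ) ≤ n := by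
      have : 1 ≤ n := by omega
      exact_mod_cast this
    have hl := Real.log_nonneg hn1
    have hl' : 0 ≤ 1 + Real.log n := by linarith
    have h3 : (n : ℝ) ^ M ≤ (n : ℝ) ^ (q + M) := pow_le_pow_right₀ hn1 (by omega)
    refine (hup n hn).2.trans ?_
    have h4 : (|K| + B + 2 * CP) * ((n : ℝ) ^ M * (1 + Real.log n)) ≤
        (|K| + B + 2 * CP) * ((n : ℝ) ^ (q + M) * (1 + Real.log n)) := by
      apply mul_le_mul_of_nonneg_left _ (by positivity)
      exact mul_le_mul_of_nonneg_right h3 hl'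
    refine h4.trans ?_
    apply mul_le_mul_of_nonneg_right _ (by positivity)
    linarith [(by positivity : 0 ≤ (|K| + B) * (|K| + B + 2 * CP))]

/-- the polynomials on the parity classes -/
theorem two_poly (P Q : ℝ[X]) (q : ℕ) : ∃ (CP : ℝ) (p : ℕ), 0 ≤ CP ∧
    (∀ n : ℕ, 1 ≤ n → |P.eval (n : ℝ) + (-1) ^ n * Q.eval (n : ℝ)| ≤ CP * (n : ℝ) ^ p) ∧
    (q < p → ∃ c : ℝ, 0 < c ∧ ∃ᶠ n : ℕ in atTop,
      c * (n : ℝ) ^ p ≤ |P.eval (n : ℝ) + (-1) ^ n * Q.eval (n : ℝ)|) := by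
  obtain ⟨C0, hC0, h0⟩ := poly_le (P + Q)
  obtain ⟨C1, hC1, h1⟩ := poly_le (P - Q)
  have e0 : ∀ n : ℕ, Even n → P.eval (n : ℝ) + (-1) ^ n * Q.eval (n : ℝ) = (P + Q).eval (n : ℝ) := by
    intro n hn
    rw [hn.neg_one_pow, eval_add]
    ring
  have e1 : ∀ n : ℕ, Odd n → P.eval (n : ℝ) + (-1) ^ n * Q.eval (n : ℝ) = (P - Q).eval (n : ℝ) := by
    intro n hn
    rw [hn.neg_one_pow, eval_sub]
    ring
  refine ⟨C0 + C1, max (P + Q).natDegree (P - Q).natDegree, by positivity, ?_, ?_⟩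
  · intro n hn
    have hn' : (1 : ℝ) ≤ n := by exact_mod_cast hn
    rcases Nat.even_or_odd n with hp | hp
    · rw [e0 n hp]
      calc _ ≤ C0 * (n : ℝ) ^ (P + Q).natDegree := h0 n hn
        _ ≤ (C0 + C1) * (n : ℝ) ^ (max (P + Q).natDegree (P - Q).natDegree) :=
          mul_le_mul (by linarith) (pow_le_pow_right₀ hn' (le_max_left _ _)) (by positivity) (by positivity)
    · rw [e1 n hp]
      calc _ ≤ C1 * (n : ℝ) ^ (P - Q).natDegree := h1 n hn
        _ ≤ (C0 + C1) * (n : ℝ) ^ (max (P + Q).natDegree (P - Q).natDegree) :=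
          mul_le_mul (by linarith) (pow_le_pow_right₀ hn' (le_max_right _ _)) (by positivity) (by positivity)
  · intro hq
    rcases le_total (P - Q).natDegree (P + Q).natDegree with h | h
    · rw [max_eq_left h] at hq ⊢
      obtain ⟨c, hc, hge⟩ := poly_ge (P + Q) (by omega)
      refine ⟨c, hc, (Nat.frequently_even.and_eventually hge).mono ?_⟩
      rintro n ⟨k1, k2⟩
      rw [e0 n k1]
      exact k2
    · rw [max_eq_right h] at hq ⊢
      obtain ⟨c, hc, hge⟩ := poly_ge (P - Q) (by omega)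
      refine ⟨c, hc, (Nat.frequently_odd.and_eventually hge).mono ?_⟩
      rintro n ⟨k1, k2⟩
      rw [e1 n k1]
      exact k2

theorem main : S_ne2 := by
  intro u P Q K B q hK hu ω hω
  obtain ⟨R, hR⟩ : ∃ R : ℕ → ℝ, R = fun n : ℕ => P.eval (n : ℝ) + (-1) ^ n * Q.eval (n : ℝ) := ⟨_, rfl⟩
  obtain ⟨s, C, hC, h1, h2, h3⟩ : ∃ (s : ℕ) (C : ℝ), 0 ≤ C ∧
      (∀ᶠ n : ℕ in atTop, |u n ^ 2 - R n ^ 2| ≤ C * ((n : ℝ) ^ s * (1 + Real.log n) ^ 2)) ∧
      (∀ A : ℝ, ∃ᶠ n : ℕ in atTop, A * (n : ℝ) ^ s < |u n ^ 2 - R n ^ 2|) ∧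
      ∀ᶠ n : ℕ in atTop, |u n| ≤ C * ((n : ℝ) ^ s * (1 + Real.log n)) := by
    obtain ⟨CP, p, hCP, k1, k2⟩ := two_poly P Q q
    refine real_part u R K B q hK ?_ CP hCP p ?_ ?_
    · intro n hn
      rw [hR]
      exact hu n hn
    · intro n hn
      rw [hR]
      exact k1 n hn
    · intro hq
      rw [hR]
      exact k2 hq
  rintro ⟨m, c, d, b, a, hexp⟩
  set D : ℝ := univ.sup' univ_nonempty d with hD
  -- choose L
  obtain ⟨L, hL⟩ : ∃ L : ℕ, D - ((L : ℝ) + 1) / 2 ≤ -1 := by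
    obtain ⟨L, hL⟩ := exists_nat_ge (2 * (D + 1))
    exact ⟨L, by linarith⟩
  obtain ⟨C₁, k₀, hC₁⟩ := hexp L
  let ι := Fin (m + 1) × ℕ
  let β : ι → ℂ := fun i => b i.1 * (if i.2 = 0 then 1 else a i.1 i.2)
  let z : ι → ℂ := fun i => Complex.exp (2 * Real.pi * Complex.I * (c i.1 : ℂ))
  let e : ι → ℝ := fun i => d i.1 - (i.2 : ℝ) / 2
  have hz : ∀ i, ‖z i‖ = 1 := by
    intro i
    change ‖Complex.exp (2 * Real.pi * Complex.I * (c i.1 : ℂ))‖ = 1
    rw [show 2 * (Real.pi : ℂ) * Complex.I * (c i.1 : ℂ) = ((2 * Real.pi * c i.1 : ℝ) : ℂ) * Complex.I by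
      push_cast; ring]
    exact Complex.norm_exp_ofReal_mul_I _
  let T0 : Finset ι := (univ : Finset (Fin (m + 1))) ×ˢ range (L + 1)
  let S : ℕ → ℂ := fun n => ∑ i ∈ T0, β i * (((n : ℝ) ^ e i : ℝ) : ℂ) * z i ^ n
  let w : ℕ → ℂ := fun n => ω (n - 2) * ((u n : ℝ) : ℂ)
  have hwn : ∀ n, ‖w n‖ = |u n| := by
    intro n
    change ‖ω (n - 2) * ((u n : ℝ) : ℂ)‖ = _
    rw [norm_mul, hω, one_mul, Complex.norm_real, Real.norm_eq_abs]
  have hwS : ∀ᶠ n : ℕ in atTop, ‖w n - S n‖ ≤ |C₁| * ((n : ℝ))⁻¹ := by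
    filter_upwards [eventually_ge_atTop (k₀ + 2 + 1)] with n hn
    have h1 := hC₁ (n - 2) (by omega)
    have hnh : n - 2 + 2 = n := by omega
    simp only [hnh] at h1
    have hn' : (1 : ℝ) ≤ n := by
      have : 1 ≤ n := by omega
      exact_mod_cast this
    have hsum : S n =
        ∑ j, Complex.exp (2 * Real.pi * Complex.I * (n * (c j : ℂ))) *
          (((n : ℝ) ^ d j : ℝ) : ℂ) * b j *
            (1 + ∑ l ∈ Icc 1 L, a j l * (((n : ℝ) ^ (-(l : ℝ) / 2) : ℝ) : ℂ)) := by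
      change ∑ i ∈ T0, β i * (((n : ℝ) ^ e i : ℝ) : ℂ) * z i ^ n = _
      rw [Finset.sum_product]
      refine Finset.sum_congr rfl fun j _ => ?_
      have hzn : Complex.exp (2 * Real.pi * Complex.I * (n * (c j : ℂ))) =
          Complex.exp (2 * Real.pi * Complex.I * (c j : ℂ)) ^ n := by
        rw [← Complex.exp_nat_mul]; congr 1; ring
      have hr1 : range (L + 1) = insert 0 (Icc 1 L) := by
        ext x; simp only [mem_range, mem_insert, mem_Icc]; omega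
      rw [hr1, Finset.sum_insert (by simp), hzn, mul_add, mul_one, Finset.mul_sum]
      congr 1
      · simp only [β, e, z]
        simp
        ring
      · refine Finset.sum_congr rfl fun l hl => ?_
        have hl0 : l ≠ 0 := by rw [mem_Icc] at hl; omega
        simp only [β, e, z, if_neg hl0]
        have hp : (n : ℝ) ^ (d j - (l : ℝ) / 2) = (n : ℝ) ^ d j * (n : ℝ) ^ (-(l : ℝ) / 2) := by
          rw [← Real.rpow_add (by linarith)]; congr 1; ring
        rw [hp]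
        push_cast
        ring
    rw [hsum]
    refine h1.trans ?_
    calc C₁ * (n : ℝ) ^ (D - ((L : ℝ) + 1) / 2) ≤ |C₁| * (n : ℝ) ^ (D - ((L : ℝ) + 1) / 2) :=
          mul_le_mul_of_nonneg_right (le_abs_self _) (Real.rpow_nonneg (by linarith) _)
      _ ≤ |C₁| * (n : ℝ) ^ (-1 : ℝ) :=
          mul_le_mul_of_nonneg_left (Real.rpow_le_rpow_of_exponent_le hn' hL) (abs_nonneg _)
      _ = _ := by rw [Real.rpow_neg_one]
  have hconj : ∀ (n : ℕ) (x y : ℂ) (r : ℝ), (starRingEnd ℂ) (x * (r : ℂ) * y ^ n) =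
      (starRingEnd ℂ) x * (r : ℂ) * (starRingEnd ℂ) y ^ n := by
    intro n x y r
    rw [map_mul, map_mul, map_pow, Complex.conj_ofReal]
  -- the combined sum
  let Q1 : ℝ[X] := P ^ 2 + Q ^ 2
  let Q2 : ℝ[X] := Polynomial.C (2 : ℝ) * (P * Q)
  have hRQ : ∀ n : ℕ, R n ^ 2 = Q1.eval (n : ℝ) + (-1) ^ n * Q2.eval (n : ℝ) := by
    intro n
    have hs : ((-1 : ℝ) ^ n) ^ 2 = 1 := by
      rw [← pow_mul, mul_comm, pow_mul, neg_one_sq, one_pow]
    rw [hR]
    simp only [Q1, Q2, eval_add, eval_mul, eval_pow, eval_C]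
    linear_combination (Q.eval (n : ℝ)) ^ 2 * hs
  let β' : (ι × ι) ⊕ (ℕ ⊕ ℕ) → ℂ := Sum.elim (fun i => β i.1 * (starRingEnd ℂ) (β i.2))
    (Sum.elim (fun k => -((Q1.coeff k : ℝ) : ℂ)) (fun k => -((Q2.coeff k : ℝ) : ℂ)))
  let z' : (ι × ι) ⊕ (ℕ ⊕ ℕ) → ℂ := Sum.elim (fun i => z i.1 * (starRingEnd ℂ) (z i.2))
    (Sum.elim (fun _ => 1) (fun _ => -1))
  let e' : (ι × ι) ⊕ (ℕ ⊕ ℕ) → ℝ := Sum.elim (fun i => e i.1 + e i.2)
    (Sum.elim (fun k => (k : ℝ)) (fun k => (k : ℝ)))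
  let T : Finset ((ι × ι) ⊕ (ℕ ⊕ ℕ)) := (T0 ×ˢ T0).disjSum
    ((range (Q1.natDegree + 1)).disjSum (range (Q2.natDegree + 1)))
  have hz' : ∀ i, ‖z' i‖ = 1 := by
    rintro (i | k | k)
    · change ‖z i.1 * (starRingEnd ℂ) (z i.2)‖ = 1
      rw [norm_mul, hz, RCLike.norm_conj, hz, one_mul]
    · change ‖(1 : ℂ)‖ = 1
      exact norm_one
    · change ‖(-1 : ℂ)‖ = 1
      rw [norm_neg]
      exact norm_one
  have hT : ∀ n : ℕ, 1 ≤ n → ∑ i ∈ T, β' i * (((n : ℝ) ^ e' i : ℝ) : ℂ) * z' i ^ n =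
      S n * (starRingEnd ℂ) (S n) - ((R n ^ 2 : ℝ) : ℂ) := by
    intro n hn
    have hn' : (0 : ℝ) < n := by exact_mod_cast hn
    rw [Finset.sum_disjSum, sub_eq_add_neg]
    congr 1
    · rw [Finset.sum_product]
      change _ = (∑ i ∈ T0, β i * (((n : ℝ) ^ e i : ℝ) : ℂ) * z i ^ n) *
        (starRingEnd ℂ) (∑ i ∈ T0, β i * (((n : ℝ) ^ e i : ℝ) : ℂ) * z i ^ n)
      rw [map_sum, Finset.sum_mul]
      refine Finset.sum_congr rfl fun i _ => ?_
      rw [Finset.mul_sum]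
      refine Finset.sum_congr rfl fun j _ => ?_
      change β i * (starRingEnd ℂ) (β j) * (((n : ℝ) ^ (e i + e j) : ℝ) : ℂ) *
        (z i * (starRingEnd ℂ) (z j)) ^ n = _
      rw [Real.rpow_add hn', hconj, mul_pow, Complex.ofReal_mul]
      ring
    · rw [hRQ n, Polynomial.eval_eq_sum_range (p := Q1), Polynomial.eval_eq_sum_range (p := Q2),
        Finset.sum_disjSum, Complex.ofReal_add, neg_add]
      congr 1
      · rw [Complex.ofReal_sum, ← Finset.sum_neg_distrib]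
        refine Finset.sum_congr rfl fun k _ => ?_
        change -((Q1.coeff k : ℝ) : ℂ) * (((n : ℝ) ^ ((k : ℝ)) : ℝ) : ℂ) * 1 ^ n = _
        rw [Real.rpow_natCast, one_pow]
        push_cast
        ring
      · rw [Complex.ofReal_mul, Complex.ofReal_sum, Finset.mul_sum, ← Finset.sum_neg_distrib]
        refine Finset.sum_congr rfl fun k _ => ?_
        change -((Q2.coeff k : ℝ) : ℂ) * (((n : ℝ) ^ ((k : ℝ)) : ℝ) : ℂ) * (-1) ^ n = _
        rw [Real.rpow_natCast]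
        push_cast
        ring
  let F : ℕ → ℂ := fun n => ((u n ^ 2 - R n ^ 2 : ℝ) : ℂ)
  have hFn : ∀ n, ‖F n‖ = |u n ^ 2 - R n ^ 2| := by
    intro n
    change ‖((u n ^ 2 - R n ^ 2 : ℝ) : ℂ)‖ = _
    rw [Complex.norm_real, Real.norm_eq_abs]
  have key := W719AEC.bounded_of_expansion (s : ℝ) F C 2 (by
      filter_upwards [h1] with n hn
      rw [hFn, Real.rpow_natCast]
      exact hn) β' z' e' hz' _ T le_rfl ⟨3 * |C₁| * (C + |C₁| + 1), ?_⟩
  · obtain ⟨C'', hC''⟩ := key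
    obtain ⟨n, hn1, hn2⟩ := ((h2 C'').and_eventually hC'').exists
    rw [hFn, Real.rpow_natCast] at hn2
    linarith
  · filter_upwards [hwS, h3, log_small 1 1 one_pos, eventually_ge_atTop 1] with n g1 g2 g3 hn
    have hn' : (1 : ℝ) ≤ n := by exact_mod_cast hn
    have hn0 : (0 : ℝ) < n := by linarith
    rw [hT n hn, Real.rpow_natCast]
    have e1 : F n - (S n * (starRingEnd ℂ) (S n) - ((R n ^ 2 : ℝ) : ℂ)) =
        ((‖w n‖ ^ 2 - ‖S n‖ ^ 2 : ℝ) : ℂ) := by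
      change ((u n ^ 2 - R n ^ 2 : ℝ) : ℂ) - _ = _
      rw [Complex.mul_conj, Complex.normSq_eq_norm_sq, hwn, sq_abs]
      push_cast
      ring
    rw [e1, Complex.norm_real, Real.norm_eq_abs]
    obtain ⟨E, hE⟩ : ∃ E, E = ‖w n - S n‖ := ⟨_, rfl⟩
    rw [← hE] at g1
    have hE0 : 0 ≤ E := by rw [hE]; exact norm_nonneg _
    have e2 : |‖w n‖ - ‖S n‖| ≤ E := by rw [hE]; exact abs_norm_sub_norm_le _ _
    have e3 : ‖S n‖ ≤ ‖w n‖ + E := by
      have := (abs_le.1 e2).1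
      linarith
    have e4 : |‖w n‖ ^ 2 - ‖S n‖ ^ 2| ≤ E * (2 * ‖w n‖ + E) := by
      rw [show ‖w n‖ ^ 2 - ‖S n‖ ^ 2 = (‖w n‖ - ‖S n‖) * (‖w n‖ + ‖S n‖) by ring, abs_mul]
      refine mul_le_mul e2 ?_ (abs_nonneg _) hE0
      rw [abs_of_nonneg (by positivity)]
      linarith
    have hl : 0 ≤ 1 + Real.log n := by
      have := Real.log_nonneg hn'
      linarith
    have hns : (1 : ℝ) ≤ (n : ℝ) ^ s := one_le_pow₀ hn'
    have hi : (n : ℝ)⁻¹ ≤ 1 := inv_le_one_of_one_le₀ hn'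
    have hi0 : 0 < (n : ℝ)⁻¹ := by positivity
    have e5 : E * ‖w n‖ ≤ |C₁| * C * (n : ℝ) ^ s := by
      rw [hwn]
      calc E * |u n| ≤ (|C₁| * (n : ℝ)⁻¹) * (C * ((n : ℝ) ^ s * (1 + Real.log n))) :=
            mul_le_mul g1 g2 (abs_nonneg _) (by positivity)
        _ = |C₁| * C * (n : ℝ) ^ s * ((n : ℝ)⁻¹ * (1 + Real.log n)) := by ring
        _ ≤ |C₁| * C * (n : ℝ) ^ s * 1 := by
            apply mul_le_mul_of_nonneg_left _ (by positivity)
            rw [inv_mul_le_iff₀ hn0]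
            linarith
        _ = _ := by ring
    have e6 : E ≤ |C₁| := g1.trans (mul_le_of_le_one_right (abs_nonneg _) hi)
    have e7 : E * E ≤ |C₁| * |C₁| * (n : ℝ) ^ s := by
      calc E * E ≤ |C₁| * |C₁| := mul_le_mul e6 e6 hE0 (abs_nonneg _)
        _ ≤ |C₁| * |C₁| * (n : ℝ) ^ s := le_mul_of_one_le_right (by positivity) hns
    have hs0 : 0 ≤ (n : ℝ) ^ s := by positivity
    have e8 : 0 ≤ |C₁| * C * (n : ℝ) ^ s := by positivity
    have e9 : 0 ≤ |C₁| * |C₁| * (n : ℝ) ^ s := by positivity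
    have e10 : 0 ≤ |C₁| * (n : ℝ) ^ s := by positivity
    calc |‖w n‖ ^ 2 - ‖S n‖ ^ 2| ≤ E * (2 * ‖w n‖ + E) := e4
      _ = 2 * (E * ‖w n‖) + E * E := by ring
      _ ≤ 2 * (|C₁| * C * (n : ℝ) ^ s) + |C₁| * |C₁| * (n : ℝ) ^ s := by linarith
      _ ≤ 3 * (|C₁| * C * (n : ℝ) ^ s) + 3 * (|C₁| * |C₁| * (n : ℝ) ^ s) +
          3 * (|C₁| * (n : ℝ) ^ s) := by linarith
      _ = _ := by ring

end H572AE.NE2
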