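import Mathlib
import Pool.Agent.H572.AE.Stm2

/-!
# POS1: powers of the quantum dimension factor have asymptotic expansions
-/

set_option autoImplicit false

open Finset Filter Topology

namespace H572AE.POS1

/-- the analytic function `(sin (π x) / (π x)) ^ n` -/
noncomputable def FF (n : ℤ) (x : ℝ) : ℝ := Real.sinc (Real.pi * x) ^ n

theorem analytic_sinc : AnalyticAt ℝ Real.sinc 0 := by
  obtain ⟨p, hp⟩ := (Real.analyticAt_sin (x := 0))
  rw [Real.sinc_eq_dslope]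
  exact ⟨p.fslope, hp.has_fpower_series_dslope_fslope⟩

theorem analytic_FF (n : ℤ) : AnalyticAt ℝ (FF n) 0 := by
  have h1 : AnalyticAt ℝ (fun x : ℝ => Real.sinc (Real.pi * x)) 0 := by
    refine AnalyticAt.fun_comp (g := Real.sinc) (f := fun x : ℝ => Real.pi * x) ?_ ?_
    · rw [mul_zero]
      exact analytic_sinc
    · fun_prop
  refine AnalyticAt.fun_zpow h1 ?_
  rw [mul_zero, Real.sinc_zero]
  exact one_ne_zero

theorem FF_zero (n : ℤ) : FF n 0 = 1 := by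
  unfold FF
  rw [mul_zero, Real.sinc_zero, one_zpow]

/-- the value in terms of `FF` -/
theorem val (n : ℤ) {r : ℝ} (hr : 0 < r) :
    (Real.sqrt (2 / r) * Real.sin (Real.pi / r)) ^ n =
      r ^ (-(3 / 2) * (n : ℝ)) * ((Real.sqrt 2 * Real.pi) ^ n * FF n r⁻¹) := by
  have hpi := Real.pi_pos
  have h1 : Real.sin (Real.pi / r) = Real.pi * r⁻¹ * Real.sinc (Real.pi * r⁻¹) := by
    have h2 : Real.pi * r⁻¹ ≠ 0 := (mul_pos hpi (inv_pos.2 hr)).ne'
    rw [Real.sinc_of_ne_zero h2, mul_div_cancel₀ _ h2, div_eq_mul_inv]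
  have h3 : Real.sqrt (2 / r) = Real.sqrt 2 * r ^ (-(1 / 2) : ℝ) := by
    rw [Real.sqrt_div (by norm_num), Real.sqrt_eq_rpow r, Real.rpow_neg hr.le, div_eq_mul_inv]
  have h4 : r ^ (-(3 / 2) * (n : ℝ)) = (r ^ (-(3 / 2) : ℝ)) ^ n := by
    rw [Real.rpow_mul hr.le, Real.rpow_intCast]
  have h5 : r ^ (-(3 / 2) : ℝ) = r ^ (-(1 / 2) : ℝ) * r⁻¹ := by
    rw [← Real.rpow_neg_one r, ← Real.rpow_add hr]
    norm_num
  rw [h1, h3, h4, h5]
  unfold FF
  rw [← mul_zpow, ← mul_zpow]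
  congr 1
  ring

/-- the coefficients -/
noncomputable def cf (p : FormalMultilinearSeries ℝ ℝ ℝ) (l : ℕ) : ℝ :=
  if Even l then p.coeff (l / 2) else 0

theorem sum_cf (p : FormalMultilinearSeries ℝ ℝ ℝ) (hp : p.coeff 0 = 1) {r : ℝ} (hr : 0 < r)
    (L : ℕ) :
    1 + ∑ l ∈ Icc 1 L, cf p l * r ^ (-(l : ℝ) / 2) =
      p.partialSum (L / 2 + 1) r⁻¹ := by
  have hps : ∀ M : ℕ, p.partialSum M r⁻¹ = ∑ j ∈ range M, p.coeff j * (r⁻¹) ^ j := by
    intro M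
    unfold FormalMultilinearSeries.partialSum
    refine Finset.sum_congr rfl fun j _ => ?_
    rw [FormalMultilinearSeries.apply_eq_pow_smul_coeff, smul_eq_mul, mul_comm]
  induction L with
  | zero =>
    rw [hps]
    simp only [Nat.zero_div, zero_add, Finset.sum_range_one, pow_zero, mul_one, hp]
    rw [Finset.Icc_eq_empty (by norm_num), Finset.sum_empty, add_zero]
  | succ L ih =>
    rw [Finset.sum_Icc_succ_top (by omega), ← add_assoc, ih]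
    by_cases h : Even (L + 1)
    · obtain ⟨j, hj⟩ := h
      have h1 : (L + 1) / 2 = j := by omega
      have h2 : L / 2 + 1 = j := by omega
      rw [h1, h2, hps, hps, Finset.sum_range_succ]
      congr 1
      unfold cf
      rw [if_pos ⟨j, hj⟩, h1]
      congr 1
      rw [hj, inv_pow, ← Real.rpow_natCast r j, ← Real.rpow_neg hr.le]
      congr 1
      push_cast
      ring
    · have h1 : (L + 1) / 2 = L / 2 := by
        rw [Nat.not_even_iff_odd] at h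
        obtain ⟨j, hj⟩ := h
        omega
      unfold cf
      rw [if_neg h, zero_mul, add_zero, h1]

theorem main : H572AE.S_pos1 := by
  intro n
  obtain ⟨p, hp⟩ := analytic_FF n
  have hp0 : p.coeff 0 = 1 := (HasFPowerSeriesAt.coeff_zero hp 1).trans (FF_zero n)
  refine ⟨0, fun _ => 0, fun _ => -(3 / 2) * (n : ℝ),
    fun _ => (((Real.sqrt 2 * Real.pi) ^ n : ℝ) : ℂ), fun _ l => ((cf p l : ℝ) : ℂ), fun L => ?_⟩
  have hO := hp.isBigO_sub_partialSum_pow (L / 2 + 1)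
  obtain ⟨C, hC⟩ := hO.bound
  have hlim : Tendsto (fun k : ℕ => (((k + 2 : ℕ) : ℝ))⁻¹) atTop (𝓝 0) := by
    have h1 : Tendsto (fun k : ℕ => ((k + 2 : ℕ) : ℝ)) atTop atTop :=
      tendsto_natCast_atTop_atTop.comp (tendsto_add_atTop_nat 2)
    exact tendsto_inv_atTop_zero.comp h1
  obtain ⟨k₀, hk₀⟩ := eventually_atTop.1 (hlim.eventually hC)
  refine ⟨|(Real.sqrt 2 * Real.pi) ^ n| * C, k₀, fun k hk => ?_⟩
  have hb := hk₀ k hk
  have hr : (0 : ℝ) < ((k + 2 : ℕ) : ℝ) := by positivity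
  have hr1 : (1 : ℝ) ≤ ((k + 2 : ℕ) : ℝ) := by
    push_cast
    have : (0 : ℝ) ≤ k := Nat.cast_nonneg k
    linarith
  beta_reduce
  generalize ((k + 2 : ℕ) : ℝ) = r at hb hr hr1 ⊢
  rw [zero_add] at hb
  rw [Finset.sup'_const]
  have e1 : (((Real.sqrt (2 / r) * Real.sin (Real.pi / r)) ^ n : ℝ) : ℂ) -
      ∑ j : Fin (0 + 1), Complex.exp (2 * Real.pi * Complex.I * ((k + 2 : ℕ) * ((0 : ℝ) : ℂ))) *
          ((r ^ (-(3 / 2) * (n : ℝ)) : ℝ) : ℂ) * (((Real.sqrt 2 * Real.pi) ^ n : ℝ) : ℂ) *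
            (1 + ∑ l ∈ Icc 1 L, ((cf p l : ℝ) : ℂ) * ((r ^ (-(l : ℝ) / 2) : ℝ) : ℂ)) =
      ((r ^ (-(3 / 2) * (n : ℝ)) * ((Real.sqrt 2 * Real.pi) ^ n *
        (FF n r⁻¹ - p.partialSum (L / 2 + 1) r⁻¹)) : ℝ) : ℂ) := by
    rw [Finset.sum_const, Finset.card_univ, Fintype.card_fin, zero_add, one_smul, Complex.ofReal_zero,
      mul_zero, mul_zero, Complex.exp_zero, one_mul, val n hr, ← sum_cf p hp0 hr L]
    push_cast
    ring
  rw [e1, Complex.norm_real, Real.norm_eq_abs, abs_mul, abs_mul,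
    abs_of_pos (Real.rpow_pos_of_pos hr _)]
  have hM : (r⁻¹) ^ (L / 2 + 1) ≤ r ^ (-(((L : ℝ) + 1) / 2)) := by
    rw [inv_pow, ← Real.rpow_natCast r, ← Real.rpow_neg hr.le]
    refine Real.rpow_le_rpow_of_exponent_le hr1 (neg_le_neg ?_)
    have h1 : L + 1 ≤ 2 * (L / 2 + 1) := by omega
    have h2 : ((L + 1 : ℕ) : ℝ) ≤ ((2 * (L / 2 + 1) : ℕ) : ℝ) := by exact_mod_cast h1
    push_cast at h2 ⊢
    linarith
  rw [Real.norm_eq_abs, Real.norm_eq_abs, Real.norm_eq_abs, abs_of_pos (inv_pos.2 hr),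
    abs_of_pos (pow_pos (inv_pos.2 hr) _)] at hb
  have hC0 : 0 ≤ C := by
    by_contra hneg
    push Not at hneg
    have h1 : C * (r⁻¹) ^ (L / 2 + 1) < 0 := mul_neg_of_neg_of_pos hneg (pow_pos (inv_pos.2 hr) _)
    have h2 := abs_nonneg (FF n r⁻¹ - p.partialSum (L / 2 + 1) r⁻¹)
    linarith
  have h6 : |FF n r⁻¹ - p.partialSum (L / 2 + 1) r⁻¹| ≤ C * r ^ (-(((L : ℝ) + 1) / 2)) :=
    hb.trans (mul_le_mul_of_nonneg_left hM hC0)
  have h7 : r ^ (-(3 / 2) * (n : ℝ) - ((L : ℝ) + 1) / 2) =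
      r ^ (-(3 / 2) * (n : ℝ)) * r ^ (-(((L : ℝ) + 1) / 2)) := by
    rw [← Real.rpow_add hr, sub_eq_add_neg]
  rw [h7]
  have h8 : 0 < r ^ (-(3 / 2) * (n : ℝ)) := Real.rpow_pos_of_pos hr _
  calc r ^ (-(3 / 2) * (n : ℝ)) * (|(Real.sqrt 2 * Real.pi) ^ n| *
        |FF n r⁻¹ - p.partialSum (L / 2 + 1) r⁻¹|)
      ≤ r ^ (-(3 / 2) * (n : ℝ)) * (|(Real.sqrt 2 * Real.pi) ^ n| *
        (C * r ^ (-(((L : ℝ) + 1) / 2)))) :=
        mul_le_mul_of_nonneg_left (mul_le_mul_of_nonneg_left h6 (abs_nonneg _)) h8.le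
    _ = |(Real.sqrt 2 * Real.pi) ^ n| * C *
        (r ^ (-(3 / 2) * (n : ℝ)) * r ^ (-(((L : ℝ) + 1) / 2))) := by ring

end H572AE.POS1
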