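import Mathlib
import Pool.Agent.H572.AE.Stm2

/-!
# Project AE, piece RED1: the state sum of the graph with two vertices and one edge, one vertex of genus 0
-/

set_option autoImplicit false

namespace H572AE.RED1

open Finset H572AE W719AEC

theorem labels_eq (r : ℕ) : labels 2 r = (Ico 1 r).image (fun x => ![0, x]) := by
  ext a
  unfold labels
  rw [mem_filter, Fintype.mem_piFinset, mem_image]
  constructor
  · rintro ⟨h1, h2, h3⟩
    have h0 := h3 0 rfl
    have h01 := h2 0 1 (by decide)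
    refine ⟨a 1, ?_, ?_⟩
    · rw [mem_Ico]
      exact ⟨by omega, mem_range.1 (h1 1)⟩
    · funext i
      fin_cases i
      · exact h0.symm
      · rfl
  · rintro ⟨x, hx, rfl⟩
    rw [mem_Ico] at hx
    refine ⟨?_, ?_, ?_⟩
    · intro i
      fin_cases i
      · show 0 ∈ range r
        rw [mem_range]; omega
      · show x ∈ range r
        rw [mem_range]; omega
    · intro i j hij
      fin_cases i <;> fin_cases j
      · exact absurd hij (by decide)
      · show 0 < x
        omega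
      · exact absurd hij (by decide)
      · exact absurd hij (by decide)
    · intro i hi
      fin_cases i
      · rfl
      · exact absurd hi (by decide)

theorem sum_labels (r : ℕ) (F : (Fin 2 → ℕ) → ℂ) :
    ∑ a ∈ labels 2 r, F a = ∑ x ∈ Ico 1 r, F ![0, x] := by
  rw [labels_eq, sum_image]
  intro x _ y _ hxy
  exact congrFun hxy 1

theorem sum_two (L : Finset (Fin 2 → ℕ)) (G : (Fin 2 → (Fin 2 → ℕ)) → ℂ) :
    ∑ x ∈ Fintype.piFinset (fun _ : Fin 2 => L), G x = ∑ a ∈ L, ∑ b ∈ L, G ![a, b] := by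
  rw [← sum_product']
  refine sum_nbij' (fun x => (x 0, x 1)) (fun p => ![p.1, p.2]) ?_ ?_ ?_ ?_ ?_
  · intro x hx
    rw [Fintype.mem_piFinset] at hx
    exact mem_product.2 ⟨hx 0, hx 1⟩
  · intro p hp
    rw [mem_product] at hp
    rw [Fintype.mem_piFinset]
    intro i
    fin_cases i
    · exact hp.1
    · exact hp.2
  · intro x _
    funext i
    fin_cases i <;> rfl
  · intro p _
    rfl
  · intro x _
    refine congrArg G ?_
    funext i
    fin_cases i <;> rfl

/-- the real number -/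
noncomputable def Sr (r x y : ℕ) : ℝ :=
  Real.sqrt 2 / Real.sqrt r * Real.sin (Real.pi * x * y / r)

theorem Smat_eq (r x y : ℕ) (hr : 2 ≤ r) : Smat 2 r ![0, x] ![0, y] = ((Sr r x y : ℝ) : ℂ) := by
  have hr0 : (r : ℂ) ≠ 0 := by
    have : r ≠ 0 := by omega
    exact_mod_cast this
  set z : ℂ := Real.pi * x * y / r with hz
  have h1 : Complex.exp (2 * Real.pi * Complex.I * ((x : ℂ) * (y : ℂ) / (2 * r))) =
      Complex.exp (z * Complex.I) := by
    congr 1
    rw [hz]
    field_simp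
  have h2 : Complex.exp (-(2 * Real.pi * Complex.I * ((x : ℂ) * (y : ℂ) / r))) =
      Complex.exp (-z * Complex.I) * Complex.exp (-z * Complex.I) := by
    rw [← Complex.exp_add]
    congr 1
    rw [hz]
    ring
  have h3 : Complex.exp (z * Complex.I) * Complex.exp (-z * Complex.I) = 1 := by
    rw [← Complex.exp_add]
    rw [show z * Complex.I + -z * Complex.I = 0 by ring, Complex.exp_zero]
  have h4 : Smat 2 r ![0, x] ![0, y] = Complex.I / ((Real.sqrt 2 * Real.sqrt r : ℝ) : ℂ) *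
      Complex.exp (2 * Real.pi * Complex.I * ((x : ℂ) * (y : ℂ) / (2 * r))) *
      (Complex.exp (-(2 * Real.pi * Complex.I * ((x : ℂ) * (y : ℂ) / r))) - 1) := by
    unfold Smat
    rw [Matrix.det_fin_two]
    simp
  have hs : Complex.sin z = ((Real.sin (Real.pi * x * y / r) : ℝ) : ℂ) := by
    rw [hz]
    push_cast
    rfl
  have hs2 : ((Real.sqrt 2 : ℝ) : ℂ) * ((Real.sqrt 2 : ℝ) : ℂ) = 2 := by
    rw [← Complex.ofReal_mul, Real.mul_self_sqrt (by norm_num)]
    norm_num
  have hs0 : ((Real.sqrt 2 : ℝ) : ℂ) ≠ 0 := by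
    intro h
    rw [h, mul_zero] at hs2
    norm_num at hs2
  have hsr : ((Real.sqrt r : ℝ) : ℂ) ≠ 0 := by
    rw [Complex.ofReal_ne_zero]
    have : (0 : ℝ) < r := by
      have : 0 < r := by omega
      exact_mod_cast this
    exact (Real.sqrt_pos.2 this).ne'
  have key : Complex.I * Complex.exp (z * Complex.I) *
      (Complex.exp (-z * Complex.I) * Complex.exp (-z * Complex.I) - 1) = 2 * Complex.sin z := by
    rw [Complex.sin]
    linear_combination (Complex.I * Complex.exp (-z * Complex.I)) * h3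
  rw [h4, h1, h2]
  unfold Sr
  rw [Complex.ofReal_mul, Complex.ofReal_mul (Real.sqrt 2 / Real.sqrt r), Complex.ofReal_div, ← hs]
  rw [div_mul_eq_mul_div, div_mul_eq_mul_div, key, div_mul_eq_mul_div, div_eq_div_iff
    (mul_ne_zero hs0 hsr) hsr]
  linear_combination (-(Complex.sin z * ((Real.sqrt r : ℝ) : ℂ))) * hs2


theorem tel (θ : ℝ) (n : ℕ) (hn : 1 ≤ n) :
    ∑ y ∈ Ico 1 n, 2 * Real.sin (θ / 2) * Real.cos (y * θ) =
      Real.sin (n * θ - θ / 2) - Real.sin (θ / 2) := by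
  induction n, hn using Nat.le_induction with
  | base =>
    have : ((1 : ℕ) : ℝ) * θ - θ / 2 = θ / 2 := by
      push_cast
      ring
    rw [Ico_self, sum_empty, this, sub_self]
  | succ n hn ih =>
    have h1 : ((n + 1 : ℕ) : ℝ) * θ - θ / 2 = n * θ + θ / 2 := by
      push_cast
      ring
    rw [sum_Ico_succ_top hn, ih, h1, Real.sin_add, Real.sin_sub]
    ring

theorem cosum (r m : ℕ) (hm : 0 < m) (hmr : m < 2 * r) :
    ∑ y ∈ Ico 1 r, Real.cos (y * (Real.pi * m / r)) = -((-1) ^ m + 1) / 2 := by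
  have hr : 0 < r := by omega
  have hr0 : (0 : ℝ) < r := by exact_mod_cast hr
  have hm0 : (0 : ℝ) < m := by exact_mod_cast hm
  have hmr0 : (m : ℝ) < 2 * r := by exact_mod_cast hmr
  have h := tel (Real.pi * m / r) r hr
  rw [← mul_sum] at h
  have h1 : (r : ℝ) * (Real.pi * m / r) = m * Real.pi := by
    field_simp
  rw [h1, Real.sin_sub, Real.sin_nat_mul_pi, Real.cos_nat_mul_pi] at h
  have hpos : 0 < Real.sin (Real.pi * m / r / 2) := by
    apply Real.sin_pos_of_pos_of_lt_pi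
    · positivity
    · rw [div_div, div_lt_iff₀ (by positivity)]
      have := Real.pi_pos
      nlinarith
  have h2 : Real.sin (Real.pi * m / r / 2) *
      (2 * (∑ y ∈ Ico 1 r, Real.cos (y * (Real.pi * m / r)) - -((-1) ^ m + 1) / 2)) = 0 := by
    linear_combination h
  rcases mul_eq_zero.1 h2 with h3 | h3
  · exact absurd h3 hpos.ne'
  · linarith

theorem orth (r x : ℕ) (hx : x ∈ Ico 1 r) :
    ∑ y ∈ Ico 1 r, Sr r 1 y * Sr r x y = if x = 1 then 1 else 0 := by
  rw [mem_Ico] at hx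
  have hr : 0 < r := by omega
  have hr0 : (0 : ℝ) < r := by exact_mod_cast hr
  have h1 : ∀ y ∈ Ico 1 r, Sr r 1 y * Sr r x y =
      1 / r * (Real.cos (y * (Real.pi * (x - 1 : ℕ) / r)) - Real.cos (y * (Real.pi * (x + 1 : ℕ) / r))) := by
    intro y _
    unfold Sr
    have e1 : (y : ℝ) * (Real.pi * (x - 1 : ℕ) / r) = Real.pi * x * y / r - Real.pi * (1 : ℕ) * y / r := by
      rw [Nat.cast_sub hx.1]
      push_cast
      ring
    have e2 : (y : ℝ) * (Real.pi * (x + 1 : ℕ) / r) = Real.pi * x * y / r + Real.pi * (1 : ℕ) * y / r := by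
      push_cast
      ring
    rw [e1, e2, Real.cos_sub, Real.cos_add]
    have e3 : (Real.sqrt 2 / Real.sqrt r) * (Real.sqrt 2 / Real.sqrt r) = 2 / r := by
      rw [div_mul_div_comm, Real.mul_self_sqrt (by norm_num), Real.mul_self_sqrt hr0.le]
    calc Real.sqrt 2 / Real.sqrt r * Real.sin (Real.pi * (1 : ℕ) * y / r) *
          (Real.sqrt 2 / Real.sqrt r * Real.sin (Real.pi * x * y / r))
        = ((Real.sqrt 2 / Real.sqrt r) * (Real.sqrt 2 / Real.sqrt r)) *
          (Real.sin (Real.pi * (1 : ℕ) * y / r) * Real.sin (Real.pi * x * y / r)) := by ring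
      _ = _ := by
        rw [e3]
        ring
  rw [sum_congr rfl h1, ← mul_sum, sum_sub_distrib, cosum r (x + 1) (by omega) (by omega)]
  by_cases hx1 : x = 1
  · subst hx1
    rw [if_pos rfl]
    have e1 : ∑ y ∈ Ico 1 r, Real.cos (y * (Real.pi * (1 - 1 : ℕ) / r)) = r - 1 := by
      have : ∀ y ∈ Ico 1 r, Real.cos (y * (Real.pi * (1 - 1 : ℕ) / r)) = 1 := by
        intro y _
        simp
      rw [sum_congr rfl this, sum_const, Nat.card_Ico, nsmul_eq_mul, mul_one, Nat.cast_sub hr]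
      push_cast
      rfl
    rw [e1]
    field_simp
    norm_num
    ring
  · rw [if_neg hx1, cosum r (x - 1) (by omega) (by omega)]
    have : (-1 : ℝ) ^ (x + 1) = (-1) ^ (x - 1) := by
      have : x + 1 = x - 1 + 2 := by omega
      rw [this, pow_add]
      norm_num
    rw [this, sub_self, mul_zero]

theorem Sr_comm (r x y : ℕ) : Sr r x y = Sr r y x := by
  unfold Sr
  have : Real.pi * x * y / r = Real.pi * y * x / r := by ring
  rw [this]

theorem Sr_one (r : ℕ) : Sr r 1 1 = Real.sqrt (2 / (r : ℝ)) * Real.sin (Real.pi / r) := by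
  unfold Sr
  rw [Real.sqrt_div (by norm_num)]
  simp

theorem state (g h : ℕ) (σ : Fin 1 → Bool) (r : ℕ) (hr : 2 ≤ r) :
    (twoGraph g h σ).Z 2 r = ∑ x ∈ Ico 1 r, ∑ y ∈ Ico 1 r,
      ((Sr r 1 x ^ (1 - 2 * (g : ℤ)) * Sr r 1 y ^ (1 - 2 * (h : ℤ)) * Sr r x y : ℝ) : ℂ) := by
  unfold PlumbingGraph.Z
  rw [sum_two, sum_labels]
  refine sum_congr rfl fun x hx => ?_
  rw [sum_labels]
  refine sum_congr rfl fun y hy => ?_
  have hd0 : (twoGraph g h σ).degree 0 = 1 := by
    have : (univ.filter fun _ : Fin 1 => (0 : Fin 2) = 0).card +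
      (univ.filter fun _ : Fin 1 => (1 : Fin 2) = 0).card = 1 := by decide
    exact this
  have hd1 : (twoGraph g h σ).degree 1 = 1 := by
    have : (univ.filter fun _ : Fin 1 => (0 : Fin 2) = 1).card +
      (univ.filter fun _ : Fin 1 => (1 : Fin 2) = 1).card = 1 := by decide
    exact this
  have ht : triv 2 = ![0, 1] := by
    funext i
    fin_cases i <;> rfl
  rw [Fin.prod_univ_two, Fin.prod_univ_one, hd0, hd1, ht]
  have e0 : (twoGraph g h σ).euler 0 = 0 := rfl
  have e1 : (twoGraph g h σ).euler 1 = 0 := rfl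
  have g0 : (twoGraph g h σ).genus 0 = g := rfl
  have g1 : (twoGraph g h σ).genus 1 = h := rfl
  have s0 : (twoGraph g h σ).src 0 = 0 := rfl
  have t0 : (twoGraph g h σ).tgt 0 = 1 := rfl
  rw [e0, e1, g0, g1, s0, t0]
  have v0 : (![![0, x], ![0, y]] : Fin 2 → Fin 2 → ℕ) 0 = ![0, x] := rfl
  have v1 : (![![0, x], ![0, y]] : Fin 2 → Fin 2 → ℕ) 1 = ![0, y] := rfl
  rw [v0, v1, zpow_zero, zpow_zero, one_mul, one_mul, Smat_eq r 1 x hr, Smat_eq r 1 y hr,
    Smat_eq r x y hr, Complex.conj_ofReal, ite_self]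
  have k1 : (2 - 2 * (g : ℤ) - ((1 : ℕ) : ℤ)) = 1 - 2 * (g : ℤ) := by push_cast; ring
  have k2 : (2 - 2 * (h : ℤ) - ((1 : ℕ) : ℤ)) = 1 - 2 * (h : ℤ) := by push_cast; ring
  rw [k1, k2]
  push_cast
  rfl

theorem main : S_red1 := by
  intro g σ r hr
  have h1r : 1 ∈ Ico 1 r := by
    rw [mem_Ico]
    omega
  constructor
  · rw [state g 0 σ r hr]
    have e : ∀ x ∈ Ico 1 r, (∑ y ∈ Ico 1 r,
        ((Sr r 1 x ^ (1 - 2 * (g : ℤ)) * Sr r 1 y ^ (1 - 2 * ((0 : ℕ) : ℤ)) * Sr r x y : ℝ) : ℂ)) =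
        ((Sr r 1 x ^ (1 - 2 * (g : ℤ)) * (if x = 1 then 1 else 0) : ℝ) : ℂ) := by
      intro x hx
      rw [← Complex.ofReal_sum, ← orth r x hx, mul_sum]
      refine congrArg _ (sum_congr rfl fun y _ => ?_)
      have : (1 - 2 * ((0 : ℕ) : ℤ)) = 1 := by norm_num
      rw [this, zpow_one, mul_assoc]
    rw [sum_congr rfl e, sum_eq_single_of_mem 1 h1r (by
      intro x _ hx
      rw [if_neg hx, mul_zero, Complex.ofReal_zero]), if_pos rfl, mul_one, Sr_one]
  · rw [state 0 g σ r hr, sum_comm]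
    have e : ∀ y ∈ Ico 1 r, (∑ x ∈ Ico 1 r,
        ((Sr r 1 x ^ (1 - 2 * ((0 : ℕ) : ℤ)) * Sr r 1 y ^ (1 - 2 * (g : ℤ)) * Sr r x y : ℝ) : ℂ)) =
        ((Sr r 1 y ^ (1 - 2 * (g : ℤ)) * (if y = 1 then 1 else 0) : ℝ) : ℂ) := by
      intro y hy
      rw [← Complex.ofReal_sum, ← orth r y hy, mul_sum]
      refine congrArg _ (sum_congr rfl fun x _ => ?_)
      have : (1 - 2 * ((0 : ℕ) : ℤ)) = 1 := by norm_num
      rw [this, zpow_one, Sr_comm r x y]
      ring
    rw [sum_congr rfl e, sum_eq_single_of_mem 1 h1r (by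
      intro x _ hx
      rw [if_neg hx, mul_zero, Complex.ofReal_zero]), if_pos rfl, mul_one, Sr_one]

end H572AE.RED1
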