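import Mathlib
import Pool.Agent.H572.AE.Stm2

/-!
# Project AE, piece RED2: the state sum of the graph with two vertices and any number of edges
-/

set_option autoImplicit false

namespace H572AE.RED2

open Finset H572AE W719AEC

theorem labels_eq (r : ℕ) : labels 2 r = (Ico 1 r).image (fun x => ![0, x]) := by
  ext a
  unfold labels
  rw [mem_filter, Fintype.mem_piFinset, mem_image]
  constructor
  · rintro ⟨h1, h2, h3⟩
    have h0 := h3 0 rfl
    have h01 := h2 0 1 (by decide)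
    refine ⟨a 1, ?_, ?_⟩
    · rw [mem_Ico]
      exact ⟨by omega, mem_range.1 (h1 1)⟩
    · funext i
      fin_cases i
      · exact h0.symm
      · rfl
  · rintro ⟨x, hx, rfl⟩
    rw [mem_Ico] at hx
    refine ⟨?_, ?_, ?_⟩
    · intro i
      fin_cases i
      · show 0 ∈ range r
        rw [mem_range]; omega
      · show x ∈ range r
        rw [mem_range]; omega
    · intro i j hij
      fin_cases i <;> fin_cases j
      · exact absurd hij (by decide)
      · show 0 < x
        omega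
      · exact absurd hij (by decide)
      · exact absurd hij (by decide)
    · intro i hi
      fin_cases i
      · rfl
      · exact absurd hi (by decide)

theorem sum_labels (r : ℕ) (F : (Fin 2 → ℕ) → ℂ) :
    ∑ a ∈ labels 2 r, F a = ∑ x ∈ Ico 1 r, F ![0, x] := by
  rw [labels_eq, sum_image]
  intro x _ y _ hxy
  exact congrFun hxy 1

theorem sum_two (L : Finset (Fin 2 → ℕ)) (G : (Fin 2 → (Fin 2 → ℕ)) → ℂ) :
    ∑ x ∈ Fintype.piFinset (fun _ : Fin 2 => L), G x = ∑ a ∈ L, ∑ b ∈ L, G ![a, b] := by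
  rw [← sum_product']
  refine sum_nbij' (fun x => (x 0, x 1)) (fun p => ![p.1, p.2]) ?_ ?_ ?_ ?_ ?_
  · intro x hx
    rw [Fintype.mem_piFinset] at hx
    exact mem_product.2 ⟨hx 0, hx 1⟩
  · intro p hp
    rw [mem_product] at hp
    rw [Fintype.mem_piFinset]
    intro i
    fin_cases i
    · exact hp.1
    · exact hp.2
  · intro x _
    funext i
    fin_cases i <;> rfl
  · intro p _
    rfl
  · intro x _
    refine congrArg G ?_
    funext i
    fin_cases i <;> rfl

/-- the real number -/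
noncomputable def Sr (r x y : ℕ) : ℝ :=
  Real.sqrt 2 / Real.sqrt r * Real.sin (Real.pi * x * y / r)

theorem Smat_eq (r x y : ℕ) (hr : 2 ≤ r) : Smat 2 r ![0, x] ![0, y] = ((Sr r x y : ℝ) : ℂ) := by
  have hr0 : (r : ℂ) ≠ 0 := by
    have : r ≠ 0 := by omega
    exact_mod_cast this
  set z : ℂ := Real.pi * x * y / r with hz
  have h1 : Complex.exp (2 * Real.pi * Complex.I * ((x : ℂ) * (y : ℂ) / (2 * r))) =
      Complex.exp (z * Complex.I) := by
    congr 1
    rw [hz]
    field_simp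
  have h2 : Complex.exp (-(2 * Real.pi * Complex.I * ((x : ℂ) * (y : ℂ) / r))) =
      Complex.exp (-z * Complex.I) * Complex.exp (-z * Complex.I) := by
    rw [← Complex.exp_add]
    congr 1
    rw [hz]
    ring
  have h3 : Complex.exp (z * Complex.I) * Complex.exp (-z * Complex.I) = 1 := by
    rw [← Complex.exp_add]
    rw [show z * Complex.I + -z * Complex.I = 0 by ring, Complex.exp_zero]
  have h4 : Smat 2 r ![0, x] ![0, y] = Complex.I / ((Real.sqrt 2 * Real.sqrt r : ℝ) : ℂ) *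
      Complex.exp (2 * Real.pi * Complex.I * ((x : ℂ) * (y : ℂ) / (2 * r))) *
      (Complex.exp (-(2 * Real.pi * Complex.I * ((x : ℂ) * (y : ℂ) / r))) - 1) := by
    unfold Smat
    rw [Matrix.det_fin_two]
    simp
  have hs : Complex.sin z = ((Real.sin (Real.pi * x * y / r) : ℝ) : ℂ) := by
    rw [hz]
    push_cast
    rfl
  have hs2 : ((Real.sqrt 2 : ℝ) : ℂ) * ((Real.sqrt 2 : ℝ) : ℂ) = 2 := by
    rw [← Complex.ofReal_mul, Real.mul_self_sqrt (by norm_num)]
    norm_num
  have hs0 : ((Real.sqrt 2 : ℝ) : ℂ) ≠ 0 := by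
    intro h
    rw [h, mul_zero] at hs2
    norm_num at hs2
  have hsr : ((Real.sqrt r : ℝ) : ℂ) ≠ 0 := by
    rw [Complex.ofReal_ne_zero]
    have : (0 : ℝ) < r := by
      have : 0 < r := by omega
      exact_mod_cast this
    exact (Real.sqrt_pos.2 this).ne'
  have key : Complex.I * Complex.exp (z * Complex.I) *
      (Complex.exp (-z * Complex.I) * Complex.exp (-z * Complex.I) - 1) = 2 * Complex.sin z := by
    rw [Complex.sin]
    linear_combination (Complex.I * Complex.exp (-z * Complex.I)) * h3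
  rw [h4, h1, h2]
  unfold Sr
  rw [Complex.ofReal_mul, Complex.ofReal_mul (Real.sqrt 2 / Real.sqrt r), Complex.ofReal_div, ← hs]
  rw [div_mul_eq_mul_div, div_mul_eq_mul_div, key, div_mul_eq_mul_div, div_eq_div_iff
    (mul_ne_zero hs0 hsr) hsr]
  linear_combination (-(Complex.sin z * ((Real.sqrt r : ℝ) : ℂ))) * hs2

theorem Sr_eq (r x y : ℕ) : Sr r x y = (Real.sqrt ((r : ℝ) / 2))⁻¹ * Real.sin (Real.pi * x * y / r) := by
  unfold Sr
  rw [Real.sqrt_div (Nat.cast_nonneg r), inv_div]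

theorem Sr_zpow (r x g m : ℕ) (hm : 2 ≤ 2 * g + m) :
    ((Sr r 1 x : ℝ) : ℂ) ^ (2 - 2 * (g : ℤ) - (m : ℤ)) =
      ((Real.sqrt ((r : ℝ) / 2) ^ (2 * g + m - 2) / Real.sin (Real.pi * x / r) ^ (2 * g + m - 2) : ℝ) : ℂ) := by
  have h1 : (2 - 2 * (g : ℤ) - (m : ℤ)) = -((2 * g + m - 2 : ℕ) : ℤ) := by omega
  rw [h1, zpow_neg, zpow_natCast, ← Complex.ofReal_pow, ← Complex.ofReal_inv]
  congr 1
  rw [Sr_eq, mul_pow, mul_inv, inv_pow, inv_inv, Nat.cast_one, mul_one, ← div_eq_mul_inv]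

theorem edge (r x y : ℕ) (b : Bool) :
    (if b = true then ((Sr r x y : ℝ) : ℂ) else (starRingEnd ℂ) ((Sr r x y : ℝ) : ℂ)) =
      ((Sr r x y : ℝ) : ℂ) := by
  rw [Complex.conj_ofReal, ite_self]

theorem main : S_red2 := by
  intro g h m σ r hr hg hh
  unfold PlumbingGraph.Z
  rw [sum_two, sum_labels]
  unfold TT
  rw [Finset.mul_sum, Complex.ofReal_sum]
  refine sum_congr rfl fun x hx => ?_
  rw [sum_labels, Finset.mul_sum, Complex.ofReal_sum]
  refine sum_congr rfl fun y hy => ?_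
  have hd0 : (twoGraph g h σ).degree 0 = m := by
    have : (univ.filter fun e : Fin m => (fun _ : Fin m => (0 : Fin 2)) e = 0).card +
      (univ.filter fun e : Fin m => (fun _ : Fin m => (1 : Fin 2)) e = 0).card = m := by simp
    exact this
  have hd1 : (twoGraph g h σ).degree 1 = m := by
    have : (univ.filter fun e : Fin m => (fun _ : Fin m => (0 : Fin 2)) e = 1).card +
      (univ.filter fun e : Fin m => (fun _ : Fin m => (1 : Fin 2)) e = 1).card = m := by simp
    exact this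
  have ht : triv 2 = ![0, 1] := by
    funext i
    fin_cases i <;> rfl
  have hs : 0 < Real.sqrt ((r : ℝ) / 2) := by
    apply Real.sqrt_pos.2
    have : (0 : ℝ) < r := by
      have : 0 < r := by omega
      exact_mod_cast this
    linarith
  have e0 : (twoGraph g h σ).euler 0 = 0 := rfl
  have e1 : (twoGraph g h σ).euler 1 = 0 := rfl
  have g0 : (twoGraph g h σ).genus 0 = g := rfl
  have g1 : (twoGraph g h σ).genus 1 = h := rfl
  have v0 : (![![0, x], ![0, y]] : Fin 2 → Fin 2 → ℕ) 0 = ![0, x] := rfl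
  have v1 : (![![0, x], ![0, y]] : Fin 2 → Fin 2 → ℕ) 1 = ![0, y] := rfl
  have hedge : ∀ e : Fin m, (if (twoGraph g h σ).positive e = true then
      Smat 2 r ((![![0, x], ![0, y]] : Fin 2 → Fin 2 → ℕ) ((twoGraph g h σ).src e))
        ((![![0, x], ![0, y]] : Fin 2 → Fin 2 → ℕ) ((twoGraph g h σ).tgt e))
      else (starRingEnd ℂ) (Smat 2 r ((![![0, x], ![0, y]] : Fin 2 → Fin 2 → ℕ) ((twoGraph g h σ).src e))
        ((![![0, x], ![0, y]] : Fin 2 → Fin 2 → ℕ) ((twoGraph g h σ).tgt e)))) =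
      ((Sr r x y : ℝ) : ℂ) := by
    intro e
    have s0 : (twoGraph g h σ).src e = 0 := rfl
    have t0 : (twoGraph g h σ).tgt e = 1 := rfl
    rw [s0, t0, v0, v1, Smat_eq r x y hr, edge]
  rw [prod_congr rfl fun e _ => hedge e, prod_const, card_univ, Fintype.card_fin]
  rw [Fin.prod_univ_two, hd0, hd1, ht, e0, e1, g0, g1]
  rw [v0, v1, zpow_zero, zpow_zero, one_mul, one_mul, Smat_eq r 1 x hr, Smat_eq r 1 y hr,
    Sr_zpow r x g m hg, Sr_zpow r y h m hh]
  rw [← Complex.ofReal_pow, ← Complex.ofReal_mul, ← Complex.ofReal_mul]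
  congr 1
  rw [Sr_eq, mul_pow]
  set s : ℝ := Real.sqrt ((r : ℝ) / 2) with hsdef
  have hexp : s ^ (2 * (g : ℤ) + 2 * (h : ℤ) + (m : ℤ) - 4) =
      s ^ (2 * g + m - 2) * s ^ (2 * h + m - 2) * s⁻¹ ^ m := by
    have h1 : (2 * (g : ℤ) + 2 * (h : ℤ) + (m : ℤ) - 4) =
        ((2 * g + m - 2 : ℕ) : ℤ) + ((2 * h + m - 2 : ℕ) : ℤ) + -(m : ℤ) := by omega
    rw [h1, zpow_add₀ hs.ne', zpow_add₀ hs.ne', zpow_natCast, zpow_natCast, zpow_neg, zpow_natCast, inv_pow]
  rw [hexp]
  ring

end H572AE.RED2
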