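import Mathlib
import Pool.Agent.H572.AE.ASYE
import Pool.Agent.H572.AE.PH
import Pool.Agent.H572.AE.EO
import Pool.Agent.H572.AE.CP
import Pool.Agent.H572.AE.CSC
import Pool.Agent.H572.AE.PS
import Pool.Agent.H572.AE.SINP
import Pool.Agent.H572.AE.NV
import Pool.Agent.H572.AE.RED1
import Pool.Agent.H572.AE.RED2
import Pool.Agent.H572.AE.NE2
import Pool.Agent.H572.AE.MULP
import Pool.Agent.H572.AE.POS1
import Pool.Agent.H572.AE.LB2

/-!
# The classification of the graphs with two vertices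
-/

set_option autoImplicit false

open Finset Polynomial Filter Topology

namespace H572AE.MAIN

theorem TT_swap (E A B r : ℕ) : TT E A B r = TT E B A r := by
  unfold TT
  rw [Finset.sum_comm]
  refine Finset.sum_congr rfl fun a _ => Finset.sum_congr rfl fun b _ => ?_
  have e1 : Real.pi * b * a / r = Real.pi * a * b / r := by ring
  rw [e1, mul_comm (Real.sin (Real.pi * b / r) ^ A)]

theorem asye : S_asye := ASYE.main PH.main EO.main (CP.main PH.main EO.main) CSC.main PS.main SINP.main NV.main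

/-- A lower bound of larger order forces a polynomial of larger degree. -/
theorem deg_gt (u : ℕ → ℝ) (P : ℝ[X]) (K B c : ℝ) (q : ℕ) (hc : 0 < c)
    (hu : ∀ r : ℕ, 2 ≤ r → |u r - (P.eval (r : ℝ) + K * (r : ℝ) ^ q * Real.log r)| ≤ B * (r : ℝ) ^ q)
    (hl : ∀ r : ℕ, 2 ≤ r → c * (r : ℝ) ^ (q + 1) ≤ u r) : q < P.natDegree := by
  by_contra hcon
  obtain ⟨c', hc0, hc'⟩ := polyBound P q (not_lt.mp hcon)
  -- c r ≤ B + c' + |K| log r
  have key : ∀ r : ℕ, 2 ≤ r → c * (r : ℝ) ≤ B + c' + |K| * Real.log r := by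
    intro r hr
    have hr1 : (1 : ℝ) ≤ r := by exact_mod_cast (by omega : 1 ≤ r)
    have hp : (0 : ℝ) < (r : ℝ) ^ q := by positivity
    have h1 := (abs_le.mp (hu r hr)).2
    have h2 := hl r hr
    have h3 := (abs_le.mp (hc' r hr1)).2
    have h4 : K * (r : ℝ) ^ q * Real.log r ≤ |K| * (r : ℝ) ^ q * Real.log r := by
      refine mul_le_mul_of_nonneg_right (mul_le_mul_of_nonneg_right (le_abs_self _) hp.le)
        (Real.log_nonneg hr1)
    have h5 : (c * (r : ℝ)) * (r : ℝ) ^ q ≤ (B + c' + |K| * Real.log r) * (r : ℝ) ^ q := by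
      calc (c * (r : ℝ)) * (r : ℝ) ^ q = c * (r : ℝ) ^ (q + 1) := by ring
        _ ≤ B * (r : ℝ) ^ q + c' * (r : ℝ) ^ q + |K| * (r : ℝ) ^ q * Real.log r := by linarith
        _ = _ := by ring
    exact le_of_mul_le_mul_right h5 hp
  have hlim : Tendsto (fun r : ℕ => (B + c' + |K| * Real.log r) / (r : ℝ)) atTop (𝓝 0) := by
    have h1 : Tendsto (fun x : ℝ => Real.log x / x) atTop (𝓝 0) := by
      have := Real.tendsto_pow_log_div_mul_add_atTop 1 0 1 one_ne_zero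
      simpa using this
    have h2 : Tendsto (fun x : ℝ => (B + c') / x) atTop (𝓝 0) := tendsto_const_nhds.div_atTop tendsto_id
    have h3 := (h2.add (h1.const_mul |K|)).comp (tendsto_natCast_atTop_atTop (R := ℝ))
    simp only [mul_zero, add_zero] at h3
    refine h3.congr fun r => ?_
    simp only [Function.comp]
    ring
  have h6 := hlim.eventually (gt_mem_nhds hc)
  obtain ⟨r, hr1, hr2⟩ := (h6.and (eventually_ge_atTop 2)).exists
  have hr0 : (0 : ℝ) < r := by exact_mod_cast (by omega : 0 < r)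
  rw [div_lt_iff₀ hr0] at hr1
  linarith [key r hr2]

/-- The unified asymptotic formula for h ≤ g. -/
theorem unif_le (hO : S_asyo) (g h m : ℕ) (hm : 1 ≤ m) (hgh : h ≤ g) (hne : ¬ (m ≤ 2 ∧ g * h = 0)) :
    ∃ (P Q : ℝ[X]) (K B : ℝ), K ≠ 0 ∧ (Even m → Q = 0) ∧
      (Even m → (g ≠ h ∨ 2 ≤ g) → 2 * h + m - 1 < P.natDegree) ∧
      ∀ r : ℕ, 2 ≤ r → |TT m (2 * g + m - 2) (2 * h + m - 2) r - (P.eval (r : ℝ) +
        (-1) ^ r * Q.eval (r : ℝ) + K * (r : ℝ) ^ (2 * h + m - 1) * Real.log r)| ≤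
        B * (r : ℝ) ^ (2 * h + m - 1) := by
  rcases Nat.even_or_odd' m with ⟨k, hk | hk⟩
  · -- even
    have hk1 : 1 ≤ k := by omega
    have hH : 1 ≤ h + k - 1 := by
      by_contra hcon
      have h1 : h = 0 := by omega
      have h2 : k = 1 := by omega
      exact hne ⟨by omega, by rw [h1, mul_zero]⟩
    obtain ⟨P, K, B, hK, hB⟩ := asye k (g + k - 1) (h + k - 1) hk1 hH (by omega) (by omega)
    have e1 : 2 * g + m - 2 = 2 * (g + k - 1) := by omega
    have e2 : 2 * h + m - 2 = 2 * (h + k - 1) := by omega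
    have e3 : 2 * h + m - 1 = 2 * (h + k - 1) + 1 := by omega
    refine ⟨P, 0, K, B, hK, fun _ => rfl, fun _ hc => ?_, ?_⟩
    · obtain ⟨c, hc0, hcb⟩ := LB2.main k (g + k - 1) (h + k - 1) hk1 (by omega) (by omega)
      rw [e3]
      refine deg_gt _ P K B c _ hc0 hB fun r hr => ?_
      have hr1 : (1 : ℝ) ≤ r := by exact_mod_cast (by omega : 1 ≤ r)
      rcases Nat.lt_or_ge h g with hlt | hge
      · refine le_trans (mul_le_mul_of_nonneg_left ?_ hc0.le) (hcb r hr).1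
        exact pow_le_pow_right₀ hr1 (by omega)
      · have hgh' : g = h := le_antisymm hge hgh
        have h2 : 2 ≤ g := by
          rcases hc with h3 | h3
          · exact absurd hgh' h3
          · exact h3
        refine le_trans (mul_le_mul_of_nonneg_left ?_ hc0.le) (hcb r hr).2
        exact pow_le_pow_right₀ hr1 (by omega)
    · intro r hr
      rw [e1, e2, e3, hk]
      simpa using hB r hr
  · -- odd
    have hH : 1 ≤ h + k := by
      by_contra hcon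
      have h1 : h = 0 := by omega
      have h2 : k = 0 := by omega
      exact hne ⟨by omega, by rw [h1, mul_zero]⟩
    obtain ⟨P, Q, K, B, hK, hB⟩ := hO k (g + k) (h + k) hH (by omega) (by omega)
    have e1 : 2 * g + m - 2 = 2 * (g + k) - 1 := by omega
    have e2 : 2 * h + m - 2 = 2 * (h + k) - 1 := by omega
    have e3 : 2 * h + m - 1 = 2 * (h + k) := by omega
    have hodd : ¬ Even m := by rw [hk]; exact Nat.not_even_two_mul_add_one k
    refine ⟨P, Q, K, B, hK, fun he => absurd he hodd, fun he => absurd he hodd, ?_⟩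
    intro r hr
    rw [e1, e2, e3, hk]
    exact hB r hr

theorem unif (hO : S_asyo) (g h m : ℕ) (hm : 1 ≤ m) (hne : ¬ (m ≤ 2 ∧ g * h = 0)) :
    ∃ (P Q : ℝ[X]) (K B : ℝ), K ≠ 0 ∧ (Even m → Q = 0) ∧
      (Even m → (g ≠ h ∨ 2 ≤ g) → 2 * min g h + m - 1 < P.natDegree) ∧
      ∀ r : ℕ, 2 ≤ r → |TT m (2 * g + m - 2) (2 * h + m - 2) r - (P.eval (r : ℝ) +
        (-1) ^ r * Q.eval (r : ℝ) + K * (r : ℝ) ^ (2 * min g h + m - 1) * Real.log r)| ≤
        B * (r : ℝ) ^ (2 * min g h + m - 1) := by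
  rcases le_total h g with hle | hle
  · rw [min_eq_right hle]
    exact unif_le hO g h m hm hle hne
  · rw [min_eq_left hle]
    obtain ⟨P, Q, K, B, hK, h1, h2, h3⟩ := unif_le hO h g m hm hle (by rwa [mul_comm h g])
    refine ⟨P, Q, K, B, hK, h1, fun he hc => h2 he ?_, fun r hr => ?_⟩
    · rcases hc with h4 | h4
      · exact Or.inl fun h5 => h4 h5.symm
      · by_cases h5 : h = g
        · right; omega
        · exact Or.inl h5
    · rw [TT_swap]; exact h3 r hr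

theorem sqrt_zpow (z : ℤ) (r : ℝ) (hr : 0 < r) :
    Real.sqrt (r / 2) ^ z = Real.sqrt 2 ^ (-z) * r ^ ((z : ℝ) / 2) := by
  rw [Real.sqrt_div' r (by norm_num), div_zpow, zpow_neg, div_eq_mul_inv, mul_comm]
  congr 1
  rw [Real.sqrt_eq_rpow, ← Real.rpow_intCast, ← Real.rpow_mul hr.le]
  congr 1
  ring

/-- No expansion. -/
theorem no_exp (hO : S_asyo) (g h m : ℕ) (σ : Fin m → Bool) (hm : 1 ≤ m) (hne : ¬ (m ≤ 2 ∧ g * h = 0))
    (ω : ℕ → ℂ) (hω : ∀ k, ‖ω k‖ = 1) :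
    ¬ H524R3.HasExpansion 2 (fun k => ω k * (twoGraph g h σ).Z 2 (k + 2)) := by
  intro hexp
  obtain ⟨P, Q, K, B, hK, -, -, hB⟩ := unif hO g h m hm hne
  have hg : 2 ≤ 2 * g + m := by
    by_contra hcon
    have h1 : g = 0 := by omega
    have h2 : m = 1 := by omega
    exact hne ⟨by omega, by rw [h1, zero_mul]⟩
  have hh : 2 ≤ 2 * h + m := by
    by_contra hcon
    have h1 : h = 0 := by omega
    have h2 : m = 1 := by omega
    exact hne ⟨by omega, by rw [h1, mul_zero]⟩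
  set z : ℤ := 2 * (g : ℤ) + 2 * (h : ℤ) + (m : ℤ) - 4 with hz
  have h1 := MULP.main 2 (-((z : ℝ) / 2)) _ hexp (by norm_num)
  set κ : ℝ := Real.sqrt 2 ^ (-z) with hκ
  have hκ0 : 0 < κ := by positivity
  set q := 2 * min g h + m - 1 with hq
  have h2 := NE2.main (fun n => κ * TT m (2 * g + m - 2) (2 * h + m - 2) n) (C κ * P) (C κ * Q) (κ * K)
    (κ * B) q (mul_ne_zero hκ0.ne' hK) (by
      intro n hn
      have e1 : κ * TT m (2 * g + m - 2) (2 * h + m - 2) n - ((C κ * P).eval (n : ℝ) +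
          (-1) ^ n * (C κ * Q).eval (n : ℝ) + κ * K * (n : ℝ) ^ q * Real.log n) =
          κ * (TT m (2 * g + m - 2) (2 * h + m - 2) n - (P.eval (n : ℝ) +
          (-1) ^ n * Q.eval (n : ℝ) + K * (n : ℝ) ^ q * Real.log n)) := by
        rw [eval_mul, eval_mul, eval_C]; ring
      rw [e1, abs_mul, abs_of_pos hκ0, mul_assoc κ B]
      exact mul_le_mul_of_nonneg_left (hB n hn) hκ0.le) ω hω
  apply h2
  have e3 : (fun k : ℕ => ω k * ((κ * TT m (2 * g + m - 2) (2 * h + m - 2) (k + 2) : ℝ) : ℂ)) =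
      (fun k : ℕ => (((((k + 2 : ℕ) : ℝ) ^ (-((z : ℝ) / 2)) : ℝ)) : ℂ) *
        (ω k * (twoGraph g h σ).Z 2 (k + 2))) := by
    funext k
    have hk0 : (0 : ℝ) < ((k + 2 : ℕ) : ℝ) := by exact_mod_cast (by omega : 0 < k + 2)
    rw [RED2.main g h m σ (k + 2) (by omega) hg hh, ← hz, sqrt_zpow z _ hk0, ← hκ]
    have e4 : ((k + 2 : ℕ) : ℝ) ^ (-((z : ℝ) / 2)) * ((k + 2 : ℕ) : ℝ) ^ ((z : ℝ) / 2) = 1 := by
      rw [← Real.rpow_add hk0]; simp
    have e5 : (κ * TT m (2 * g + m - 2) (2 * h + m - 2) (k + 2) : ℝ) =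
        ((k + 2 : ℕ) : ℝ) ^ (-((z : ℝ) / 2)) * (κ * ((k + 2 : ℕ) : ℝ) ^ ((z : ℝ) / 2) *
          TT m (2 * g + m - 2) (2 * h + m - 2) (k + 2)) := by
      calc (κ * TT m (2 * g + m - 2) (2 * h + m - 2) (k + 2) : ℝ) =
          (((k + 2 : ℕ) : ℝ) ^ (-((z : ℝ) / 2)) * ((k + 2 : ℕ) : ℝ) ^ ((z : ℝ) / 2)) *
            (κ * TT m (2 * g + m - 2) (2 * h + m - 2) (k + 2)) := by rw [e4, one_mul]
        _ = _ := by ring
    rw [e5, Complex.ofReal_mul]
    ring
  rw [e3]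
  exact h1

/-- The expansion for two edges and one vertex of genus 0. -/
theorem pos_two (g : ℕ) : ∃ p : ℝ[X], ∀ r : ℕ, 2 ≤ r →
    Real.sqrt ((r : ℝ) / 2) ^ (2 * (g : ℤ) + 2 * ((0 : ℕ) : ℤ) + ((2 : ℕ) : ℤ) - 4) *
      TT 2 (2 * g + 2 - 2) (2 * 0 + 2 - 2) r = p.eval (r : ℝ) := by
  have key : ∀ r : ℕ, 2 ≤ r → TT 2 (2 * g + 2 - 2) (2 * 0 + 2 - 2) r = (r / 2) * Cs g r := by
    intro r hr
    unfold TT Cs
    rw [Finset.mul_sum]
    refine Finset.sum_congr rfl fun a ha => ?_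
    have ha' := mem_Ico.mp ha
    have h1 := PH.sum_sin_sq ha'.1 ha'.2
    rw [← h1, Finset.sum_mul]
    refine Finset.sum_congr rfl fun b _ => ?_
    simp only [Nat.add_sub_cancel, mul_zero, pow_zero, mul_one]
    ring
  have hsq : ∀ r : ℕ, 2 ≤ r → Real.sqrt ((r : ℝ) / 2) ^ (2 * (g : ℤ) + 2 * ((0 : ℕ) : ℤ) + ((2 : ℕ) : ℤ) - 4) *
      (r / 2) = ((r : ℝ) / 2) ^ g := by
    intro r hr
    have hr0 : (0 : ℝ) < (r : ℝ) / 2 := by
      have : (0 : ℝ) < r := by exact_mod_cast (by omega : 0 < r)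
      linarith
    have hs : Real.sqrt ((r : ℝ) / 2) ≠ 0 := (Real.sqrt_pos.mpr hr0).ne'
    have e1 : (2 * (g : ℤ) + 2 * ((0 : ℕ) : ℤ) + ((2 : ℕ) : ℤ) - 4) = ((2 * g : ℕ) : ℤ) - 2 := by
      push_cast; ring
    rw [e1, zpow_sub₀ hs, zpow_natCast, pow_mul, Real.sq_sqrt hr0.le]
    have e2 : Real.sqrt ((r : ℝ) / 2) ^ (2 : ℤ) = (r : ℝ) / 2 := by
      rw [show (2 : ℤ) = ((2 : ℕ) : ℤ) by norm_num, zpow_natCast, Real.sq_sqrt hr0.le]
    rw [e2]
    field_simp
  rcases Nat.eq_zero_or_pos g with h0 | hpos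
  · refine ⟨X - C 1, fun r hr => ?_⟩
    rw [key r hr, ← mul_assoc, hsq r hr, h0, pow_zero, one_mul, PH.Cs_zero (by omega)]
    simp
  · obtain ⟨p, -, hp⟩ := CP.main PH.main EO.main g hpos
    refine ⟨C ((1 / 2) ^ g) * X ^ g * p, fun r hr => ?_⟩
    rw [key r hr, ← mul_assoc, hsq r hr, hp r (by omega)]
    simp only [eval_mul, eval_C, eval_pow, eval_X]
    rw [div_pow, div_pow, one_pow]
    ring

/-- The expansions. -/
theorem pos (g h m : ℕ) (σ : Fin m → Bool) (hm : 1 ≤ m) (hp : m ≤ 2 ∧ g * h = 0) :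
    H524R3.HasExpansion 2 (fun k => (twoGraph g h σ).Z 2 (k + 2)) := by
  obtain ⟨hm2, hgh⟩ := hp
  rcases (by omega : m = 1 ∨ m = 2) with rfl | rfl
  · rcases Nat.mul_eq_zero.mp hgh with h0 | h0
    · subst h0
      have : (fun k => (twoGraph 0 h σ).Z 2 (k + 2)) = fun k : ℕ =>
          ((((Real.sqrt (2 / ((k + 2 : ℕ) : ℝ)) * Real.sin (Real.pi / ((k + 2 : ℕ) : ℝ))) ^
            (1 - 2 * (h : ℤ)) : ℝ)) : ℂ) := by
        funext k; exact (RED1.main h σ (k + 2) (by omega)).2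
      rw [this]; exact POS1.main _
    · subst h0
      have : (fun k => (twoGraph g 0 σ).Z 2 (k + 2)) = fun k : ℕ =>
          ((((Real.sqrt (2 / ((k + 2 : ℕ) : ℝ)) * Real.sin (Real.pi / ((k + 2 : ℕ) : ℝ))) ^
            (1 - 2 * (g : ℤ)) : ℝ)) : ℂ) := by
        funext k; exact (RED1.main g σ (k + 2) (by omega)).1
      rw [this]; exact POS1.main _
  · rcases Nat.mul_eq_zero.mp hgh with h0 | h0
    · subst h0
      obtain ⟨p, hp⟩ := pos_two h
      have : (fun k => (twoGraph 0 h σ).Z 2 (k + 2)) = fun k : ℕ =>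
          ((p.eval ((k + 2 : ℕ) : ℝ) : ℝ) : ℂ) := by
        funext k
        rw [RED2.main 0 h 2 σ (k + 2) (by omega) (by omega) (by omega), ← hp (k + 2) (by omega), TT_swap]
        congr 3
        push_cast; ring
      rw [this]; exact MULP.main2 p
    · subst h0
      obtain ⟨p, hp⟩ := pos_two g
      have : (fun k => (twoGraph g 0 σ).Z 2 (k + 2)) = fun k : ℕ =>
          ((p.eval ((k + 2 : ℕ) : ℝ) : ℝ) : ℂ) := by
        funext k
        rw [RED2.main g 0 2 σ (k + 2) (by omega) (by omega) (by omega), ← hp (k + 2) (by omega)]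
      rw [this]; exact MULP.main2 p

end H572AE.MAIN
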