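import Mathlib
import Pool.Agent.H572.AE.Stm2

/-!
# PS2: power sums over a parity class (the full sums are helper864's PS, copied here)
-/

set_option autoImplicit false

namespace H572AE.PS2

open Finset Polynomial

/-- the sum of `1 / a ^ t` over a block -/
theorem block (t M : ℕ) (hM : 1 ≤ M) (N : ℕ) (hN : M ≤ N) :
    0 ≤ (∑ a ∈ Icc 1 N, 1 / (a : ℝ) ^ (t + 2)) - ∑ a ∈ Icc 1 M, 1 / (a : ℝ) ^ (t + 2) ∧
    (∑ a ∈ Icc 1 N, 1 / (a : ℝ) ^ (t + 2)) - ∑ a ∈ Icc 1 M, 1 / (a : ℝ) ^ (t + 2) ≤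
      1 / (M : ℝ) ^ t * (1 / M - 1 / N) := by
  induction N, hN using Nat.le_induction with
  | base => simp
  | succ N hN ih =>
    obtain ⟨ih1, ih2⟩ := ih
    have hM0 : (0 : ℝ) < M := by exact_mod_cast hM
    have hMN : (M : ℝ) ≤ N := by exact_mod_cast hN
    have hN0 : (0 : ℝ) < N := by linarith
    rw [Finset.sum_Icc_succ_top (by omega)]
    push_cast
    have h1 : 1 / ((N : ℝ) + 1) ^ (t + 2) ≤ 1 / (M : ℝ) ^ t * (1 / N - 1 / (N + 1)) := by
      have h2 : 1 / (M : ℝ) ^ t * (1 / N - 1 / (N + 1)) = 1 / ((M : ℝ) ^ t * (N * (N + 1))) := by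
        field_simp
        ring
      rw [h2]
      apply one_div_le_one_div_of_le (by positivity)
      rw [pow_add]
      have h3 : (M : ℝ) ^ t ≤ ((N : ℝ) + 1) ^ t := pow_le_pow_left₀ hM0.le (by linarith) t
      have h4 : (N : ℝ) * (N + 1) ≤ (N + 1) ^ 2 := by nlinarith
      exact mul_le_mul h3 h4 (by positivity) (by positivity)
    have h5 : (0 : ℝ) ≤ 1 / ((N : ℝ) + 1) ^ (t + 2) := by positivity
    constructor
    · linarith
    · have h6 : 1 / (M : ℝ) ^ t * (1 / M - 1 / (N + 1)) =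
          1 / (M : ℝ) ^ t * (1 / M - 1 / N) + 1 / (M : ℝ) ^ t * (1 / N - 1 / (N + 1)) := by ring
      rw [h6]
      linarith

theorem series (t : ℕ) : ∃ A : ℝ, ∀ M : ℕ, 1 ≤ M →
    |(∑ a ∈ Icc 1 M, 1 / (a : ℝ) ^ (t + 2)) - A| ≤ 1 / (M : ℝ) ^ (t + 1) := by
  have hsum : Summable (fun n : ℕ => 1 / (n : ℝ) ^ (t + 2)) :=
    Real.summable_one_div_nat_pow.2 (by omega)
  have hsum1 : Summable (fun n : ℕ => 1 / ((n + 1 : ℕ) : ℝ) ^ (t + 2)) :=
    (summable_nat_add_iff 1).2 hsum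
  have ht := hsum1.hasSum.tendsto_sum_nat
  have heq : ∀ N : ℕ, ∑ a ∈ Icc 1 N, 1 / (a : ℝ) ^ (t + 2) =
      ∑ i ∈ range N, 1 / ((i + 1 : ℕ) : ℝ) ^ (t + 2) := by
    intro N
    induction N with
    | zero => simp
    | succ N ih => rw [Finset.sum_Icc_succ_top (by omega), ih, Finset.sum_range_succ]
  refine ⟨∑' n : ℕ, 1 / ((n + 1 : ℕ) : ℝ) ^ (t + 2), fun M hM => ?_⟩
  have ht2 : Filter.Tendsto (fun N : ℕ => ∑ a ∈ Icc 1 N, 1 / (a : ℝ) ^ (t + 2)) Filter.atTop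
      (nhds (∑' n : ℕ, 1 / ((n + 1 : ℕ) : ℝ) ^ (t + 2))) :=
    ht.congr fun N => (heq N).symm
  have ht3 := (tendsto_const_nhds (x := ∑ a ∈ Icc 1 M, 1 / (a : ℝ) ^ (t + 2))).sub ht2
  have ht4 := ht3.abs
  refine le_of_tendsto ht4 ?_
  filter_upwards [Filter.eventually_ge_atTop M] with N hN
  obtain ⟨h1, h2⟩ := block t M hM N hN
  have hM0 : (0 : ℝ) < M := by exact_mod_cast hM
  have hN0 : (0 : ℝ) ≤ 1 / (N : ℝ) := by positivity
  rw [abs_sub_comm, abs_of_nonneg h1]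
  refine h2.trans ?_
  have h3 : 1 / (M : ℝ) ^ (t + 1) = 1 / (M : ℝ) ^ t * (1 / M) := by
    rw [pow_succ]
    field_simp
  rw [h3]
  refine mul_le_mul_of_nonneg_left (by linarith) (by positivity)

theorem mono (i d s : ℕ) (hs : 1 ≤ s) (hi : i ≤ d) : ∃ A B : ℝ, 0 ≤ B ∧ ∀ M : ℕ, 1 ≤ M →
    |(∑ a ∈ Icc 1 M, (a : ℝ) ^ i / (a : ℝ) ^ s) - A - (if i = s - 1 then Real.log M else 0)| ≤
      B * ((M : ℝ) ^ (d + 1) / (M : ℝ) ^ s) := by
  rcases lt_trichotomy (i + 1) s with h | h | h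
  · -- convergent series
    obtain ⟨t, ht⟩ : ∃ t, s = i + (t + 2) := ⟨s - i - 2, by omega⟩
    obtain ⟨A, hA⟩ := series t
    refine ⟨A, 1, zero_le_one, fun M hM => ?_⟩
    have hM0 : (0 : ℝ) < M := by exact_mod_cast hM
    have hM1 : (1 : ℝ) ≤ M := by exact_mod_cast hM
    rw [if_neg (by omega), sub_zero, one_mul]
    have h1 : ∑ a ∈ Icc 1 M, (a : ℝ) ^ i / (a : ℝ) ^ s = ∑ a ∈ Icc 1 M, 1 / (a : ℝ) ^ (t + 2) := by
      refine sum_congr rfl fun a ha => ?_
      rw [mem_Icc] at ha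
      have ha0 : (0 : ℝ) < a := by exact_mod_cast ha.1
      rw [ht, pow_add]
      field_simp
    rw [h1]
    refine (hA M hM).trans ?_
    rw [div_le_div_iff₀ (by positivity) (by positivity), one_mul, ← pow_add]
    exact pow_le_pow_right₀ hM1 (by omega)
  · -- harmonic sum
    refine ⟨0, 1, zero_le_one, fun M hM => ?_⟩
    have hM0 : (0 : ℝ) < M := by exact_mod_cast hM
    have hM1 : (1 : ℝ) ≤ M := by exact_mod_cast hM
    rw [if_pos (by omega), sub_zero, one_mul]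
    have h1 : ∑ a ∈ Icc 1 M, (a : ℝ) ^ i / (a : ℝ) ^ s = ((harmonic M : ℚ) : ℝ) := by
      rw [harmonic_eq_sum_Icc]
      push_cast
      refine sum_congr rfl fun a ha => ?_
      rw [mem_Icc] at ha
      have ha0 : (0 : ℝ) < a := by exact_mod_cast ha.1
      rw [← h, pow_succ]
      field_simp
    rw [h1]
    have h2 := log_add_one_le_harmonic M
    have h3 := harmonic_le_one_add_log M
    have h4 : Real.log M ≤ Real.log ((M + 1 : ℕ) : ℝ) := by
      apply Real.log_le_log hM0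
      push_cast
      linarith
    have h5 : (1 : ℝ) ≤ (M : ℝ) ^ (d + 1) / (M : ℝ) ^ s := by
      rw [one_le_div (by positivity)]
      exact pow_le_pow_right₀ hM1 (by omega)
    refine le_trans ?_ h5
    rw [abs_le]
    constructor <;> linarith
  · -- polynomial growth
    refine ⟨0, 1, zero_le_one, fun M hM => ?_⟩
    have hM0 : (0 : ℝ) < M := by exact_mod_cast hM
    have hM1 : (1 : ℝ) ≤ M := by exact_mod_cast hM
    rw [if_neg (by omega), sub_zero, sub_zero, one_mul]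
    have h0 : 0 ≤ ∑ a ∈ Icc 1 M, (a : ℝ) ^ i / (a : ℝ) ^ s :=
      sum_nonneg fun a _ => by positivity
    rw [abs_of_nonneg h0]
    have h1 : ∀ a ∈ Icc 1 M, (a : ℝ) ^ i / (a : ℝ) ^ s ≤ (M : ℝ) ^ i / (M : ℝ) ^ s := by
      intro a ha
      rw [mem_Icc] at ha
      have ha0 : (0 : ℝ) < a := by exact_mod_cast ha.1
      have haM : (a : ℝ) ≤ M := by exact_mod_cast ha.2
      obtain ⟨e, rfl⟩ : ∃ e, i = s + e := ⟨i - s, by omega⟩
      rw [pow_add, pow_add, mul_div_cancel_left₀ _ (by positivity),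
        mul_div_cancel_left₀ _ (by positivity)]
      exact pow_le_pow_left₀ ha0.le haM e
    refine (sum_le_sum h1).trans ?_
    rw [sum_const, Nat.card_Icc, nsmul_eq_mul]
    have h2 : ((M + 1 - 1 : ℕ) : ℝ) * ((M : ℝ) ^ i / (M : ℝ) ^ s) =
        (M : ℝ) ^ (i + 1) / (M : ℝ) ^ s := by
      rw [Nat.add_sub_cancel, pow_succ]
      ring
    rw [h2]
    exact div_le_div_of_nonneg_right (pow_le_pow_right₀ hM1 (by omega)) (by positivity)

theorem ps : H572AE.S_ps := by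
  intro f d s hs hf
  have h := fun i : Fin (d + 1) => mono i d s hs (by omega)
  choose A B hB hM using h
  refine ⟨∑ i : Fin (d + 1), f.coeff (i : ℕ) * A i, ∑ i : Fin (d + 1), |f.coeff (i : ℕ)| * B i,
    fun M hM1 => ?_⟩
  have h1 : ∑ a ∈ Icc 1 M, f.eval (a : ℝ) / (a : ℝ) ^ s =
      ∑ i : Fin (d + 1), f.coeff i * ∑ a ∈ Icc 1 M, (a : ℝ) ^ (i : ℕ) / (a : ℝ) ^ s := by
    simp_rw [mul_sum]
    rw [sum_comm]
    refine sum_congr rfl fun a _ => ?_
    rw [eval_eq_sum_range' (n := d + 1) (by omega), sum_div, Finset.sum_range]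
    refine sum_congr rfl fun i _ => ?_
    ring
  have h2 : f.coeff (s - 1) * Real.log M =
      ∑ i : Fin (d + 1), f.coeff i * (if (i : ℕ) = s - 1 then Real.log M else 0) := by
    by_cases hsd : s - 1 < d + 1
    · rw [Finset.sum_eq_single (⟨s - 1, hsd⟩ : Fin (d + 1))]
      · simp
      · intro i _ hi
        rw [if_neg, mul_zero]
        intro h3
        exact hi (Fin.ext h3)
      · intro h3
        exact absurd (mem_univ _) h3
    · rw [coeff_eq_zero_of_natDegree_lt (by omega), zero_mul]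
      symm
      refine sum_eq_zero fun i _ => ?_
      have := i.2
      rw [if_neg (by omega), mul_zero]
  rw [h1, h2, ← sum_sub_distrib, ← sum_sub_distrib, sum_mul]
  refine (abs_sum_le_sum_abs _ _).trans (sum_le_sum fun i _ => ?_)
  rw [← mul_sub, ← mul_sub, abs_mul, mul_assoc]
  exact mul_le_mul_of_nonneg_left (hM i M hM1) (abs_nonneg _)


/-- the even numbers -/
theorem image_even (M : ℕ) : (Icc 1 M).filter (fun a => a % 2 = 0) =
    (Icc 1 (M / 2)).image (fun b => 2 * b) := by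
  ext a
  simp only [mem_filter, mem_Icc, mem_image]
  constructor
  · rintro ⟨⟨h1, h2⟩, h3⟩
    exact ⟨a / 2, by omega, by omega⟩
  · rintro ⟨b, ⟨h1, h2⟩, rfl⟩
    omega

theorem even (f : ℝ[X]) (d s : ℕ) (hs : 1 ≤ s) (hf : f.natDegree ≤ d) : ∃ A B : ℝ, ∀ M : ℕ, 1 ≤ M →
    |(∑ a ∈ (Icc 1 M).filter (fun a => a % 2 = 0), f.eval (a : ℝ) / (a : ℝ) ^ s) - A -
      f.coeff (s - 1) * (Real.log M / 2)| ≤ B * ((M : ℝ) ^ (d + 1) / (M : ℝ) ^ s) := by
  obtain ⟨g, hg⟩ : ∃ g : ℝ[X], g = C (((2 : ℝ) ^ s)⁻¹) * f.comp (C 2 * X) := ⟨_, rfl⟩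
  have hgd : g.natDegree ≤ d := by
    rw [hg]
    refine (natDegree_C_mul_le _ _).trans (natDegree_comp_le.trans ?_)
    have h1 : (C (2 : ℝ) * X).natDegree ≤ 1 := (natDegree_C_mul_le _ _).trans natDegree_X_le
    calc f.natDegree * (C (2 : ℝ) * X).natDegree ≤ f.natDegree * 1 := Nat.mul_le_mul_left _ h1
      _ ≤ d := by omega
  have hgc : g.coeff (s - 1) = f.coeff (s - 1) / 2 := by
    rw [hg, coeff_C_mul, comp_C_mul_X_coeff]
    obtain ⟨t, rfl⟩ : ∃ t, s = t + 1 := ⟨s - 1, by omega⟩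
    rw [Nat.add_sub_cancel, pow_succ]
    field_simp
  have hge : ∀ b : ℕ, 1 ≤ b → f.eval ((2 * b : ℕ) : ℝ) / ((2 * b : ℕ) : ℝ) ^ s =
      g.eval (b : ℝ) / (b : ℝ) ^ s := by
    intro b hb
    have hb0 : (0 : ℝ) < b := by exact_mod_cast hb
    rw [hg, eval_mul, eval_C, eval_comp, eval_mul, eval_C, eval_X]
    push_cast
    rw [mul_pow]
    field_simp
  obtain ⟨A, B, hAB⟩ := ps g d s hs hgd
  refine ⟨A, |B| * 3 ^ s + |f.coeff (s - 1)| * Real.log 3 + |A|, fun M hM => ?_⟩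
  have hM0 : (0 : ℝ) < M := by exact_mod_cast hM
  have hM1 : (1 : ℝ) ≤ M := by exact_mod_cast hM
  have hlog3 : 0 ≤ Real.log 3 := Real.log_nonneg (by norm_num)
  rw [image_even, sum_image (fun x _ y _ h => by
    have h' : 2 * x = 2 * y := h
    omega)]
  have hsum : ∑ b ∈ Icc 1 (M / 2), f.eval ((2 * b : ℕ) : ℝ) / ((2 * b : ℕ) : ℝ) ^ s =
      ∑ b ∈ Icc 1 (M / 2), g.eval (b : ℝ) / (b : ℝ) ^ s :=
    sum_congr rfl fun b hb => hge b (mem_Icc.1 hb).1
  rw [hsum]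
  rcases Nat.lt_or_ge M 2 with h2 | h2
  · have hMe : M = 1 := by omega
    subst hMe
    have h3 : (1 / 2 : ℕ) = 0 := rfl
    rw [h3]
    have h4 : Icc 1 0 = (∅ : Finset ℕ) := rfl
    rw [h4, sum_empty, Nat.cast_one, Real.log_one, zero_div, mul_zero, sub_zero, zero_sub, abs_neg,
      one_pow, one_pow, div_one, mul_one]
    have h5 : 0 ≤ |B| * 3 ^ s := by positivity
    have h6 : 0 ≤ |f.coeff (s - 1)| * Real.log 3 := by positivity
    linarith
  · have hx := hAB (M / 2) (by omega)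
    rw [hgc] at hx
    obtain ⟨x, hxe⟩ : ∃ x : ℕ, x = M / 2 := ⟨_, rfl⟩
    rw [← hxe] at hx ⊢
    have hx1 : 1 ≤ x := by omega
    have hxM : x ≤ M := by omega
    have hMx : M ≤ 3 * x := by omega
    have hx0 : (0 : ℝ) < x := by exact_mod_cast hx1
    have hxM' : (x : ℝ) ≤ M := by exact_mod_cast hxM
    have hMx' : (M : ℝ) ≤ 3 * x := by exact_mod_cast hMx
    have hR0 : 0 ≤ (M : ℝ) ^ (d + 1) / (M : ℝ) ^ s := by positivity
    have hr : (x : ℝ) ^ (d + 1) / (x : ℝ) ^ s ≤ 3 ^ s * ((M : ℝ) ^ (d + 1) / (M : ℝ) ^ s) := by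
      have h3 : (x : ℝ) ^ (d + 1) ≤ (M : ℝ) ^ (d + 1) := pow_le_pow_left₀ hx0.le hxM' _
      have h4 : (M : ℝ) ^ s ≤ 3 ^ s * (x : ℝ) ^ s := by
        rw [← mul_pow]
        exact pow_le_pow_left₀ hM0.le hMx' _
      rw [← mul_div_assoc, div_le_div_iff₀ (by positivity) (by positivity)]
      calc (x : ℝ) ^ (d + 1) * (M : ℝ) ^ s ≤ (M : ℝ) ^ (d + 1) * (3 ^ s * (x : ℝ) ^ s) :=
            mul_le_mul h3 h4 (by positivity) (by positivity)
        _ = 3 ^ s * (M : ℝ) ^ (d + 1) * (x : ℝ) ^ s := by ring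
    have hmain : B * ((x : ℝ) ^ (d + 1) / (x : ℝ) ^ s) ≤
        |B| * 3 ^ s * ((M : ℝ) ^ (d + 1) / (M : ℝ) ^ s) := by
      calc B * ((x : ℝ) ^ (d + 1) / (x : ℝ) ^ s) ≤ |B| * ((x : ℝ) ^ (d + 1) / (x : ℝ) ^ s) :=
            mul_le_mul_of_nonneg_right (le_abs_self B) (by positivity)
        _ ≤ |B| * (3 ^ s * ((M : ℝ) ^ (d + 1) / (M : ℝ) ^ s)) :=
            mul_le_mul_of_nonneg_left hr (abs_nonneg _)
        _ = _ := by ring
    have hlog : |Real.log x - Real.log M| ≤ Real.log 3 := by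
      have h3 : Real.log x ≤ Real.log M := Real.log_le_log hx0 hxM'
      have h4 : Real.log M ≤ Real.log 3 + Real.log x := by
        rw [← Real.log_mul (by norm_num) hx0.ne']
        exact Real.log_le_log hM0 hMx'
      rw [abs_le]
      constructor <;> linarith
    have hlogR : |f.coeff (s - 1)| * Real.log 3 ≤
        |f.coeff (s - 1)| * Real.log 3 * ((M : ℝ) ^ (d + 1) / (M : ℝ) ^ s) := by
      by_cases hc : f.coeff (s - 1) = 0
      · rw [hc, abs_zero, zero_mul, zero_mul]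
      · have h3 : s - 1 ≤ f.natDegree := le_natDegree_of_ne_zero hc
        have h4 : (1 : ℝ) ≤ (M : ℝ) ^ (d + 1) / (M : ℝ) ^ s := by
          rw [one_le_div (by positivity)]
          exact pow_le_pow_right₀ hM1 (by omega)
        exact le_mul_of_one_le_right (by positivity) h4
    have hdiff : |f.coeff (s - 1) / 2 * Real.log x - f.coeff (s - 1) * (Real.log M / 2)| ≤
        |f.coeff (s - 1)| * Real.log 3 * ((M : ℝ) ^ (d + 1) / (M : ℝ) ^ s) := by
      refine le_trans ?_ hlogR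
      have h3 : f.coeff (s - 1) / 2 * Real.log x - f.coeff (s - 1) * (Real.log M / 2) =
          f.coeff (s - 1) * ((Real.log x - Real.log M) / 2) := by ring
      rw [h3, abs_mul]
      refine mul_le_mul_of_nonneg_left ?_ (abs_nonneg _)
      rw [abs_div, abs_two]
      have h4 := abs_nonneg (Real.log x - Real.log M)
      linarith
    have htri : |(∑ b ∈ Icc 1 x, g.eval (b : ℝ) / (b : ℝ) ^ s) - A -
        f.coeff (s - 1) * (Real.log M / 2)| ≤
        |(∑ b ∈ Icc 1 x, g.eval (b : ℝ) / (b : ℝ) ^ s) - A - f.coeff (s - 1) / 2 * Real.log x| +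
        |f.coeff (s - 1) / 2 * Real.log x - f.coeff (s - 1) * (Real.log M / 2)| := by
      refine le_trans (le_of_eq ?_) (abs_add_le _ _)
      congr 1
      ring
    refine htri.trans ?_
    have h7 : 0 ≤ |A| * ((M : ℝ) ^ (d + 1) / (M : ℝ) ^ s) := by positivity
    calc _ ≤ |B| * 3 ^ s * ((M : ℝ) ^ (d + 1) / (M : ℝ) ^ s) +
          |f.coeff (s - 1)| * Real.log 3 * ((M : ℝ) ^ (d + 1) / (M : ℝ) ^ s) :=
          add_le_add (hx.trans hmain) hdiff
      _ ≤ _ := by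
          rw [add_mul, add_mul]
          linarith

theorem main : H572AE.S_ps2 := by
  intro f d s ε hs hε hf
  obtain ⟨A, B, hE⟩ := even f d s hs hf
  have hcases : ε = 0 ∨ ε = 1 := by omega
  rcases hcases with rfl | rfl
  · exact ⟨A, B, hE⟩
  · obtain ⟨A', B', hT⟩ := ps f d s hs hf
    refine ⟨A' - A, B' + B, fun M hM => ?_⟩
    have h1 : ∑ a ∈ (Icc 1 M).filter (fun a => a % 2 = 0), f.eval (a : ℝ) / (a : ℝ) ^ s +
        ∑ a ∈ (Icc 1 M).filter (fun a => a % 2 = 1), f.eval (a : ℝ) / (a : ℝ) ^ s =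
        ∑ a ∈ Icc 1 M, f.eval (a : ℝ) / (a : ℝ) ^ s := by
      rw [← sum_filter_add_sum_filter_not (Icc 1 M) (fun a => a % 2 = 0)]
      congr 1
      refine sum_congr ?_ fun _ _ => rfl
      ext a
      simp only [mem_filter]
      constructor
      · rintro ⟨h2, h3⟩
        exact ⟨h2, by omega⟩
      · rintro ⟨h2, h3⟩
        exact ⟨h2, by omega⟩
    have h2 := hE M hM
    have h3 := hT M hM
    have h4 : (∑ a ∈ (Icc 1 M).filter (fun a => a % 2 = 1), f.eval (a : ℝ) / (a : ℝ) ^ s) -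
        (A' - A) - f.coeff (s - 1) * (Real.log M / 2) =
        ((∑ a ∈ Icc 1 M, f.eval (a : ℝ) / (a : ℝ) ^ s) - A' - f.coeff (s - 1) * Real.log M) -
        ((∑ a ∈ (Icc 1 M).filter (fun a => a % 2 = 0), f.eval (a : ℝ) / (a : ℝ) ^ s) - A -
          f.coeff (s - 1) * (Real.log M / 2)) := by
      rw [← h1]
      ring
    rw [h4, add_mul]
    exact (abs_sub _ _).trans (add_le_add h3 h2)

end H572AE.PS2
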