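import Mathlib
import Pool.Agent.H572.AE.FEO
import Pool.Agent.H572.AE.FEN1
import Pool.Agent.H572.AE.RED2
import Pool.Agent.H572.AE.PHO
import Pool.Agent.H572.AE.NE2
import Pool.Agent.H572.AE.MULP

/-!
# Star graphs with leaves of genus one
-/

set_option autoImplicit false

open Finset Polynomial
open scoped ContDiff

namespace H572AE

/-- The star: the vertex 0 of genus g is joined by one edge to each of n other vertices, of genus 1. All Euler
numbers are 0; the edges have arbitrary signs. -/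
def starGraph (g : ℕ) {n : ℕ} (σ : Fin n → Bool) : W719AEC.PlumbingGraph (n + 1) n where
  genus := Fin.cons g (fun _ => 1)
  euler := fun _ => 0
  src := fun _ => 0
  tgt := Fin.succ
  positive := σ

end H572AE

namespace H572AE.STAR

open W719AEC H572AE.RED2

/-- The sum. -/
noncomputable def TS (A n r : ℕ) : ℝ :=
  ∑ a ∈ (Ico 1 r).filter (fun a => a % 2 = 1), ((r : ℝ) - a) ^ n / Real.sin (Real.pi * a / r) ^ A

theorem sum_cons {n : ℕ} (L : Finset (Fin 2 → ℕ)) (F : (Fin (n + 1) → (Fin 2 → ℕ)) → ℂ) :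
    ∑ x ∈ Fintype.piFinset (fun _ : Fin (n + 1) => L), F x =
      ∑ a ∈ L, ∑ y ∈ Fintype.piFinset (fun _ : Fin n => L), F (Fin.cons a y) := by
  rw [← sum_product']
  refine sum_nbij' (fun x => (x 0, Fin.tail x)) (fun p => Fin.cons p.1 p.2) ?_ ?_ ?_ ?_ ?_
  · intro x hx
    rw [Fintype.mem_piFinset] at hx
    refine mem_product.2 ⟨hx 0, ?_⟩
    rw [Fintype.mem_piFinset]
    intro i
    exact hx i.succ
  · intro p hp
    rw [mem_product] at hp
    rw [Fintype.mem_piFinset]
    intro i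
    refine Fin.cases ?_ (fun j => ?_) i
    · simpa using hp.1
    · simpa using (Fintype.mem_piFinset.1 hp.2) j
  · intro x _
    exact Fin.cons_self_tail x
  · intro p _
    simp
  · intro x _
    simp [Fin.cons_self_tail]

theorem RO_one {r a : ℕ} (hr : 1 ≤ r) (ha : a % 2 = 1) (har : a < r) : RO 1 r a = (r : ℝ) - a := by
  rw [PHO.main 1 r a (by norm_num) hr ha (by omega)]
  simp [VO]

theorem leaf (r a : ℕ) (hr : 2 ≤ r) : ∑ b ∈ Ico 1 r, ((Sr r 1 b : ℝ) : ℂ) ^ (-1 : ℤ) * ((Sr r a b : ℝ) : ℂ) =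
    ((RO 1 r a : ℝ) : ℂ) := by
  unfold RO
  rw [Complex.ofReal_sum]
  refine Finset.sum_congr rfl fun b hb => ?_
  have hs : 0 < Real.sqrt ((r : ℝ) / 2) := by
    apply Real.sqrt_pos.2
    have : (0 : ℝ) < r := by exact_mod_cast (by omega : 0 < r)
    linarith
  rw [zpow_neg_one, ← Complex.ofReal_inv, ← Complex.ofReal_mul, Sr_eq, Sr_eq]
  congr 1
  have h1 := PHO.sin_ne hb
  have h2 : Real.sin (Real.pi * ((1 : ℕ) : ℝ) * b / r) = Real.sin (Real.pi * b / r) := by
    rw [Nat.cast_one, mul_one]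
  rw [h2, show 2 * 1 - 1 = 1 by norm_num, pow_one]
  field_simp

theorem state (g n : ℕ) (σ : Fin n → Bool) (r : ℕ) (hr : 2 ≤ r) (hn : 1 ≤ n) (hg : 2 ≤ 2 * g + n) :
    (starGraph g σ).Z 2 r =
      (((Real.sqrt ((r : ℝ) / 2) ^ (2 * g + n - 2) * TS (2 * g + n - 2) n r : ℝ)) : ℂ) := by
  have ht : triv 2 = ![0, 1] := by
    funext i
    fin_cases i <;> rfl
  have hd0 : (starGraph g σ).degree 0 = n := by
    have h1 : (univ.filter fun e : Fin n => (starGraph g σ).src e = 0) = univ := by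
      ext e; simp [starGraph]
    have h2 : (univ.filter fun e : Fin n => (starGraph g σ).tgt e = 0) = ∅ := by
      ext e; simp [starGraph, Fin.succ_ne_zero]
    unfold PlumbingGraph.degree
    rw [h1, h2]; simp
  have hd1 : ∀ i : Fin n, (starGraph g σ).degree i.succ = 1 := by
    intro i
    have h1 : (univ.filter fun e : Fin n => (starGraph g σ).src e = i.succ) = ∅ := by
      ext e; simp [starGraph, (Fin.succ_ne_zero i).symm]
    have h2 : (univ.filter fun e : Fin n => (starGraph g σ).tgt e = i.succ) = {i} := by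
      ext e; simp [starGraph]
    unfold PlumbingGraph.degree
    rw [h1, h2]; simp
  unfold PlumbingGraph.Z
  rw [sum_cons, sum_labels]
  have key : ∀ a ∈ Ico 1 r, ∑ y ∈ Fintype.piFinset (fun _ : Fin n => labels 2 r),
      (∏ v, twist 2 r ((Fin.cons ![0, a] y : Fin (n + 1) → Fin 2 → ℕ) v) ^ (starGraph g σ).euler v *
        Smat 2 r (triv 2) ((Fin.cons ![0, a] y : Fin (n + 1) → Fin 2 → ℕ) v) ^
          (2 - 2 * ((starGraph g σ).genus v : ℤ) - ((starGraph g σ).degree v : ℤ))) *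
      ∏ e, (if (starGraph g σ).positive e then
        Smat 2 r ((Fin.cons ![0, a] y : Fin (n + 1) → Fin 2 → ℕ) ((starGraph g σ).src e))
          ((Fin.cons ![0, a] y : Fin (n + 1) → Fin 2 → ℕ) ((starGraph g σ).tgt e))
        else (starRingEnd ℂ) (Smat 2 r ((Fin.cons ![0, a] y : Fin (n + 1) → Fin 2 → ℕ) ((starGraph g σ).src e))
          ((Fin.cons ![0, a] y : Fin (n + 1) → Fin 2 → ℕ) ((starGraph g σ).tgt e)))) =
      ((Sr r 1 a : ℝ) : ℂ) ^ (2 - 2 * (g : ℤ) - (n : ℤ)) * ((RO 1 r a : ℝ) : ℂ) ^ n := by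
    intro a _
    have h1 : ∀ y ∈ Fintype.piFinset (fun _ : Fin n => labels 2 r),
      (∏ v, twist 2 r ((Fin.cons ![0, a] y : Fin (n + 1) → Fin 2 → ℕ) v) ^ (starGraph g σ).euler v *
        Smat 2 r (triv 2) ((Fin.cons ![0, a] y : Fin (n + 1) → Fin 2 → ℕ) v) ^
          (2 - 2 * ((starGraph g σ).genus v : ℤ) - ((starGraph g σ).degree v : ℤ))) *
      ∏ e, (if (starGraph g σ).positive e then
        Smat 2 r ((Fin.cons ![0, a] y : Fin (n + 1) → Fin 2 → ℕ) ((starGraph g σ).src e))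
          ((Fin.cons ![0, a] y : Fin (n + 1) → Fin 2 → ℕ) ((starGraph g σ).tgt e))
        else (starRingEnd ℂ) (Smat 2 r ((Fin.cons ![0, a] y : Fin (n + 1) → Fin 2 → ℕ) ((starGraph g σ).src e))
          ((Fin.cons ![0, a] y : Fin (n + 1) → Fin 2 → ℕ) ((starGraph g σ).tgt e)))) =
        ((Sr r 1 a : ℝ) : ℂ) ^ (2 - 2 * (g : ℤ) - (n : ℤ)) *
          ∏ i, (Smat 2 r ![0, 1] (y i) ^ (-1 : ℤ) * (if σ i then Smat 2 r ![0, a] (y i) else
            (starRingEnd ℂ) (Smat 2 r ![0, a] (y i)))) := by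
      intro y _
      rw [Fin.prod_univ_succ, hd0]
      have e0 : (starGraph g σ).euler 0 = 0 := rfl
      have g0 : (starGraph g σ).genus 0 = g := rfl
      rw [e0, g0, zpow_zero, one_mul, Fin.cons_zero, ht, Smat_eq r 1 a hr, mul_assoc]
      congr 1
      rw [← Finset.prod_mul_distrib]
      refine Finset.prod_congr rfl fun i _ => ?_
      have e1 : (starGraph g σ).euler i.succ = 0 := rfl
      have g1 : (starGraph g σ).genus i.succ = 1 := rfl
      have s1 : (starGraph g σ).src i = 0 := rfl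
      have t1 : (starGraph g σ).tgt i = i.succ := rfl
      have p1 : (starGraph g σ).positive i = σ i := rfl
      rw [e1, g1, s1, t1, p1, hd1 i, zpow_zero, one_mul, Fin.cons_succ, Fin.cons_zero]
      norm_num
    rw [Finset.sum_congr rfl h1, ← Finset.mul_sum]
    congr 1
    rw [← Finset.prod_univ_sum (fun _ : Fin n => labels 2 r) (fun i z => Smat 2 r ![0, 1] z ^ (-1 : ℤ) *
      (if σ i then Smat 2 r ![0, a] z else (starRingEnd ℂ) (Smat 2 r ![0, a] z)))]
    have h2 : ∀ i : Fin n, ∑ z ∈ labels 2 r, Smat 2 r ![0, 1] z ^ (-1 : ℤ) *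
      (if σ i then Smat 2 r ![0, a] z else (starRingEnd ℂ) (Smat 2 r ![0, a] z)) = ((RO 1 r a : ℝ) : ℂ) := by
      intro i
      rw [sum_labels, ← leaf r a hr]
      refine Finset.sum_congr rfl fun b _ => ?_
      rw [Smat_eq r 1 b hr, Smat_eq r a b hr, edge]
    rw [Finset.prod_congr rfl fun i _ => h2 i, prod_const, card_univ, Fintype.card_fin]
  rw [Finset.sum_congr rfl key]
  unfold TS
  rw [Finset.mul_sum, Complex.ofReal_sum]
  symm
  refine Finset.sum_subset_zero_on_sdiff (filter_subset _ _) ?_ ?_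
  · intro a ha
    rw [mem_sdiff, mem_filter] at ha
    have h3 : a % 2 = 0 := by
      by_contra hcon
      exact ha.2 ⟨ha.1, by omega⟩
    rw [ASYO.RO_even 1 r a h3, Complex.ofReal_zero, zero_pow (by omega), mul_zero]
  · intro a ha
    have ha' := mem_filter.1 ha
    have hb := mem_Ico.1 ha'.1
    rw [Sr_zpow r a g n hg, RO_one (by omega) ha'.2 hb.2, ← Complex.ofReal_pow, ← Complex.ofReal_mul]
    congr 1
    ring

end H572AE.STAR
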