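import Mathlib
import Pool.Agent.H572.AE.STAR
import Pool.Agent.H572.AE.Main

/-!
# Star graphs with leaves of genus one: the expansion
-/

set_option autoImplicit false

open Finset Polynomial
open scoped ContDiff

namespace H572AE.STAR

theorem mem_odd {r a : ℕ} (ha : a ∈ (Ico 1 r).filter (fun a => a % 2 = 1)) :
    (0 : ℝ) < a ∧ (0 : ℝ) < (r : ℝ) - a ∧ (0 : ℝ) < r ∧ a < r := by
  have h1 := mem_Ico.1 (mem_filter.1 ha).1
  have h2 : (a : ℝ) < r := by exact_mod_cast h1.2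
  have h3 : (0 : ℝ) < a := by exact_mod_cast (by omega : 0 < a)
  exact ⟨h3, by linarith, by linarith, h1.2⟩

theorem near1 (h2 : S_fe2o) (n e : ℕ) (he : 1 ≤ e) :
    FEN 2 (e + n) (fun r => (r : ℝ) ^ e * (∑ a ∈ (Ico 1 r).filter (fun a => a % 2 = 1),
      ((r : ℝ) - a) ^ n / (a : ℝ) ^ e) -
      ((-1) ^ (e - 1) * (n.choose (e - 1) : ℝ) / 2) * (r : ℝ) ^ (n + 1) * Real.log r) := by
  have A1 : FEN 2 (e + n) (fun r => ∑ i ∈ range (n + 1),
      (C ((-1) ^ i * (n.choose i : ℝ)) * X ^ (e + n - i) : ℝ[X]).eval (r : ℝ) *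
        ((∑ a ∈ (Ico 1 r).filter (fun a => a % 2 = 1), (a : ℝ) ^ i / (a : ℝ) ^ e) -
          (if i + 1 = e then Real.log r / 2 else 0))) := by
    refine FEN.sum _ fun i hi => ?_
    have hi' := mem_range.mp hi
    refine ((FEO.Wo h2 1 (by norm_num) i e he).mulpoly _ (natDegree_C_mul_X_pow_le _ _)).mono ?_
    split_ifs <;> omega
  refine A1.congr fun r hr => ?_
  have hr0 : (0 : ℝ) < r := by exact_mod_cast (by omega : 0 < r)
  simp only [mul_sub, Finset.sum_sub_distrib]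
  congr 1
  · rw [Finset.mul_sum]
    have h3 : ∀ a ∈ (Ico 1 r).filter (fun a => a % 2 = 1), (r : ℝ) ^ e * (((r : ℝ) - a) ^ n / (a : ℝ) ^ e) =
        ∑ i ∈ range (n + 1), (C ((-1) ^ i * (n.choose i : ℝ)) * X ^ (e + n - i) : ℝ[X]).eval (r : ℝ) *
          ((a : ℝ) ^ i / (a : ℝ) ^ e) := by
      intro a _
      rw [show (r : ℝ) - a = -(a : ℝ) + r by ring, add_pow, Finset.sum_div, Finset.mul_sum]
      refine Finset.sum_congr rfl fun i hi => ?_
      have hi' := mem_range.mp hi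
      simp only [eval_mul, eval_C, eval_pow, eval_X]
      rw [show e + n - i = e + (n - i) by omega, pow_add, neg_pow (a : ℝ) i]
      ring
    rw [Finset.sum_congr rfl h3, Finset.sum_comm]
    refine Finset.sum_congr rfl fun i _ => ?_
    rw [Finset.mul_sum]
  · by_cases hen : e - 1 ≤ n
    · rw [Finset.sum_eq_single (e - 1)]
      · rw [if_pos (by omega)]
        simp only [eval_mul, eval_C, eval_pow, eval_X]
        rw [show e + n - (e - 1) = n + 1 by omega]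
        ring
      · intro i _ hi
        rw [if_neg (by omega), mul_zero]
      · intro h
        exact absurd (mem_range.mpr (by omega)) h
    · rw [Nat.choose_eq_zero_of_lt (by omega)]
      simp only [Nat.cast_zero, mul_zero, zero_div, zero_mul]
      refine Finset.sum_eq_zero fun i hi => ?_
      have hi' := mem_range.mp hi
      rw [if_neg (by omega), mul_zero]

theorem far1 (h2 : S_fe2o) (n e : ℕ) (he : 1 ≤ e) (hpar : (e + n) % 2 = 0) :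
    FEN 2 (e + n) (fun r => (r : ℝ) ^ e * (∑ a ∈ (Ico 1 r).filter (fun a => a % 2 = 1),
      ((r : ℝ) - a) ^ n / ((r : ℝ) - a) ^ e)) := by
  have A0 : ∀ ε : ℕ, ε < 2 → FEN 2 (e + n) (fun r => (r : ℝ) ^ e *
      (∑ a ∈ (Ico 1 r).filter (fun a => a % 2 = ε), (a : ℝ) ^ n / (a : ℝ) ^ e)) := by
    intro ε hε
    have h3 : FEN 2 (e + n) (fun r => (X ^ e : ℝ[X]).eval (r : ℝ) *
      ((∑ a ∈ (Ico 1 r).filter (fun a => a % 2 = ε), (a : ℝ) ^ n / (a : ℝ) ^ e) -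
        (if n + 1 = e then Real.log r / 2 else 0))) := by
      refine ((FEO.Wo h2 ε hε n e he).mulpoly _ (natDegree_X_pow_le _)).mono ?_
      split_ifs <;> omega
    refine h3.congr fun r _ => ?_
    rw [if_neg (by omega), sub_zero, eval_pow, eval_X]
  refine ((A0 1 (by norm_num)).ite2 (A0 0 (by norm_num)) (dvd_refl 2)).congr fun r _ => ?_
  have h4 : ∑ a ∈ (Ico 1 r).filter (fun a => a % 2 = 1), ((r : ℝ) - a) ^ n / ((r : ℝ) - a) ^ e =
      ∑ a ∈ (Ico 1 r).filter (fun a => a % 2 = (if r % 2 = 0 then 1 else 0)), (a : ℝ) ^ n / (a : ℝ) ^ e := by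
    rw [← FEO.reflect_odd r (fun a : ℕ => (a : ℝ) ^ n / (a : ℝ) ^ e)]
    refine Finset.sum_congr rfl fun a ha => ?_
    rw [Nat.cast_sub (mem_odd ha).2.2.2.le]
  rw [h4]
  split_ifs <;> rfl

theorem smooth1 (hgeo : S_geo) (n : ℕ) (R : ℝ → ℝ) (hR : ContDiffOn ℝ ∞ R (Set.Ioo (-1) 2)) :
    FEN 2 (1 + n) (fun r => ∑ a ∈ (Ico 1 r).filter (fun a => a % 2 = 1),
      ((r : ℝ) - a) ^ n * R ((a : ℝ) / r)) := by
  have hsm : ContDiffOn ℝ ∞ (fun x : ℝ => (1 - x) ^ n * R x)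
      (Set.Ioo (((0 : ℕ) : ℝ) / ((1 : ℕ) : ℝ) - 1 / 2) ((((0 : ℕ) : ℝ) + 1) / ((1 : ℕ) : ℝ) + 1 / 2)) := by
    refine ContDiffOn.mul ((contDiff_const.sub contDiff_id).pow n).contDiffOn (hR.mono fun x hx => ?_)
    have hx' := Set.mem_Ioo.mp hx
    norm_num at hx'
    exact Set.mem_Ioo.mpr ⟨by linarith [hx'.1], by linarith [hx'.2]⟩
  have h1 := (hgeo 1 0 (1 / 2) _ le_rfl (by norm_num) (by norm_num) hsm).mulpow n
  refine h1.congr fun r hr => ?_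
  have hr0 : (0 : ℝ) < r := by exact_mod_cast (by omega : 0 < r)
  have h2 : (range r).filter (fun a => a % 2 = 1 ∧ 0 * r ≤ 1 * a ∧ 1 * a < (0 + 1) * r) =
      (Ico 1 r).filter (fun a => a % 2 = 1) := by
    ext a
    simp only [mem_filter, mem_range, mem_Ico]
    omega
  rw [h2, Finset.mul_sum]
  refine Finset.sum_congr rfl fun a ha => ?_
  have h3 : (r : ℝ) - a = r * (1 - (a : ℝ) / r) := by field_simp
  rw [h3, mul_pow]
  ring

theorem core (h2 : S_fe2o) (hgeo : S_geo) (n A G : ℕ) (e : ℕ → ℕ) (hA : 1 ≤ A)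
    (he : ∀ s ∈ Icc 1 G, 1 ≤ e s ∧ e s ≤ A ∧ (e s + n) % 2 = 0) (c : ℕ → ℝ) (R : ℝ → ℝ)
    (hR : ContDiffOn ℝ ∞ R (Set.Ioo (-1) 2))
    (hc : ∀ x : ℝ, 0 < x → x < 1 → 1 / Real.sin (Real.pi * x) ^ A =
      (∑ s ∈ Icc 1 G, c s * (1 / (Real.pi * x) ^ (e s) + 1 / (Real.pi * (1 - x)) ^ (e s))) + R x) :
    FEN 2 (A + n) (fun r => TS A n r -
      (∑ s ∈ Icc 1 G, c s / Real.pi ^ (e s) * ((-1) ^ (e s - 1) * (n.choose (e s - 1) : ℝ) / 2)) *
        (r : ℝ) ^ (n + 1) * Real.log r) := by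
  have A1 := FEN.sum (N := 2) (d := A + n) (Icc 1 G) (F := fun s r => c s / Real.pi ^ (e s) *
      ((r : ℝ) ^ (e s) * (∑ a ∈ (Ico 1 r).filter (fun a => a % 2 = 1), ((r : ℝ) - a) ^ n / (a : ℝ) ^ (e s)) -
      ((-1) ^ (e s - 1) * (n.choose (e s - 1) : ℝ) / 2) * (r : ℝ) ^ (n + 1) * Real.log r))
    (fun s hs => ((near1 h2 n (e s) (he s hs).1).cmul _).mono (by have := he s hs; omega))
  have A2 := FEN.sum (N := 2) (d := A + n) (Icc 1 G) (F := fun s r => c s / Real.pi ^ (e s) *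
      ((r : ℝ) ^ (e s) * (∑ a ∈ (Ico 1 r).filter (fun a => a % 2 = 1),
        ((r : ℝ) - a) ^ n / ((r : ℝ) - a) ^ (e s))))
    (fun s hs => ((far1 h2 n (e s) (he s hs).1 (he s hs).2.2).cmul _).mono
      (by have := he s hs; omega))
  have A3 := (smooth1 hgeo n R hR).mono (d' := A + n) (by omega)
  refine ((A1.add A2).add A3).congr fun r hr => ?_
  have hr0 : (0 : ℝ) < r := by exact_mod_cast (by omega : 0 < r)
  have hpi := Real.pi_pos
  unfold TS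
  have h3 : ∀ a ∈ (Ico 1 r).filter (fun a => a % 2 = 1), ((r : ℝ) - a) ^ n / Real.sin (Real.pi * a / r) ^ A =
      (∑ s ∈ Icc 1 G, c s / Real.pi ^ (e s) * ((r : ℝ) ^ (e s) * (((r : ℝ) - a) ^ n / (a : ℝ) ^ (e s)))) +
      (∑ s ∈ Icc 1 G, c s / Real.pi ^ (e s) * ((r : ℝ) ^ (e s) *
        (((r : ℝ) - a) ^ n / ((r : ℝ) - a) ^ (e s)))) + ((r : ℝ) - a) ^ n * R ((a : ℝ) / r) := by
    intro a ha
    obtain ⟨ha0, hra, -, -⟩ := mem_odd ha
    have h10 := hc ((a : ℝ) / r) (by positivity) (by rw [div_lt_one hr0]; linarith)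
    have h11 : Real.pi * ((a : ℝ) / r) = Real.pi * a / r := by ring
    rw [h11] at h10
    rw [div_eq_mul_one_div, h10, mul_add, Finset.mul_sum, ← Finset.sum_add_distrib]
    congr 1
    refine Finset.sum_congr rfl fun s _ => ?_
    have h12 : Real.pi * (1 - (a : ℝ) / r) = Real.pi * ((r : ℝ) - a) / r := by field_simp
    rw [h12, div_pow, div_pow, mul_pow, mul_pow]
    field_simp
  rw [Finset.sum_congr rfl h3, Finset.sum_add_distrib, Finset.sum_add_distrib, Finset.sum_comm,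
    Finset.sum_comm (s := (Ico 1 r).filter (fun a => a % 2 = 1)) (t := Icc 1 G)]
  have h20 : ∑ s ∈ Icc 1 G, ∑ a ∈ (Ico 1 r).filter (fun a => a % 2 = 1), c s / Real.pi ^ (e s) *
      ((r : ℝ) ^ (e s) * (((r : ℝ) - a) ^ n / (a : ℝ) ^ (e s))) =
      ∑ s ∈ Icc 1 G, c s / Real.pi ^ (e s) * ((r : ℝ) ^ (e s) *
        (∑ a ∈ (Ico 1 r).filter (fun a => a % 2 = 1), ((r : ℝ) - a) ^ n / (a : ℝ) ^ (e s))) := by
    refine Finset.sum_congr rfl fun s _ => ?_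
    rw [← Finset.mul_sum, ← Finset.mul_sum]
  have h21 : ∑ s ∈ Icc 1 G, ∑ a ∈ (Ico 1 r).filter (fun a => a % 2 = 1), c s / Real.pi ^ (e s) *
      ((r : ℝ) ^ (e s) * (((r : ℝ) - a) ^ n / ((r : ℝ) - a) ^ (e s))) =
      ∑ s ∈ Icc 1 G, c s / Real.pi ^ (e s) * ((r : ℝ) ^ (e s) *
        (∑ a ∈ (Ico 1 r).filter (fun a => a % 2 = 1), ((r : ℝ) - a) ^ n / ((r : ℝ) - a) ^ (e s))) := by
    refine Finset.sum_congr rfl fun s _ => ?_
    rw [← Finset.mul_sum, ← Finset.mul_sum]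
  rw [h20, h21]
  simp only [mul_sub, Finset.sum_sub_distrib, Finset.sum_mul]
  have h22 : ∀ s, c s / Real.pi ^ (e s) * ((-1) ^ (e s - 1) * (n.choose (e s - 1) : ℝ) / 2 * (r : ℝ) ^ (n + 1) *
      Real.log r) = c s / Real.pi ^ (e s) * ((-1) ^ (e s - 1) * (n.choose (e s - 1) : ℝ) / 2) *
      (r : ℝ) ^ (n + 1) * Real.log r := by
    intro s; ring
  simp only [h22]
  ring

/-- The constant has the sign of (-1)^(n-1). -/
theorem kappa (n A G : ℕ) (e : ℕ → ℕ) (he : ∀ s ∈ Icc 1 G, 1 ≤ e s ∧ e s ≤ A ∧ (e s + n) % 2 = 0)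
    (c : ℕ → ℝ) (hc : ∀ s ∈ Icc 1 G, 0 < c s) (s₀ : ℕ) (hs₀ : s₀ ∈ Icc 1 G) (hn : e s₀ - 1 ≤ n) :
    (∑ s ∈ Icc 1 G, c s / Real.pi ^ (e s) * ((-1) ^ (e s - 1) * (n.choose (e s - 1) : ℝ) / 2)) ≠ 0 := by
  have hpi := Real.pi_pos
  have h1 : (∑ s ∈ Icc 1 G, c s / Real.pi ^ (e s) * ((-1) ^ (e s - 1) * (n.choose (e s - 1) : ℝ) / 2)) =
      (-1) ^ (n + 1) * ∑ s ∈ Icc 1 G, c s / Real.pi ^ (e s) * ((n.choose (e s - 1) : ℝ) / 2) := by
    rw [Finset.mul_sum]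
    refine Finset.sum_congr rfl fun s hs => ?_
    obtain ⟨h2, -, h3⟩ := he s hs
    have h4 : (-1 : ℝ) ^ (e s - 1) = (-1) ^ (n + 1) := by
      rcases Nat.even_or_odd (n + 1) with h5 | h5
      · rw [h5.neg_one_pow, Even.neg_one_pow]
        rw [Nat.even_iff] at h5 ⊢; omega
      · rw [h5.neg_one_pow, Odd.neg_one_pow]
        rw [Nat.odd_iff] at h5 ⊢; omega
    rw [h4]; ring
  rw [h1]
  refine mul_ne_zero (pow_ne_zero _ (by norm_num)) (ne_of_gt ?_)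
  refine Finset.sum_pos' (fun s hs => ?_) ⟨s₀, hs₀, ?_⟩
  · have := hc s hs; positivity
  · have h2 := hc s₀ hs₀
    have h3 : (0 : ℝ) < (n.choose (e s₀ - 1) : ℝ) := by exact_mod_cast Nat.choose_pos hn
    positivity

theorem expansion (h2 : S_fe2o) (h4 : S_fe4) (h4o : S_fe4o) (hgeo : S_geo) (g n : ℕ) (hn : 1 ≤ n)
    (hg : 3 ≤ 2 * g + n) : ∃ K : ℝ, K ≠ 0 ∧
      FEN 2 (2 * g + 2 * n - 2) (fun r => TS (2 * g + n - 2) n r - K * (r : ℝ) ^ (n + 1) * Real.log r) := by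
  rcases Nat.even_or_odd' n with ⟨k, hk | hk⟩
  · -- n even
    obtain ⟨c, hc, R, hR, hcR⟩ := h4 (g + k - 1) (by omega)
    have he : ∀ s ∈ Icc 1 (g + k - 1), 1 ≤ 2 * s ∧ 2 * s ≤ 2 * (g + k - 1) ∧ (2 * s + n) % 2 = 0 := by
      intro s hs
      have := mem_Icc.mp hs
      omega
    have h5 := core h2 hgeo n (2 * (g + k - 1)) (g + k - 1) (fun s => 2 * s) (by omega) he c R hR hcR
    have h6 := kappa n (2 * (g + k - 1)) (g + k - 1) (fun s => 2 * s) he c hc 1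
      (mem_Icc.mpr ⟨le_rfl, by omega⟩) (by omega)
    refine ⟨_, h6, ?_⟩
    rw [show 2 * g + n - 2 = 2 * (g + k - 1) by omega,
      show 2 * g + 2 * n - 2 = 2 * (g + k - 1) + n by omega]
    exact h5
  · -- n odd
    obtain ⟨c, hc, R, hR, hcR⟩ := h4o (g + k) (by omega)
    have he : ∀ s ∈ Icc 1 (g + k), 1 ≤ 2 * s - 1 ∧ 2 * s - 1 ≤ 2 * (g + k) - 1 ∧ (2 * s - 1 + n) % 2 = 0 := by
      intro s hs
      have := mem_Icc.mp hs
      omega
    have h5 := core h2 hgeo n (2 * (g + k) - 1) (g + k) (fun s => 2 * s - 1) (by omega) he c R hR hcR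
    have h6 := kappa n (2 * (g + k) - 1) (g + k) (fun s => 2 * s - 1) he c hc 1
      (mem_Icc.mpr ⟨le_rfl, by omega⟩) (by omega)
    refine ⟨_, h6, ?_⟩
    rw [show 2 * g + n - 2 = 2 * (g + k) - 1 by omega,
      show 2 * g + 2 * n - 2 = 2 * (g + k) - 1 + n by omega]
    exact h5

end H572AE.STAR
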