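import Mathlib
import Pool.Agent.H572.AE.STAR2
import Pool.Agent.H572.AE.Main

/-!
# Star graphs with leaves of genus one: the classification
-/

set_option autoImplicit false

open Finset Polynomial

namespace H572AE.STAR

open W719AEC

/-- No expansion, general form. -/
theorem no_exp_gen (z : ℤ) (T : ℕ → ℝ) (P Q : ℝ[X]) (K B : ℝ) (q : ℕ) (hK : K ≠ 0)
    (hB : ∀ n : ℕ, 2 ≤ n → |T n - (P.eval (n : ℝ) + (-1) ^ n * Q.eval (n : ℝ) +
      K * (n : ℝ) ^ q * Real.log n)| ≤ B * (n : ℝ) ^ q) (Z : ℕ → ℂ)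
    (hZ : ∀ r : ℕ, 2 ≤ r → Z r = (((Real.sqrt ((r : ℝ) / 2) ^ z * T r : ℝ)) : ℂ))
    (ω : ℕ → ℂ) (hω : ∀ k, ‖ω k‖ = 1) : ¬ H524R3.HasExpansion 2 (fun k => ω k * Z (k + 2)) := by
  intro hexp
  have h1 := MULP.main 2 (-((z : ℝ) / 2)) _ hexp (by norm_num)
  set κ : ℝ := Real.sqrt 2 ^ (-z) with hκ
  have hκ0 : 0 < κ := by positivity
  have h2 := NE2.main (fun n => κ * T n) (C κ * P) (C κ * Q) (κ * K)
    (κ * B) q (mul_ne_zero hκ0.ne' hK) (by
      intro n hn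
      have e1 : κ * T n - ((C κ * P).eval (n : ℝ) +
          (-1) ^ n * (C κ * Q).eval (n : ℝ) + κ * K * (n : ℝ) ^ q * Real.log n) =
          κ * (T n - (P.eval (n : ℝ) +
          (-1) ^ n * Q.eval (n : ℝ) + K * (n : ℝ) ^ q * Real.log n)) := by
        rw [eval_mul, eval_mul, eval_C]; ring
      rw [e1, abs_mul, abs_of_pos hκ0, mul_assoc κ B]
      exact mul_le_mul_of_nonneg_left (hB n hn) hκ0.le) ω hω
  apply h2
  have e3 : (fun k : ℕ => ω k * ((κ * T (k + 2) : ℝ) : ℂ)) =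
      (fun k : ℕ => (((((k + 2 : ℕ) : ℝ) ^ (-((z : ℝ) / 2)) : ℝ)) : ℂ) * (ω k * Z (k + 2))) := by
    funext k
    have hk0 : (0 : ℝ) < ((k + 2 : ℕ) : ℝ) := by exact_mod_cast (by omega : 0 < k + 2)
    rw [hZ (k + 2) (by omega), MAIN.sqrt_zpow z _ hk0, ← hκ]
    have e4 : ((k + 2 : ℕ) : ℝ) ^ (-((z : ℝ) / 2)) * ((k + 2 : ℕ) : ℝ) ^ ((z : ℝ) / 2) = 1 := by
      rw [← Real.rpow_add hk0]; simp
    have e5 : (κ * T (k + 2) : ℝ) =
        ((k + 2 : ℕ) : ℝ) ^ (-((z : ℝ) / 2)) * (κ * ((k + 2 : ℕ) : ℝ) ^ ((z : ℝ) / 2) * T (k + 2)) := by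
      calc (κ * T (k + 2) : ℝ) =
          (((k + 2 : ℕ) : ℝ) ^ (-((z : ℝ) / 2)) * ((k + 2 : ℕ) : ℝ) ^ ((z : ℝ) / 2)) *
            (κ * T (k + 2)) := by rw [e4, one_mul]
        _ = _ := by ring
    rw [e5, Complex.ofReal_mul]
    ring
  rw [e3]
  exact h1

/-- From the full expansion to three terms. -/
theorem three_terms (D q : ℕ) (hq : q ≤ D) (T : ℕ → ℝ) (K : ℝ)
    (h : FEN 2 D (fun r => T r - K * (r : ℝ) ^ q * Real.log r)) : ∃ (P Q : ℝ[X]) (B : ℝ),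
    ∀ n : ℕ, 2 ≤ n → |T n - (P.eval (n : ℝ) + (-1) ^ n * Q.eval (n : ℝ) +
      K * (n : ℝ) ^ q * Real.log n)| ≤ B * (n : ℝ) ^ q := by
  obtain ⟨c, hc⟩ := h
  obtain ⟨B, hB⟩ := hc (D - q)
  refine ⟨∑ l ∈ range (D - q), C ((c 0 l + c 1 l) / 2) * X ^ (D - l),
    ∑ l ∈ range (D - q), C ((c 0 l - c 1 l) / 2) * X ^ (D - l), B, fun n hn => ?_⟩
  have h1 := hB n (by omega)
  have e0 : (D : ℤ) - ((D - q : ℕ) : ℤ) = (q : ℤ) := by omega
  rw [e0, zpow_natCast] at h1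
  have e1 : ∑ l ∈ range (D - q), c (n % 2) l * (n : ℝ) ^ ((D : ℤ) - (l : ℤ)) =
      (∑ l ∈ range (D - q), C ((c 0 l + c 1 l) / 2) * X ^ (D - l) : ℝ[X]).eval (n : ℝ) +
      (-1) ^ n * (∑ l ∈ range (D - q), C ((c 0 l - c 1 l) / 2) * X ^ (D - l) : ℝ[X]).eval (n : ℝ) := by
    rw [eval_finsetSum, eval_finsetSum, Finset.mul_sum, ← Finset.sum_add_distrib]
    refine Finset.sum_congr rfl fun l hl => ?_
    have hl' := mem_range.mp hl
    have e2 : (D : ℤ) - (l : ℤ) = ((D - l : ℕ) : ℤ) := by omega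
    rw [e2, zpow_natCast]
    simp only [eval_mul, eval_C, eval_pow, eval_X]
    rcases Nat.even_or_odd n with he | ho
    · rw [he.neg_one_pow, Nat.even_iff.mp he]; ring
    · rw [ho.neg_one_pow, Nat.odd_iff.mp ho]; ring
  rw [e1] at h1
  have e3 : T n - ((∑ l ∈ range (D - q), C ((c 0 l + c 1 l) / 2) * X ^ (D - l) : ℝ[X]).eval (n : ℝ) +
      (-1) ^ n * (∑ l ∈ range (D - q), C ((c 0 l - c 1 l) / 2) * X ^ (D - l) : ℝ[X]).eval (n : ℝ) +
      K * (n : ℝ) ^ q * Real.log n) = T n - K * (n : ℝ) ^ q * Real.log n -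
      ((∑ l ∈ range (D - q), C ((c 0 l + c 1 l) / 2) * X ^ (D - l) : ℝ[X]).eval (n : ℝ) +
      (-1) ^ n * (∑ l ∈ range (D - q), C ((c 0 l - c 1 l) / 2) * X ^ (D - l) : ℝ[X]).eval (n : ℝ)) := by ring
  rw [e3]
  exact h1

/-- Sums of squares over a parity class. -/
theorem squares (r : ℕ) : ∑ c ∈ (range r).filter (fun c => (c + r) % 2 = 1), (c : ℝ) ^ 2 =
    (r : ℝ) * ((r : ℝ) ^ 2 - 1) / 6 := by
  have key : ∀ r : ℕ, (∑ c ∈ (range r).filter (fun c => (c + r) % 2 = 1), (c : ℝ) ^ 2 =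
      (r : ℝ) * ((r : ℝ) ^ 2 - 1) / 6) ∧
      (∑ c ∈ (range (r + 1)).filter (fun c => (c + (r + 1)) % 2 = 1), (c : ℝ) ^ 2 =
      ((r + 1 : ℕ) : ℝ) * (((r + 1 : ℕ) : ℝ) ^ 2 - 1) / 6) := by
    intro r
    induction r with
    | zero =>
      constructor
      · simp
      · have h1 : (range (0 + 1)).filter (fun c => (c + (0 + 1)) % 2 = 1) = {0} := by decide
        rw [h1]; simp
    | succ r ih =>
      refine ⟨ih.2, ?_⟩
      have h1 : (range (r + 1 + 1)).filter (fun c => (c + (r + 1 + 1)) % 2 = 1) =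
          insert (r + 1) ((range r).filter (fun c => (c + r) % 2 = 1)) := by
        ext c
        simp only [mem_filter, mem_range, mem_insert]
        omega
      have h2 : (r + 1) ∉ (range r).filter (fun c => (c + r) % 2 = 1) := by
        simp only [mem_filter, mem_range]
        omega
      rw [h1, Finset.sum_insert h2, ih.1]
      push_cast
      ring
  exact (key r).1

theorem pos_two (σ : Fin 2 → Bool) : H524R3.HasExpansion 2 (fun k => (starGraph 0 σ).Z 2 (k + 2)) := by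
  have h1 : (fun k => (starGraph 0 σ).Z 2 (k + 2)) = fun k : ℕ =>
      (((C (1 / 6) * (X * (X ^ 2 - 1)) : ℝ[X]).eval ((k + 2 : ℕ) : ℝ) : ℝ) : ℂ) := by
    funext k
    rw [state 0 2 σ (k + 2) (by omega) (by norm_num) (by norm_num)]
    congr 1
    simp only [eval_mul, eval_C, eval_X, eval_sub, eval_pow, eval_one]
    unfold TS
    have h2 := FEO.reflect_odd (k + 2) (fun a : ℕ => (a : ℝ) ^ 2)
    have h3 : ∑ a ∈ (Ico 1 (k + 2)).filter (fun a => a % 2 = 1),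
        (((k + 2 : ℕ) : ℝ) - a) ^ 2 / Real.sin (Real.pi * a / ((k + 2 : ℕ) : ℝ)) ^ (2 * 0 + 2 - 2) =
        ∑ a ∈ (Ico 1 (k + 2)).filter (fun a => a % 2 = 1), ((k + 2 - a : ℕ) : ℝ) ^ 2 := by
      refine Finset.sum_congr rfl fun a ha => ?_
      rw [Nat.cast_sub (mem_odd ha).2.2.2.le]
      simp
    have h4 : ∑ a ∈ (Ico 1 (k + 2)).filter (fun a => a % 2 = (if (k + 2) % 2 = 0 then 1 else 0)),
        (a : ℝ) ^ 2 = ∑ c ∈ (range (k + 2)).filter (fun c => (c + (k + 2)) % 2 = 1), (c : ℝ) ^ 2 := by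
      refine Finset.sum_subset ?_ ?_
      · intro a ha
        simp only [mem_filter, mem_Ico, mem_range] at ha ⊢
        split_ifs at ha <;> omega
      · intro a ha hna
        simp only [mem_filter, mem_Ico, mem_range] at ha hna
        have h5 : a = 0 := by
          by_contra hcon
          apply hna
          split_ifs <;> omega
        rw [h5]; norm_num
    rw [h3, h2, h4, squares]
    simp only [mul_zero, zero_add, Nat.sub_self, pow_zero, one_mul]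
    ring
  rw [h1]
  exact MULP.main2 _

theorem star_one (g : ℕ) (σ : Fin 1 → Bool) : starGraph g σ = twoGraph g 1 σ := by
  unfold starGraph twoGraph
  congr 1
  · funext i
    fin_cases i <;> rfl
  · funext i
    fin_cases i <;> rfl
  · funext i
    fin_cases i
    rfl

theorem pos (g n : ℕ) (σ : Fin n → Bool) (hn : 1 ≤ n) (hg : g = 0 ∧ n ≤ 2) :
    H524R3.HasExpansion 2 (fun k => (starGraph g σ).Z 2 (k + 2)) := by
  obtain ⟨rfl, hn2⟩ := hg
  rcases (by omega : n = 1 ∨ n = 2) with rfl | rfl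
  · rw [star_one]
    exact MAIN.pos 0 1 1 σ le_rfl ⟨by norm_num, by norm_num⟩
  · exact pos_two σ

end H572AE.STAR
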