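import Mathlib
import Pool.Agent.H572.AE.STAR3

/-!
# Star graphs: leaves of arbitrary genus
-/

set_option autoImplicit false

open Finset Polynomial
open scoped ContDiff

namespace H572AE

/-- The star: the vertex 0 of genus g is joined by one edge to each of n other vertices, of genera h i. All Euler
numbers are 0; the edges have arbitrary signs. -/
def star (g : ℕ) {n : ℕ} (h : Fin n → ℕ) (σ : Fin n → Bool) : W719AEC.PlumbingGraph (n + 1) n where
  genus := Fin.cons g h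
  euler := fun _ => 0
  src := fun _ => 0
  tgt := Fin.succ
  positive := σ

end H572AE

namespace H572AE.STAR

open W719AEC H572AE.RED2

/-- The sum. -/
noncomputable def TG {n : ℕ} (A : ℕ) (h : Fin n → ℕ) (r : ℕ) : ℝ :=
  ∑ a ∈ (Ico 1 r).filter (fun a => a % 2 = 1), (∏ i, RO (h i) r a) / Real.sin (Real.pi * a / r) ^ A

theorem leaf2 (r a H : ℕ) (hr : 2 ≤ r) (hH : 1 ≤ H) :
    ∑ b ∈ Ico 1 r, ((Sr r 1 b : ℝ) : ℂ) ^ (2 - 2 * (H : ℤ) - ((1 : ℕ) : ℤ)) * ((Sr r a b : ℝ) : ℂ) =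
    ((Real.sqrt ((r : ℝ) / 2) ^ (2 * (H - 1)) * RO H r a : ℝ) : ℂ) := by
  unfold RO
  rw [Finset.mul_sum, Complex.ofReal_sum]
  refine Finset.sum_congr rfl fun b hb => ?_
  have hs : 0 < Real.sqrt ((r : ℝ) / 2) := by
    apply Real.sqrt_pos.2
    have : (0 : ℝ) < r := by exact_mod_cast (by omega : 0 < r)
    linarith
  rw [Sr_zpow r b H 1 (by omega), ← Complex.ofReal_mul, Sr_eq]
  congr 1
  have h1 := PHO.sin_ne hb
  rw [show 2 * H + 1 - 2 = 2 * H - 1 by omega]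
  have h2 : Real.sqrt ((r : ℝ) / 2) ^ (2 * H - 1) = Real.sqrt ((r : ℝ) / 2) ^ (2 * (H - 1)) *
      Real.sqrt ((r : ℝ) / 2) := by
    rw [← pow_succ]; congr 1; omega
  rw [h2]
  field_simp

theorem state2 (g n : ℕ) (h : Fin n → ℕ) (hh : ∀ i, 1 ≤ h i) (σ : Fin n → Bool) (r : ℕ) (hr : 2 ≤ r)
    (hn : 1 ≤ n) (hg : 2 ≤ 2 * g + n) : (star g h σ).Z 2 r =
      (((Real.sqrt ((r : ℝ) / 2) ^ (2 * g + n - 2 + ∑ i, 2 * (h i - 1)) *
        TG (2 * g + n - 2) h r : ℝ)) : ℂ) := by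
  have ht : triv 2 = ![0, 1] := by
    funext i
    fin_cases i <;> rfl
  have hd0 : (star g h σ).degree 0 = n := by
    have h1 : (univ.filter fun e : Fin n => (star g h σ).src e = 0) = univ := by
      ext e; simp [star]
    have h2 : (univ.filter fun e : Fin n => (star g h σ).tgt e = 0) = ∅ := by
      ext e; simp [star, Fin.succ_ne_zero]
    unfold PlumbingGraph.degree
    rw [h1, h2]; simp
  have hd1 : ∀ i : Fin n, (star g h σ).degree i.succ = 1 := by
    intro i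
    have h1 : (univ.filter fun e : Fin n => (star g h σ).src e = i.succ) = ∅ := by
      ext e; simp [star, (Fin.succ_ne_zero i).symm]
    have h2 : (univ.filter fun e : Fin n => (star g h σ).tgt e = i.succ) = {i} := by
      ext e; simp [star]
    unfold PlumbingGraph.degree
    rw [h1, h2]; simp
  unfold PlumbingGraph.Z
  rw [sum_cons, sum_labels]
  have key : ∀ a ∈ Ico 1 r, ∑ y ∈ Fintype.piFinset (fun _ : Fin n => labels 2 r),
      (∏ v, twist 2 r ((Fin.cons ![0, a] y : Fin (n + 1) → Fin 2 → ℕ) v) ^ (star g h σ).euler v *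
        Smat 2 r (triv 2) ((Fin.cons ![0, a] y : Fin (n + 1) → Fin 2 → ℕ) v) ^
          (2 - 2 * ((star g h σ).genus v : ℤ) - ((star g h σ).degree v : ℤ))) *
      ∏ e, (if (star g h σ).positive e then
        Smat 2 r ((Fin.cons ![0, a] y : Fin (n + 1) → Fin 2 → ℕ) ((star g h σ).src e))
          ((Fin.cons ![0, a] y : Fin (n + 1) → Fin 2 → ℕ) ((star g h σ).tgt e))
        else (starRingEnd ℂ) (Smat 2 r ((Fin.cons ![0, a] y : Fin (n + 1) → Fin 2 → ℕ) ((star g h σ).src e))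
          ((Fin.cons ![0, a] y : Fin (n + 1) → Fin 2 → ℕ) ((star g h σ).tgt e)))) =
      ((Sr r 1 a : ℝ) : ℂ) ^ (2 - 2 * (g : ℤ) - (n : ℤ)) *
        ∏ i, ((Real.sqrt ((r : ℝ) / 2) ^ (2 * (h i - 1)) * RO (h i) r a : ℝ) : ℂ) := by
    intro a _
    have h1 : ∀ y ∈ Fintype.piFinset (fun _ : Fin n => labels 2 r),
      (∏ v, twist 2 r ((Fin.cons ![0, a] y : Fin (n + 1) → Fin 2 → ℕ) v) ^ (star g h σ).euler v *
        Smat 2 r (triv 2) ((Fin.cons ![0, a] y : Fin (n + 1) → Fin 2 → ℕ) v) ^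
          (2 - 2 * ((star g h σ).genus v : ℤ) - ((star g h σ).degree v : ℤ))) *
      ∏ e, (if (star g h σ).positive e then
        Smat 2 r ((Fin.cons ![0, a] y : Fin (n + 1) → Fin 2 → ℕ) ((star g h σ).src e))
          ((Fin.cons ![0, a] y : Fin (n + 1) → Fin 2 → ℕ) ((star g h σ).tgt e))
        else (starRingEnd ℂ) (Smat 2 r ((Fin.cons ![0, a] y : Fin (n + 1) → Fin 2 → ℕ) ((star g h σ).src e))
          ((Fin.cons ![0, a] y : Fin (n + 1) → Fin 2 → ℕ) ((star g h σ).tgt e)))) =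
        ((Sr r 1 a : ℝ) : ℂ) ^ (2 - 2 * (g : ℤ) - (n : ℤ)) *
          ∏ i, (Smat 2 r ![0, 1] (y i) ^ (2 - 2 * (h i : ℤ) - ((1 : ℕ) : ℤ)) *
            (if σ i then Smat 2 r ![0, a] (y i) else (starRingEnd ℂ) (Smat 2 r ![0, a] (y i)))) := by
      intro y _
      rw [Fin.prod_univ_succ, hd0]
      have e0 : (star g h σ).euler 0 = 0 := rfl
      have g0 : (star g h σ).genus 0 = g := rfl
      rw [e0, g0, zpow_zero, one_mul, Fin.cons_zero, ht, Smat_eq r 1 a hr, mul_assoc]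
      congr 1
      rw [← Finset.prod_mul_distrib]
      refine Finset.prod_congr rfl fun i _ => ?_
      have e1 : (star g h σ).euler i.succ = 0 := rfl
      have g1 : (star g h σ).genus i.succ = h i := rfl
      have s1 : (star g h σ).src i = 0 := rfl
      have t1 : (star g h σ).tgt i = i.succ := rfl
      have p1 : (star g h σ).positive i = σ i := rfl
      rw [e1, g1, s1, t1, p1, hd1 i, zpow_zero, one_mul, Fin.cons_succ, Fin.cons_zero]
    rw [Finset.sum_congr rfl h1, ← Finset.mul_sum]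
    congr 1
    rw [← Finset.prod_univ_sum (fun _ : Fin n => labels 2 r)
      (fun i z => Smat 2 r ![0, 1] z ^ (2 - 2 * (h i : ℤ) - ((1 : ℕ) : ℤ)) *
      (if σ i then Smat 2 r ![0, a] z else (starRingEnd ℂ) (Smat 2 r ![0, a] z)))]
    refine Finset.prod_congr rfl fun i _ => ?_
    rw [sum_labels, ← leaf2 r a (h i) hr (hh i)]
    refine Finset.sum_congr rfl fun b _ => ?_
    rw [Smat_eq r 1 b hr, Smat_eq r a b hr, edge]
  rw [Finset.sum_congr rfl key]
  unfold TG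
  rw [Finset.mul_sum, Complex.ofReal_sum]
  symm
  refine Finset.sum_subset_zero_on_sdiff (filter_subset _ _) ?_ ?_
  · intro a ha
    rw [mem_sdiff, mem_filter] at ha
    have h3 : a % 2 = 0 := by
      by_contra hcon
      exact ha.2 ⟨ha.1, by omega⟩
    have h4 : ∏ i, ((Real.sqrt ((r : ℝ) / 2) ^ (2 * (h i - 1)) * RO (h i) r a : ℝ) : ℂ) = 0 := by
      refine Finset.prod_eq_zero (mem_univ (⟨0, hn⟩ : Fin n)) ?_
      rw [ASYO.RO_even _ r a h3, mul_zero, Complex.ofReal_zero]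
    rw [h4, mul_zero]
  · intro a ha
    rw [Sr_zpow r a g n hg, ← Complex.ofReal_prod, ← Complex.ofReal_mul]
    congr 1
    rw [Finset.prod_mul_distrib, Finset.prod_pow_eq_pow_sum, pow_add]
    ring

/-! ### Polynomials in two variables -/

/-- The value at X = r, Y = a. -/
noncomputable def ev (r a : ℝ) : ℝ[X][X] →+* ℝ := (evalRingHom a).comp (mapRingHom (evalRingHom r))

theorem ev_eq (r a : ℝ) (P : ℝ[X][X]) (N : ℕ) (hP : ∀ l, N < l → P.coeff l = 0) :
    ev r a P = ∑ l ∈ range (N + 1), (P.coeff l).eval r * a ^ l := by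
  have h1 : (P.map (evalRingHom r)).natDegree < N + 1 := by
    refine lt_of_le_of_lt natDegree_map_le ?_
    refine Nat.lt_succ_of_le (natDegree_le_iff_coeff_eq_zero.mpr hP)
  show (P.map (evalRingHom r)).eval a = _
  rw [eval_eq_sum_range' h1]
  refine Finset.sum_congr rfl fun l _ => ?_
  rw [coeff_map]
  rfl

theorem supp_mul (S S' S'' : ℕ → ℕ → Prop) (h : ∀ l m l' m', S l m → S' l' m' → S'' (l + l') (m + m'))
    (P P' : ℝ[X][X]) (hP : ∀ l m, (P.coeff l).coeff m ≠ 0 → S l m)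
    (hP' : ∀ l m, (P'.coeff l).coeff m ≠ 0 → S' l m) :
    ∀ l m, ((P * P').coeff l).coeff m ≠ 0 → S'' l m := by
  intro l m hne
  rw [coeff_mul, finsetSum_coeff] at hne
  obtain ⟨x, hx, hx1⟩ := Finset.exists_ne_zero_of_sum_ne_zero hne
  rw [coeff_mul] at hx1
  obtain ⟨y, hy, hy1⟩ := Finset.exists_ne_zero_of_sum_ne_zero hx1
  have h1 := hP _ _ (left_ne_zero_of_mul hy1)
  have h2 := hP' _ _ (right_ne_zero_of_mul hy1)
  rw [HasAntidiagonal.mem_antidiagonal] at hx hy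
  rw [← hx, ← hy]
  exact h _ _ _ _ h1 h2

theorem supp_add (S : ℕ → ℕ → Prop) (P P' : ℝ[X][X]) (hP : ∀ l m, (P.coeff l).coeff m ≠ 0 → S l m)
    (hP' : ∀ l m, (P'.coeff l).coeff m ≠ 0 → S l m) : ∀ l m, ((P + P').coeff l).coeff m ≠ 0 → S l m := by
  intro l m hne
  rw [coeff_add, coeff_add] at hne
  by_cases h1 : (P.coeff l).coeff m = 0
  · rw [h1, zero_add] at hne; exact hP' l m hne
  · exact hP l m h1

theorem VO_zero_sign (n : ℕ) : 0 < (-1 : ℝ) ^ n * (VO n).coeff 0 := by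
  induction n with
  | zero => simp [VO]
  | succ n ih =>
    have h1 : (VO (n + 1)).coeff 0 = (VO n).coeff 0 * (-(2 * (n : ℝ) + 1) ^ 2) := by
      show (VO n * (X ^ 2 - C ((2 * (n : ℝ) + 1) ^ 2))).coeff 0 = _
      rw [mul_coeff_zero, coeff_sub, coeff_C_zero, coeff_X_pow]
      norm_num
    rw [h1, pow_succ]
    have h2 : (0 : ℝ) < (2 * (n : ℝ) + 1) ^ 2 := by positivity
    have h3 : (-1 : ℝ) ^ n * -1 * ((VO n).coeff 0 * -(2 * (n : ℝ) + 1) ^ 2) =
        ((-1) ^ n * (VO n).coeff 0) * (2 * (n : ℝ) + 1) ^ 2 := by ring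
    rw [h3]
    exact mul_pos ih h2

theorem nearLeaf (H : ℕ) (hH : 1 ≤ H) : ∃ (B : ℝ[X][X]) (δ : ℝ) (M : ℝ[X][X]), 0 < δ ∧
    (∀ l m, (B.coeff l).coeff m ≠ 0 → l + m ≤ 2 * H - 1) ∧
    B = C (C δ) * (C X - X) + M ∧ (∀ l m, (M.coeff l).coeff m ≠ 0 → 2 ≤ l + m) ∧
    ∀ r a : ℕ, 1 ≤ r → a % 2 = 1 → a < 2 * r → RO H r a = ev r a B := by
  obtain ⟨q, hq1, hq2, hq3⟩ := FEO.coeffsO H hH
  set δ : ℝ := (-1) ^ (H - 1) / ((2 * H - 2).factorial : ℝ) * (VO (H - 1)).coeff 0 with hδ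
  have hδ0 : 0 < δ := by
    have h1 := VO_zero_sign (H - 1)
    have h2 : δ = ((-1) ^ (H - 1) * (VO (H - 1)).coeff 0) / ((2 * H - 2).factorial : ℝ) := by
      rw [hδ]; ring
    rw [h2]; positivity
  have hq0 : q 0 = C δ * X := by
    have := hq2 0
    rw [mul_zero] at this
    exact this
  set B : ℝ[X][X] := ∑ l ∈ range (2 * H), C (q l) * X ^ l with hB
  have hBc : ∀ l, B.coeff l = if l < 2 * H then q l else 0 := by
    intro l
    rw [hB, finsetSum_coeff]
    simp only [coeff_C_mul, coeff_X_pow]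
    simp only [mul_ite, mul_one, mul_zero]
    rw [Finset.sum_ite_eq]
    simp only [mem_range]
  -- the linear coefficient
  have hlin : (q 1).coeff 0 = -δ := by
    set Q : ℝ[X] := ∑ l ∈ range (2 * H), q l * X ^ l with hQ
    have hQ0 : Q = 0 := by
      refine Polynomial.eq_zero_of_infinite_isRoot Q ?_
      refine Set.infinite_of_injective_forall_mem (f := fun k : ℕ => ((2 * k + 1 : ℕ) : ℝ)) ?_ ?_
      · intro i j hij
        have h : ((2 * i + 1 : ℕ) : ℝ) = ((2 * j + 1 : ℕ) : ℝ) := hij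
        have := Nat.cast_injective h
        omega
      · intro k
        show Q.eval ((2 * k + 1 : ℕ) : ℝ) = 0
        have h1 := hq3 (2 * k + 1) (2 * k + 1) (by omega) (by omega) (by omega)
        have h2 : RO H (2 * k + 1) (2 * k + 1) = 0 := by
          unfold RO
          refine Finset.sum_eq_zero fun b _ => ?_
          have hr0 : (((2 * k + 1 : ℕ) : ℝ)) ≠ 0 := by positivity
          have e1 : Real.pi * ((2 * k + 1 : ℕ) : ℝ) * b / ((2 * k + 1 : ℕ) : ℝ) = b * Real.pi := by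
            field_simp
          rw [e1, Real.sin_nat_mul_pi, zero_div]
        rw [hQ, eval_finsetSum, ← h2, h1]
        refine Finset.sum_congr rfl fun l _ => ?_
        rw [eval_mul, eval_pow, eval_X]
    have h3 : Q.coeff 1 = 0 := by rw [hQ0, coeff_zero]
    rw [hQ, finsetSum_coeff] at h3
    simp only [coeff_mul_X_pow'] at h3
    obtain ⟨t, ht⟩ : ∃ t, 2 * H = t + 1 + 1 := ⟨2 * H - 2, by omega⟩
    rw [ht, Finset.sum_range_succ', Finset.sum_range_succ'] at h3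
    have h4 : ∑ k ∈ range t, (if k + 1 + 1 ≤ 1 then (q (k + 1 + 1)).coeff (1 - (k + 1 + 1)) else 0) = 0 :=
      Finset.sum_eq_zero fun k _ => by rw [if_neg (by omega)]
    rw [h4] at h3
    simp only [zero_add, le_refl, if_true, Nat.sub_self, zero_le, Nat.sub_zero] at h3
    rw [hq0, coeff_C_mul, coeff_X_one, mul_one] at h3
    linarith
  refine ⟨B, δ, B - C (C δ) * (C X - X), hδ0, ?_, by ring, ?_, ?_⟩
  · intro l m hne
    rw [hBc] at hne
    split_ifs at hne with hl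
    · have h1 := le_natDegree_of_ne_zero hne
      have h2 := hq1 l (by omega)
      omega
    · simp at hne
  · intro l m hne
    by_contra hcon
    apply hne
    have h1 : (C (C δ) * (C X - X) : ℝ[X][X]).coeff l = C δ * ((if l = 0 then X else 0) - (if l = 1 then 1 else 0)) := by
      rw [coeff_C_mul, coeff_sub, coeff_C, coeff_X]
      congr 2
      simp only [eq_comm]
    rw [coeff_sub, h1, hBc, if_pos (by omega)]
    rcases (by omega : (l = 0 ∧ m = 0) ∨ (l = 0 ∧ m = 1) ∨ (l = 1 ∧ m = 0)) with ⟨rfl, rfl⟩ | ⟨rfl, rfl⟩ | ⟨rfl, rfl⟩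
    · rw [hq0]; simp
    · rw [hq0]; simp
    · simp [hlin]
  · intro r a hr ha har
    rw [hq3 r a hr ha har, hB, map_sum]
    refine Finset.sum_congr rfl fun l _ => ?_
    rw [map_mul, map_pow]
    show (q l).eval (r : ℝ) * (a : ℝ) ^ l = ((C (q l) : ℝ[X][X]).map (evalRingHom (r : ℝ))).eval (a : ℝ) *
      (((X : ℝ[X][X]).map (evalRingHom (r : ℝ))).eval (a : ℝ)) ^ l
    rw [Polynomial.map_C, Polynomial.map_X, eval_C, eval_X]
    rfl

theorem farLeaf (H : ℕ) (hH : 1 ≤ H) : ∃ (F : ℝ[X][X]) (r₀ : ℕ),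
    (∀ l m, (F.coeff l).coeff m ≠ 0 → l + m ≤ 2 * H - 1) ∧ (∀ l m, (F.coeff l).coeff m ≠ 0 → l % 2 = 1) ∧
    ∀ r a : ℕ, r₀ ≤ r → a < r → (a + r) % 2 = 1 → RO H r (r - a) = ev r a F := by
  obtain ⟨ρ, hρd, r₀, hρ⟩ := PHE.main PHO.main (CP.main PH.main EO.main) EVO.main H hH
  have hc : ∀ l m, ((∑ i ∈ range H, C (ρ i) * X ^ (2 * i + 1) : ℝ[X][X]).coeff l).coeff m ≠ 0 →
      ∃ i < H, l = 2 * i + 1 ∧ (ρ i).coeff m ≠ 0 := by
    intro l m hne
    rw [finsetSum_coeff, finsetSum_coeff] at hne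
    obtain ⟨i, hi, hi1⟩ := Finset.exists_ne_zero_of_sum_ne_zero hne
    rw [coeff_C_mul, coeff_X_pow] at hi1
    split_ifs at hi1 with hl
    · exact ⟨i, mem_range.mp hi, hl, by simpa using hi1⟩
    · simp at hi1
  refine ⟨∑ i ∈ range H, C (ρ i) * X ^ (2 * i + 1), r₀, ?_, ?_, ?_⟩
  · intro l m hne
    obtain ⟨i, hi, hl, h1⟩ := hc l m hne
    have h2 := le_natDegree_of_ne_zero h1
    have h3 := hρd i hi
    omega
  · intro l m hne
    obtain ⟨i, hi, hl, h1⟩ := hc l m hne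
    omega
  · intro r a hr ha har
    rw [hρ r a hr ha har, map_sum]
    refine Finset.sum_congr rfl fun i _ => ?_
    rw [map_mul, map_pow]
    show (ρ i).eval (r : ℝ) * (a : ℝ) ^ (2 * i + 1) =
      ((C (ρ i) : ℝ[X][X]).map (evalRingHom (r : ℝ))).eval (a : ℝ) *
      (((X : ℝ[X][X]).map (evalRingHom (r : ℝ))).eval (a : ℝ)) ^ (2 * i + 1)
    rw [Polynomial.map_C, Polynomial.map_X, eval_C, eval_X]
    rfl

end H572AE.STAR
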