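import Mathlib
import Pool.Agent.H572.AE.STAR4

/-!
# Star graphs with leaves of arbitrary genus: the expansion
-/

set_option autoImplicit false

open Finset Polynomial
open scoped ContDiff

namespace H572AE.STAR

theorem slice_deg (P : ℝ[X][X]) (N : ℕ) (hP : ∀ l m, (P.coeff l).coeff m ≠ 0 → l + m ≤ N) (l : ℕ) :
    (P.coeff l).natDegree ≤ N - l ∧ (N < l → P.coeff l = 0) := by
  have h1 : N < l → P.coeff l = 0 := by
    intro hl
    ext m
    by_contra hne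
    rw [coeff_zero] at hne
    have := hP l m hne
    omega
  refine ⟨?_, h1⟩
  rw [natDegree_le_iff_coeff_eq_zero]
  intro m hm
  by_contra hne
  have := hP l m hne
  omega

theorem near2 (h2 : S_fe2o) (N e : ℕ) (he : 1 ≤ e) (P : ℝ[X][X])
    (hP : ∀ l m, (P.coeff l).coeff m ≠ 0 → l + m ≤ N) :
    FEN 2 (e + N) (fun r => (r : ℝ) ^ e * (∑ a ∈ (Ico 1 r).filter (fun a => a % 2 = 1),
      ev r a P / (a : ℝ) ^ e) - (C (1 / 2) * X ^ e * P.coeff (e - 1)).eval (r : ℝ) * Real.log r) := by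
  have A1 : FEN 2 (e + N) (fun r => ∑ i ∈ range (N + 1),
      (X ^ e * P.coeff i : ℝ[X]).eval (r : ℝ) *
        ((∑ a ∈ (Ico 1 r).filter (fun a => a % 2 = 1), (a : ℝ) ^ i / (a : ℝ) ^ e) -
          (if i + 1 = e then Real.log r / 2 else 0))) := by
    refine FEN.sum _ fun i hi => ?_
    have hi' := mem_range.mp hi
    have hd : (X ^ e * P.coeff i : ℝ[X]).natDegree ≤ e + (N - i) :=
      natDegree_mul_le.trans (add_le_add (natDegree_X_pow_le _) (slice_deg P N hP i).1)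
    refine ((FEO.Wo h2 1 (by norm_num) i e he).mulpoly _ hd).mono ?_
    split_ifs <;> omega
  refine A1.congr fun r hr => ?_
  simp only [mul_sub, Finset.sum_sub_distrib]
  congr 1
  · rw [Finset.mul_sum]
    have h3 : ∀ a ∈ (Ico 1 r).filter (fun a => a % 2 = 1), (r : ℝ) ^ e * (ev r a P / (a : ℝ) ^ e) =
        ∑ i ∈ range (N + 1), (X ^ e * P.coeff i : ℝ[X]).eval (r : ℝ) *
          ((a : ℝ) ^ i / (a : ℝ) ^ e) := by
      intro a _
      rw [ev_eq r a P N (fun l hl => (slice_deg P N hP l).2 hl), Finset.sum_div, Finset.mul_sum]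
      refine Finset.sum_congr rfl fun i _ => ?_
      rw [eval_mul, eval_pow, eval_X]
      ring
    rw [Finset.sum_congr rfl h3, Finset.sum_comm]
    refine Finset.sum_congr rfl fun i _ => ?_
    rw [Finset.mul_sum]
  · by_cases hen : e - 1 ≤ N
    · rw [Finset.sum_eq_single (e - 1)]
      · rw [if_pos (by omega)]
        simp only [eval_mul, eval_C, eval_pow, eval_X]
        ring
      · intro i _ hi
        rw [if_neg (by omega), mul_zero]
      · intro h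
        exact absurd (mem_range.mpr (by omega)) h
    · rw [(slice_deg P N hP (e - 1)).2 (by omega)]
      simp only [mul_zero, eval_zero, zero_mul]
      refine Finset.sum_eq_zero fun i hi => ?_
      have hi' := mem_range.mp hi
      rw [if_neg (by omega), mul_zero]

theorem far2 (h2 : S_fe2o) (N n e : ℕ) (he : 1 ≤ e) (hpar : (e + n) % 2 = 0) (F : ℝ[X][X])
    (hF : ∀ l m, (F.coeff l).coeff m ≠ 0 → l + m ≤ N)
    (hF' : ∀ l m, (F.coeff l).coeff m ≠ 0 → (l + n) % 2 = 0) (T : ℕ → ℕ → ℝ) (r₀ : ℕ)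
    (hT : ∀ r a : ℕ, r₀ ≤ r → a < r → (a + r) % 2 = 1 → T r (r - a) = ev r a F) :
    FEN 2 (e + N) (fun r => (r : ℝ) ^ e * (∑ a ∈ (Ico 1 r).filter (fun a => a % 2 = 1),
      T r a / ((r : ℝ) - a) ^ e)) := by
  have A0 : ∀ ε : ℕ, ε < 2 → FEN 2 (e + N) (fun r => (r : ℝ) ^ e *
      (∑ a ∈ (Ico 1 r).filter (fun a => a % 2 = ε), ev r a F / (a : ℝ) ^ e)) := by
    intro ε hε
    have A1 : FEN 2 (e + N) (fun r => ∑ i ∈ range (N + 1),
      (X ^ e * F.coeff i : ℝ[X]).eval (r : ℝ) *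
        ((∑ a ∈ (Ico 1 r).filter (fun a => a % 2 = ε), (a : ℝ) ^ i / (a : ℝ) ^ e) -
          (if i + 1 = e then Real.log r / 2 else 0))) := by
      refine FEN.sum _ fun i hi => ?_
      have hi' := mem_range.mp hi
      have hd : (X ^ e * F.coeff i : ℝ[X]).natDegree ≤ e + (N - i) :=
        natDegree_mul_le.trans (add_le_add (natDegree_X_pow_le _) (slice_deg F N hF i).1)
      refine ((FEO.Wo h2 ε hε i e he).mulpoly _ hd).mono ?_
      split_ifs <;> omega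
    refine A1.congr fun r hr => ?_
    rw [Finset.mul_sum]
    have h3 : ∀ a ∈ (Ico 1 r).filter (fun a => a % 2 = ε), (r : ℝ) ^ e * (ev r a F / (a : ℝ) ^ e) =
        ∑ i ∈ range (N + 1), (X ^ e * F.coeff i : ℝ[X]).eval (r : ℝ) *
          ((a : ℝ) ^ i / (a : ℝ) ^ e) := by
      intro a _
      rw [ev_eq r a F N (fun l hl => (slice_deg F N hF l).2 hl), Finset.sum_div, Finset.mul_sum]
      refine Finset.sum_congr rfl fun i _ => ?_
      rw [eval_mul, eval_pow, eval_X]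
      ring
    rw [Finset.sum_congr rfl h3, Finset.sum_comm]
    refine Finset.sum_congr rfl fun i _ => ?_
    rw [← Finset.mul_sum]
    by_cases hie : i + 1 = e
    · have h0 : F.coeff i = 0 := by
        ext m
        by_contra hne
        rw [coeff_zero] at hne
        have := hF' i m hne
        omega
      rw [h0]; simp
    · rw [if_neg hie, sub_zero]
  refine ((A0 1 (by norm_num)).ite2 (A0 0 (by norm_num)) (dvd_refl 2)).eventually r₀ fun r hr _ => ?_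
  have h4 : ∑ a ∈ (Ico 1 r).filter (fun a => a % 2 = 1), T r a / ((r : ℝ) - a) ^ e =
      ∑ a ∈ (Ico 1 r).filter (fun a => a % 2 = (if r % 2 = 0 then 1 else 0)),
        ev r a F / (a : ℝ) ^ e := by
    rw [← FEO.reflect_odd r (fun a : ℕ => ev r a F / (a : ℝ) ^ e)]
    refine Finset.sum_congr rfl fun a ha => ?_
    have h5 := mem_filter.mp ha
    have h6 := (mem_odd ha).2.2.2
    have h7 := mem_Ico.mp h5.1
    have h8 := hT r (r - a) hr (by omega) (by omega)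
    rw [show r - (r - a) = a by omega] at h8
    rw [h8, Nat.cast_sub h6.le]
  rw [h4]
  split_ifs <;> rfl

theorem smooth2 (hgeo : S_geo) (N : ℕ) (P : ℝ[X][X])
    (hP : ∀ l m, (P.coeff l).coeff m ≠ 0 → l + m ≤ N)
    (R : ℝ → ℝ) (hR : ContDiffOn ℝ ∞ R (Set.Ioo (-1) 2)) :
    FEN 2 (1 + N) (fun r => ∑ a ∈ (Ico 1 r).filter (fun a => a % 2 = 1),
      ev r a P * R ((a : ℝ) / r)) := by
  have A1 : FEN 2 (1 + N) (fun r => ∑ i ∈ range (N + 1), (X ^ i * P.coeff i : ℝ[X]).eval (r : ℝ) *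
      (∑ a ∈ (Ico 1 r).filter (fun a => a % 2 = 1), ((a : ℝ) / r) ^ i * R ((a : ℝ) / r))) := by
    refine FEN.sum _ fun i hi => ?_
    have hi' := mem_range.mp hi
    have hd : (X ^ i * P.coeff i : ℝ[X]).natDegree ≤ i + (N - i) :=
      natDegree_mul_le.trans (add_le_add (natDegree_X_pow_le _) (slice_deg P N hP i).1)
    have hsm : ContDiffOn ℝ ∞ (fun x : ℝ => x ^ i * R x)
      (Set.Ioo (((0 : ℕ) : ℝ) / ((1 : ℕ) : ℝ) - 1 / 2) ((((0 : ℕ) : ℝ) + 1) / ((1 : ℕ) : ℝ) + 1 / 2)) := by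
      refine ContDiffOn.mul (contDiff_id.pow i).contDiffOn (hR.mono fun x hx => ?_)
      have hx' := Set.mem_Ioo.mp hx
      norm_num at hx'
      exact Set.mem_Ioo.mpr ⟨by linarith [hx'.1], by linarith [hx'.2]⟩
    have h1 := (hgeo 1 0 (1 / 2) _ le_rfl (by norm_num) (by norm_num) hsm).mulpoly _ hd
    refine (h1.mono (by omega)).congr fun r hr => ?_
    have h2 : (range r).filter (fun a => a % 2 = 1 ∧ 0 * r ≤ 1 * a ∧ 1 * a < (0 + 1) * r) =
      (Ico 1 r).filter (fun a => a % 2 = 1) := by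
      ext a
      simp only [mem_filter, mem_range, mem_Ico]
      omega
    rw [h2]
  refine A1.congr fun r hr => ?_
  have hr0 : (0 : ℝ) < r := by exact_mod_cast (by omega : 0 < r)
  simp only [Finset.mul_sum]
  rw [Finset.sum_comm]
  refine Finset.sum_congr rfl fun a _ => ?_
  rw [ev_eq r a P N (fun l hl => (slice_deg P N hP l).2 hl), Finset.sum_mul]
  refine Finset.sum_congr rfl fun i _ => ?_
  rw [eval_mul, eval_pow, eval_X, div_pow]
  field_simp

theorem core2 (h2 : S_fe2o) (hgeo : S_geo) (n N A G : ℕ) (e : ℕ → ℕ) (hA : 1 ≤ A)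
    (he : ∀ s ∈ Icc 1 G, 1 ≤ e s ∧ e s ≤ A ∧ (e s + n) % 2 = 0) (c : ℕ → ℝ) (R : ℝ → ℝ)
    (hR : ContDiffOn ℝ ∞ R (Set.Ioo (-1) 2))
    (hc : ∀ x : ℝ, 0 < x → x < 1 → 1 / Real.sin (Real.pi * x) ^ A =
      (∑ s ∈ Icc 1 G, c s * (1 / (Real.pi * x) ^ (e s) + 1 / (Real.pi * (1 - x)) ^ (e s))) + R x)
    (P F : ℝ[X][X]) (hP : ∀ l m, (P.coeff l).coeff m ≠ 0 → l + m ≤ N)
    (hF : ∀ l m, (F.coeff l).coeff m ≠ 0 → l + m ≤ N)
    (hF' : ∀ l m, (F.coeff l).coeff m ≠ 0 → (l + n) % 2 = 0) (T : ℕ → ℕ → ℝ) (r₀ : ℕ)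
    (hTP : ∀ r a : ℕ, 1 ≤ r → a % 2 = 1 → a < 2 * r → T r a = ev r a P)
    (hTF : ∀ r a : ℕ, r₀ ≤ r → a < r → (a + r) % 2 = 1 → T r (r - a) = ev r a F) :
    FEN 2 (A + N) (fun r => (∑ a ∈ (Ico 1 r).filter (fun a => a % 2 = 1),
      T r a / Real.sin (Real.pi * a / r) ^ A) -
      (∑ s ∈ Icc 1 G, C (c s / Real.pi ^ (e s)) * (C (1 / 2) * X ^ (e s) * P.coeff (e s - 1))).eval (r : ℝ) *
        Real.log r) := by
  have A1 := FEN.sum (N := 2) (d := A + N) (Icc 1 G) (F := fun s r => c s / Real.pi ^ (e s) *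
      ((r : ℝ) ^ (e s) * (∑ a ∈ (Ico 1 r).filter (fun a => a % 2 = 1), ev r a P / (a : ℝ) ^ (e s)) -
      (C (1 / 2) * X ^ (e s) * P.coeff (e s - 1)).eval (r : ℝ) * Real.log r))
    (fun s hs => ((near2 h2 N (e s) (he s hs).1 P hP).cmul _).mono (by have := he s hs; omega))
  have A2 := FEN.sum (N := 2) (d := A + N) (Icc 1 G) (F := fun s r => c s / Real.pi ^ (e s) *
      ((r : ℝ) ^ (e s) * (∑ a ∈ (Ico 1 r).filter (fun a => a % 2 = 1),
        T r a / ((r : ℝ) - a) ^ (e s))))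
    (fun s hs => ((far2 h2 N n (e s) (he s hs).1 (he s hs).2.2 F hF hF' T r₀ hTF).cmul _).mono
      (by have := he s hs; omega))
  have A3 := (smooth2 hgeo N P hP R hR).mono (d' := A + N) (by omega)
  refine ((A1.add A2).add A3).congr fun r hr => ?_
  have hr0 : (0 : ℝ) < r := by exact_mod_cast (by omega : 0 < r)
  have hpi := Real.pi_pos
  have h3 : ∀ a ∈ (Ico 1 r).filter (fun a => a % 2 = 1), T r a / Real.sin (Real.pi * a / r) ^ A =
      (∑ s ∈ Icc 1 G, c s / Real.pi ^ (e s) * ((r : ℝ) ^ (e s) * (ev r a P / (a : ℝ) ^ (e s)))) +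
      (∑ s ∈ Icc 1 G, c s / Real.pi ^ (e s) * ((r : ℝ) ^ (e s) *
        (T r a / ((r : ℝ) - a) ^ (e s)))) + ev r a P * R ((a : ℝ) / r) := by
    intro a ha
    obtain ⟨ha0, hra, -, har⟩ := mem_odd ha
    have h10 := hc ((a : ℝ) / r) (by positivity) (by rw [div_lt_one hr0]; linarith)
    have h11 : Real.pi * ((a : ℝ) / r) = Real.pi * a / r := by ring
    rw [h11] at h10
    rw [hTP r a hr (mem_filter.mp ha).2 (by omega), div_eq_mul_one_div, h10, mul_add, Finset.mul_sum,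
      ← Finset.sum_add_distrib]
    congr 1
    refine Finset.sum_congr rfl fun s _ => ?_
    have h12 : Real.pi * (1 - (a : ℝ) / r) = Real.pi * ((r : ℝ) - a) / r := by field_simp
    rw [h12, div_pow, div_pow, mul_pow, mul_pow]
    field_simp
  rw [Finset.sum_congr rfl h3, Finset.sum_add_distrib, Finset.sum_add_distrib, Finset.sum_comm,
    Finset.sum_comm (s := (Ico 1 r).filter (fun a => a % 2 = 1)) (t := Icc 1 G)]
  have h20 : ∑ s ∈ Icc 1 G, ∑ a ∈ (Ico 1 r).filter (fun a => a % 2 = 1), c s / Real.pi ^ (e s) *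
      ((r : ℝ) ^ (e s) * (ev r a P / (a : ℝ) ^ (e s))) =
      ∑ s ∈ Icc 1 G, c s / Real.pi ^ (e s) * ((r : ℝ) ^ (e s) *
        (∑ a ∈ (Ico 1 r).filter (fun a => a % 2 = 1), ev r a P / (a : ℝ) ^ (e s))) := by
    refine Finset.sum_congr rfl fun s _ => ?_
    rw [← Finset.mul_sum, ← Finset.mul_sum]
  have h21 : ∑ s ∈ Icc 1 G, ∑ a ∈ (Ico 1 r).filter (fun a => a % 2 = 1), c s / Real.pi ^ (e s) *
      ((r : ℝ) ^ (e s) * (T r a / ((r : ℝ) - a) ^ (e s))) =
      ∑ s ∈ Icc 1 G, c s / Real.pi ^ (e s) * ((r : ℝ) ^ (e s) *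
        (∑ a ∈ (Ico 1 r).filter (fun a => a % 2 = 1), T r a / ((r : ℝ) - a) ^ (e s))) := by
    refine Finset.sum_congr rfl fun s _ => ?_
    rw [← Finset.mul_sum, ← Finset.mul_sum]
  rw [h20, h21]
  have h23 : (∑ s ∈ Icc 1 G, C (c s / Real.pi ^ (e s)) * (C (1 / 2) * X ^ (e s) * P.coeff (e s - 1))).eval (r : ℝ) *
        Real.log r = ∑ s ∈ Icc 1 G, c s / Real.pi ^ (e s) *
          ((C (1 / 2) * X ^ (e s) * P.coeff (e s - 1)).eval (r : ℝ) * Real.log r) := by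
    rw [eval_finsetSum, Finset.sum_mul]
    refine Finset.sum_congr rfl fun s _ => ?_
    rw [eval_mul, eval_C, mul_assoc]
  rw [h23]
  simp only [mul_sub, Finset.sum_sub_distrib]
  ring

/-! ### The coefficients of lowest degree -/

theorem low (n : ℕ) (δ : ℝ) (P M : ℝ[X][X]) (hPM : P = C (C δ) * (C X - X) ^ n + M)
    (hM : ∀ l m, (M.coeff l).coeff m ≠ 0 → n + 1 ≤ l + m) (l m : ℕ) (hlm : l + m = n) :
    (P.coeff l).coeff m = δ * ((-1) ^ l * (n.choose l : ℝ)) := by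
  have h1 : (M.coeff l).coeff m = 0 := by
    by_contra hne
    have := hM l m hne
    omega
  rw [hPM, coeff_add, coeff_add, h1, add_zero, coeff_C_mul, coeff_C_mul]
  congr 1
  have h2 : (C X - X : ℝ[X][X]) ^ n = ∑ k ∈ range (n + 1),
      C (C ((-1) ^ k * (n.choose k : ℝ)) * X ^ (n - k)) * X ^ k := by
    rw [show (C X - X : ℝ[X][X]) = -X + C X by ring, add_pow]
    refine Finset.sum_congr rfl fun k _ => ?_
    simp only [map_mul, map_pow, map_neg, map_one, map_natCast]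
    have h3 : (-X : ℝ[X][X]) ^ k = (-1) ^ k * X ^ k := by
      rw [← mul_pow]; congr 1; ring
    rw [h3]
    ring
  rw [h2, finsetSum_coeff, finsetSum_coeff, Finset.sum_eq_single l]
  · rw [coeff_C_mul, coeff_X_pow, if_pos rfl, mul_one, coeff_C_mul, coeff_X_pow, if_pos (by omega), mul_one]
  · intro k _ hk
    rw [coeff_C_mul, coeff_X_pow, if_neg (fun h => hk h.symm), mul_zero, coeff_zero]
  · intro h
    exact absurd (mem_range.mpr (by omega)) h

theorem supp_lin (δ : ℝ) : ∀ l m, ((C (C δ) * (C X - X) : ℝ[X][X]).coeff l).coeff m ≠ 0 → 1 ≤ l + m := by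
  intro l m hne
  by_contra hcon
  apply hne
  obtain ⟨rfl, rfl⟩ : l = 0 ∧ m = 0 := by omega
  simp

theorem near_prod : ∀ (n : ℕ) (h : Fin n → ℕ) (_ : ∀ i, 1 ≤ h i), ∃ (P M : ℝ[X][X]) (δ : ℝ), 0 < δ ∧
    (∀ l m, (P.coeff l).coeff m ≠ 0 → l + m ≤ ∑ i, (2 * h i - 1)) ∧
    (∀ l m, (P.coeff l).coeff m ≠ 0 → n ≤ l + m) ∧
    P = C (C δ) * (C X - X) ^ n + M ∧ (∀ l m, (M.coeff l).coeff m ≠ 0 → n + 1 ≤ l + m) ∧
    ∀ r a : ℕ, 1 ≤ r → a % 2 = 1 → a < 2 * r → ∏ i, RO (h i) r a = ev r a P := by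
  intro n
  induction n with
  | zero =>
    intro h hh
    refine ⟨1, 0, 1, one_pos, ?_, ?_, by simp, ?_, ?_⟩
    · intro l m hne
      by_contra hcon
      apply hne
      rcases Nat.eq_zero_or_pos l with h0 | h0
      · subst h0
        have h1 : m ≠ 0 := by
          intro h1; apply hcon; rw [h1]; simp
        rw [coeff_one_zero, coeff_one, if_neg h1]
      · rw [coeff_one, if_neg (by omega), coeff_zero]
    · intro l m _; omega
    · intro l m hne; simp at hne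
    · intro r a _ _ _
      simp
  | succ n ih =>
    intro h hh
    obtain ⟨P, M, δ, hδ, h1, h2, h3, h4, h5⟩ := ih (fun i => h i.succ) (fun i => hh i.succ)
    obtain ⟨B, δ', M', hδ', b1, b3, b4, b5⟩ := nearLeaf (h 0) (hh 0)
    have b2 : ∀ l m, (B.coeff l).coeff m ≠ 0 → 1 ≤ l + m := by
      rw [b3]
      exact supp_add (fun l m => 1 ≤ l + m) _ _ (supp_lin δ') (fun l m hne => by have := b4 l m hne; omega)
    refine ⟨B * P, C (C δ') * (C X - X) * M + M' * P, δ' * δ, mul_pos hδ' hδ, ?_, ?_, ?_, ?_, ?_⟩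
    · rw [Fin.sum_univ_succ]
      exact supp_mul (fun l m => l + m ≤ 2 * h 0 - 1) (fun l m => l + m ≤ ∑ i : Fin n, (2 * h i.succ - 1)) _
        (fun l m l' m' u v => by omega) _ _ b1 h1
    · exact supp_mul (fun l m => 1 ≤ l + m) (fun l m => n ≤ l + m) (fun l m => n + 1 ≤ l + m)
        (fun l m l' m' u v => by omega) _ _ b2 h2
    · have e1 : B * P = C (C δ') * (C X - X) * P + M' * P := by
        conv_lhs => rw [b3]
        ring
      have e2 : C (C δ') * (C X - X) * P = C (C (δ' * δ)) * (C X - X) ^ (n + 1) +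
          C (C δ') * (C X - X) * M := by
        conv_lhs => rw [h3]
        rw [show (C (C (δ' * δ)) : ℝ[X][X]) = C (C δ') * C (C δ) by rw [C_mul, C_mul]]
        ring
      rw [e1, e2]
      ring
    · refine supp_add (fun l m => n + 1 + 1 ≤ l + m) _ _ ?_ ?_
      · exact supp_mul (fun l m => 1 ≤ l + m) (fun l m => n + 1 ≤ l + m) (fun l m => n + 1 + 1 ≤ l + m)
          (fun l m l' m' u v => by omega) _ _ (supp_lin δ') h4
      · exact supp_mul (fun l m => 2 ≤ l + m) (fun l m => n ≤ l + m) (fun l m => n + 1 + 1 ≤ l + m)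
          (fun l m l' m' u v => by omega) _ _ b4 h2
    · intro r a hr ha har
      rw [Fin.prod_univ_succ, map_mul, b5 r a hr ha har, h5 r a hr ha har]

theorem far_prod : ∀ (n : ℕ) (h : Fin n → ℕ) (_ : ∀ i, 1 ≤ h i), ∃ (F : ℝ[X][X]) (r₀ : ℕ),
    (∀ l m, (F.coeff l).coeff m ≠ 0 → l + m ≤ ∑ i, (2 * h i - 1)) ∧
    (∀ l m, (F.coeff l).coeff m ≠ 0 → (l + n) % 2 = 0) ∧
    ∀ r a : ℕ, r₀ ≤ r → a < r → (a + r) % 2 = 1 → ∏ i, RO (h i) r (r - a) = ev r a F := by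
  intro n
  induction n with
  | zero =>
    intro h hh
    have key : ∀ l m, ((1 : ℝ[X][X]).coeff l).coeff m ≠ 0 → l = 0 ∧ m = 0 := by
      intro l m hne
      rcases Nat.eq_zero_or_pos l with h0 | h0
      · subst h0
        refine ⟨rfl, ?_⟩
        by_contra h1
        apply hne
        rw [coeff_one_zero, coeff_one, if_neg h1]
      · exact absurd (by rw [coeff_one, if_neg (by omega), coeff_zero]) hne
    refine ⟨1, 0, ?_, ?_, ?_⟩
    · intro l m hne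
      obtain ⟨rfl, rfl⟩ := key l m hne
      simp
    · intro l m hne
      obtain ⟨rfl, rfl⟩ := key l m hne
      rfl
    · intro r a _ _ _
      simp
  | succ n ih =>
    intro h hh
    obtain ⟨F, r₀, h1, h2, h3⟩ := ih (fun i => h i.succ) (fun i => hh i.succ)
    obtain ⟨B, r₁, b1, b2, b3⟩ := farLeaf (h 0) (hh 0)
    refine ⟨B * F, max r₀ r₁, ?_, ?_, ?_⟩
    · rw [Fin.sum_univ_succ]
      exact supp_mul (fun l m => l + m ≤ 2 * h 0 - 1) (fun l m => l + m ≤ ∑ i : Fin n, (2 * h i.succ - 1)) _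
        (fun l m l' m' u v => by omega) _ _ b1 h1
    · exact supp_mul (fun l m => l % 2 = 1) (fun l m => (l + n) % 2 = 0) (fun l m => (l + (n + 1)) % 2 = 0)
        (fun l m l' m' u v => by omega) _ _ b2 h2
    · intro r a hr ha har
      rw [Fin.prod_univ_succ, map_mul, b3 r a (le_trans (le_max_right _ _) hr) ha har,
        h3 r a (le_trans (le_max_left _ _) hr) ha har]

theorem expansion2 (h2 : S_fe2o) (h4 : S_fe4) (h4o : S_fe4o) (hgeo : S_geo) (g n : ℕ) (h : Fin n → ℕ)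
    (hh : ∀ i, 1 ≤ h i) (hn : 1 ≤ n) (hg : 3 ≤ 2 * g + n) : ∃ Λ : ℝ[X], Λ.coeff (n + 1) ≠ 0 ∧
      (∀ j, Λ.coeff j ≠ 0 → n + 1 ≤ j ∧ j ≤ 1 + ∑ i, (2 * h i - 1)) ∧
      FEN 2 (2 * g + n - 2 + ∑ i, (2 * h i - 1))
        (fun r => TG (2 * g + n - 2) h r - Λ.eval (r : ℝ) * Real.log r) := by
  obtain ⟨P, M, δ, hδ, p1, p2, p3, p4, p5⟩ := near_prod n h hh
  obtain ⟨F, r₀, f1, f2, f3⟩ := far_prod n h hh
  have main : ∀ (A G : ℕ) (e : ℕ → ℕ) (hA : 1 ≤ A)
    (he : ∀ s ∈ Icc 1 G, 1 ≤ e s ∧ e s ≤ A ∧ (e s + n) % 2 = 0) (c : ℕ → ℝ) (hcp : ∀ s ∈ Icc 1 G, 0 < c s)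
    (R : ℝ → ℝ)
    (hR : ContDiffOn ℝ ∞ R (Set.Ioo (-1) 2))
    (hc : ∀ x : ℝ, 0 < x → x < 1 → 1 / Real.sin (Real.pi * x) ^ A =
      (∑ s ∈ Icc 1 G, c s * (1 / (Real.pi * x) ^ (e s) + 1 / (Real.pi * (1 - x)) ^ (e s))) + R x)
    (s₀ : ℕ) (hs₀ : s₀ ∈ Icc 1 G) (hn : e s₀ - 1 ≤ n), ∃ Λ : ℝ[X], Λ.coeff (n + 1) ≠ 0 ∧
      (∀ j, Λ.coeff j ≠ 0 → n + 1 ≤ j ∧ j ≤ 1 + ∑ i, (2 * h i - 1)) ∧
      FEN 2 (A + ∑ i, (2 * h i - 1)) (fun r => TG A h r - Λ.eval (r : ℝ) * Real.log r) := by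
    intro A G e hA he c hcp R hR hc s₀ hs₀ hn
    refine ⟨_, ?_, ?_, core2 h2 hgeo n _ A G e hA he c R hR hc P F p1 f1 f2
      (fun r a => ∏ i, RO (h i) r a) r₀ p5 f3⟩
    swap
    · intro j hj
      rw [finsetSum_coeff] at hj
      obtain ⟨s, hs, hs1⟩ := Finset.exists_ne_zero_of_sum_ne_zero hj
      rw [coeff_C_mul, mul_assoc, coeff_C_mul, coeff_X_pow_mul'] at hs1
      split_ifs at hs1 with hle
      · have h8 := right_ne_zero_of_mul (right_ne_zero_of_mul hs1)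
        have h9 := p1 _ _ h8
        have h10 := p2 _ _ h8
        have := (he s hs).1
        omega
      · simp at hs1
    have h6 := kappa n A G e he c hcp s₀ hs₀ hn
    have h7 : (∑ s ∈ Icc 1 G, C (c s / Real.pi ^ (e s)) *
        (C (1 / 2) * X ^ (e s) * P.coeff (e s - 1)) : ℝ[X]).coeff (n + 1) = δ *
        ∑ s ∈ Icc 1 G, c s / Real.pi ^ (e s) * ((-1) ^ (e s - 1) * (n.choose (e s - 1) : ℝ) / 2) := by
      rw [finsetSum_coeff, Finset.mul_sum]
      refine Finset.sum_congr rfl fun s hs => ?_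
      have he1 := (he s hs).1
      rw [coeff_C_mul, mul_assoc, coeff_C_mul, coeff_X_pow_mul']
      by_cases hle : e s ≤ n + 1
      · rw [if_pos hle, low n δ P M p3 p4 (e s - 1) (n + 1 - e s) (by omega)]
        ring
      · rw [if_neg hle, Nat.choose_eq_zero_of_lt (by omega)]
        simp
    rw [h7]
    exact mul_ne_zero hδ.ne' h6
  rcases Nat.even_or_odd' n with ⟨k, hk | hk⟩
  · obtain ⟨c, hc, R, hR, hcR⟩ := h4 (g + k - 1) (by omega)
    have he : ∀ s ∈ Icc 1 (g + k - 1), 1 ≤ 2 * s ∧ 2 * s ≤ 2 * (g + k - 1) ∧ (2 * s + n) % 2 = 0 := by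
      intro s hs
      have := mem_Icc.mp hs
      omega
    rw [show 2 * g + n - 2 = 2 * (g + k - 1) by omega]
    exact main (2 * (g + k - 1)) (g + k - 1) (fun s => 2 * s) (by omega) he c hc R hR hcR 1
      (mem_Icc.mpr ⟨le_rfl, by omega⟩) (by omega)
  · obtain ⟨c, hc, R, hR, hcR⟩ := h4o (g + k) (by omega)
    have he : ∀ s ∈ Icc 1 (g + k), 1 ≤ 2 * s - 1 ∧ 2 * s - 1 ≤ 2 * (g + k) - 1 ∧ (2 * s - 1 + n) % 2 = 0 := by
      intro s hs
      have := mem_Icc.mp hs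
      omega
    rw [show 2 * g + n - 2 = 2 * (g + k) - 1 by omega]
    exact main (2 * (g + k) - 1) (g + k) (fun s => 2 * s - 1) (by omega) he c hc R hR hcR 1
      (mem_Icc.mpr ⟨le_rfl, by omega⟩) (by omega)

end H572AE.STAR
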