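import Mathlib
import Pool.Agent.H572.AE.STAR5
import Pool.Agent.H572.AE.STAR3

/-!
# Star graphs with leaves of arbitrary genus: the classification
-/

set_option autoImplicit false

open Finset Polynomial

namespace H572AE.STAR

open W719AEC H572AE.RED2

/-- From the full expansion to three terms. -/
theorem three_terms2 (D : ℕ) (T : ℕ → ℝ) (Λ : ℝ[X]) (hΛ : 1 ≤ Λ.natDegree)
    (h : FEN 2 D (fun r => T r - Λ.eval (r : ℝ) * Real.log r)) : ∃ (P Q : ℝ[X]) (B : ℝ),
    ∀ n : ℕ, 2 ≤ n → |T n - (P.eval (n : ℝ) + (-1) ^ n * Q.eval (n : ℝ) +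
      Λ.leadingCoeff * (n : ℝ) ^ Λ.natDegree * Real.log n)| ≤ B * (n : ℝ) ^ Λ.natDegree := by
  obtain ⟨q, hq⟩ : ∃ q, q = Λ.natDegree := ⟨_, rfl⟩
  rw [← hq] at hΛ ⊢
  have h1 : FEN 2 (max D q) (fun r => (T r - Λ.eraseLead.eval (r : ℝ) * Real.log r) -
      Λ.leadingCoeff * (r : ℝ) ^ q * Real.log r) := by
    refine (h.mono (le_max_left _ _)).congr fun r _ => ?_
    have e1 : Λ.eval (r : ℝ) = Λ.eraseLead.eval (r : ℝ) + Λ.leadingCoeff * (r : ℝ) ^ q := by
      conv_lhs => rw [← eraseLead_add_C_mul_X_pow Λ]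
      rw [eval_add, eval_mul, eval_C, eval_pow, eval_X, hq]
    rw [e1]; ring
  obtain ⟨P, Q, B, hB⟩ := three_terms (max D q) q (le_max_right _ _) _ _ h1
  refine ⟨P, Q, B + ∑ i ∈ range q, |Λ.eraseLead.coeff i|, fun n hn => ?_⟩
  have hn1 : (1 : ℝ) ≤ n := by exact_mod_cast (by omega : 1 ≤ n)
  have hn0 : (0 : ℝ) < n := by linarith
  have hl0 : 0 ≤ Real.log n := Real.log_nonneg hn1
  have hl1 : Real.log n ≤ n := (Real.log_le_sub_one_of_pos hn0).trans (by linarith)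
  have h3 : |Λ.eraseLead.eval (n : ℝ) * Real.log n| ≤ (∑ i ∈ range q, |Λ.eraseLead.coeff i|) * (n : ℝ) ^ q := by
    have h2 : Λ.eraseLead.natDegree < q := by
      have := eraseLead_natDegree_le Λ
      omega
    rw [eval_eq_sum_range' h2, abs_mul, abs_of_nonneg hl0]
    have h4 : |∑ i ∈ range q, Λ.eraseLead.coeff i * (n : ℝ) ^ i| ≤
        (∑ i ∈ range q, |Λ.eraseLead.coeff i|) * (n : ℝ) ^ (q - 1) := by
      refine (Finset.abs_sum_le_sum_abs _ _).trans ?_
      rw [Finset.sum_mul]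
      refine Finset.sum_le_sum fun i hi => ?_
      have hi' := mem_range.mp hi
      rw [abs_mul, abs_of_nonneg (by positivity : (0 : ℝ) ≤ (n : ℝ) ^ i)]
      exact mul_le_mul_of_nonneg_left (pow_le_pow_right₀ hn1 (by omega)) (abs_nonneg _)
    have h5 : (n : ℝ) ^ q = (n : ℝ) ^ (q - 1) * n := by
      rw [← pow_succ]; congr 1; omega
    rw [h5, ← mul_assoc]
    exact mul_le_mul h4 hl1 hl0 (by positivity)
  have h6 := hB n hn
  have e3 : T n - (P.eval (n : ℝ) + (-1) ^ n * Q.eval (n : ℝ) + Λ.leadingCoeff * (n : ℝ) ^ q * Real.log n) =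
      (T n - Λ.eraseLead.eval (n : ℝ) * Real.log n -
        (P.eval (n : ℝ) + (-1) ^ n * Q.eval (n : ℝ) + Λ.leadingCoeff * (n : ℝ) ^ q * Real.log n)) +
        Λ.eraseLead.eval (n : ℝ) * Real.log n := by ring
  rw [e3, add_mul]
  exact (abs_add_le _ _).trans (add_le_add h6 h3)

theorem faul (p : ℕ) : ∃ q : ℝ[X], ∀ r : ℕ, ∑ i ∈ range r, (i : ℝ) ^ p = q.eval (r : ℝ) := by
  refine ⟨∑ i ∈ range (p + 1), C (((bernoulli i : ℚ) : ℝ) * ((p + 1).choose i : ℝ) / ((p : ℝ) + 1)) *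
    X ^ (p + 1 - i), fun r => ?_⟩
  have h1 := congrArg (fun x : ℚ => (x : ℝ)) (sum_range_pow r p)
  push_cast at h1
  rw [h1, eval_finsetSum]
  refine Finset.sum_congr rfl fun i _ => ?_
  simp only [eval_mul, eval_C, eval_pow, eval_X]
  ring

theorem par_sum (j : ℕ) (hj : 1 ≤ j) : ∃ q : ℝ[X], ∀ r : ℕ,
    ∑ c ∈ (range r).filter (fun c => (c + r) % 2 = 1), (c : ℝ) ^ (2 * j) = q.eval (r : ℝ) := by
  choose f hf using faul
  refine ⟨∑ k ∈ range (2 * j + 1), C (((2 * j).choose k : ℝ) * 2 ^ k / 2) * (1 - X) ^ (2 * j - k) * f k,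
    fun r => ?_⟩
  have key : ∀ r : ℕ, (∑ c ∈ (range r).filter (fun c => (c + r) % 2 = 1), (c : ℝ) ^ (2 * j) =
      (∑ i ∈ range r, (2 * (i : ℝ) + (1 - (r : ℝ))) ^ (2 * j)) / 2) ∧
      (∑ c ∈ (range (r + 1)).filter (fun c => (c + (r + 1)) % 2 = 1), (c : ℝ) ^ (2 * j) =
      (∑ i ∈ range (r + 1), (2 * (i : ℝ) + (1 - ((r + 1 : ℕ) : ℝ))) ^ (2 * j)) / 2) := by
    intro r
    induction r with
    | zero =>
      constructor
      · simp
      · have h1 : (range (0 + 1)).filter (fun c => (c + (0 + 1)) % 2 = 1) = {0} := by decide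
        have h2 : (0 : ℝ) ^ (2 * j) = 0 := zero_pow (by omega)
        rw [h1]
        simp [h2]
    | succ r ih =>
      refine ⟨ih.2, ?_⟩
      have h1 : (range (r + 1 + 1)).filter (fun c => (c + (r + 1 + 1)) % 2 = 1) =
          insert (r + 1) ((range r).filter (fun c => (c + r) % 2 = 1)) := by
        ext c
        simp only [mem_filter, mem_range, mem_insert]
        omega
      have h2 : (r + 1) ∉ (range r).filter (fun c => (c + r) % 2 = 1) := by
        simp only [mem_filter, mem_range]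
        omega
      rw [h1, Finset.sum_insert h2, ih.1, Finset.sum_range_succ, Finset.sum_range_succ']
      have e1 : ∀ i : ℕ, 2 * ((i + 1 : ℕ) : ℝ) + (1 - ((r + 1 + 1 : ℕ) : ℝ)) =
          2 * (i : ℝ) + (1 - (r : ℝ)) := by
        intro i; push_cast; ring
      simp only [e1]
      have e2 : (2 * ((0 : ℕ) : ℝ) + (1 - ((r + 1 + 1 : ℕ) : ℝ))) ^ (2 * j) =
          ((r + 1 : ℕ) : ℝ) ^ (2 * j) := by
        rw [show 2 * ((0 : ℕ) : ℝ) + (1 - ((r + 1 + 1 : ℕ) : ℝ)) = -((r + 1 : ℕ) : ℝ) by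
          push_cast; ring, Even.neg_pow (even_two_mul j)]
      have e3 : (2 * (r : ℝ) + (1 - (r : ℝ))) = ((r + 1 : ℕ) : ℝ) := by
        push_cast; ring
      rw [e2, e3]; ring
  rw [(key r).1, eval_finsetSum, Finset.sum_congr rfl (fun i _ => add_pow _ _ _), Finset.sum_comm,
    Finset.sum_div]
  refine Finset.sum_congr rfl fun k _ => ?_
  simp only [eval_mul, eval_C, eval_pow, eval_sub, eval_one, eval_X]
  rw [← hf k r, Finset.mul_sum, Finset.sum_div]
  refine Finset.sum_congr rfl fun i _ => ?_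
  rw [mul_pow]; ring

theorem exp_eventually (Z Z' : ℕ → ℂ) (k₁ : ℕ) (h : ∀ k, k₁ ≤ k → Z k = Z' k)
    (hZ : H524R3.HasExpansion 2 Z') : H524R3.HasExpansion 2 Z := by
  obtain ⟨m, c, d, b, a, H⟩ := hZ
  refine ⟨m, c, d, b, a, fun L => ?_⟩
  obtain ⟨B, k₀, hB⟩ := H L
  refine ⟨B, max k₀ k₁, fun k hk => ?_⟩
  rw [h k (le_trans (le_max_right _ _) hk)]
  exact hB k (le_trans (le_max_left _ _) hk)

theorem pos_two2 (h : Fin 2 → ℕ) (hh : ∀ i, 1 ≤ h i) (σ : Fin 2 → Bool) :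
    H524R3.HasExpansion 2 (fun k => (star 0 h σ).Z 2 (k + 2)) := by
  obtain ⟨F0, r0, f1, f2, f3⟩ := farLeaf (h 0) (hh 0)
  obtain ⟨F1, r1, g1, g2, g3⟩ := farLeaf (h 1) (hh 1)
  have hs : ∀ l m, ((F0 * F1).coeff l).coeff m ≠ 0 → (2 ≤ l ∧ l % 2 = 0) :=
    supp_mul (fun l m => l % 2 = 1) (fun l m => l % 2 = 1) (fun l m => 2 ≤ l ∧ l % 2 = 0)
      (fun l m l' m' u v => by omega) _ _ f2 g2
  obtain ⟨N, hN⟩ : ∃ N, N = (2 * h 0 - 1) + (2 * h 1 - 1) := ⟨_, rfl⟩
  have hd : ∀ l m, ((F0 * F1).coeff l).coeff m ≠ 0 → l + m ≤ N :=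
    supp_mul (fun l m => l + m ≤ 2 * h 0 - 1) (fun l m => l + m ≤ 2 * h 1 - 1) (fun l m => l + m ≤ N)
      (fun l m l' m' u v => by omega) _ _ f1 g1
  have hz : ∀ l, ((F0 * F1).coeff l) ≠ 0 → (2 ≤ l ∧ l % 2 = 0) := by
    intro l h0
    by_contra hcon
    apply h0
    ext m
    by_contra hm
    rw [coeff_zero] at hm
    exact hcon (hs l m hm)
  choose! q hq using par_sum
  obtain ⟨W, hW⟩ : ∃ W : ℝ[X], W = C ((1 / 2) ^ (∑ i, (h i - 1))) * X ^ (∑ i, (h i - 1)) *
    ∑ l ∈ range (N + 1), (F0 * F1).coeff l * q (l / 2) := ⟨_, rfl⟩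
  have key : ∀ r : ℕ, max (max r0 r1) 2 ≤ r → (star 0 h σ).Z 2 r = ((W.eval (r : ℝ) : ℝ) : ℂ) := by
    intro r hr
    have hr2 : 2 ≤ r := le_trans (le_max_right _ _) hr
    have hr0 : r0 ≤ r := le_trans (le_trans (le_max_left _ _) (le_max_left _ _)) hr
    have hr1 : r1 ≤ r := le_trans (le_trans (le_max_right _ _) (le_max_left _ _)) hr
    rw [state2 0 2 h hh σ r hr2 (by norm_num) (by norm_num)]
    congr 1
    have e1 : Real.sqrt ((r : ℝ) / 2) ^ (2 * 0 + 2 - 2 + ∑ i, 2 * (h i - 1)) =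
        (1 / 2) ^ (∑ i, (h i - 1)) * (r : ℝ) ^ (∑ i, (h i - 1)) := by
      rw [← Finset.mul_sum]
      simp only [mul_zero, zero_add, Nat.sub_self]
      rw [pow_mul, Real.sq_sqrt (by positivity), ← mul_pow]
      congr 1
      ring
    have e2 : TG (2 * 0 + 2 - 2) h r = ∑ l ∈ range (N + 1), ((F0 * F1).coeff l).eval (r : ℝ) *
        (q (l / 2)).eval (r : ℝ) := by
      unfold TG
      have e3 : ∑ a ∈ (Ico 1 r).filter (fun a => a % 2 = 1), (∏ i, RO (h i) r a) /
            Real.sin (Real.pi * a / r) ^ (2 * 0 + 2 - 2) =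
          ∑ a ∈ (Ico 1 r).filter (fun a => a % 2 = (if r % 2 = 0 then 1 else 0)),
            ev (r : ℝ) (a : ℝ) (F0 * F1) := by
        rw [← FEO.reflect_odd r (fun a : ℕ => ev (r : ℝ) (a : ℝ) (F0 * F1))]
        refine Finset.sum_congr rfl fun a ha => ?_
        have h5 := mem_filter.mp ha
        have h7 := mem_Ico.mp h5.1
        have h8 := f3 r (r - a) hr0 (by omega) (by omega)
        have h9 := g3 r (r - a) hr1 (by omega) (by omega)
        rw [show r - (r - a) = a by omega] at h8 h9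
        rw [Fin.prod_univ_two, h8, h9, map_mul]
        simp
      rw [e3]
      have e4 : ∑ a ∈ (Ico 1 r).filter (fun a => a % 2 = (if r % 2 = 0 then 1 else 0)),
            ev (r : ℝ) (a : ℝ) (F0 * F1) =
          ∑ a ∈ (range r).filter (fun c => (c + r) % 2 = 1), ev (r : ℝ) (a : ℝ) (F0 * F1) := by
        refine Finset.sum_subset ?_ ?_
        · intro a ha
          simp only [mem_filter, mem_Ico, mem_range] at ha ⊢
          split_ifs at ha <;> omega
        · intro a ha hna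
          simp only [mem_filter, mem_Ico, mem_range] at ha hna
          have h5 : a = 0 := by
            by_contra hcon
            apply hna
            split_ifs <;> omega
          rw [h5, ev_eq (r : ℝ) _ (F0 * F1) N (fun l hl => (slice_deg _ N hd l).2 hl)]
          refine Finset.sum_eq_zero fun l _ => ?_
          by_cases h0 : (F0 * F1).coeff l = 0
          · rw [h0, eval_zero, zero_mul]
          · have := hz l h0
            rw [Nat.cast_zero, zero_pow (by omega), mul_zero]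
      have e5 : ∀ a ∈ (range r).filter (fun c => (c + r) % 2 = 1), ev (r : ℝ) (a : ℝ) (F0 * F1) =
          ∑ l ∈ range (N + 1), ((F0 * F1).coeff l).eval (r : ℝ) * (a : ℝ) ^ l := fun a _ =>
        ev_eq (r : ℝ) (a : ℝ) (F0 * F1) N (fun l hl => (slice_deg _ N hd l).2 hl)
      rw [e4, Finset.sum_congr rfl e5, Finset.sum_comm]
      refine Finset.sum_congr rfl fun l _ => ?_
      rw [← Finset.mul_sum]
      by_cases h0 : (F0 * F1).coeff l = 0
      · rw [h0]; simp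
      · have h1 := hz l h0
        have h2 := hq (l / 2) (by omega) r
        rw [show 2 * (l / 2) = l by omega] at h2
        rw [h2]
    rw [e1, e2, hW]
    simp only [eval_mul, eval_C, eval_pow, eval_X, eval_finsetSum]
  exact exp_eventually _ _ (max (max r0 r1) 2) (fun k hk => key (k + 2) (by omega)) (MULP.main2 W)

theorem star_one2 (g : ℕ) (h : Fin 1 → ℕ) (σ : Fin 1 → Bool) : star g h σ = twoGraph g (h 0) σ := by
  unfold star twoGraph
  congr 1
  · funext i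
    fin_cases i <;> rfl
  · funext i
    fin_cases i <;> rfl
  · funext i
    fin_cases i
    rfl

theorem pos2 (g n : ℕ) (h : Fin n → ℕ) (hh : ∀ i, 1 ≤ h i) (σ : Fin n → Bool) (hn : 1 ≤ n)
    (hg : g = 0 ∧ n ≤ 2) : H524R3.HasExpansion 2 (fun k => (star g h σ).Z 2 (k + 2)) := by
  obtain ⟨rfl, hn2⟩ := hg
  rcases (by omega : n = 1 ∨ n = 2) with rfl | rfl
  · rw [star_one2]
    exact MAIN.pos 0 (h 0) 1 σ le_rfl ⟨by norm_num, by norm_num⟩
  · exact pos_two2 h hh σ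

end H572AE.STAR
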