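import Mathlib
import Pool.Agent.H572.AE.Stm2

/-!
# Statements for the third part of the project AE: traces of multitwists
-/

set_option autoImplicit false

open Finset

namespace H572AE

/-- The Verlinde number of the compact surface of genus g with m boundary circles labelled by x 0, ..., x (m-1)
(the dimension of its SU(2) TQFT vector space at level r - 2): ∑_y S_{0y}^(2 - 2g - m) ∏_i S_{x_i y}. -/
noncomputable def verlinde (g : ℕ) {m : ℕ} (r : ℕ) (x : Fin m → (Fin 2 → ℕ)) : ℂ :=
  ∑ y ∈ W719AEC.labels 2 r, W719AEC.Smat 2 r (W719AEC.triv 2) y ^ (2 - 2 * (g : ℤ) - (m : ℤ)) *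
    ∏ i, W719AEC.Smat 2 r (x i) y

/-- The trace of the SU(2) quantum representation at level r - 2 of the product of the Dehn twists (to the powers
+1 or -1, according to the signs σ) along m disjoint curves that cut a closed surface of genus g + h + m - 1 into two
pieces of genera g and h with m boundary circles each: in the basis given by the labels x of the curves the
twists act by the diagonal matrices with the entries θ, and the multiplicity of x is the product of the two
Verlinde numbers. -/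
noncomputable def twistTrace (g h : ℕ) {m : ℕ} (σ : Fin m → Bool) (r : ℕ) : ℂ :=
  ∑ x ∈ Fintype.piFinset (fun _ : Fin m => W719AEC.labels 2 r),
    (∏ i, if σ i then W719AEC.twist 2 r (x i) else (W719AEC.twist 2 r (x i))⁻¹) *
      (verlinde g r x * verlinde h r x)

/-- STS: the modular relation. -/
def S_sts : Prop := ∀ r : ℕ, 2 ≤ r → ∃ κ : ℂ, κ ≠ 0 ∧ ∀ x ∈ Ico 1 r, ∀ y ∈ Ico 1 r,
  (∑ a ∈ Ico 1 r, W719AEC.twist 2 r ![0, a] * (W719AEC.Smat 2 r ![0, a] ![0, x] *
      W719AEC.Smat 2 r ![0, a] ![0, y]) =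
    κ * ((W719AEC.twist 2 r ![0, x])⁻¹ * (W719AEC.twist 2 r ![0, y])⁻¹ * W719AEC.Smat 2 r ![0, x] ![0, y])) ∧
  (∑ a ∈ Ico 1 r, (W719AEC.twist 2 r ![0, a])⁻¹ * (W719AEC.Smat 2 r ![0, a] ![0, x] *
      W719AEC.Smat 2 r ![0, a] ![0, y]) =
    κ⁻¹ * (W719AEC.twist 2 r ![0, x] * W719AEC.twist 2 r ![0, y] * W719AEC.Smat 2 r ![0, x] ![0, y]))

/-- TRACE: the trace of a balanced multitwist is the state sum. -/
def S_trace : Prop := ∀ (g h m : ℕ) (σ : Fin m → Bool) (r : ℕ), 2 ≤ r →
  (univ.filter fun i => σ i = true).card = (univ.filter fun i => σ i = false).card →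
  twistTrace g h σ r = (twoGraph g h σ).Z 2 r

end H572AE
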