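import Mathlib
import Pool.Agent.H572.AE.Stm3
import Pool.Agent.H572.AE.RED2

/-!
# Project AE, piece STS: the modular relation
-/

set_option autoImplicit false

namespace H572AE.STS

open Finset H572AE W719AEC

/-- `exp (π i a ^ 2 / (2 r))` -/
noncomputable def Q (r : ℕ) (a : ℤ) : ℂ :=
  Complex.exp (Real.pi * Complex.I * (a : ℂ) ^ 2 / (2 * r))

/-- `exp (π i a / r)` -/
noncomputable def W (r : ℕ) (a : ℤ) : ℂ := Complex.exp (Real.pi * Complex.I * (a : ℂ) / r)

theorem Q_ne (r : ℕ) (a : ℤ) : Q r a ≠ 0 := Complex.exp_ne_zero _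

theorem W_ne (r : ℕ) (a : ℤ) : W r a ≠ 0 := Complex.exp_ne_zero _

theorem Q_add (r : ℕ) (hr : r ≠ 0) (a n : ℤ) : Q r (a + n) = Q r a * Q r n * W r (a * n) := by
  have h : (r : ℂ) ≠ 0 := by exact_mod_cast hr
  unfold Q W
  rw [← Complex.exp_add, ← Complex.exp_add]
  congr 1
  push_cast
  field_simp
  ring

theorem W_add (r : ℕ) (a b : ℤ) : W r (a + b) = W r a * W r b := by
  unfold W
  rw [← Complex.exp_add]
  congr 1
  push_cast
  ring

theorem W_zero (r : ℕ) : W r 0 = 1 := by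
  unfold W
  simp

theorem W_neg (r : ℕ) (a : ℤ) : W r (-a) = (W r a)⁻¹ := by
  refine eq_inv_of_mul_eq_one_left ?_
  rw [← W_add, neg_add_cancel, W_zero]

theorem W_period (r : ℕ) (hr : r ≠ 0) (k : ℤ) : W r (2 * r * k) = 1 := by
  have h : (r : ℂ) ≠ 0 := by exact_mod_cast hr
  unfold W
  rw [← Complex.exp_int_mul_two_pi_mul_I k]
  congr 1
  push_cast
  field_simp

theorem W_pow (r : ℕ) (a : ℤ) (b : ℕ) : W r a ^ b = W r (a * b) := by
  unfold W
  rw [← Complex.exp_nat_mul]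
  congr 1
  push_cast
  ring

theorem Q_two (r : ℕ) (hr : r ≠ 0) : Q r (2 * r) = 1 := by
  have h : (r : ℂ) ≠ 0 := by exact_mod_cast hr
  unfold Q
  rw [← Complex.exp_int_mul_two_pi_mul_I r]
  congr 1
  push_cast
  field_simp

theorem Q_period (r : ℕ) (hr : r ≠ 0) (a : ℤ) : Q r (a + (2 * r : ℕ)) = Q r a := by
  push_cast
  rw [Q_add r hr, Q_two r hr, show a * (2 * (r : ℤ)) = 2 * r * a by ring, W_period r hr]
  ring

theorem Q_neg (r : ℕ) (a : ℤ) : Q r (-a) = Q r a := by
  unfold Q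
  push_cast
  rw [neg_sq]

theorem Q_zero (r : ℕ) : Q r 0 = 1 := by
  unfold Q
  simp

theorem Q_conj (r : ℕ) (a : ℤ) : (starRingEnd ℂ) (Q r a) = (Q r a)⁻¹ := by
  unfold Q
  rw [← Complex.exp_conj, ← Complex.exp_neg]
  congr 1
  simp only [map_div₀, map_mul, map_pow, Complex.conj_ofReal, Complex.conj_I, map_natCast,
    map_intCast, map_ofNat]
  ring

/-! ### Sums over a period -/

theorem shift (M : ℕ) (f : ℤ → ℂ) (hf : ∀ a, f (a + M) = f a) (n : ℤ) :
    ∑ a ∈ range M, f (a + n) = ∑ a ∈ range M, f a := by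
  have step : ∀ n : ℤ, ∑ a ∈ range M, f (a + (n + 1)) = ∑ a ∈ range M, f (a + n) := by
    intro n
    have h1 := sum_range_succ (fun a : ℕ => f ((a : ℤ) + n)) M
    rw [sum_range_succ'] at h1
    have h2 : f ((M : ℤ) + n) = f (((0 : ℕ) : ℤ) + n) := by
      rw [Nat.cast_zero, zero_add, add_comm, hf]
    rw [h2] at h1
    have h3 := add_right_cancel h1
    rw [← h3]
    refine sum_congr rfl fun a _ => ?_
    congr 1
    push_cast
    ring
  induction n using Int.induction_on with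
  | zero => simp
  | succ n ih => rw [step, ih]
  | pred n ih =>
    have h := step (-(n : ℤ) - 1)
    rw [sub_add_cancel, ih] at h
    exact h.symm

/-- the Gauss sum -/
noncomputable def G (r : ℕ) : ℂ := ∑ a ∈ range (2 * r), Q r a

theorem sumQW (r : ℕ) (hr : r ≠ 0) (n : ℤ) :
    ∑ a ∈ range (2 * r), Q r a * W r (a * n) = (Q r n)⁻¹ * G r := by
  have h1 := shift (2 * r) (Q r) (Q_period r hr) n
  unfold G
  rw [← h1, mul_sum]
  refine sum_congr rfl fun a _ => ?_
  rw [Q_add r hr]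
  have := Q_ne r n
  field_simp

theorem sumW (r : ℕ) (hr : r ≠ 0) (a : ℕ) (ha : a < 2 * r) :
    ∑ b ∈ range (2 * r), W r (a * b) = if a = 0 then (2 * r : ℂ) else 0 := by
  split_ifs with h0
  · subst h0
    simp [W_zero]
  · have h1 : ∀ b ∈ range (2 * r), W r ((a : ℤ) * b) = W r a ^ b := fun b _ => (W_pow r a b).symm
    rw [sum_congr rfl h1]
    have hne : W r a ≠ 1 := by
      intro h
      unfold W at h
      rw [Complex.exp_eq_one_iff] at h
      obtain ⟨n, hn⟩ := h
      have hrc : (r : ℂ) ≠ 0 := by exact_mod_cast hr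
      have hpi : (Real.pi : ℂ) ≠ 0 := by exact_mod_cast Real.pi_ne_zero
      have h2 : (a : ℂ) = 2 * r * n := by
        have h3 : (Real.pi : ℂ) * Complex.I * ((a : ℕ) : ℂ) = Real.pi * Complex.I * (2 * r * n) := by
          rw [div_eq_iff hrc] at hn
          push_cast at hn
          linear_combination hn
        exact mul_left_cancel₀ (mul_ne_zero hpi Complex.I_ne_zero) h3
      have h4 : (a : ℤ) = 2 * r * n := by exact_mod_cast h2
      rcases lt_trichotomy n 0 with hn0 | hn0 | hn0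
      · have : (a : ℤ) < 0 := by
          rw [h4]
          have : (0 : ℤ) < r := by omega
          nlinarith
        omega
      · rw [hn0, mul_zero] at h4
        omega
      · have : (2 * r : ℤ) ≤ a := by
          rw [h4]
          have : (0 : ℤ) < r := by omega
          nlinarith
        omega
    rw [geom_sum_eq hne]
    have h5 : W r a ^ (2 * r) = 1 := by
      rw [W_pow]
      push_cast
      rw [show (a : ℤ) * (2 * (r : ℤ)) = 2 * r * a by ring]
      exact W_period r hr a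
    rw [h5, sub_self, zero_div]

theorem G_conj (r : ℕ) (hr : r ≠ 0) : G r * (starRingEnd ℂ) (G r) = 2 * r := by
  have h1 : (starRingEnd ℂ) (G r) = ∑ b ∈ range (2 * r), (Q r b)⁻¹ := by
    unfold G
    rw [map_sum]
    exact sum_congr rfl fun b _ => Q_conj r b
  rw [h1, mul_sum]
  have h2 : ∀ b ∈ range (2 * r), G r * (Q r b)⁻¹ =
      ∑ a ∈ range (2 * r), Q r a * W r ((a : ℤ) * b) := by
    intro b _
    rw [sumQW r hr, mul_comm]
  rw [sum_congr rfl h2, sum_comm]
  have h3 : ∀ a ∈ range (2 * r), ∑ b ∈ range (2 * r), Q r a * W r ((a : ℤ) * b) =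
      if a = 0 then (2 * r : ℂ) else 0 := by
    intro a ha
    rw [← mul_sum, sumW r hr a (mem_range.1 ha)]
    split_ifs with h0
    · subst h0
      rw [Nat.cast_zero, Q_zero, one_mul]
    · rw [mul_zero]
  rw [sum_congr rfl h3, sum_ite_eq' (range (2 * r)) 0, if_pos (mem_range.2 (by omega))]

theorem halve (r : ℕ) (hr : r ≠ 0) (f : ℤ → ℂ) (h0 : f 0 = 0) (h1 : f r = 0)
    (h2 : ∀ a : ℤ, f (2 * r - a) = f a) :
    ∑ a ∈ range (2 * r), f a = 2 * ∑ a ∈ Ico 1 r, f a := by
  have hsplit : ∀ g : ℕ → ℂ, ∑ x ∈ range r, g x = g 0 + ∑ x ∈ Ico 1 r, g x := by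
    intro g
    rw [range_eq_Ico, sum_eq_sum_Ico_succ_bot (Nat.pos_of_ne_zero hr)]
  rw [two_mul r, sum_range_add, hsplit, hsplit]
  have h3 : ∑ a ∈ Ico 1 r, f ((r + a : ℕ) : ℤ) = ∑ a ∈ Ico 1 r, f (a : ℤ) := by
    refine sum_nbij' (fun a => r - a) (fun a => r - a) ?_ ?_ ?_ ?_ ?_
    · intro a ha
      rw [mem_Ico] at ha ⊢
      omega
    · intro a ha
      rw [mem_Ico] at ha ⊢
      omega
    · intro a ha
      rw [mem_Ico] at ha
      omega
    · intro a ha
      rw [mem_Ico] at ha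
      omega
    · intro a ha
      rw [mem_Ico] at ha
      rw [← h2 ((r + a : ℕ) : ℤ)]
      congr 1
      push_cast [Nat.cast_sub ha.2.le]
      ring
  rw [h3]
  push_cast
  rw [h0, add_zero, h1]
  ring

/-- the sine of `π k / r` -/
noncomputable def sn (r : ℕ) (k : ℤ) : ℂ := (W r (-k) - W r k) * Complex.I / 2

theorem sin_eq (r x y : ℕ) : ((Real.sin (Real.pi * x * y / r) : ℝ) : ℂ) = sn r (x * y) := by
  unfold sn W
  push_cast
  rw [Complex.sin]
  congr 3
  · congr 1
    ring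
  · congr 1
    ring

theorem sum_sin (r : ℕ) (hr : r ≠ 0) (x y : ℤ) :
    ∑ a ∈ range (2 * r), Q r a * (sn r (a * x) * sn r (a * y)) =
      Complex.I * G r * (Q r x)⁻¹ * (Q r y)⁻¹ * sn r (x * y) := by
  have h1 : ∀ a ∈ range (2 * r), Q r a * (sn r (a * x) * sn r (a * y)) =
      -(1 / 4) * (Q r a * W r (a * (-x - y)) - Q r a * W r (a * (y - x)) -
        Q r a * W r (a * (x - y)) + Q r a * W r (a * (x + y))) := by
    intro a _
    unfold sn
    have e1 : W r ((a : ℤ) * (-x - y)) = W r (-(a * x)) * W r (-(a * y)) := by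
      rw [← W_add]
      congr 1
      ring
    have e2 : W r ((a : ℤ) * (y - x)) = W r (-(a * x)) * W r (a * y) := by
      rw [← W_add]
      congr 1
      ring
    have e3 : W r ((a : ℤ) * (x - y)) = W r (a * x) * W r (-(a * y)) := by
      rw [← W_add]
      congr 1
      ring
    have e4 : W r ((a : ℤ) * (x + y)) = W r (a * x) * W r (a * y) := by
      rw [← W_add]
      congr 1
      ring
    rw [e1, e2, e3, e4]
    linear_combination (Q r a * (W r (-(a * x)) - W r (a * x)) *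
      (W r (-(a * y)) - W r (a * y)) / 4) * Complex.I_mul_I
  rw [sum_congr rfl h1, ← mul_sum, sum_add_distrib, sum_sub_distrib, sum_sub_distrib,
    sumQW r hr, sumQW r hr, sumQW r hr, sumQW r hr]
  have q1 : Q r (x + y) = Q r x * Q r y * W r (x * y) := Q_add r hr x y
  have q2 : Q r (-x - y) = Q r x * Q r y * W r (x * y) := by
    rw [← q1, ← Q_neg r (x + y)]
    congr 1
    ring
  have q3 : Q r (x - y) = Q r x * Q r y * W r (-(x * y)) := by
    rw [sub_eq_add_neg, Q_add r hr, Q_neg]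
    congr 2
    ring
  have q4 : Q r (y - x) = Q r x * Q r y * W r (-(x * y)) := by
    rw [← q3, ← Q_neg r (x - y)]
    congr 1
    ring
  rw [q1, q2, q3, q4]
  unfold sn
  rw [W_neg]
  have hx := Q_ne r x
  have hy := Q_ne r y
  have hw := W_ne r (x * y)
  rw [mul_inv, mul_inv, mul_inv, mul_inv, inv_inv]
  linear_combination (-((G r) * (Q r x)⁻¹ * (Q r y)⁻¹ * ((W r (x * y))⁻¹ - W r (x * y)) / 2)) *
    Complex.I_mul_I

theorem sum_half (r : ℕ) (hr : r ≠ 0) (x y : ℤ) :
    ∑ a ∈ Ico 1 r, Q r (a : ℕ) * (sn r ((a : ℕ) * x) * sn r ((a : ℕ) * y)) =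
      Complex.I * G r * (Q r x)⁻¹ * (Q r y)⁻¹ * sn r (x * y) / 2 := by
  have h1 := halve r hr (fun a : ℤ => Q r a * (sn r (a * x) * sn r (a * y)))
    (by
      have : sn r (0 * x) = 0 := by
        unfold sn
        rw [zero_mul, neg_zero, sub_self, zero_mul, zero_div]
      change Q r 0 * (sn r (0 * x) * sn r (0 * y)) = 0
      rw [this]
      ring)
    (by
      have : sn r ((r : ℤ) * x) = 0 := by
        unfold sn
        have h2 : W r ((r : ℤ) * x) = W r (-((r : ℤ) * x)) := by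
          have h3 : (r : ℤ) * x = -((r : ℤ) * x) + 2 * r * x := by ring
          calc W r ((r : ℤ) * x) = W r (-((r : ℤ) * x) + 2 * r * x) := by rw [← h3]
            _ = _ := by rw [W_add, W_period r hr, mul_one]
        rw [← h2, sub_self, zero_mul, zero_div]
      change Q r r * (sn r ((r : ℤ) * x) * sn r (r * y)) = 0
      rw [this]
      ring)
    (by
      intro a
      have hq : Q r (2 * (r : ℤ) - a) = Q r a := by
        rw [← Q_neg r a, ← Q_period r hr (-a)]
        congr 1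
        push_cast
        ring
      have hs : ∀ z : ℤ, sn r ((2 * (r : ℤ) - a) * z) = -sn r (a * z) := by
        intro z
        unfold sn
        have e1 : -((2 * (r : ℤ) - a) * z) = a * z + 2 * r * (-z) := by ring
        have e2 : (2 * (r : ℤ) - a) * z = -(a * z) + 2 * r * z := by ring
        rw [e1, e2, W_add, W_add, W_period r hr, W_period r hr]
        ring
      change Q r (2 * (r : ℤ) - a) * (sn r ((2 * (r : ℤ) - a) * x) *
        sn r ((2 * (r : ℤ) - a) * y)) = Q r a * (sn r (a * x) * sn r (a * y))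
      rw [hq, hs, hs]
      ring)
  rw [← sum_sin r hr x y]
  rw [h1]
  ring

theorem twist_eq (r a : ℕ) : twist 2 r ![0, a] = Q r a * (Q r 1)⁻¹ := by
  unfold twist Q
  rw [← Complex.exp_neg, ← Complex.exp_add]
  congr 1
  rw [Fin.sum_univ_two, Fin.sum_univ_two]
  simp only [Matrix.cons_val_zero, Matrix.cons_val_one, Nat.cast_zero, Int.cast_natCast,
    Int.cast_one]
  ring

theorem main : S_sts := by
  intro r hr
  have hr0 : r ≠ 0 := by omega
  obtain ⟨c, hc⟩ : ∃ c : ℝ, c = Real.sqrt 2 / Real.sqrt r := ⟨_, rfl⟩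
  have hrR : (0 : ℝ) < r := by
    have : 0 < r := by omega
    exact_mod_cast this
  have hc2 : c ^ 2 = 2 / r := by
    rw [hc, div_pow, Real.sq_sqrt (by norm_num), Real.sq_sqrt hrR.le]
  have hS : ∀ x y : ℕ, Smat 2 r ![0, x] ![0, y] = (c : ℂ) * sn r (x * y) := by
    intro x y
    rw [RED2.Smat_eq r x y hr]
    unfold RED2.Sr
    rw [Complex.ofReal_mul, sin_eq, ← hc]
  have hq := Q_ne r 1
  have hκc : ((Q r 1)⁻¹ ^ 3 * c * Complex.I * G r / 2) *
      (starRingEnd ℂ) ((Q r 1)⁻¹ ^ 3 * c * Complex.I * G r / 2) = 1 := by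
    simp only [map_div₀, map_mul, map_pow, map_inv₀, Complex.conj_ofReal, Complex.conj_I,
      Q_conj, map_ofNat]
    have h1 := G_conj r hr0
    have h2 : ((c : ℂ)) ^ 2 * (2 * r) = 4 := by
      have : c ^ 2 * (2 * r) = 4 := by
        rw [hc2]
        field_simp
        norm_num
      exact_mod_cast this
    have h3 : (Q r 1)⁻¹ ^ 3 * c * Complex.I * G r / 2 *
        ((Q r 1)⁻¹⁻¹ ^ 3 * c * -Complex.I * (starRingEnd ℂ) (G r) / 2) =
        ((Q r 1)⁻¹ * Q r 1) ^ 3 * (-(Complex.I * Complex.I)) * (c ^ 2 *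
          (G r * (starRingEnd ℂ) (G r))) / 4 := by
      rw [inv_inv]
      ring
    rw [h3, inv_mul_cancel₀ hq, h1, h2, Complex.I_mul_I]
    norm_num
  have hκ0 : (Q r 1)⁻¹ ^ 3 * c * Complex.I * G r / 2 ≠ 0 := by
    intro h
    rw [h, zero_mul] at hκc
    exact zero_ne_one hκc
  have first : ∀ x y : ℕ,
      ∑ a ∈ Ico 1 r, twist 2 r ![0, a] * (Smat 2 r ![0, a] ![0, x] * Smat 2 r ![0, a] ![0, y]) =
      ((Q r 1)⁻¹ ^ 3 * c * Complex.I * G r / 2) *
        ((twist 2 r ![0, x])⁻¹ * (twist 2 r ![0, y])⁻¹ * Smat 2 r ![0, x] ![0, y]) := by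
    intro x y
    have h1 : ∀ a ∈ Ico 1 r, twist 2 r ![0, a] *
        (Smat 2 r ![0, a] ![0, x] * Smat 2 r ![0, a] ![0, y]) =
        (Q r 1)⁻¹ * c ^ 2 * (Q r (a : ℕ) * (sn r ((a : ℕ) * (x : ℤ)) * sn r ((a : ℕ) * (y : ℤ)))) := by
      intro a _
      rw [twist_eq, hS, hS]
      ring
    rw [sum_congr rfl h1, ← mul_sum, sum_half r hr0, twist_eq, twist_eq, hS, mul_inv, mul_inv,
      inv_inv]
    have hx := Q_ne r x
    have hy := Q_ne r y
    field_simp
  refine ⟨(Q r 1)⁻¹ ^ 3 * c * Complex.I * G r / 2, hκ0, fun x _ y _ => ⟨first x y, ?_⟩⟩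
  have ht : ∀ a : ℕ, (starRingEnd ℂ) (twist 2 r ![0, a]) = (twist 2 r ![0, a])⁻¹ := by
    intro a
    rw [twist_eq, map_mul, map_inv₀, Q_conj, Q_conj, mul_inv, inv_inv]
  have hSc : ∀ a b : ℕ, (starRingEnd ℂ) (Smat 2 r ![0, a] ![0, b]) = Smat 2 r ![0, a] ![0, b] := by
    intro a b
    rw [RED2.Smat_eq r a b hr, Complex.conj_ofReal]
  have h2 := congrArg (starRingEnd ℂ) (first x y)
  rw [map_sum] at h2
  have hkinv : (starRingEnd ℂ) ((Q r 1)⁻¹ ^ 3 * c * Complex.I * G r / 2) =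
      ((Q r 1)⁻¹ ^ 3 * c * Complex.I * G r / 2)⁻¹ := by
    refine eq_inv_of_mul_eq_one_left ?_
    rw [mul_comm]
    exact hκc
  rw [map_mul, hkinv] at h2
  simp only [map_mul, map_inv₀, ht, hSc, inv_inv] at h2
  exact h2

end H572AE.STS
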