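import Mathlib
import Pool.Agent.H572.AE.Stm3
import Pool.Agent.H572.AE.RED2

/-!
# Project AE, piece TRACE: the trace of a balanced multitwist is the state sum
-/

set_option autoImplicit false

namespace H572AE.TRACE

open Finset H572AE W719AEC H572AE.RED2

/-- The factor of the twist. -/
noncomputable def tw (r : ℕ) (b : Bool) (a : Fin 2 → ℕ) : ℂ :=
  if b then twist 2 r a else (twist 2 r a)⁻¹

theorem trace_expand (g h m : ℕ) (σ : Fin m → Bool) (r : ℕ) : twistTrace g h σ r =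
    ∑ y ∈ labels 2 r, ∑ z ∈ labels 2 r, (Smat 2 r (triv 2) y ^ (2 - 2 * (g : ℤ) - (m : ℤ)) *
      Smat 2 r (triv 2) z ^ (2 - 2 * (h : ℤ) - (m : ℤ))) *
      ∏ i : Fin m, ∑ a ∈ labels 2 r, tw r (σ i) a * (Smat 2 r a y * Smat 2 r a z) := by
  have h1 : ∀ y z : Fin 2 → ℕ,
      ∏ i : Fin m, ∑ a ∈ labels 2 r, tw r (σ i) a * (Smat 2 r a y * Smat 2 r a z) =
      ∑ x ∈ Fintype.piFinset (fun _ : Fin m => labels 2 r),
        ∏ i, (tw r (σ i) (x i) * (Smat 2 r (x i) y * Smat 2 r (x i) z)) := by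
    intro y z
    exact Finset.prod_univ_sum _ _
  have h2 : ∀ x : Fin m → (Fin 2 → ℕ),
      (∏ i, if σ i then twist 2 r (x i) else (twist 2 r (x i))⁻¹) *
        (verlinde g r x * verlinde h r x) =
      ∑ y ∈ labels 2 r, ∑ z ∈ labels 2 r,
        (Smat 2 r (triv 2) y ^ (2 - 2 * (g : ℤ) - (m : ℤ)) *
          Smat 2 r (triv 2) z ^ (2 - 2 * (h : ℤ) - (m : ℤ))) *
          ∏ i, (tw r (σ i) (x i) * (Smat 2 r (x i) y * Smat 2 r (x i) z)) := by
    intro x
    unfold verlinde
    rw [Finset.sum_mul_sum, Finset.mul_sum]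
    refine sum_congr rfl fun y _ => ?_
    rw [Finset.mul_sum]
    refine sum_congr rfl fun z _ => ?_
    rw [Finset.prod_mul_distrib, Finset.prod_mul_distrib]
    unfold tw
    ring
  unfold twistTrace
  rw [sum_congr rfl fun x _ => h2 x, Finset.sum_comm]
  refine sum_congr rfl fun y _ => ?_
  rw [Finset.sum_comm]
  refine sum_congr rfl fun z _ => ?_
  rw [h1, Finset.mul_sum]

theorem Z_expand (g h m : ℕ) (σ : Fin m → Bool) (r : ℕ) (hr : 2 ≤ r) : (twoGraph g h σ).Z 2 r =
    ∑ x ∈ Ico 1 r, ∑ y ∈ Ico 1 r, (Smat 2 r (triv 2) ![0, x] ^ (2 - 2 * (g : ℤ) - (m : ℤ)) *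
      Smat 2 r (triv 2) ![0, y] ^ (2 - 2 * (h : ℤ) - (m : ℤ))) *
      (Smat 2 r ![0, x] ![0, y]) ^ m := by
  unfold PlumbingGraph.Z
  rw [sum_two, sum_labels]
  refine sum_congr rfl fun x hx => ?_
  rw [sum_labels]
  refine sum_congr rfl fun y hy => ?_
  have hd0 : (twoGraph g h σ).degree 0 = m := by
    have : (univ.filter fun e : Fin m => (fun _ : Fin m => (0 : Fin 2)) e = 0).card +
      (univ.filter fun e : Fin m => (fun _ : Fin m => (1 : Fin 2)) e = 0).card = m := by simp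
    exact this
  have hd1 : (twoGraph g h σ).degree 1 = m := by
    have : (univ.filter fun e : Fin m => (fun _ : Fin m => (0 : Fin 2)) e = 1).card +
      (univ.filter fun e : Fin m => (fun _ : Fin m => (1 : Fin 2)) e = 1).card = m := by simp
    exact this
  have e0 : (twoGraph g h σ).euler 0 = 0 := rfl
  have e1 : (twoGraph g h σ).euler 1 = 0 := rfl
  have g0 : (twoGraph g h σ).genus 0 = g := rfl
  have g1 : (twoGraph g h σ).genus 1 = h := rfl
  have v0 : (![![0, x], ![0, y]] : Fin 2 → Fin 2 → ℕ) 0 = ![0, x] := rfl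
  have v1 : (![![0, x], ![0, y]] : Fin 2 → Fin 2 → ℕ) 1 = ![0, y] := rfl
  have hedge : ∀ e : Fin m, (if (twoGraph g h σ).positive e = true then
      Smat 2 r ((![![0, x], ![0, y]] : Fin 2 → Fin 2 → ℕ) ((twoGraph g h σ).src e))
        ((![![0, x], ![0, y]] : Fin 2 → Fin 2 → ℕ) ((twoGraph g h σ).tgt e))
      else (starRingEnd ℂ) (Smat 2 r ((![![0, x], ![0, y]] : Fin 2 → Fin 2 → ℕ) ((twoGraph g h σ).src e))
        ((![![0, x], ![0, y]] : Fin 2 → Fin 2 → ℕ) ((twoGraph g h σ).tgt e)))) =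
      Smat 2 r ![0, x] ![0, y] := by
    intro e
    have s0 : (twoGraph g h σ).src e = 0 := rfl
    have t0 : (twoGraph g h σ).tgt e = 1 := rfl
    rw [s0, t0, v0, v1, Smat_eq r x y hr, edge]
  rw [prod_congr rfl fun e _ => hedge e, prod_const, card_univ, Fintype.card_fin]
  rw [Fin.prod_univ_two, hd0, hd1, e0, e1, g0, g1]
  rw [v0, v1, zpow_zero, zpow_zero, one_mul, one_mul]

/-- The product of the inner sums. -/
theorem prod_bal {m : ℕ} (σ : Fin m → Bool) (A B S : ℂ) (hAB : A * B = 1)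
    (hb : (univ.filter fun i => σ i = true).card = (univ.filter fun i => σ i = false).card) :
    ∏ i : Fin m, (if σ i then A * S else B * S) = S ^ m := by
  have h1 : ∀ i : Fin m, (if σ i then A * S else B * S) = (if σ i = true then A else B) * S := by
    intro i
    rcases σ i <;> rfl
  rw [prod_congr rfl fun i _ => h1 i, Finset.prod_mul_distrib, prod_const, card_univ,
    Fintype.card_fin, Finset.prod_ite, prod_const, prod_const]
  have h2 : (univ.filter fun i => ¬ σ i = true) = (univ.filter fun i => σ i = false) := by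
    refine filter_congr fun i _ => ?_
    rw [Bool.not_eq_true]
  rw [h2, ← hb, ← mul_pow, hAB, one_pow, one_mul]

theorem main (h : S_sts) : S_trace := by
  intro g h' m σ r hr hb
  obtain ⟨κ, hκ, hs⟩ := h r hr
  rw [trace_expand, Z_expand g h' m σ r hr, sum_labels]
  refine sum_congr rfl fun x hx => ?_
  rw [sum_labels]
  refine sum_congr rfl fun y hy => ?_
  congr 1
  obtain ⟨h1, h2⟩ := hs x hx y hy
  have hx0 : twist 2 r ![0, x] ≠ 0 := Complex.exp_ne_zero _
  have hy0 : twist 2 r ![0, y] ≠ 0 := Complex.exp_ne_zero _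
  have key : ∀ i : Fin m, ∑ a ∈ labels 2 r, tw r (σ i) a *
      (Smat 2 r a ![0, x] * Smat 2 r a ![0, y]) =
      if σ i then (κ * ((twist 2 r ![0, x])⁻¹ * (twist 2 r ![0, y])⁻¹)) * Smat 2 r ![0, x] ![0, y]
        else (κ⁻¹ * (twist 2 r ![0, x] * twist 2 r ![0, y])) * Smat 2 r ![0, x] ![0, y] := by
    intro i
    rw [sum_labels]
    unfold tw
    rcases σ i with _ | _
    · simp only [Bool.false_eq_true, if_false]
      rw [h2]
      ring
    · simp only [if_true]
      rw [h1]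
      ring
  rw [prod_congr rfl fun i _ => key i]
  refine prod_bal σ _ _ _ ?_ hb
  field_simp

end H572AE.TRACE
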